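import Pool.Agent.AKXS_42_46_VA.Lib
import Pool.Agent.AKX.Split

set_option autoImplicit false

namespace Pool.Agent.AKXS_42_46_VA

open Pool.Agent.AKX Pool.Agent.AKU

theorem q12 :
    (chkQ D.T G offw offa offb wn (nat_lit 14) (rg (nat_lit 14) (nat_lit 44)) = true) ∧
    (chkQ D.T G offw offa offb wn (nat_lit 15) (rg (nat_lit 15) (nat_lit 1)) = true) ∧
    (chkQ D.T G offw offa offb wn (nat_lit 15) (rg (nat_lit 16) (nat_lit 5)) = true) ∧
    (chkQ D.T G offw offa offb wn (nat_lit 15) (rg (nat_lit 21) (nat_lit 20)) = true) ∧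
    (chkQ D.T G offw offa offb wn (nat_lit 15) (rg (nat_lit 41) (nat_lit 17)) = true) ∧
    (chkQ D.T G offw offa offb wn (nat_lit 16) (rg (nat_lit 16) (nat_lit 42)) = true) :=
  ⟨by decide +kernel,
   by decide +kernel,
   by decide +kernel,
   by decide +kernel,
   by decide +kernel,
   by decide +kernel⟩

end Pool.Agent.AKXS_42_46_VA
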