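import Pool.Agent.AKXS_42_46_VA.Lib
import Pool.Agent.AKX.Split

set_option autoImplicit false

namespace Pool.Agent.AKXS_42_46_VA

open Pool.Agent.AKX Pool.Agent.AKU

theorem q14 :
    (chkQ D.T G offw offa offb wn (nat_lit 21) (rg (nat_lit 21) (nat_lit 37)) = true) ∧
    (chkQ D.T G offw offa offb wn (nat_lit 22) (rg (nat_lit 22) (nat_lit 36)) = true) ∧
    (chkQ D.T G offw offa offb wn (nat_lit 23) (rg (nat_lit 23) (nat_lit 35)) = true) ∧
    (chkQ D.T G offw offa offb wn (nat_lit 24) (rg (nat_lit 24) (nat_lit 34)) = true) ∧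
    (chkQ D.T G offw offa offb wn (nat_lit 25) (rg (nat_lit 25) (nat_lit 33)) = true) ∧
    (chkQ D.T G offw offa offb wn (nat_lit 26) (rg (nat_lit 26) (nat_lit 32)) = true) ∧
    (chkQ D.T G offw offa offb wn (nat_lit 27) (rg (nat_lit 27) (nat_lit 31)) = true) ∧
    (chkQ D.T G offw offa offb wn (nat_lit 28) (rg (nat_lit 28) (nat_lit 30)) = true) ∧
    (chkQ D.T G offw offa offb wn (nat_lit 29) (rg (nat_lit 29) (nat_lit 29)) = true) ∧
    (chkQ D.T G offw offa offb wn (nat_lit 30) (rg (nat_lit 30) (nat_lit 28)) = true) ∧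
    (chkQ D.T G offw offa offb wn (nat_lit 31) (rg (nat_lit 31) (nat_lit 27)) = true) :=
  ⟨by decide +kernel,
   by decide +kernel,
   by decide +kernel,
   by decide +kernel,
   by decide +kernel,
   by decide +kernel,
   by decide +kernel,
   by decide +kernel,
   by decide +kernel,
   by decide +kernel,
   by decide +kernel⟩

end Pool.Agent.AKXS_42_46_VA
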