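import Pool.Agent.AKXS_42_46_VA.R0
import Pool.Agent.AKXS_42_46_VA.R1
import Pool.Agent.AKXS_42_46_VA.R2
import Pool.Agent.AKXS_42_46_VA.R3
import Pool.Agent.AKXS_42_46_VA.R4
import Pool.Agent.AKXS_42_46_VA.R5
import Pool.Agent.AKXS_42_46_VA.R6
import Pool.Agent.AKXS_42_46_VA.R7
import Pool.Agent.AKXS_42_46_VA.R8
import Pool.Agent.AKXS_42_46_VA.R9
import Pool.Agent.AKXS_42_46_VA.R10
import Pool.Agent.AKXS_42_46_VA.R11
import Pool.Agent.AKXS_42_46_VA.R12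

set_option autoImplicit false

namespace Pool.Agent.AKXS_42_46_VA

open Pool.Agent.AKX Pool.Agent.AKU

noncomputable def e24_0 : List Rx := [
  Rx.mk (nat_lit 100) (nat_lit 4) (nat_lit 4) (nat_lit 1) (nat_lit 4) (nat_lit 262) (nat_lit 174) r4_262 r0_174 (nat_lit 1533124982) (nat_lit 66964) (nat_lit 0) (nat_lit 0x1e8debd5bc) (nat_lit 4083866094),
  Rx.mk (nat_lit 108) (nat_lit 4) (nat_lit 5) (nat_lit 1) (nat_lit 6) (nat_lit 263) (nat_lit 175) r4_263 r0_175 (nat_lit 154395515) (nat_lit 0) (nat_lit 0) (nat_lit 0x1fe15133e0) (nat_lit 2335967163),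
  Rx.mk (nat_lit 116) (nat_lit 4) (nat_lit 6) (nat_lit 1) (nat_lit 6) (nat_lit 264) (nat_lit 176) r4_264 r0_176 (nat_lit 1408666374) (nat_lit 0) (nat_lit 0) (nat_lit 0x18f64197e2) (nat_lit 5519067172)]
noncomputable def e24_1 : List Rx := [
  Rx.mk (nat_lit 100) (nat_lit 4) (nat_lit 4) (nat_lit 1) (nat_lit 4) (nat_lit 281) (nat_lit 187) r4_281 r1_187 (nat_lit 841701750) (nat_lit 165446611) (nat_lit 0) (nat_lit 0x1f2f26c540) (nat_lit 3382603209),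
  Rx.mk (nat_lit 108) (nat_lit 4) (nat_lit 5) (nat_lit 1) (nat_lit 6) (nat_lit 282) (nat_lit 188) r4_282 r1_188 (nat_lit 39267561) (nat_lit 0) (nat_lit 0) (nat_lit 0x202320076a) (nat_lit 2150151859),
  Rx.mk (nat_lit 116) (nat_lit 4) (nat_lit 6) (nat_lit 1) (nat_lit 6) (nat_lit 283) (nat_lit 189) r4_283 r1_189 (nat_lit 1347990187) (nat_lit 0) (nat_lit 0) (nat_lit 0x1de4876ce8) (nat_lit 4083541235),
  Rx.mk (nat_lit 372) (nat_lit 4) (nat_lit 6) (nat_lit 5) (nat_lit 6) (nat_lit 279) (nat_lit 190) r4_279 r1_190 (nat_lit 1002481469) (nat_lit 0) (nat_lit 0) (nat_lit 0x201fd58e86) (nat_lit 3116793367),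
  Rx.mk (nat_lit 374) (nat_lit 6) (nat_lit 6) (nat_lit 5) (nat_lit 7) (nat_lit 280) (nat_lit 191) r4_280 r1_191 (nat_lit 0) (nat_lit 0) (nat_lit 0) (nat_lit 0x200e0ab410) (nat_lit 2133389648)]
noncomputable def e24_2 : List Rx := [
  Rx.mk (nat_lit 372) (nat_lit 4) (nat_lit 6) (nat_lit 5) (nat_lit 6) (nat_lit 271) (nat_lit 187) r4_271 r2_187 (nat_lit 39267561) (nat_lit 0) (nat_lit 0) (nat_lit 0x201c1fc8a6) (nat_lit 2157622559),
  Rx.mk (nat_lit 374) (nat_lit 6) (nat_lit 6) (nat_lit 5) (nat_lit 7) (nat_lit 272) (nat_lit 188) r4_272 r2_188 (nat_lit 0) (nat_lit 0) (nat_lit 0) (nat_lit 0x2015a91a7c) (nat_lit 2125261448)]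
noncomputable def e24_3 : List Rx := [
  Rx.mk (nat_lit 36) (nat_lit 4) (nat_lit 4) (nat_lit 0) (nat_lit 0) (nat_lit 315) (nat_lit 155) r4_315 r3_155 (nat_lit 123) (nat_lit 79) (nat_lit 107) (nat_lit 0x1ee7875664) (nat_lit 2453037757),
  Rx.mk (nat_lit 39) (nat_lit 7) (nat_lit 4) (nat_lit 0) (nat_lit 1) (nat_lit 318) (nat_lit 161) r4_318 r3_161 (nat_lit 0) (nat_lit 36840) (nat_lit 36996) (nat_lit 0x1fffc4b1a8) (nat_lit 2147823484),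
  Rx.mk (nat_lit 44) (nat_lit 4) (nat_lit 5) (nat_lit 0) (nat_lit 2) (nat_lit 316) (nat_lit 157) r4_316 r3_157 (nat_lit 968) (nat_lit 0) (nat_lit 797059250) (nat_lit 0x1fffffd80a) (nat_lit 2944544716),
  Rx.mk (nat_lit 47) (nat_lit 7) (nat_lit 5) (nat_lit 0) (nat_lit 3) (nat_lit 319) (nat_lit 163) r4_319 r3_163 (nat_lit 0) (nat_lit 0) (nat_lit 18488975) (nat_lit 0x1ff61c3c20) (nat_lit 2177592523),
  Rx.mk (nat_lit 52) (nat_lit 4) (nat_lit 6) (nat_lit 0) (nat_lit 2) (nat_lit 317) (nat_lit 159) r4_317 r3_159 (nat_lit 831002209) (nat_lit 0) (nat_lit 856) (nat_lit 0x1fffff9a0c) (nat_lit 2978488713),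
  Rx.mk (nat_lit 55) (nat_lit 7) (nat_lit 6) (nat_lit 0) (nat_lit 3) (nat_lit 320) (nat_lit 165) r4_320 r3_165 (nat_lit 0) (nat_lit 0) (nat_lit 16596843) (nat_lit 0x2003e11e5c) (nat_lit 2160871091),
  Rx.mk (nat_lit 100) (nat_lit 4) (nat_lit 4) (nat_lit 1) (nat_lit 4) (nat_lit 321) (nat_lit 156) r4_321 r3_156 (nat_lit 11640) (nat_lit 4909) (nat_lit 0) (nat_lit 0x2228e70688) (nat_lit 1560402697),
  Rx.mk (nat_lit 103) (nat_lit 7) (nat_lit 4) (nat_lit 1) (nat_lit 5) (nat_lit 324) (nat_lit 162) r4_324 r3_162 (nat_lit 0) (nat_lit 2860427) (nat_lit 0) (nat_lit 0x2106ad9074) (nat_lit 1871829375),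
  Rx.mk (nat_lit 108) (nat_lit 4) (nat_lit 5) (nat_lit 1) (nat_lit 6) (nat_lit 322) (nat_lit 158) r4_322 r3_158 (nat_lit 17246048) (nat_lit 0) (nat_lit 0) (nat_lit 0x208e236200) (nat_lit 2014210096),
  Rx.mk (nat_lit 111) (nat_lit 7) (nat_lit 5) (nat_lit 1) (nat_lit 7) (nat_lit 325) (nat_lit 164) r4_325 r3_164 (nat_lit 0) (nat_lit 0) (nat_lit 0) (nat_lit 0x20514f35fc) (nat_lit 2061730048),
  Rx.mk (nat_lit 116) (nat_lit 4) (nat_lit 6) (nat_lit 1) (nat_lit 6) (nat_lit 323) (nat_lit 160) r4_323 r3_160 (nat_lit 304689539) (nat_lit 0) (nat_lit 0) (nat_lit 0x2228f0ef5e) (nat_lit 1865441637),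
  Rx.mk (nat_lit 119) (nat_lit 7) (nat_lit 6) (nat_lit 1) (nat_lit 7) (nat_lit 326) (nat_lit 166) r4_326 r3_166 (nat_lit 0) (nat_lit 0) (nat_lit 0) (nat_lit 0x205ade9158) (nat_lit 2051568448)]
noncomputable def e24_4 : List Rx := [
  Rx.mk (nat_lit 100) (nat_lit 4) (nat_lit 4) (nat_lit 1) (nat_lit 4) (nat_lit 349) (nat_lit 161) r4_349 r4_161 (nat_lit 375852828) (nat_lit 3518531) (nat_lit 0) (nat_lit 0x1bec83cf7e) (nat_lit 3664011457),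
  Rx.mk (nat_lit 103) (nat_lit 7) (nat_lit 4) (nat_lit 1) (nat_lit 5) (nat_lit 352) (nat_lit 164) r4_352 r4_164 (nat_lit 0) (nat_lit 12924875) (nat_lit 0) (nat_lit 0x1d5cb2cb78) (nat_lit 2896566823),
  Rx.mk (nat_lit 108) (nat_lit 4) (nat_lit 5) (nat_lit 1) (nat_lit 6) (nat_lit 350) (nat_lit 162) r4_350 r4_162 (nat_lit 28589961) (nat_lit 0) (nat_lit 0) (nat_lit 0x202734e492) (nat_lit 2135126359),
  Rx.mk (nat_lit 111) (nat_lit 7) (nat_lit 5) (nat_lit 1) (nat_lit 7) (nat_lit 353) (nat_lit 165) r4_353 r4_165 (nat_lit 0) (nat_lit 0) (nat_lit 0) (nat_lit 0x2047d29f82) (nat_lit 2071816898),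
  Rx.mk (nat_lit 116) (nat_lit 4) (nat_lit 6) (nat_lit 1) (nat_lit 6) (nat_lit 351) (nat_lit 163) r4_351 r4_163 (nat_lit 662617175) (nat_lit 0) (nat_lit 0) (nat_lit 0x1ff2aff590) (nat_lit 2825391423),
  Rx.mk (nat_lit 119) (nat_lit 7) (nat_lit 6) (nat_lit 1) (nat_lit 7) (nat_lit 354) (nat_lit 166) r4_354 r4_166 (nat_lit 0) (nat_lit 0) (nat_lit 0) (nat_lit 0x201e3357de) (nat_lit 2116099998)]
noncomputable def e24_5 : List Rx := [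
  Rx.mk (nat_lit 36) (nat_lit 4) (nat_lit 4) (nat_lit 0) (nat_lit 0) (nat_lit 366) (nat_lit 169) r4_366 r5_169 (nat_lit 807996) (nat_lit 304717) (nat_lit 575369) (nat_lit 0x1c50deb6b4) (nat_lit 3176725730),
  Rx.mk (nat_lit 39) (nat_lit 7) (nat_lit 4) (nat_lit 0) (nat_lit 1) (nat_lit 369) (nat_lit 177) r4_369 r5_177 (nat_lit 0) (nat_lit 8972373) (nat_lit 12852989) (nat_lit 0x1dd95eda90) (nat_lit 2769667910),
  Rx.mk (nat_lit 44) (nat_lit 4) (nat_lit 5) (nat_lit 0) (nat_lit 2) (nat_lit 367) (nat_lit 172) r4_367 r5_172 (nat_lit 45950818) (nat_lit 0) (nat_lit 42699034) (nat_lit 0x1f88e8ad46) (nat_lit 2366439850),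
  Rx.mk (nat_lit 47) (nat_lit 7) (nat_lit 5) (nat_lit 0) (nat_lit 3) (nat_lit 370) (nat_lit 179) r4_370 r5_179 (nat_lit 0) (nat_lit 0) (nat_lit 18920904) (nat_lit 0x2011ab9a6c) (nat_lit 2148429852),
  Rx.mk (nat_lit 52) (nat_lit 4) (nat_lit 6) (nat_lit 0) (nat_lit 2) (nat_lit 368) (nat_lit 174) r4_368 r5_174 (nat_lit 863680580) (nat_lit 0) (nat_lit 21640281) (nat_lit 0x1f8e189ace) (nat_lit 3157414159),
  Rx.mk (nat_lit 55) (nat_lit 7) (nat_lit 6) (nat_lit 0) (nat_lit 3) (nat_lit 371) (nat_lit 182) r4_371 r5_182 (nat_lit 0) (nat_lit 0) (nat_lit 18907922) (nat_lit 0x201aea47cc) (nat_lit 2138542570),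
  Rx.mk (nat_lit 63) (nat_lit 7) (nat_lit 7) (nat_lit 0) (nat_lit 3) (nat_lit 372) (nat_lit 180) r4_372 r5_180 (nat_lit 0) (nat_lit 0) (nat_lit 48141812) (nat_lit 0x1f94583796) (nat_lit 2313488710),
  Rx.mk (nat_lit 100) (nat_lit 4) (nat_lit 4) (nat_lit 1) (nat_lit 4) (nat_lit 373) (nat_lit 170) r4_373 r5_170 (nat_lit 288695468) (nat_lit 13252508) (nat_lit 0) (nat_lit 0x2011b19048) (nat_lit 2431464324),
  Rx.mk (nat_lit 103) (nat_lit 7) (nat_lit 4) (nat_lit 1) (nat_lit 5) (nat_lit 375) (nat_lit 178) r4_375 r5_178 (nat_lit 0) (nat_lit 17084740) (nat_lit 0) (nat_lit 0x2021cfb02c) (nat_lit 2129358788),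
  Rx.mk (nat_lit 116) (nat_lit 4) (nat_lit 6) (nat_lit 1) (nat_lit 6) (nat_lit 374) (nat_lit 175) r4_374 r5_175 (nat_lit 167914060) (nat_lit 0) (nat_lit 0) (nat_lit 0x2001414fa0) (nat_lit 2314994108),
  Rx.mk (nat_lit 119) (nat_lit 7) (nat_lit 6) (nat_lit 1) (nat_lit 7) (nat_lit 376) (nat_lit 183) r4_376 r5_183 (nat_lit 0) (nat_lit 0) (nat_lit 0) (nat_lit 0x201d890ac2) (nat_lit 2116866998),
  Rx.mk (nat_lit 127) (nat_lit 7) (nat_lit 7) (nat_lit 1) (nat_lit 7) (nat_lit 377) (nat_lit 181) r4_377 r5_181 (nat_lit 0) (nat_lit 0) (nat_lit 0) (nat_lit 0x2009328be8) (nat_lit 2138610748),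
  Rx.mk (nat_lit 228) (nat_lit 4) (nat_lit 4) (nat_lit 3) (nat_lit 4) (nat_lit 378) (nat_lit 171) r4_378 r5_171 (nat_lit 127976874) (nat_lit 14309235) (nat_lit 0) (nat_lit 0x1ff6ad4b0c) (nat_lit 2300857857),
  Rx.mk (nat_lit 236) (nat_lit 4) (nat_lit 5) (nat_lit 3) (nat_lit 6) (nat_lit 379) (nat_lit 173) r4_379 r5_173 (nat_lit 39267561) (nat_lit 0) (nat_lit 0) (nat_lit 0x2000efab8c) (nat_lit 2186751209),
  Rx.mk (nat_lit 244) (nat_lit 4) (nat_lit 6) (nat_lit 3) (nat_lit 6) (nat_lit 380) (nat_lit 176) r4_380 r5_176 (nat_lit 39267561) (nat_lit 0) (nat_lit 0) (nat_lit 0x2022caf00e) (nat_lit 2150497659)]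
noncomputable def e24_6 : List Rx := [
  Rx.mk (nat_lit 59) (nat_lit 3) (nat_lit 7) (nat_lit 0) (nat_lit 3) (nat_lit 34) (nat_lit 126) r4_34 r3_126 (nat_lit 0) (nat_lit 0) (nat_lit 111177) (nat_lit 0x1ff8d094c0) (nat_lit 2155466925),
  Rx.mk (nat_lit 187) (nat_lit 3) (nat_lit 7) (nat_lit 2) (nat_lit 7) (nat_lit 35) (nat_lit 128) r4_35 r3_128 (nat_lit 0) (nat_lit 0) (nat_lit 0) (nat_lit 0x20dd07b10a) (nat_lit 1912788598),
  Rx.mk (nat_lit 231) (nat_lit 7) (nat_lit 4) (nat_lit 3) (nat_lit 5) (nat_lit 36) (nat_lit 124) r4_36 r3_124 (nat_lit 0) (nat_lit 65765) (nat_lit 0) (nat_lit 0x223069fc76) (nat_lit 1552497963),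
  Rx.mk (nat_lit 247) (nat_lit 7) (nat_lit 6) (nat_lit 3) (nat_lit 7) (nat_lit 37) (nat_lit 131) r4_37 r3_131 (nat_lit 0) (nat_lit 0) (nat_lit 0) (nat_lit 0x21e5368102) (nat_lit 1632708198),
  Rx.mk (nat_lit 251) (nat_lit 3) (nat_lit 7) (nat_lit 3) (nat_lit 7) (nat_lit 39) (nat_lit 127) r4_39 r3_127 (nat_lit 0) (nat_lit 0) (nat_lit 0) (nat_lit 0x1ffab34490) (nat_lit 2154186048),
  Rx.mk (nat_lit 255) (nat_lit 7) (nat_lit 7) (nat_lit 3) (nat_lit 7) (nat_lit 38) (nat_lit 125) r4_38 r3_125 (nat_lit 0) (nat_lit 0) (nat_lit 0) (nat_lit 0x20160f0936) (nat_lit 2124841898),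
  Rx.mk (nat_lit 500) (nat_lit 4) (nat_lit 6) (nat_lit 7) (nat_lit 6) (nat_lit 31) (nat_lit 129) r4_31 r3_129 (nat_lit 1042) (nat_lit 0) (nat_lit 0) (nat_lit 0x1fffff60f0) (nat_lit 2147487490),
  Rx.mk (nat_lit 502) (nat_lit 6) (nat_lit 6) (nat_lit 7) (nat_lit 7) (nat_lit 32) (nat_lit 132) r4_32 r3_132 (nat_lit 0) (nat_lit 0) (nat_lit 0) (nat_lit 0x1f4eb970d8) (nat_lit 2341196648),
  Rx.mk (nat_lit 503) (nat_lit 7) (nat_lit 6) (nat_lit 7) (nat_lit 7) (nat_lit 33) (nat_lit 130) r4_33 r3_130 (nat_lit 0) (nat_lit 0) (nat_lit 0) (nat_lit 0x209195f308) (nat_lit 1993404448)]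
noncomputable def e24_7 : List Rx := [
  Rx.mk (nat_lit 308) (nat_lit 4) (nat_lit 6) (nat_lit 4) (nat_lit 2) (nat_lit 93) (nat_lit 142) r4_93 r0_142 (nat_lit 584415283) (nat_lit 0) (nat_lit 13521) (nat_lit 0x177c6cbc18) (nat_lit 5106410752),
  Rx.mk (nat_lit 310) (nat_lit 6) (nat_lit 6) (nat_lit 4) (nat_lit 3) (nat_lit 94) (nat_lit 145) r4_94 r0_145 (nat_lit 0) (nat_lit 0) (nat_lit 18823017) (nat_lit 0x1ff87f2cde) (nat_lit 2175355815),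
  Rx.mk (nat_lit 500) (nat_lit 4) (nat_lit 6) (nat_lit 7) (nat_lit 6) (nat_lit 95) (nat_lit 143) r4_95 r0_143 (nat_lit 797087088) (nat_lit 0) (nat_lit 0) (nat_lit 0x208a696d12) (nat_lit 2798084686),
  Rx.mk (nat_lit 502) (nat_lit 6) (nat_lit 6) (nat_lit 7) (nat_lit 7) (nat_lit 96) (nat_lit 146) r4_96 r0_146 (nat_lit 0) (nat_lit 0) (nat_lit 0) (nat_lit 0x2021a6b00a) (nat_lit 2112456498),
  Rx.mk (nat_lit 503) (nat_lit 7) (nat_lit 6) (nat_lit 7) (nat_lit 7) (nat_lit 97) (nat_lit 144) r4_97 r0_144 (nat_lit 0) (nat_lit 0) (nat_lit 0) (nat_lit 0x2000c8a456) (nat_lit 2147637498)]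
noncomputable def e24_8 : List Rx := [
  Rx.mk (nat_lit 308) (nat_lit 4) (nat_lit 6) (nat_lit 4) (nat_lit 2) (nat_lit 107) (nat_lit 154) r4_107 r1_154 (nat_lit 916353220) (nat_lit 0) (nat_lit 6783960) (nat_lit 0x1cfbd83ffe) (nat_lit 3912265178),
  Rx.mk (nat_lit 310) (nat_lit 6) (nat_lit 6) (nat_lit 4) (nat_lit 3) (nat_lit 108) (nat_lit 158) r4_108 r1_158 (nat_lit 0) (nat_lit 0) (nat_lit 18523533) (nat_lit 0x1ff813ad88) (nat_lit 2175513681),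
  Rx.mk (nat_lit 372) (nat_lit 4) (nat_lit 6) (nat_lit 5) (nat_lit 6) (nat_lit 109) (nat_lit 155) r4_109 r1_155 (nat_lit 39267561) (nat_lit 0) (nat_lit 0) (nat_lit 0x201741a85e) (nat_lit 2162805359),
  Rx.mk (nat_lit 374) (nat_lit 6) (nat_lit 6) (nat_lit 5) (nat_lit 7) (nat_lit 110) (nat_lit 159) r4_110 r1_159 (nat_lit 0) (nat_lit 0) (nat_lit 0) (nat_lit 0x2025faec0c) (nat_lit 2107839948),
  Rx.mk (nat_lit 500) (nat_lit 4) (nat_lit 6) (nat_lit 7) (nat_lit 6) (nat_lit 111) (nat_lit 156) r4_111 r1_156 (nat_lit 155724192) (nat_lit 0) (nat_lit 0) (nat_lit 0x20090a768a) (nat_lit 2294454890),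
  Rx.mk (nat_lit 502) (nat_lit 6) (nat_lit 6) (nat_lit 7) (nat_lit 7) (nat_lit 112) (nat_lit 160) r4_112 r1_160 (nat_lit 0) (nat_lit 0) (nat_lit 0) (nat_lit 0x201c861fac) (nat_lit 2117927348),
  Rx.mk (nat_lit 503) (nat_lit 7) (nat_lit 6) (nat_lit 7) (nat_lit 7) (nat_lit 113) (nat_lit 157) r4_113 r1_157 (nat_lit 0) (nat_lit 0) (nat_lit 0) (nat_lit 0x2000efab8c) (nat_lit 2147483648)]
noncomputable def e24_9 : List Rx := [
  Rx.mk (nat_lit 500) (nat_lit 4) (nat_lit 6) (nat_lit 7) (nat_lit 6) (nat_lit 131) (nat_lit 131) r4_131 r4_131 (nat_lit 1787051579) (nat_lit 0) (nat_lit 0) (nat_lit 0x1d3c539fa6) (nat_lit 4705588877),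
  Rx.mk (nat_lit 502) (nat_lit 6) (nat_lit 6) (nat_lit 7) (nat_lit 7) (nat_lit 132) (nat_lit 133) r4_132 r4_133 (nat_lit 0) (nat_lit 0) (nat_lit 0) (nat_lit 0x200675d266) (nat_lit 2141528398),
  Rx.mk (nat_lit 503) (nat_lit 7) (nat_lit 6) (nat_lit 7) (nat_lit 7) (nat_lit 133) (nat_lit 132) r4_133 r4_132 (nat_lit 0) (nat_lit 0) (nat_lit 0) (nat_lit 0x200675d266) (nat_lit 2141528398)]
noncomputable def e24_10 : List Rx := [
  Rx.mk (nat_lit 39) (nat_lit 7) (nat_lit 4) (nat_lit 0) (nat_lit 1) (nat_lit 229) (nat_lit 186) r4_229 r6_186 (nat_lit 0) (nat_lit 6218) (nat_lit 7273) (nat_lit 0x1e321f58f8) (nat_lit 2650681939),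
  Rx.mk (nat_lit 47) (nat_lit 7) (nat_lit 5) (nat_lit 0) (nat_lit 3) (nat_lit 230) (nat_lit 188) r4_230 r6_188 (nat_lit 0) (nat_lit 0) (nat_lit 25209224) (nat_lit 0x201505b5bc) (nat_lit 2151158672),
  Rx.mk (nat_lit 55) (nat_lit 7) (nat_lit 6) (nat_lit 0) (nat_lit 3) (nat_lit 231) (nat_lit 191) r4_231 r6_191 (nat_lit 0) (nat_lit 0) (nat_lit 17454317) (nat_lit 0x204053351e) (nat_lit 2097263415),
  Rx.mk (nat_lit 59) (nat_lit 3) (nat_lit 7) (nat_lit 0) (nat_lit 3) (nat_lit 233) (nat_lit 181) r4_233 r6_181 (nat_lit 0) (nat_lit 0) (nat_lit 27953982) (nat_lit 0x1e5f57767a) (nat_lit 2629847480),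
  Rx.mk (nat_lit 63) (nat_lit 7) (nat_lit 7) (nat_lit 0) (nat_lit 3) (nat_lit 232) (nat_lit 190) r4_232 r6_190 (nat_lit 0) (nat_lit 0) (nat_lit 17703437) (nat_lit 0x1ff2b81306) (nat_lit 2180466335),
  Rx.mk (nat_lit 187) (nat_lit 3) (nat_lit 7) (nat_lit 2) (nat_lit 7) (nat_lit 234) (nat_lit 182) r4_234 r6_182 (nat_lit 0) (nat_lit 0) (nat_lit 0) (nat_lit 0x1fd2865336) (nat_lit 2197588398),
  Rx.mk (nat_lit 228) (nat_lit 4) (nat_lit 4) (nat_lit 3) (nat_lit 4) (nat_lit 235) (nat_lit 183) r4_235 r6_183 (nat_lit 1777) (nat_lit 1128) (nat_lit 0) (nat_lit 0x1ea09d8c78) (nat_lit 2530295753),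
  Rx.mk (nat_lit 231) (nat_lit 7) (nat_lit 4) (nat_lit 3) (nat_lit 5) (nat_lit 238) (nat_lit 187) r4_238 r6_187 (nat_lit 0) (nat_lit 7104909) (nat_lit 0) (nat_lit 0x201ee2435c) (nat_lit 2122416857),
  Rx.mk (nat_lit 236) (nat_lit 4) (nat_lit 5) (nat_lit 3) (nat_lit 6) (nat_lit 236) (nat_lit 184) r4_236 r6_184 (nat_lit 27111174) (nat_lit 0) (nat_lit 0) (nat_lit 0x2011d7632c) (nat_lit 2156468622),
  Rx.mk (nat_lit 239) (nat_lit 7) (nat_lit 5) (nat_lit 3) (nat_lit 7) (nat_lit 239) (nat_lit 189) r4_239 r6_189 (nat_lit 0) (nat_lit 0) (nat_lit 0) (nat_lit 0x201f61977e) (nat_lit 2114879798),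
  Rx.mk (nat_lit 244) (nat_lit 4) (nat_lit 6) (nat_lit 3) (nat_lit 6) (nat_lit 237) (nat_lit 185) r4_237 r6_185 (nat_lit 15272180) (nat_lit 0) (nat_lit 0) (nat_lit 0x20217a8b2e) (nat_lit 2127869878),
  Rx.mk (nat_lit 247) (nat_lit 7) (nat_lit 6) (nat_lit 3) (nat_lit 7) (nat_lit 240) (nat_lit 192) r4_240 r6_192 (nat_lit 0) (nat_lit 0) (nat_lit 0) (nat_lit 0x2035824c74) (nat_lit 2091316148)]
noncomputable def e24_11 : List Rx := [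
  Rx.mk (nat_lit 59) (nat_lit 3) (nat_lit 7) (nat_lit 0) (nat_lit 3) (nat_lit 198) (nat_lit 128) r4_198 r5_128 (nat_lit 0) (nat_lit 0) (nat_lit 10666546) (nat_lit 0x1e3dfab5b4) (nat_lit 2648864894),
  Rx.mk (nat_lit 63) (nat_lit 7) (nat_lit 7) (nat_lit 0) (nat_lit 3) (nat_lit 197) (nat_lit 126) r4_197 r5_126 (nat_lit 0) (nat_lit 0) (nat_lit 16882745) (nat_lit 0x1ede2ae2de) (nat_lit 2480621643),
  Rx.mk (nat_lit 187) (nat_lit 3) (nat_lit 7) (nat_lit 2) (nat_lit 7) (nat_lit 199) (nat_lit 129) r4_199 r5_129 (nat_lit 0) (nat_lit 0) (nat_lit 0) (nat_lit 0x2021d8d5d0) (nat_lit 2112176048),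
  Rx.mk (nat_lit 228) (nat_lit 4) (nat_lit 4) (nat_lit 3) (nat_lit 4) (nat_lit 200) (nat_lit 124) r4_200 r5_124 (nat_lit 4435) (nat_lit 2829) (nat_lit 0) (nat_lit 0x1dd08e2ae2) (nat_lit 2756967562),
  Rx.mk (nat_lit 231) (nat_lit 7) (nat_lit 4) (nat_lit 3) (nat_lit 5) (nat_lit 202) (nat_lit 125) r4_202 r5_125 (nat_lit 0) (nat_lit 3699337) (nat_lit 0) (nat_lit 0x201dae368a) (nat_lit 2120174135),
  Rx.mk (nat_lit 244) (nat_lit 4) (nat_lit 6) (nat_lit 3) (nat_lit 6) (nat_lit 201) (nat_lit 131) r4_201 r5_131 (nat_lit 11377907) (nat_lit 0) (nat_lit 0) (nat_lit 0x2010cae382) (nat_lit 2141735305),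
  Rx.mk (nat_lit 247) (nat_lit 7) (nat_lit 6) (nat_lit 3) (nat_lit 7) (nat_lit 203) (nat_lit 132) r4_203 r5_132 (nat_lit 0) (nat_lit 0) (nat_lit 0) (nat_lit 0x2044247978) (nat_lit 2075730948),
  Rx.mk (nat_lit 255) (nat_lit 7) (nat_lit 7) (nat_lit 3) (nat_lit 7) (nat_lit 204) (nat_lit 127) r4_204 r5_127 (nat_lit 0) (nat_lit 0) (nat_lit 0) (nat_lit 0x2000efab8c) (nat_lit 2147483648),
  Rx.mk (nat_lit 500) (nat_lit 4) (nat_lit 6) (nat_lit 7) (nat_lit 6) (nat_lit 195) (nat_lit 130) r4_195 r5_130 (nat_lit 302008863) (nat_lit 0) (nat_lit 0) (nat_lit 0x1fe957dd32) (nat_lit 2474186461),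
  Rx.mk (nat_lit 502) (nat_lit 6) (nat_lit 6) (nat_lit 7) (nat_lit 7) (nat_lit 196) (nat_lit 133) r4_196 r5_133 (nat_lit 0) (nat_lit 0) (nat_lit 0) (nat_lit 0x1feb8ab34a) (nat_lit 2170540198)]
noncomputable def e24_12 : List Rx := [
  Rx.mk (nat_lit 37) (nat_lit 5) (nat_lit 4) (nat_lit 0) (nat_lit 1) (nat_lit 253) (nat_lit 306) r4_253 r0_306 (nat_lit 0) (nat_lit 15162375) (nat_lit 291920685) (nat_lit 0x1e916535bc) (nat_lit 2854513508),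
  Rx.mk (nat_lit 45) (nat_lit 5) (nat_lit 5) (nat_lit 0) (nat_lit 3) (nat_lit 254) (nat_lit 307) r4_254 r0_307 (nat_lit 0) (nat_lit 0) (nat_lit 1478697491) (nat_lit 0x1b916040aa) (nat_lit 4862457289),
  Rx.mk (nat_lit 53) (nat_lit 5) (nat_lit 6) (nat_lit 0) (nat_lit 3) (nat_lit 255) (nat_lit 308) r4_255 r0_308 (nat_lit 0) (nat_lit 0) (nat_lit 39267561) (nat_lit 0x2021d713e4) (nat_lit 2151522509),
  Rx.mk (nat_lit 100) (nat_lit 4) (nat_lit 4) (nat_lit 1) (nat_lit 4) (nat_lit 256) (nat_lit 309) r4_256 r0_309 (nat_lit 26838499) (nat_lit 294663616) (nat_lit 0) (nat_lit 0x1cdabdf85e) (nat_lit 3346728613),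
  Rx.mk (nat_lit 101) (nat_lit 5) (nat_lit 4) (nat_lit 1) (nat_lit 5) (nat_lit 259) (nat_lit 310) r4_259 r0_310 (nat_lit 0) (nat_lit 32637715) (nat_lit 0) (nat_lit 0x1ffe6945e4) (nat_lit 2182809363),
  Rx.mk (nat_lit 108) (nat_lit 4) (nat_lit 5) (nat_lit 1) (nat_lit 6) (nat_lit 257) (nat_lit 311) r4_257 r0_311 (nat_lit 43818815) (nat_lit 0) (nat_lit 0) (nat_lit 0x1ffa9c45ce) (nat_lit 2198104813),
  Rx.mk (nat_lit 109) (nat_lit 5) (nat_lit 5) (nat_lit 1) (nat_lit 7) (nat_lit 260) (nat_lit 312) r4_260 r0_312 (nat_lit 0) (nat_lit 0) (nat_lit 0) (nat_lit 0x20125a86ee) (nat_lit 2128797898),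
  Rx.mk (nat_lit 116) (nat_lit 4) (nat_lit 6) (nat_lit 1) (nat_lit 6) (nat_lit 258) (nat_lit 313) r4_258 r0_313 (nat_lit 22623974) (nat_lit 0) (nat_lit 0) (nat_lit 0x200cc3314a) (nat_lit 2157397672),
  Rx.mk (nat_lit 117) (nat_lit 5) (nat_lit 6) (nat_lit 1) (nat_lit 7) (nat_lit 261) (nat_lit 314) r4_261 r0_314 (nat_lit 0) (nat_lit 0) (nat_lit 0) (nat_lit 0x2000efab8c) (nat_lit 2147483648)]
noncomputable def e24_13 : List Rx := [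
  Rx.mk (nat_lit 100) (nat_lit 4) (nat_lit 4) (nat_lit 1) (nat_lit 4) (nat_lit 265) (nat_lit 223) r4_265 r7_223 (nat_lit 34044114) (nat_lit 62737068) (nat_lit 0) (nat_lit 0x1cc30aedd4) (nat_lit 3147862730),
  Rx.mk (nat_lit 101) (nat_lit 5) (nat_lit 4) (nat_lit 1) (nat_lit 5) (nat_lit 268) (nat_lit 226) r4_268 r7_226 (nat_lit 0) (nat_lit 35717356) (nat_lit 0) (nat_lit 0x1ff8a3b8e2) (nat_lit 2192124454),
  Rx.mk (nat_lit 108) (nat_lit 4) (nat_lit 5) (nat_lit 1) (nat_lit 6) (nat_lit 266) (nat_lit 224) r4_266 r7_224 (nat_lit 39267561) (nat_lit 0) (nat_lit 0) (nat_lit 0x2000efab8c) (nat_lit 2186751209),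
  Rx.mk (nat_lit 109) (nat_lit 5) (nat_lit 5) (nat_lit 1) (nat_lit 7) (nat_lit 269) (nat_lit 227) r4_269 r7_227 (nat_lit 0) (nat_lit 0) (nat_lit 0) (nat_lit 0x2000efab8c) (nat_lit 2147483648),
  Rx.mk (nat_lit 116) (nat_lit 4) (nat_lit 6) (nat_lit 1) (nat_lit 6) (nat_lit 267) (nat_lit 225) r4_267 r7_225 (nat_lit 26162412) (nat_lit 0) (nat_lit 0) (nat_lit 0x2009bf166c) (nat_lit 2164172060),
  Rx.mk (nat_lit 117) (nat_lit 5) (nat_lit 6) (nat_lit 1) (nat_lit 7) (nat_lit 270) (nat_lit 228) r4_270 r7_228 (nat_lit 0) (nat_lit 0) (nat_lit 0) (nat_lit 0x2000efab8c) (nat_lit 2147483648)]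
noncomputable def e24_14 : List Rx := [
  Rx.mk (nat_lit 37) (nat_lit 5) (nat_lit 4) (nat_lit 0) (nat_lit 1) (nat_lit 293) (nat_lit 297) r4_293 r1_297 (nat_lit 0) (nat_lit 25614620) (nat_lit 278785734) (nat_lit 0x1cb9ab6fe8) (nat_lit 3365709902),
  Rx.mk (nat_lit 45) (nat_lit 5) (nat_lit 5) (nat_lit 0) (nat_lit 3) (nat_lit 294) (nat_lit 298) r4_294 r1_298 (nat_lit 0) (nat_lit 0) (nat_lit 1254992247) (nat_lit 0x1e7dc386f8) (nat_lit 3823620095),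
  Rx.mk (nat_lit 53) (nat_lit 5) (nat_lit 6) (nat_lit 0) (nat_lit 3) (nat_lit 295) (nat_lit 299) r4_295 r1_299 (nat_lit 0) (nat_lit 0) (nat_lit 65646689) (nat_lit 0x1ff8d2f288) (nat_lit 2221868837),
  Rx.mk (nat_lit 101) (nat_lit 5) (nat_lit 4) (nat_lit 1) (nat_lit 5) (nat_lit 296) (nat_lit 300) r4_296 r1_300 (nat_lit 0) (nat_lit 32153213) (nat_lit 0) (nat_lit 0x20084a6796) (nat_lit 2171727711),
  Rx.mk (nat_lit 109) (nat_lit 5) (nat_lit 5) (nat_lit 1) (nat_lit 7) (nat_lit 297) (nat_lit 301) r4_297 r1_301 (nat_lit 0) (nat_lit 0) (nat_lit 0) (nat_lit 0x20157cdc50) (nat_lit 2125445248),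
  Rx.mk (nat_lit 117) (nat_lit 5) (nat_lit 6) (nat_lit 1) (nat_lit 7) (nat_lit 298) (nat_lit 302) r4_298 r1_302 (nat_lit 0) (nat_lit 0) (nat_lit 0) (nat_lit 0x2000efab8c) (nat_lit 2147483648)]
noncomputable def e24_15 : List Rx := [
  Rx.mk (nat_lit 101) (nat_lit 5) (nat_lit 4) (nat_lit 1) (nat_lit 5) (nat_lit 304) (nat_lit 181) r4_304 r8_181 (nat_lit 0) (nat_lit 39267561) (nat_lit 0) (nat_lit 0x2000efab8c) (nat_lit 2186751209),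
  Rx.mk (nat_lit 109) (nat_lit 5) (nat_lit 5) (nat_lit 1) (nat_lit 7) (nat_lit 305) (nat_lit 182) r4_305 r8_182 (nat_lit 0) (nat_lit 0) (nat_lit 0) (nat_lit 0x2000efab8c) (nat_lit 2147483648),
  Rx.mk (nat_lit 117) (nat_lit 5) (nat_lit 6) (nat_lit 1) (nat_lit 7) (nat_lit 306) (nat_lit 183) r4_306 r8_183 (nat_lit 0) (nat_lit 0) (nat_lit 0) (nat_lit 0x2000efab8c) (nat_lit 2147483648)]
noncomputable def e24_16 : List Rx := [
  Rx.mk (nat_lit 100) (nat_lit 4) (nat_lit 4) (nat_lit 1) (nat_lit 4) (nat_lit 287) (nat_lit 341) r4_287 r8_341 (nat_lit 59471417) (nat_lit 331596275) (nat_lit 0) (nat_lit 0x1d9f8af25e) (nat_lit 3201944590),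
  Rx.mk (nat_lit 101) (nat_lit 5) (nat_lit 4) (nat_lit 1) (nat_lit 5) (nat_lit 290) (nat_lit 342) r4_290 r8_342 (nat_lit 0) (nat_lit 64302537) (nat_lit 0) (nat_lit 0x1feb8774aa) (nat_lit 2234884635),
  Rx.mk (nat_lit 108) (nat_lit 4) (nat_lit 5) (nat_lit 1) (nat_lit 6) (nat_lit 288) (nat_lit 343) r4_288 r8_343 (nat_lit 39267561) (nat_lit 0) (nat_lit 0) (nat_lit 0x2000efab8c) (nat_lit 2186751209),
  Rx.mk (nat_lit 109) (nat_lit 5) (nat_lit 5) (nat_lit 1) (nat_lit 7) (nat_lit 291) (nat_lit 344) r4_291 r8_344 (nat_lit 0) (nat_lit 0) (nat_lit 0) (nat_lit 0x2000efab8c) (nat_lit 2147483648),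
  Rx.mk (nat_lit 116) (nat_lit 4) (nat_lit 6) (nat_lit 1) (nat_lit 6) (nat_lit 289) (nat_lit 345) r4_289 r8_345 (nat_lit 31791046) (nat_lit 0) (nat_lit 0) (nat_lit 0x20094cfbe0) (nat_lit 2170292194),
  Rx.mk (nat_lit 117) (nat_lit 5) (nat_lit 6) (nat_lit 1) (nat_lit 7) (nat_lit 292) (nat_lit 346) r4_292 r8_346 (nat_lit 0) (nat_lit 0) (nat_lit 0) (nat_lit 0x2000efab8c) (nat_lit 2147483648),
  Rx.mk (nat_lit 372) (nat_lit 4) (nat_lit 6) (nat_lit 5) (nat_lit 6) (nat_lit 284) (nat_lit 338) r4_284 r8_338 (nat_lit 39267561) (nat_lit 0) (nat_lit 0) (nat_lit 0x2000efab8c) (nat_lit 2186751209),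
  Rx.mk (nat_lit 373) (nat_lit 5) (nat_lit 6) (nat_lit 5) (nat_lit 7) (nat_lit 285) (nat_lit 339) r4_285 r8_339 (nat_lit 0) (nat_lit 0) (nat_lit 0) (nat_lit 0x2000efab8c) (nat_lit 2147483648),
  Rx.mk (nat_lit 374) (nat_lit 6) (nat_lit 6) (nat_lit 5) (nat_lit 7) (nat_lit 286) (nat_lit 340) r4_286 r8_340 (nat_lit 0) (nat_lit 0) (nat_lit 0) (nat_lit 0x2000efab8c) (nat_lit 2147483648)]
noncomputable def e24_17 : List Rx := [
  Rx.mk (nat_lit 372) (nat_lit 4) (nat_lit 6) (nat_lit 5) (nat_lit 6) (nat_lit 273) (nat_lit 167) r4_273 r9_167 (nat_lit 39267561) (nat_lit 0) (nat_lit 0) (nat_lit 0x2000efab8c) (nat_lit 2186751209),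
  Rx.mk (nat_lit 373) (nat_lit 5) (nat_lit 6) (nat_lit 5) (nat_lit 7) (nat_lit 274) (nat_lit 168) r4_274 r9_168 (nat_lit 0) (nat_lit 0) (nat_lit 0) (nat_lit 0x2000efab8c) (nat_lit 2147483648),
  Rx.mk (nat_lit 374) (nat_lit 6) (nat_lit 6) (nat_lit 5) (nat_lit 7) (nat_lit 275) (nat_lit 169) r4_275 r9_169 (nat_lit 0) (nat_lit 0) (nat_lit 0) (nat_lit 0x2000efab8c) (nat_lit 2147483648)]
noncomputable def e24_18 : List Rx := [
  Rx.mk (nat_lit 36) (nat_lit 4) (nat_lit 4) (nat_lit 0) (nat_lit 0) (nat_lit 327) (nat_lit 327) r4_327 r4_327 (nat_lit 14294365) (nat_lit 14294365) (nat_lit 149315212) (nat_lit 0x19d83876c0) (nat_lit 4042537090),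
  Rx.mk (nat_lit 37) (nat_lit 5) (nat_lit 4) (nat_lit 0) (nat_lit 1) (nat_lit 330) (nat_lit 328) r4_330 r4_328 (nat_lit 0) (nat_lit 8057266) (nat_lit 1113746304) (nat_lit 0x1f3c4d04aa) (nat_lit 3482933168),
  Rx.mk (nat_lit 39) (nat_lit 7) (nat_lit 4) (nat_lit 0) (nat_lit 1) (nat_lit 333) (nat_lit 329) r4_333 r4_329 (nat_lit 0) (nat_lit 29239935) (nat_lit 50907420) (nat_lit 0x1f6d2489cc) (nat_lit 2388207303),
  Rx.mk (nat_lit 44) (nat_lit 4) (nat_lit 5) (nat_lit 0) (nat_lit 2) (nat_lit 328) (nat_lit 330) r4_328 r4_330 (nat_lit 8057266) (nat_lit 0) (nat_lit 1113746304) (nat_lit 0x1f3c4d04aa) (nat_lit 3482933168),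
  Rx.mk (nat_lit 45) (nat_lit 5) (nat_lit 5) (nat_lit 0) (nat_lit 3) (nat_lit 331) (nat_lit 331) r4_331 r4_331 (nat_lit 0) (nat_lit 0) (nat_lit 94556233) (nat_lit 0x1ffd5ce9a8) (nat_lit 2245841881),
  Rx.mk (nat_lit 47) (nat_lit 7) (nat_lit 5) (nat_lit 0) (nat_lit 3) (nat_lit 334) (nat_lit 332) r4_334 r4_332 (nat_lit 0) (nat_lit 0) (nat_lit 39267561) (nat_lit 0x201f205836) (nat_lit 2154417559),
  Rx.mk (nat_lit 52) (nat_lit 4) (nat_lit 6) (nat_lit 0) (nat_lit 2) (nat_lit 329) (nat_lit 333) r4_329 r4_333 (nat_lit 29239935) (nat_lit 0) (nat_lit 50907420) (nat_lit 0x1f6d2489cc) (nat_lit 2388207303),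
  Rx.mk (nat_lit 53) (nat_lit 5) (nat_lit 6) (nat_lit 0) (nat_lit 3) (nat_lit 332) (nat_lit 334) r4_332 r4_334 (nat_lit 0) (nat_lit 0) (nat_lit 39267561) (nat_lit 0x201f205836) (nat_lit 2154417559),
  Rx.mk (nat_lit 100) (nat_lit 4) (nat_lit 4) (nat_lit 1) (nat_lit 4) (nat_lit 335) (nat_lit 335) r4_335 r4_335 (nat_lit 50937833) (nat_lit 50937833) (nat_lit 0) (nat_lit 0x1fe22b343c) (nat_lit 2282583314),
  Rx.mk (nat_lit 101) (nat_lit 5) (nat_lit 4) (nat_lit 1) (nat_lit 5) (nat_lit 338) (nat_lit 336) r4_338 r4_336 (nat_lit 0) (nat_lit 19307506) (nat_lit 0) (nat_lit 0x2033b83426) (nat_lit 2112565504),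
  Rx.mk (nat_lit 103) (nat_lit 7) (nat_lit 4) (nat_lit 1) (nat_lit 5) (nat_lit 341) (nat_lit 337) r4_341 r4_337 (nat_lit 0) (nat_lit 26390093) (nat_lit 0) (nat_lit 0x202949c464) (nat_lit 2130705641),
  Rx.mk (nat_lit 108) (nat_lit 4) (nat_lit 5) (nat_lit 1) (nat_lit 6) (nat_lit 336) (nat_lit 338) r4_336 r4_338 (nat_lit 19307506) (nat_lit 0) (nat_lit 0) (nat_lit 0x2033b83426) (nat_lit 2112565504),
  Rx.mk (nat_lit 109) (nat_lit 5) (nat_lit 5) (nat_lit 1) (nat_lit 7) (nat_lit 339) (nat_lit 339) r4_339 r4_339 (nat_lit 0) (nat_lit 0) (nat_lit 0) (nat_lit 0x2000efab8c) (nat_lit 2147483648),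
  Rx.mk (nat_lit 111) (nat_lit 7) (nat_lit 5) (nat_lit 1) (nat_lit 7) (nat_lit 342) (nat_lit 340) r4_342 r4_340 (nat_lit 0) (nat_lit 0) (nat_lit 0) (nat_lit 0x2000efab8c) (nat_lit 2147483648),
  Rx.mk (nat_lit 116) (nat_lit 4) (nat_lit 6) (nat_lit 1) (nat_lit 6) (nat_lit 337) (nat_lit 341) r4_337 r4_341 (nat_lit 26390093) (nat_lit 0) (nat_lit 0) (nat_lit 0x202949c464) (nat_lit 2130705641),
  Rx.mk (nat_lit 117) (nat_lit 5) (nat_lit 6) (nat_lit 1) (nat_lit 7) (nat_lit 340) (nat_lit 342) r4_340 r4_342 (nat_lit 0) (nat_lit 0) (nat_lit 0) (nat_lit 0x2000efab8c) (nat_lit 2147483648)]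
noncomputable def e24_19 : List Rx := [
  Rx.mk (nat_lit 100) (nat_lit 4) (nat_lit 4) (nat_lit 1) (nat_lit 4) (nat_lit 355) (nat_lit 175) r4_355 r10_175 (nat_lit 50926157) (nat_lit 60699131) (nat_lit 0) (nat_lit 0x1d23403a24) (nat_lit 3057896636),
  Rx.mk (nat_lit 101) (nat_lit 5) (nat_lit 4) (nat_lit 1) (nat_lit 5) (nat_lit 358) (nat_lit 178) r4_358 r10_178 (nat_lit 0) (nat_lit 30231688) (nat_lit 0) (nat_lit 0x200f145992) (nat_lit 2162546986),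
  Rx.mk (nat_lit 103) (nat_lit 7) (nat_lit 4) (nat_lit 1) (nat_lit 5) (nat_lit 361) (nat_lit 181) r4_361 r10_181 (nat_lit 0) (nat_lit 39267561) (nat_lit 0) (nat_lit 0x2012dc8c48) (nat_lit 2167524809),
  Rx.mk (nat_lit 108) (nat_lit 4) (nat_lit 5) (nat_lit 1) (nat_lit 6) (nat_lit 356) (nat_lit 176) r4_356 r10_176 (nat_lit 39267561) (nat_lit 0) (nat_lit 0) (nat_lit 0x2000efab8c) (nat_lit 2186751209),
  Rx.mk (nat_lit 109) (nat_lit 5) (nat_lit 5) (nat_lit 1) (nat_lit 7) (nat_lit 359) (nat_lit 179) r4_359 r10_179 (nat_lit 0) (nat_lit 0) (nat_lit 0) (nat_lit 0x2000efab8c) (nat_lit 2147483648),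
  Rx.mk (nat_lit 111) (nat_lit 7) (nat_lit 5) (nat_lit 1) (nat_lit 7) (nat_lit 362) (nat_lit 182) r4_362 r10_182 (nat_lit 0) (nat_lit 0) (nat_lit 0) (nat_lit 0x2000efab8c) (nat_lit 2147483648),
  Rx.mk (nat_lit 116) (nat_lit 4) (nat_lit 6) (nat_lit 1) (nat_lit 6) (nat_lit 357) (nat_lit 177) r4_357 r10_177 (nat_lit 31280084) (nat_lit 0) (nat_lit 0) (nat_lit 0x2007bee5ea) (nat_lit 2171438082),
  Rx.mk (nat_lit 117) (nat_lit 5) (nat_lit 6) (nat_lit 1) (nat_lit 7) (nat_lit 360) (nat_lit 180) r4_360 r10_180 (nat_lit 0) (nat_lit 0) (nat_lit 0) (nat_lit 0x2000efab8c) (nat_lit 2147483648)]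
noncomputable def e24_20 : List Rx := [
  Rx.mk (nat_lit 36) (nat_lit 4) (nat_lit 4) (nat_lit 0) (nat_lit 0) (nat_lit 381) (nat_lit 191) r4_381 r11_191 (nat_lit 16737266) (nat_lit 18090036) (nat_lit 44418984) (nat_lit 0x1a571026c8) (nat_lit 3805710034),
  Rx.mk (nat_lit 37) (nat_lit 5) (nat_lit 4) (nat_lit 0) (nat_lit 1) (nat_lit 384) (nat_lit 199) r4_384 r11_199 (nat_lit 0) (nat_lit 17513925) (nat_lit 375461596) (nat_lit 0x1fc5aa28e0) (nat_lit 2604681869),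
  Rx.mk (nat_lit 39) (nat_lit 7) (nat_lit 4) (nat_lit 0) (nat_lit 1) (nat_lit 387) (nat_lit 207) r4_387 r11_207 (nat_lit 0) (nat_lit 36665344) (nat_lit 85552896) (nat_lit 0x1eeb2e9750) (nat_lit 2571826788),
  Rx.mk (nat_lit 44) (nat_lit 4) (nat_lit 5) (nat_lit 0) (nat_lit 2) (nat_lit 382) (nat_lit 194) r4_382 r11_194 (nat_lit 33026764) (nat_lit 0) (nat_lit 69451122) (nat_lit 0x1f8fb079e2) (nat_lit 2372967084),
  Rx.mk (nat_lit 45) (nat_lit 5) (nat_lit 5) (nat_lit 0) (nat_lit 3) (nat_lit 385) (nat_lit 202) r4_385 r11_202 (nat_lit 0) (nat_lit 0) (nat_lit 37525788) (nat_lit 0x1ff092c6f2) (nat_lit 2202638786),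
  Rx.mk (nat_lit 47) (nat_lit 7) (nat_lit 5) (nat_lit 0) (nat_lit 3) (nat_lit 388) (nat_lit 209) r4_388 r11_209 (nat_lit 0) (nat_lit 0) (nat_lit 39267561) (nat_lit 0x200b2ac26c) (nat_lit 2175765209),
  Rx.mk (nat_lit 52) (nat_lit 4) (nat_lit 6) (nat_lit 0) (nat_lit 2) (nat_lit 383) (nat_lit 196) r4_383 r11_196 (nat_lit 43929092) (nat_lit 0) (nat_lit 43929092) (nat_lit 0x1eaf8c2a28) (nat_lit 2602450432),
  Rx.mk (nat_lit 53) (nat_lit 5) (nat_lit 6) (nat_lit 0) (nat_lit 3) (nat_lit 386) (nat_lit 204) r4_386 r11_204 (nat_lit 0) (nat_lit 0) (nat_lit 39267561) (nat_lit 0x2000efab8c) (nat_lit 2186751209),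
  Rx.mk (nat_lit 63) (nat_lit 7) (nat_lit 7) (nat_lit 0) (nat_lit 3) (nat_lit 389) (nat_lit 210) r4_389 r11_210 (nat_lit 0) (nat_lit 0) (nat_lit 41482445) (nat_lit 0x2002b64890) (nat_lit 2187049593),
  Rx.mk (nat_lit 100) (nat_lit 4) (nat_lit 4) (nat_lit 1) (nat_lit 4) (nat_lit 390) (nat_lit 192) r4_390 r11_192 (nat_lit 100618466) (nat_lit 27478540) (nat_lit 0) (nat_lit 0x1fafadb62e) (nat_lit 2363752404),
  Rx.mk (nat_lit 101) (nat_lit 5) (nat_lit 4) (nat_lit 1) (nat_lit 5) (nat_lit 392) (nat_lit 200) r4_392 r11_200 (nat_lit 0) (nat_lit 39267561) (nat_lit 0) (nat_lit 0x2000efab8c) (nat_lit 2186751209),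
  Rx.mk (nat_lit 103) (nat_lit 7) (nat_lit 4) (nat_lit 1) (nat_lit 5) (nat_lit 394) (nat_lit 208) r4_394 r11_208 (nat_lit 0) (nat_lit 33727026) (nat_lit 0) (nat_lit 0x2003e7bec4) (nat_lit 2178015674),
  Rx.mk (nat_lit 116) (nat_lit 4) (nat_lit 6) (nat_lit 1) (nat_lit 6) (nat_lit 391) (nat_lit 197) r4_391 r11_197 (nat_lit 39267561) (nat_lit 0) (nat_lit 0) (nat_lit 0x2008264afa) (nat_lit 2178999859),
  Rx.mk (nat_lit 117) (nat_lit 5) (nat_lit 6) (nat_lit 1) (nat_lit 7) (nat_lit 393) (nat_lit 205) r4_393 r11_205 (nat_lit 0) (nat_lit 0) (nat_lit 0) (nat_lit 0x2000efab8c) (nat_lit 2147483648),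
  Rx.mk (nat_lit 127) (nat_lit 7) (nat_lit 7) (nat_lit 1) (nat_lit 7) (nat_lit 395) (nat_lit 211) r4_395 r11_211 (nat_lit 0) (nat_lit 0) (nat_lit 0) (nat_lit 0x2000efab8c) (nat_lit 2147483648),
  Rx.mk (nat_lit 228) (nat_lit 4) (nat_lit 4) (nat_lit 3) (nat_lit 4) (nat_lit 396) (nat_lit 193) r4_396 r11_193 (nat_lit 135905112) (nat_lit 65947100) (nat_lit 0) (nat_lit 0x1f7c97fd12) (nat_lit 2493141710),
  Rx.mk (nat_lit 229) (nat_lit 5) (nat_lit 4) (nat_lit 3) (nat_lit 5) (nat_lit 399) (nat_lit 201) r4_399 r11_201 (nat_lit 0) (nat_lit 39267561) (nat_lit 0) (nat_lit 0x2000efab8c) (nat_lit 2186751209),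
  Rx.mk (nat_lit 236) (nat_lit 4) (nat_lit 5) (nat_lit 3) (nat_lit 6) (nat_lit 397) (nat_lit 195) r4_397 r11_195 (nat_lit 39267561) (nat_lit 0) (nat_lit 0) (nat_lit 0x2000efab8c) (nat_lit 2186751209),
  Rx.mk (nat_lit 237) (nat_lit 5) (nat_lit 5) (nat_lit 3) (nat_lit 7) (nat_lit 400) (nat_lit 203) r4_400 r11_203 (nat_lit 0) (nat_lit 0) (nat_lit 0) (nat_lit 0x2000efab8c) (nat_lit 2147483648),
  Rx.mk (nat_lit 244) (nat_lit 4) (nat_lit 6) (nat_lit 3) (nat_lit 6) (nat_lit 398) (nat_lit 198) r4_398 r11_198 (nat_lit 39267561) (nat_lit 0) (nat_lit 0) (nat_lit 0x2000efab8c) (nat_lit 2186751209),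
  Rx.mk (nat_lit 245) (nat_lit 5) (nat_lit 6) (nat_lit 3) (nat_lit 7) (nat_lit 401) (nat_lit 206) r4_401 r11_206 (nat_lit 0) (nat_lit 0) (nat_lit 0) (nat_lit 0x2000efab8c) (nat_lit 2147483648)]
noncomputable def e24_21 : List Rx := [
  Rx.mk (nat_lit 342) (nat_lit 6) (nat_lit 2) (nat_lit 5) (nat_lit 7) (nat_lit 278) (nat_lit 135) r4_278 r9_135 (nat_lit 0) (nat_lit 0) (nat_lit 0) (nat_lit 0x2000efab8c) (nat_lit 2147483648),
  Rx.mk (nat_lit 372) (nat_lit 4) (nat_lit 6) (nat_lit 5) (nat_lit 6) (nat_lit 276) (nat_lit 133) r4_276 r9_133 (nat_lit 39267561) (nat_lit 0) (nat_lit 0) (nat_lit 0x2000efab8c) (nat_lit 2186751209),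
  Rx.mk (nat_lit 374) (nat_lit 6) (nat_lit 6) (nat_lit 5) (nat_lit 7) (nat_lit 277) (nat_lit 134) r4_277 r9_134 (nat_lit 0) (nat_lit 0) (nat_lit 0) (nat_lit 0x2000efab8c) (nat_lit 2147483648)]
noncomputable def e24_22 : List Rx := [
  Rx.mk (nat_lit 128) (nat_lit 0) (nat_lit 0) (nat_lit 2) (nat_lit 4) (nat_lit 8) (nat_lit 52) r4_8 r0_52 (nat_lit 10795796) (nat_lit 2811065) (nat_lit 0) (nat_lit 0x1bb0099aa6) (nat_lit 3364106359),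
  Rx.mk (nat_lit 130) (nat_lit 2) (nat_lit 0) (nat_lit 2) (nat_lit 5) (nat_lit 10) (nat_lit 55) r4_10 r0_55 (nat_lit 0) (nat_lit 14431387) (nat_lit 0) (nat_lit 0x2014f336d0) (nat_lit 2140417235),
  Rx.mk (nat_lit 152) (nat_lit 0) (nat_lit 3) (nat_lit 2) (nat_lit 6) (nat_lit 9) (nat_lit 53) r4_9 r0_53 (nat_lit 172912565) (nat_lit 0) (nat_lit 0) (nat_lit 0x1fa59890e6) (nat_lit 2419478663),
  Rx.mk (nat_lit 154) (nat_lit 2) (nat_lit 3) (nat_lit 2) (nat_lit 7) (nat_lit 11) (nat_lit 56) r4_11 r0_56 (nat_lit 0) (nat_lit 0) (nat_lit 0) (nat_lit 0x200b2fd50e) (nat_lit 2136456398),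
  Rx.mk (nat_lit 155) (nat_lit 3) (nat_lit 3) (nat_lit 2) (nat_lit 7) (nat_lit 12) (nat_lit 54) r4_12 r0_54 (nat_lit 0) (nat_lit 0) (nat_lit 0) (nat_lit 0x1d9b5930e2) (nat_lit 2815357398),
  Rx.mk (nat_lit 278) (nat_lit 6) (nat_lit 2) (nat_lit 4) (nat_lit 3) (nat_lit 1) (nat_lit 57) r4_1 r0_57 (nat_lit 0) (nat_lit 0) (nat_lit 25610096) (nat_lit 0x1fa1c5f8f0) (nat_lit 2276387244),
  Rx.mk (nat_lit 310) (nat_lit 6) (nat_lit 6) (nat_lit 4) (nat_lit 3) (nat_lit 0) (nat_lit 58) r4_0 r0_58 (nat_lit 0) (nat_lit 0) (nat_lit 240284) (nat_lit 0x1ac7316714) (nat_lit 3604123732),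
  Rx.mk (nat_lit 386) (nat_lit 2) (nat_lit 0) (nat_lit 6) (nat_lit 5) (nat_lit 3) (nat_lit 62) r4_3 r0_62 (nat_lit 0) (nat_lit 14357593) (nat_lit 0) (nat_lit 0x20073225b0) (nat_lit 2155067741),
  Rx.mk (nat_lit 402) (nat_lit 2) (nat_lit 2) (nat_lit 6) (nat_lit 7) (nat_lit 4) (nat_lit 63) r4_4 r0_63 (nat_lit 0) (nat_lit 0) (nat_lit 0) (nat_lit 0x201be52be2) (nat_lit 2118602698),
  Rx.mk (nat_lit 406) (nat_lit 6) (nat_lit 2) (nat_lit 6) (nat_lit 7) (nat_lit 2) (nat_lit 64) r4_2 r0_64 (nat_lit 0) (nat_lit 0) (nat_lit 0) (nat_lit 0x2019baf5ea) (nat_lit 2120890398),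
  Rx.mk (nat_lit 500) (nat_lit 4) (nat_lit 6) (nat_lit 7) (nat_lit 6) (nat_lit 5) (nat_lit 59) r4_5 r0_59 (nat_lit 377222843) (nat_lit 0) (nat_lit 0) (nat_lit 0x1fa5877f7c) (nat_lit 2623806591),
  Rx.mk (nat_lit 502) (nat_lit 6) (nat_lit 6) (nat_lit 7) (nat_lit 7) (nat_lit 6) (nat_lit 61) r4_6 r0_61 (nat_lit 0) (nat_lit 0) (nat_lit 0) (nat_lit 0x1ffa6263f4) (nat_lit 2154445148),
  Rx.mk (nat_lit 503) (nat_lit 7) (nat_lit 6) (nat_lit 7) (nat_lit 7) (nat_lit 7) (nat_lit 60) r4_7 r0_60 (nat_lit 0) (nat_lit 0) (nat_lit 0) (nat_lit 0x1feb1c0b0c) (nat_lit 2171020348)]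
noncomputable def e24_23 : List Rx := [
  Rx.mk (nat_lit 128) (nat_lit 0) (nat_lit 0) (nat_lit 2) (nat_lit 4) (nat_lit 16) (nat_lit 50) r4_16 r1_50 (nat_lit 357626418) (nat_lit 12596193) (nat_lit 0) (nat_lit 0x1e587029ce) (nat_lit 2979734809),
  Rx.mk (nat_lit 130) (nat_lit 2) (nat_lit 0) (nat_lit 2) (nat_lit 5) (nat_lit 18) (nat_lit 53) r4_18 r1_53 (nat_lit 0) (nat_lit 17236973) (nat_lit 0) (nat_lit 0x200698a976) (nat_lit 2158610971),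
  Rx.mk (nat_lit 152) (nat_lit 0) (nat_lit 3) (nat_lit 2) (nat_lit 6) (nat_lit 17) (nat_lit 51) r4_17 r1_51 (nat_lit 34572816) (nat_lit 0) (nat_lit 0) (nat_lit 0x201f16ff98) (nat_lit 2149783164),
  Rx.mk (nat_lit 154) (nat_lit 2) (nat_lit 3) (nat_lit 2) (nat_lit 7) (nat_lit 19) (nat_lit 54) r4_19 r1_54 (nat_lit 0) (nat_lit 0) (nat_lit 0) (nat_lit 0x200eb8fa48) (nat_lit 2132685848),
  Rx.mk (nat_lit 155) (nat_lit 3) (nat_lit 3) (nat_lit 2) (nat_lit 7) (nat_lit 20) (nat_lit 52) r4_20 r1_52 (nat_lit 0) (nat_lit 0) (nat_lit 0) (nat_lit 0x201801056e) (nat_lit 2122670798),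
  Rx.mk (nat_lit 386) (nat_lit 2) (nat_lit 0) (nat_lit 6) (nat_lit 5) (nat_lit 14) (nat_lit 55) r4_14 r1_55 (nat_lit 0) (nat_lit 16231259) (nat_lit 0) (nat_lit 0x2024685622) (nat_lit 2125743057),
  Rx.mk (nat_lit 402) (nat_lit 2) (nat_lit 2) (nat_lit 6) (nat_lit 7) (nat_lit 15) (nat_lit 56) r4_15 r1_56 (nat_lit 0) (nat_lit 0) (nat_lit 0) (nat_lit 0x20156b8072) (nat_lit 2125521298),
  Rx.mk (nat_lit 406) (nat_lit 6) (nat_lit 2) (nat_lit 6) (nat_lit 7) (nat_lit 13) (nat_lit 57) r4_13 r1_57 (nat_lit 0) (nat_lit 0) (nat_lit 0) (nat_lit 0x200eb8fa48) (nat_lit 2132685848)]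
noncomputable def e24_24 : List Rx := [
  Rx.mk (nat_lit 59) (nat_lit 3) (nat_lit 7) (nat_lit 0) (nat_lit 3) (nat_lit 49) (nat_lit 40) r4_49 r4_40 (nat_lit 0) (nat_lit 0) (nat_lit 2558) (nat_lit 0x1ffffd9c84) (nat_lit 2147497906),
  Rx.mk (nat_lit 152) (nat_lit 0) (nat_lit 3) (nat_lit 2) (nat_lit 6) (nat_lit 50) (nat_lit 45) r4_50 r4_45 (nat_lit 3478) (nat_lit 0) (nat_lit 0) (nat_lit 0x1fef028df4) (nat_lit 2165997626),
  Rx.mk (nat_lit 154) (nat_lit 2) (nat_lit 3) (nat_lit 2) (nat_lit 7) (nat_lit 51) (nat_lit 48) r4_51 r4_48 (nat_lit 0) (nat_lit 0) (nat_lit 0) (nat_lit 0x214780864c) (nat_lit 1800229548),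
  Rx.mk (nat_lit 155) (nat_lit 3) (nat_lit 3) (nat_lit 2) (nat_lit 7) (nat_lit 53) (nat_lit 46) r4_53 r4_46 (nat_lit 0) (nat_lit 0) (nat_lit 0) (nat_lit 0x1daee78442) (nat_lit 2793619698),
  Rx.mk (nat_lit 187) (nat_lit 3) (nat_lit 7) (nat_lit 2) (nat_lit 7) (nat_lit 52) (nat_lit 47) r4_52 r4_47 (nat_lit 0) (nat_lit 0) (nat_lit 0) (nat_lit 0x204c13dfb6) (nat_lit 2067277798),
  Rx.mk (nat_lit 231) (nat_lit 7) (nat_lit 4) (nat_lit 3) (nat_lit 5) (nat_lit 54) (nat_lit 42) r4_54 r4_42 (nat_lit 0) (nat_lit 1838) (nat_lit 0) (nat_lit 0x1f12e87c2a) (nat_lit 2405781036),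
  Rx.mk (nat_lit 247) (nat_lit 7) (nat_lit 6) (nat_lit 3) (nat_lit 7) (nat_lit 55) (nat_lit 44) r4_55 r4_44 (nat_lit 0) (nat_lit 0) (nat_lit 0) (nat_lit 0x20a84958ba) (nat_lit 1969318698),
  Rx.mk (nat_lit 251) (nat_lit 3) (nat_lit 7) (nat_lit 3) (nat_lit 7) (nat_lit 57) (nat_lit 41) r4_57 r4_41 (nat_lit 0) (nat_lit 0) (nat_lit 0) (nat_lit 0x215652ad94) (nat_lit 1784484248),
  Rx.mk (nat_lit 255) (nat_lit 7) (nat_lit 7) (nat_lit 3) (nat_lit 7) (nat_lit 56) (nat_lit 43) r4_56 r4_43 (nat_lit 0) (nat_lit 0) (nat_lit 0) (nat_lit 0x203d0316cc) (nat_lit 2083305548),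
  Rx.mk (nat_lit 278) (nat_lit 6) (nat_lit 2) (nat_lit 4) (nat_lit 3) (nat_lit 40) (nat_lit 49) r4_40 r4_49 (nat_lit 0) (nat_lit 0) (nat_lit 2558) (nat_lit 0x1ffffd9c84) (nat_lit 2147497906),
  Rx.mk (nat_lit 386) (nat_lit 2) (nat_lit 0) (nat_lit 6) (nat_lit 5) (nat_lit 42) (nat_lit 54) r4_42 r4_54 (nat_lit 0) (nat_lit 1838) (nat_lit 0) (nat_lit 0x1f12e87c2a) (nat_lit 2405781036),
  Rx.mk (nat_lit 402) (nat_lit 2) (nat_lit 2) (nat_lit 6) (nat_lit 7) (nat_lit 43) (nat_lit 56) r4_43 r4_56 (nat_lit 0) (nat_lit 0) (nat_lit 0) (nat_lit 0x203d0316cc) (nat_lit 2083305548),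
  Rx.mk (nat_lit 406) (nat_lit 6) (nat_lit 2) (nat_lit 6) (nat_lit 7) (nat_lit 41) (nat_lit 57) r4_41 r4_57 (nat_lit 0) (nat_lit 0) (nat_lit 0) (nat_lit 0x215652ad94) (nat_lit 1784484248),
  Rx.mk (nat_lit 410) (nat_lit 2) (nat_lit 3) (nat_lit 6) (nat_lit 7) (nat_lit 44) (nat_lit 55) r4_44 r4_55 (nat_lit 0) (nat_lit 0) (nat_lit 0) (nat_lit 0x20a84958ba) (nat_lit 1969318698),
  Rx.mk (nat_lit 470) (nat_lit 6) (nat_lit 2) (nat_lit 7) (nat_lit 7) (nat_lit 47) (nat_lit 52) r4_47 r4_52 (nat_lit 0) (nat_lit 0) (nat_lit 0) (nat_lit 0x204c13dfb6) (nat_lit 2067277798),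
  Rx.mk (nat_lit 500) (nat_lit 4) (nat_lit 6) (nat_lit 7) (nat_lit 6) (nat_lit 45) (nat_lit 50) r4_45 r4_50 (nat_lit 3478) (nat_lit 0) (nat_lit 0) (nat_lit 0x1fef028df4) (nat_lit 2165997626),
  Rx.mk (nat_lit 502) (nat_lit 6) (nat_lit 6) (nat_lit 7) (nat_lit 7) (nat_lit 46) (nat_lit 53) r4_46 r4_53 (nat_lit 0) (nat_lit 0) (nat_lit 0) (nat_lit 0x1daee78442) (nat_lit 2793619698),
  Rx.mk (nat_lit 503) (nat_lit 7) (nat_lit 6) (nat_lit 7) (nat_lit 7) (nat_lit 48) (nat_lit 51) r4_48 r4_51 (nat_lit 0) (nat_lit 0) (nat_lit 0) (nat_lit 0x214780864c) (nat_lit 1800229548)]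
noncomputable def e24_25 : List Rx := [
  Rx.mk (nat_lit 278) (nat_lit 6) (nat_lit 2) (nat_lit 4) (nat_lit 3) (nat_lit 100) (nat_lit 181) r4_100 r7_181 (nat_lit 0) (nat_lit 0) (nat_lit 16582013) (nat_lit 0x2006588418) (nat_lit 2158209761),
  Rx.mk (nat_lit 308) (nat_lit 4) (nat_lit 6) (nat_lit 4) (nat_lit 2) (nat_lit 98) (nat_lit 175) r4_98 r7_175 (nat_lit 201188894) (nat_lit 0) (nat_lit 691210) (nat_lit 0x17267e5d7a) (nat_lit 4817627602),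
  Rx.mk (nat_lit 310) (nat_lit 6) (nat_lit 6) (nat_lit 4) (nat_lit 3) (nat_lit 99) (nat_lit 178) r4_99 r7_178 (nat_lit 0) (nat_lit 0) (nat_lit 6737782) (nat_lit 0x1bc92629aa) (nat_lit 3329967480),
  Rx.mk (nat_lit 386) (nat_lit 2) (nat_lit 0) (nat_lit 6) (nat_lit 5) (nat_lit 102) (nat_lit 180) r4_102 r7_180 (nat_lit 0) (nat_lit 22760134) (nat_lit 0) (nat_lit 0x200a33761a) (nat_lit 2160268632),
  Rx.mk (nat_lit 402) (nat_lit 2) (nat_lit 2) (nat_lit 6) (nat_lit 7) (nat_lit 103) (nat_lit 183) r4_103 r7_183 (nat_lit 0) (nat_lit 0) (nat_lit 0) (nat_lit 0x2000efab8c) (nat_lit 2147483648),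
  Rx.mk (nat_lit 406) (nat_lit 6) (nat_lit 2) (nat_lit 6) (nat_lit 7) (nat_lit 101) (nat_lit 182) r4_101 r7_182 (nat_lit 0) (nat_lit 0) (nat_lit 0) (nat_lit 0x2000efab8c) (nat_lit 2147483648),
  Rx.mk (nat_lit 500) (nat_lit 4) (nat_lit 6) (nat_lit 7) (nat_lit 6) (nat_lit 104) (nat_lit 176) r4_104 r7_176 (nat_lit 848345181) (nat_lit 0) (nat_lit 0) (nat_lit 0x204a309cac) (nat_lit 2917572829),
  Rx.mk (nat_lit 502) (nat_lit 6) (nat_lit 6) (nat_lit 7) (nat_lit 7) (nat_lit 105) (nat_lit 179) r4_105 r7_179 (nat_lit 0) (nat_lit 0) (nat_lit 0) (nat_lit 0x2054448262) (nat_lit 2058563498),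
  Rx.mk (nat_lit 503) (nat_lit 7) (nat_lit 6) (nat_lit 7) (nat_lit 7) (nat_lit 106) (nat_lit 177) r4_106 r7_177 (nat_lit 0) (nat_lit 0) (nat_lit 0) (nat_lit 0x2000efab8c) (nat_lit 2147483648)]
noncomputable def e24_26 : List Rx := [
  Rx.mk (nat_lit 386) (nat_lit 2) (nat_lit 0) (nat_lit 6) (nat_lit 5) (nat_lit 126) (nat_lit 146) r4_126 r8_146 (nat_lit 0) (nat_lit 32943383) (nat_lit 0) (nat_lit 0x20006b6bf6) (nat_lit 2180976481),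
  Rx.mk (nat_lit 402) (nat_lit 2) (nat_lit 2) (nat_lit 6) (nat_lit 7) (nat_lit 127) (nat_lit 148) r4_127 r8_148 (nat_lit 0) (nat_lit 0) (nat_lit 0) (nat_lit 0x2000efab8c) (nat_lit 2147483648),
  Rx.mk (nat_lit 406) (nat_lit 6) (nat_lit 2) (nat_lit 6) (nat_lit 7) (nat_lit 125) (nat_lit 147) r4_125 r8_147 (nat_lit 0) (nat_lit 0) (nat_lit 0) (nat_lit 0x2000efab8c) (nat_lit 2147483648)]
noncomputable def e24_27 : List Rx := [
  Rx.mk (nat_lit 278) (nat_lit 6) (nat_lit 2) (nat_lit 4) (nat_lit 3) (nat_lit 116) (nat_lit 48) r4_116 r8_48 (nat_lit 0) (nat_lit 0) (nat_lit 24441886) (nat_lit 0x20164ff054) (nat_lit 2149008934),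
  Rx.mk (nat_lit 308) (nat_lit 4) (nat_lit 6) (nat_lit 4) (nat_lit 2) (nat_lit 114) (nat_lit 47) r4_114 r8_47 (nat_lit 169341143) (nat_lit 0) (nat_lit 24233093) (nat_lit 0x1c19fb9a9a) (nat_lit 3428832434),
  Rx.mk (nat_lit 310) (nat_lit 6) (nat_lit 6) (nat_lit 4) (nat_lit 3) (nat_lit 115) (nat_lit 49) r4_115 r8_49 (nat_lit 0) (nat_lit 0) (nat_lit 20356374) (nat_lit 0x1feba633ea) (nat_lit 2190772272),
  Rx.mk (nat_lit 342) (nat_lit 6) (nat_lit 2) (nat_lit 5) (nat_lit 7) (nat_lit 119) (nat_lit 51) r4_119 r8_51 (nat_lit 0) (nat_lit 0) (nat_lit 0) (nat_lit 0x2000efab8c) (nat_lit 2147483648),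
  Rx.mk (nat_lit 372) (nat_lit 4) (nat_lit 6) (nat_lit 5) (nat_lit 6) (nat_lit 117) (nat_lit 50) r4_117 r8_50 (nat_lit 39267561) (nat_lit 0) (nat_lit 0) (nat_lit 0x200dd2b574) (nat_lit 2172930209),
  Rx.mk (nat_lit 374) (nat_lit 6) (nat_lit 6) (nat_lit 5) (nat_lit 7) (nat_lit 118) (nat_lit 52) r4_118 r8_52 (nat_lit 0) (nat_lit 0) (nat_lit 0) (nat_lit 0x20266813b8) (nat_lit 2107390848),
  Rx.mk (nat_lit 402) (nat_lit 2) (nat_lit 2) (nat_lit 6) (nat_lit 7) (nat_lit 121) (nat_lit 56) r4_121 r8_56 (nat_lit 0) (nat_lit 0) (nat_lit 0) (nat_lit 0x2000efab8c) (nat_lit 2147483648),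
  Rx.mk (nat_lit 406) (nat_lit 6) (nat_lit 2) (nat_lit 6) (nat_lit 7) (nat_lit 120) (nat_lit 57) r4_120 r8_57 (nat_lit 0) (nat_lit 0) (nat_lit 0) (nat_lit 0x2000efab8c) (nat_lit 2147483648),
  Rx.mk (nat_lit 500) (nat_lit 4) (nat_lit 6) (nat_lit 7) (nat_lit 6) (nat_lit 122) (nat_lit 53) r4_122 r8_53 (nat_lit 39267561) (nat_lit 0) (nat_lit 0) (nat_lit 0x200dd2b574) (nat_lit 2172930209),
  Rx.mk (nat_lit 502) (nat_lit 6) (nat_lit 6) (nat_lit 7) (nat_lit 7) (nat_lit 123) (nat_lit 55) r4_123 r8_55 (nat_lit 0) (nat_lit 0) (nat_lit 0) (nat_lit 0x20266813b8) (nat_lit 2107390848),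
  Rx.mk (nat_lit 503) (nat_lit 7) (nat_lit 6) (nat_lit 7) (nat_lit 7) (nat_lit 124) (nat_lit 54) r4_124 r8_54 (nat_lit 0) (nat_lit 0) (nat_lit 0) (nat_lit 0x2000efab8c) (nat_lit 2147483648)]
noncomputable def e24_28 : List Rx := [
  Rx.mk (nat_lit 278) (nat_lit 6) (nat_lit 2) (nat_lit 4) (nat_lit 3) (nat_lit 134) (nat_lit 132) r4_134 r10_132 (nat_lit 0) (nat_lit 0) (nat_lit 25140669) (nat_lit 0x1ffbb08d58) (nat_lit 2178265217),
  Rx.mk (nat_lit 386) (nat_lit 2) (nat_lit 0) (nat_lit 6) (nat_lit 5) (nat_lit 136) (nat_lit 130) r4_136 r10_130 (nat_lit 0) (nat_lit 19969029) (nat_lit 0) (nat_lit 0x2017377f46) (nat_lit 2143566027),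
  Rx.mk (nat_lit 402) (nat_lit 2) (nat_lit 2) (nat_lit 6) (nat_lit 7) (nat_lit 137) (nat_lit 135) r4_137 r10_135 (nat_lit 0) (nat_lit 0) (nat_lit 0) (nat_lit 0x2000efab8c) (nat_lit 2147483648),
  Rx.mk (nat_lit 406) (nat_lit 6) (nat_lit 2) (nat_lit 6) (nat_lit 7) (nat_lit 135) (nat_lit 134) r4_135 r10_134 (nat_lit 0) (nat_lit 0) (nat_lit 0) (nat_lit 0x2000efab8c) (nat_lit 2147483648),
  Rx.mk (nat_lit 410) (nat_lit 2) (nat_lit 3) (nat_lit 6) (nat_lit 7) (nat_lit 138) (nat_lit 131) r4_138 r10_131 (nat_lit 0) (nat_lit 0) (nat_lit 0) (nat_lit 0x200a2486aa) (nat_lit 2137595998),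
  Rx.mk (nat_lit 470) (nat_lit 6) (nat_lit 2) (nat_lit 7) (nat_lit 7) (nat_lit 141) (nat_lit 133) r4_141 r10_133 (nat_lit 0) (nat_lit 0) (nat_lit 0) (nat_lit 0x200f059600) (nat_lit 2132372648),
  Rx.mk (nat_lit 500) (nat_lit 4) (nat_lit 6) (nat_lit 7) (nat_lit 6) (nat_lit 139) (nat_lit 127) r4_139 r10_127 (nat_lit 33545149) (nat_lit 0) (nat_lit 0) (nat_lit 0x2009da6e80) (nat_lit 2171450097),
  Rx.mk (nat_lit 502) (nat_lit 6) (nat_lit 6) (nat_lit 7) (nat_lit 7) (nat_lit 140) (nat_lit 129) r4_140 r10_129 (nat_lit 0) (nat_lit 0) (nat_lit 0) (nat_lit 0x203553c1b0) (nat_lit 2091479948),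
  Rx.mk (nat_lit 503) (nat_lit 7) (nat_lit 6) (nat_lit 7) (nat_lit 7) (nat_lit 142) (nat_lit 128) r4_142 r10_128 (nat_lit 0) (nat_lit 0) (nat_lit 0) (nat_lit 0x2000efab8c) (nat_lit 2147483648)]
noncomputable def e24_29 : List Rx := [
  Rx.mk (nat_lit 59) (nat_lit 3) (nat_lit 7) (nat_lit 0) (nat_lit 3) (nat_lit 209) (nat_lit 129) r4_209 r11_129 (nat_lit 0) (nat_lit 0) (nat_lit 33252355) (nat_lit 0x1e1e0b3184) (nat_lit 2706362303),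
  Rx.mk (nat_lit 63) (nat_lit 7) (nat_lit 7) (nat_lit 0) (nat_lit 3) (nat_lit 208) (nat_lit 127) r4_208 r11_127 (nat_lit 0) (nat_lit 0) (nat_lit 13943354) (nat_lit 0x1fe9920426) (nat_lit 2186603152),
  Rx.mk (nat_lit 155) (nat_lit 3) (nat_lit 3) (nat_lit 2) (nat_lit 7) (nat_lit 211) (nat_lit 135) r4_211 r11_135 (nat_lit 0) (nat_lit 0) (nat_lit 0) (nat_lit 0x1d1531850a) (nat_lit 2961239898),
  Rx.mk (nat_lit 187) (nat_lit 3) (nat_lit 7) (nat_lit 2) (nat_lit 7) (nat_lit 210) (nat_lit 130) r4_210 r11_130 (nat_lit 0) (nat_lit 0) (nat_lit 0) (nat_lit 0x2009542352) (nat_lit 2138402498),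
  Rx.mk (nat_lit 228) (nat_lit 4) (nat_lit 4) (nat_lit 3) (nat_lit 4) (nat_lit 212) (nat_lit 125) r4_212 r11_125 (nat_lit 111406) (nat_lit 93099) (nat_lit 0) (nat_lit 0x18bb0c04a0) (nat_lit 4175091953),
  Rx.mk (nat_lit 231) (nat_lit 7) (nat_lit 4) (nat_lit 3) (nat_lit 5) (nat_lit 214) (nat_lit 126) r4_214 r11_126 (nat_lit 0) (nat_lit 9637506) (nat_lit 0) (nat_lit 0x2017c84ba2) (nat_lit 2132610104),
  Rx.mk (nat_lit 244) (nat_lit 4) (nat_lit 6) (nat_lit 3) (nat_lit 6) (nat_lit 213) (nat_lit 132) r4_213 r11_132 (nat_lit 37892064) (nat_lit 0) (nat_lit 0) (nat_lit 0x1fd0e1a6a2) (nat_lit 2237313662),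
  Rx.mk (nat_lit 247) (nat_lit 7) (nat_lit 6) (nat_lit 3) (nat_lit 7) (nat_lit 215) (nat_lit 133) r4_215 r11_133 (nat_lit 0) (nat_lit 0) (nat_lit 0) (nat_lit 0x2048bcdfa2) (nat_lit 2070855098),
  Rx.mk (nat_lit 255) (nat_lit 7) (nat_lit 7) (nat_lit 3) (nat_lit 7) (nat_lit 216) (nat_lit 128) r4_216 r11_128 (nat_lit 0) (nat_lit 0) (nat_lit 0) (nat_lit 0x201f1cd8dc) (nat_lit 2115170448),
  Rx.mk (nat_lit 470) (nat_lit 6) (nat_lit 2) (nat_lit 7) (nat_lit 7) (nat_lit 207) (nat_lit 136) r4_207 r11_136 (nat_lit 0) (nat_lit 0) (nat_lit 0) (nat_lit 0x20d569b452) (nat_lit 1921392898),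
  Rx.mk (nat_lit 500) (nat_lit 4) (nat_lit 6) (nat_lit 7) (nat_lit 6) (nat_lit 205) (nat_lit 131) r4_205 r11_131 (nat_lit 758068492) (nat_lit 0) (nat_lit 0) (nat_lit 0x200bd422b2) (nat_lit 2893712890),
  Rx.mk (nat_lit 502) (nat_lit 6) (nat_lit 6) (nat_lit 7) (nat_lit 7) (nat_lit 206) (nat_lit 134) r4_206 r11_134 (nat_lit 0) (nat_lit 0) (nat_lit 0) (nat_lit 0x1cfe3e5c74) (nat_lit 2986303348)]
noncomputable def e24_30 : List Rx := [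
  Rx.mk (nat_lit 39) (nat_lit 7) (nat_lit 4) (nat_lit 0) (nat_lit 1) (nat_lit 343) (nat_lit 297) r4_343 r5_297 (nat_lit 0) (nat_lit 6130784) (nat_lit 7835269) (nat_lit 0x1e9c9f7190) (nat_lit 2549033901),
  Rx.mk (nat_lit 47) (nat_lit 7) (nat_lit 5) (nat_lit 0) (nat_lit 3) (nat_lit 344) (nat_lit 298) r4_344 r5_298 (nat_lit 0) (nat_lit 0) (nat_lit 18685603) (nat_lit 0x2014cc7c2a) (nat_lit 2144838301),
  Rx.mk (nat_lit 55) (nat_lit 7) (nat_lit 6) (nat_lit 0) (nat_lit 3) (nat_lit 345) (nat_lit 299) r4_345 r5_299 (nat_lit 0) (nat_lit 0) (nat_lit 23278858) (nat_lit 0x201977f740) (nat_lit 2144472806),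
  Rx.mk (nat_lit 103) (nat_lit 7) (nat_lit 4) (nat_lit 1) (nat_lit 5) (nat_lit 346) (nat_lit 300) r4_346 r5_300 (nat_lit 0) (nat_lit 3732155) (nat_lit 0) (nat_lit 0x228deff508) (nat_lit 1457266403),
  Rx.mk (nat_lit 111) (nat_lit 7) (nat_lit 5) (nat_lit 1) (nat_lit 7) (nat_lit 347) (nat_lit 301) r4_347 r5_301 (nat_lit 0) (nat_lit 0) (nat_lit 0) (nat_lit 0x20ddc7a438) (nat_lit 1912505648),
  Rx.mk (nat_lit 119) (nat_lit 7) (nat_lit 6) (nat_lit 1) (nat_lit 7) (nat_lit 348) (nat_lit 302) r4_348 r5_302 (nat_lit 0) (nat_lit 0) (nat_lit 0) (nat_lit 0x203593f4ec) (nat_lit 2091226648)]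
noncomputable def e24_31 : List Rx := [
  Rx.mk (nat_lit 103) (nat_lit 7) (nat_lit 4) (nat_lit 1) (nat_lit 5) (nat_lit 363) (nat_lit 353) r4_363 r11_353 (nat_lit 0) (nat_lit 24038424) (nat_lit 0) (nat_lit 0x20004322e0) (nat_lit 2172205572),
  Rx.mk (nat_lit 111) (nat_lit 7) (nat_lit 5) (nat_lit 1) (nat_lit 7) (nat_lit 364) (nat_lit 354) r4_364 r11_354 (nat_lit 0) (nat_lit 0) (nat_lit 0) (nat_lit 0x201515db40) (nat_lit 2125874948),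
  Rx.mk (nat_lit 119) (nat_lit 7) (nat_lit 6) (nat_lit 1) (nat_lit 7) (nat_lit 365) (nat_lit 355) r4_365 r11_355 (nat_lit 0) (nat_lit 0) (nat_lit 0) (nat_lit 0x200a1e05a0) (nat_lit 2137602148)]
noncomputable def e24_32 : List Rx := [
  Rx.mk (nat_lit 35) (nat_lit 3) (nat_lit 4) (nat_lit 0) (nat_lit 1) (nat_lit 78) (nat_lit 62) r4_78 r6_62 (nat_lit 0) (nat_lit 133555) (nat_lit 171997) (nat_lit 0x1a6265629a) (nat_lit 3713992250),
  Rx.mk (nat_lit 43) (nat_lit 3) (nat_lit 5) (nat_lit 0) (nat_lit 3) (nat_lit 79) (nat_lit 63) r4_79 r6_63 (nat_lit 0) (nat_lit 0) (nat_lit 17020769) (nat_lit 0x1fffafe3e0) (nat_lit 2165783617),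
  Rx.mk (nat_lit 59) (nat_lit 3) (nat_lit 7) (nat_lit 0) (nat_lit 3) (nat_lit 80) (nat_lit 64) r4_80 r6_64 (nat_lit 0) (nat_lit 0) (nat_lit 26413005) (nat_lit 0x1e6d2b9a4c) (nat_lit 2613255353),
  Rx.mk (nat_lit 163) (nat_lit 3) (nat_lit 4) (nat_lit 2) (nat_lit 5) (nat_lit 81) (nat_lit 67) r4_81 r6_67 (nat_lit 0) (nat_lit 17128) (nat_lit 0) (nat_lit 0x184f11cca8) (nat_lit 4292518276),
  Rx.mk (nat_lit 171) (nat_lit 3) (nat_lit 5) (nat_lit 2) (nat_lit 7) (nat_lit 82) (nat_lit 68) r4_82 r6_68 (nat_lit 0) (nat_lit 0) (nat_lit 0) (nat_lit 0x203b853550) (nat_lit 2084747848),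
  Rx.mk (nat_lit 187) (nat_lit 3) (nat_lit 7) (nat_lit 2) (nat_lit 7) (nat_lit 83) (nat_lit 69) r4_83 r6_69 (nat_lit 0) (nat_lit 0) (nat_lit 0) (nat_lit 0x2004d169c0) (nat_lit 2143169448),
  Rx.mk (nat_lit 227) (nat_lit 3) (nat_lit 4) (nat_lit 3) (nat_lit 5) (nat_lit 87) (nat_lit 65) r4_87 r6_65 (nat_lit 0) (nat_lit 7925745) (nat_lit 0) (nat_lit 0x20373fb0ec) (nat_lit 2097311693),
  Rx.mk (nat_lit 231) (nat_lit 7) (nat_lit 4) (nat_lit 3) (nat_lit 5) (nat_lit 84) (nat_lit 59) r4_84 r6_59 (nat_lit 0) (nat_lit 6403559) (nat_lit 0) (nat_lit 0x200a1b78da) (nat_lit 2143894957),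
  Rx.mk (nat_lit 235) (nat_lit 3) (nat_lit 5) (nat_lit 3) (nat_lit 7) (nat_lit 88) (nat_lit 66) r4_88 r6_66 (nat_lit 0) (nat_lit 0) (nat_lit 0) (nat_lit 0x200c352fd0) (nat_lit 2135384348),
  Rx.mk (nat_lit 239) (nat_lit 7) (nat_lit 5) (nat_lit 3) (nat_lit 7) (nat_lit 85) (nat_lit 60) r4_85 r6_60 (nat_lit 0) (nat_lit 0) (nat_lit 0) (nat_lit 0x201109e208) (nat_lit 2130194048),
  Rx.mk (nat_lit 247) (nat_lit 7) (nat_lit 6) (nat_lit 3) (nat_lit 7) (nat_lit 86) (nat_lit 61) r4_86 r6_61 (nat_lit 0) (nat_lit 0) (nat_lit 0) (nat_lit 0x201eb01af8) (nat_lit 2115636748)]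
noncomputable def e24_33 : List Rx := [
  Rx.mk (nat_lit 59) (nat_lit 3) (nat_lit 7) (nat_lit 0) (nat_lit 3) (nat_lit 59) (nat_lit 27) r4_59 r5_27 (nat_lit 0) (nat_lit 0) (nat_lit 10476443) (nat_lit 0x1fc6097a70) (nat_lit 2221747591),
  Rx.mk (nat_lit 187) (nat_lit 3) (nat_lit 7) (nat_lit 2) (nat_lit 7) (nat_lit 60) (nat_lit 32) r4_60 r5_32 (nat_lit 0) (nat_lit 0) (nat_lit 0) (nat_lit 0x209249f5f6) (nat_lit 1992602698),
  Rx.mk (nat_lit 227) (nat_lit 3) (nat_lit 4) (nat_lit 3) (nat_lit 5) (nat_lit 63) (nat_lit 28) r4_63 r5_28 (nat_lit 0) (nat_lit 3371126) (nat_lit 0) (nat_lit 0x21093d712e) (nat_lit 1869600124),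
  Rx.mk (nat_lit 231) (nat_lit 7) (nat_lit 4) (nat_lit 3) (nat_lit 5) (nat_lit 61) (nat_lit 30) r4_61 r5_30 (nat_lit 0) (nat_lit 1816114) (nat_lit 0) (nat_lit 0x201a621730) (nat_lit 2121675662),
  Rx.mk (nat_lit 247) (nat_lit 7) (nat_lit 6) (nat_lit 3) (nat_lit 7) (nat_lit 62) (nat_lit 31) r4_62 r5_31 (nat_lit 0) (nat_lit 0) (nat_lit 0) (nat_lit 0x20470e9ef2) (nat_lit 2072620898),
  Rx.mk (nat_lit 251) (nat_lit 3) (nat_lit 7) (nat_lit 3) (nat_lit 7) (nat_lit 64) (nat_lit 29) r4_64 r5_29 (nat_lit 0) (nat_lit 0) (nat_lit 0) (nat_lit 0x20068cc6a6) (nat_lit 2141430198),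
  Rx.mk (nat_lit 503) (nat_lit 7) (nat_lit 6) (nat_lit 7) (nat_lit 7) (nat_lit 58) (nat_lit 33) r4_58 r5_33 (nat_lit 0) (nat_lit 0) (nat_lit 0) (nat_lit 0x200f975e8c) (nat_lit 2131704148)]
noncomputable def e24_34 : List Rx := [
  Rx.mk (nat_lit 503) (nat_lit 7) (nat_lit 6) (nat_lit 7) (nat_lit 7) (nat_lit 143) (nat_lit 8) r4_143 r11_8 (nat_lit 0) (nat_lit 0) (nat_lit 0) (nat_lit 0x1ff5eca550) (nat_lit 2159346848)]
noncomputable def e24_35 : List Rx := [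
  Rx.mk (nat_lit 35) (nat_lit 3) (nat_lit 4) (nat_lit 0) (nat_lit 1) (nat_lit 220) (nat_lit 337) r4_220 r6_337 (nat_lit 0) (nat_lit 555196) (nat_lit 749742) (nat_lit 0x1967a2ca82) (nat_lit 3988232636),
  Rx.mk (nat_lit 39) (nat_lit 7) (nat_lit 4) (nat_lit 0) (nat_lit 1) (nat_lit 217) (nat_lit 338) r4_217 r6_338 (nat_lit 0) (nat_lit 6850) (nat_lit 9891) (nat_lit 0x1e6ef66cf8) (nat_lit 2584404589),
  Rx.mk (nat_lit 43) (nat_lit 3) (nat_lit 5) (nat_lit 0) (nat_lit 3) (nat_lit 221) (nat_lit 340) r4_221 r6_340 (nat_lit 0) (nat_lit 0) (nat_lit 15524151) (nat_lit 0x1fd0d1df42) (nat_lit 2215009849),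
  Rx.mk (nat_lit 47) (nat_lit 7) (nat_lit 5) (nat_lit 0) (nat_lit 3) (nat_lit 218) (nat_lit 341) r4_218 r6_341 (nat_lit 0) (nat_lit 0) (nat_lit 13215204) (nat_lit 0x1feb2255c0) (nat_lit 2184143352),
  Rx.mk (nat_lit 55) (nat_lit 7) (nat_lit 6) (nat_lit 0) (nat_lit 3) (nat_lit 219) (nat_lit 343) r4_219 r6_343 (nat_lit 0) (nat_lit 0) (nat_lit 16579424) (nat_lit 0x204b4b044c) (nat_lit 2084721572),
  Rx.mk (nat_lit 163) (nat_lit 3) (nat_lit 4) (nat_lit 2) (nat_lit 5) (nat_lit 222) (nat_lit 339) r4_222 r6_339 (nat_lit 0) (nat_lit 1610) (nat_lit 0) (nat_lit 0x1550564f1a) (nat_lit 5127797908),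
  Rx.mk (nat_lit 171) (nat_lit 3) (nat_lit 5) (nat_lit 2) (nat_lit 7) (nat_lit 223) (nat_lit 342) r4_223 r6_342 (nat_lit 0) (nat_lit 0) (nat_lit 0) (nat_lit 0x1d798a8e20) (nat_lit 2851812848)]
noncomputable def e24_36 : List Rx := [
  Rx.mk (nat_lit 35) (nat_lit 3) (nat_lit 4) (nat_lit 0) (nat_lit 1) (nat_lit 244) (nat_lit 179) r4_244 r12_179 (nat_lit 0) (nat_lit 9859) (nat_lit 28722) (nat_lit 0x198c7c56fc) (nat_lit 3946733429),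
  Rx.mk (nat_lit 39) (nat_lit 7) (nat_lit 4) (nat_lit 0) (nat_lit 1) (nat_lit 241) (nat_lit 185) r4_241 r12_185 (nat_lit 0) (nat_lit 855) (nat_lit 1272) (nat_lit 0x1d97a1ac0e) (nat_lit 2818976125),
  Rx.mk (nat_lit 43) (nat_lit 3) (nat_lit 5) (nat_lit 0) (nat_lit 3) (nat_lit 245) (nat_lit 181) r4_245 r12_181 (nat_lit 0) (nat_lit 0) (nat_lit 21146279) (nat_lit 0x1f0549b732) (nat_lit 2442248577),
  Rx.mk (nat_lit 47) (nat_lit 7) (nat_lit 5) (nat_lit 0) (nat_lit 3) (nat_lit 242) (nat_lit 187) r4_242 r12_187 (nat_lit 0) (nat_lit 0) (nat_lit 12177089) (nat_lit 0x1fb27a9ab6) (nat_lit 2244661087),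
  Rx.mk (nat_lit 55) (nat_lit 7) (nat_lit 6) (nat_lit 0) (nat_lit 3) (nat_lit 243) (nat_lit 189) r4_243 r12_189 (nat_lit 0) (nat_lit 0) (nat_lit 16759512) (nat_lit 0x2047463858) (nat_lit 2089173460),
  Rx.mk (nat_lit 59) (nat_lit 3) (nat_lit 7) (nat_lit 0) (nat_lit 3) (nat_lit 246) (nat_lit 183) r4_246 r12_183 (nat_lit 0) (nat_lit 0) (nat_lit 29509241) (nat_lit 0x1ccaafb8a8) (nat_lit 3072224889),
  Rx.mk (nat_lit 163) (nat_lit 3) (nat_lit 4) (nat_lit 2) (nat_lit 5) (nat_lit 247) (nat_lit 180) r4_247 r12_180 (nat_lit 0) (nat_lit 1770) (nat_lit 0) (nat_lit 0x17c290559c) (nat_lit 4445568318),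
  Rx.mk (nat_lit 171) (nat_lit 3) (nat_lit 5) (nat_lit 2) (nat_lit 7) (nat_lit 248) (nat_lit 182) r4_248 r12_182 (nat_lit 0) (nat_lit 0) (nat_lit 0) (nat_lit 0x1fb03df1b2) (nat_lit 2234633498),
  Rx.mk (nat_lit 187) (nat_lit 3) (nat_lit 7) (nat_lit 2) (nat_lit 7) (nat_lit 249) (nat_lit 184) r4_249 r12_184 (nat_lit 0) (nat_lit 0) (nat_lit 0) (nat_lit 0x1bfba7ffa2) (nat_lit 3268098598),
  Rx.mk (nat_lit 231) (nat_lit 7) (nat_lit 4) (nat_lit 3) (nat_lit 5) (nat_lit 250) (nat_lit 186) r4_250 r12_186 (nat_lit 0) (nat_lit 3308125) (nat_lit 0) (nat_lit 0x20fc14fe0e) (nat_lit 1883489423),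
  Rx.mk (nat_lit 239) (nat_lit 7) (nat_lit 5) (nat_lit 3) (nat_lit 7) (nat_lit 251) (nat_lit 188) r4_251 r12_188 (nat_lit 0) (nat_lit 0) (nat_lit 0) (nat_lit 0x202452f822) (nat_lit 2109582098),
  Rx.mk (nat_lit 247) (nat_lit 7) (nat_lit 6) (nat_lit 3) (nat_lit 7) (nat_lit 252) (nat_lit 190) r4_252 r12_190 (nat_lit 0) (nat_lit 0) (nat_lit 0) (nat_lit 0x2023d8595a) (nat_lit 2110118398)]
noncomputable def e24_37 : List Rx := [
  Rx.mk (nat_lit 136) (nat_lit 0) (nat_lit 1) (nat_lit 2) (nat_lit 6) (nat_lit 69) (nat_lit 80) r4_69 r0_80 (nat_lit 11856797) (nat_lit 0) (nat_lit 0) (nat_lit 0x1f36ac2e54) (nat_lit 2379133345),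
  Rx.mk (nat_lit 139) (nat_lit 3) (nat_lit 1) (nat_lit 2) (nat_lit 7) (nat_lit 70) (nat_lit 81) r4_70 r0_81 (nat_lit 0) (nat_lit 0) (nat_lit 0) (nat_lit 0x1de36764f8) (nat_lit 2736761248),
  Rx.mk (nat_lit 168) (nat_lit 0) (nat_lit 5) (nat_lit 2) (nat_lit 6) (nat_lit 68) (nat_lit 79) r4_68 r0_79 (nat_lit 346379) (nat_lit 0) (nat_lit 0) (nat_lit 0x1785b5c58a) (nat_lit 4512244877)]
noncomputable def e24_38 : List Rx := [
  Rx.mk (nat_lit 40) (nat_lit 0) (nat_lit 5) (nat_lit 0) (nat_lit 2) (nat_lit 155) (nat_lit 318) r4_155 r0_318 (nat_lit 723582) (nat_lit 0) (nat_lit 598549210) (nat_lit 0x19bbf5fb36) (nat_lit 4494381490),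
  Rx.mk (nat_lit 41) (nat_lit 1) (nat_lit 5) (nat_lit 0) (nat_lit 3) (nat_lit 156) (nat_lit 319) r4_156 r0_319 (nat_lit 0) (nat_lit 0) (nat_lit 32921011) (nat_lit 0x1fd9c6b4f6) (nat_lit 2222694609),
  Rx.mk (nat_lit 168) (nat_lit 0) (nat_lit 5) (nat_lit 2) (nat_lit 6) (nat_lit 157) (nat_lit 320) r4_157 r0_320 (nat_lit 13615453) (nat_lit 0) (nat_lit 0) (nat_lit 0x1e83e8aac2) (nat_lit 2575669251),
  Rx.mk (nat_lit 169) (nat_lit 1) (nat_lit 5) (nat_lit 2) (nat_lit 7) (nat_lit 158) (nat_lit 321) r4_158 r0_321 (nat_lit 0) (nat_lit 0) (nat_lit 0) (nat_lit 0x20213b2e84) (nat_lit 2112904448)]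
noncomputable def e24_39 : List Rx := [
  Rx.mk (nat_lit 40) (nat_lit 0) (nat_lit 5) (nat_lit 0) (nat_lit 2) (nat_lit 167) (nat_lit 71) r4_167 r7_71 (nat_lit 193240) (nat_lit 0) (nat_lit 184540823) (nat_lit 0x15f56a5f6e) (nat_lit 5132738961),
  Rx.mk (nat_lit 41) (nat_lit 1) (nat_lit 5) (nat_lit 0) (nat_lit 3) (nat_lit 168) (nat_lit 74) r4_168 r7_74 (nat_lit 0) (nat_lit 0) (nat_lit 548337725) (nat_lit 0x1f9f02c116) (nat_lit 2801997023),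
  Rx.mk (nat_lit 136) (nat_lit 0) (nat_lit 1) (nat_lit 2) (nat_lit 6) (nat_lit 170) (nat_lit 73) r4_170 r7_73 (nat_lit 10163698) (nat_lit 0) (nat_lit 0) (nat_lit 0x1f1480be58) (nat_lit 2414683846),
  Rx.mk (nat_lit 137) (nat_lit 1) (nat_lit 1) (nat_lit 2) (nat_lit 7) (nat_lit 172) (nat_lit 76) r4_172 r7_76 (nat_lit 0) (nat_lit 0) (nat_lit 0) (nat_lit 0x208e2a96f6) (nat_lit 1997063298),
  Rx.mk (nat_lit 139) (nat_lit 3) (nat_lit 1) (nat_lit 2) (nat_lit 7) (nat_lit 173) (nat_lit 77) r4_173 r7_77 (nat_lit 0) (nat_lit 0) (nat_lit 0) (nat_lit 0x2026fc885e) (nat_lit 2106733598),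
  Rx.mk (nat_lit 168) (nat_lit 0) (nat_lit 5) (nat_lit 2) (nat_lit 6) (nat_lit 169) (nat_lit 72) r4_169 r7_72 (nat_lit 3444502) (nat_lit 0) (nat_lit 0) (nat_lit 0x191b2752ea) (nat_lit 4073882200),
  Rx.mk (nat_lit 169) (nat_lit 1) (nat_lit 5) (nat_lit 2) (nat_lit 7) (nat_lit 171) (nat_lit 75) r4_171 r7_75 (nat_lit 0) (nat_lit 0) (nat_lit 0) (nat_lit 0x20bc663f2a) (nat_lit 1947979098)]
noncomputable def e24_40 : List Rx := [
  Rx.mk (nat_lit 41) (nat_lit 1) (nat_lit 5) (nat_lit 0) (nat_lit 3) (nat_lit 300) (nat_lit 349) r4_300 r2_349 (nat_lit 0) (nat_lit 0) (nat_lit 61711102) (nat_lit 0x2000d0f458) (nat_lit 2209304850),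
  Rx.mk (nat_lit 45) (nat_lit 5) (nat_lit 5) (nat_lit 0) (nat_lit 3) (nat_lit 299) (nat_lit 350) r4_299 r2_350 (nat_lit 0) (nat_lit 0) (nat_lit 237381203) (nat_lit 0x1f74d48eb0) (nat_lit 2537070151),
  Rx.mk (nat_lit 105) (nat_lit 1) (nat_lit 5) (nat_lit 1) (nat_lit 7) (nat_lit 302) (nat_lit 351) r4_302 r2_351 (nat_lit 0) (nat_lit 0) (nat_lit 0) (nat_lit 0x2000efab8c) (nat_lit 2147483648),
  Rx.mk (nat_lit 109) (nat_lit 5) (nat_lit 5) (nat_lit 1) (nat_lit 7) (nat_lit 301) (nat_lit 352) r4_301 r2_352 (nat_lit 0) (nat_lit 0) (nat_lit 0) (nat_lit 0x2000efab8c) (nat_lit 2147483648),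
  Rx.mk (nat_lit 169) (nat_lit 1) (nat_lit 5) (nat_lit 2) (nat_lit 7) (nat_lit 303) (nat_lit 353) r4_303 r2_353 (nat_lit 0) (nat_lit 0) (nat_lit 0) (nat_lit 0x20169754c6) (nat_lit 2124266498)]
noncomputable def e24_41 : List Rx := [
  Rx.mk (nat_lit 41) (nat_lit 1) (nat_lit 5) (nat_lit 0) (nat_lit 3) (nat_lit 310) (nat_lit 312) r4_310 r9_312 (nat_lit 0) (nat_lit 0) (nat_lit 62977929) (nat_lit 0x1fe9d466c2) (nat_lit 2235402027),
  Rx.mk (nat_lit 45) (nat_lit 5) (nat_lit 5) (nat_lit 0) (nat_lit 3) (nat_lit 309) (nat_lit 313) r4_309 r9_313 (nat_lit 0) (nat_lit 0) (nat_lit 98908435) (nat_lit 0x1f855315fe) (nat_lit 2380621633),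
  Rx.mk (nat_lit 105) (nat_lit 1) (nat_lit 5) (nat_lit 1) (nat_lit 7) (nat_lit 312) (nat_lit 314) r4_312 r9_314 (nat_lit 0) (nat_lit 0) (nat_lit 0) (nat_lit 0x2000efab8c) (nat_lit 2147483648),
  Rx.mk (nat_lit 109) (nat_lit 5) (nat_lit 5) (nat_lit 1) (nat_lit 7) (nat_lit 311) (nat_lit 315) r4_311 r9_315 (nat_lit 0) (nat_lit 0) (nat_lit 0) (nat_lit 0x2000efab8c) (nat_lit 2147483648),
  Rx.mk (nat_lit 137) (nat_lit 1) (nat_lit 1) (nat_lit 2) (nat_lit 7) (nat_lit 314) (nat_lit 311) r4_314 r9_311 (nat_lit 0) (nat_lit 0) (nat_lit 0) (nat_lit 0x2000efab8c) (nat_lit 2147483648),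
  Rx.mk (nat_lit 169) (nat_lit 1) (nat_lit 5) (nat_lit 2) (nat_lit 7) (nat_lit 313) (nat_lit 316) r4_313 r9_316 (nat_lit 0) (nat_lit 0) (nat_lit 0) (nat_lit 0x2000efab8c) (nat_lit 2147483648)]
noncomputable def e24_42 : List Rx := [
  Rx.mk (nat_lit 105) (nat_lit 1) (nat_lit 5) (nat_lit 1) (nat_lit 7) (nat_lit 308) (nat_lit 306) r4_308 r9_306 (nat_lit 0) (nat_lit 0) (nat_lit 0) (nat_lit 0x2000efab8c) (nat_lit 2147483648),
  Rx.mk (nat_lit 109) (nat_lit 5) (nat_lit 5) (nat_lit 1) (nat_lit 7) (nat_lit 307) (nat_lit 305) r4_307 r9_305 (nat_lit 0) (nat_lit 0) (nat_lit 0) (nat_lit 0x2000efab8c) (nat_lit 2147483648)]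
noncomputable def e24_43 : List Rx := [
  Rx.mk (nat_lit 41) (nat_lit 1) (nat_lit 5) (nat_lit 0) (nat_lit 3) (nat_lit 159) (nat_lit 305) r4_159 r1_305 (nat_lit 0) (nat_lit 0) (nat_lit 28062036) (nat_lit 0x2010dce866) (nat_lit 2158429834),
  Rx.mk (nat_lit 169) (nat_lit 1) (nat_lit 5) (nat_lit 2) (nat_lit 7) (nat_lit 160) (nat_lit 306) r4_160 r1_306 (nat_lit 0) (nat_lit 0) (nat_lit 0) (nat_lit 0x201b1905d0) (nat_lit 2119444248)]
noncomputable def e24_44 : List Rx := [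
  Rx.mk (nat_lit 41) (nat_lit 1) (nat_lit 5) (nat_lit 0) (nat_lit 3) (nat_lit 174) (nat_lit 68) r4_174 r8_68 (nat_lit 0) (nat_lit 0) (nat_lit 26988162) (nat_lit 0x2010fdb6ea) (nat_lit 2157249060),
  Rx.mk (nat_lit 137) (nat_lit 1) (nat_lit 1) (nat_lit 2) (nat_lit 7) (nat_lit 176) (nat_lit 70) r4_176 r8_70 (nat_lit 0) (nat_lit 0) (nat_lit 0) (nat_lit 0x200af89148) (nat_lit 2136704548),
  Rx.mk (nat_lit 169) (nat_lit 1) (nat_lit 5) (nat_lit 2) (nat_lit 7) (nat_lit 175) (nat_lit 69) r4_175 r8_69 (nat_lit 0) (nat_lit 0) (nat_lit 0) (nat_lit 0x202885ec6a) (nat_lit 2105134598)]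
noncomputable def e24_45 : List Rx := [
  Rx.mk (nat_lit 136) (nat_lit 0) (nat_lit 1) (nat_lit 2) (nat_lit 6) (nat_lit 71) (nat_lit 85) r4_71 r1_85 (nat_lit 20192138) (nat_lit 0) (nat_lit 0) (nat_lit 0x1ff3a281c0) (nat_lit 2181971686),
  Rx.mk (nat_lit 138) (nat_lit 2) (nat_lit 1) (nat_lit 2) (nat_lit 7) (nat_lit 72) (nat_lit 87) r4_72 r1_87 (nat_lit 0) (nat_lit 0) (nat_lit 0) (nat_lit 0x200edfb728) (nat_lit 2132523748),
  Rx.mk (nat_lit 139) (nat_lit 3) (nat_lit 1) (nat_lit 2) (nat_lit 7) (nat_lit 73) (nat_lit 86) r4_73 r1_86 (nat_lit 0) (nat_lit 0) (nat_lit 0) (nat_lit 0x201edf3162) (nat_lit 2115434398)]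
noncomputable def e24_46 : List Rx := [
  Rx.mk (nat_lit 128) (nat_lit 0) (nat_lit 0) (nat_lit 2) (nat_lit 4) (nat_lit 24) (nat_lit 84) r4_24 r2_84 (nat_lit 8937533) (nat_lit 6343899) (nat_lit 0) (nat_lit 0x1bcdb66188) (nat_lit 3333563080),
  Rx.mk (nat_lit 130) (nat_lit 2) (nat_lit 0) (nat_lit 2) (nat_lit 5) (nat_lit 26) (nat_lit 92) r4_26 r2_92 (nat_lit 0) (nat_lit 17628787) (nat_lit 0) (nat_lit 0x2026e25826) (nat_lit 2124498785),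
  Rx.mk (nat_lit 131) (nat_lit 3) (nat_lit 0) (nat_lit 2) (nat_lit 5) (nat_lit 28) (nat_lit 86) r4_28 r2_86 (nat_lit 0) (nat_lit 2921) (nat_lit 0) (nat_lit 0x1d859bd304) (nat_lit 2838612169),
  Rx.mk (nat_lit 136) (nat_lit 0) (nat_lit 1) (nat_lit 2) (nat_lit 6) (nat_lit 25) (nat_lit 85) r4_25 r2_85 (nat_lit 25104164) (nat_lit 0) (nat_lit 0) (nat_lit 0x201e707c54) (nat_lit 2140983212),
  Rx.mk (nat_lit 138) (nat_lit 2) (nat_lit 1) (nat_lit 2) (nat_lit 7) (nat_lit 27) (nat_lit 93) r4_27 r2_93 (nat_lit 0) (nat_lit 0) (nat_lit 0) (nat_lit 0x200eca52f2) (nat_lit 2132617098),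
  Rx.mk (nat_lit 139) (nat_lit 3) (nat_lit 1) (nat_lit 2) (nat_lit 7) (nat_lit 29) (nat_lit 87) r4_29 r2_87 (nat_lit 0) (nat_lit 0) (nat_lit 0) (nat_lit 0x21ad7eb8a6) (nat_lit 1691950698),
  Rx.mk (nat_lit 155) (nat_lit 3) (nat_lit 3) (nat_lit 2) (nat_lit 7) (nat_lit 30) (nat_lit 88) r4_30 r2_88 (nat_lit 0) (nat_lit 0) (nat_lit 0) (nat_lit 0x2090b060e0) (nat_lit 1994387548),
  Rx.mk (nat_lit 386) (nat_lit 2) (nat_lit 0) (nat_lit 6) (nat_lit 5) (nat_lit 21) (nat_lit 89) r4_21 r2_89 (nat_lit 0) (nat_lit 18809005) (nat_lit 0) (nat_lit 0x202cb0bf90) (nat_lit 2119500453),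
  Rx.mk (nat_lit 394) (nat_lit 2) (nat_lit 1) (nat_lit 6) (nat_lit 7) (nat_lit 22) (nat_lit 90) r4_22 r2_90 (nat_lit 0) (nat_lit 0) (nat_lit 0) (nat_lit 0x200f9eae6c) (nat_lit 2131728348),
  Rx.mk (nat_lit 402) (nat_lit 2) (nat_lit 2) (nat_lit 6) (nat_lit 7) (nat_lit 23) (nat_lit 91) r4_23 r2_91 (nat_lit 0) (nat_lit 0) (nat_lit 0) (nat_lit 0x201485d860) (nat_lit 2126488848)]
noncomputable def e24_47 : List Rx := [
  Rx.mk (nat_lit 136) (nat_lit 0) (nat_lit 1) (nat_lit 2) (nat_lit 6) (nat_lit 177) (nat_lit 351) r4_177 r8_351 (nat_lit 23283002) (nat_lit 0) (nat_lit 0) (nat_lit 0x201629b4c0) (nat_lit 2147997650),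
  Rx.mk (nat_lit 137) (nat_lit 1) (nat_lit 1) (nat_lit 2) (nat_lit 7) (nat_lit 178) (nat_lit 352) r4_178 r8_352 (nat_lit 0) (nat_lit 0) (nat_lit 0) (nat_lit 0x20158b4b32) (nat_lit 2125394898),
  Rx.mk (nat_lit 138) (nat_lit 2) (nat_lit 1) (nat_lit 2) (nat_lit 7) (nat_lit 179) (nat_lit 354) r4_179 r8_354 (nat_lit 0) (nat_lit 0) (nat_lit 0) (nat_lit 0x2000efab8c) (nat_lit 2147483648),
  Rx.mk (nat_lit 139) (nat_lit 3) (nat_lit 1) (nat_lit 2) (nat_lit 7) (nat_lit 180) (nat_lit 353) r4_180 r8_353 (nat_lit 0) (nat_lit 0) (nat_lit 0) (nat_lit 0x20158b4b32) (nat_lit 2125394898)]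
noncomputable def e24_48 : List Rx := [
  Rx.mk (nat_lit 128) (nat_lit 0) (nat_lit 0) (nat_lit 2) (nat_lit 4) (nat_lit 147) (nat_lit 50) r4_147 r9_50 (nat_lit 22063994) (nat_lit 19188071) (nat_lit 0) (nat_lit 0x1db9c56be0) (nat_lit 2823565913),
  Rx.mk (nat_lit 130) (nat_lit 2) (nat_lit 0) (nat_lit 2) (nat_lit 5) (nat_lit 150) (nat_lit 59) r4_150 r9_59 (nat_lit 0) (nat_lit 39267561) (nat_lit 0) (nat_lit 0x2000efab8c) (nat_lit 2186751209),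
  Rx.mk (nat_lit 131) (nat_lit 3) (nat_lit 0) (nat_lit 2) (nat_lit 5) (nat_lit 152) (nat_lit 53) r4_152 r9_53 (nat_lit 0) (nat_lit 39267561) (nat_lit 0) (nat_lit 0x2000efab8c) (nat_lit 2186751209),
  Rx.mk (nat_lit 136) (nat_lit 0) (nat_lit 1) (nat_lit 2) (nat_lit 6) (nat_lit 148) (nat_lit 51) r4_148 r9_51 (nat_lit 39267561) (nat_lit 0) (nat_lit 0) (nat_lit 0x2000efab8c) (nat_lit 2186751209),
  Rx.mk (nat_lit 137) (nat_lit 1) (nat_lit 1) (nat_lit 2) (nat_lit 7) (nat_lit 149) (nat_lit 52) r4_149 r9_52 (nat_lit 0) (nat_lit 0) (nat_lit 0) (nat_lit 0x2000efab8c) (nat_lit 2147483648),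
  Rx.mk (nat_lit 138) (nat_lit 2) (nat_lit 1) (nat_lit 2) (nat_lit 7) (nat_lit 151) (nat_lit 60) r4_151 r9_60 (nat_lit 0) (nat_lit 0) (nat_lit 0) (nat_lit 0x2000efab8c) (nat_lit 2147483648),
  Rx.mk (nat_lit 139) (nat_lit 3) (nat_lit 1) (nat_lit 2) (nat_lit 7) (nat_lit 153) (nat_lit 54) r4_153 r9_54 (nat_lit 0) (nat_lit 0) (nat_lit 0) (nat_lit 0x2000efab8c) (nat_lit 2147483648),
  Rx.mk (nat_lit 155) (nat_lit 3) (nat_lit 3) (nat_lit 2) (nat_lit 7) (nat_lit 154) (nat_lit 55) r4_154 r9_55 (nat_lit 0) (nat_lit 0) (nat_lit 0) (nat_lit 0x2000efab8c) (nat_lit 2147483648),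
  Rx.mk (nat_lit 386) (nat_lit 2) (nat_lit 0) (nat_lit 6) (nat_lit 5) (nat_lit 144) (nat_lit 56) r4_144 r9_56 (nat_lit 0) (nat_lit 39267561) (nat_lit 0) (nat_lit 0x2000efab8c) (nat_lit 2186751209),
  Rx.mk (nat_lit 394) (nat_lit 2) (nat_lit 1) (nat_lit 6) (nat_lit 7) (nat_lit 145) (nat_lit 57) r4_145 r9_57 (nat_lit 0) (nat_lit 0) (nat_lit 0) (nat_lit 0x2000efab8c) (nat_lit 2147483648),
  Rx.mk (nat_lit 402) (nat_lit 2) (nat_lit 2) (nat_lit 6) (nat_lit 7) (nat_lit 146) (nat_lit 58) r4_146 r9_58 (nat_lit 0) (nat_lit 0) (nat_lit 0) (nat_lit 0x2000efab8c) (nat_lit 2147483648)]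
noncomputable def e24_49 : List Rx := [
  Rx.mk (nat_lit 386) (nat_lit 2) (nat_lit 0) (nat_lit 6) (nat_lit 5) (nat_lit 128) (nat_lit 15) r4_128 r9_15 (nat_lit 0) (nat_lit 39267561) (nat_lit 0) (nat_lit 0x2000efab8c) (nat_lit 2186751209),
  Rx.mk (nat_lit 394) (nat_lit 2) (nat_lit 1) (nat_lit 6) (nat_lit 7) (nat_lit 129) (nat_lit 16) r4_129 r9_16 (nat_lit 0) (nat_lit 0) (nat_lit 0) (nat_lit 0x2000efab8c) (nat_lit 2147483648),
  Rx.mk (nat_lit 402) (nat_lit 2) (nat_lit 2) (nat_lit 6) (nat_lit 7) (nat_lit 130) (nat_lit 17) r4_130 r9_17 (nat_lit 0) (nat_lit 0) (nat_lit 0) (nat_lit 0x2000efab8c) (nat_lit 2147483648)]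
noncomputable def e24_50 : List Rx := [
  Rx.mk (nat_lit 43) (nat_lit 3) (nat_lit 5) (nat_lit 0) (nat_lit 3) (nat_lit 65) (nat_lit 72) r4_65 r3_72 (nat_lit 0) (nat_lit 0) (nat_lit 1836) (nat_lit 0x1ffffffbc8) (nat_lit 2147485784),
  Rx.mk (nat_lit 168) (nat_lit 0) (nat_lit 5) (nat_lit 2) (nat_lit 6) (nat_lit 66) (nat_lit 71) r4_66 r3_71 (nat_lit 8032) (nat_lit 0) (nat_lit 0) (nat_lit 0x2252d7bb7c) (nat_lit 1515859480),
  Rx.mk (nat_lit 171) (nat_lit 3) (nat_lit 5) (nat_lit 2) (nat_lit 7) (nat_lit 67) (nat_lit 73) r4_67 r3_73 (nat_lit 0) (nat_lit 0) (nat_lit 0) (nat_lit 0x2182c42cd6) (nat_lit 1736797198)]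
noncomputable def e24_51 : List Rx := [
  Rx.mk (nat_lit 43) (nat_lit 3) (nat_lit 5) (nat_lit 0) (nat_lit 3) (nat_lit 74) (nat_lit 75) r4_74 r4_75 (nat_lit 0) (nat_lit 0) (nat_lit 1407695) (nat_lit 0x1f582eb380) (nat_lit 2331866043),
  Rx.mk (nat_lit 139) (nat_lit 3) (nat_lit 1) (nat_lit 2) (nat_lit 7) (nat_lit 77) (nat_lit 77) r4_77 r4_77 (nat_lit 0) (nat_lit 0) (nat_lit 0) (nat_lit 0x2092ec06e8) (nat_lit 1992011748),
  Rx.mk (nat_lit 168) (nat_lit 0) (nat_lit 5) (nat_lit 2) (nat_lit 6) (nat_lit 75) (nat_lit 74) r4_75 r4_74 (nat_lit 1407695) (nat_lit 0) (nat_lit 0) (nat_lit 0x1f582eb380) (nat_lit 2331866043),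
  Rx.mk (nat_lit 171) (nat_lit 3) (nat_lit 5) (nat_lit 2) (nat_lit 7) (nat_lit 76) (nat_lit 76) r4_76 r4_76 (nat_lit 0) (nat_lit 0) (nat_lit 0) (nat_lit 0x1e646d7538) (nat_lit 2595863248)]
noncomputable def e24_52 : List Rx := [
  Rx.mk (nat_lit 43) (nat_lit 3) (nat_lit 5) (nat_lit 0) (nat_lit 3) (nat_lit 89) (nat_lit 67) r4_89 r5_67 (nat_lit 0) (nat_lit 0) (nat_lit 14420331) (nat_lit 0x200b9b8b82) (nat_lit 2150380029),
  Rx.mk (nat_lit 168) (nat_lit 0) (nat_lit 5) (nat_lit 2) (nat_lit 6) (nat_lit 90) (nat_lit 66) r4_90 r5_66 (nat_lit 10632573) (nat_lit 0) (nat_lit 0) (nat_lit 0x2103b91a0a) (nat_lit 1882788071),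
  Rx.mk (nat_lit 171) (nat_lit 3) (nat_lit 5) (nat_lit 2) (nat_lit 7) (nat_lit 91) (nat_lit 69) r4_91 r5_69 (nat_lit 0) (nat_lit 0) (nat_lit 0) (nat_lit 0x2097cc1dc4) (nat_lit 1986342748),
  Rx.mk (nat_lit 235) (nat_lit 3) (nat_lit 5) (nat_lit 3) (nat_lit 7) (nat_lit 92) (nat_lit 68) r4_92 r5_68 (nat_lit 0) (nat_lit 0) (nat_lit 0) (nat_lit 0x20267d04c6) (nat_lit 2107258998)]
noncomputable def e24_53 : List Rx := [
  Rx.mk (nat_lit 40) (nat_lit 0) (nat_lit 5) (nat_lit 0) (nat_lit 2) (nat_lit 161) (nat_lit 349) r4_161 r4_349 (nat_lit 3518531) (nat_lit 0) (nat_lit 375852828) (nat_lit 0x1bec83cf7e) (nat_lit 3664011457),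
  Rx.mk (nat_lit 41) (nat_lit 1) (nat_lit 5) (nat_lit 0) (nat_lit 3) (nat_lit 162) (nat_lit 350) r4_162 r4_350 (nat_lit 0) (nat_lit 0) (nat_lit 28589961) (nat_lit 0x202734e492) (nat_lit 2135126359),
  Rx.mk (nat_lit 43) (nat_lit 3) (nat_lit 5) (nat_lit 0) (nat_lit 3) (nat_lit 163) (nat_lit 351) r4_163 r4_351 (nat_lit 0) (nat_lit 0) (nat_lit 662617175) (nat_lit 0x1ff2aff590) (nat_lit 2825391423),
  Rx.mk (nat_lit 168) (nat_lit 0) (nat_lit 5) (nat_lit 2) (nat_lit 6) (nat_lit 164) (nat_lit 352) r4_164 r4_352 (nat_lit 12924875) (nat_lit 0) (nat_lit 0) (nat_lit 0x1d5cb2cb78) (nat_lit 2896566823),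
  Rx.mk (nat_lit 169) (nat_lit 1) (nat_lit 5) (nat_lit 2) (nat_lit 7) (nat_lit 165) (nat_lit 353) r4_165 r4_353 (nat_lit 0) (nat_lit 0) (nat_lit 0) (nat_lit 0x2047d29f82) (nat_lit 2071816898),
  Rx.mk (nat_lit 171) (nat_lit 3) (nat_lit 5) (nat_lit 2) (nat_lit 7) (nat_lit 166) (nat_lit 354) r4_166 r4_354 (nat_lit 0) (nat_lit 0) (nat_lit 0) (nat_lit 0x201e3357de) (nat_lit 2116099998)]
noncomputable def e24_54 : List Rx := [
  Rx.mk (nat_lit 40) (nat_lit 0) (nat_lit 5) (nat_lit 0) (nat_lit 2) (nat_lit 181) (nat_lit 52) r4_181 r10_52 (nat_lit 5054852) (nat_lit 0) (nat_lit 26843108) (nat_lit 0x18f28ef14e) (nat_lit 4146671158),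
  Rx.mk (nat_lit 41) (nat_lit 1) (nat_lit 5) (nat_lit 0) (nat_lit 3) (nat_lit 182) (nat_lit 54) r4_182 r10_54 (nat_lit 0) (nat_lit 0) (nat_lit 30411061) (nat_lit 0x2018283756) (nat_lit 2152991859),
  Rx.mk (nat_lit 43) (nat_lit 3) (nat_lit 5) (nat_lit 0) (nat_lit 3) (nat_lit 183) (nat_lit 56) r4_183 r10_56 (nat_lit 0) (nat_lit 0) (nat_lit 57357888) (nat_lit 0x1fde8aa7a4) (nat_lit 2241982036),
  Rx.mk (nat_lit 139) (nat_lit 3) (nat_lit 1) (nat_lit 2) (nat_lit 7) (nat_lit 187) (nat_lit 58) r4_187 r10_58 (nat_lit 0) (nat_lit 0) (nat_lit 0) (nat_lit 0x201efa33cc) (nat_lit 2115312248),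
  Rx.mk (nat_lit 168) (nat_lit 0) (nat_lit 5) (nat_lit 2) (nat_lit 6) (nat_lit 184) (nat_lit 53) r4_184 r10_53 (nat_lit 9595899) (nat_lit 0) (nat_lit 0) (nat_lit 0x1f96b45fe2) (nat_lit 2272287897),
  Rx.mk (nat_lit 169) (nat_lit 1) (nat_lit 5) (nat_lit 2) (nat_lit 7) (nat_lit 185) (nat_lit 55) r4_185 r10_55 (nat_lit 0) (nat_lit 0) (nat_lit 0) (nat_lit 0x2050e8c056) (nat_lit 2062160898),
  Rx.mk (nat_lit 171) (nat_lit 3) (nat_lit 5) (nat_lit 2) (nat_lit 7) (nat_lit 186) (nat_lit 57) r4_186 r10_57 (nat_lit 0) (nat_lit 0) (nat_lit 0) (nat_lit 0x2034786cb4) (nat_lit 2092394748)]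
noncomputable def e24_55 : List Rx := [
  Rx.mk (nat_lit 40) (nat_lit 0) (nat_lit 5) (nat_lit 0) (nat_lit 2) (nat_lit 188) (nat_lit 46) r4_188 r11_46 (nat_lit 45681359) (nat_lit 0) (nat_lit 34704389) (nat_lit 0x1d3f67d374) (nat_lit 2995976496),
  Rx.mk (nat_lit 41) (nat_lit 1) (nat_lit 5) (nat_lit 0) (nat_lit 3) (nat_lit 189) (nat_lit 48) r4_189 r11_48 (nat_lit 0) (nat_lit 0) (nat_lit 30940619) (nat_lit 0x2021d0725a) (nat_lit 2143228717),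
  Rx.mk (nat_lit 43) (nat_lit 3) (nat_lit 5) (nat_lit 0) (nat_lit 3) (nat_lit 190) (nat_lit 50) r4_190 r11_50 (nat_lit 0) (nat_lit 0) (nat_lit 41354998) (nat_lit 0x20059b1ad6) (nat_lit 2183773896),
  Rx.mk (nat_lit 168) (nat_lit 0) (nat_lit 5) (nat_lit 2) (nat_lit 6) (nat_lit 191) (nat_lit 47) r4_191 r11_47 (nat_lit 12573394) (nat_lit 0) (nat_lit 0) (nat_lit 0x1e89d3d97a) (nat_lit 2568174092),
  Rx.mk (nat_lit 169) (nat_lit 1) (nat_lit 5) (nat_lit 2) (nat_lit 7) (nat_lit 192) (nat_lit 49) r4_192 r11_49 (nat_lit 0) (nat_lit 0) (nat_lit 0) (nat_lit 0x2044c16a30) (nat_lit 2075080448),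
  Rx.mk (nat_lit 171) (nat_lit 3) (nat_lit 5) (nat_lit 2) (nat_lit 7) (nat_lit 193) (nat_lit 52) r4_193 r11_52 (nat_lit 0) (nat_lit 0) (nat_lit 0) (nat_lit 0x2036e7731e) (nat_lit 2089797598),
  Rx.mk (nat_lit 235) (nat_lit 3) (nat_lit 5) (nat_lit 3) (nat_lit 7) (nat_lit 194) (nat_lit 51) r4_194 r11_51 (nat_lit 0) (nat_lit 0) (nat_lit 0) (nat_lit 0x1ff6f3a732) (nat_lit 2158238598)]
noncomputable def e24_56 : List Rx := [
  Rx.mk (nat_lit 43) (nat_lit 3) (nat_lit 5) (nat_lit 0) (nat_lit 3) (nat_lit 224) (nat_lit 305) r4_224 r5_305 (nat_lit 0) (nat_lit 0) (nat_lit 617422483) (nat_lit 0x1fb3dbd7ee) (nat_lit 2847860281),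
  Rx.mk (nat_lit 171) (nat_lit 3) (nat_lit 5) (nat_lit 2) (nat_lit 7) (nat_lit 225) (nat_lit 306) r4_225 r5_306 (nat_lit 0) (nat_lit 0) (nat_lit 0) (nat_lit 0x1e84dbe656) (nat_lit 2560549398)]
noncomputable def e24_57 : List Rx := [
  Rx.mk (nat_lit 43) (nat_lit 3) (nat_lit 5) (nat_lit 0) (nat_lit 3) (nat_lit 226) (nat_lit 358) r4_226 r11_358 (nat_lit 0) (nat_lit 0) (nat_lit 188127683) (nat_lit 0x1d52b7709c) (nat_lit 3082630231),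
  Rx.mk (nat_lit 139) (nat_lit 3) (nat_lit 1) (nat_lit 2) (nat_lit 7) (nat_lit 228) (nat_lit 357) r4_228 r11_357 (nat_lit 0) (nat_lit 0) (nat_lit 0) (nat_lit 0x2082963854) (nat_lit 2009450148),
  Rx.mk (nat_lit 171) (nat_lit 3) (nat_lit 5) (nat_lit 2) (nat_lit 7) (nat_lit 227) (nat_lit 359) r4_227 r11_359 (nat_lit 0) (nat_lit 0) (nat_lit 0) (nat_lit 0x1a1ec2e954) (nat_lit 3787496348)]
noncomputable def e24 : List (List Rx) := [e24_0, e24_1, e24_2, e24_3, e24_4, e24_5, e24_6, e24_7, e24_8, e24_9, e24_10, e24_11, e24_12, e24_13, e24_14, e24_15, e24_16, e24_17, e24_18, e24_19, e24_20, e24_21, e24_22, e24_23, e24_24, e24_25, e24_26, e24_27, e24_28, e24_29, e24_30, e24_31, e24_32, e24_33, e24_34, e24_35, e24_36, e24_37, e24_38, e24_39, e24_40, e24_41, e24_42, e24_43, e24_44, e24_45, e24_46, e24_47, e24_48, e24_49, e24_50, e24_51, e24_52, e24_53, e24_54, e24_55,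 e24_56, e24_57]
noncomputable def e25_0 : List Rx := [
  Rx.mk (nat_lit 100) (nat_lit 4) (nat_lit 4) (nat_lit 1) (nat_lit 4) (nat_lit 56) (nat_lit 177) r7_56 r0_177 (nat_lit 364323767) (nat_lit 70053) (nat_lit 0) (nat_lit 0x1936d6e51e) (nat_lit 4404409418),
  Rx.mk (nat_lit 108) (nat_lit 4) (nat_lit 5) (nat_lit 1) (nat_lit 6) (nat_lit 59) (nat_lit 179) r7_59 r0_179 (nat_lit 2076918) (nat_lit 0) (nat_lit 0) (nat_lit 0x16b9749910) (nat_lit 4736536266),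
  Rx.mk (nat_lit 356) (nat_lit 4) (nat_lit 4) (nat_lit 5) (nat_lit 4) (nat_lit 57) (nat_lit 178) r7_57 r0_178 (nat_lit 394520) (nat_lit 13826) (nat_lit 0) (nat_lit 0x1be69cc70a) (nat_lit 3291128944),
  Rx.mk (nat_lit 359) (nat_lit 7) (nat_lit 4) (nat_lit 5) (nat_lit 5) (nat_lit 58) (nat_lit 182) r7_58 r0_182 (nat_lit 0) (nat_lit 8222135) (nat_lit 0) (nat_lit 0x20013cd0ec) (nat_lit 2155212183),
  Rx.mk (nat_lit 364) (nat_lit 4) (nat_lit 5) (nat_lit 5) (nat_lit 6) (nat_lit 60) (nat_lit 180) r7_60 r0_180 (nat_lit 52001452) (nat_lit 0) (nat_lit 0) (nat_lit 0x1e69666108) (nat_lit 2642941100),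
  Rx.mk (nat_lit 367) (nat_lit 7) (nat_lit 5) (nat_lit 5) (nat_lit 7) (nat_lit 61) (nat_lit 183) r7_61 r0_183 (nat_lit 0) (nat_lit 0) (nat_lit 0) (nat_lit 0x201d3442b2) (nat_lit 2117185098),
  Rx.mk (nat_lit 372) (nat_lit 4) (nat_lit 6) (nat_lit 5) (nat_lit 6) (nat_lit 62) (nat_lit 181) r7_62 r0_181 (nat_lit 1259355059) (nat_lit 0) (nat_lit 0) (nat_lit 0x20beee895a) (nat_lit 3204160657),
  Rx.mk (nat_lit 375) (nat_lit 7) (nat_lit 6) (nat_lit 5) (nat_lit 7) (nat_lit 63) (nat_lit 184) r7_63 r0_184 (nat_lit 0) (nat_lit 0) (nat_lit 0) (nat_lit 0x203183aa1e) (nat_lit 2095553398)]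
noncomputable def e25_1 : List Rx := [
  Rx.mk (nat_lit 356) (nat_lit 4) (nat_lit 4) (nat_lit 5) (nat_lit 4) (nat_lit 64) (nat_lit 192) r7_64 r1_192 (nat_lit 380376103) (nat_lit 14677998) (nat_lit 0) (nat_lit 0x1cff4bb35a) (nat_lit 3380478299),
  Rx.mk (nat_lit 359) (nat_lit 7) (nat_lit 4) (nat_lit 5) (nat_lit 5) (nat_lit 65) (nat_lit 195) r7_65 r1_195 (nat_lit 0) (nat_lit 16886061) (nat_lit 0) (nat_lit 0x201fca129a) (nat_lit 2131328859),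
  Rx.mk (nat_lit 364) (nat_lit 4) (nat_lit 5) (nat_lit 5) (nat_lit 6) (nat_lit 66) (nat_lit 193) r7_66 r1_193 (nat_lit 104823800) (nat_lit 0) (nat_lit 0) (nat_lit 0x1ff47440e8) (nat_lit 2265770548),
  Rx.mk (nat_lit 367) (nat_lit 7) (nat_lit 5) (nat_lit 5) (nat_lit 7) (nat_lit 67) (nat_lit 196) r7_67 r1_196 (nat_lit 0) (nat_lit 0) (nat_lit 0) (nat_lit 0x201b565cdc) (nat_lit 2119195248),
  Rx.mk (nat_lit 372) (nat_lit 4) (nat_lit 6) (nat_lit 5) (nat_lit 6) (nat_lit 68) (nat_lit 194) r7_68 r1_194 (nat_lit 1171744702) (nat_lit 0) (nat_lit 0) (nat_lit 0x231bc52466) (nat_lit 2474665500),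
  Rx.mk (nat_lit 374) (nat_lit 6) (nat_lit 6) (nat_lit 5) (nat_lit 7) (nat_lit 69) (nat_lit 198) r7_69 r1_198 (nat_lit 0) (nat_lit 0) (nat_lit 0) (nat_lit 0x1fd6d74576) (nat_lit 2192969998),
  Rx.mk (nat_lit 375) (nat_lit 7) (nat_lit 6) (nat_lit 5) (nat_lit 7) (nat_lit 70) (nat_lit 197) r7_70 r1_197 (nat_lit 0) (nat_lit 0) (nat_lit 0) (nat_lit 0x201b565cdc) (nat_lit 2119195248)]
noncomputable def e25_2 : List Rx := [
  Rx.mk (nat_lit 292) (nat_lit 4) (nat_lit 4) (nat_lit 4) (nat_lit 0) (nat_lit 21) (nat_lit 189) r7_21 r2_189 (nat_lit 8247) (nat_lit 1798) (nat_lit 1937) (nat_lit 0x10a98581b4) (nat_lit 6425118130),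
  Rx.mk (nat_lit 295) (nat_lit 7) (nat_lit 4) (nat_lit 4) (nat_lit 1) (nat_lit 23) (nat_lit 193) r7_23 r2_193 (nat_lit 0) (nat_lit 1671799) (nat_lit 1571667) (nat_lit 0x186cb0e74e) (nat_lit 4263704064),
  Rx.mk (nat_lit 308) (nat_lit 4) (nat_lit 6) (nat_lit 4) (nat_lit 2) (nat_lit 26) (nat_lit 191) r7_26 r2_191 (nat_lit 20717393) (nat_lit 0) (nat_lit 5087834) (nat_lit 0x1975a87816) (nat_lit 3997776725),
  Rx.mk (nat_lit 310) (nat_lit 6) (nat_lit 6) (nat_lit 4) (nat_lit 3) (nat_lit 28) (nat_lit 200) r7_28 r2_200 (nat_lit 0) (nat_lit 0) (nat_lit 24199369) (nat_lit 0x1bd3433ce8) (nat_lit 3336510717),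
  Rx.mk (nat_lit 311) (nat_lit 7) (nat_lit 6) (nat_lit 4) (nat_lit 3) (nat_lit 31) (nat_lit 197) r7_31 r2_197 (nat_lit 0) (nat_lit 0) (nat_lit 12082706) (nat_lit 0x208790be4c) (nat_lit 2016209154),
  Rx.mk (nat_lit 356) (nat_lit 4) (nat_lit 4) (nat_lit 5) (nat_lit 4) (nat_lit 22) (nat_lit 190) r7_22 r2_190 (nat_lit 30039614) (nat_lit 10623857) (nat_lit 0) (nat_lit 0x15f14e7b36) (nat_lit 4993558069),
  Rx.mk (nat_lit 359) (nat_lit 7) (nat_lit 4) (nat_lit 5) (nat_lit 5) (nat_lit 24) (nat_lit 194) r7_24 r2_194 (nat_lit 0) (nat_lit 10772890) (nat_lit 0) (nat_lit 0x201356c724) (nat_lit 2138452038),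
  Rx.mk (nat_lit 372) (nat_lit 4) (nat_lit 6) (nat_lit 5) (nat_lit 6) (nat_lit 27) (nat_lit 192) r7_27 r2_192 (nat_lit 105487641) (nat_lit 0) (nat_lit 0) (nat_lit 0x1e6cf14f72) (nat_lit 2692591839),
  Rx.mk (nat_lit 374) (nat_lit 6) (nat_lit 6) (nat_lit 5) (nat_lit 7) (nat_lit 29) (nat_lit 201) r7_29 r2_201 (nat_lit 0) (nat_lit 0) (nat_lit 0) (nat_lit 0x1fe46492f2) (nat_lit 2178308798),
  Rx.mk (nat_lit 375) (nat_lit 7) (nat_lit 6) (nat_lit 5) (nat_lit 7) (nat_lit 32) (nat_lit 198) r7_32 r2_198 (nat_lit 0) (nat_lit 0) (nat_lit 0) (nat_lit 0x2044298814) (nat_lit 2075709948),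
  Rx.mk (nat_lit 438) (nat_lit 6) (nat_lit 6) (nat_lit 6) (nat_lit 7) (nat_lit 30) (nat_lit 202) r7_30 r2_202 (nat_lit 0) (nat_lit 0) (nat_lit 0) (nat_lit 0x2000efab8c) (nat_lit 2147483648),
  Rx.mk (nat_lit 487) (nat_lit 7) (nat_lit 4) (nat_lit 7) (nat_lit 5) (nat_lit 25) (nat_lit 195) r7_25 r2_195 (nat_lit 0) (nat_lit 17968761) (nat_lit 0) (nat_lit 0x1fd9089b88) (nat_lit 2208536809),
  Rx.mk (nat_lit 503) (nat_lit 7) (nat_lit 6) (nat_lit 7) (nat_lit 7) (nat_lit 33) (nat_lit 199) r7_33 r2_199 (nat_lit 0) (nat_lit 0) (nat_lit 0) (nat_lit 0x2044298814) (nat_lit 2075709948),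
  Rx.mk (nat_lit 511) (nat_lit 7) (nat_lit 7) (nat_lit 7) (nat_lit 7) (nat_lit 34) (nat_lit 196) r7_34 r2_196 (nat_lit 0) (nat_lit 0) (nat_lit 0) (nat_lit 0x2000efab8c) (nat_lit 2147483648)]
noncomputable def e25_3 : List Rx := [
  Rx.mk (nat_lit 100) (nat_lit 4) (nat_lit 4) (nat_lit 1) (nat_lit 4) (nat_lit 52) (nat_lit 167) r7_52 r3_167 (nat_lit 2430) (nat_lit 3027) (nat_lit 0) (nat_lit 0x1c96a78c70) (nat_lit 3098938105),
  Rx.mk (nat_lit 103) (nat_lit 7) (nat_lit 4) (nat_lit 1) (nat_lit 5) (nat_lit 53) (nat_lit 169) r7_53 r3_169 (nat_lit 0) (nat_lit 2374) (nat_lit 0) (nat_lit 0x1fff9a4832) (nat_lit 2147919272),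
  Rx.mk (nat_lit 108) (nat_lit 4) (nat_lit 5) (nat_lit 1) (nat_lit 6) (nat_lit 54) (nat_lit 168) r7_54 r3_168 (nat_lit 71436) (nat_lit 0) (nat_lit 0) (nat_lit 0x1ecd88f65a) (nat_lit 2481433234),
  Rx.mk (nat_lit 111) (nat_lit 7) (nat_lit 5) (nat_lit 1) (nat_lit 7) (nat_lit 55) (nat_lit 170) r7_55 r3_170 (nat_lit 0) (nat_lit 0) (nat_lit 0) (nat_lit 0x2023d6e4a8) (nat_lit 2110098548)]
noncomputable def e25_4 : List Rx := [
  Rx.mk (nat_lit 100) (nat_lit 4) (nat_lit 4) (nat_lit 1) (nat_lit 4) (nat_lit 71) (nat_lit 167) r7_71 r4_167 (nat_lit 184540823) (nat_lit 193240) (nat_lit 0) (nat_lit 0x15f56a5f6e) (nat_lit 5132738961),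
  Rx.mk (nat_lit 103) (nat_lit 7) (nat_lit 4) (nat_lit 1) (nat_lit 5) (nat_lit 72) (nat_lit 169) r7_72 r4_169 (nat_lit 0) (nat_lit 3444502) (nat_lit 0) (nat_lit 0x191b2752ea) (nat_lit 4073882200),
  Rx.mk (nat_lit 108) (nat_lit 4) (nat_lit 5) (nat_lit 1) (nat_lit 6) (nat_lit 74) (nat_lit 168) r7_74 r4_168 (nat_lit 548337725) (nat_lit 0) (nat_lit 0) (nat_lit 0x1f9f02c116) (nat_lit 2801997023),
  Rx.mk (nat_lit 111) (nat_lit 7) (nat_lit 5) (nat_lit 1) (nat_lit 7) (nat_lit 75) (nat_lit 171) r7_75 r4_171 (nat_lit 0) (nat_lit 0) (nat_lit 0) (nat_lit 0x20bc663f2a) (nat_lit 1947979098),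
  Rx.mk (nat_lit 359) (nat_lit 7) (nat_lit 4) (nat_lit 5) (nat_lit 5) (nat_lit 73) (nat_lit 170) r7_73 r4_170 (nat_lit 0) (nat_lit 10163698) (nat_lit 0) (nat_lit 0x1f1480be58) (nat_lit 2414683846),
  Rx.mk (nat_lit 367) (nat_lit 7) (nat_lit 5) (nat_lit 5) (nat_lit 7) (nat_lit 76) (nat_lit 172) r7_76 r4_172 (nat_lit 0) (nat_lit 0) (nat_lit 0) (nat_lit 0x208e2a96f6) (nat_lit 1997063298),
  Rx.mk (nat_lit 375) (nat_lit 7) (nat_lit 6) (nat_lit 5) (nat_lit 7) (nat_lit 77) (nat_lit 173) r7_77 r4_173 (nat_lit 0) (nat_lit 0) (nat_lit 0) (nat_lit 0x2026fc885e) (nat_lit 2106733598)]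
noncomputable def e25_5 : List Rx := [
  Rx.mk (nat_lit 100) (nat_lit 4) (nat_lit 4) (nat_lit 1) (nat_lit 4) (nat_lit 88) (nat_lit 184) r7_88 r5_184 (nat_lit 252916038) (nat_lit 9778492) (nat_lit 0) (nat_lit 0x1d1464a12a) (nat_lit 3225071628),
  Rx.mk (nat_lit 103) (nat_lit 7) (nat_lit 4) (nat_lit 1) (nat_lit 5) (nat_lit 89) (nat_lit 186) r7_89 r5_186 (nat_lit 0) (nat_lit 27762807) (nat_lit 0) (nat_lit 0x1fcba4fb58) (nat_lit 2232881655),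
  Rx.mk (nat_lit 108) (nat_lit 4) (nat_lit 5) (nat_lit 1) (nat_lit 6) (nat_lit 90) (nat_lit 185) r7_90 r5_185 (nat_lit 39267561) (nat_lit 0) (nat_lit 0) (nat_lit 0x2011d074a4) (nat_lit 2168648009),
  Rx.mk (nat_lit 111) (nat_lit 7) (nat_lit 5) (nat_lit 1) (nat_lit 7) (nat_lit 91) (nat_lit 187) r7_91 r5_187 (nat_lit 0) (nat_lit 0) (nat_lit 0) (nat_lit 0x204b3d1260) (nat_lit 2068186448),
  Rx.mk (nat_lit 127) (nat_lit 7) (nat_lit 7) (nat_lit 1) (nat_lit 7) (nat_lit 92) (nat_lit 188) r7_92 r5_188 (nat_lit 0) (nat_lit 0) (nat_lit 0) (nat_lit 0x1fab898f46) (nat_lit 2240089898)]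
noncomputable def e25_6 : List Rx := [
  Rx.mk (nat_lit 59) (nat_lit 3) (nat_lit 7) (nat_lit 0) (nat_lit 3) (nat_lit 36) (nat_lit 102) r7_36 r3_102 (nat_lit 0) (nat_lit 0) (nat_lit 13067) (nat_lit 0x1ffedc9c88) (nat_lit 2148740815),
  Rx.mk (nat_lit 231) (nat_lit 7) (nat_lit 4) (nat_lit 3) (nat_lit 5) (nat_lit 35) (nat_lit 100) r7_35 r3_100 (nat_lit 0) (nat_lit 13067) (nat_lit 0) (nat_lit 0x1ffedc9c88) (nat_lit 2148740815),
  Rx.mk (nat_lit 251) (nat_lit 3) (nat_lit 7) (nat_lit 3) (nat_lit 7) (nat_lit 37) (nat_lit 103) r7_37 r3_103 (nat_lit 0) (nat_lit 0) (nat_lit 0) (nat_lit 0x1b65044f42) (nat_lit 3432416898),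
  Rx.mk (nat_lit 255) (nat_lit 7) (nat_lit 7) (nat_lit 3) (nat_lit 7) (nat_lit 38) (nat_lit 101) r7_38 r3_101 (nat_lit 0) (nat_lit 0) (nat_lit 0) (nat_lit 0x1b65044f42) (nat_lit 3432416898)]
noncomputable def e25_7 : List Rx := [
  Rx.mk (nat_lit 251) (nat_lit 3) (nat_lit 7) (nat_lit 3) (nat_lit 7) (nat_lit 8) (nat_lit 104) r7_8 r0_104 (nat_lit 0) (nat_lit 0) (nat_lit 0) (nat_lit 0x1fd446eec4) (nat_lit 2195815148),
  Rx.mk (nat_lit 255) (nat_lit 7) (nat_lit 7) (nat_lit 3) (nat_lit 7) (nat_lit 9) (nat_lit 103) r7_9 r0_103 (nat_lit 0) (nat_lit 0) (nat_lit 0) (nat_lit 0x1fd442bfde) (nat_lit 2195818098),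
  Rx.mk (nat_lit 308) (nat_lit 4) (nat_lit 6) (nat_lit 4) (nat_lit 2) (nat_lit 2) (nat_lit 105) r7_2 r0_105 (nat_lit 1681448) (nat_lit 0) (nat_lit 118942) (nat_lit 0x1a2c72ec48) (nat_lit 3774257838),
  Rx.mk (nat_lit 310) (nat_lit 6) (nat_lit 6) (nat_lit 4) (nat_lit 3) (nat_lit 4) (nat_lit 108) r7_4 r0_108 (nat_lit 0) (nat_lit 0) (nat_lit 12433884) (nat_lit 0x1d4834c50c) (nat_lit 2918441232),
  Rx.mk (nat_lit 438) (nat_lit 6) (nat_lit 6) (nat_lit 6) (nat_lit 7) (nat_lit 5) (nat_lit 110) r7_5 r0_110 (nat_lit 0) (nat_lit 0) (nat_lit 0) (nat_lit 0x1fcde9e496) (nat_lit 2202710498),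
  Rx.mk (nat_lit 484) (nat_lit 4) (nat_lit 4) (nat_lit 7) (nat_lit 4) (nat_lit 0) (nat_lit 100) r7_0 r0_100 (nat_lit 203862769) (nat_lit 5017793) (nat_lit 0) (nat_lit 0x184e7076c8) (nat_lit 4502484910),
  Rx.mk (nat_lit 487) (nat_lit 7) (nat_lit 4) (nat_lit 7) (nat_lit 5) (nat_lit 1) (nat_lit 101) r7_1 r0_101 (nat_lit 0) (nat_lit 12432931) (nat_lit 0) (nat_lit 0x1b37024158) (nat_lit 3494942479),
  Rx.mk (nat_lit 500) (nat_lit 4) (nat_lit 6) (nat_lit 7) (nat_lit 6) (nat_lit 3) (nat_lit 106) r7_3 r0_106 (nat_lit 889720639) (nat_lit 0) (nat_lit 0) (nat_lit 0x201c8bd30c) (nat_lit 3007471987),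
  Rx.mk (nat_lit 502) (nat_lit 6) (nat_lit 6) (nat_lit 7) (nat_lit 7) (nat_lit 6) (nat_lit 109) r7_6 r0_109 (nat_lit 0) (nat_lit 0) (nat_lit 0) (nat_lit 0x1fe1cf73ae) (nat_lit 2181107598),
  Rx.mk (nat_lit 503) (nat_lit 7) (nat_lit 6) (nat_lit 7) (nat_lit 7) (nat_lit 7) (nat_lit 107) r7_7 r0_107 (nat_lit 0) (nat_lit 0) (nat_lit 0) (nat_lit 0x1fe69d992e) (nat_lit 2175885398),
  Rx.mk (nat_lit 511) (nat_lit 7) (nat_lit 7) (nat_lit 7) (nat_lit 7) (nat_lit 10) (nat_lit 102) r7_10 r0_102 (nat_lit 0) (nat_lit 0) (nat_lit 0) (nat_lit 0x1d505599a0) (nat_lit 2897180348)]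
noncomputable def e25_8 : List Rx := [
  Rx.mk (nat_lit 292) (nat_lit 4) (nat_lit 4) (nat_lit 4) (nat_lit 0) (nat_lit 11) (nat_lit 107) r7_11 r1_107 (nat_lit 17136391) (nat_lit 3223515) (nat_lit 2016129) (nat_lit 0x12cbaa1212) (nat_lit 5852792833),
  Rx.mk (nat_lit 308) (nat_lit 4) (nat_lit 6) (nat_lit 4) (nat_lit 2) (nat_lit 14) (nat_lit 111) r7_14 r1_111 (nat_lit 713491) (nat_lit 0) (nat_lit 446182) (nat_lit 0x1bd12082f4) (nat_lit 3315418221),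
  Rx.mk (nat_lit 310) (nat_lit 6) (nat_lit 6) (nat_lit 4) (nat_lit 3) (nat_lit 16) (nat_lit 114) r7_16 r1_114 (nat_lit 0) (nat_lit 0) (nat_lit 17677952) (nat_lit 0x1e04661186) (nat_lit 2718662750),
  Rx.mk (nat_lit 438) (nat_lit 6) (nat_lit 6) (nat_lit 6) (nat_lit 7) (nat_lit 17) (nat_lit 116) r7_17 r1_116 (nat_lit 0) (nat_lit 0) (nat_lit 0) (nat_lit 0x2000efab8c) (nat_lit 2147483648),
  Rx.mk (nat_lit 484) (nat_lit 4) (nat_lit 4) (nat_lit 7) (nat_lit 4) (nat_lit 12) (nat_lit 108) r7_12 r1_108 (nat_lit 1151235616) (nat_lit 90318778) (nat_lit 0) (nat_lit 0x1f034ce99a) (nat_lit 3664863692),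
  Rx.mk (nat_lit 487) (nat_lit 7) (nat_lit 4) (nat_lit 7) (nat_lit 5) (nat_lit 13) (nat_lit 109) r7_13 r1_109 (nat_lit 0) (nat_lit 69501590) (nat_lit 0) (nat_lit 0x1f8ea8b802) (nat_lit 2341057088),
  Rx.mk (nat_lit 500) (nat_lit 4) (nat_lit 6) (nat_lit 7) (nat_lit 6) (nat_lit 15) (nat_lit 112) r7_15 r1_112 (nat_lit 67165276) (nat_lit 0) (nat_lit 0) (nat_lit 0x2016b03798) (nat_lit 2191310324),
  Rx.mk (nat_lit 502) (nat_lit 6) (nat_lit 6) (nat_lit 7) (nat_lit 7) (nat_lit 18) (nat_lit 115) r7_18 r1_115 (nat_lit 0) (nat_lit 0) (nat_lit 0) (nat_lit 0x2000efab8c) (nat_lit 2147483648),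
  Rx.mk (nat_lit 503) (nat_lit 7) (nat_lit 6) (nat_lit 7) (nat_lit 7) (nat_lit 19) (nat_lit 113) r7_19 r1_113 (nat_lit 0) (nat_lit 0) (nat_lit 0) (nat_lit 0x201a8afc18) (nat_lit 2120043948),
  Rx.mk (nat_lit 511) (nat_lit 7) (nat_lit 7) (nat_lit 7) (nat_lit 7) (nat_lit 20) (nat_lit 110) r7_20 r1_110 (nat_lit 0) (nat_lit 0) (nat_lit 0) (nat_lit 0x2000efab8c) (nat_lit 2147483648)]
noncomputable def e25_9 : List Rx := [
  Rx.mk (nat_lit 59) (nat_lit 3) (nat_lit 7) (nat_lit 0) (nat_lit 3) (nat_lit 45) (nat_lit 102) r7_45 r4_102 (nat_lit 0) (nat_lit 0) (nat_lit 22760134) (nat_lit 0x200a33761a) (nat_lit 2160268632),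
  Rx.mk (nat_lit 231) (nat_lit 7) (nat_lit 4) (nat_lit 3) (nat_lit 5) (nat_lit 40) (nat_lit 100) r7_40 r4_100 (nat_lit 0) (nat_lit 16582013) (nat_lit 0) (nat_lit 0x2006588418) (nat_lit 2158209761),
  Rx.mk (nat_lit 251) (nat_lit 3) (nat_lit 7) (nat_lit 3) (nat_lit 7) (nat_lit 46) (nat_lit 103) r7_46 r4_103 (nat_lit 0) (nat_lit 0) (nat_lit 0) (nat_lit 0x2000efab8c) (nat_lit 2147483648),
  Rx.mk (nat_lit 255) (nat_lit 7) (nat_lit 7) (nat_lit 3) (nat_lit 7) (nat_lit 47) (nat_lit 101) r7_47 r4_101 (nat_lit 0) (nat_lit 0) (nat_lit 0) (nat_lit 0x2000efab8c) (nat_lit 2147483648),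
  Rx.mk (nat_lit 484) (nat_lit 4) (nat_lit 4) (nat_lit 7) (nat_lit 4) (nat_lit 39) (nat_lit 98) r7_39 r4_98 (nat_lit 201188894) (nat_lit 691210) (nat_lit 0) (nat_lit 0x17267e5d7a) (nat_lit 4817627602),
  Rx.mk (nat_lit 487) (nat_lit 7) (nat_lit 4) (nat_lit 7) (nat_lit 5) (nat_lit 41) (nat_lit 99) r7_41 r4_99 (nat_lit 0) (nat_lit 6737782) (nat_lit 0) (nat_lit 0x1bc92629aa) (nat_lit 3329967480),
  Rx.mk (nat_lit 500) (nat_lit 4) (nat_lit 6) (nat_lit 7) (nat_lit 6) (nat_lit 42) (nat_lit 104) r7_42 r4_104 (nat_lit 848345181) (nat_lit 0) (nat_lit 0) (nat_lit 0x204a309cac) (nat_lit 2917572829),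
  Rx.mk (nat_lit 502) (nat_lit 6) (nat_lit 6) (nat_lit 7) (nat_lit 7) (nat_lit 43) (nat_lit 106) r7_43 r4_106 (nat_lit 0) (nat_lit 0) (nat_lit 0) (nat_lit 0x2000efab8c) (nat_lit 2147483648),
  Rx.mk (nat_lit 503) (nat_lit 7) (nat_lit 6) (nat_lit 7) (nat_lit 7) (nat_lit 44) (nat_lit 105) r7_44 r4_105 (nat_lit 0) (nat_lit 0) (nat_lit 0) (nat_lit 0x2054448262) (nat_lit 2058563498)]
noncomputable def e25_10 : List Rx := [
  Rx.mk (nat_lit 39) (nat_lit 7) (nat_lit 4) (nat_lit 0) (nat_lit 1) (nat_lit 78) (nat_lit 195) r7_78 r6_195 (nat_lit 0) (nat_lit 186689) (nat_lit 158384) (nat_lit 0x1bd07ae5e2) (nat_lit 3315217271),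
  Rx.mk (nat_lit 47) (nat_lit 7) (nat_lit 5) (nat_lit 0) (nat_lit 3) (nat_lit 81) (nat_lit 198) r7_81 r6_198 (nat_lit 0) (nat_lit 0) (nat_lit 15522547) (nat_lit 0x2006c8f40a) (nat_lit 2156644545),
  Rx.mk (nat_lit 59) (nat_lit 3) (nat_lit 7) (nat_lit 0) (nat_lit 3) (nat_lit 84) (nat_lit 193) r7_84 r6_193 (nat_lit 0) (nat_lit 0) (nat_lit 5682584) (nat_lit 0x1f0dcec532) (nat_lit 2417486782),
  Rx.mk (nat_lit 63) (nat_lit 7) (nat_lit 7) (nat_lit 0) (nat_lit 3) (nat_lit 86) (nat_lit 201) r7_86 r6_201 (nat_lit 0) (nat_lit 0) (nat_lit 26573864) (nat_lit 0x1b9621606a) (nat_lit 3405484862),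
  Rx.mk (nat_lit 103) (nat_lit 7) (nat_lit 4) (nat_lit 1) (nat_lit 5) (nat_lit 79) (nat_lit 196) r7_79 r6_196 (nat_lit 0) (nat_lit 15143189) (nat_lit 0) (nat_lit 0x200b9196ae) (nat_lit 2151113287),
  Rx.mk (nat_lit 111) (nat_lit 7) (nat_lit 5) (nat_lit 1) (nat_lit 7) (nat_lit 82) (nat_lit 199) r7_82 r6_199 (nat_lit 0) (nat_lit 0) (nat_lit 0) (nat_lit 0x20a6955a5a) (nat_lit 1971127798),
  Rx.mk (nat_lit 123) (nat_lit 3) (nat_lit 7) (nat_lit 1) (nat_lit 7) (nat_lit 85) (nat_lit 194) r7_85 r6_194 (nat_lit 0) (nat_lit 0) (nat_lit 0) (nat_lit 0x201de5d374) (nat_lit 2116448448),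
  Rx.mk (nat_lit 127) (nat_lit 7) (nat_lit 7) (nat_lit 1) (nat_lit 7) (nat_lit 87) (nat_lit 202) r7_87 r6_202 (nat_lit 0) (nat_lit 0) (nat_lit 0) (nat_lit 0x2000efab8c) (nat_lit 2147483648),
  Rx.mk (nat_lit 231) (nat_lit 7) (nat_lit 4) (nat_lit 3) (nat_lit 5) (nat_lit 80) (nat_lit 197) r7_80 r6_197 (nat_lit 0) (nat_lit 9039903) (nat_lit 0) (nat_lit 0x1f0c3c340c) (nat_lit 2422599751),
  Rx.mk (nat_lit 239) (nat_lit 7) (nat_lit 5) (nat_lit 3) (nat_lit 7) (nat_lit 83) (nat_lit 200) r7_83 r6_200 (nat_lit 0) (nat_lit 0) (nat_lit 0) (nat_lit 0x20390aaab2) (nat_lit 2087565198)]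
noncomputable def e25_11 : List Rx := [
  Rx.mk (nat_lit 59) (nat_lit 3) (nat_lit 7) (nat_lit 0) (nat_lit 3) (nat_lit 49) (nat_lit 105) r7_49 r5_105 (nat_lit 0) (nat_lit 0) (nat_lit 12895790) (nat_lit 0x1ffc629ad4) (nat_lit 2165259738),
  Rx.mk (nat_lit 63) (nat_lit 7) (nat_lit 7) (nat_lit 0) (nat_lit 3) (nat_lit 50) (nat_lit 103) r7_50 r5_103 (nat_lit 0) (nat_lit 0) (nat_lit 7226244) (nat_lit 0x1961d3d3da) (nat_lit 4000821942),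
  Rx.mk (nat_lit 231) (nat_lit 7) (nat_lit 4) (nat_lit 3) (nat_lit 5) (nat_lit 48) (nat_lit 102) r7_48 r5_102 (nat_lit 0) (nat_lit 10192449) (nat_lit 0) (nat_lit 0x2021fb9b7e) (nat_lit 2122233647),
  Rx.mk (nat_lit 255) (nat_lit 7) (nat_lit 7) (nat_lit 3) (nat_lit 7) (nat_lit 51) (nat_lit 104) r7_51 r5_104 (nat_lit 0) (nat_lit 0) (nat_lit 0) (nat_lit 0x1f93e68524) (nat_lit 2265825448)]
noncomputable def e25_12 : List Rx := [
  Rx.mk (nat_lit 100) (nat_lit 4) (nat_lit 4) (nat_lit 1) (nat_lit 4) (nat_lit 217) (nat_lit 250) r7_217 r0_250 (nat_lit 25106789) (nat_lit 114738951) (nat_lit 0) (nat_lit 0x198796769a) (nat_lit 4092190738),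
  Rx.mk (nat_lit 101) (nat_lit 5) (nat_lit 4) (nat_lit 1) (nat_lit 5) (nat_lit 218) (nat_lit 251) r7_218 r0_251 (nat_lit 0) (nat_lit 36924422) (nat_lit 0) (nat_lit 0x1e44557ca0) (nat_lit 2668277270),
  Rx.mk (nat_lit 108) (nat_lit 4) (nat_lit 5) (nat_lit 1) (nat_lit 6) (nat_lit 219) (nat_lit 252) r7_219 r0_252 (nat_lit 22821440) (nat_lit 0) (nat_lit 0) (nat_lit 0x1b76f69c00) (nat_lit 3435676488),
  Rx.mk (nat_lit 109) (nat_lit 5) (nat_lit 5) (nat_lit 1) (nat_lit 7) (nat_lit 220) (nat_lit 253) r7_220 r0_253 (nat_lit 0) (nat_lit 0) (nat_lit 0) (nat_lit 0x1fdc2e0604) (nat_lit 2187177448)]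
noncomputable def e25_13 : List Rx := [
  Rx.mk (nat_lit 100) (nat_lit 4) (nat_lit 4) (nat_lit 1) (nat_lit 4) (nat_lit 229) (nat_lit 229) r7_229 r7_229 (nat_lit 8401195) (nat_lit 8401195) (nat_lit 0) (nat_lit 0x190ad77d3e) (nat_lit 4105114188),
  Rx.mk (nat_lit 101) (nat_lit 5) (nat_lit 4) (nat_lit 1) (nat_lit 5) (nat_lit 231) (nat_lit 234) r7_231 r7_234 (nat_lit 0) (nat_lit 8849300) (nat_lit 0) (nat_lit 0x1ef929dad6) (nat_lit 2443145598),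
  Rx.mk (nat_lit 108) (nat_lit 4) (nat_lit 5) (nat_lit 1) (nat_lit 6) (nat_lit 234) (nat_lit 231) r7_234 r7_231 (nat_lit 8849300) (nat_lit 0) (nat_lit 0) (nat_lit 0x1ef929dad6) (nat_lit 2443145598),
  Rx.mk (nat_lit 109) (nat_lit 5) (nat_lit 5) (nat_lit 1) (nat_lit 7) (nat_lit 236) (nat_lit 236) r7_236 r7_236 (nat_lit 0) (nat_lit 0) (nat_lit 0) (nat_lit 0x2000ba4fd2) (nat_lit 2147684198),
  Rx.mk (nat_lit 356) (nat_lit 4) (nat_lit 4) (nat_lit 5) (nat_lit 4) (nat_lit 230) (nat_lit 230) r7_230 r7_230 (nat_lit 6981812) (nat_lit 6981812) (nat_lit 0) (nat_lit 0x17dd520bbe) (nat_lit 4430838622),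
  Rx.mk (nat_lit 357) (nat_lit 5) (nat_lit 4) (nat_lit 5) (nat_lit 5) (nat_lit 232) (nat_lit 235) r7_232 r7_235 (nat_lit 0) (nat_lit 12671990) (nat_lit 0) (nat_lit 0x1a8eea14a0) (nat_lit 3678299338),
  Rx.mk (nat_lit 359) (nat_lit 7) (nat_lit 4) (nat_lit 5) (nat_lit 5) (nat_lit 233) (nat_lit 239) r7_233 r7_239 (nat_lit 0) (nat_lit 117894459) (nat_lit 0) (nat_lit 0x1fa638f9b4) (nat_lit 2363788607),
  Rx.mk (nat_lit 364) (nat_lit 4) (nat_lit 5) (nat_lit 5) (nat_lit 6) (nat_lit 235) (nat_lit 232) r7_235 r7_232 (nat_lit 12671990) (nat_lit 0) (nat_lit 0) (nat_lit 0x1a8eea14a0) (nat_lit 3678299338),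
  Rx.mk (nat_lit 365) (nat_lit 5) (nat_lit 5) (nat_lit 5) (nat_lit 7) (nat_lit 237) (nat_lit 237) r7_237 r7_237 (nat_lit 0) (nat_lit 0) (nat_lit 0) (nat_lit 0x1eb69a1fa0) (nat_lit 2506857848),
  Rx.mk (nat_lit 367) (nat_lit 7) (nat_lit 5) (nat_lit 5) (nat_lit 7) (nat_lit 238) (nat_lit 240) r7_238 r7_240 (nat_lit 0) (nat_lit 0) (nat_lit 0) (nat_lit 0x2000efab8c) (nat_lit 2147483648),
  Rx.mk (nat_lit 372) (nat_lit 4) (nat_lit 6) (nat_lit 5) (nat_lit 6) (nat_lit 239) (nat_lit 233) r7_239 r7_233 (nat_lit 117894459) (nat_lit 0) (nat_lit 0) (nat_lit 0x1fa638f9b4) (nat_lit 2363788607),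
  Rx.mk (nat_lit 373) (nat_lit 5) (nat_lit 6) (nat_lit 5) (nat_lit 7) (nat_lit 240) (nat_lit 238) r7_240 r7_238 (nat_lit 0) (nat_lit 0) (nat_lit 0) (nat_lit 0x2000efab8c) (nat_lit 2147483648)]
noncomputable def e25_14 : List Rx := [
  Rx.mk (nat_lit 101) (nat_lit 5) (nat_lit 4) (nat_lit 1) (nat_lit 5) (nat_lit 221) (nat_lit 256) r7_221 r1_256 (nat_lit 0) (nat_lit 16795015) (nat_lit 0) (nat_lit 0x1abd690b42) (nat_lit 3631785813),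
  Rx.mk (nat_lit 109) (nat_lit 5) (nat_lit 5) (nat_lit 1) (nat_lit 7) (nat_lit 222) (nat_lit 257) r7_222 r1_257 (nat_lit 0) (nat_lit 0) (nat_lit 0) (nat_lit 0x1fae1bec86) (nat_lit 2237247798)]
noncomputable def e25_15 : List Rx := [
  Rx.mk (nat_lit 101) (nat_lit 5) (nat_lit 4) (nat_lit 1) (nat_lit 5) (nat_lit 241) (nat_lit 184) r7_241 r8_184 (nat_lit 0) (nat_lit 19673153) (nat_lit 0) (nat_lit 0x1f8bf49b1c) (nat_lit 2294173401),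
  Rx.mk (nat_lit 109) (nat_lit 5) (nat_lit 5) (nat_lit 1) (nat_lit 7) (nat_lit 243) (nat_lit 186) r7_243 r8_186 (nat_lit 0) (nat_lit 0) (nat_lit 0) (nat_lit 0x201b34a65a) (nat_lit 2119343898),
  Rx.mk (nat_lit 357) (nat_lit 5) (nat_lit 4) (nat_lit 5) (nat_lit 5) (nat_lit 242) (nat_lit 185) r7_242 r8_185 (nat_lit 0) (nat_lit 42780042) (nat_lit 0) (nat_lit 0x1e3e97900a) (nat_lit 2680398140),
  Rx.mk (nat_lit 365) (nat_lit 5) (nat_lit 5) (nat_lit 5) (nat_lit 7) (nat_lit 244) (nat_lit 187) r7_244 r8_187 (nat_lit 0) (nat_lit 0) (nat_lit 0) (nat_lit 0x2000efab8c) (nat_lit 2147483648),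
  Rx.mk (nat_lit 373) (nat_lit 5) (nat_lit 6) (nat_lit 5) (nat_lit 7) (nat_lit 245) (nat_lit 188) r7_245 r8_188 (nat_lit 0) (nat_lit 0) (nat_lit 0) (nat_lit 0x2000efab8c) (nat_lit 2147483648)]
noncomputable def e25_16 : List Rx := [
  Rx.mk (nat_lit 356) (nat_lit 4) (nat_lit 4) (nat_lit 5) (nat_lit 4) (nat_lit 246) (nat_lit 248) r7_246 r8_248 (nat_lit 25017464) (nat_lit 32339147) (nat_lit 0) (nat_lit 0x17b72f48de) (nat_lit 4515822409),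
  Rx.mk (nat_lit 357) (nat_lit 5) (nat_lit 4) (nat_lit 5) (nat_lit 5) (nat_lit 247) (nat_lit 249) r7_247 r8_249 (nat_lit 0) (nat_lit 43498676) (nat_lit 0) (nat_lit 0x1e36edb668) (nat_lit 2689461224),
  Rx.mk (nat_lit 359) (nat_lit 7) (nat_lit 4) (nat_lit 5) (nat_lit 5) (nat_lit 248) (nat_lit 250) r7_248 r8_250 (nat_lit 0) (nat_lit 39267561) (nat_lit 0) (nat_lit 0x2000efab8c) (nat_lit 2186751209),
  Rx.mk (nat_lit 364) (nat_lit 4) (nat_lit 5) (nat_lit 5) (nat_lit 6) (nat_lit 249) (nat_lit 251) r7_249 r8_251 (nat_lit 42592381) (nat_lit 0) (nat_lit 0) (nat_lit 0x1ea87817d8) (nat_lit 2564854829),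
  Rx.mk (nat_lit 365) (nat_lit 5) (nat_lit 5) (nat_lit 5) (nat_lit 7) (nat_lit 250) (nat_lit 252) r7_250 r8_252 (nat_lit 0) (nat_lit 0) (nat_lit 0) (nat_lit 0x1ff740ac9e) (nat_lit 2157915398),
  Rx.mk (nat_lit 367) (nat_lit 7) (nat_lit 5) (nat_lit 5) (nat_lit 7) (nat_lit 251) (nat_lit 253) r7_251 r8_253 (nat_lit 0) (nat_lit 0) (nat_lit 0) (nat_lit 0x2000efab8c) (nat_lit 2147483648),
  Rx.mk (nat_lit 372) (nat_lit 4) (nat_lit 6) (nat_lit 5) (nat_lit 6) (nat_lit 252) (nat_lit 254) r7_252 r8_254 (nat_lit 50597122) (nat_lit 0) (nat_lit 0) (nat_lit 0x1f9b7c9094) (nat_lit 2308173370),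
  Rx.mk (nat_lit 373) (nat_lit 5) (nat_lit 6) (nat_lit 5) (nat_lit 7) (nat_lit 253) (nat_lit 255) r7_253 r8_255 (nat_lit 0) (nat_lit 0) (nat_lit 0) (nat_lit 0x2000efab8c) (nat_lit 2147483648),
  Rx.mk (nat_lit 374) (nat_lit 6) (nat_lit 6) (nat_lit 5) (nat_lit 7) (nat_lit 254) (nat_lit 256) r7_254 r8_256 (nat_lit 0) (nat_lit 0) (nat_lit 0) (nat_lit 0x2000efab8c) (nat_lit 2147483648)]
noncomputable def e25_17 : List Rx := [
  Rx.mk (nat_lit 292) (nat_lit 4) (nat_lit 4) (nat_lit 4) (nat_lit 0) (nat_lit 204) (nat_lit 170) r7_204 r9_170 (nat_lit 24129304) (nat_lit 16606453) (nat_lit 14375128) (nat_lit 0xeb9d8c0fa) (nat_lit 7020682383),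
  Rx.mk (nat_lit 295) (nat_lit 7) (nat_lit 4) (nat_lit 4) (nat_lit 1) (nat_lit 207) (nat_lit 176) r7_207 r9_176 (nat_lit 0) (nat_lit 296668871) (nat_lit 48335039) (nat_lit 0x1ca4fd61f0) (nat_lit 3428841158),
  Rx.mk (nat_lit 308) (nat_lit 4) (nat_lit 6) (nat_lit 4) (nat_lit 2) (nat_lit 210) (nat_lit 172) r7_210 r9_172 (nat_lit 42344646) (nat_lit 0) (nat_lit 39267561) (nat_lit 0x1810200be0) (nat_lit 4443199055),
  Rx.mk (nat_lit 310) (nat_lit 6) (nat_lit 6) (nat_lit 4) (nat_lit 3) (nat_lit 213) (nat_lit 180) r7_213 r9_180 (nat_lit 0) (nat_lit 0) (nat_lit 39267561) (nat_lit 0x1fed50c282) (nat_lit 2207915259),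
  Rx.mk (nat_lit 356) (nat_lit 4) (nat_lit 4) (nat_lit 5) (nat_lit 4) (nat_lit 205) (nat_lit 171) r7_205 r9_171 (nat_lit 49544812) (nat_lit 78494873) (nat_lit 0) (nat_lit 0x17814085da) (nat_lit 4645265483),
  Rx.mk (nat_lit 357) (nat_lit 5) (nat_lit 4) (nat_lit 5) (nat_lit 5) (nat_lit 206) (nat_lit 174) r7_206 r9_174 (nat_lit 0) (nat_lit 65702946) (nat_lit 0) (nat_lit 0x1fd81b21dc) (nat_lit 2257341794),
  Rx.mk (nat_lit 359) (nat_lit 7) (nat_lit 4) (nat_lit 5) (nat_lit 5) (nat_lit 208) (nat_lit 177) r7_208 r9_177 (nat_lit 0) (nat_lit 39267561) (nat_lit 0) (nat_lit 0x2000efab8c) (nat_lit 2186751209),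
  Rx.mk (nat_lit 372) (nat_lit 4) (nat_lit 6) (nat_lit 5) (nat_lit 6) (nat_lit 211) (nat_lit 173) r7_211 r9_173 (nat_lit 44440179) (nat_lit 0) (nat_lit 0) (nat_lit 0x1fafda1dea) (nat_lit 2279853077),
  Rx.mk (nat_lit 373) (nat_lit 5) (nat_lit 6) (nat_lit 5) (nat_lit 7) (nat_lit 212) (nat_lit 175) r7_212 r9_175 (nat_lit 0) (nat_lit 0) (nat_lit 0) (nat_lit 0x2000efab8c) (nat_lit 2147483648),
  Rx.mk (nat_lit 374) (nat_lit 6) (nat_lit 6) (nat_lit 5) (nat_lit 7) (nat_lit 214) (nat_lit 181) r7_214 r9_181 (nat_lit 0) (nat_lit 0) (nat_lit 0) (nat_lit 0x2000efab8c) (nat_lit 2147483648),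
  Rx.mk (nat_lit 438) (nat_lit 6) (nat_lit 6) (nat_lit 6) (nat_lit 7) (nat_lit 215) (nat_lit 182) r7_215 r9_182 (nat_lit 0) (nat_lit 0) (nat_lit 0) (nat_lit 0x2000efab8c) (nat_lit 2147483648),
  Rx.mk (nat_lit 487) (nat_lit 7) (nat_lit 4) (nat_lit 7) (nat_lit 5) (nat_lit 209) (nat_lit 178) r7_209 r9_178 (nat_lit 0) (nat_lit 88391096) (nat_lit 0) (nat_lit 0x1fdfc2721e) (nat_lit 2271724494),
  Rx.mk (nat_lit 511) (nat_lit 7) (nat_lit 7) (nat_lit 7) (nat_lit 7) (nat_lit 216) (nat_lit 179) r7_216 r9_179 (nat_lit 0) (nat_lit 0) (nat_lit 0) (nat_lit 0x2000efab8c) (nat_lit 2147483648)]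
noncomputable def e25_18 : List Rx := [
  Rx.mk (nat_lit 100) (nat_lit 4) (nat_lit 4) (nat_lit 1) (nat_lit 4) (nat_lit 223) (nat_lit 265) r7_223 r4_265 (nat_lit 62737068) (nat_lit 34044114) (nat_lit 0) (nat_lit 0x1cc30aedd4) (nat_lit 3147862730),
  Rx.mk (nat_lit 101) (nat_lit 5) (nat_lit 4) (nat_lit 1) (nat_lit 5) (nat_lit 224) (nat_lit 266) r7_224 r4_266 (nat_lit 0) (nat_lit 39267561) (nat_lit 0) (nat_lit 0x2000efab8c) (nat_lit 2186751209),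
  Rx.mk (nat_lit 103) (nat_lit 7) (nat_lit 4) (nat_lit 1) (nat_lit 5) (nat_lit 225) (nat_lit 267) r7_225 r4_267 (nat_lit 0) (nat_lit 26162412) (nat_lit 0) (nat_lit 0x2009bf166c) (nat_lit 2164172060),
  Rx.mk (nat_lit 108) (nat_lit 4) (nat_lit 5) (nat_lit 1) (nat_lit 6) (nat_lit 226) (nat_lit 268) r7_226 r4_268 (nat_lit 35717356) (nat_lit 0) (nat_lit 0) (nat_lit 0x1ff8a3b8e2) (nat_lit 2192124454),
  Rx.mk (nat_lit 109) (nat_lit 5) (nat_lit 5) (nat_lit 1) (nat_lit 7) (nat_lit 227) (nat_lit 269) r7_227 r4_269 (nat_lit 0) (nat_lit 0) (nat_lit 0) (nat_lit 0x2000efab8c) (nat_lit 2147483648),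
  Rx.mk (nat_lit 111) (nat_lit 7) (nat_lit 5) (nat_lit 1) (nat_lit 7) (nat_lit 228) (nat_lit 270) r7_228 r4_270 (nat_lit 0) (nat_lit 0) (nat_lit 0) (nat_lit 0x2000efab8c) (nat_lit 2147483648)]
noncomputable def e25_19 : List Rx := [
  Rx.mk (nat_lit 100) (nat_lit 4) (nat_lit 4) (nat_lit 1) (nat_lit 4) (nat_lit 255) (nat_lit 183) r7_255 r10_183 (nat_lit 4952524) (nat_lit 12079934) (nat_lit 0) (nat_lit 0x1c6682ce4c) (nat_lit 3168808706),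
  Rx.mk (nat_lit 101) (nat_lit 5) (nat_lit 4) (nat_lit 1) (nat_lit 5) (nat_lit 256) (nat_lit 185) r7_256 r10_185 (nat_lit 0) (nat_lit 13707378) (nat_lit 0) (nat_lit 0x200280ed94) (nat_lit 2159443526),
  Rx.mk (nat_lit 103) (nat_lit 7) (nat_lit 4) (nat_lit 1) (nat_lit 5) (nat_lit 257) (nat_lit 187) r7_257 r10_187 (nat_lit 0) (nat_lit 30193305) (nat_lit 0) (nat_lit 0x1ff5267ed4) (nat_lit 2190327253),
  Rx.mk (nat_lit 108) (nat_lit 4) (nat_lit 5) (nat_lit 1) (nat_lit 6) (nat_lit 259) (nat_lit 184) r7_259 r10_184 (nat_lit 13452800) (nat_lit 0) (nat_lit 0) (nat_lit 0x1f8278d88c) (nat_lit 2298221048),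
  Rx.mk (nat_lit 109) (nat_lit 5) (nat_lit 5) (nat_lit 1) (nat_lit 7) (nat_lit 260) (nat_lit 186) r7_260 r10_186 (nat_lit 0) (nat_lit 0) (nat_lit 0) (nat_lit 0x201a60a472) (nat_lit 2120226698),
  Rx.mk (nat_lit 111) (nat_lit 7) (nat_lit 5) (nat_lit 1) (nat_lit 7) (nat_lit 261) (nat_lit 189) r7_261 r10_189 (nat_lit 0) (nat_lit 0) (nat_lit 0) (nat_lit 0x201a60a472) (nat_lit 2120226698),
  Rx.mk (nat_lit 359) (nat_lit 7) (nat_lit 4) (nat_lit 5) (nat_lit 5) (nat_lit 258) (nat_lit 188) r7_258 r10_188 (nat_lit 0) (nat_lit 53854856) (nat_lit 0) (nat_lit 0x1ff6037a00) (nat_lit 2213104004),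
  Rx.mk (nat_lit 367) (nat_lit 7) (nat_lit 5) (nat_lit 5) (nat_lit 7) (nat_lit 262) (nat_lit 190) r7_262 r10_190 (nat_lit 0) (nat_lit 0) (nat_lit 0) (nat_lit 0x2000efab8c) (nat_lit 2147483648)]
noncomputable def e25_20 : List Rx := [
  Rx.mk (nat_lit 100) (nat_lit 4) (nat_lit 4) (nat_lit 1) (nat_lit 4) (nat_lit 263) (nat_lit 212) r7_263 r11_212 (nat_lit 452164224) (nat_lit 49199921) (nat_lit 0) (nat_lit 0x1de67e208c) (nat_lit 3234966993),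
  Rx.mk (nat_lit 101) (nat_lit 5) (nat_lit 4) (nat_lit 1) (nat_lit 5) (nat_lit 264) (nat_lit 214) r7_264 r11_214 (nat_lit 0) (nat_lit 39267561) (nat_lit 0) (nat_lit 0x2000efab8c) (nat_lit 2186751209),
  Rx.mk (nat_lit 103) (nat_lit 7) (nat_lit 4) (nat_lit 1) (nat_lit 5) (nat_lit 265) (nat_lit 216) r7_265 r11_216 (nat_lit 0) (nat_lit 30096094) (nat_lit 0) (nat_lit 0x200b64c638) (nat_lit 2166350942),
  Rx.mk (nat_lit 108) (nat_lit 4) (nat_lit 5) (nat_lit 1) (nat_lit 6) (nat_lit 266) (nat_lit 213) r7_266 r11_213 (nat_lit 39267561) (nat_lit 0) (nat_lit 0) (nat_lit 0x2000efab8c) (nat_lit 2186751209),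
  Rx.mk (nat_lit 109) (nat_lit 5) (nat_lit 5) (nat_lit 1) (nat_lit 7) (nat_lit 267) (nat_lit 215) r7_267 r11_215 (nat_lit 0) (nat_lit 0) (nat_lit 0) (nat_lit 0x2000efab8c) (nat_lit 2147483648),
  Rx.mk (nat_lit 111) (nat_lit 7) (nat_lit 5) (nat_lit 1) (nat_lit 7) (nat_lit 268) (nat_lit 217) r7_268 r11_217 (nat_lit 0) (nat_lit 0) (nat_lit 0) (nat_lit 0x2000efab8c) (nat_lit 2147483648),
  Rx.mk (nat_lit 127) (nat_lit 7) (nat_lit 7) (nat_lit 1) (nat_lit 7) (nat_lit 269) (nat_lit 218) r7_269 r11_218 (nat_lit 0) (nat_lit 0) (nat_lit 0) (nat_lit 0x2000efab8c) (nat_lit 2147483648)]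
noncomputable def e25_21 : List Rx := [
  Rx.mk (nat_lit 292) (nat_lit 4) (nat_lit 4) (nat_lit 4) (nat_lit 0) (nat_lit 161) (nat_lit 68) r7_161 r9_68 (nat_lit 275129198) (nat_lit 5556724) (nat_lit 6681309) (nat_lit 0xe8573c850) (nat_lit 7309970679),
  Rx.mk (nat_lit 295) (nat_lit 7) (nat_lit 4) (nat_lit 4) (nat_lit 1) (nat_lit 163) (nat_lit 70) r7_163 r9_70 (nat_lit 0) (nat_lit 377506769) (nat_lit 36004825) (nat_lit 0x1c452b0bce) (nat_lit 3601731492),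
  Rx.mk (nat_lit 308) (nat_lit 4) (nat_lit 6) (nat_lit 4) (nat_lit 2) (nat_lit 166) (nat_lit 74) r7_166 r9_74 (nat_lit 101420410) (nat_lit 0) (nat_lit 39267561) (nat_lit 0x185c9f17e0) (nat_lit 4418933119),
  Rx.mk (nat_lit 310) (nat_lit 6) (nat_lit 6) (nat_lit 4) (nat_lit 3) (nat_lit 168) (nat_lit 79) r7_168 r9_79 (nat_lit 0) (nat_lit 0) (nat_lit 45350950) (nat_lit 0x1e7a71e436) (nat_lit 2617750648),
  Rx.mk (nat_lit 311) (nat_lit 7) (nat_lit 6) (nat_lit 4) (nat_lit 3) (nat_lit 171) (nat_lit 76) r7_171 r9_76 (nat_lit 0) (nat_lit 0) (nat_lit 39267561) (nat_lit 0x2000efab8c) (nat_lit 2186751209),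
  Rx.mk (nat_lit 356) (nat_lit 4) (nat_lit 4) (nat_lit 5) (nat_lit 4) (nat_lit 162) (nat_lit 69) r7_162 r9_69 (nat_lit 70721727) (nat_lit 42058187) (nat_lit 0) (nat_lit 0x1756adffd2) (nat_lit 4676382812),
  Rx.mk (nat_lit 359) (nat_lit 7) (nat_lit 4) (nat_lit 5) (nat_lit 5) (nat_lit 164) (nat_lit 71) r7_164 r9_71 (nat_lit 0) (nat_lit 39267561) (nat_lit 0) (nat_lit 0x2000efab8c) (nat_lit 2186751209),
  Rx.mk (nat_lit 372) (nat_lit 4) (nat_lit 6) (nat_lit 5) (nat_lit 6) (nat_lit 167) (nat_lit 75) r7_167 r9_75 (nat_lit 102732549) (nat_lit 0) (nat_lit 0) (nat_lit 0x1f66fce602) (nat_lit 2417471747),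
  Rx.mk (nat_lit 374) (nat_lit 6) (nat_lit 6) (nat_lit 5) (nat_lit 7) (nat_lit 169) (nat_lit 80) r7_169 r9_80 (nat_lit 0) (nat_lit 0) (nat_lit 0) (nat_lit 0x2000efab8c) (nat_lit 2147483648),
  Rx.mk (nat_lit 375) (nat_lit 7) (nat_lit 6) (nat_lit 5) (nat_lit 7) (nat_lit 172) (nat_lit 77) r7_172 r9_77 (nat_lit 0) (nat_lit 0) (nat_lit 0) (nat_lit 0x2000efab8c) (nat_lit 2147483648),
  Rx.mk (nat_lit 406) (nat_lit 6) (nat_lit 2) (nat_lit 6) (nat_lit 7) (nat_lit 160) (nat_lit 82) r7_160 r9_82 (nat_lit 0) (nat_lit 0) (nat_lit 0) (nat_lit 0x2000efab8c) (nat_lit 2147483648),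
  Rx.mk (nat_lit 438) (nat_lit 6) (nat_lit 6) (nat_lit 6) (nat_lit 7) (nat_lit 170) (nat_lit 81) r7_170 r9_81 (nat_lit 0) (nat_lit 0) (nat_lit 0) (nat_lit 0x2000efab8c) (nat_lit 2147483648),
  Rx.mk (nat_lit 487) (nat_lit 7) (nat_lit 4) (nat_lit 7) (nat_lit 5) (nat_lit 165) (nat_lit 72) r7_165 r9_72 (nat_lit 0) (nat_lit 87660547) (nat_lit 0) (nat_lit 0x1fe8d07f54) (nat_lit 2261177395),
  Rx.mk (nat_lit 503) (nat_lit 7) (nat_lit 6) (nat_lit 7) (nat_lit 7) (nat_lit 173) (nat_lit 78) r7_173 r9_78 (nat_lit 0) (nat_lit 0) (nat_lit 0) (nat_lit 0x2000efab8c) (nat_lit 2147483648),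
  Rx.mk (nat_lit 511) (nat_lit 7) (nat_lit 7) (nat_lit 7) (nat_lit 7) (nat_lit 174) (nat_lit 73) r7_174 r9_73 (nat_lit 0) (nat_lit 0) (nat_lit 0) (nat_lit 0x2000efab8c) (nat_lit 2147483648)]
noncomputable def e25_22 : List Rx := [
  Rx.mk (nat_lit 24) (nat_lit 0) (nat_lit 3) (nat_lit 0) (nat_lit 2) (nat_lit 96) (nat_lit 100) r7_96 r0_100 (nat_lit 203862769) (nat_lit 0) (nat_lit 5017793) (nat_lit 0x184e7076c8) (nat_lit 4502484910),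
  Rx.mk (nat_lit 27) (nat_lit 3) (nat_lit 3) (nat_lit 0) (nat_lit 3) (nat_lit 99) (nat_lit 101) r7_99 r0_101 (nat_lit 0) (nat_lit 0) (nat_lit 12432931) (nat_lit 0x1b37024158) (nat_lit 3494942479),
  Rx.mk (nat_lit 128) (nat_lit 0) (nat_lit 0) (nat_lit 2) (nat_lit 4) (nat_lit 93) (nat_lit 105) r7_93 r0_105 (nat_lit 1681448) (nat_lit 118942) (nat_lit 0) (nat_lit 0x1a2c72ec48) (nat_lit 3774257838),
  Rx.mk (nat_lit 130) (nat_lit 2) (nat_lit 0) (nat_lit 2) (nat_lit 5) (nat_lit 94) (nat_lit 108) r7_94 r0_108 (nat_lit 0) (nat_lit 12433884) (nat_lit 0) (nat_lit 0x1d4834c50c) (nat_lit 2918441232),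
  Rx.mk (nat_lit 146) (nat_lit 2) (nat_lit 2) (nat_lit 2) (nat_lit 7) (nat_lit 95) (nat_lit 110) r7_95 r0_110 (nat_lit 0) (nat_lit 0) (nat_lit 0) (nat_lit 0x1fcde9e496) (nat_lit 2202710498),
  Rx.mk (nat_lit 152) (nat_lit 0) (nat_lit 3) (nat_lit 2) (nat_lit 6) (nat_lit 97) (nat_lit 106) r7_97 r0_106 (nat_lit 889720639) (nat_lit 0) (nat_lit 0) (nat_lit 0x201c8bd30c) (nat_lit 3007471987),
  Rx.mk (nat_lit 154) (nat_lit 2) (nat_lit 3) (nat_lit 2) (nat_lit 7) (nat_lit 98) (nat_lit 109) r7_98 r0_109 (nat_lit 0) (nat_lit 0) (nat_lit 0) (nat_lit 0x1fe1cf73ae) (nat_lit 2181107598),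
  Rx.mk (nat_lit 155) (nat_lit 3) (nat_lit 3) (nat_lit 2) (nat_lit 7) (nat_lit 100) (nat_lit 107) r7_100 r0_107 (nat_lit 0) (nat_lit 0) (nat_lit 0) (nat_lit 0x1fe69d992e) (nat_lit 2175885398),
  Rx.mk (nat_lit 219) (nat_lit 3) (nat_lit 3) (nat_lit 3) (nat_lit 7) (nat_lit 101) (nat_lit 102) r7_101 r0_102 (nat_lit 0) (nat_lit 0) (nat_lit 0) (nat_lit 0x1d505599a0) (nat_lit 2897180348),
  Rx.mk (nat_lit 251) (nat_lit 3) (nat_lit 7) (nat_lit 3) (nat_lit 7) (nat_lit 102) (nat_lit 103) r7_102 r0_103 (nat_lit 0) (nat_lit 0) (nat_lit 0) (nat_lit 0x1fd442bfde) (nat_lit 2195818098),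
  Rx.mk (nat_lit 255) (nat_lit 7) (nat_lit 7) (nat_lit 3) (nat_lit 7) (nat_lit 103) (nat_lit 104) r7_103 r0_104 (nat_lit 0) (nat_lit 0) (nat_lit 0) (nat_lit 0x1fd446eec4) (nat_lit 2195815148)]
noncomputable def e25_23 : List Rx := [
  Rx.mk (nat_lit 0) (nat_lit 0) (nat_lit 0) (nat_lit 0) (nat_lit 0) (nat_lit 126) (nat_lit 107) r7_126 r1_107 (nat_lit 17136391) (nat_lit 2016129) (nat_lit 3223515) (nat_lit 0x12cbaa1212) (nat_lit 5852792833),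
  Rx.mk (nat_lit 24) (nat_lit 0) (nat_lit 3) (nat_lit 0) (nat_lit 2) (nat_lit 130) (nat_lit 108) r7_130 r1_108 (nat_lit 1151235616) (nat_lit 0) (nat_lit 90318778) (nat_lit 0x1f034ce99a) (nat_lit 3664863692),
  Rx.mk (nat_lit 27) (nat_lit 3) (nat_lit 3) (nat_lit 0) (nat_lit 3) (nat_lit 133) (nat_lit 109) r7_133 r1_109 (nat_lit 0) (nat_lit 0) (nat_lit 69501590) (nat_lit 0x1f8ea8b802) (nat_lit 2341057088),
  Rx.mk (nat_lit 128) (nat_lit 0) (nat_lit 0) (nat_lit 2) (nat_lit 4) (nat_lit 127) (nat_lit 111) r7_127 r1_111 (nat_lit 713491) (nat_lit 446182) (nat_lit 0) (nat_lit 0x1bd12082f4) (nat_lit 3315418221),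
  Rx.mk (nat_lit 130) (nat_lit 2) (nat_lit 0) (nat_lit 2) (nat_lit 5) (nat_lit 128) (nat_lit 114) r7_128 r1_114 (nat_lit 0) (nat_lit 17677952) (nat_lit 0) (nat_lit 0x1e04661186) (nat_lit 2718662750),
  Rx.mk (nat_lit 146) (nat_lit 2) (nat_lit 2) (nat_lit 2) (nat_lit 7) (nat_lit 129) (nat_lit 116) r7_129 r1_116 (nat_lit 0) (nat_lit 0) (nat_lit 0) (nat_lit 0x2000efab8c) (nat_lit 2147483648),
  Rx.mk (nat_lit 152) (nat_lit 0) (nat_lit 3) (nat_lit 2) (nat_lit 6) (nat_lit 131) (nat_lit 112) r7_131 r1_112 (nat_lit 67165276) (nat_lit 0) (nat_lit 0) (nat_lit 0x2016b03798) (nat_lit 2191310324),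
  Rx.mk (nat_lit 154) (nat_lit 2) (nat_lit 3) (nat_lit 2) (nat_lit 7) (nat_lit 132) (nat_lit 115) r7_132 r1_115 (nat_lit 0) (nat_lit 0) (nat_lit 0) (nat_lit 0x2000efab8c) (nat_lit 2147483648),
  Rx.mk (nat_lit 155) (nat_lit 3) (nat_lit 3) (nat_lit 2) (nat_lit 7) (nat_lit 134) (nat_lit 113) r7_134 r1_113 (nat_lit 0) (nat_lit 0) (nat_lit 0) (nat_lit 0x201a8afc18) (nat_lit 2120043948),
  Rx.mk (nat_lit 219) (nat_lit 3) (nat_lit 3) (nat_lit 3) (nat_lit 7) (nat_lit 135) (nat_lit 110) r7_135 r1_110 (nat_lit 0) (nat_lit 0) (nat_lit 0) (nat_lit 0x2000efab8c) (nat_lit 2147483648)]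
noncomputable def e25_24 : List Rx := [
  Rx.mk (nat_lit 24) (nat_lit 0) (nat_lit 3) (nat_lit 0) (nat_lit 2) (nat_lit 175) (nat_lit 98) r7_175 r4_98 (nat_lit 201188894) (nat_lit 0) (nat_lit 691210) (nat_lit 0x17267e5d7a) (nat_lit 4817627602),
  Rx.mk (nat_lit 27) (nat_lit 3) (nat_lit 3) (nat_lit 0) (nat_lit 3) (nat_lit 178) (nat_lit 99) r7_178 r4_99 (nat_lit 0) (nat_lit 0) (nat_lit 6737782) (nat_lit 0x1bc92629aa) (nat_lit 3329967480),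
  Rx.mk (nat_lit 59) (nat_lit 3) (nat_lit 7) (nat_lit 0) (nat_lit 3) (nat_lit 181) (nat_lit 100) r7_181 r4_100 (nat_lit 0) (nat_lit 0) (nat_lit 16582013) (nat_lit 0x2006588418) (nat_lit 2158209761),
  Rx.mk (nat_lit 152) (nat_lit 0) (nat_lit 3) (nat_lit 2) (nat_lit 6) (nat_lit 176) (nat_lit 104) r7_176 r4_104 (nat_lit 848345181) (nat_lit 0) (nat_lit 0) (nat_lit 0x204a309cac) (nat_lit 2917572829),
  Rx.mk (nat_lit 154) (nat_lit 2) (nat_lit 3) (nat_lit 2) (nat_lit 7) (nat_lit 177) (nat_lit 106) r7_177 r4_106 (nat_lit 0) (nat_lit 0) (nat_lit 0) (nat_lit 0x2000efab8c) (nat_lit 2147483648),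
  Rx.mk (nat_lit 155) (nat_lit 3) (nat_lit 3) (nat_lit 2) (nat_lit 7) (nat_lit 179) (nat_lit 105) r7_179 r4_105 (nat_lit 0) (nat_lit 0) (nat_lit 0) (nat_lit 0x2054448262) (nat_lit 2058563498),
  Rx.mk (nat_lit 231) (nat_lit 7) (nat_lit 4) (nat_lit 3) (nat_lit 5) (nat_lit 180) (nat_lit 102) r7_180 r4_102 (nat_lit 0) (nat_lit 22760134) (nat_lit 0) (nat_lit 0x200a33761a) (nat_lit 2160268632),
  Rx.mk (nat_lit 251) (nat_lit 3) (nat_lit 7) (nat_lit 3) (nat_lit 7) (nat_lit 182) (nat_lit 101) r7_182 r4_101 (nat_lit 0) (nat_lit 0) (nat_lit 0) (nat_lit 0x2000efab8c) (nat_lit 2147483648),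
  Rx.mk (nat_lit 255) (nat_lit 7) (nat_lit 7) (nat_lit 3) (nat_lit 7) (nat_lit 183) (nat_lit 103) r7_183 r4_103 (nat_lit 0) (nat_lit 0) (nat_lit 0) (nat_lit 0x2000efab8c) (nat_lit 2147483648)]
noncomputable def e25_25 : List Rx := [
  Rx.mk (nat_lit 24) (nat_lit 0) (nat_lit 3) (nat_lit 0) (nat_lit 2) (nat_lit 109) (nat_lit 117) r7_109 r7_117 (nat_lit 4653) (nat_lit 0) (nat_lit 2656) (nat_lit 0x1828f8a23a) (nat_lit 4334008607),
  Rx.mk (nat_lit 27) (nat_lit 3) (nat_lit 3) (nat_lit 0) (nat_lit 3) (nat_lit 112) (nat_lit 119) r7_112 r7_119 (nat_lit 0) (nat_lit 0) (nat_lit 66826) (nat_lit 0x1a49b61fd2) (nat_lit 3740640124),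
  Rx.mk (nat_lit 128) (nat_lit 0) (nat_lit 0) (nat_lit 2) (nat_lit 4) (nat_lit 104) (nat_lit 115) r7_104 r7_115 (nat_lit 4653) (nat_lit 2656) (nat_lit 0) (nat_lit 0x1828f8a23a) (nat_lit 4334008607),
  Rx.mk (nat_lit 130) (nat_lit 2) (nat_lit 0) (nat_lit 2) (nat_lit 5) (nat_lit 105) (nat_lit 116) r7_105 r7_116 (nat_lit 0) (nat_lit 66826) (nat_lit 0) (nat_lit 0x1a49b61fd2) (nat_lit 3740640124),
  Rx.mk (nat_lit 146) (nat_lit 2) (nat_lit 2) (nat_lit 2) (nat_lit 7) (nat_lit 106) (nat_lit 125) r7_106 r7_125 (nat_lit 0) (nat_lit 0) (nat_lit 0) (nat_lit 0x182b42b13e) (nat_lit 4332010098),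
  Rx.mk (nat_lit 152) (nat_lit 0) (nat_lit 3) (nat_lit 2) (nat_lit 6) (nat_lit 110) (nat_lit 118) r7_110 r7_118 (nat_lit 4760204) (nat_lit 0) (nat_lit 0) (nat_lit 0x1d114ca88e) (nat_lit 2970441002),
  Rx.mk (nat_lit 154) (nat_lit 2) (nat_lit 3) (nat_lit 2) (nat_lit 7) (nat_lit 111) (nat_lit 122) r7_111 r7_122 (nat_lit 0) (nat_lit 0) (nat_lit 0) (nat_lit 0x1fec41ed94) (nat_lit 2169634548),
  Rx.mk (nat_lit 155) (nat_lit 3) (nat_lit 3) (nat_lit 2) (nat_lit 7) (nat_lit 113) (nat_lit 121) r7_113 r7_121 (nat_lit 0) (nat_lit 0) (nat_lit 0) (nat_lit 0x1fec41ed94) (nat_lit 2169634548),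
  Rx.mk (nat_lit 219) (nat_lit 3) (nat_lit 3) (nat_lit 3) (nat_lit 7) (nat_lit 114) (nat_lit 120) r7_114 r7_120 (nat_lit 0) (nat_lit 0) (nat_lit 0) (nat_lit 0x182b42b13e) (nat_lit 4332010098),
  Rx.mk (nat_lit 251) (nat_lit 3) (nat_lit 7) (nat_lit 3) (nat_lit 7) (nat_lit 123) (nat_lit 108) r7_123 r7_108 (nat_lit 0) (nat_lit 0) (nat_lit 0) (nat_lit 0x1a42d0ab24) (nat_lit 3748569048),
  Rx.mk (nat_lit 255) (nat_lit 7) (nat_lit 7) (nat_lit 3) (nat_lit 7) (nat_lit 124) (nat_lit 107) r7_124 r7_107 (nat_lit 0) (nat_lit 0) (nat_lit 0) (nat_lit 0x1a42d0ab24) (nat_lit 3748569048),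
  Rx.mk (nat_lit 308) (nat_lit 4) (nat_lit 6) (nat_lit 4) (nat_lit 2) (nat_lit 117) (nat_lit 109) r7_117 r7_109 (nat_lit 4653) (nat_lit 0) (nat_lit 2656) (nat_lit 0x1828f8a23a) (nat_lit 4334008607),
  Rx.mk (nat_lit 310) (nat_lit 6) (nat_lit 6) (nat_lit 4) (nat_lit 3) (nat_lit 119) (nat_lit 112) r7_119 r7_112 (nat_lit 0) (nat_lit 0) (nat_lit 66826) (nat_lit 0x1a49b61fd2) (nat_lit 3740640124),
  Rx.mk (nat_lit 402) (nat_lit 2) (nat_lit 2) (nat_lit 6) (nat_lit 7) (nat_lit 107) (nat_lit 124) r7_107 r7_124 (nat_lit 0) (nat_lit 0) (nat_lit 0) (nat_lit 0x1a42d0ab24) (nat_lit 3748569048),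
  Rx.mk (nat_lit 406) (nat_lit 6) (nat_lit 2) (nat_lit 6) (nat_lit 7) (nat_lit 108) (nat_lit 123) r7_108 r7_123 (nat_lit 0) (nat_lit 0) (nat_lit 0) (nat_lit 0x1a42d0ab24) (nat_lit 3748569048),
  Rx.mk (nat_lit 438) (nat_lit 6) (nat_lit 6) (nat_lit 6) (nat_lit 7) (nat_lit 120) (nat_lit 114) r7_120 r7_114 (nat_lit 0) (nat_lit 0) (nat_lit 0) (nat_lit 0x182b42b13e) (nat_lit 4332010098),
  Rx.mk (nat_lit 484) (nat_lit 4) (nat_lit 4) (nat_lit 7) (nat_lit 4) (nat_lit 115) (nat_lit 104) r7_115 r7_104 (nat_lit 4653) (nat_lit 2656) (nat_lit 0) (nat_lit 0x1828f8a23a) (nat_lit 4334008607),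
  Rx.mk (nat_lit 487) (nat_lit 7) (nat_lit 4) (nat_lit 7) (nat_lit 5) (nat_lit 116) (nat_lit 105) r7_116 r7_105 (nat_lit 0) (nat_lit 66826) (nat_lit 0) (nat_lit 0x1a49b61fd2) (nat_lit 3740640124),
  Rx.mk (nat_lit 500) (nat_lit 4) (nat_lit 6) (nat_lit 7) (nat_lit 6) (nat_lit 118) (nat_lit 110) r7_118 r7_110 (nat_lit 4760204) (nat_lit 0) (nat_lit 0) (nat_lit 0x1d114ca88e) (nat_lit 2970441002),
  Rx.mk (nat_lit 502) (nat_lit 6) (nat_lit 6) (nat_lit 7) (nat_lit 7) (nat_lit 121) (nat_lit 113) r7_121 r7_113 (nat_lit 0) (nat_lit 0) (nat_lit 0) (nat_lit 0x1fec41ed94) (nat_lit 2169634548),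
  Rx.mk (nat_lit 503) (nat_lit 7) (nat_lit 6) (nat_lit 7) (nat_lit 7) (nat_lit 122) (nat_lit 111) r7_122 r7_111 (nat_lit 0) (nat_lit 0) (nat_lit 0) (nat_lit 0x1fec41ed94) (nat_lit 2169634548),
  Rx.mk (nat_lit 511) (nat_lit 7) (nat_lit 7) (nat_lit 7) (nat_lit 7) (nat_lit 125) (nat_lit 106) r7_125 r7_106 (nat_lit 0) (nat_lit 0) (nat_lit 0) (nat_lit 0x182b42b13e) (nat_lit 4332010098)]
noncomputable def e25_26 : List Rx := [
  Rx.mk (nat_lit 0) (nat_lit 0) (nat_lit 0) (nat_lit 0) (nat_lit 0) (nat_lit 136) (nat_lit 78) r7_136 r8_78 (nat_lit 72243851) (nat_lit 8054942) (nat_lit 10916527) (nat_lit 0xea29e495a) (nat_lit 7082065618),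
  Rx.mk (nat_lit 24) (nat_lit 0) (nat_lit 3) (nat_lit 0) (nat_lit 2) (nat_lit 142) (nat_lit 81) r7_142 r8_81 (nat_lit 38990238) (nat_lit 0) (nat_lit 78285234) (nat_lit 0x185c95d068) (nat_lit 4395485720),
  Rx.mk (nat_lit 27) (nat_lit 3) (nat_lit 3) (nat_lit 0) (nat_lit 3) (nat_lit 145) (nat_lit 83) r7_145 r8_83 (nat_lit 0) (nat_lit 0) (nat_lit 287004756) (nat_lit 0x1fb51a8c54) (nat_lit 2516688604),
  Rx.mk (nat_lit 128) (nat_lit 0) (nat_lit 0) (nat_lit 2) (nat_lit 4) (nat_lit 137) (nat_lit 79) r7_137 r8_79 (nat_lit 49808052) (nat_lit 13867952) (nat_lit 0) (nat_lit 0x183270804e) (nat_lit 4387837202),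
  Rx.mk (nat_lit 130) (nat_lit 2) (nat_lit 0) (nat_lit 2) (nat_lit 5) (nat_lit 138) (nat_lit 80) r7_138 r8_80 (nat_lit 0) (nat_lit 5067356) (nat_lit 0) (nat_lit 0x1efa567aa4) (nat_lit 2438071504),
  Rx.mk (nat_lit 146) (nat_lit 2) (nat_lit 2) (nat_lit 2) (nat_lit 7) (nat_lit 139) (nat_lit 89) r7_139 r8_89 (nat_lit 0) (nat_lit 0) (nat_lit 0) (nat_lit 0x2000efab8c) (nat_lit 2147483648),
  Rx.mk (nat_lit 152) (nat_lit 0) (nat_lit 3) (nat_lit 2) (nat_lit 6) (nat_lit 143) (nat_lit 82) r7_143 r8_82 (nat_lit 37466795) (nat_lit 0) (nat_lit 0) (nat_lit 0x1ffcf3f89e) (nat_lit 2189236093),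
  Rx.mk (nat_lit 154) (nat_lit 2) (nat_lit 3) (nat_lit 2) (nat_lit 7) (nat_lit 144) (nat_lit 86) r7_144 r8_86 (nat_lit 0) (nat_lit 0) (nat_lit 0) (nat_lit 0x20251583f6) (nat_lit 2108796398),
  Rx.mk (nat_lit 155) (nat_lit 3) (nat_lit 3) (nat_lit 2) (nat_lit 7) (nat_lit 146) (nat_lit 85) r7_146 r8_85 (nat_lit 0) (nat_lit 0) (nat_lit 0) (nat_lit 0x2000efab8c) (nat_lit 2147483648),
  Rx.mk (nat_lit 219) (nat_lit 3) (nat_lit 3) (nat_lit 3) (nat_lit 7) (nat_lit 147) (nat_lit 84) r7_147 r8_84 (nat_lit 0) (nat_lit 0) (nat_lit 0) (nat_lit 0x1fef6c33d0) (nat_lit 2166386048),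
  Rx.mk (nat_lit 402) (nat_lit 2) (nat_lit 2) (nat_lit 6) (nat_lit 7) (nat_lit 140) (nat_lit 88) r7_140 r8_88 (nat_lit 0) (nat_lit 0) (nat_lit 0) (nat_lit 0x2000efab8c) (nat_lit 2147483648),
  Rx.mk (nat_lit 406) (nat_lit 6) (nat_lit 2) (nat_lit 6) (nat_lit 7) (nat_lit 141) (nat_lit 87) r7_141 r8_87 (nat_lit 0) (nat_lit 0) (nat_lit 0) (nat_lit 0x2000efab8c) (nat_lit 2147483648)]
noncomputable def e25_27 : List Rx := [
  Rx.mk (nat_lit 292) (nat_lit 4) (nat_lit 4) (nat_lit 4) (nat_lit 0) (nat_lit 150) (nat_lit 78) r7_150 r8_78 (nat_lit 72243851) (nat_lit 10916527) (nat_lit 8054942) (nat_lit 0xea29e495a) (nat_lit 7082065618),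
  Rx.mk (nat_lit 308) (nat_lit 4) (nat_lit 6) (nat_lit 4) (nat_lit 2) (nat_lit 153) (nat_lit 79) r7_153 r8_79 (nat_lit 49808052) (nat_lit 0) (nat_lit 13867952) (nat_lit 0x183270804e) (nat_lit 4387837202),
  Rx.mk (nat_lit 310) (nat_lit 6) (nat_lit 6) (nat_lit 4) (nat_lit 3) (nat_lit 155) (nat_lit 80) r7_155 r8_80 (nat_lit 0) (nat_lit 0) (nat_lit 5067356) (nat_lit 0x1efa567aa4) (nat_lit 2438071504),
  Rx.mk (nat_lit 402) (nat_lit 2) (nat_lit 2) (nat_lit 6) (nat_lit 7) (nat_lit 148) (nat_lit 87) r7_148 r8_87 (nat_lit 0) (nat_lit 0) (nat_lit 0) (nat_lit 0x2000efab8c) (nat_lit 2147483648),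
  Rx.mk (nat_lit 406) (nat_lit 6) (nat_lit 2) (nat_lit 6) (nat_lit 7) (nat_lit 149) (nat_lit 88) r7_149 r8_88 (nat_lit 0) (nat_lit 0) (nat_lit 0) (nat_lit 0x2000efab8c) (nat_lit 2147483648),
  Rx.mk (nat_lit 438) (nat_lit 6) (nat_lit 6) (nat_lit 6) (nat_lit 7) (nat_lit 156) (nat_lit 89) r7_156 r8_89 (nat_lit 0) (nat_lit 0) (nat_lit 0) (nat_lit 0x2000efab8c) (nat_lit 2147483648),
  Rx.mk (nat_lit 484) (nat_lit 4) (nat_lit 4) (nat_lit 7) (nat_lit 4) (nat_lit 151) (nat_lit 81) r7_151 r8_81 (nat_lit 38990238) (nat_lit 78285234) (nat_lit 0) (nat_lit 0x185c95d068) (nat_lit 4395485720),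
  Rx.mk (nat_lit 487) (nat_lit 7) (nat_lit 4) (nat_lit 7) (nat_lit 5) (nat_lit 152) (nat_lit 83) r7_152 r8_83 (nat_lit 0) (nat_lit 287004756) (nat_lit 0) (nat_lit 0x1fb51a8c54) (nat_lit 2516688604),
  Rx.mk (nat_lit 500) (nat_lit 4) (nat_lit 6) (nat_lit 7) (nat_lit 6) (nat_lit 154) (nat_lit 82) r7_154 r8_82 (nat_lit 37466795) (nat_lit 0) (nat_lit 0) (nat_lit 0x1ffcf3f89e) (nat_lit 2189236093),
  Rx.mk (nat_lit 502) (nat_lit 6) (nat_lit 6) (nat_lit 7) (nat_lit 7) (nat_lit 157) (nat_lit 86) r7_157 r8_86 (nat_lit 0) (nat_lit 0) (nat_lit 0) (nat_lit 0x20251583f6) (nat_lit 2108796398),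
  Rx.mk (nat_lit 503) (nat_lit 7) (nat_lit 6) (nat_lit 7) (nat_lit 7) (nat_lit 158) (nat_lit 85) r7_158 r8_85 (nat_lit 0) (nat_lit 0) (nat_lit 0) (nat_lit 0x2000efab8c) (nat_lit 2147483648),
  Rx.mk (nat_lit 511) (nat_lit 7) (nat_lit 7) (nat_lit 7) (nat_lit 7) (nat_lit 159) (nat_lit 84) r7_159 r8_84 (nat_lit 0) (nat_lit 0) (nat_lit 0) (nat_lit 0x1fef6c33d0) (nat_lit 2166386048)]
noncomputable def e25_28 : List Rx := [
  Rx.mk (nat_lit 24) (nat_lit 0) (nat_lit 3) (nat_lit 0) (nat_lit 2) (nat_lit 184) (nat_lit 91) r7_184 r10_91 (nat_lit 15033885) (nat_lit 0) (nat_lit 3314691) (nat_lit 0x1a56beaf78) (nat_lit 3745066724),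
  Rx.mk (nat_lit 27) (nat_lit 3) (nat_lit 3) (nat_lit 0) (nat_lit 3) (nat_lit 187) (nat_lit 93) r7_187 r10_93 (nat_lit 0) (nat_lit 0) (nat_lit 5456599) (nat_lit 0x1d3c89f54c) (nat_lit 2924140447),
  Rx.mk (nat_lit 59) (nat_lit 3) (nat_lit 7) (nat_lit 0) (nat_lit 3) (nat_lit 195) (nat_lit 86) r7_195 r10_86 (nat_lit 0) (nat_lit 0) (nat_lit 25957406) (nat_lit 0x1fb50a72ec) (nat_lit 2255744054),
  Rx.mk (nat_lit 152) (nat_lit 0) (nat_lit 3) (nat_lit 2) (nat_lit 6) (nat_lit 185) (nat_lit 92) r7_185 r10_92 (nat_lit 35778202) (nat_lit 0) (nat_lit 0) (nat_lit 0x1dbad3aa88) (nat_lit 2816974650),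
  Rx.mk (nat_lit 154) (nat_lit 2) (nat_lit 3) (nat_lit 2) (nat_lit 7) (nat_lit 186) (nat_lit 95) r7_186 r10_95 (nat_lit 0) (nat_lit 0) (nat_lit 0) (nat_lit 0x20107f4b02) (nat_lit 2130755198),
  Rx.mk (nat_lit 155) (nat_lit 3) (nat_lit 3) (nat_lit 2) (nat_lit 7) (nat_lit 188) (nat_lit 94) r7_188 r10_94 (nat_lit 0) (nat_lit 0) (nat_lit 0) (nat_lit 0x201081bdc4) (nat_lit 2130744948),
  Rx.mk (nat_lit 231) (nat_lit 7) (nat_lit 4) (nat_lit 3) (nat_lit 5) (nat_lit 190) (nat_lit 84) r7_190 r10_84 (nat_lit 0) (nat_lit 25957406) (nat_lit 0) (nat_lit 0x1fb50a72ec) (nat_lit 2255744054),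
  Rx.mk (nat_lit 251) (nat_lit 3) (nat_lit 7) (nat_lit 3) (nat_lit 7) (nat_lit 196) (nat_lit 87) r7_196 r10_87 (nat_lit 0) (nat_lit 0) (nat_lit 0) (nat_lit 0x1fb5caeaf4) (nat_lit 2228946748),
  Rx.mk (nat_lit 255) (nat_lit 7) (nat_lit 7) (nat_lit 3) (nat_lit 7) (nat_lit 197) (nat_lit 85) r7_197 r10_85 (nat_lit 0) (nat_lit 0) (nat_lit 0) (nat_lit 0x1fb5caeaf4) (nat_lit 2228946748),
  Rx.mk (nat_lit 484) (nat_lit 4) (nat_lit 4) (nat_lit 7) (nat_lit 4) (nat_lit 189) (nat_lit 82) r7_189 r10_82 (nat_lit 15033885) (nat_lit 3314691) (nat_lit 0) (nat_lit 0x1a56beaf78) (nat_lit 3745066724),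
  Rx.mk (nat_lit 487) (nat_lit 7) (nat_lit 4) (nat_lit 7) (nat_lit 5) (nat_lit 191) (nat_lit 83) r7_191 r10_83 (nat_lit 0) (nat_lit 5456599) (nat_lit 0) (nat_lit 0x1d3c89f54c) (nat_lit 2924140447),
  Rx.mk (nat_lit 500) (nat_lit 4) (nat_lit 6) (nat_lit 7) (nat_lit 6) (nat_lit 192) (nat_lit 88) r7_192 r10_88 (nat_lit 35778202) (nat_lit 0) (nat_lit 0) (nat_lit 0x1dbad3aa88) (nat_lit 2816974650),
  Rx.mk (nat_lit 502) (nat_lit 6) (nat_lit 6) (nat_lit 7) (nat_lit 7) (nat_lit 193) (nat_lit 90) r7_193 r10_90 (nat_lit 0) (nat_lit 0) (nat_lit 0) (nat_lit 0x20107f4b02) (nat_lit 2130755198),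
  Rx.mk (nat_lit 503) (nat_lit 7) (nat_lit 6) (nat_lit 7) (nat_lit 7) (nat_lit 194) (nat_lit 89) r7_194 r10_89 (nat_lit 0) (nat_lit 0) (nat_lit 0) (nat_lit 0x201081bdc4) (nat_lit 2130744948)]
noncomputable def e25_29 : List Rx := [
  Rx.mk (nat_lit 27) (nat_lit 3) (nat_lit 3) (nat_lit 0) (nat_lit 3) (nat_lit 198) (nat_lit 105) r7_198 r11_105 (nat_lit 0) (nat_lit 0) (nat_lit 11865827) (nat_lit 0x1fd3dad702) (nat_lit 2208070725),
  Rx.mk (nat_lit 59) (nat_lit 3) (nat_lit 7) (nat_lit 0) (nat_lit 3) (nat_lit 201) (nat_lit 104) r7_201 r11_104 (nat_lit 0) (nat_lit 0) (nat_lit 17559563) (nat_lit 0x2037065aae) (nat_lit 2107248561),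
  Rx.mk (nat_lit 63) (nat_lit 7) (nat_lit 7) (nat_lit 0) (nat_lit 3) (nat_lit 202) (nat_lit 102) r7_202 r11_102 (nat_lit 0) (nat_lit 0) (nat_lit 38161231) (nat_lit 0x1d02466b90) (nat_lit 3020367679),
  Rx.mk (nat_lit 155) (nat_lit 3) (nat_lit 3) (nat_lit 2) (nat_lit 7) (nat_lit 199) (nat_lit 106) r7_199 r11_106 (nat_lit 0) (nat_lit 0) (nat_lit 0) (nat_lit 0x207c286dc0) (nat_lit 2016191848),
  Rx.mk (nat_lit 231) (nat_lit 7) (nat_lit 4) (nat_lit 3) (nat_lit 5) (nat_lit 200) (nat_lit 101) r7_200 r11_101 (nat_lit 0) (nat_lit 107298956) (nat_lit 0) (nat_lit 0x1fd5e65f30) (nat_lit 2301334404),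
  Rx.mk (nat_lit 255) (nat_lit 7) (nat_lit 7) (nat_lit 3) (nat_lit 7) (nat_lit 203) (nat_lit 103) r7_203 r11_103 (nat_lit 0) (nat_lit 0) (nat_lit 0) (nat_lit 0x2000efab8c) (nat_lit 2147483648)]
noncomputable def e25_30 : List Rx := [
  Rx.mk (nat_lit 103) (nat_lit 7) (nat_lit 4) (nat_lit 1) (nat_lit 5) (nat_lit 286) (nat_lit 256) r7_286 r5_256 (nat_lit 0) (nat_lit 3251367) (nat_lit 0) (nat_lit 0x1d3435a2ba) (nat_lit 2930865065),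
  Rx.mk (nat_lit 111) (nat_lit 7) (nat_lit 5) (nat_lit 1) (nat_lit 7) (nat_lit 287) (nat_lit 257) r7_287 r5_257 (nat_lit 0) (nat_lit 0) (nat_lit 0) (nat_lit 0x1ff6e38154) (nat_lit 2158169848)]
noncomputable def e25_31 : List Rx := [
  Rx.mk (nat_lit 103) (nat_lit 7) (nat_lit 4) (nat_lit 1) (nat_lit 5) (nat_lit 288) (nat_lit 306) r7_288 r11_306 (nat_lit 0) (nat_lit 7912812) (nat_lit 0) (nat_lit 0x1fff5c5bb2) (nat_lit 2157063510),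
  Rx.mk (nat_lit 111) (nat_lit 7) (nat_lit 5) (nat_lit 1) (nat_lit 7) (nat_lit 290) (nat_lit 307) r7_290 r11_307 (nat_lit 0) (nat_lit 0) (nat_lit 0) (nat_lit 0x204cffe834) (nat_lit 2066325548),
  Rx.mk (nat_lit 359) (nat_lit 7) (nat_lit 4) (nat_lit 5) (nat_lit 5) (nat_lit 289) (nat_lit 303) r7_289 r11_303 (nat_lit 0) (nat_lit 11918404) (nat_lit 0) (nat_lit 0x20aa08332e) (nat_lit 1979381802),
  Rx.mk (nat_lit 367) (nat_lit 7) (nat_lit 5) (nat_lit 5) (nat_lit 7) (nat_lit 291) (nat_lit 304) r7_291 r11_304 (nat_lit 0) (nat_lit 0) (nat_lit 0) (nat_lit 0x205ecc09d0) (nat_lit 2047393448),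
  Rx.mk (nat_lit 375) (nat_lit 7) (nat_lit 6) (nat_lit 5) (nat_lit 7) (nat_lit 292) (nat_lit 305) r7_292 r11_305 (nat_lit 0) (nat_lit 0) (nat_lit 0) (nat_lit 0x204faaf506) (nat_lit 2063467898)]
noncomputable def e25_32 : List Rx := [
  Rx.mk (nat_lit 35) (nat_lit 3) (nat_lit 4) (nat_lit 0) (nat_lit 1) (nat_lit 293) (nat_lit 195) r7_293 r6_195 (nat_lit 0) (nat_lit 158384) (nat_lit 186689) (nat_lit 0x1bd07ae5e2) (nat_lit 3315217271),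
  Rx.mk (nat_lit 43) (nat_lit 3) (nat_lit 5) (nat_lit 0) (nat_lit 3) (nat_lit 297) (nat_lit 196) r7_297 r6_196 (nat_lit 0) (nat_lit 0) (nat_lit 15143189) (nat_lit 0x200b9196ae) (nat_lit 2151113287),
  Rx.mk (nat_lit 59) (nat_lit 3) (nat_lit 7) (nat_lit 0) (nat_lit 3) (nat_lit 301) (nat_lit 197) r7_301 r6_197 (nat_lit 0) (nat_lit 0) (nat_lit 9039903) (nat_lit 0x1f0c3c340c) (nat_lit 2422599751),
  Rx.mk (nat_lit 99) (nat_lit 3) (nat_lit 4) (nat_lit 1) (nat_lit 5) (nat_lit 294) (nat_lit 198) r7_294 r6_198 (nat_lit 0) (nat_lit 15522547) (nat_lit 0) (nat_lit 0x2006c8f40a) (nat_lit 2156644545),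
  Rx.mk (nat_lit 107) (nat_lit 3) (nat_lit 5) (nat_lit 1) (nat_lit 7) (nat_lit 298) (nat_lit 199) r7_298 r6_199 (nat_lit 0) (nat_lit 0) (nat_lit 0) (nat_lit 0x20a6955a5a) (nat_lit 1971127798),
  Rx.mk (nat_lit 123) (nat_lit 3) (nat_lit 7) (nat_lit 1) (nat_lit 7) (nat_lit 302) (nat_lit 200) r7_302 r6_200 (nat_lit 0) (nat_lit 0) (nat_lit 0) (nat_lit 0x20390aaab2) (nat_lit 2087565198),
  Rx.mk (nat_lit 227) (nat_lit 3) (nat_lit 4) (nat_lit 3) (nat_lit 5) (nat_lit 295) (nat_lit 201) r7_295 r6_201 (nat_lit 0) (nat_lit 26573864) (nat_lit 0) (nat_lit 0x1b9621606a) (nat_lit 3405484862),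
  Rx.mk (nat_lit 231) (nat_lit 7) (nat_lit 4) (nat_lit 3) (nat_lit 5) (nat_lit 296) (nat_lit 193) r7_296 r6_193 (nat_lit 0) (nat_lit 5682584) (nat_lit 0) (nat_lit 0x1f0dcec532) (nat_lit 2417486782),
  Rx.mk (nat_lit 235) (nat_lit 3) (nat_lit 5) (nat_lit 3) (nat_lit 7) (nat_lit 299) (nat_lit 202) r7_299 r6_202 (nat_lit 0) (nat_lit 0) (nat_lit 0) (nat_lit 0x2000efab8c) (nat_lit 2147483648),
  Rx.mk (nat_lit 239) (nat_lit 7) (nat_lit 5) (nat_lit 3) (nat_lit 7) (nat_lit 300) (nat_lit 194) r7_300 r6_194 (nat_lit 0) (nat_lit 0) (nat_lit 0) (nat_lit 0x201de5d374) (nat_lit 2116448448)]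
noncomputable def e25_33 : List Rx := [
  Rx.mk (nat_lit 59) (nat_lit 3) (nat_lit 7) (nat_lit 0) (nat_lit 3) (nat_lit 272) (nat_lit 102) r7_272 r5_102 (nat_lit 0) (nat_lit 0) (nat_lit 10192449) (nat_lit 0x2021fb9b7e) (nat_lit 2122233647),
  Rx.mk (nat_lit 227) (nat_lit 3) (nat_lit 4) (nat_lit 3) (nat_lit 5) (nat_lit 270) (nat_lit 103) r7_270 r5_103 (nat_lit 0) (nat_lit 7226244) (nat_lit 0) (nat_lit 0x1961d3d3da) (nat_lit 4000821942),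
  Rx.mk (nat_lit 231) (nat_lit 7) (nat_lit 4) (nat_lit 3) (nat_lit 5) (nat_lit 271) (nat_lit 105) r7_271 r5_105 (nat_lit 0) (nat_lit 12895790) (nat_lit 0) (nat_lit 0x1ffc629ad4) (nat_lit 2165259738),
  Rx.mk (nat_lit 251) (nat_lit 3) (nat_lit 7) (nat_lit 3) (nat_lit 7) (nat_lit 273) (nat_lit 104) r7_273 r5_104 (nat_lit 0) (nat_lit 0) (nat_lit 0) (nat_lit 0x1f93e68524) (nat_lit 2265825448)]
noncomputable def e25_34 : List Rx := [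
  Rx.mk (nat_lit 59) (nat_lit 3) (nat_lit 7) (nat_lit 0) (nat_lit 3) (nat_lit 278) (nat_lit 101) r7_278 r11_101 (nat_lit 0) (nat_lit 0) (nat_lit 107298956) (nat_lit 0x1fd5e65f30) (nat_lit 2301334404),
  Rx.mk (nat_lit 227) (nat_lit 3) (nat_lit 4) (nat_lit 3) (nat_lit 5) (nat_lit 274) (nat_lit 102) r7_274 r11_102 (nat_lit 0) (nat_lit 38161231) (nat_lit 0) (nat_lit 0x1d02466b90) (nat_lit 3020367679),
  Rx.mk (nat_lit 231) (nat_lit 7) (nat_lit 4) (nat_lit 3) (nat_lit 5) (nat_lit 275) (nat_lit 104) r7_275 r11_104 (nat_lit 0) (nat_lit 17559563) (nat_lit 0) (nat_lit 0x2037065aae) (nat_lit 2107248561),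
  Rx.mk (nat_lit 251) (nat_lit 3) (nat_lit 7) (nat_lit 3) (nat_lit 7) (nat_lit 279) (nat_lit 103) r7_279 r11_103 (nat_lit 0) (nat_lit 0) (nat_lit 0) (nat_lit 0x2000efab8c) (nat_lit 2147483648),
  Rx.mk (nat_lit 487) (nat_lit 7) (nat_lit 4) (nat_lit 7) (nat_lit 5) (nat_lit 276) (nat_lit 105) r7_276 r11_105 (nat_lit 0) (nat_lit 11865827) (nat_lit 0) (nat_lit 0x1fd3dad702) (nat_lit 2208070725),
  Rx.mk (nat_lit 503) (nat_lit 7) (nat_lit 6) (nat_lit 7) (nat_lit 7) (nat_lit 277) (nat_lit 106) r7_277 r11_106 (nat_lit 0) (nat_lit 0) (nat_lit 0) (nat_lit 0x207c286dc0) (nat_lit 2016191848)]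
noncomputable def e25_35 : List Rx := [
  Rx.mk (nat_lit 43) (nat_lit 3) (nat_lit 5) (nat_lit 0) (nat_lit 3) (nat_lit 282) (nat_lit 282) r7_282 r6_282 (nat_lit 0) (nat_lit 0) (nat_lit 13430557) (nat_lit 0x1ff86b632a) (nat_lit 2170020455),
  Rx.mk (nat_lit 47) (nat_lit 7) (nat_lit 5) (nat_lit 0) (nat_lit 3) (nat_lit 284) (nat_lit 283) r7_284 r6_283 (nat_lit 0) (nat_lit 0) (nat_lit 6173782) (nat_lit 0x1d1b708b64) (nat_lit 2960916230),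
  Rx.mk (nat_lit 99) (nat_lit 3) (nat_lit 4) (nat_lit 1) (nat_lit 5) (nat_lit 280) (nat_lit 280) r7_280 r6_280 (nat_lit 0) (nat_lit 6173782) (nat_lit 0) (nat_lit 0x1d1b708b64) (nat_lit 2960916230),
  Rx.mk (nat_lit 103) (nat_lit 7) (nat_lit 4) (nat_lit 1) (nat_lit 5) (nat_lit 281) (nat_lit 281) r7_281 r6_281 (nat_lit 0) (nat_lit 13430557) (nat_lit 0) (nat_lit 0x1ff86b632a) (nat_lit 2170020455),
  Rx.mk (nat_lit 107) (nat_lit 3) (nat_lit 5) (nat_lit 1) (nat_lit 7) (nat_lit 283) (nat_lit 284) r7_283 r6_284 (nat_lit 0) (nat_lit 0) (nat_lit 0) (nat_lit 0x2014b5fc66) (nat_lit 2126224198),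
  Rx.mk (nat_lit 111) (nat_lit 7) (nat_lit 5) (nat_lit 1) (nat_lit 7) (nat_lit 285) (nat_lit 285) r7_285 r6_285 (nat_lit 0) (nat_lit 0) (nat_lit 0) (nat_lit 0x2014b5fc66) (nat_lit 2126224198)]
noncomputable def e25_36 : List Rx := [
  Rx.mk (nat_lit 35) (nat_lit 3) (nat_lit 4) (nat_lit 0) (nat_lit 1) (nat_lit 303) (nat_lit 191) r7_303 r12_191 (nat_lit 0) (nat_lit 172292) (nat_lit 185901) (nat_lit 0x198be36bf4) (nat_lit 3947748541),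
  Rx.mk (nat_lit 39) (nat_lit 7) (nat_lit 4) (nat_lit 0) (nat_lit 1) (nat_lit 305) (nat_lit 197) r7_305 r12_197 (nat_lit 0) (nat_lit 185901) (nat_lit 172292) (nat_lit 0x198be36bf4) (nat_lit 3947748541),
  Rx.mk (nat_lit 43) (nat_lit 3) (nat_lit 5) (nat_lit 0) (nat_lit 3) (nat_lit 308) (nat_lit 193) r7_308 r12_193 (nat_lit 0) (nat_lit 0) (nat_lit 9553025) (nat_lit 0x205b9e46b0) (nat_lit 2060271073),
  Rx.mk (nat_lit 47) (nat_lit 7) (nat_lit 5) (nat_lit 0) (nat_lit 3) (nat_lit 310) (nat_lit 200) r7_310 r12_200 (nat_lit 0) (nat_lit 0) (nat_lit 17057350) (nat_lit 0x1ee2d51b42) (nat_lit 2475695548),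
  Rx.mk (nat_lit 59) (nat_lit 3) (nat_lit 7) (nat_lit 0) (nat_lit 3) (nat_lit 313) (nat_lit 195) r7_313 r12_195 (nat_lit 0) (nat_lit 0) (nat_lit 2028317) (nat_lit 0x1ea0ece05c) (nat_lit 2532284665),
  Rx.mk (nat_lit 99) (nat_lit 3) (nat_lit 4) (nat_lit 1) (nat_lit 5) (nat_lit 304) (nat_lit 192) r7_304 r12_192 (nat_lit 0) (nat_lit 17057350) (nat_lit 0) (nat_lit 0x1ee2d51b42) (nat_lit 2475695548),
  Rx.mk (nat_lit 103) (nat_lit 7) (nat_lit 4) (nat_lit 1) (nat_lit 5) (nat_lit 306) (nat_lit 198) r7_306 r12_198 (nat_lit 0) (nat_lit 9553025) (nat_lit 0) (nat_lit 0x205b9e46b0) (nat_lit 2060271073),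
  Rx.mk (nat_lit 107) (nat_lit 3) (nat_lit 5) (nat_lit 1) (nat_lit 7) (nat_lit 309) (nat_lit 194) r7_309 r12_194 (nat_lit 0) (nat_lit 0) (nat_lit 0) (nat_lit 0x22594f17fc) (nat_lit 1509483948),
  Rx.mk (nat_lit 111) (nat_lit 7) (nat_lit 5) (nat_lit 1) (nat_lit 7) (nat_lit 311) (nat_lit 201) r7_311 r12_201 (nat_lit 0) (nat_lit 0) (nat_lit 0) (nat_lit 0x22594f17fc) (nat_lit 1509483948),
  Rx.mk (nat_lit 123) (nat_lit 3) (nat_lit 7) (nat_lit 1) (nat_lit 7) (nat_lit 314) (nat_lit 196) r7_314 r12_196 (nat_lit 0) (nat_lit 0) (nat_lit 0) (nat_lit 0x204c1f7a38) (nat_lit 2067262648),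
  Rx.mk (nat_lit 231) (nat_lit 7) (nat_lit 4) (nat_lit 3) (nat_lit 5) (nat_lit 307) (nat_lit 199) r7_307 r12_199 (nat_lit 0) (nat_lit 2028317) (nat_lit 0) (nat_lit 0x1ea0ece05c) (nat_lit 2532284665),
  Rx.mk (nat_lit 239) (nat_lit 7) (nat_lit 5) (nat_lit 3) (nat_lit 7) (nat_lit 312) (nat_lit 202) r7_312 r12_202 (nat_lit 0) (nat_lit 0) (nat_lit 0) (nat_lit 0x204c1f7a38) (nat_lit 2067262648)]
noncomputable def e25_37 : List Rx := [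
  Rx.mk (nat_lit 8) (nat_lit 0) (nat_lit 1) (nat_lit 0) (nat_lit 2) (nat_lit 319) (nat_lit 178) r7_319 r0_178 (nat_lit 394520) (nat_lit 0) (nat_lit 13826) (nat_lit 0x1be69cc70a) (nat_lit 3291128944),
  Rx.mk (nat_lit 11) (nat_lit 3) (nat_lit 1) (nat_lit 0) (nat_lit 3) (nat_lit 322) (nat_lit 182) r7_322 r0_182 (nat_lit 0) (nat_lit 0) (nat_lit 8222135) (nat_lit 0x20013cd0ec) (nat_lit 2155212183),
  Rx.mk (nat_lit 40) (nat_lit 0) (nat_lit 5) (nat_lit 0) (nat_lit 2) (nat_lit 325) (nat_lit 177) r7_325 r0_177 (nat_lit 364323767) (nat_lit 0) (nat_lit 70053) (nat_lit 0x1936d6e51e) (nat_lit 4404409418),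
  Rx.mk (nat_lit 72) (nat_lit 0) (nat_lit 1) (nat_lit 1) (nat_lit 6) (nat_lit 320) (nat_lit 180) r7_320 r0_180 (nat_lit 52001452) (nat_lit 0) (nat_lit 0) (nat_lit 0x1e69666108) (nat_lit 2642941100),
  Rx.mk (nat_lit 75) (nat_lit 3) (nat_lit 1) (nat_lit 1) (nat_lit 7) (nat_lit 323) (nat_lit 183) r7_323 r0_183 (nat_lit 0) (nat_lit 0) (nat_lit 0) (nat_lit 0x201d3442b2) (nat_lit 2117185098),
  Rx.mk (nat_lit 104) (nat_lit 0) (nat_lit 5) (nat_lit 1) (nat_lit 6) (nat_lit 326) (nat_lit 179) r7_326 r0_179 (nat_lit 2076918) (nat_lit 0) (nat_lit 0) (nat_lit 0x16b9749910) (nat_lit 4736536266),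
  Rx.mk (nat_lit 136) (nat_lit 0) (nat_lit 1) (nat_lit 2) (nat_lit 6) (nat_lit 321) (nat_lit 181) r7_321 r0_181 (nat_lit 1259355059) (nat_lit 0) (nat_lit 0) (nat_lit 0x20beee895a) (nat_lit 3204160657),
  Rx.mk (nat_lit 139) (nat_lit 3) (nat_lit 1) (nat_lit 2) (nat_lit 7) (nat_lit 324) (nat_lit 184) r7_324 r0_184 (nat_lit 0) (nat_lit 0) (nat_lit 0) (nat_lit 0x203183aa1e) (nat_lit 2095553398)]
noncomputable def e25_38 : List Rx := [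
  Rx.mk (nat_lit 40) (nat_lit 0) (nat_lit 5) (nat_lit 0) (nat_lit 2) (nat_lit 315) (nat_lit 250) r7_315 r0_250 (nat_lit 25106789) (nat_lit 0) (nat_lit 114738951) (nat_lit 0x198796769a) (nat_lit 4092190738),
  Rx.mk (nat_lit 41) (nat_lit 1) (nat_lit 5) (nat_lit 0) (nat_lit 3) (nat_lit 317) (nat_lit 251) r7_317 r0_251 (nat_lit 0) (nat_lit 0) (nat_lit 36924422) (nat_lit 0x1e44557ca0) (nat_lit 2668277270),
  Rx.mk (nat_lit 104) (nat_lit 0) (nat_lit 5) (nat_lit 1) (nat_lit 6) (nat_lit 316) (nat_lit 252) r7_316 r0_252 (nat_lit 22821440) (nat_lit 0) (nat_lit 0) (nat_lit 0x1b76f69c00) (nat_lit 3435676488),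
  Rx.mk (nat_lit 105) (nat_lit 1) (nat_lit 5) (nat_lit 1) (nat_lit 7) (nat_lit 318) (nat_lit 253) r7_318 r0_253 (nat_lit 0) (nat_lit 0) (nat_lit 0) (nat_lit 0x1fdc2e0604) (nat_lit 2187177448)]
noncomputable def e25_39 : List Rx := [
  Rx.mk (nat_lit 8) (nat_lit 0) (nat_lit 1) (nat_lit 0) (nat_lit 2) (nat_lit 327) (nat_lit 230) r7_327 r7_230 (nat_lit 6981812) (nat_lit 0) (nat_lit 6981812) (nat_lit 0x17dd520bbe) (nat_lit 4430838622),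
  Rx.mk (nat_lit 9) (nat_lit 1) (nat_lit 1) (nat_lit 0) (nat_lit 3) (nat_lit 330) (nat_lit 235) r7_330 r7_235 (nat_lit 0) (nat_lit 0) (nat_lit 12671990) (nat_lit 0x1a8eea14a0) (nat_lit 3678299338),
  Rx.mk (nat_lit 11) (nat_lit 3) (nat_lit 1) (nat_lit 0) (nat_lit 3) (nat_lit 333) (nat_lit 239) r7_333 r7_239 (nat_lit 0) (nat_lit 0) (nat_lit 117894459) (nat_lit 0x1fa638f9b4) (nat_lit 2363788607),
  Rx.mk (nat_lit 40) (nat_lit 0) (nat_lit 5) (nat_lit 0) (nat_lit 2) (nat_lit 335) (nat_lit 229) r7_335 r7_229 (nat_lit 8401195) (nat_lit 0) (nat_lit 8401195) (nat_lit 0x190ad77d3e) (nat_lit 4105114188),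
  Rx.mk (nat_lit 41) (nat_lit 1) (nat_lit 5) (nat_lit 0) (nat_lit 3) (nat_lit 337) (nat_lit 234) r7_337 r7_234 (nat_lit 0) (nat_lit 0) (nat_lit 8849300) (nat_lit 0x1ef929dad6) (nat_lit 2443145598),
  Rx.mk (nat_lit 72) (nat_lit 0) (nat_lit 1) (nat_lit 1) (nat_lit 6) (nat_lit 328) (nat_lit 232) r7_328 r7_232 (nat_lit 12671990) (nat_lit 0) (nat_lit 0) (nat_lit 0x1a8eea14a0) (nat_lit 3678299338),
  Rx.mk (nat_lit 73) (nat_lit 1) (nat_lit 1) (nat_lit 1) (nat_lit 7) (nat_lit 331) (nat_lit 237) r7_331 r7_237 (nat_lit 0) (nat_lit 0) (nat_lit 0) (nat_lit 0x1eb69a1fa0) (nat_lit 2506857848),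
  Rx.mk (nat_lit 75) (nat_lit 3) (nat_lit 1) (nat_lit 1) (nat_lit 7) (nat_lit 334) (nat_lit 240) r7_334 r7_240 (nat_lit 0) (nat_lit 0) (nat_lit 0) (nat_lit 0x2000efab8c) (nat_lit 2147483648),
  Rx.mk (nat_lit 104) (nat_lit 0) (nat_lit 5) (nat_lit 1) (nat_lit 6) (nat_lit 336) (nat_lit 231) r7_336 r7_231 (nat_lit 8849300) (nat_lit 0) (nat_lit 0) (nat_lit 0x1ef929dad6) (nat_lit 2443145598),
  Rx.mk (nat_lit 105) (nat_lit 1) (nat_lit 5) (nat_lit 1) (nat_lit 7) (nat_lit 338) (nat_lit 236) r7_338 r7_236 (nat_lit 0) (nat_lit 0) (nat_lit 0) (nat_lit 0x2000ba4fd2) (nat_lit 2147684198),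
  Rx.mk (nat_lit 136) (nat_lit 0) (nat_lit 1) (nat_lit 2) (nat_lit 6) (nat_lit 329) (nat_lit 233) r7_329 r7_233 (nat_lit 117894459) (nat_lit 0) (nat_lit 0) (nat_lit 0x1fa638f9b4) (nat_lit 2363788607),
  Rx.mk (nat_lit 137) (nat_lit 1) (nat_lit 1) (nat_lit 2) (nat_lit 7) (nat_lit 332) (nat_lit 238) r7_332 r7_238 (nat_lit 0) (nat_lit 0) (nat_lit 0) (nat_lit 0x2000efab8c) (nat_lit 2147483648)]
noncomputable def e25_40 : List Rx := [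
  Rx.mk (nat_lit 105) (nat_lit 1) (nat_lit 5) (nat_lit 1) (nat_lit 7) (nat_lit 399) (nat_lit 284) r7_399 r2_284 (nat_lit 0) (nat_lit 0) (nat_lit 0) (nat_lit 0x2000efab8c) (nat_lit 2147483648),
  Rx.mk (nat_lit 109) (nat_lit 5) (nat_lit 5) (nat_lit 1) (nat_lit 7) (nat_lit 400) (nat_lit 285) r7_400 r2_285 (nat_lit 0) (nat_lit 0) (nat_lit 0) (nat_lit 0x2000efab8c) (nat_lit 2147483648)]
noncomputable def e25_41 : List Rx := [
  Rx.mk (nat_lit 73) (nat_lit 1) (nat_lit 1) (nat_lit 1) (nat_lit 7) (nat_lit 406) (nat_lit 257) r7_406 r9_257 (nat_lit 0) (nat_lit 0) (nat_lit 0) (nat_lit 0x2000efab8c) (nat_lit 2147483648),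
  Rx.mk (nat_lit 105) (nat_lit 1) (nat_lit 5) (nat_lit 1) (nat_lit 7) (nat_lit 407) (nat_lit 258) r7_407 r9_258 (nat_lit 0) (nat_lit 0) (nat_lit 0) (nat_lit 0x2000efab8c) (nat_lit 2147483648),
  Rx.mk (nat_lit 109) (nat_lit 5) (nat_lit 5) (nat_lit 1) (nat_lit 7) (nat_lit 408) (nat_lit 259) r7_408 r9_259 (nat_lit 0) (nat_lit 0) (nat_lit 0) (nat_lit 0x2000efab8c) (nat_lit 2147483648)]
noncomputable def e25_42 : List Rx := [
  Rx.mk (nat_lit 105) (nat_lit 1) (nat_lit 5) (nat_lit 1) (nat_lit 7) (nat_lit 409) (nat_lit 259) r7_409 r9_259 (nat_lit 0) (nat_lit 0) (nat_lit 0) (nat_lit 0x2000efab8c) (nat_lit 2147483648),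
  Rx.mk (nat_lit 109) (nat_lit 5) (nat_lit 5) (nat_lit 1) (nat_lit 7) (nat_lit 410) (nat_lit 258) r7_410 r9_258 (nat_lit 0) (nat_lit 0) (nat_lit 0) (nat_lit 0x2000efab8c) (nat_lit 2147483648),
  Rx.mk (nat_lit 365) (nat_lit 5) (nat_lit 5) (nat_lit 5) (nat_lit 7) (nat_lit 411) (nat_lit 257) r7_411 r9_257 (nat_lit 0) (nat_lit 0) (nat_lit 0) (nat_lit 0x2000efab8c) (nat_lit 2147483648)]
noncomputable def e25_43 : List Rx := [
  Rx.mk (nat_lit 41) (nat_lit 1) (nat_lit 5) (nat_lit 0) (nat_lit 3) (nat_lit 397) (nat_lit 256) r7_397 r1_256 (nat_lit 0) (nat_lit 0) (nat_lit 16795015) (nat_lit 0x1abd690b42) (nat_lit 3631785813),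
  Rx.mk (nat_lit 105) (nat_lit 1) (nat_lit 5) (nat_lit 1) (nat_lit 7) (nat_lit 398) (nat_lit 257) r7_398 r1_257 (nat_lit 0) (nat_lit 0) (nat_lit 0) (nat_lit 0x1fae1bec86) (nat_lit 2237247798)]
noncomputable def e25_44 : List Rx := [
  Rx.mk (nat_lit 9) (nat_lit 1) (nat_lit 1) (nat_lit 0) (nat_lit 3) (nat_lit 401) (nat_lit 185) r7_401 r8_185 (nat_lit 0) (nat_lit 0) (nat_lit 42780042) (nat_lit 0x1e3e97900a) (nat_lit 2680398140),
  Rx.mk (nat_lit 41) (nat_lit 1) (nat_lit 5) (nat_lit 0) (nat_lit 3) (nat_lit 404) (nat_lit 184) r7_404 r8_184 (nat_lit 0) (nat_lit 0) (nat_lit 19673153) (nat_lit 0x1f8bf49b1c) (nat_lit 2294173401),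
  Rx.mk (nat_lit 73) (nat_lit 1) (nat_lit 1) (nat_lit 1) (nat_lit 7) (nat_lit 402) (nat_lit 187) r7_402 r8_187 (nat_lit 0) (nat_lit 0) (nat_lit 0) (nat_lit 0x2000efab8c) (nat_lit 2147483648),
  Rx.mk (nat_lit 105) (nat_lit 1) (nat_lit 5) (nat_lit 1) (nat_lit 7) (nat_lit 405) (nat_lit 186) r7_405 r8_186 (nat_lit 0) (nat_lit 0) (nat_lit 0) (nat_lit 0x201b34a65a) (nat_lit 2119343898),
  Rx.mk (nat_lit 137) (nat_lit 1) (nat_lit 1) (nat_lit 2) (nat_lit 7) (nat_lit 403) (nat_lit 188) r7_403 r8_188 (nat_lit 0) (nat_lit 0) (nat_lit 0) (nat_lit 0x2000efab8c) (nat_lit 2147483648)]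
noncomputable def e25_45 : List Rx := [
  Rx.mk (nat_lit 8) (nat_lit 0) (nat_lit 1) (nat_lit 0) (nat_lit 2) (nat_lit 381) (nat_lit 192) r7_381 r1_192 (nat_lit 380376103) (nat_lit 0) (nat_lit 14677998) (nat_lit 0x1cff4bb35a) (nat_lit 3380478299),
  Rx.mk (nat_lit 11) (nat_lit 3) (nat_lit 1) (nat_lit 0) (nat_lit 3) (nat_lit 385) (nat_lit 195) r7_385 r1_195 (nat_lit 0) (nat_lit 0) (nat_lit 16886061) (nat_lit 0x201fca129a) (nat_lit 2131328859),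
  Rx.mk (nat_lit 72) (nat_lit 0) (nat_lit 1) (nat_lit 1) (nat_lit 6) (nat_lit 382) (nat_lit 193) r7_382 r1_193 (nat_lit 104823800) (nat_lit 0) (nat_lit 0) (nat_lit 0x1ff47440e8) (nat_lit 2265770548),
  Rx.mk (nat_lit 75) (nat_lit 3) (nat_lit 1) (nat_lit 1) (nat_lit 7) (nat_lit 386) (nat_lit 196) r7_386 r1_196 (nat_lit 0) (nat_lit 0) (nat_lit 0) (nat_lit 0x201b565cdc) (nat_lit 2119195248),
  Rx.mk (nat_lit 136) (nat_lit 0) (nat_lit 1) (nat_lit 2) (nat_lit 6) (nat_lit 383) (nat_lit 194) r7_383 r1_194 (nat_lit 1171744702) (nat_lit 0) (nat_lit 0) (nat_lit 0x231bc52466) (nat_lit 2474665500),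
  Rx.mk (nat_lit 138) (nat_lit 2) (nat_lit 1) (nat_lit 2) (nat_lit 7) (nat_lit 384) (nat_lit 198) r7_384 r1_198 (nat_lit 0) (nat_lit 0) (nat_lit 0) (nat_lit 0x1fd6d74576) (nat_lit 2192969998),
  Rx.mk (nat_lit 139) (nat_lit 3) (nat_lit 1) (nat_lit 2) (nat_lit 7) (nat_lit 387) (nat_lit 197) r7_387 r1_197 (nat_lit 0) (nat_lit 0) (nat_lit 0) (nat_lit 0x201b565cdc) (nat_lit 2119195248)]
noncomputable def e25_46 : List Rx := [
  Rx.mk (nat_lit 0) (nat_lit 0) (nat_lit 0) (nat_lit 0) (nat_lit 0) (nat_lit 339) (nat_lit 189) r7_339 r2_189 (nat_lit 8247) (nat_lit 1937) (nat_lit 1798) (nat_lit 0x10a98581b4) (nat_lit 6425118130),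
  Rx.mk (nat_lit 3) (nat_lit 3) (nat_lit 0) (nat_lit 0) (nat_lit 1) (nat_lit 342) (nat_lit 193) r7_342 r2_193 (nat_lit 0) (nat_lit 1571667) (nat_lit 1671799) (nat_lit 0x186cb0e74e) (nat_lit 4263704064),
  Rx.mk (nat_lit 8) (nat_lit 0) (nat_lit 1) (nat_lit 0) (nat_lit 2) (nat_lit 344) (nat_lit 190) r7_344 r2_190 (nat_lit 30039614) (nat_lit 0) (nat_lit 10623857) (nat_lit 0x15f14e7b36) (nat_lit 4993558069),
  Rx.mk (nat_lit 11) (nat_lit 3) (nat_lit 1) (nat_lit 0) (nat_lit 3) (nat_lit 347) (nat_lit 194) r7_347 r2_194 (nat_lit 0) (nat_lit 0) (nat_lit 10772890) (nat_lit 0x201356c724) (nat_lit 2138452038),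
  Rx.mk (nat_lit 27) (nat_lit 3) (nat_lit 3) (nat_lit 0) (nat_lit 3) (nat_lit 350) (nat_lit 195) r7_350 r2_195 (nat_lit 0) (nat_lit 0) (nat_lit 17968761) (nat_lit 0x1fd9089b88) (nat_lit 2208536809),
  Rx.mk (nat_lit 128) (nat_lit 0) (nat_lit 0) (nat_lit 2) (nat_lit 4) (nat_lit 340) (nat_lit 191) r7_340 r2_191 (nat_lit 20717393) (nat_lit 5087834) (nat_lit 0) (nat_lit 0x1975a87816) (nat_lit 3997776725),
  Rx.mk (nat_lit 130) (nat_lit 2) (nat_lit 0) (nat_lit 2) (nat_lit 5) (nat_lit 341) (nat_lit 200) r7_341 r2_200 (nat_lit 0) (nat_lit 24199369) (nat_lit 0) (nat_lit 0x1bd3433ce8) (nat_lit 3336510717),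
  Rx.mk (nat_lit 131) (nat_lit 3) (nat_lit 0) (nat_lit 2) (nat_lit 5) (nat_lit 343) (nat_lit 197) r7_343 r2_197 (nat_lit 0) (nat_lit 12082706) (nat_lit 0) (nat_lit 0x208790be4c) (nat_lit 2016209154),
  Rx.mk (nat_lit 136) (nat_lit 0) (nat_lit 1) (nat_lit 2) (nat_lit 6) (nat_lit 345) (nat_lit 192) r7_345 r2_192 (nat_lit 105487641) (nat_lit 0) (nat_lit 0) (nat_lit 0x1e6cf14f72) (nat_lit 2692591839),
  Rx.mk (nat_lit 138) (nat_lit 2) (nat_lit 1) (nat_lit 2) (nat_lit 7) (nat_lit 346) (nat_lit 201) r7_346 r2_201 (nat_lit 0) (nat_lit 0) (nat_lit 0) (nat_lit 0x1fe46492f2) (nat_lit 2178308798),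
  Rx.mk (nat_lit 139) (nat_lit 3) (nat_lit 1) (nat_lit 2) (nat_lit 7) (nat_lit 348) (nat_lit 198) r7_348 r2_198 (nat_lit 0) (nat_lit 0) (nat_lit 0) (nat_lit 0x2044298814) (nat_lit 2075709948),
  Rx.mk (nat_lit 146) (nat_lit 2) (nat_lit 2) (nat_lit 2) (nat_lit 7) (nat_lit 349) (nat_lit 202) r7_349 r2_202 (nat_lit 0) (nat_lit 0) (nat_lit 0) (nat_lit 0x2000efab8c) (nat_lit 2147483648),
  Rx.mk (nat_lit 155) (nat_lit 3) (nat_lit 3) (nat_lit 2) (nat_lit 7) (nat_lit 351) (nat_lit 199) r7_351 r2_199 (nat_lit 0) (nat_lit 0) (nat_lit 0) (nat_lit 0x2044298814) (nat_lit 2075709948),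
  Rx.mk (nat_lit 219) (nat_lit 3) (nat_lit 3) (nat_lit 3) (nat_lit 7) (nat_lit 352) (nat_lit 196) r7_352 r2_196 (nat_lit 0) (nat_lit 0) (nat_lit 0) (nat_lit 0x2000efab8c) (nat_lit 2147483648)]
noncomputable def e25_47 : List Rx := [
  Rx.mk (nat_lit 8) (nat_lit 0) (nat_lit 1) (nat_lit 0) (nat_lit 2) (nat_lit 388) (nat_lit 248) r7_388 r8_248 (nat_lit 25017464) (nat_lit 0) (nat_lit 32339147) (nat_lit 0x17b72f48de) (nat_lit 4515822409),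
  Rx.mk (nat_lit 9) (nat_lit 1) (nat_lit 1) (nat_lit 0) (nat_lit 3) (nat_lit 391) (nat_lit 249) r7_391 r8_249 (nat_lit 0) (nat_lit 0) (nat_lit 43498676) (nat_lit 0x1e36edb668) (nat_lit 2689461224),
  Rx.mk (nat_lit 11) (nat_lit 3) (nat_lit 1) (nat_lit 0) (nat_lit 3) (nat_lit 395) (nat_lit 250) r7_395 r8_250 (nat_lit 0) (nat_lit 0) (nat_lit 39267561) (nat_lit 0x2000efab8c) (nat_lit 2186751209),
  Rx.mk (nat_lit 72) (nat_lit 0) (nat_lit 1) (nat_lit 1) (nat_lit 6) (nat_lit 389) (nat_lit 251) r7_389 r8_251 (nat_lit 42592381) (nat_lit 0) (nat_lit 0) (nat_lit 0x1ea87817d8) (nat_lit 2564854829),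
  Rx.mk (nat_lit 73) (nat_lit 1) (nat_lit 1) (nat_lit 1) (nat_lit 7) (nat_lit 392) (nat_lit 252) r7_392 r8_252 (nat_lit 0) (nat_lit 0) (nat_lit 0) (nat_lit 0x1ff740ac9e) (nat_lit 2157915398),
  Rx.mk (nat_lit 75) (nat_lit 3) (nat_lit 1) (nat_lit 1) (nat_lit 7) (nat_lit 396) (nat_lit 253) r7_396 r8_253 (nat_lit 0) (nat_lit 0) (nat_lit 0) (nat_lit 0x2000efab8c) (nat_lit 2147483648),
  Rx.mk (nat_lit 136) (nat_lit 0) (nat_lit 1) (nat_lit 2) (nat_lit 6) (nat_lit 390) (nat_lit 254) r7_390 r8_254 (nat_lit 50597122) (nat_lit 0) (nat_lit 0) (nat_lit 0x1f9b7c9094) (nat_lit 2308173370),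
  Rx.mk (nat_lit 137) (nat_lit 1) (nat_lit 1) (nat_lit 2) (nat_lit 7) (nat_lit 393) (nat_lit 255) r7_393 r8_255 (nat_lit 0) (nat_lit 0) (nat_lit 0) (nat_lit 0x2000efab8c) (nat_lit 2147483648),
  Rx.mk (nat_lit 138) (nat_lit 2) (nat_lit 1) (nat_lit 2) (nat_lit 7) (nat_lit 394) (nat_lit 256) r7_394 r8_256 (nat_lit 0) (nat_lit 0) (nat_lit 0) (nat_lit 0x2000efab8c) (nat_lit 2147483648)]
noncomputable def e25_48 : List Rx := [
  Rx.mk (nat_lit 0) (nat_lit 0) (nat_lit 0) (nat_lit 0) (nat_lit 0) (nat_lit 353) (nat_lit 170) r7_353 r9_170 (nat_lit 24129304) (nat_lit 14375128) (nat_lit 16606453) (nat_lit 0xeb9d8c0fa) (nat_lit 7020682383),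
  Rx.mk (nat_lit 3) (nat_lit 3) (nat_lit 0) (nat_lit 0) (nat_lit 1) (nat_lit 356) (nat_lit 176) r7_356 r9_176 (nat_lit 0) (nat_lit 48335039) (nat_lit 296668871) (nat_lit 0x1ca4fd61f0) (nat_lit 3428841158),
  Rx.mk (nat_lit 8) (nat_lit 0) (nat_lit 1) (nat_lit 0) (nat_lit 2) (nat_lit 357) (nat_lit 171) r7_357 r9_171 (nat_lit 49544812) (nat_lit 0) (nat_lit 78494873) (nat_lit 0x17814085da) (nat_lit 4645265483),
  Rx.mk (nat_lit 9) (nat_lit 1) (nat_lit 1) (nat_lit 0) (nat_lit 3) (nat_lit 359) (nat_lit 174) r7_359 r9_174 (nat_lit 0) (nat_lit 0) (nat_lit 65702946) (nat_lit 0x1fd81b21dc) (nat_lit 2257341794),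
  Rx.mk (nat_lit 11) (nat_lit 3) (nat_lit 1) (nat_lit 0) (nat_lit 3) (nat_lit 362) (nat_lit 177) r7_362 r9_177 (nat_lit 0) (nat_lit 0) (nat_lit 39267561) (nat_lit 0x2000efab8c) (nat_lit 2186751209),
  Rx.mk (nat_lit 27) (nat_lit 3) (nat_lit 3) (nat_lit 0) (nat_lit 3) (nat_lit 364) (nat_lit 178) r7_364 r9_178 (nat_lit 0) (nat_lit 0) (nat_lit 88391096) (nat_lit 0x1fdfc2721e) (nat_lit 2271724494),
  Rx.mk (nat_lit 128) (nat_lit 0) (nat_lit 0) (nat_lit 2) (nat_lit 4) (nat_lit 354) (nat_lit 172) r7_354 r9_172 (nat_lit 42344646) (nat_lit 39267561) (nat_lit 0) (nat_lit 0x1810200be0) (nat_lit 4443199055),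
  Rx.mk (nat_lit 130) (nat_lit 2) (nat_lit 0) (nat_lit 2) (nat_lit 5) (nat_lit 355) (nat_lit 180) r7_355 r9_180 (nat_lit 0) (nat_lit 39267561) (nat_lit 0) (nat_lit 0x1fed50c282) (nat_lit 2207915259),
  Rx.mk (nat_lit 136) (nat_lit 0) (nat_lit 1) (nat_lit 2) (nat_lit 6) (nat_lit 358) (nat_lit 173) r7_358 r9_173 (nat_lit 44440179) (nat_lit 0) (nat_lit 0) (nat_lit 0x1fafda1dea) (nat_lit 2279853077),
  Rx.mk (nat_lit 137) (nat_lit 1) (nat_lit 1) (nat_lit 2) (nat_lit 7) (nat_lit 360) (nat_lit 175) r7_360 r9_175 (nat_lit 0) (nat_lit 0) (nat_lit 0) (nat_lit 0x2000efab8c) (nat_lit 2147483648),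
  Rx.mk (nat_lit 138) (nat_lit 2) (nat_lit 1) (nat_lit 2) (nat_lit 7) (nat_lit 361) (nat_lit 181) r7_361 r9_181 (nat_lit 0) (nat_lit 0) (nat_lit 0) (nat_lit 0x2000efab8c) (nat_lit 2147483648),
  Rx.mk (nat_lit 146) (nat_lit 2) (nat_lit 2) (nat_lit 2) (nat_lit 7) (nat_lit 363) (nat_lit 182) r7_363 r9_182 (nat_lit 0) (nat_lit 0) (nat_lit 0) (nat_lit 0x2000efab8c) (nat_lit 2147483648),
  Rx.mk (nat_lit 219) (nat_lit 3) (nat_lit 3) (nat_lit 3) (nat_lit 7) (nat_lit 365) (nat_lit 179) r7_365 r9_179 (nat_lit 0) (nat_lit 0) (nat_lit 0) (nat_lit 0x2000efab8c) (nat_lit 2147483648)]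
noncomputable def e25_49 : List Rx := [
  Rx.mk (nat_lit 0) (nat_lit 0) (nat_lit 0) (nat_lit 0) (nat_lit 0) (nat_lit 366) (nat_lit 68) r7_366 r9_68 (nat_lit 275129198) (nat_lit 6681309) (nat_lit 5556724) (nat_lit 0xe8573c850) (nat_lit 7309970679),
  Rx.mk (nat_lit 3) (nat_lit 3) (nat_lit 0) (nat_lit 0) (nat_lit 1) (nat_lit 369) (nat_lit 70) r7_369 r9_70 (nat_lit 0) (nat_lit 36004825) (nat_lit 377506769) (nat_lit 0x1c452b0bce) (nat_lit 3601731492),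
  Rx.mk (nat_lit 8) (nat_lit 0) (nat_lit 1) (nat_lit 0) (nat_lit 2) (nat_lit 371) (nat_lit 69) r7_371 r9_69 (nat_lit 70721727) (nat_lit 0) (nat_lit 42058187) (nat_lit 0x1756adffd2) (nat_lit 4676382812),
  Rx.mk (nat_lit 11) (nat_lit 3) (nat_lit 1) (nat_lit 0) (nat_lit 3) (nat_lit 374) (nat_lit 71) r7_374 r9_71 (nat_lit 0) (nat_lit 0) (nat_lit 39267561) (nat_lit 0x2000efab8c) (nat_lit 2186751209),
  Rx.mk (nat_lit 27) (nat_lit 3) (nat_lit 3) (nat_lit 0) (nat_lit 3) (nat_lit 378) (nat_lit 72) r7_378 r9_72 (nat_lit 0) (nat_lit 0) (nat_lit 87660547) (nat_lit 0x1fe8d07f54) (nat_lit 2261177395),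
  Rx.mk (nat_lit 128) (nat_lit 0) (nat_lit 0) (nat_lit 2) (nat_lit 4) (nat_lit 367) (nat_lit 74) r7_367 r9_74 (nat_lit 101420410) (nat_lit 39267561) (nat_lit 0) (nat_lit 0x185c9f17e0) (nat_lit 4418933119),
  Rx.mk (nat_lit 130) (nat_lit 2) (nat_lit 0) (nat_lit 2) (nat_lit 5) (nat_lit 368) (nat_lit 79) r7_368 r9_79 (nat_lit 0) (nat_lit 45350950) (nat_lit 0) (nat_lit 0x1e7a71e436) (nat_lit 2617750648),
  Rx.mk (nat_lit 131) (nat_lit 3) (nat_lit 0) (nat_lit 2) (nat_lit 5) (nat_lit 370) (nat_lit 76) r7_370 r9_76 (nat_lit 0) (nat_lit 39267561) (nat_lit 0) (nat_lit 0x2000efab8c) (nat_lit 2186751209),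
  Rx.mk (nat_lit 136) (nat_lit 0) (nat_lit 1) (nat_lit 2) (nat_lit 6) (nat_lit 372) (nat_lit 75) r7_372 r9_75 (nat_lit 102732549) (nat_lit 0) (nat_lit 0) (nat_lit 0x1f66fce602) (nat_lit 2417471747),
  Rx.mk (nat_lit 138) (nat_lit 2) (nat_lit 1) (nat_lit 2) (nat_lit 7) (nat_lit 373) (nat_lit 80) r7_373 r9_80 (nat_lit 0) (nat_lit 0) (nat_lit 0) (nat_lit 0x2000efab8c) (nat_lit 2147483648),
  Rx.mk (nat_lit 139) (nat_lit 3) (nat_lit 1) (nat_lit 2) (nat_lit 7) (nat_lit 375) (nat_lit 77) r7_375 r9_77 (nat_lit 0) (nat_lit 0) (nat_lit 0) (nat_lit 0x2000efab8c) (nat_lit 2147483648),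
  Rx.mk (nat_lit 146) (nat_lit 2) (nat_lit 2) (nat_lit 2) (nat_lit 7) (nat_lit 376) (nat_lit 81) r7_376 r9_81 (nat_lit 0) (nat_lit 0) (nat_lit 0) (nat_lit 0x2000efab8c) (nat_lit 2147483648),
  Rx.mk (nat_lit 155) (nat_lit 3) (nat_lit 3) (nat_lit 2) (nat_lit 7) (nat_lit 379) (nat_lit 78) r7_379 r9_78 (nat_lit 0) (nat_lit 0) (nat_lit 0) (nat_lit 0x2000efab8c) (nat_lit 2147483648),
  Rx.mk (nat_lit 219) (nat_lit 3) (nat_lit 3) (nat_lit 3) (nat_lit 7) (nat_lit 380) (nat_lit 73) r7_380 r9_73 (nat_lit 0) (nat_lit 0) (nat_lit 0) (nat_lit 0x2000efab8c) (nat_lit 2147483648),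
  Rx.mk (nat_lit 402) (nat_lit 2) (nat_lit 2) (nat_lit 6) (nat_lit 7) (nat_lit 377) (nat_lit 82) r7_377 r9_82 (nat_lit 0) (nat_lit 0) (nat_lit 0) (nat_lit 0x2000efab8c) (nat_lit 2147483648)]
noncomputable def e25_50 : List Rx := [
  Rx.mk (nat_lit 40) (nat_lit 0) (nat_lit 5) (nat_lit 0) (nat_lit 2) (nat_lit 412) (nat_lit 167) r7_412 r3_167 (nat_lit 2430) (nat_lit 0) (nat_lit 3027) (nat_lit 0x1c96a78c70) (nat_lit 3098938105),
  Rx.mk (nat_lit 43) (nat_lit 3) (nat_lit 5) (nat_lit 0) (nat_lit 3) (nat_lit 414) (nat_lit 169) r7_414 r3_169 (nat_lit 0) (nat_lit 0) (nat_lit 2374) (nat_lit 0x1fff9a4832) (nat_lit 2147919272),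
  Rx.mk (nat_lit 104) (nat_lit 0) (nat_lit 5) (nat_lit 1) (nat_lit 6) (nat_lit 413) (nat_lit 168) r7_413 r3_168 (nat_lit 71436) (nat_lit 0) (nat_lit 0) (nat_lit 0x1ecd88f65a) (nat_lit 2481433234),
  Rx.mk (nat_lit 107) (nat_lit 3) (nat_lit 5) (nat_lit 1) (nat_lit 7) (nat_lit 415) (nat_lit 170) r7_415 r3_170 (nat_lit 0) (nat_lit 0) (nat_lit 0) (nat_lit 0x2023d6e4a8) (nat_lit 2110098548)]
noncomputable def e25_51 : List Rx := [
  Rx.mk (nat_lit 11) (nat_lit 3) (nat_lit 1) (nat_lit 0) (nat_lit 3) (nat_lit 424) (nat_lit 170) r7_424 r4_170 (nat_lit 0) (nat_lit 0) (nat_lit 10163698) (nat_lit 0x1f1480be58) (nat_lit 2414683846),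
  Rx.mk (nat_lit 40) (nat_lit 0) (nat_lit 5) (nat_lit 0) (nat_lit 2) (nat_lit 427) (nat_lit 167) r7_427 r4_167 (nat_lit 184540823) (nat_lit 0) (nat_lit 193240) (nat_lit 0x15f56a5f6e) (nat_lit 5132738961),
  Rx.mk (nat_lit 43) (nat_lit 3) (nat_lit 5) (nat_lit 0) (nat_lit 3) (nat_lit 429) (nat_lit 169) r7_429 r4_169 (nat_lit 0) (nat_lit 0) (nat_lit 3444502) (nat_lit 0x191b2752ea) (nat_lit 4073882200),
  Rx.mk (nat_lit 75) (nat_lit 3) (nat_lit 1) (nat_lit 1) (nat_lit 7) (nat_lit 425) (nat_lit 172) r7_425 r4_172 (nat_lit 0) (nat_lit 0) (nat_lit 0) (nat_lit 0x208e2a96f6) (nat_lit 1997063298),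
  Rx.mk (nat_lit 104) (nat_lit 0) (nat_lit 5) (nat_lit 1) (nat_lit 6) (nat_lit 428) (nat_lit 168) r7_428 r4_168 (nat_lit 548337725) (nat_lit 0) (nat_lit 0) (nat_lit 0x1f9f02c116) (nat_lit 2801997023),
  Rx.mk (nat_lit 107) (nat_lit 3) (nat_lit 5) (nat_lit 1) (nat_lit 7) (nat_lit 430) (nat_lit 171) r7_430 r4_171 (nat_lit 0) (nat_lit 0) (nat_lit 0) (nat_lit 0x20bc663f2a) (nat_lit 1947979098),
  Rx.mk (nat_lit 139) (nat_lit 3) (nat_lit 1) (nat_lit 2) (nat_lit 7) (nat_lit 426) (nat_lit 173) r7_426 r4_173 (nat_lit 0) (nat_lit 0) (nat_lit 0) (nat_lit 0x2026fc885e) (nat_lit 2106733598)]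
noncomputable def e25_52 : List Rx := [
  Rx.mk (nat_lit 40) (nat_lit 0) (nat_lit 5) (nat_lit 0) (nat_lit 2) (nat_lit 444) (nat_lit 184) r7_444 r5_184 (nat_lit 252916038) (nat_lit 0) (nat_lit 9778492) (nat_lit 0x1d1464a12a) (nat_lit 3225071628),
  Rx.mk (nat_lit 43) (nat_lit 3) (nat_lit 5) (nat_lit 0) (nat_lit 3) (nat_lit 446) (nat_lit 186) r7_446 r5_186 (nat_lit 0) (nat_lit 0) (nat_lit 27762807) (nat_lit 0x1fcba4fb58) (nat_lit 2232881655),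
  Rx.mk (nat_lit 104) (nat_lit 0) (nat_lit 5) (nat_lit 1) (nat_lit 6) (nat_lit 445) (nat_lit 185) r7_445 r5_185 (nat_lit 39267561) (nat_lit 0) (nat_lit 0) (nat_lit 0x2011d074a4) (nat_lit 2168648009),
  Rx.mk (nat_lit 107) (nat_lit 3) (nat_lit 5) (nat_lit 1) (nat_lit 7) (nat_lit 447) (nat_lit 187) r7_447 r5_187 (nat_lit 0) (nat_lit 0) (nat_lit 0) (nat_lit 0x204b3d1260) (nat_lit 2068186448),
  Rx.mk (nat_lit 235) (nat_lit 3) (nat_lit 5) (nat_lit 3) (nat_lit 7) (nat_lit 448) (nat_lit 188) r7_448 r5_188 (nat_lit 0) (nat_lit 0) (nat_lit 0) (nat_lit 0x1fab898f46) (nat_lit 2240089898)]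
noncomputable def e25_53 : List Rx := [
  Rx.mk (nat_lit 40) (nat_lit 0) (nat_lit 5) (nat_lit 0) (nat_lit 2) (nat_lit 416) (nat_lit 265) r7_416 r4_265 (nat_lit 62737068) (nat_lit 0) (nat_lit 34044114) (nat_lit 0x1cc30aedd4) (nat_lit 3147862730),
  Rx.mk (nat_lit 41) (nat_lit 1) (nat_lit 5) (nat_lit 0) (nat_lit 3) (nat_lit 418) (nat_lit 266) r7_418 r4_266 (nat_lit 0) (nat_lit 0) (nat_lit 39267561) (nat_lit 0x2000efab8c) (nat_lit 2186751209),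
  Rx.mk (nat_lit 43) (nat_lit 3) (nat_lit 5) (nat_lit 0) (nat_lit 3) (nat_lit 420) (nat_lit 267) r7_420 r4_267 (nat_lit 0) (nat_lit 0) (nat_lit 26162412) (nat_lit 0x2009bf166c) (nat_lit 2164172060),
  Rx.mk (nat_lit 104) (nat_lit 0) (nat_lit 5) (nat_lit 1) (nat_lit 6) (nat_lit 417) (nat_lit 268) r7_417 r4_268 (nat_lit 35717356) (nat_lit 0) (nat_lit 0) (nat_lit 0x1ff8a3b8e2) (nat_lit 2192124454),
  Rx.mk (nat_lit 105) (nat_lit 1) (nat_lit 5) (nat_lit 1) (nat_lit 7) (nat_lit 419) (nat_lit 269) r7_419 r4_269 (nat_lit 0) (nat_lit 0) (nat_lit 0) (nat_lit 0x2000efab8c) (nat_lit 2147483648),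
  Rx.mk (nat_lit 107) (nat_lit 3) (nat_lit 5) (nat_lit 1) (nat_lit 7) (nat_lit 421) (nat_lit 270) r7_421 r4_270 (nat_lit 0) (nat_lit 0) (nat_lit 0) (nat_lit 0x2000efab8c) (nat_lit 2147483648)]
noncomputable def e25_54 : List Rx := [
  Rx.mk (nat_lit 11) (nat_lit 3) (nat_lit 1) (nat_lit 0) (nat_lit 3) (nat_lit 431) (nat_lit 188) r7_431 r10_188 (nat_lit 0) (nat_lit 0) (nat_lit 53854856) (nat_lit 0x1ff6037a00) (nat_lit 2213104004),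
  Rx.mk (nat_lit 40) (nat_lit 0) (nat_lit 5) (nat_lit 0) (nat_lit 2) (nat_lit 433) (nat_lit 183) r7_433 r10_183 (nat_lit 4952524) (nat_lit 0) (nat_lit 12079934) (nat_lit 0x1c6682ce4c) (nat_lit 3168808706),
  Rx.mk (nat_lit 41) (nat_lit 1) (nat_lit 5) (nat_lit 0) (nat_lit 3) (nat_lit 435) (nat_lit 185) r7_435 r10_185 (nat_lit 0) (nat_lit 0) (nat_lit 13707378) (nat_lit 0x200280ed94) (nat_lit 2159443526),
  Rx.mk (nat_lit 43) (nat_lit 3) (nat_lit 5) (nat_lit 0) (nat_lit 3) (nat_lit 437) (nat_lit 187) r7_437 r10_187 (nat_lit 0) (nat_lit 0) (nat_lit 30193305) (nat_lit 0x1ff5267ed4) (nat_lit 2190327253),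
  Rx.mk (nat_lit 75) (nat_lit 3) (nat_lit 1) (nat_lit 1) (nat_lit 7) (nat_lit 432) (nat_lit 190) r7_432 r10_190 (nat_lit 0) (nat_lit 0) (nat_lit 0) (nat_lit 0x2000efab8c) (nat_lit 2147483648),
  Rx.mk (nat_lit 104) (nat_lit 0) (nat_lit 5) (nat_lit 1) (nat_lit 6) (nat_lit 434) (nat_lit 184) r7_434 r10_184 (nat_lit 13452800) (nat_lit 0) (nat_lit 0) (nat_lit 0x1f8278d88c) (nat_lit 2298221048),
  Rx.mk (nat_lit 105) (nat_lit 1) (nat_lit 5) (nat_lit 1) (nat_lit 7) (nat_lit 436) (nat_lit 186) r7_436 r10_186 (nat_lit 0) (nat_lit 0) (nat_lit 0) (nat_lit 0x201a60a472) (nat_lit 2120226698),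
  Rx.mk (nat_lit 107) (nat_lit 3) (nat_lit 5) (nat_lit 1) (nat_lit 7) (nat_lit 438) (nat_lit 189) r7_438 r10_189 (nat_lit 0) (nat_lit 0) (nat_lit 0) (nat_lit 0x201a60a472) (nat_lit 2120226698)]
noncomputable def e25_55 : List Rx := [
  Rx.mk (nat_lit 40) (nat_lit 0) (nat_lit 5) (nat_lit 0) (nat_lit 2) (nat_lit 449) (nat_lit 212) r7_449 r11_212 (nat_lit 452164224) (nat_lit 0) (nat_lit 49199921) (nat_lit 0x1de67e208c) (nat_lit 3234966993),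
  Rx.mk (nat_lit 41) (nat_lit 1) (nat_lit 5) (nat_lit 0) (nat_lit 3) (nat_lit 451) (nat_lit 214) r7_451 r11_214 (nat_lit 0) (nat_lit 0) (nat_lit 39267561) (nat_lit 0x2000efab8c) (nat_lit 2186751209),
  Rx.mk (nat_lit 43) (nat_lit 3) (nat_lit 5) (nat_lit 0) (nat_lit 3) (nat_lit 453) (nat_lit 216) r7_453 r11_216 (nat_lit 0) (nat_lit 0) (nat_lit 30096094) (nat_lit 0x200b64c638) (nat_lit 2166350942),
  Rx.mk (nat_lit 104) (nat_lit 0) (nat_lit 5) (nat_lit 1) (nat_lit 6) (nat_lit 450) (nat_lit 213) r7_450 r11_213 (nat_lit 39267561) (nat_lit 0) (nat_lit 0) (nat_lit 0x2000efab8c) (nat_lit 2186751209),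
  Rx.mk (nat_lit 105) (nat_lit 1) (nat_lit 5) (nat_lit 1) (nat_lit 7) (nat_lit 452) (nat_lit 215) r7_452 r11_215 (nat_lit 0) (nat_lit 0) (nat_lit 0) (nat_lit 0x2000efab8c) (nat_lit 2147483648),
  Rx.mk (nat_lit 107) (nat_lit 3) (nat_lit 5) (nat_lit 1) (nat_lit 7) (nat_lit 454) (nat_lit 217) r7_454 r11_217 (nat_lit 0) (nat_lit 0) (nat_lit 0) (nat_lit 0x2000efab8c) (nat_lit 2147483648),
  Rx.mk (nat_lit 235) (nat_lit 3) (nat_lit 5) (nat_lit 3) (nat_lit 7) (nat_lit 455) (nat_lit 218) r7_455 r11_218 (nat_lit 0) (nat_lit 0) (nat_lit 0) (nat_lit 0x2000efab8c) (nat_lit 2147483648)]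
noncomputable def e25_56 : List Rx := [
  Rx.mk (nat_lit 43) (nat_lit 3) (nat_lit 5) (nat_lit 0) (nat_lit 3) (nat_lit 422) (nat_lit 256) r7_422 r5_256 (nat_lit 0) (nat_lit 0) (nat_lit 3251367) (nat_lit 0x1d3435a2ba) (nat_lit 2930865065),
  Rx.mk (nat_lit 107) (nat_lit 3) (nat_lit 5) (nat_lit 1) (nat_lit 7) (nat_lit 423) (nat_lit 257) r7_423 r5_257 (nat_lit 0) (nat_lit 0) (nat_lit 0) (nat_lit 0x1ff6e38154) (nat_lit 2158169848)]
noncomputable def e25_57 : List Rx := [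
  Rx.mk (nat_lit 11) (nat_lit 3) (nat_lit 1) (nat_lit 0) (nat_lit 3) (nat_lit 439) (nat_lit 303) r7_439 r11_303 (nat_lit 0) (nat_lit 0) (nat_lit 11918404) (nat_lit 0x20aa08332e) (nat_lit 1979381802),
  Rx.mk (nat_lit 43) (nat_lit 3) (nat_lit 5) (nat_lit 0) (nat_lit 3) (nat_lit 442) (nat_lit 306) r7_442 r11_306 (nat_lit 0) (nat_lit 0) (nat_lit 7912812) (nat_lit 0x1fff5c5bb2) (nat_lit 2157063510),
  Rx.mk (nat_lit 75) (nat_lit 3) (nat_lit 1) (nat_lit 1) (nat_lit 7) (nat_lit 440) (nat_lit 304) r7_440 r11_304 (nat_lit 0) (nat_lit 0) (nat_lit 0) (nat_lit 0x205ecc09d0) (nat_lit 2047393448),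
  Rx.mk (nat_lit 107) (nat_lit 3) (nat_lit 5) (nat_lit 1) (nat_lit 7) (nat_lit 443) (nat_lit 307) r7_443 r11_307 (nat_lit 0) (nat_lit 0) (nat_lit 0) (nat_lit 0x204cffe834) (nat_lit 2066325548),
  Rx.mk (nat_lit 139) (nat_lit 3) (nat_lit 1) (nat_lit 2) (nat_lit 7) (nat_lit 441) (nat_lit 305) r7_441 r11_305 (nat_lit 0) (nat_lit 0) (nat_lit 0) (nat_lit 0x204faaf506) (nat_lit 2063467898)]
noncomputable def e25 : List (List Rx) := [e25_0, e25_1, e25_2, e25_3, e25_4, e25_5, e25_6, e25_7, e25_8, e25_9, e25_10, e25_11, e25_12, e25_13, e25_14, e25_15, e25_16, e25_17, e25_18, e25_19, e25_20, e25_21, e25_22, e25_23, e25_24, e25_25, e25_26, e25_27, e25_28, e25_29, e25_30, e25_31, e25_32, e25_33, e25_34, e25_35, e25_36, e25_37, e25_38, e25_39, e25_40, e25_41, e25_42, e25_43, e25_44, e25_45, e25_46, e25_47, e25_48, e25_49, e25_50, e25_51, e25_52, e25_53, e25_54, e25_55,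 e25_56, e25_57]
noncomputable def e26_0 : List Rx := [
  Rx.mk (nat_lit 108) (nat_lit 4) (nat_lit 5) (nat_lit 1) (nat_lit 6) (nat_lit 63) (nat_lit 185) r8_63 r0_185 (nat_lit 39970022) (nat_lit 0) (nat_lit 0) (nat_lit 0x1e21cd06d0) (nat_lit 2708909070),
  Rx.mk (nat_lit 364) (nat_lit 4) (nat_lit 5) (nat_lit 5) (nat_lit 6) (nat_lit 64) (nat_lit 186) r8_64 r0_186 (nat_lit 40854578) (nat_lit 0) (nat_lit 0) (nat_lit 0x1f671d7930) (nat_lit 2355441226),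
  Rx.mk (nat_lit 367) (nat_lit 7) (nat_lit 5) (nat_lit 5) (nat_lit 7) (nat_lit 65) (nat_lit 187) r8_65 r0_187 (nat_lit 0) (nat_lit 0) (nat_lit 0) (nat_lit 0x201a746ebc) (nat_lit 2120137948)]
noncomputable def e26_1 : List Rx := [
  Rx.mk (nat_lit 364) (nat_lit 4) (nat_lit 5) (nat_lit 5) (nat_lit 6) (nat_lit 66) (nat_lit 199) r8_66 r1_199 (nat_lit 54833726) (nat_lit 0) (nat_lit 0) (nat_lit 0x1fe95212b2) (nat_lit 2227810624),
  Rx.mk (nat_lit 367) (nat_lit 7) (nat_lit 5) (nat_lit 5) (nat_lit 7) (nat_lit 67) (nat_lit 200) r8_67 r1_200 (nat_lit 0) (nat_lit 0) (nat_lit 0) (nat_lit 0x2000efab8c) (nat_lit 2147483648)]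
noncomputable def e26_2 : List Rx := [
  Rx.mk (nat_lit 292) (nat_lit 4) (nat_lit 4) (nat_lit 4) (nat_lit 0) (nat_lit 25) (nat_lit 203) r8_25 r2_203 (nat_lit 11199588) (nat_lit 409480) (nat_lit 563988) (nat_lit 0x106f9c1094) (nat_lit 6500473804),
  Rx.mk (nat_lit 295) (nat_lit 7) (nat_lit 4) (nat_lit 4) (nat_lit 1) (nat_lit 27) (nat_lit 209) r8_27 r2_209 (nat_lit 0) (nat_lit 463224) (nat_lit 811008) (nat_lit 0x18c722b8c4) (nat_lit 4163094280),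
  Rx.mk (nat_lit 300) (nat_lit 4) (nat_lit 5) (nat_lit 4) (nat_lit 2) (nat_lit 30) (nat_lit 205) r8_30 r2_205 (nat_lit 105181742) (nat_lit 0) (nat_lit 49680933) (nat_lit 0x1ad2853f32) (nat_lit 3746880873),
  Rx.mk (nat_lit 303) (nat_lit 7) (nat_lit 5) (nat_lit 4) (nat_lit 3) (nat_lit 32) (nat_lit 212) r8_32 r2_212 (nat_lit 0) (nat_lit 0) (nat_lit 16041787) (nat_lit 0x2048c10ad2) (nat_lit 2086868285),
  Rx.mk (nat_lit 308) (nat_lit 4) (nat_lit 6) (nat_lit 4) (nat_lit 2) (nat_lit 35) (nat_lit 207) r8_35 r2_207 (nat_lit 31687861) (nat_lit 0) (nat_lit 19598011) (nat_lit 0x1c4f64ab18) (nat_lit 3228342920),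
  Rx.mk (nat_lit 310) (nat_lit 6) (nat_lit 6) (nat_lit 4) (nat_lit 3) (nat_lit 37) (nat_lit 218) r8_37 r2_218 (nat_lit 0) (nat_lit 0) (nat_lit 39267561) (nat_lit 0x2000efab8c) (nat_lit 2186751209),
  Rx.mk (nat_lit 311) (nat_lit 7) (nat_lit 6) (nat_lit 4) (nat_lit 3) (nat_lit 40) (nat_lit 216) r8_40 r2_216 (nat_lit 0) (nat_lit 0) (nat_lit 16041787) (nat_lit 0x2048c10ad2) (nat_lit 2086868285),
  Rx.mk (nat_lit 356) (nat_lit 4) (nat_lit 4) (nat_lit 5) (nat_lit 4) (nat_lit 26) (nat_lit 204) r8_26 r2_204 (nat_lit 26727303) (nat_lit 26727303) (nat_lit 0) (nat_lit 0x1901dec4da) (nat_lit 4151662204),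
  Rx.mk (nat_lit 359) (nat_lit 7) (nat_lit 4) (nat_lit 5) (nat_lit 5) (nat_lit 28) (nat_lit 210) r8_28 r2_210 (nat_lit 0) (nat_lit 18717822) (nat_lit 0) (nat_lit 0x202dc301d6) (nat_lit 2118269420),
  Rx.mk (nat_lit 364) (nat_lit 4) (nat_lit 5) (nat_lit 5) (nat_lit 6) (nat_lit 31) (nat_lit 206) r8_31 r2_206 (nat_lit 39267561) (nat_lit 0) (nat_lit 0) (nat_lit 0x2000efab8c) (nat_lit 2186751209),
  Rx.mk (nat_lit 367) (nat_lit 7) (nat_lit 5) (nat_lit 5) (nat_lit 7) (nat_lit 33) (nat_lit 213) r8_33 r2_213 (nat_lit 0) (nat_lit 0) (nat_lit 0) (nat_lit 0x2000efab8c) (nat_lit 2147483648),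
  Rx.mk (nat_lit 372) (nat_lit 4) (nat_lit 6) (nat_lit 5) (nat_lit 6) (nat_lit 36) (nat_lit 208) r8_36 r2_208 (nat_lit 39267561) (nat_lit 0) (nat_lit 0) (nat_lit 0x2000efab8c) (nat_lit 2186751209),
  Rx.mk (nat_lit 374) (nat_lit 6) (nat_lit 6) (nat_lit 5) (nat_lit 7) (nat_lit 38) (nat_lit 219) r8_38 r2_219 (nat_lit 0) (nat_lit 0) (nat_lit 0) (nat_lit 0x2000efab8c) (nat_lit 2147483648),
  Rx.mk (nat_lit 375) (nat_lit 7) (nat_lit 6) (nat_lit 5) (nat_lit 7) (nat_lit 41) (nat_lit 217) r8_41 r2_217 (nat_lit 0) (nat_lit 0) (nat_lit 0) (nat_lit 0x2000efab8c) (nat_lit 2147483648),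
  Rx.mk (nat_lit 438) (nat_lit 6) (nat_lit 6) (nat_lit 6) (nat_lit 7) (nat_lit 39) (nat_lit 220) r8_39 r2_220 (nat_lit 0) (nat_lit 0) (nat_lit 0) (nat_lit 0x2000efab8c) (nat_lit 2147483648),
  Rx.mk (nat_lit 487) (nat_lit 7) (nat_lit 4) (nat_lit 7) (nat_lit 5) (nat_lit 29) (nat_lit 211) r8_29 r2_211 (nat_lit 0) (nat_lit 18774916) (nat_lit 0) (nat_lit 0x202d9cc34a) (nat_lit 2118486314),
  Rx.mk (nat_lit 495) (nat_lit 7) (nat_lit 5) (nat_lit 7) (nat_lit 7) (nat_lit 34) (nat_lit 214) r8_34 r2_214 (nat_lit 0) (nat_lit 0) (nat_lit 0) (nat_lit 0x2000efab8c) (nat_lit 2147483648),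
  Rx.mk (nat_lit 511) (nat_lit 7) (nat_lit 7) (nat_lit 7) (nat_lit 7) (nat_lit 42) (nat_lit 215) r8_42 r2_215 (nat_lit 0) (nat_lit 0) (nat_lit 0) (nat_lit 0x2000efab8c) (nat_lit 2147483648)]
noncomputable def e26_3 : List Rx := [
  Rx.mk (nat_lit 108) (nat_lit 4) (nat_lit 5) (nat_lit 1) (nat_lit 6) (nat_lit 61) (nat_lit 171) r8_61 r3_171 (nat_lit 2008683) (nat_lit 0) (nat_lit 0) (nat_lit 0x1dad2c12da) (nat_lit 2797658481),
  Rx.mk (nat_lit 111) (nat_lit 7) (nat_lit 5) (nat_lit 1) (nat_lit 7) (nat_lit 62) (nat_lit 172) r8_62 r3_172 (nat_lit 0) (nat_lit 0) (nat_lit 0) (nat_lit 0x21791558fe) (nat_lit 1747567698)]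
noncomputable def e26_4 : List Rx := [
  Rx.mk (nat_lit 108) (nat_lit 4) (nat_lit 5) (nat_lit 1) (nat_lit 6) (nat_lit 68) (nat_lit 174) r8_68 r4_174 (nat_lit 26988162) (nat_lit 0) (nat_lit 0) (nat_lit 0x2010fdb6ea) (nat_lit 2157249060),
  Rx.mk (nat_lit 111) (nat_lit 7) (nat_lit 5) (nat_lit 1) (nat_lit 7) (nat_lit 69) (nat_lit 175) r8_69 r4_175 (nat_lit 0) (nat_lit 0) (nat_lit 0) (nat_lit 0x202885ec6a) (nat_lit 2105134598),
  Rx.mk (nat_lit 367) (nat_lit 7) (nat_lit 5) (nat_lit 5) (nat_lit 7) (nat_lit 70) (nat_lit 176) r8_70 r4_176 (nat_lit 0) (nat_lit 0) (nat_lit 0) (nat_lit 0x200af89148) (nat_lit 2136704548)]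
noncomputable def e26_5 : List Rx := [
  Rx.mk (nat_lit 108) (nat_lit 4) (nat_lit 5) (nat_lit 1) (nat_lit 6) (nat_lit 74) (nat_lit 189) r8_74 r5_189 (nat_lit 30412241) (nat_lit 0) (nat_lit 0) (nat_lit 0x200b7348de) (nat_lit 2166609639),
  Rx.mk (nat_lit 111) (nat_lit 7) (nat_lit 5) (nat_lit 1) (nat_lit 7) (nat_lit 75) (nat_lit 190) r8_75 r5_190 (nat_lit 0) (nat_lit 0) (nat_lit 0) (nat_lit 0x201b1570a0) (nat_lit 2119467948)]
noncomputable def e26_6 : List Rx := [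
  Rx.mk (nat_lit 231) (nat_lit 7) (nat_lit 4) (nat_lit 3) (nat_lit 5) (nat_lit 43) (nat_lit 115) r8_43 r3_115 (nat_lit 0) (nat_lit 761558) (nat_lit 0) (nat_lit 0x200a551720) (nat_lit 2137493506),
  Rx.mk (nat_lit 239) (nat_lit 7) (nat_lit 5) (nat_lit 3) (nat_lit 7) (nat_lit 44) (nat_lit 116) r8_44 r3_116 (nat_lit 0) (nat_lit 0) (nat_lit 0) (nat_lit 0x20f4583910) (nat_lit 1888546948),
  Rx.mk (nat_lit 251) (nat_lit 3) (nat_lit 7) (nat_lit 3) (nat_lit 7) (nat_lit 45) (nat_lit 118) r8_45 r3_118 (nat_lit 0) (nat_lit 0) (nat_lit 0) (nat_lit 0x1f5784acdc) (nat_lit 2331580948),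
  Rx.mk (nat_lit 255) (nat_lit 7) (nat_lit 7) (nat_lit 3) (nat_lit 7) (nat_lit 46) (nat_lit 117) r8_46 r3_117 (nat_lit 0) (nat_lit 0) (nat_lit 0) (nat_lit 0x1fbf564442) (nat_lit 2218560898)]
noncomputable def e26_7 : List Rx := [
  Rx.mk (nat_lit 251) (nat_lit 3) (nat_lit 7) (nat_lit 3) (nat_lit 7) (nat_lit 12) (nat_lit 132) r8_12 r0_132 (nat_lit 0) (nat_lit 0) (nat_lit 0) (nat_lit 0x2000efab8c) (nat_lit 2147483648),
  Rx.mk (nat_lit 255) (nat_lit 7) (nat_lit 7) (nat_lit 3) (nat_lit 7) (nat_lit 13) (nat_lit 131) r8_13 r0_131 (nat_lit 0) (nat_lit 0) (nat_lit 0) (nat_lit 0x2000efab8c) (nat_lit 2147483648),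
  Rx.mk (nat_lit 292) (nat_lit 4) (nat_lit 4) (nat_lit 4) (nat_lit 0) (nat_lit 0) (nat_lit 124) r8_0 r0_124 (nat_lit 472505440) (nat_lit 558198) (nat_lit 699134) (nat_lit 0x11858be2f2) (nat_lit 6659296570),
  Rx.mk (nat_lit 300) (nat_lit 4) (nat_lit 5) (nat_lit 4) (nat_lit 2) (nat_lit 3) (nat_lit 127) r8_3 r0_127 (nat_lit 457670761) (nat_lit 0) (nat_lit 44295479) (nat_lit 0x1a99669872) (nat_lit 4156204838),
  Rx.mk (nat_lit 308) (nat_lit 4) (nat_lit 6) (nat_lit 4) (nat_lit 2) (nat_lit 6) (nat_lit 133) r8_6 r0_133 (nat_lit 74617973) (nat_lit 0) (nat_lit 16203895) (nat_lit 0x19b544d8a2) (nat_lit 3993550566),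
  Rx.mk (nat_lit 310) (nat_lit 6) (nat_lit 6) (nat_lit 4) (nat_lit 3) (nat_lit 8) (nat_lit 136) r8_8 r0_136 (nat_lit 0) (nat_lit 0) (nat_lit 50768653) (nat_lit 0x1e85aaedac) (nat_lit 2610948001),
  Rx.mk (nat_lit 438) (nat_lit 6) (nat_lit 6) (nat_lit 6) (nat_lit 7) (nat_lit 9) (nat_lit 138) r8_9 r0_138 (nat_lit 0) (nat_lit 0) (nat_lit 0) (nat_lit 0x2000efab8c) (nat_lit 2147483648),
  Rx.mk (nat_lit 484) (nat_lit 4) (nat_lit 4) (nat_lit 7) (nat_lit 4) (nat_lit 1) (nat_lit 125) r8_1 r0_125 (nat_lit 164641045) (nat_lit 12348484) (nat_lit 0) (nat_lit 0x199e5ea924) (nat_lit 4104668277),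
  Rx.mk (nat_lit 487) (nat_lit 7) (nat_lit 4) (nat_lit 7) (nat_lit 5) (nat_lit 2) (nat_lit 126) r8_2 r0_126 (nat_lit 0) (nat_lit 23182194) (nat_lit 0) (nat_lit 0x1d95408368) (nat_lit 2845270342),
  Rx.mk (nat_lit 492) (nat_lit 4) (nat_lit 5) (nat_lit 7) (nat_lit 6) (nat_lit 4) (nat_lit 128) r8_4 r0_128 (nat_lit 71617622) (nat_lit 0) (nat_lit 0) (nat_lit 0x1fec814016) (nat_lit 2241141020),
  Rx.mk (nat_lit 495) (nat_lit 7) (nat_lit 5) (nat_lit 7) (nat_lit 7) (nat_lit 5) (nat_lit 129) r8_5 r0_129 (nat_lit 0) (nat_lit 0) (nat_lit 0) (nat_lit 0x1ff599fc9c) (nat_lit 2159689948),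
  Rx.mk (nat_lit 500) (nat_lit 4) (nat_lit 6) (nat_lit 7) (nat_lit 6) (nat_lit 7) (nat_lit 134) r8_7 r0_134 (nat_lit 158877595) (nat_lit 0) (nat_lit 0) (nat_lit 0x1fd910c394) (nat_lit 2349483443),
  Rx.mk (nat_lit 502) (nat_lit 6) (nat_lit 6) (nat_lit 7) (nat_lit 7) (nat_lit 10) (nat_lit 137) r8_10 r0_137 (nat_lit 0) (nat_lit 0) (nat_lit 0) (nat_lit 0x2000efab8c) (nat_lit 2147483648),
  Rx.mk (nat_lit 503) (nat_lit 7) (nat_lit 6) (nat_lit 7) (nat_lit 7) (nat_lit 11) (nat_lit 135) r8_11 r0_135 (nat_lit 0) (nat_lit 0) (nat_lit 0) (nat_lit 0x1fffb6e1b8) (nat_lit 2148787748),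
  Rx.mk (nat_lit 511) (nat_lit 7) (nat_lit 7) (nat_lit 7) (nat_lit 7) (nat_lit 14) (nat_lit 130) r8_14 r0_130 (nat_lit 0) (nat_lit 0) (nat_lit 0) (nat_lit 0x1fe8b50378) (nat_lit 2173652748)]
noncomputable def e26_8 : List Rx := [
  Rx.mk (nat_lit 292) (nat_lit 4) (nat_lit 4) (nat_lit 4) (nat_lit 0) (nat_lit 15) (nat_lit 131) r8_15 r1_131 (nat_lit 327860633) (nat_lit 33643597) (nat_lit 25335672) (nat_lit 0x156bc9d33e) (nat_lit 5485228700),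
  Rx.mk (nat_lit 300) (nat_lit 4) (nat_lit 5) (nat_lit 4) (nat_lit 2) (nat_lit 18) (nat_lit 134) r8_18 r1_134 (nat_lit 562708984) (nat_lit 0) (nat_lit 50846040) (nat_lit 0x1defbe60d0) (nat_lit 3337053872),
  Rx.mk (nat_lit 308) (nat_lit 4) (nat_lit 6) (nat_lit 4) (nat_lit 2) (nat_lit 21) (nat_lit 138) r8_21 r1_138 (nat_lit 421922006) (nat_lit 0) (nat_lit 44461134) (nat_lit 0x1e3a8d8f1e) (nat_lit 3108379638),
  Rx.mk (nat_lit 310) (nat_lit 6) (nat_lit 6) (nat_lit 4) (nat_lit 3) (nat_lit 22) (nat_lit 139) r8_22 r1_139 (nat_lit 0) (nat_lit 0) (nat_lit 32055572) (nat_lit 0x1fed6dc972) (nat_lit 2200580170),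
  Rx.mk (nat_lit 438) (nat_lit 6) (nat_lit 6) (nat_lit 6) (nat_lit 7) (nat_lit 23) (nat_lit 140) r8_23 r1_140 (nat_lit 0) (nat_lit 0) (nat_lit 0) (nat_lit 0x2000efab8c) (nat_lit 2147483648),
  Rx.mk (nat_lit 484) (nat_lit 4) (nat_lit 4) (nat_lit 7) (nat_lit 4) (nat_lit 16) (nat_lit 132) r8_16 r1_132 (nat_lit 221342276) (nat_lit 221342276) (nat_lit 0) (nat_lit 0x1d7611f760) (nat_lit 3298763200),
  Rx.mk (nat_lit 487) (nat_lit 7) (nat_lit 4) (nat_lit 7) (nat_lit 5) (nat_lit 17) (nat_lit 133) r8_17 r1_133 (nat_lit 0) (nat_lit 58103393) (nat_lit 0) (nat_lit 0x1fcdbf9e0c) (nat_lit 2261011041),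
  Rx.mk (nat_lit 492) (nat_lit 4) (nat_lit 5) (nat_lit 7) (nat_lit 6) (nat_lit 19) (nat_lit 135) r8_19 r1_135 (nat_lit 39267561) (nat_lit 0) (nat_lit 0) (nat_lit 0x2000efab8c) (nat_lit 2186751209),
  Rx.mk (nat_lit 495) (nat_lit 7) (nat_lit 5) (nat_lit 7) (nat_lit 7) (nat_lit 20) (nat_lit 136) r8_20 r1_136 (nat_lit 0) (nat_lit 0) (nat_lit 0) (nat_lit 0x2000efab8c) (nat_lit 2147483648),
  Rx.mk (nat_lit 511) (nat_lit 7) (nat_lit 7) (nat_lit 7) (nat_lit 7) (nat_lit 24) (nat_lit 137) r8_24 r1_137 (nat_lit 0) (nat_lit 0) (nat_lit 0) (nat_lit 0x2000efab8c) (nat_lit 2147483648)]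
noncomputable def e26_9 : List Rx := [
  Rx.mk (nat_lit 231) (nat_lit 7) (nat_lit 4) (nat_lit 3) (nat_lit 5) (nat_lit 48) (nat_lit 116) r8_48 r4_116 (nat_lit 0) (nat_lit 24441886) (nat_lit 0) (nat_lit 0x20164ff054) (nat_lit 2149008934),
  Rx.mk (nat_lit 239) (nat_lit 7) (nat_lit 5) (nat_lit 3) (nat_lit 7) (nat_lit 51) (nat_lit 119) r8_51 r4_119 (nat_lit 0) (nat_lit 0) (nat_lit 0) (nat_lit 0x2000efab8c) (nat_lit 2147483648),
  Rx.mk (nat_lit 251) (nat_lit 3) (nat_lit 7) (nat_lit 3) (nat_lit 7) (nat_lit 56) (nat_lit 121) r8_56 r4_121 (nat_lit 0) (nat_lit 0) (nat_lit 0) (nat_lit 0x2000efab8c) (nat_lit 2147483648),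
  Rx.mk (nat_lit 255) (nat_lit 7) (nat_lit 7) (nat_lit 3) (nat_lit 7) (nat_lit 57) (nat_lit 120) r8_57 r4_120 (nat_lit 0) (nat_lit 0) (nat_lit 0) (nat_lit 0x2000efab8c) (nat_lit 2147483648),
  Rx.mk (nat_lit 484) (nat_lit 4) (nat_lit 4) (nat_lit 7) (nat_lit 4) (nat_lit 47) (nat_lit 114) r8_47 r4_114 (nat_lit 169341143) (nat_lit 24233093) (nat_lit 0) (nat_lit 0x1c19fb9a9a) (nat_lit 3428832434),
  Rx.mk (nat_lit 487) (nat_lit 7) (nat_lit 4) (nat_lit 7) (nat_lit 5) (nat_lit 49) (nat_lit 115) r8_49 r4_115 (nat_lit 0) (nat_lit 20356374) (nat_lit 0) (nat_lit 0x1feba633ea) (nat_lit 2190772272),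
  Rx.mk (nat_lit 492) (nat_lit 4) (nat_lit 5) (nat_lit 7) (nat_lit 6) (nat_lit 50) (nat_lit 117) r8_50 r4_117 (nat_lit 39267561) (nat_lit 0) (nat_lit 0) (nat_lit 0x200dd2b574) (nat_lit 2172930209),
  Rx.mk (nat_lit 495) (nat_lit 7) (nat_lit 5) (nat_lit 7) (nat_lit 7) (nat_lit 52) (nat_lit 118) r8_52 r4_118 (nat_lit 0) (nat_lit 0) (nat_lit 0) (nat_lit 0x20266813b8) (nat_lit 2107390848),
  Rx.mk (nat_lit 500) (nat_lit 4) (nat_lit 6) (nat_lit 7) (nat_lit 6) (nat_lit 53) (nat_lit 122) r8_53 r4_122 (nat_lit 39267561) (nat_lit 0) (nat_lit 0) (nat_lit 0x200dd2b574) (nat_lit 2172930209),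
  Rx.mk (nat_lit 502) (nat_lit 6) (nat_lit 6) (nat_lit 7) (nat_lit 7) (nat_lit 54) (nat_lit 124) r8_54 r4_124 (nat_lit 0) (nat_lit 0) (nat_lit 0) (nat_lit 0x2000efab8c) (nat_lit 2147483648),
  Rx.mk (nat_lit 503) (nat_lit 7) (nat_lit 6) (nat_lit 7) (nat_lit 7) (nat_lit 55) (nat_lit 123) r8_55 r4_123 (nat_lit 0) (nat_lit 0) (nat_lit 0) (nat_lit 0x20266813b8) (nat_lit 2107390848)]
noncomputable def e26_10 : List Rx := [
  Rx.mk (nat_lit 47) (nat_lit 7) (nat_lit 5) (nat_lit 0) (nat_lit 3) (nat_lit 71) (nat_lit 203) r8_71 r6_203 (nat_lit 0) (nat_lit 0) (nat_lit 13558047) (nat_lit 0x2028d5bcfe) (nat_lit 2118348245),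
  Rx.mk (nat_lit 111) (nat_lit 7) (nat_lit 5) (nat_lit 1) (nat_lit 7) (nat_lit 72) (nat_lit 204) r8_72 r6_204 (nat_lit 0) (nat_lit 0) (nat_lit 0) (nat_lit 0x20219ab8ea) (nat_lit 2112508498),
  Rx.mk (nat_lit 239) (nat_lit 7) (nat_lit 5) (nat_lit 3) (nat_lit 7) (nat_lit 73) (nat_lit 205) r8_73 r6_205 (nat_lit 0) (nat_lit 0) (nat_lit 0) (nat_lit 0x20322bb560) (nat_lit 2094853748)]
noncomputable def e26_11 : List Rx := [
  Rx.mk (nat_lit 231) (nat_lit 7) (nat_lit 4) (nat_lit 3) (nat_lit 5) (nat_lit 58) (nat_lit 115) r8_58 r5_115 (nat_lit 0) (nat_lit 16622719) (nat_lit 0) (nat_lit 0x20404a0c96) (nat_lit 2096452017),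
  Rx.mk (nat_lit 239) (nat_lit 7) (nat_lit 5) (nat_lit 3) (nat_lit 7) (nat_lit 59) (nat_lit 116) r8_59 r5_116 (nat_lit 0) (nat_lit 0) (nat_lit 0) (nat_lit 0x201c9555d0) (nat_lit 2117865048),
  Rx.mk (nat_lit 255) (nat_lit 7) (nat_lit 7) (nat_lit 3) (nat_lit 7) (nat_lit 60) (nat_lit 117) r8_60 r5_117 (nat_lit 0) (nat_lit 0) (nat_lit 0) (nat_lit 0x2000efab8c) (nat_lit 2147483648)]
noncomputable def e26_12 : List Rx := [
  Rx.mk (nat_lit 108) (nat_lit 4) (nat_lit 5) (nat_lit 1) (nat_lit 6) (nat_lit 178) (nat_lit 289) r8_178 r0_289 (nat_lit 56859670) (nat_lit 0) (nat_lit 0) (nat_lit 0x1ce3b5aac4) (nat_lit 3072366618),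
  Rx.mk (nat_lit 109) (nat_lit 5) (nat_lit 5) (nat_lit 1) (nat_lit 7) (nat_lit 179) (nat_lit 290) r8_179 r0_290 (nat_lit 0) (nat_lit 0) (nat_lit 0) (nat_lit 0x1fdef748c8) (nat_lit 2184202448)]
noncomputable def e26_13 : List Rx := [
  Rx.mk (nat_lit 108) (nat_lit 4) (nat_lit 5) (nat_lit 1) (nat_lit 6) (nat_lit 184) (nat_lit 241) r8_184 r7_241 (nat_lit 19673153) (nat_lit 0) (nat_lit 0) (nat_lit 0x1f8bf49b1c) (nat_lit 2294173401),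
  Rx.mk (nat_lit 109) (nat_lit 5) (nat_lit 5) (nat_lit 1) (nat_lit 7) (nat_lit 186) (nat_lit 243) r8_186 r7_243 (nat_lit 0) (nat_lit 0) (nat_lit 0) (nat_lit 0x201b34a65a) (nat_lit 2119343898),
  Rx.mk (nat_lit 364) (nat_lit 4) (nat_lit 5) (nat_lit 5) (nat_lit 6) (nat_lit 185) (nat_lit 242) r8_185 r7_242 (nat_lit 42780042) (nat_lit 0) (nat_lit 0) (nat_lit 0x1e3e97900a) (nat_lit 2680398140),
  Rx.mk (nat_lit 365) (nat_lit 5) (nat_lit 5) (nat_lit 5) (nat_lit 7) (nat_lit 187) (nat_lit 244) r8_187 r7_244 (nat_lit 0) (nat_lit 0) (nat_lit 0) (nat_lit 0x2000efab8c) (nat_lit 2147483648),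
  Rx.mk (nat_lit 367) (nat_lit 7) (nat_lit 5) (nat_lit 5) (nat_lit 7) (nat_lit 188) (nat_lit 245) r8_188 r7_245 (nat_lit 0) (nat_lit 0) (nat_lit 0) (nat_lit 0x2000efab8c) (nat_lit 2147483648)]
noncomputable def e26_14 : List Rx := [
  Rx.mk (nat_lit 109) (nat_lit 5) (nat_lit 5) (nat_lit 1) (nat_lit 7) (nat_lit 180) (nat_lit 286) r8_180 r1_286 (nat_lit 0) (nat_lit 0) (nat_lit 0) (nat_lit 0x2000efab8c) (nat_lit 2147483648)]
noncomputable def e26_15 : List Rx := [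
  Rx.mk (nat_lit 109) (nat_lit 5) (nat_lit 5) (nat_lit 1) (nat_lit 7) (nat_lit 189) (nat_lit 189) r8_189 r8_189 (nat_lit 0) (nat_lit 0) (nat_lit 0) (nat_lit 0x2000efab8c) (nat_lit 2147483648),
  Rx.mk (nat_lit 365) (nat_lit 5) (nat_lit 5) (nat_lit 5) (nat_lit 7) (nat_lit 190) (nat_lit 190) r8_190 r8_190 (nat_lit 0) (nat_lit 0) (nat_lit 0) (nat_lit 0x2000efab8c) (nat_lit 2147483648)]
noncomputable def e26_16 : List Rx := [
  Rx.mk (nat_lit 364) (nat_lit 4) (nat_lit 5) (nat_lit 5) (nat_lit 6) (nat_lit 191) (nat_lit 323) r8_191 r8_323 (nat_lit 39267561) (nat_lit 0) (nat_lit 0) (nat_lit 0x2000efab8c) (nat_lit 2186751209),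
  Rx.mk (nat_lit 365) (nat_lit 5) (nat_lit 5) (nat_lit 5) (nat_lit 7) (nat_lit 192) (nat_lit 324) r8_192 r8_324 (nat_lit 0) (nat_lit 0) (nat_lit 0) (nat_lit 0x2000efab8c) (nat_lit 2147483648),
  Rx.mk (nat_lit 367) (nat_lit 7) (nat_lit 5) (nat_lit 5) (nat_lit 7) (nat_lit 193) (nat_lit 325) r8_193 r8_325 (nat_lit 0) (nat_lit 0) (nat_lit 0) (nat_lit 0x2000efab8c) (nat_lit 2147483648)]
noncomputable def e26_17 : List Rx := [
  Rx.mk (nat_lit 292) (nat_lit 4) (nat_lit 4) (nat_lit 4) (nat_lit 0) (nat_lit 159) (nat_lit 183) r8_159 r9_183 (nat_lit 43751379) (nat_lit 17775076) (nat_lit 18329467) (nat_lit 0x126b7f3d0e) (nat_lit 6015222620),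
  Rx.mk (nat_lit 295) (nat_lit 7) (nat_lit 4) (nat_lit 4) (nat_lit 1) (nat_lit 162) (nat_lit 192) r8_162 r9_192 (nat_lit 0) (nat_lit 41792069) (nat_lit 46162637) (nat_lit 0x1cf3193c42) (nat_lit 3086711804),
  Rx.mk (nat_lit 300) (nat_lit 4) (nat_lit 5) (nat_lit 4) (nat_lit 2) (nat_lit 165) (nat_lit 185) r8_165 r9_185 (nat_lit 99535248) (nat_lit 0) (nat_lit 161055423) (nat_lit 0x1dd12e9a18) (nat_lit 3017390519),
  Rx.mk (nat_lit 303) (nat_lit 7) (nat_lit 5) (nat_lit 4) (nat_lit 3) (nat_lit 168) (nat_lit 195) r8_168 r9_195 (nat_lit 0) (nat_lit 0) (nat_lit 39267561) (nat_lit 0x2000efab8c) (nat_lit 2186751209),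
  Rx.mk (nat_lit 308) (nat_lit 4) (nat_lit 6) (nat_lit 4) (nat_lit 2) (nat_lit 171) (nat_lit 187) r8_171 r9_187 (nat_lit 83951218) (nat_lit 0) (nat_lit 83951218) (nat_lit 0x1df20dcccc) (nat_lit 2888920384),
  Rx.mk (nat_lit 310) (nat_lit 6) (nat_lit 6) (nat_lit 4) (nat_lit 3) (nat_lit 174) (nat_lit 199) r8_174 r9_199 (nat_lit 0) (nat_lit 0) (nat_lit 39267561) (nat_lit 0x2000efab8c) (nat_lit 2186751209),
  Rx.mk (nat_lit 356) (nat_lit 4) (nat_lit 4) (nat_lit 5) (nat_lit 4) (nat_lit 160) (nat_lit 184) r8_160 r9_184 (nat_lit 73973394) (nat_lit 64269240) (nat_lit 0) (nat_lit 0x1b9bf02dc8) (nat_lit 3510825782),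
  Rx.mk (nat_lit 357) (nat_lit 5) (nat_lit 4) (nat_lit 5) (nat_lit 5) (nat_lit 161) (nat_lit 189) r8_161 r9_189 (nat_lit 0) (nat_lit 39267561) (nat_lit 0) (nat_lit 0x2000efab8c) (nat_lit 2186751209),
  Rx.mk (nat_lit 359) (nat_lit 7) (nat_lit 4) (nat_lit 5) (nat_lit 5) (nat_lit 163) (nat_lit 193) r8_163 r9_193 (nat_lit 0) (nat_lit 39267561) (nat_lit 0) (nat_lit 0x2000efab8c) (nat_lit 2186751209),
  Rx.mk (nat_lit 364) (nat_lit 4) (nat_lit 5) (nat_lit 5) (nat_lit 6) (nat_lit 166) (nat_lit 186) r8_166 r9_186 (nat_lit 39267561) (nat_lit 0) (nat_lit 0) (nat_lit 0x2000efab8c) (nat_lit 2186751209),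
  Rx.mk (nat_lit 365) (nat_lit 5) (nat_lit 5) (nat_lit 5) (nat_lit 7) (nat_lit 167) (nat_lit 190) r8_167 r9_190 (nat_lit 0) (nat_lit 0) (nat_lit 0) (nat_lit 0x2000efab8c) (nat_lit 2147483648),
  Rx.mk (nat_lit 367) (nat_lit 7) (nat_lit 5) (nat_lit 5) (nat_lit 7) (nat_lit 169) (nat_lit 196) r8_169 r9_196 (nat_lit 0) (nat_lit 0) (nat_lit 0) (nat_lit 0x2000efab8c) (nat_lit 2147483648),
  Rx.mk (nat_lit 372) (nat_lit 4) (nat_lit 6) (nat_lit 5) (nat_lit 6) (nat_lit 172) (nat_lit 188) r8_172 r9_188 (nat_lit 39267561) (nat_lit 0) (nat_lit 0) (nat_lit 0x2000efab8c) (nat_lit 2186751209),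
  Rx.mk (nat_lit 373) (nat_lit 5) (nat_lit 6) (nat_lit 5) (nat_lit 7) (nat_lit 173) (nat_lit 191) r8_173 r9_191 (nat_lit 0) (nat_lit 0) (nat_lit 0) (nat_lit 0x2000efab8c) (nat_lit 2147483648),
  Rx.mk (nat_lit 374) (nat_lit 6) (nat_lit 6) (nat_lit 5) (nat_lit 7) (nat_lit 175) (nat_lit 200) r8_175 r9_200 (nat_lit 0) (nat_lit 0) (nat_lit 0) (nat_lit 0x2000efab8c) (nat_lit 2147483648),
  Rx.mk (nat_lit 438) (nat_lit 6) (nat_lit 6) (nat_lit 6) (nat_lit 7) (nat_lit 176) (nat_lit 201) r8_176 r9_201 (nat_lit 0) (nat_lit 0) (nat_lit 0) (nat_lit 0x2000efab8c) (nat_lit 2147483648),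
  Rx.mk (nat_lit 487) (nat_lit 7) (nat_lit 4) (nat_lit 7) (nat_lit 5) (nat_lit 164) (nat_lit 194) r8_164 r9_194 (nat_lit 0) (nat_lit 39267561) (nat_lit 0) (nat_lit 0x2000efab8c) (nat_lit 2186751209),
  Rx.mk (nat_lit 495) (nat_lit 7) (nat_lit 5) (nat_lit 7) (nat_lit 7) (nat_lit 170) (nat_lit 197) r8_170 r9_197 (nat_lit 0) (nat_lit 0) (nat_lit 0) (nat_lit 0x2000efab8c) (nat_lit 2147483648),
  Rx.mk (nat_lit 511) (nat_lit 7) (nat_lit 7) (nat_lit 7) (nat_lit 7) (nat_lit 177) (nat_lit 198) r8_177 r9_198 (nat_lit 0) (nat_lit 0) (nat_lit 0) (nat_lit 0x2000efab8c) (nat_lit 2147483648)]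
noncomputable def e26_18 : List Rx := [
  Rx.mk (nat_lit 108) (nat_lit 4) (nat_lit 5) (nat_lit 1) (nat_lit 6) (nat_lit 181) (nat_lit 304) r8_181 r4_304 (nat_lit 39267561) (nat_lit 0) (nat_lit 0) (nat_lit 0x2000efab8c) (nat_lit 2186751209),
  Rx.mk (nat_lit 109) (nat_lit 5) (nat_lit 5) (nat_lit 1) (nat_lit 7) (nat_lit 182) (nat_lit 305) r8_182 r4_305 (nat_lit 0) (nat_lit 0) (nat_lit 0) (nat_lit 0x2000efab8c) (nat_lit 2147483648),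
  Rx.mk (nat_lit 111) (nat_lit 7) (nat_lit 5) (nat_lit 1) (nat_lit 7) (nat_lit 183) (nat_lit 306) r8_183 r4_306 (nat_lit 0) (nat_lit 0) (nat_lit 0) (nat_lit 0x2000efab8c) (nat_lit 2147483648)]
noncomputable def e26_19 : List Rx := [
  Rx.mk (nat_lit 108) (nat_lit 4) (nat_lit 5) (nat_lit 1) (nat_lit 6) (nat_lit 194) (nat_lit 191) r8_194 r10_191 (nat_lit 39267561) (nat_lit 0) (nat_lit 0) (nat_lit 0x2000efab8c) (nat_lit 2186751209),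
  Rx.mk (nat_lit 109) (nat_lit 5) (nat_lit 5) (nat_lit 1) (nat_lit 7) (nat_lit 195) (nat_lit 192) r8_195 r10_192 (nat_lit 0) (nat_lit 0) (nat_lit 0) (nat_lit 0x2000efab8c) (nat_lit 2147483648),
  Rx.mk (nat_lit 111) (nat_lit 7) (nat_lit 5) (nat_lit 1) (nat_lit 7) (nat_lit 196) (nat_lit 193) r8_196 r10_193 (nat_lit 0) (nat_lit 0) (nat_lit 0) (nat_lit 0x2000efab8c) (nat_lit 2147483648),
  Rx.mk (nat_lit 367) (nat_lit 7) (nat_lit 5) (nat_lit 5) (nat_lit 7) (nat_lit 197) (nat_lit 194) r8_197 r10_194 (nat_lit 0) (nat_lit 0) (nat_lit 0) (nat_lit 0x2000efab8c) (nat_lit 2147483648)]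
noncomputable def e26_20 : List Rx := [
  Rx.mk (nat_lit 108) (nat_lit 4) (nat_lit 5) (nat_lit 1) (nat_lit 6) (nat_lit 198) (nat_lit 219) r8_198 r11_219 (nat_lit 39267561) (nat_lit 0) (nat_lit 0) (nat_lit 0x2000efab8c) (nat_lit 2186751209),
  Rx.mk (nat_lit 109) (nat_lit 5) (nat_lit 5) (nat_lit 1) (nat_lit 7) (nat_lit 199) (nat_lit 220) r8_199 r11_220 (nat_lit 0) (nat_lit 0) (nat_lit 0) (nat_lit 0x2000efab8c) (nat_lit 2147483648),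
  Rx.mk (nat_lit 111) (nat_lit 7) (nat_lit 5) (nat_lit 1) (nat_lit 7) (nat_lit 200) (nat_lit 221) r8_200 r11_221 (nat_lit 0) (nat_lit 0) (nat_lit 0) (nat_lit 0x2000efab8c) (nat_lit 2147483648)]
noncomputable def e26_21 : List Rx := [
  Rx.mk (nat_lit 292) (nat_lit 4) (nat_lit 4) (nat_lit 4) (nat_lit 0) (nat_lit 133) (nat_lit 86) r8_133 r9_86 (nat_lit 110382014) (nat_lit 11620677) (nat_lit 16492852) (nat_lit 0x10b61feab8) (nat_lit 6550328991),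
  Rx.mk (nat_lit 295) (nat_lit 7) (nat_lit 4) (nat_lit 4) (nat_lit 1) (nat_lit 135) (nat_lit 88) r8_135 r9_88 (nat_lit 0) (nat_lit 91887484) (nat_lit 48298644) (nat_lit 0x1b379211ca) (nat_lit 3622114126),
  Rx.mk (nat_lit 308) (nat_lit 4) (nat_lit 6) (nat_lit 4) (nat_lit 2) (nat_lit 138) (nat_lit 92) r8_138 r9_92 (nat_lit 53900239) (nat_lit 0) (nat_lit 55782578) (nat_lit 0x1c147041e8) (nat_lit 3350996965),
  Rx.mk (nat_lit 310) (nat_lit 6) (nat_lit 6) (nat_lit 4) (nat_lit 3) (nat_lit 140) (nat_lit 96) r8_140 r9_96 (nat_lit 0) (nat_lit 0) (nat_lit 39267561) (nat_lit 0x2000efab8c) (nat_lit 2186751209),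
  Rx.mk (nat_lit 311) (nat_lit 7) (nat_lit 6) (nat_lit 4) (nat_lit 3) (nat_lit 143) (nat_lit 94) r8_143 r9_94 (nat_lit 0) (nat_lit 0) (nat_lit 39267561) (nat_lit 0x2000efab8c) (nat_lit 2186751209),
  Rx.mk (nat_lit 356) (nat_lit 4) (nat_lit 4) (nat_lit 5) (nat_lit 4) (nat_lit 134) (nat_lit 87) r8_134 r9_87 (nat_lit 130641162) (nat_lit 32464604) (nat_lit 0) (nat_lit 0x1bddcbf93e) (nat_lit 3463944464),
  Rx.mk (nat_lit 359) (nat_lit 7) (nat_lit 4) (nat_lit 5) (nat_lit 5) (nat_lit 136) (nat_lit 89) r8_136 r9_89 (nat_lit 0) (nat_lit 39267561) (nat_lit 0) (nat_lit 0x2000efab8c) (nat_lit 2186751209),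
  Rx.mk (nat_lit 372) (nat_lit 4) (nat_lit 6) (nat_lit 5) (nat_lit 6) (nat_lit 139) (nat_lit 93) r8_139 r9_93 (nat_lit 39267561) (nat_lit 0) (nat_lit 0) (nat_lit 0x2000efab8c) (nat_lit 2186751209),
  Rx.mk (nat_lit 374) (nat_lit 6) (nat_lit 6) (nat_lit 5) (nat_lit 7) (nat_lit 141) (nat_lit 97) r8_141 r9_97 (nat_lit 0) (nat_lit 0) (nat_lit 0) (nat_lit 0x2000efab8c) (nat_lit 2147483648),
  Rx.mk (nat_lit 375) (nat_lit 7) (nat_lit 6) (nat_lit 5) (nat_lit 7) (nat_lit 144) (nat_lit 95) r8_144 r9_95 (nat_lit 0) (nat_lit 0) (nat_lit 0) (nat_lit 0x2000efab8c) (nat_lit 2147483648),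
  Rx.mk (nat_lit 438) (nat_lit 6) (nat_lit 6) (nat_lit 6) (nat_lit 7) (nat_lit 142) (nat_lit 98) r8_142 r9_98 (nat_lit 0) (nat_lit 0) (nat_lit 0) (nat_lit 0x2000efab8c) (nat_lit 2147483648),
  Rx.mk (nat_lit 487) (nat_lit 7) (nat_lit 4) (nat_lit 7) (nat_lit 5) (nat_lit 137) (nat_lit 90) r8_137 r9_90 (nat_lit 0) (nat_lit 39267561) (nat_lit 0) (nat_lit 0x2000efab8c) (nat_lit 2186751209),
  Rx.mk (nat_lit 511) (nat_lit 7) (nat_lit 7) (nat_lit 7) (nat_lit 7) (nat_lit 145) (nat_lit 91) r8_145 r9_91 (nat_lit 0) (nat_lit 0) (nat_lit 0) (nat_lit 0x2000efab8c) (nat_lit 2147483648)]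
noncomputable def e26_22 : List Rx := [
  Rx.mk (nat_lit 251) (nat_lit 3) (nat_lit 7) (nat_lit 3) (nat_lit 7) (nat_lit 76) (nat_lit 139) r8_76 r0_139 (nat_lit 0) (nat_lit 0) (nat_lit 0) (nat_lit 0x2000efab8c) (nat_lit 2147483648),
  Rx.mk (nat_lit 255) (nat_lit 7) (nat_lit 7) (nat_lit 3) (nat_lit 7) (nat_lit 77) (nat_lit 140) r8_77 r0_140 (nat_lit 0) (nat_lit 0) (nat_lit 0) (nat_lit 0x2000efab8c) (nat_lit 2147483648)]
noncomputable def e26_23 : List Rx := [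
  Rx.mk (nat_lit 0) (nat_lit 0) (nat_lit 0) (nat_lit 0) (nat_lit 0) (nat_lit 90) (nat_lit 141) r8_90 r1_141 (nat_lit 304855249) (nat_lit 8932257) (nat_lit 13347553) (nat_lit 0x1365628c54) (nat_lit 5990236307),
  Rx.mk (nat_lit 24) (nat_lit 0) (nat_lit 3) (nat_lit 0) (nat_lit 2) (nat_lit 94) (nat_lit 142) r8_94 r1_142 (nat_lit 381512949) (nat_lit 0) (nat_lit 52898717) (nat_lit 0x1dae16a4e4) (nat_lit 3229443314),
  Rx.mk (nat_lit 27) (nat_lit 3) (nat_lit 3) (nat_lit 0) (nat_lit 3) (nat_lit 97) (nat_lit 143) r8_97 r1_143 (nat_lit 0) (nat_lit 0) (nat_lit 58504564) (nat_lit 0x1fe5448858) (nat_lit 2235871712),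
  Rx.mk (nat_lit 128) (nat_lit 0) (nat_lit 0) (nat_lit 2) (nat_lit 4) (nat_lit 91) (nat_lit 147) r8_91 r1_147 (nat_lit 51329911) (nat_lit 16549832) (nat_lit 0) (nat_lit 0x1a19794916) (nat_lit 3861461541),
  Rx.mk (nat_lit 130) (nat_lit 2) (nat_lit 0) (nat_lit 2) (nat_lit 5) (nat_lit 92) (nat_lit 150) r8_92 r1_150 (nat_lit 0) (nat_lit 33621592) (nat_lit 0) (nat_lit 0x1fab29075c) (nat_lit 2274132840),
  Rx.mk (nat_lit 146) (nat_lit 2) (nat_lit 2) (nat_lit 2) (nat_lit 7) (nat_lit 93) (nat_lit 152) r8_93 r1_152 (nat_lit 0) (nat_lit 0) (nat_lit 0) (nat_lit 0x2000efab8c) (nat_lit 2147483648),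
  Rx.mk (nat_lit 152) (nat_lit 0) (nat_lit 3) (nat_lit 2) (nat_lit 6) (nat_lit 95) (nat_lit 148) r8_95 r1_148 (nat_lit 39267561) (nat_lit 0) (nat_lit 0) (nat_lit 0x20083dfac4) (nat_lit 2178903109),
  Rx.mk (nat_lit 154) (nat_lit 2) (nat_lit 3) (nat_lit 2) (nat_lit 7) (nat_lit 96) (nat_lit 151) r8_96 r1_151 (nat_lit 0) (nat_lit 0) (nat_lit 0) (nat_lit 0x2000efab8c) (nat_lit 2147483648),
  Rx.mk (nat_lit 155) (nat_lit 3) (nat_lit 3) (nat_lit 2) (nat_lit 7) (nat_lit 98) (nat_lit 149) r8_98 r1_149 (nat_lit 0) (nat_lit 0) (nat_lit 0) (nat_lit 0x2000efab8c) (nat_lit 2147483648),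
  Rx.mk (nat_lit 219) (nat_lit 3) (nat_lit 3) (nat_lit 3) (nat_lit 7) (nat_lit 99) (nat_lit 144) r8_99 r1_144 (nat_lit 0) (nat_lit 0) (nat_lit 0) (nat_lit 0x2000efab8c) (nat_lit 2147483648),
  Rx.mk (nat_lit 251) (nat_lit 3) (nat_lit 7) (nat_lit 3) (nat_lit 7) (nat_lit 100) (nat_lit 145) r8_100 r1_145 (nat_lit 0) (nat_lit 0) (nat_lit 0) (nat_lit 0x2000efab8c) (nat_lit 2147483648),
  Rx.mk (nat_lit 255) (nat_lit 7) (nat_lit 7) (nat_lit 3) (nat_lit 7) (nat_lit 101) (nat_lit 146) r8_101 r1_146 (nat_lit 0) (nat_lit 0) (nat_lit 0) (nat_lit 0x2000efab8c) (nat_lit 2147483648)]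
noncomputable def e26_24 : List Rx := [
  Rx.mk (nat_lit 231) (nat_lit 7) (nat_lit 4) (nat_lit 3) (nat_lit 5) (nat_lit 146) (nat_lit 126) r8_146 r4_126 (nat_lit 0) (nat_lit 32943383) (nat_lit 0) (nat_lit 0x20006b6bf6) (nat_lit 2180976481),
  Rx.mk (nat_lit 251) (nat_lit 3) (nat_lit 7) (nat_lit 3) (nat_lit 7) (nat_lit 147) (nat_lit 125) r8_147 r4_125 (nat_lit 0) (nat_lit 0) (nat_lit 0) (nat_lit 0x2000efab8c) (nat_lit 2147483648),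
  Rx.mk (nat_lit 255) (nat_lit 7) (nat_lit 7) (nat_lit 3) (nat_lit 7) (nat_lit 148) (nat_lit 127) r8_148 r4_127 (nat_lit 0) (nat_lit 0) (nat_lit 0) (nat_lit 0x2000efab8c) (nat_lit 2147483648)]
noncomputable def e26_25 : List Rx := [
  Rx.mk (nat_lit 251) (nat_lit 3) (nat_lit 7) (nat_lit 3) (nat_lit 7) (nat_lit 87) (nat_lit 141) r8_87 r7_141 (nat_lit 0) (nat_lit 0) (nat_lit 0) (nat_lit 0x2000efab8c) (nat_lit 2147483648),
  Rx.mk (nat_lit 255) (nat_lit 7) (nat_lit 7) (nat_lit 3) (nat_lit 7) (nat_lit 88) (nat_lit 140) r8_88 r7_140 (nat_lit 0) (nat_lit 0) (nat_lit 0) (nat_lit 0x2000efab8c) (nat_lit 2147483648),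
  Rx.mk (nat_lit 292) (nat_lit 4) (nat_lit 4) (nat_lit 4) (nat_lit 0) (nat_lit 78) (nat_lit 136) r8_78 r7_136 (nat_lit 72243851) (nat_lit 8054942) (nat_lit 10916527) (nat_lit 0xea29e495a) (nat_lit 7082065618),
  Rx.mk (nat_lit 308) (nat_lit 4) (nat_lit 6) (nat_lit 4) (nat_lit 2) (nat_lit 81) (nat_lit 142) r8_81 r7_142 (nat_lit 38990238) (nat_lit 0) (nat_lit 78285234) (nat_lit 0x185c95d068) (nat_lit 4395485720),
  Rx.mk (nat_lit 310) (nat_lit 6) (nat_lit 6) (nat_lit 4) (nat_lit 3) (nat_lit 83) (nat_lit 145) r8_83 r7_145 (nat_lit 0) (nat_lit 0) (nat_lit 287004756) (nat_lit 0x1fb51a8c54) (nat_lit 2516688604),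
  Rx.mk (nat_lit 438) (nat_lit 6) (nat_lit 6) (nat_lit 6) (nat_lit 7) (nat_lit 84) (nat_lit 147) r8_84 r7_147 (nat_lit 0) (nat_lit 0) (nat_lit 0) (nat_lit 0x1fef6c33d0) (nat_lit 2166386048),
  Rx.mk (nat_lit 484) (nat_lit 4) (nat_lit 4) (nat_lit 7) (nat_lit 4) (nat_lit 79) (nat_lit 137) r8_79 r7_137 (nat_lit 49808052) (nat_lit 13867952) (nat_lit 0) (nat_lit 0x183270804e) (nat_lit 4387837202),
  Rx.mk (nat_lit 487) (nat_lit 7) (nat_lit 4) (nat_lit 7) (nat_lit 5) (nat_lit 80) (nat_lit 138) r8_80 r7_138 (nat_lit 0) (nat_lit 5067356) (nat_lit 0) (nat_lit 0x1efa567aa4) (nat_lit 2438071504),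
  Rx.mk (nat_lit 500) (nat_lit 4) (nat_lit 6) (nat_lit 7) (nat_lit 6) (nat_lit 82) (nat_lit 143) r8_82 r7_143 (nat_lit 37466795) (nat_lit 0) (nat_lit 0) (nat_lit 0x1ffcf3f89e) (nat_lit 2189236093),
  Rx.mk (nat_lit 502) (nat_lit 6) (nat_lit 6) (nat_lit 7) (nat_lit 7) (nat_lit 85) (nat_lit 146) r8_85 r7_146 (nat_lit 0) (nat_lit 0) (nat_lit 0) (nat_lit 0x2000efab8c) (nat_lit 2147483648),
  Rx.mk (nat_lit 503) (nat_lit 7) (nat_lit 6) (nat_lit 7) (nat_lit 7) (nat_lit 86) (nat_lit 144) r8_86 r7_144 (nat_lit 0) (nat_lit 0) (nat_lit 0) (nat_lit 0x20251583f6) (nat_lit 2108796398),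
  Rx.mk (nat_lit 511) (nat_lit 7) (nat_lit 7) (nat_lit 7) (nat_lit 7) (nat_lit 89) (nat_lit 139) r8_89 r7_139 (nat_lit 0) (nat_lit 0) (nat_lit 0) (nat_lit 0x2000efab8c) (nat_lit 2147483648)]
noncomputable def e26_26 : List Rx := [
  Rx.mk (nat_lit 0) (nat_lit 0) (nat_lit 0) (nat_lit 0) (nat_lit 0) (nat_lit 102) (nat_lit 114) r8_102 r8_114 (nat_lit 14426121) (nat_lit 8642804) (nat_lit 13099215) (nat_lit 0xf2566eba8) (nat_lit 6884541388),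
  Rx.mk (nat_lit 24) (nat_lit 0) (nat_lit 3) (nat_lit 0) (nat_lit 2) (nat_lit 108) (nat_lit 117) r8_108 r8_117 (nat_lit 1133588) (nat_lit 0) (nat_lit 1493429) (nat_lit 0x1c137f08be) (nat_lit 3244687115),
  Rx.mk (nat_lit 27) (nat_lit 3) (nat_lit 3) (nat_lit 0) (nat_lit 3) (nat_lit 111) (nat_lit 119) r8_111 r8_119 (nat_lit 0) (nat_lit 0) (nat_lit 38052183) (nat_lit 0x1fec57a652) (nat_lit 2207766581),
  Rx.mk (nat_lit 128) (nat_lit 0) (nat_lit 0) (nat_lit 2) (nat_lit 4) (nat_lit 103) (nat_lit 115) r8_103 r8_115 (nat_lit 2360715) (nat_lit 1604421) (nat_lit 0) (nat_lit 0x19ad24092c) (nat_lit 3915370484),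
  Rx.mk (nat_lit 130) (nat_lit 2) (nat_lit 0) (nat_lit 2) (nat_lit 5) (nat_lit 104) (nat_lit 116) r8_104 r8_116 (nat_lit 0) (nat_lit 39267561) (nat_lit 0) (nat_lit 0x1fe1d6dcca) (nat_lit 2220349759),
  Rx.mk (nat_lit 146) (nat_lit 2) (nat_lit 2) (nat_lit 2) (nat_lit 7) (nat_lit 105) (nat_lit 125) r8_105 r8_125 (nat_lit 0) (nat_lit 0) (nat_lit 0) (nat_lit 0x2000efab8c) (nat_lit 2147483648),
  Rx.mk (nat_lit 152) (nat_lit 0) (nat_lit 3) (nat_lit 2) (nat_lit 6) (nat_lit 109) (nat_lit 118) r8_109 r8_118 (nat_lit 39267561) (nat_lit 0) (nat_lit 0) (nat_lit 0x1ffe5784d0) (nat_lit 2189542009),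
  Rx.mk (nat_lit 154) (nat_lit 2) (nat_lit 3) (nat_lit 2) (nat_lit 7) (nat_lit 110) (nat_lit 122) r8_110 r8_122 (nat_lit 0) (nat_lit 0) (nat_lit 0) (nat_lit 0x2000efab8c) (nat_lit 2147483648),
  Rx.mk (nat_lit 155) (nat_lit 3) (nat_lit 3) (nat_lit 2) (nat_lit 7) (nat_lit 112) (nat_lit 121) r8_112 r8_121 (nat_lit 0) (nat_lit 0) (nat_lit 0) (nat_lit 0x2000efab8c) (nat_lit 2147483648),
  Rx.mk (nat_lit 219) (nat_lit 3) (nat_lit 3) (nat_lit 3) (nat_lit 7) (nat_lit 113) (nat_lit 120) r8_113 r8_120 (nat_lit 0) (nat_lit 0) (nat_lit 0) (nat_lit 0x2000efab8c) (nat_lit 2147483648),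
  Rx.mk (nat_lit 251) (nat_lit 3) (nat_lit 7) (nat_lit 3) (nat_lit 7) (nat_lit 123) (nat_lit 107) r8_123 r8_107 (nat_lit 0) (nat_lit 0) (nat_lit 0) (nat_lit 0x2000efab8c) (nat_lit 2147483648),
  Rx.mk (nat_lit 255) (nat_lit 7) (nat_lit 7) (nat_lit 3) (nat_lit 7) (nat_lit 124) (nat_lit 106) r8_124 r8_106 (nat_lit 0) (nat_lit 0) (nat_lit 0) (nat_lit 0x2000efab8c) (nat_lit 2147483648),
  Rx.mk (nat_lit 292) (nat_lit 4) (nat_lit 4) (nat_lit 4) (nat_lit 0) (nat_lit 114) (nat_lit 102) r8_114 r8_102 (nat_lit 14426121) (nat_lit 8642804) (nat_lit 13099215) (nat_lit 0xf2566eba8) (nat_lit 6884541388),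
  Rx.mk (nat_lit 308) (nat_lit 4) (nat_lit 6) (nat_lit 4) (nat_lit 2) (nat_lit 117) (nat_lit 108) r8_117 r8_108 (nat_lit 1133588) (nat_lit 0) (nat_lit 1493429) (nat_lit 0x1c137f08be) (nat_lit 3244687115),
  Rx.mk (nat_lit 310) (nat_lit 6) (nat_lit 6) (nat_lit 4) (nat_lit 3) (nat_lit 119) (nat_lit 111) r8_119 r8_111 (nat_lit 0) (nat_lit 0) (nat_lit 38052183) (nat_lit 0x1fec57a652) (nat_lit 2207766581),
  Rx.mk (nat_lit 402) (nat_lit 2) (nat_lit 2) (nat_lit 6) (nat_lit 7) (nat_lit 106) (nat_lit 124) r8_106 r8_124 (nat_lit 0) (nat_lit 0) (nat_lit 0) (nat_lit 0x2000efab8c) (nat_lit 2147483648),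
  Rx.mk (nat_lit 406) (nat_lit 6) (nat_lit 2) (nat_lit 6) (nat_lit 7) (nat_lit 107) (nat_lit 123) r8_107 r8_123 (nat_lit 0) (nat_lit 0) (nat_lit 0) (nat_lit 0x2000efab8c) (nat_lit 2147483648),
  Rx.mk (nat_lit 438) (nat_lit 6) (nat_lit 6) (nat_lit 6) (nat_lit 7) (nat_lit 120) (nat_lit 113) r8_120 r8_113 (nat_lit 0) (nat_lit 0) (nat_lit 0) (nat_lit 0x2000efab8c) (nat_lit 2147483648),
  Rx.mk (nat_lit 484) (nat_lit 4) (nat_lit 4) (nat_lit 7) (nat_lit 4) (nat_lit 115) (nat_lit 103) r8_115 r8_103 (nat_lit 2360715) (nat_lit 1604421) (nat_lit 0) (nat_lit 0x19ad24092c) (nat_lit 3915370484),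
  Rx.mk (nat_lit 487) (nat_lit 7) (nat_lit 4) (nat_lit 7) (nat_lit 5) (nat_lit 116) (nat_lit 104) r8_116 r8_104 (nat_lit 0) (nat_lit 39267561) (nat_lit 0) (nat_lit 0x1fe1d6dcca) (nat_lit 2220349759),
  Rx.mk (nat_lit 500) (nat_lit 4) (nat_lit 6) (nat_lit 7) (nat_lit 6) (nat_lit 118) (nat_lit 109) r8_118 r8_109 (nat_lit 39267561) (nat_lit 0) (nat_lit 0) (nat_lit 0x1ffe5784d0) (nat_lit 2189542009),
  Rx.mk (nat_lit 502) (nat_lit 6) (nat_lit 6) (nat_lit 7) (nat_lit 7) (nat_lit 121) (nat_lit 112) r8_121 r8_112 (nat_lit 0) (nat_lit 0) (nat_lit 0) (nat_lit 0x2000efab8c) (nat_lit 2147483648),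
  Rx.mk (nat_lit 503) (nat_lit 7) (nat_lit 6) (nat_lit 7) (nat_lit 7) (nat_lit 122) (nat_lit 110) r8_122 r8_110 (nat_lit 0) (nat_lit 0) (nat_lit 0) (nat_lit 0x2000efab8c) (nat_lit 2147483648),
  Rx.mk (nat_lit 511) (nat_lit 7) (nat_lit 7) (nat_lit 7) (nat_lit 7) (nat_lit 125) (nat_lit 105) r8_125 r8_105 (nat_lit 0) (nat_lit 0) (nat_lit 0) (nat_lit 0x2000efab8c) (nat_lit 2147483648)]
noncomputable def e26_27 : List Rx := [
  Rx.mk (nat_lit 292) (nat_lit 4) (nat_lit 4) (nat_lit 4) (nat_lit 0) (nat_lit 126) (nat_lit 126) r8_126 r8_126 (nat_lit 164927620) (nat_lit 13962112) (nat_lit 13962112) (nat_lit 0x1135073d18) (nat_lit 6466452292),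
  Rx.mk (nat_lit 308) (nat_lit 4) (nat_lit 6) (nat_lit 4) (nat_lit 2) (nat_lit 129) (nat_lit 127) r8_129 r8_127 (nat_lit 67030596) (nat_lit 0) (nat_lit 59673331) (nat_lit 0x1ac955de9e) (nat_lit 3728716325),
  Rx.mk (nat_lit 310) (nat_lit 6) (nat_lit 6) (nat_lit 4) (nat_lit 3) (nat_lit 130) (nat_lit 128) r8_130 r8_128 (nat_lit 0) (nat_lit 0) (nat_lit 46106072) (nat_lit 0x1ff8a01a48) (nat_lit 2202536720),
  Rx.mk (nat_lit 438) (nat_lit 6) (nat_lit 6) (nat_lit 6) (nat_lit 7) (nat_lit 131) (nat_lit 132) r8_131 r8_132 (nat_lit 0) (nat_lit 0) (nat_lit 0) (nat_lit 0x2000efab8c) (nat_lit 2147483648),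
  Rx.mk (nat_lit 484) (nat_lit 4) (nat_lit 4) (nat_lit 7) (nat_lit 4) (nat_lit 127) (nat_lit 129) r8_127 r8_129 (nat_lit 67030596) (nat_lit 59673331) (nat_lit 0) (nat_lit 0x1ac955de9e) (nat_lit 3728716325),
  Rx.mk (nat_lit 487) (nat_lit 7) (nat_lit 4) (nat_lit 7) (nat_lit 5) (nat_lit 128) (nat_lit 130) r8_128 r8_130 (nat_lit 0) (nat_lit 46106072) (nat_lit 0) (nat_lit 0x1ff8a01a48) (nat_lit 2202536720),
  Rx.mk (nat_lit 511) (nat_lit 7) (nat_lit 7) (nat_lit 7) (nat_lit 7) (nat_lit 132) (nat_lit 131) r8_132 r8_131 (nat_lit 0) (nat_lit 0) (nat_lit 0) (nat_lit 0x2000efab8c) (nat_lit 2147483648)]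
noncomputable def e26_28 : List Rx := [
  Rx.mk (nat_lit 231) (nat_lit 7) (nat_lit 4) (nat_lit 3) (nat_lit 5) (nat_lit 150) (nat_lit 103) r8_150 r10_103 (nat_lit 0) (nat_lit 39267561) (nat_lit 0) (nat_lit 0x2000efab8c) (nat_lit 2186751209),
  Rx.mk (nat_lit 251) (nat_lit 3) (nat_lit 7) (nat_lit 3) (nat_lit 7) (nat_lit 155) (nat_lit 105) r8_155 r10_105 (nat_lit 0) (nat_lit 0) (nat_lit 0) (nat_lit 0x2000efab8c) (nat_lit 2147483648),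
  Rx.mk (nat_lit 255) (nat_lit 7) (nat_lit 7) (nat_lit 3) (nat_lit 7) (nat_lit 156) (nat_lit 104) r8_156 r10_104 (nat_lit 0) (nat_lit 0) (nat_lit 0) (nat_lit 0x2000efab8c) (nat_lit 2147483648),
  Rx.mk (nat_lit 484) (nat_lit 4) (nat_lit 4) (nat_lit 7) (nat_lit 4) (nat_lit 149) (nat_lit 101) r8_149 r10_101 (nat_lit 36374722) (nat_lit 22536325) (nat_lit 0) (nat_lit 0x1b7c9efe72) (nat_lit 3465604845),
  Rx.mk (nat_lit 487) (nat_lit 7) (nat_lit 4) (nat_lit 7) (nat_lit 5) (nat_lit 151) (nat_lit 102) r8_151 r10_102 (nat_lit 0) (nat_lit 21482774) (nat_lit 0) (nat_lit 0x1fa3cdbac0) (nat_lit 2270040822),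
  Rx.mk (nat_lit 500) (nat_lit 4) (nat_lit 6) (nat_lit 7) (nat_lit 6) (nat_lit 152) (nat_lit 106) r8_152 r10_106 (nat_lit 39267561) (nat_lit 0) (nat_lit 0) (nat_lit 0x2000efab8c) (nat_lit 2186751209),
  Rx.mk (nat_lit 502) (nat_lit 6) (nat_lit 6) (nat_lit 7) (nat_lit 7) (nat_lit 153) (nat_lit 108) r8_153 r10_108 (nat_lit 0) (nat_lit 0) (nat_lit 0) (nat_lit 0x2000efab8c) (nat_lit 2147483648),
  Rx.mk (nat_lit 503) (nat_lit 7) (nat_lit 6) (nat_lit 7) (nat_lit 7) (nat_lit 154) (nat_lit 107) r8_154 r10_107 (nat_lit 0) (nat_lit 0) (nat_lit 0) (nat_lit 0x2000efab8c) (nat_lit 2147483648)]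
noncomputable def e26_29 : List Rx := [
  Rx.mk (nat_lit 231) (nat_lit 7) (nat_lit 4) (nat_lit 3) (nat_lit 5) (nat_lit 157) (nat_lit 113) r8_157 r11_113 (nat_lit 0) (nat_lit 45467115) (nat_lit 0) (nat_lit 0x1ff9de9826) (nat_lit 2200558313),
  Rx.mk (nat_lit 255) (nat_lit 7) (nat_lit 7) (nat_lit 3) (nat_lit 7) (nat_lit 158) (nat_lit 114) r8_158 r11_114 (nat_lit 0) (nat_lit 0) (nat_lit 0) (nat_lit 0x2000efab8c) (nat_lit 2147483648)]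
noncomputable def e26_30 : List Rx := [
  Rx.mk (nat_lit 111) (nat_lit 7) (nat_lit 5) (nat_lit 1) (nat_lit 7) (nat_lit 218) (nat_lit 285) r8_218 r5_285 (nat_lit 0) (nat_lit 0) (nat_lit 0) (nat_lit 0x202d9e7fa0) (nat_lit 2099711048)]
noncomputable def e26_31 : List Rx := [
  Rx.mk (nat_lit 111) (nat_lit 7) (nat_lit 5) (nat_lit 1) (nat_lit 7) (nat_lit 219) (nat_lit 344) r8_219 r11_344 (nat_lit 0) (nat_lit 0) (nat_lit 0) (nat_lit 0x202915178c) (nat_lit 2104546948),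
  Rx.mk (nat_lit 367) (nat_lit 7) (nat_lit 5) (nat_lit 5) (nat_lit 7) (nat_lit 220) (nat_lit 343) r8_220 r11_343 (nat_lit 0) (nat_lit 0) (nat_lit 0) (nat_lit 0x2000efab8c) (nat_lit 2147483648)]
noncomputable def e26_32 : List Rx := [
  Rx.mk (nat_lit 43) (nat_lit 3) (nat_lit 5) (nat_lit 0) (nat_lit 3) (nat_lit 221) (nat_lit 207) r8_221 r6_207 (nat_lit 0) (nat_lit 0) (nat_lit 24734064) (nat_lit 0x201676d908) (nat_lit 2149143312),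
  Rx.mk (nat_lit 107) (nat_lit 3) (nat_lit 5) (nat_lit 1) (nat_lit 7) (nat_lit 222) (nat_lit 208) r8_222 r6_208 (nat_lit 0) (nat_lit 0) (nat_lit 0) (nat_lit 0x2000efab8c) (nat_lit 2147483648),
  Rx.mk (nat_lit 235) (nat_lit 3) (nat_lit 5) (nat_lit 3) (nat_lit 7) (nat_lit 223) (nat_lit 209) r8_223 r6_209 (nat_lit 0) (nat_lit 0) (nat_lit 0) (nat_lit 0x2000efab8c) (nat_lit 2147483648),
  Rx.mk (nat_lit 239) (nat_lit 7) (nat_lit 5) (nat_lit 3) (nat_lit 7) (nat_lit 224) (nat_lit 206) r8_224 r6_206 (nat_lit 0) (nat_lit 0) (nat_lit 0) (nat_lit 0x201df2e532) (nat_lit 2116412298)]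
noncomputable def e26_33 : List Rx := [
  Rx.mk (nat_lit 227) (nat_lit 3) (nat_lit 4) (nat_lit 3) (nat_lit 5) (nat_lit 201) (nat_lit 118) r8_201 r5_118 (nat_lit 0) (nat_lit 52140562) (nat_lit 0) (nat_lit 0x1f67ec0836) (nat_lit 2365859860),
  Rx.mk (nat_lit 231) (nat_lit 7) (nat_lit 4) (nat_lit 3) (nat_lit 5) (nat_lit 202) (nat_lit 121) r8_202 r5_121 (nat_lit 0) (nat_lit 14730131) (nat_lit 0) (nat_lit 0x200e2ec5e4) (nat_lit 2147964679),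
  Rx.mk (nat_lit 235) (nat_lit 3) (nat_lit 5) (nat_lit 3) (nat_lit 7) (nat_lit 203) (nat_lit 119) r8_203 r5_119 (nat_lit 0) (nat_lit 0) (nat_lit 0) (nat_lit 0x2000efab8c) (nat_lit 2147483648),
  Rx.mk (nat_lit 239) (nat_lit 7) (nat_lit 5) (nat_lit 3) (nat_lit 7) (nat_lit 204) (nat_lit 122) r8_204 r5_122 (nat_lit 0) (nat_lit 0) (nat_lit 0) (nat_lit 0x203614c31a) (nat_lit 2090691798),
  Rx.mk (nat_lit 251) (nat_lit 3) (nat_lit 7) (nat_lit 3) (nat_lit 7) (nat_lit 205) (nat_lit 120) r8_205 r5_120 (nat_lit 0) (nat_lit 0) (nat_lit 0) (nat_lit 0x2000efab8c) (nat_lit 2147483648)]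
noncomputable def e26_34 : List Rx := [
  Rx.mk (nat_lit 227) (nat_lit 3) (nat_lit 4) (nat_lit 3) (nat_lit 5) (nat_lit 206) (nat_lit 115) r8_206 r11_115 (nat_lit 0) (nat_lit 52859885) (nat_lit 0) (nat_lit 0x1fca847898) (nat_lit 2259263733),
  Rx.mk (nat_lit 231) (nat_lit 7) (nat_lit 4) (nat_lit 3) (nat_lit 5) (nat_lit 207) (nat_lit 118) r8_207 r11_118 (nat_lit 0) (nat_lit 39267561) (nat_lit 0) (nat_lit 0x2000efab8c) (nat_lit 2186751209),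
  Rx.mk (nat_lit 235) (nat_lit 3) (nat_lit 5) (nat_lit 3) (nat_lit 7) (nat_lit 209) (nat_lit 116) r8_209 r11_116 (nat_lit 0) (nat_lit 0) (nat_lit 0) (nat_lit 0x2000efab8c) (nat_lit 2147483648),
  Rx.mk (nat_lit 239) (nat_lit 7) (nat_lit 5) (nat_lit 3) (nat_lit 7) (nat_lit 210) (nat_lit 119) r8_210 r11_119 (nat_lit 0) (nat_lit 0) (nat_lit 0) (nat_lit 0x2000efab8c) (nat_lit 2147483648),
  Rx.mk (nat_lit 251) (nat_lit 3) (nat_lit 7) (nat_lit 3) (nat_lit 7) (nat_lit 213) (nat_lit 117) r8_213 r11_117 (nat_lit 0) (nat_lit 0) (nat_lit 0) (nat_lit 0x2000efab8c) (nat_lit 2147483648),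
  Rx.mk (nat_lit 487) (nat_lit 7) (nat_lit 4) (nat_lit 7) (nat_lit 5) (nat_lit 208) (nat_lit 120) r8_208 r11_120 (nat_lit 0) (nat_lit 22480419) (nat_lit 0) (nat_lit 0x20133e61f2) (nat_lit 2150329117),
  Rx.mk (nat_lit 495) (nat_lit 7) (nat_lit 5) (nat_lit 7) (nat_lit 7) (nat_lit 211) (nat_lit 121) r8_211 r11_121 (nat_lit 0) (nat_lit 0) (nat_lit 0) (nat_lit 0x2010d79ca8) (nat_lit 2130430748),
  Rx.mk (nat_lit 503) (nat_lit 7) (nat_lit 6) (nat_lit 7) (nat_lit 7) (nat_lit 212) (nat_lit 122) r8_212 r11_122 (nat_lit 0) (nat_lit 0) (nat_lit 0) (nat_lit 0x2010d79ca8) (nat_lit 2130430748)]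
noncomputable def e26_35 : List Rx := [
  Rx.mk (nat_lit 43) (nat_lit 3) (nat_lit 5) (nat_lit 0) (nat_lit 3) (nat_lit 214) (nat_lit 300) r8_214 r6_300 (nat_lit 0) (nat_lit 0) (nat_lit 22905996) (nat_lit 0x201b7b8070) (nat_lit 2141953244),
  Rx.mk (nat_lit 47) (nat_lit 7) (nat_lit 5) (nat_lit 0) (nat_lit 3) (nat_lit 216) (nat_lit 301) r8_216 r6_301 (nat_lit 0) (nat_lit 0) (nat_lit 12950370) (nat_lit 0x2009bc934c) (nat_lit 2150918918),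
  Rx.mk (nat_lit 107) (nat_lit 3) (nat_lit 5) (nat_lit 1) (nat_lit 7) (nat_lit 215) (nat_lit 302) r8_215 r6_302 (nat_lit 0) (nat_lit 0) (nat_lit 0) (nat_lit 0x200d095a4e) (nat_lit 2134500898),
  Rx.mk (nat_lit 111) (nat_lit 7) (nat_lit 5) (nat_lit 1) (nat_lit 7) (nat_lit 217) (nat_lit 303) r8_217 r6_303 (nat_lit 0) (nat_lit 0) (nat_lit 0) (nat_lit 0x2026f1b668) (nat_lit 2106815848)]
noncomputable def e26_36 : List Rx := [
  Rx.mk (nat_lit 43) (nat_lit 3) (nat_lit 5) (nat_lit 0) (nat_lit 3) (nat_lit 225) (nat_lit 203) r8_225 r12_203 (nat_lit 0) (nat_lit 0) (nat_lit 23920748) (nat_lit 0x2018d41a30) (nat_lit 2145804396),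
  Rx.mk (nat_lit 47) (nat_lit 7) (nat_lit 5) (nat_lit 0) (nat_lit 3) (nat_lit 227) (nat_lit 205) r8_227 r12_205 (nat_lit 0) (nat_lit 0) (nat_lit 9739573) (nat_lit 0x203fec4d7c) (nat_lit 2089940321),
  Rx.mk (nat_lit 107) (nat_lit 3) (nat_lit 5) (nat_lit 1) (nat_lit 7) (nat_lit 226) (nat_lit 204) r8_226 r12_204 (nat_lit 0) (nat_lit 0) (nat_lit 0) (nat_lit 0x2000efab8c) (nat_lit 2147483648),
  Rx.mk (nat_lit 111) (nat_lit 7) (nat_lit 5) (nat_lit 1) (nat_lit 7) (nat_lit 228) (nat_lit 206) r8_228 r12_206 (nat_lit 0) (nat_lit 0) (nat_lit 0) (nat_lit 0x202911d41e) (nat_lit 2104549198),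
  Rx.mk (nat_lit 239) (nat_lit 7) (nat_lit 5) (nat_lit 3) (nat_lit 7) (nat_lit 229) (nat_lit 207) r8_229 r12_207 (nat_lit 0) (nat_lit 0) (nat_lit 0) (nat_lit 0x203b20a61c) (nat_lit 2085320748)]
noncomputable def e26_37 : List Rx := [
  Rx.mk (nat_lit 8) (nat_lit 0) (nat_lit 1) (nat_lit 0) (nat_lit 2) (nat_lit 241) (nat_lit 188) r8_241 r0_188 (nat_lit 134688878) (nat_lit 0) (nat_lit 16981321) (nat_lit 0x1910184f12) (nat_lit 4234336497),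
  Rx.mk (nat_lit 11) (nat_lit 3) (nat_lit 1) (nat_lit 0) (nat_lit 3) (nat_lit 244) (nat_lit 191) r8_244 r0_191 (nat_lit 0) (nat_lit 0) (nat_lit 25551595) (nat_lit 0x1febb7003a) (nat_lit 2195908193),
  Rx.mk (nat_lit 72) (nat_lit 0) (nat_lit 1) (nat_lit 1) (nat_lit 6) (nat_lit 242) (nat_lit 189) r8_242 r0_189 (nat_lit 25858598) (nat_lit 0) (nat_lit 0) (nat_lit 0x1fc8152652) (nat_lit 2234886196),
  Rx.mk (nat_lit 75) (nat_lit 3) (nat_lit 1) (nat_lit 1) (nat_lit 7) (nat_lit 245) (nat_lit 192) r8_245 r0_192 (nat_lit 0) (nat_lit 0) (nat_lit 0) (nat_lit 0x2000efab8c) (nat_lit 2147483648),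
  Rx.mk (nat_lit 136) (nat_lit 0) (nat_lit 1) (nat_lit 2) (nat_lit 6) (nat_lit 243) (nat_lit 190) r8_243 r0_190 (nat_lit 891972013) (nat_lit 0) (nat_lit 0) (nat_lit 0x1ff12e5ad6) (nat_lit 3056376711),
  Rx.mk (nat_lit 139) (nat_lit 3) (nat_lit 1) (nat_lit 2) (nat_lit 7) (nat_lit 246) (nat_lit 194) r8_246 r0_194 (nat_lit 0) (nat_lit 0) (nat_lit 0) (nat_lit 0x2000efab8c) (nat_lit 2147483648),
  Rx.mk (nat_lit 203) (nat_lit 3) (nat_lit 1) (nat_lit 3) (nat_lit 7) (nat_lit 247) (nat_lit 193) r8_247 r0_193 (nat_lit 0) (nat_lit 0) (nat_lit 0) (nat_lit 0x1ff886e3b6) (nat_lit 2156539498)]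
noncomputable def e26_38 : List Rx := [
  Rx.mk (nat_lit 8) (nat_lit 0) (nat_lit 1) (nat_lit 0) (nat_lit 2) (nat_lit 230) (nat_lit 271) r8_230 r0_271 (nat_lit 86496675) (nat_lit 0) (nat_lit 46283751) (nat_lit 0x1881893bee) (nat_lit 4370807724),
  Rx.mk (nat_lit 9) (nat_lit 1) (nat_lit 1) (nat_lit 0) (nat_lit 3) (nat_lit 232) (nat_lit 272) r8_232 r0_272 (nat_lit 0) (nat_lit 0) (nat_lit 65181056) (nat_lit 0x1e983fb0ce) (nat_lit 2605122654),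
  Rx.mk (nat_lit 11) (nat_lit 3) (nat_lit 1) (nat_lit 0) (nat_lit 3) (nat_lit 234) (nat_lit 273) r8_234 r0_273 (nat_lit 0) (nat_lit 0) (nat_lit 42976936) (nat_lit 0x1fef7da476) (nat_lit 2209272234),
  Rx.mk (nat_lit 40) (nat_lit 0) (nat_lit 5) (nat_lit 0) (nat_lit 2) (nat_lit 237) (nat_lit 278) r8_237 r0_278 (nat_lit 24388230) (nat_lit 0) (nat_lit 163911417) (nat_lit 0x1ad23e2188) (nat_lit 3780583995),
  Rx.mk (nat_lit 41) (nat_lit 1) (nat_lit 5) (nat_lit 0) (nat_lit 3) (nat_lit 239) (nat_lit 279) r8_239 r0_279 (nat_lit 0) (nat_lit 0) (nat_lit 47408999) (nat_lit 0x1fcb05a0b2) (nat_lit 2253277997),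
  Rx.mk (nat_lit 72) (nat_lit 0) (nat_lit 1) (nat_lit 1) (nat_lit 6) (nat_lit 231) (nat_lit 274) r8_231 r0_274 (nat_lit 62054356) (nat_lit 0) (nat_lit 0) (nat_lit 0x1e2d15cb80) (nat_lit 2718743404),
  Rx.mk (nat_lit 73) (nat_lit 1) (nat_lit 1) (nat_lit 1) (nat_lit 7) (nat_lit 233) (nat_lit 275) r8_233 r0_275 (nat_lit 0) (nat_lit 0) (nat_lit 0) (nat_lit 0x1fcf833b36) (nat_lit 2200979698),
  Rx.mk (nat_lit 75) (nat_lit 3) (nat_lit 1) (nat_lit 1) (nat_lit 7) (nat_lit 235) (nat_lit 276) r8_235 r0_276 (nat_lit 0) (nat_lit 0) (nat_lit 0) (nat_lit 0x2000efab8c) (nat_lit 2147483648),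
  Rx.mk (nat_lit 104) (nat_lit 0) (nat_lit 5) (nat_lit 1) (nat_lit 6) (nat_lit 238) (nat_lit 280) r8_238 r0_280 (nat_lit 64581062) (nat_lit 0) (nat_lit 0) (nat_lit 0x1e59996e96) (nat_lit 2672770760),
  Rx.mk (nat_lit 105) (nat_lit 1) (nat_lit 5) (nat_lit 1) (nat_lit 7) (nat_lit 240) (nat_lit 281) r8_240 r0_281 (nat_lit 0) (nat_lit 0) (nat_lit 0) (nat_lit 0x200c5303fc) (nat_lit 2135258648),
  Rx.mk (nat_lit 203) (nat_lit 3) (nat_lit 1) (nat_lit 3) (nat_lit 7) (nat_lit 236) (nat_lit 277) r8_236 r0_277 (nat_lit 0) (nat_lit 0) (nat_lit 0) (nat_lit 0x2000efab8c) (nat_lit 2147483648)]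
noncomputable def e26_39 : List Rx := [
  Rx.mk (nat_lit 8) (nat_lit 0) (nat_lit 1) (nat_lit 0) (nat_lit 2) (nat_lit 248) (nat_lit 246) r8_248 r7_246 (nat_lit 32339147) (nat_lit 0) (nat_lit 25017464) (nat_lit 0x17b72f48de) (nat_lit 4515822409),
  Rx.mk (nat_lit 9) (nat_lit 1) (nat_lit 1) (nat_lit 0) (nat_lit 3) (nat_lit 251) (nat_lit 249) r8_251 r7_249 (nat_lit 0) (nat_lit 0) (nat_lit 42592381) (nat_lit 0x1ea87817d8) (nat_lit 2564854829),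
  Rx.mk (nat_lit 11) (nat_lit 3) (nat_lit 1) (nat_lit 0) (nat_lit 3) (nat_lit 254) (nat_lit 252) r8_254 r7_252 (nat_lit 0) (nat_lit 0) (nat_lit 50597122) (nat_lit 0x1f9b7c9094) (nat_lit 2308173370),
  Rx.mk (nat_lit 72) (nat_lit 0) (nat_lit 1) (nat_lit 1) (nat_lit 6) (nat_lit 249) (nat_lit 247) r8_249 r7_247 (nat_lit 43498676) (nat_lit 0) (nat_lit 0) (nat_lit 0x1e36edb668) (nat_lit 2689461224),
  Rx.mk (nat_lit 73) (nat_lit 1) (nat_lit 1) (nat_lit 1) (nat_lit 7) (nat_lit 252) (nat_lit 250) r8_252 r7_250 (nat_lit 0) (nat_lit 0) (nat_lit 0) (nat_lit 0x1ff740ac9e) (nat_lit 2157915398),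
  Rx.mk (nat_lit 75) (nat_lit 3) (nat_lit 1) (nat_lit 1) (nat_lit 7) (nat_lit 255) (nat_lit 253) r8_255 r7_253 (nat_lit 0) (nat_lit 0) (nat_lit 0) (nat_lit 0x2000efab8c) (nat_lit 2147483648),
  Rx.mk (nat_lit 136) (nat_lit 0) (nat_lit 1) (nat_lit 2) (nat_lit 6) (nat_lit 250) (nat_lit 248) r8_250 r7_248 (nat_lit 39267561) (nat_lit 0) (nat_lit 0) (nat_lit 0x2000efab8c) (nat_lit 2186751209),
  Rx.mk (nat_lit 137) (nat_lit 1) (nat_lit 1) (nat_lit 2) (nat_lit 7) (nat_lit 253) (nat_lit 251) r8_253 r7_251 (nat_lit 0) (nat_lit 0) (nat_lit 0) (nat_lit 0x2000efab8c) (nat_lit 2147483648),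
  Rx.mk (nat_lit 203) (nat_lit 3) (nat_lit 1) (nat_lit 3) (nat_lit 7) (nat_lit 256) (nat_lit 254) r8_256 r7_254 (nat_lit 0) (nat_lit 0) (nat_lit 0) (nat_lit 0x2000efab8c) (nat_lit 2147483648)]
noncomputable def e26_40 : List Rx := [
  Rx.mk (nat_lit 73) (nat_lit 1) (nat_lit 1) (nat_lit 1) (nat_lit 7) (nat_lit 320) (nat_lit 301) r8_320 r2_301 (nat_lit 0) (nat_lit 0) (nat_lit 0) (nat_lit 0x2000efab8c) (nat_lit 2147483648),
  Rx.mk (nat_lit 105) (nat_lit 1) (nat_lit 5) (nat_lit 1) (nat_lit 7) (nat_lit 321) (nat_lit 302) r8_321 r2_302 (nat_lit 0) (nat_lit 0) (nat_lit 0) (nat_lit 0x2000efab8c) (nat_lit 2147483648),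
  Rx.mk (nat_lit 109) (nat_lit 5) (nat_lit 5) (nat_lit 1) (nat_lit 7) (nat_lit 322) (nat_lit 303) r8_322 r2_303 (nat_lit 0) (nat_lit 0) (nat_lit 0) (nat_lit 0x2000efab8c) (nat_lit 2147483648)]
noncomputable def e26_41 : List Rx := [
  Rx.mk (nat_lit 73) (nat_lit 1) (nat_lit 1) (nat_lit 1) (nat_lit 7) (nat_lit 326) (nat_lit 289) r8_326 r9_289 (nat_lit 0) (nat_lit 0) (nat_lit 0) (nat_lit 0x2000efab8c) (nat_lit 2147483648)]
noncomputable def e26_42 : List Rx := [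
  Rx.mk (nat_lit 73) (nat_lit 1) (nat_lit 1) (nat_lit 1) (nat_lit 7) (nat_lit 327) (nat_lit 297) r8_327 r9_297 (nat_lit 0) (nat_lit 0) (nat_lit 0) (nat_lit 0x2000efab8c) (nat_lit 2147483648),
  Rx.mk (nat_lit 105) (nat_lit 1) (nat_lit 5) (nat_lit 1) (nat_lit 7) (nat_lit 328) (nat_lit 296) r8_328 r9_296 (nat_lit 0) (nat_lit 0) (nat_lit 0) (nat_lit 0x2000efab8c) (nat_lit 2147483648),
  Rx.mk (nat_lit 109) (nat_lit 5) (nat_lit 5) (nat_lit 1) (nat_lit 7) (nat_lit 329) (nat_lit 295) r8_329 r9_295 (nat_lit 0) (nat_lit 0) (nat_lit 0) (nat_lit 0x2000efab8c) (nat_lit 2147483648),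
  Rx.mk (nat_lit 365) (nat_lit 5) (nat_lit 5) (nat_lit 5) (nat_lit 7) (nat_lit 330) (nat_lit 294) r8_330 r9_294 (nat_lit 0) (nat_lit 0) (nat_lit 0) (nat_lit 0x2000efab8c) (nat_lit 2147483648)]
noncomputable def e26_43 : List Rx := [
  Rx.mk (nat_lit 9) (nat_lit 1) (nat_lit 1) (nat_lit 0) (nat_lit 3) (nat_lit 316) (nat_lit 274) r8_316 r1_274 (nat_lit 0) (nat_lit 0) (nat_lit 39267561) (nat_lit 0x1fef7f6eaa) (nat_lit 2205554259),
  Rx.mk (nat_lit 41) (nat_lit 1) (nat_lit 5) (nat_lit 0) (nat_lit 3) (nat_lit 318) (nat_lit 276) r8_318 r1_276 (nat_lit 0) (nat_lit 0) (nat_lit 39267561) (nat_lit 0x1ff0e65fec) (nat_lit 2204037509),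
  Rx.mk (nat_lit 73) (nat_lit 1) (nat_lit 1) (nat_lit 1) (nat_lit 7) (nat_lit 317) (nat_lit 275) r8_317 r1_275 (nat_lit 0) (nat_lit 0) (nat_lit 0) (nat_lit 0x2000efab8c) (nat_lit 2147483648),
  Rx.mk (nat_lit 105) (nat_lit 1) (nat_lit 5) (nat_lit 1) (nat_lit 7) (nat_lit 319) (nat_lit 277) r8_319 r1_277 (nat_lit 0) (nat_lit 0) (nat_lit 0) (nat_lit 0x2000efab8c) (nat_lit 2147483648)]
noncomputable def e26_44 : List Rx := [
  Rx.mk (nat_lit 9) (nat_lit 1) (nat_lit 1) (nat_lit 0) (nat_lit 3) (nat_lit 323) (nat_lit 191) r8_323 r8_191 (nat_lit 0) (nat_lit 0) (nat_lit 39267561) (nat_lit 0x2000efab8c) (nat_lit 2186751209),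
  Rx.mk (nat_lit 73) (nat_lit 1) (nat_lit 1) (nat_lit 1) (nat_lit 7) (nat_lit 324) (nat_lit 192) r8_324 r8_192 (nat_lit 0) (nat_lit 0) (nat_lit 0) (nat_lit 0x2000efab8c) (nat_lit 2147483648),
  Rx.mk (nat_lit 137) (nat_lit 1) (nat_lit 1) (nat_lit 2) (nat_lit 7) (nat_lit 325) (nat_lit 193) r8_325 r8_193 (nat_lit 0) (nat_lit 0) (nat_lit 0) (nat_lit 0x2000efab8c) (nat_lit 2147483648)]
noncomputable def e26_45 : List Rx := [
  Rx.mk (nat_lit 0) (nat_lit 0) (nat_lit 0) (nat_lit 0) (nat_lit 0) (nat_lit 283) (nat_lit 201) r8_283 r1_201 (nat_lit 484020532) (nat_lit 7323482) (nat_lit 32397036) (nat_lit 0x13e369bd0c) (nat_lit 6049527898),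
  Rx.mk (nat_lit 3) (nat_lit 3) (nat_lit 0) (nat_lit 0) (nat_lit 1) (nat_lit 286) (nat_lit 206) r8_286 r1_206 (nat_lit 0) (nat_lit 27344673) (nat_lit 36830483) (nat_lit 0x1c7b583c9e) (nat_lit 3193391554),
  Rx.mk (nat_lit 8) (nat_lit 0) (nat_lit 1) (nat_lit 0) (nat_lit 2) (nat_lit 289) (nat_lit 202) r8_289 r1_202 (nat_lit 84384775) (nat_lit 0) (nat_lit 58098200) (nat_lit 0x1938d5f5e4) (nat_lit 4180824223),
  Rx.mk (nat_lit 11) (nat_lit 3) (nat_lit 1) (nat_lit 0) (nat_lit 3) (nat_lit 293) (nat_lit 207) r8_293 r1_207 (nat_lit 0) (nat_lit 0) (nat_lit 44597766) (nat_lit 0x1fed6c06b4) (nat_lit 2213131614),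
  Rx.mk (nat_lit 72) (nat_lit 0) (nat_lit 1) (nat_lit 1) (nat_lit 6) (nat_lit 290) (nat_lit 203) r8_290 r1_203 (nat_lit 54214793) (nat_lit 0) (nat_lit 0) (nat_lit 0x1fe53246e8) (nat_lit 2231662541),
  Rx.mk (nat_lit 75) (nat_lit 3) (nat_lit 1) (nat_lit 1) (nat_lit 7) (nat_lit 294) (nat_lit 208) r8_294 r1_208 (nat_lit 0) (nat_lit 0) (nat_lit 0) (nat_lit 0x2000efab8c) (nat_lit 2147483648),
  Rx.mk (nat_lit 128) (nat_lit 0) (nat_lit 0) (nat_lit 2) (nat_lit 4) (nat_lit 284) (nat_lit 204) r8_284 r1_204 (nat_lit 146702327) (nat_lit 26973616) (nat_lit 0) (nat_lit 0x19df8c7426) (nat_lit 4030389141),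
  Rx.mk (nat_lit 130) (nat_lit 2) (nat_lit 0) (nat_lit 2) (nat_lit 5) (nat_lit 285) (nat_lit 214) r8_285 r1_214 (nat_lit 0) (nat_lit 32746299) (nat_lit 0) (nat_lit 0x1b0b80abe6) (nat_lit 3562682797),
  Rx.mk (nat_lit 131) (nat_lit 3) (nat_lit 0) (nat_lit 2) (nat_lit 5) (nat_lit 287) (nat_lit 212) r8_287 r1_212 (nat_lit 0) (nat_lit 39267561) (nat_lit 0) (nat_lit 0x2000efab8c) (nat_lit 2186751209),
  Rx.mk (nat_lit 136) (nat_lit 0) (nat_lit 1) (nat_lit 2) (nat_lit 6) (nat_lit 291) (nat_lit 205) r8_291 r1_205 (nat_lit 137838509) (nat_lit 0) (nat_lit 0) (nat_lit 0x1ff65fa53c) (nat_lit 2296666257),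
  Rx.mk (nat_lit 138) (nat_lit 2) (nat_lit 1) (nat_lit 2) (nat_lit 7) (nat_lit 292) (nat_lit 215) r8_292 r1_215 (nat_lit 0) (nat_lit 0) (nat_lit 0) (nat_lit 0x201c5e2d26) (nat_lit 2118086598),
  Rx.mk (nat_lit 139) (nat_lit 3) (nat_lit 1) (nat_lit 2) (nat_lit 7) (nat_lit 295) (nat_lit 213) r8_295 r1_213 (nat_lit 0) (nat_lit 0) (nat_lit 0) (nat_lit 0x2000efab8c) (nat_lit 2147483648),
  Rx.mk (nat_lit 146) (nat_lit 2) (nat_lit 2) (nat_lit 2) (nat_lit 7) (nat_lit 297) (nat_lit 216) r8_297 r1_216 (nat_lit 0) (nat_lit 0) (nat_lit 0) (nat_lit 0x1fcf859ed0) (nat_lit 2200966248),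
  Rx.mk (nat_lit 195) (nat_lit 3) (nat_lit 0) (nat_lit 3) (nat_lit 5) (nat_lit 288) (nat_lit 209) r8_288 r1_209 (nat_lit 0) (nat_lit 39267561) (nat_lit 0) (nat_lit 0x1ff72d5586) (nat_lit 2197260559),
  Rx.mk (nat_lit 203) (nat_lit 3) (nat_lit 1) (nat_lit 3) (nat_lit 7) (nat_lit 296) (nat_lit 210) r8_296 r1_210 (nat_lit 0) (nat_lit 0) (nat_lit 0) (nat_lit 0x2000efab8c) (nat_lit 2147483648),
  Rx.mk (nat_lit 219) (nat_lit 3) (nat_lit 3) (nat_lit 3) (nat_lit 7) (nat_lit 298) (nat_lit 211) r8_298 r1_211 (nat_lit 0) (nat_lit 0) (nat_lit 0) (nat_lit 0x2000efab8c) (nat_lit 2147483648)]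
noncomputable def e26_46 : List Rx := [
  Rx.mk (nat_lit 0) (nat_lit 0) (nat_lit 0) (nat_lit 0) (nat_lit 0) (nat_lit 257) (nat_lit 221) r8_257 r2_221 (nat_lit 24375812) (nat_lit 12353548) (nat_lit 9565204) (nat_lit 0x10dc384f24) (nat_lit 6416614212),
  Rx.mk (nat_lit 3) (nat_lit 3) (nat_lit 0) (nat_lit 0) (nat_lit 1) (nat_lit 260) (nat_lit 223) r8_260 r2_223 (nat_lit 0) (nat_lit 20716858) (nat_lit 22274922) (nat_lit 0x1b905154ec) (nat_lit 3428243528),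
  Rx.mk (nat_lit 27) (nat_lit 3) (nat_lit 3) (nat_lit 0) (nat_lit 3) (nat_lit 263) (nat_lit 224) r8_263 r2_224 (nat_lit 0) (nat_lit 0) (nat_lit 40979706) (nat_lit 0x1fec09fc7c) (nat_lit 2211011354),
  Rx.mk (nat_lit 128) (nat_lit 0) (nat_lit 0) (nat_lit 2) (nat_lit 4) (nat_lit 258) (nat_lit 222) r8_258 r2_222 (nat_lit 102122857) (nat_lit 40804876) (nat_lit 0) (nat_lit 0x1bafb4909c) (nat_lit 3493971381),
  Rx.mk (nat_lit 130) (nat_lit 2) (nat_lit 0) (nat_lit 2) (nat_lit 5) (nat_lit 259) (nat_lit 228) r8_259 r2_228 (nat_lit 0) (nat_lit 39267561) (nat_lit 0) (nat_lit 0x2000efab8c) (nat_lit 2186751209),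
  Rx.mk (nat_lit 131) (nat_lit 3) (nat_lit 0) (nat_lit 2) (nat_lit 5) (nat_lit 261) (nat_lit 226) r8_261 r2_226 (nat_lit 0) (nat_lit 39267561) (nat_lit 0) (nat_lit 0x2000efab8c) (nat_lit 2186751209),
  Rx.mk (nat_lit 146) (nat_lit 2) (nat_lit 2) (nat_lit 2) (nat_lit 7) (nat_lit 262) (nat_lit 229) r8_262 r2_229 (nat_lit 0) (nat_lit 0) (nat_lit 0) (nat_lit 0x2000efab8c) (nat_lit 2147483648),
  Rx.mk (nat_lit 155) (nat_lit 3) (nat_lit 3) (nat_lit 2) (nat_lit 7) (nat_lit 264) (nat_lit 227) r8_264 r2_227 (nat_lit 0) (nat_lit 0) (nat_lit 0) (nat_lit 0x2000efab8c) (nat_lit 2147483648),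
  Rx.mk (nat_lit 219) (nat_lit 3) (nat_lit 3) (nat_lit 3) (nat_lit 7) (nat_lit 265) (nat_lit 225) r8_265 r2_225 (nat_lit 0) (nat_lit 0) (nat_lit 0) (nat_lit 0x2000efab8c) (nat_lit 2147483648)]
noncomputable def e26_47 : List Rx := [
  Rx.mk (nat_lit 0) (nat_lit 0) (nat_lit 0) (nat_lit 0) (nat_lit 0) (nat_lit 299) (nat_lit 299) r8_299 r8_299 (nat_lit 272999578) (nat_lit 45926657) (nat_lit 272999578) (nat_lit 0x12deffed32) (nat_lit 6401471711),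
  Rx.mk (nat_lit 3) (nat_lit 3) (nat_lit 0) (nat_lit 0) (nat_lit 1) (nat_lit 302) (nat_lit 300) r8_302 r8_300 (nat_lit 0) (nat_lit 50348007) (nat_lit 115124764) (nat_lit 0x1d0d16e680) (nat_lit 3135898419),
  Rx.mk (nat_lit 8) (nat_lit 0) (nat_lit 1) (nat_lit 0) (nat_lit 2) (nat_lit 304) (nat_lit 304) r8_304 r8_304 (nat_lit 172342969) (nat_lit 0) (nat_lit 172342969) (nat_lit 0x1c3477d866) (nat_lit 3551116136),
  Rx.mk (nat_lit 9) (nat_lit 1) (nat_lit 1) (nat_lit 0) (nat_lit 3) (nat_lit 307) (nat_lit 305) r8_307 r8_305 (nat_lit 0) (nat_lit 0) (nat_lit 39267561) (nat_lit 0x2000efab8c) (nat_lit 2186751209),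
  Rx.mk (nat_lit 11) (nat_lit 3) (nat_lit 1) (nat_lit 0) (nat_lit 3) (nat_lit 311) (nat_lit 306) r8_311 r8_306 (nat_lit 0) (nat_lit 0) (nat_lit 39267561) (nat_lit 0x2000efab8c) (nat_lit 2186751209),
  Rx.mk (nat_lit 72) (nat_lit 0) (nat_lit 1) (nat_lit 1) (nat_lit 6) (nat_lit 305) (nat_lit 307) r8_305 r8_307 (nat_lit 39267561) (nat_lit 0) (nat_lit 0) (nat_lit 0x2000efab8c) (nat_lit 2186751209),
  Rx.mk (nat_lit 73) (nat_lit 1) (nat_lit 1) (nat_lit 1) (nat_lit 7) (nat_lit 308) (nat_lit 308) r8_308 r8_308 (nat_lit 0) (nat_lit 0) (nat_lit 0) (nat_lit 0x2000efab8c) (nat_lit 2147483648),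
  Rx.mk (nat_lit 75) (nat_lit 3) (nat_lit 1) (nat_lit 1) (nat_lit 7) (nat_lit 312) (nat_lit 309) r8_312 r8_309 (nat_lit 0) (nat_lit 0) (nat_lit 0) (nat_lit 0x2000efab8c) (nat_lit 2147483648),
  Rx.mk (nat_lit 128) (nat_lit 0) (nat_lit 0) (nat_lit 2) (nat_lit 4) (nat_lit 300) (nat_lit 302) r8_300 r8_302 (nat_lit 115124764) (nat_lit 50348007) (nat_lit 0) (nat_lit 0x1d0d16e680) (nat_lit 3135898419),
  Rx.mk (nat_lit 130) (nat_lit 2) (nat_lit 0) (nat_lit 2) (nat_lit 5) (nat_lit 301) (nat_lit 303) r8_301 r8_303 (nat_lit 0) (nat_lit 39267561) (nat_lit 0) (nat_lit 0x2000efab8c) (nat_lit 2186751209),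
  Rx.mk (nat_lit 136) (nat_lit 0) (nat_lit 1) (nat_lit 2) (nat_lit 6) (nat_lit 306) (nat_lit 311) r8_306 r8_311 (nat_lit 39267561) (nat_lit 0) (nat_lit 0) (nat_lit 0x2000efab8c) (nat_lit 2186751209),
  Rx.mk (nat_lit 137) (nat_lit 1) (nat_lit 1) (nat_lit 2) (nat_lit 7) (nat_lit 309) (nat_lit 312) r8_309 r8_312 (nat_lit 0) (nat_lit 0) (nat_lit 0) (nat_lit 0x2000efab8c) (nat_lit 2147483648),
  Rx.mk (nat_lit 138) (nat_lit 2) (nat_lit 1) (nat_lit 2) (nat_lit 7) (nat_lit 310) (nat_lit 313) r8_310 r8_313 (nat_lit 0) (nat_lit 0) (nat_lit 0) (nat_lit 0x2000efab8c) (nat_lit 2147483648),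
  Rx.mk (nat_lit 146) (nat_lit 2) (nat_lit 2) (nat_lit 2) (nat_lit 7) (nat_lit 314) (nat_lit 315) r8_314 r8_315 (nat_lit 0) (nat_lit 0) (nat_lit 0) (nat_lit 0x2000efab8c) (nat_lit 2147483648),
  Rx.mk (nat_lit 195) (nat_lit 3) (nat_lit 0) (nat_lit 3) (nat_lit 5) (nat_lit 303) (nat_lit 301) r8_303 r8_301 (nat_lit 0) (nat_lit 39267561) (nat_lit 0) (nat_lit 0x2000efab8c) (nat_lit 2186751209),
  Rx.mk (nat_lit 203) (nat_lit 3) (nat_lit 1) (nat_lit 3) (nat_lit 7) (nat_lit 313) (nat_lit 310) r8_313 r8_310 (nat_lit 0) (nat_lit 0) (nat_lit 0) (nat_lit 0x2000efab8c) (nat_lit 2147483648),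
  Rx.mk (nat_lit 219) (nat_lit 3) (nat_lit 3) (nat_lit 3) (nat_lit 7) (nat_lit 315) (nat_lit 314) r8_315 r8_314 (nat_lit 0) (nat_lit 0) (nat_lit 0) (nat_lit 0x2000efab8c) (nat_lit 2147483648)]
noncomputable def e26_48 : List Rx := [
  Rx.mk (nat_lit 0) (nat_lit 0) (nat_lit 0) (nat_lit 0) (nat_lit 0) (nat_lit 266) (nat_lit 202) r8_266 r9_202 (nat_lit 126737006) (nat_lit 43238125) (nat_lit 47555172) (nat_lit 0x10fb15863c) (nat_lit 6554274751),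
  Rx.mk (nat_lit 3) (nat_lit 3) (nat_lit 0) (nat_lit 0) (nat_lit 1) (nat_lit 269) (nat_lit 204) r8_269 r9_204 (nat_lit 0) (nat_lit 43192571) (nat_lit 34100939) (nat_lit 0x1c6c16fa7c) (nat_lit 3223121158),
  Rx.mk (nat_lit 27) (nat_lit 3) (nat_lit 3) (nat_lit 0) (nat_lit 3) (nat_lit 271) (nat_lit 205) r8_271 r9_205 (nat_lit 0) (nat_lit 0) (nat_lit 39267561) (nat_lit 0x2000efab8c) (nat_lit 2186751209),
  Rx.mk (nat_lit 128) (nat_lit 0) (nat_lit 0) (nat_lit 2) (nat_lit 4) (nat_lit 267) (nat_lit 203) r8_267 r9_203 (nat_lit 47787285) (nat_lit 51805718) (nat_lit 0) (nat_lit 0x1c53d5173c) (nat_lit 3271827351),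
  Rx.mk (nat_lit 130) (nat_lit 2) (nat_lit 0) (nat_lit 2) (nat_lit 5) (nat_lit 268) (nat_lit 207) r8_268 r9_207 (nat_lit 0) (nat_lit 39267561) (nat_lit 0) (nat_lit 0x2000efab8c) (nat_lit 2186751209),
  Rx.mk (nat_lit 146) (nat_lit 2) (nat_lit 2) (nat_lit 2) (nat_lit 7) (nat_lit 270) (nat_lit 208) r8_270 r9_208 (nat_lit 0) (nat_lit 0) (nat_lit 0) (nat_lit 0x2000efab8c) (nat_lit 2147483648),
  Rx.mk (nat_lit 219) (nat_lit 3) (nat_lit 3) (nat_lit 3) (nat_lit 7) (nat_lit 272) (nat_lit 206) r8_272 r9_206 (nat_lit 0) (nat_lit 0) (nat_lit 0) (nat_lit 0x2000efab8c) (nat_lit 2147483648)]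
noncomputable def e26_49 : List Rx := [
  Rx.mk (nat_lit 0) (nat_lit 0) (nat_lit 0) (nat_lit 0) (nat_lit 0) (nat_lit 273) (nat_lit 99) r8_273 r9_99 (nat_lit 47607645) (nat_lit 13680785) (nat_lit 16625292) (nat_lit 0xfcbb0eb94) (nat_lit 6745146670),
  Rx.mk (nat_lit 3) (nat_lit 3) (nat_lit 0) (nat_lit 0) (nat_lit 1) (nat_lit 276) (nat_lit 100) r8_276 r9_100 (nat_lit 0) (nat_lit 33475329) (nat_lit 26438322) (nat_lit 0x1afa500b14) (nat_lit 3608573699),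
  Rx.mk (nat_lit 27) (nat_lit 3) (nat_lit 3) (nat_lit 0) (nat_lit 3) (nat_lit 280) (nat_lit 101) r8_280 r9_101 (nat_lit 0) (nat_lit 0) (nat_lit 39267561) (nat_lit 0x1ffbfbea5a) (nat_lit 2192079359),
  Rx.mk (nat_lit 128) (nat_lit 0) (nat_lit 0) (nat_lit 2) (nat_lit 4) (nat_lit 274) (nat_lit 103) r8_274 r9_103 (nat_lit 46653649) (nat_lit 33680415) (nat_lit 0) (nat_lit 0x1aeb3866c6) (nat_lit 3645445662),
  Rx.mk (nat_lit 130) (nat_lit 2) (nat_lit 0) (nat_lit 2) (nat_lit 5) (nat_lit 275) (nat_lit 106) r8_275 r9_106 (nat_lit 0) (nat_lit 39267561) (nat_lit 0) (nat_lit 0x2000efab8c) (nat_lit 2186751209),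
  Rx.mk (nat_lit 131) (nat_lit 3) (nat_lit 0) (nat_lit 2) (nat_lit 5) (nat_lit 277) (nat_lit 104) r8_277 r9_104 (nat_lit 0) (nat_lit 39267561) (nat_lit 0) (nat_lit 0x2000efab8c) (nat_lit 2186751209),
  Rx.mk (nat_lit 146) (nat_lit 2) (nat_lit 2) (nat_lit 2) (nat_lit 7) (nat_lit 278) (nat_lit 107) r8_278 r9_107 (nat_lit 0) (nat_lit 0) (nat_lit 0) (nat_lit 0x2000efab8c) (nat_lit 2147483648),
  Rx.mk (nat_lit 155) (nat_lit 3) (nat_lit 3) (nat_lit 2) (nat_lit 7) (nat_lit 281) (nat_lit 105) r8_281 r9_105 (nat_lit 0) (nat_lit 0) (nat_lit 0) (nat_lit 0x2000efab8c) (nat_lit 2147483648),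
  Rx.mk (nat_lit 219) (nat_lit 3) (nat_lit 3) (nat_lit 3) (nat_lit 7) (nat_lit 282) (nat_lit 102) r8_282 r9_102 (nat_lit 0) (nat_lit 0) (nat_lit 0) (nat_lit 0x2000efab8c) (nat_lit 2147483648),
  Rx.mk (nat_lit 402) (nat_lit 2) (nat_lit 2) (nat_lit 6) (nat_lit 7) (nat_lit 279) (nat_lit 108) r8_279 r9_108 (nat_lit 0) (nat_lit 0) (nat_lit 0) (nat_lit 0x2000efab8c) (nat_lit 2147483648)]
noncomputable def e26_50 : List Rx := [
  Rx.mk (nat_lit 11) (nat_lit 3) (nat_lit 1) (nat_lit 0) (nat_lit 3) (nat_lit 331) (nat_lit 176) r8_331 r3_176 (nat_lit 0) (nat_lit 0) (nat_lit 6961748) (nat_lit 0x1cd84063e6) (nat_lit 3034857646),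
  Rx.mk (nat_lit 40) (nat_lit 0) (nat_lit 5) (nat_lit 0) (nat_lit 2) (nat_lit 334) (nat_lit 173) r8_334 r3_173 (nat_lit 205065) (nat_lit 0) (nat_lit 365336) (nat_lit 0x1a135a113c) (nat_lit 3800382449),
  Rx.mk (nat_lit 43) (nat_lit 3) (nat_lit 5) (nat_lit 0) (nat_lit 3) (nat_lit 336) (nat_lit 175) r8_336 r3_175 (nat_lit 0) (nat_lit 0) (nat_lit 445186) (nat_lit 0x1d8f2d2f9e) (nat_lit 2828704184),
  Rx.mk (nat_lit 75) (nat_lit 3) (nat_lit 1) (nat_lit 1) (nat_lit 7) (nat_lit 332) (nat_lit 178) r8_332 r3_178 (nat_lit 0) (nat_lit 0) (nat_lit 0) (nat_lit 0x2015b55508) (nat_lit 2125211748),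
  Rx.mk (nat_lit 104) (nat_lit 0) (nat_lit 5) (nat_lit 1) (nat_lit 6) (nat_lit 335) (nat_lit 174) r8_335 r3_174 (nat_lit 20623991) (nat_lit 0) (nat_lit 0) (nat_lit 0x1cc9abc51e) (nat_lit 3064448589),
  Rx.mk (nat_lit 107) (nat_lit 3) (nat_lit 5) (nat_lit 1) (nat_lit 7) (nat_lit 337) (nat_lit 177) r8_337 r3_177 (nat_lit 0) (nat_lit 0) (nat_lit 0) (nat_lit 0x1feb9b0a56) (nat_lit 2170477498),
  Rx.mk (nat_lit 203) (nat_lit 3) (nat_lit 1) (nat_lit 3) (nat_lit 7) (nat_lit 333) (nat_lit 179) r8_333 r3_179 (nat_lit 0) (nat_lit 0) (nat_lit 0) (nat_lit 0x1e81357a58) (nat_lit 2565026948)]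
noncomputable def e26_51 : List Rx := [
  Rx.mk (nat_lit 11) (nat_lit 3) (nat_lit 1) (nat_lit 0) (nat_lit 3) (nat_lit 351) (nat_lit 177) r8_351 r4_177 (nat_lit 0) (nat_lit 0) (nat_lit 23283002) (nat_lit 0x201629b4c0) (nat_lit 2147997650),
  Rx.mk (nat_lit 75) (nat_lit 3) (nat_lit 1) (nat_lit 1) (nat_lit 7) (nat_lit 352) (nat_lit 178) r8_352 r4_178 (nat_lit 0) (nat_lit 0) (nat_lit 0) (nat_lit 0x20158b4b32) (nat_lit 2125394898),
  Rx.mk (nat_lit 139) (nat_lit 3) (nat_lit 1) (nat_lit 2) (nat_lit 7) (nat_lit 353) (nat_lit 180) r8_353 r4_180 (nat_lit 0) (nat_lit 0) (nat_lit 0) (nat_lit 0x20158b4b32) (nat_lit 2125394898),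
  Rx.mk (nat_lit 203) (nat_lit 3) (nat_lit 1) (nat_lit 3) (nat_lit 7) (nat_lit 354) (nat_lit 179) r8_354 r4_179 (nat_lit 0) (nat_lit 0) (nat_lit 0) (nat_lit 0x2000efab8c) (nat_lit 2147483648)]
noncomputable def e26_52 : List Rx := [
  Rx.mk (nat_lit 40) (nat_lit 0) (nat_lit 5) (nat_lit 0) (nat_lit 2) (nat_lit 362) (nat_lit 191) r8_362 r5_191 (nat_lit 541463840) (nat_lit 0) (nat_lit 36830427) (nat_lit 0x1d28b706cc) (nat_lit 3518610915),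
  Rx.mk (nat_lit 43) (nat_lit 3) (nat_lit 5) (nat_lit 0) (nat_lit 3) (nat_lit 364) (nat_lit 193) r8_364 r5_193 (nat_lit 0) (nat_lit 0) (nat_lit 49389029) (nat_lit 0x1fc32a3312) (nat_lit 2263781527),
  Rx.mk (nat_lit 104) (nat_lit 0) (nat_lit 5) (nat_lit 1) (nat_lit 6) (nat_lit 363) (nat_lit 192) r8_363 r5_192 (nat_lit 39267561) (nat_lit 0) (nat_lit 0) (nat_lit 0x2000efab8c) (nat_lit 2186751209),
  Rx.mk (nat_lit 107) (nat_lit 3) (nat_lit 5) (nat_lit 1) (nat_lit 7) (nat_lit 365) (nat_lit 194) r8_365 r5_194 (nat_lit 0) (nat_lit 0) (nat_lit 0) (nat_lit 0x200d42af60) (nat_lit 2134256348),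
  Rx.mk (nat_lit 203) (nat_lit 3) (nat_lit 1) (nat_lit 3) (nat_lit 7) (nat_lit 361) (nat_lit 196) r8_361 r5_196 (nat_lit 0) (nat_lit 0) (nat_lit 0) (nat_lit 0x1ff4a82bba) (nat_lit 2160712398),
  Rx.mk (nat_lit 235) (nat_lit 3) (nat_lit 5) (nat_lit 3) (nat_lit 7) (nat_lit 366) (nat_lit 195) r8_366 r5_195 (nat_lit 0) (nat_lit 0) (nat_lit 0) (nat_lit 0x1fe0f94798) (nat_lit 2182018948)]
noncomputable def e26_53 : List Rx := [
  Rx.mk (nat_lit 11) (nat_lit 3) (nat_lit 1) (nat_lit 0) (nat_lit 3) (nat_lit 338) (nat_lit 284) r8_338 r4_284 (nat_lit 0) (nat_lit 0) (nat_lit 39267561) (nat_lit 0x2000efab8c) (nat_lit 2186751209),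
  Rx.mk (nat_lit 40) (nat_lit 0) (nat_lit 5) (nat_lit 0) (nat_lit 2) (nat_lit 341) (nat_lit 287) r8_341 r4_287 (nat_lit 331596275) (nat_lit 0) (nat_lit 59471417) (nat_lit 0x1d9f8af25e) (nat_lit 3201944590),
  Rx.mk (nat_lit 41) (nat_lit 1) (nat_lit 5) (nat_lit 0) (nat_lit 3) (nat_lit 343) (nat_lit 288) r8_343 r4_288 (nat_lit 0) (nat_lit 0) (nat_lit 39267561) (nat_lit 0x2000efab8c) (nat_lit 2186751209),
  Rx.mk (nat_lit 43) (nat_lit 3) (nat_lit 5) (nat_lit 0) (nat_lit 3) (nat_lit 345) (nat_lit 289) r8_345 r4_289 (nat_lit 0) (nat_lit 0) (nat_lit 31791046) (nat_lit 0x20094cfbe0) (nat_lit 2170292194),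
  Rx.mk (nat_lit 75) (nat_lit 3) (nat_lit 1) (nat_lit 1) (nat_lit 7) (nat_lit 339) (nat_lit 285) r8_339 r4_285 (nat_lit 0) (nat_lit 0) (nat_lit 0) (nat_lit 0x2000efab8c) (nat_lit 2147483648),
  Rx.mk (nat_lit 104) (nat_lit 0) (nat_lit 5) (nat_lit 1) (nat_lit 6) (nat_lit 342) (nat_lit 290) r8_342 r4_290 (nat_lit 64302537) (nat_lit 0) (nat_lit 0) (nat_lit 0x1feb8774aa) (nat_lit 2234884635),
  Rx.mk (nat_lit 105) (nat_lit 1) (nat_lit 5) (nat_lit 1) (nat_lit 7) (nat_lit 344) (nat_lit 291) r8_344 r4_291 (nat_lit 0) (nat_lit 0) (nat_lit 0) (nat_lit 0x2000efab8c) (nat_lit 2147483648),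
  Rx.mk (nat_lit 107) (nat_lit 3) (nat_lit 5) (nat_lit 1) (nat_lit 7) (nat_lit 346) (nat_lit 292) r8_346 r4_292 (nat_lit 0) (nat_lit 0) (nat_lit 0) (nat_lit 0x2000efab8c) (nat_lit 2147483648),
  Rx.mk (nat_lit 203) (nat_lit 3) (nat_lit 1) (nat_lit 3) (nat_lit 7) (nat_lit 340) (nat_lit 286) r8_340 r4_286 (nat_lit 0) (nat_lit 0) (nat_lit 0) (nat_lit 0x2000efab8c) (nat_lit 2147483648)]
noncomputable def e26_54 : List Rx := [
  Rx.mk (nat_lit 11) (nat_lit 3) (nat_lit 1) (nat_lit 0) (nat_lit 3) (nat_lit 355) (nat_lit 195) r8_355 r10_195 (nat_lit 0) (nat_lit 0) (nat_lit 39267561) (nat_lit 0x2000efab8c) (nat_lit 2186751209),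
  Rx.mk (nat_lit 75) (nat_lit 3) (nat_lit 1) (nat_lit 1) (nat_lit 7) (nat_lit 356) (nat_lit 196) r8_356 r10_196 (nat_lit 0) (nat_lit 0) (nat_lit 0) (nat_lit 0x2000efab8c) (nat_lit 2147483648),
  Rx.mk (nat_lit 203) (nat_lit 3) (nat_lit 1) (nat_lit 3) (nat_lit 7) (nat_lit 357) (nat_lit 197) r8_357 r10_197 (nat_lit 0) (nat_lit 0) (nat_lit 0) (nat_lit 0x2000efab8c) (nat_lit 2147483648)]
noncomputable def e26_55 : List Rx := [
  Rx.mk (nat_lit 40) (nat_lit 0) (nat_lit 5) (nat_lit 0) (nat_lit 2) (nat_lit 368) (nat_lit 222) r8_368 r11_222 (nat_lit 295948041) (nat_lit 0) (nat_lit 141680864) (nat_lit 0x1d8a86c9be) (nat_lit 3271412203),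
  Rx.mk (nat_lit 41) (nat_lit 1) (nat_lit 5) (nat_lit 0) (nat_lit 3) (nat_lit 370) (nat_lit 224) r8_370 r11_224 (nat_lit 0) (nat_lit 0) (nat_lit 39267561) (nat_lit 0x2000efab8c) (nat_lit 2186751209),
  Rx.mk (nat_lit 43) (nat_lit 3) (nat_lit 5) (nat_lit 0) (nat_lit 3) (nat_lit 372) (nat_lit 226) r8_372 r11_226 (nat_lit 0) (nat_lit 0) (nat_lit 39267561) (nat_lit 0x2000efab8c) (nat_lit 2186751209),
  Rx.mk (nat_lit 104) (nat_lit 0) (nat_lit 5) (nat_lit 1) (nat_lit 6) (nat_lit 369) (nat_lit 223) r8_369 r11_223 (nat_lit 68012220) (nat_lit 0) (nat_lit 0) (nat_lit 0x1fe98c2c5e) (nat_lit 2240740918),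
  Rx.mk (nat_lit 105) (nat_lit 1) (nat_lit 5) (nat_lit 1) (nat_lit 7) (nat_lit 371) (nat_lit 225) r8_371 r11_225 (nat_lit 0) (nat_lit 0) (nat_lit 0) (nat_lit 0x2000efab8c) (nat_lit 2147483648),
  Rx.mk (nat_lit 107) (nat_lit 3) (nat_lit 5) (nat_lit 1) (nat_lit 7) (nat_lit 373) (nat_lit 227) r8_373 r11_227 (nat_lit 0) (nat_lit 0) (nat_lit 0) (nat_lit 0x2000efab8c) (nat_lit 2147483648),
  Rx.mk (nat_lit 203) (nat_lit 3) (nat_lit 1) (nat_lit 3) (nat_lit 7) (nat_lit 367) (nat_lit 229) r8_367 r11_229 (nat_lit 0) (nat_lit 0) (nat_lit 0) (nat_lit 0x2000efab8c) (nat_lit 2147483648),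
  Rx.mk (nat_lit 235) (nat_lit 3) (nat_lit 5) (nat_lit 3) (nat_lit 7) (nat_lit 374) (nat_lit 228) r8_374 r11_228 (nat_lit 0) (nat_lit 0) (nat_lit 0) (nat_lit 0x2000efab8c) (nat_lit 2147483648)]
noncomputable def e26_56 : List Rx := [
  Rx.mk (nat_lit 11) (nat_lit 3) (nat_lit 1) (nat_lit 0) (nat_lit 3) (nat_lit 347) (nat_lit 269) r8_347 r5_269 (nat_lit 0) (nat_lit 0) (nat_lit 30179101) (nat_lit 0x20034b8dba) (nat_lit 2175115699),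
  Rx.mk (nat_lit 43) (nat_lit 3) (nat_lit 5) (nat_lit 0) (nat_lit 3) (nat_lit 349) (nat_lit 271) r8_349 r5_271 (nat_lit 0) (nat_lit 0) (nat_lit 29877332) (nat_lit 0x1ff65ee49e) (nat_lit 2188724730),
  Rx.mk (nat_lit 75) (nat_lit 3) (nat_lit 1) (nat_lit 1) (nat_lit 7) (nat_lit 348) (nat_lit 270) r8_348 r5_270 (nat_lit 0) (nat_lit 0) (nat_lit 0) (nat_lit 0x2000efab8c) (nat_lit 2147483648),
  Rx.mk (nat_lit 107) (nat_lit 3) (nat_lit 5) (nat_lit 1) (nat_lit 7) (nat_lit 350) (nat_lit 272) r8_350 r5_272 (nat_lit 0) (nat_lit 0) (nat_lit 0) (nat_lit 0x2000efab8c) (nat_lit 2147483648)]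
noncomputable def e26_57 : List Rx := [
  Rx.mk (nat_lit 11) (nat_lit 3) (nat_lit 1) (nat_lit 0) (nat_lit 3) (nat_lit 358) (nat_lit 335) r8_358 r11_335 (nat_lit 0) (nat_lit 0) (nat_lit 25196550) (nat_lit 0x2016fbc60e) (nat_lit 2149059648),
  Rx.mk (nat_lit 75) (nat_lit 3) (nat_lit 1) (nat_lit 1) (nat_lit 7) (nat_lit 359) (nat_lit 336) r8_359 r11_336 (nat_lit 0) (nat_lit 0) (nat_lit 0) (nat_lit 0x2000efab8c) (nat_lit 2147483648),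
  Rx.mk (nat_lit 139) (nat_lit 3) (nat_lit 1) (nat_lit 2) (nat_lit 7) (nat_lit 360) (nat_lit 337) r8_360 r11_337 (nat_lit 0) (nat_lit 0) (nat_lit 0) (nat_lit 0x2000efab8c) (nat_lit 2147483648)]
noncomputable def e26 : List (List Rx) := [e26_0, e26_1, e26_2, e26_3, e26_4, e26_5, e26_6, e26_7, e26_8, e26_9, e26_10, e26_11, e26_12, e26_13, e26_14, e26_15, e26_16, e26_17, e26_18, e26_19, e26_20, e26_21, e26_22, e26_23, e26_24, e26_25, e26_26, e26_27, e26_28, e26_29, e26_30, e26_31, e26_32, e26_33, e26_34, e26_35, e26_36, e26_37, e26_38, e26_39, e26_40, e26_41, e26_42, e26_43, e26_44, e26_45, e26_46, e26_47, e26_48, e26_49, e26_50, e26_51, e26_52, e26_53, e26_54, e26_55, e26_56, e26_57]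
noncomputable def e27_0 : List Rx := [
  Rx.mk (nat_lit 356) (nat_lit 4) (nat_lit 4) (nat_lit 5) (nat_lit 4) (nat_lit 241) (nat_lit 188) r8_241 r0_188 (nat_lit 134688878) (nat_lit 16981321) (nat_lit 0) (nat_lit 0x1910184f12) (nat_lit 4234336497),
  Rx.mk (nat_lit 359) (nat_lit 7) (nat_lit 4) (nat_lit 5) (nat_lit 5) (nat_lit 244) (nat_lit 191) r8_244 r0_191 (nat_lit 0) (nat_lit 25551595) (nat_lit 0) (nat_lit 0x1febb7003a) (nat_lit 2195908193),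
  Rx.mk (nat_lit 364) (nat_lit 4) (nat_lit 5) (nat_lit 5) (nat_lit 6) (nat_lit 242) (nat_lit 189) r8_242 r0_189 (nat_lit 25858598) (nat_lit 0) (nat_lit 0) (nat_lit 0x1fc8152652) (nat_lit 2234886196),
  Rx.mk (nat_lit 367) (nat_lit 7) (nat_lit 5) (nat_lit 5) (nat_lit 7) (nat_lit 245) (nat_lit 192) r8_245 r0_192 (nat_lit 0) (nat_lit 0) (nat_lit 0) (nat_lit 0x2000efab8c) (nat_lit 2147483648),
  Rx.mk (nat_lit 372) (nat_lit 4) (nat_lit 6) (nat_lit 5) (nat_lit 6) (nat_lit 243) (nat_lit 190) r8_243 r0_190 (nat_lit 891972013) (nat_lit 0) (nat_lit 0) (nat_lit 0x1ff12e5ad6) (nat_lit 3056376711),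
  Rx.mk (nat_lit 375) (nat_lit 7) (nat_lit 6) (nat_lit 5) (nat_lit 7) (nat_lit 246) (nat_lit 194) r8_246 r0_194 (nat_lit 0) (nat_lit 0) (nat_lit 0) (nat_lit 0x2000efab8c) (nat_lit 2147483648),
  Rx.mk (nat_lit 383) (nat_lit 7) (nat_lit 7) (nat_lit 5) (nat_lit 7) (nat_lit 247) (nat_lit 193) r8_247 r0_193 (nat_lit 0) (nat_lit 0) (nat_lit 0) (nat_lit 0x1ff886e3b6) (nat_lit 2156539498)]
noncomputable def e27_1 : List Rx := [
  Rx.mk (nat_lit 292) (nat_lit 4) (nat_lit 4) (nat_lit 4) (nat_lit 0) (nat_lit 283) (nat_lit 201) r8_283 r1_201 (nat_lit 484020532) (nat_lit 32397036) (nat_lit 7323482) (nat_lit 0x13e369bd0c) (nat_lit 6049527898),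
  Rx.mk (nat_lit 295) (nat_lit 7) (nat_lit 4) (nat_lit 4) (nat_lit 1) (nat_lit 286) (nat_lit 206) r8_286 r1_206 (nat_lit 0) (nat_lit 36830483) (nat_lit 27344673) (nat_lit 0x1c7b583c9e) (nat_lit 3193391554),
  Rx.mk (nat_lit 308) (nat_lit 4) (nat_lit 6) (nat_lit 4) (nat_lit 2) (nat_lit 284) (nat_lit 204) r8_284 r1_204 (nat_lit 146702327) (nat_lit 0) (nat_lit 26973616) (nat_lit 0x19df8c7426) (nat_lit 4030389141),
  Rx.mk (nat_lit 310) (nat_lit 6) (nat_lit 6) (nat_lit 4) (nat_lit 3) (nat_lit 285) (nat_lit 214) r8_285 r1_214 (nat_lit 0) (nat_lit 0) (nat_lit 32746299) (nat_lit 0x1b0b80abe6) (nat_lit 3562682797),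
  Rx.mk (nat_lit 311) (nat_lit 7) (nat_lit 6) (nat_lit 4) (nat_lit 3) (nat_lit 287) (nat_lit 212) r8_287 r1_212 (nat_lit 0) (nat_lit 0) (nat_lit 39267561) (nat_lit 0x2000efab8c) (nat_lit 2186751209),
  Rx.mk (nat_lit 319) (nat_lit 7) (nat_lit 7) (nat_lit 4) (nat_lit 3) (nat_lit 288) (nat_lit 209) r8_288 r1_209 (nat_lit 0) (nat_lit 0) (nat_lit 39267561) (nat_lit 0x1ff72d5586) (nat_lit 2197260559),
  Rx.mk (nat_lit 356) (nat_lit 4) (nat_lit 4) (nat_lit 5) (nat_lit 4) (nat_lit 289) (nat_lit 202) r8_289 r1_202 (nat_lit 84384775) (nat_lit 58098200) (nat_lit 0) (nat_lit 0x1938d5f5e4) (nat_lit 4180824223),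
  Rx.mk (nat_lit 359) (nat_lit 7) (nat_lit 4) (nat_lit 5) (nat_lit 5) (nat_lit 293) (nat_lit 207) r8_293 r1_207 (nat_lit 0) (nat_lit 44597766) (nat_lit 0) (nat_lit 0x1fed6c06b4) (nat_lit 2213131614),
  Rx.mk (nat_lit 364) (nat_lit 4) (nat_lit 5) (nat_lit 5) (nat_lit 6) (nat_lit 290) (nat_lit 203) r8_290 r1_203 (nat_lit 54214793) (nat_lit 0) (nat_lit 0) (nat_lit 0x1fe53246e8) (nat_lit 2231662541),
  Rx.mk (nat_lit 367) (nat_lit 7) (nat_lit 5) (nat_lit 5) (nat_lit 7) (nat_lit 294) (nat_lit 208) r8_294 r1_208 (nat_lit 0) (nat_lit 0) (nat_lit 0) (nat_lit 0x2000efab8c) (nat_lit 2147483648),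
  Rx.mk (nat_lit 372) (nat_lit 4) (nat_lit 6) (nat_lit 5) (nat_lit 6) (nat_lit 291) (nat_lit 205) r8_291 r1_205 (nat_lit 137838509) (nat_lit 0) (nat_lit 0) (nat_lit 0x1ff65fa53c) (nat_lit 2296666257),
  Rx.mk (nat_lit 374) (nat_lit 6) (nat_lit 6) (nat_lit 5) (nat_lit 7) (nat_lit 292) (nat_lit 215) r8_292 r1_215 (nat_lit 0) (nat_lit 0) (nat_lit 0) (nat_lit 0x201c5e2d26) (nat_lit 2118086598),
  Rx.mk (nat_lit 375) (nat_lit 7) (nat_lit 6) (nat_lit 5) (nat_lit 7) (nat_lit 295) (nat_lit 213) r8_295 r1_213 (nat_lit 0) (nat_lit 0) (nat_lit 0) (nat_lit 0x2000efab8c) (nat_lit 2147483648),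
  Rx.mk (nat_lit 383) (nat_lit 7) (nat_lit 7) (nat_lit 5) (nat_lit 7) (nat_lit 296) (nat_lit 210) r8_296 r1_210 (nat_lit 0) (nat_lit 0) (nat_lit 0) (nat_lit 0x2000efab8c) (nat_lit 2147483648),
  Rx.mk (nat_lit 438) (nat_lit 6) (nat_lit 6) (nat_lit 6) (nat_lit 7) (nat_lit 297) (nat_lit 216) r8_297 r1_216 (nat_lit 0) (nat_lit 0) (nat_lit 0) (nat_lit 0x1fcf859ed0) (nat_lit 2200966248),
  Rx.mk (nat_lit 511) (nat_lit 7) (nat_lit 7) (nat_lit 7) (nat_lit 7) (nat_lit 298) (nat_lit 211) r8_298 r1_211 (nat_lit 0) (nat_lit 0) (nat_lit 0) (nat_lit 0x2000efab8c) (nat_lit 2147483648)]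
noncomputable def e27_2 : List Rx := [
  Rx.mk (nat_lit 292) (nat_lit 4) (nat_lit 4) (nat_lit 4) (nat_lit 0) (nat_lit 257) (nat_lit 221) r8_257 r2_221 (nat_lit 24375812) (nat_lit 9565204) (nat_lit 12353548) (nat_lit 0x10dc384f24) (nat_lit 6416614212),
  Rx.mk (nat_lit 295) (nat_lit 7) (nat_lit 4) (nat_lit 4) (nat_lit 1) (nat_lit 260) (nat_lit 223) r8_260 r2_223 (nat_lit 0) (nat_lit 22274922) (nat_lit 20716858) (nat_lit 0x1b905154ec) (nat_lit 3428243528),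
  Rx.mk (nat_lit 308) (nat_lit 4) (nat_lit 6) (nat_lit 4) (nat_lit 2) (nat_lit 258) (nat_lit 222) r8_258 r2_222 (nat_lit 102122857) (nat_lit 0) (nat_lit 40804876) (nat_lit 0x1bafb4909c) (nat_lit 3493971381),
  Rx.mk (nat_lit 310) (nat_lit 6) (nat_lit 6) (nat_lit 4) (nat_lit 3) (nat_lit 259) (nat_lit 228) r8_259 r2_228 (nat_lit 0) (nat_lit 0) (nat_lit 39267561) (nat_lit 0x2000efab8c) (nat_lit 2186751209),
  Rx.mk (nat_lit 311) (nat_lit 7) (nat_lit 6) (nat_lit 4) (nat_lit 3) (nat_lit 261) (nat_lit 226) r8_261 r2_226 (nat_lit 0) (nat_lit 0) (nat_lit 39267561) (nat_lit 0x2000efab8c) (nat_lit 2186751209),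
  Rx.mk (nat_lit 438) (nat_lit 6) (nat_lit 6) (nat_lit 6) (nat_lit 7) (nat_lit 262) (nat_lit 229) r8_262 r2_229 (nat_lit 0) (nat_lit 0) (nat_lit 0) (nat_lit 0x2000efab8c) (nat_lit 2147483648),
  Rx.mk (nat_lit 487) (nat_lit 7) (nat_lit 4) (nat_lit 7) (nat_lit 5) (nat_lit 263) (nat_lit 224) r8_263 r2_224 (nat_lit 0) (nat_lit 40979706) (nat_lit 0) (nat_lit 0x1fec09fc7c) (nat_lit 2211011354),
  Rx.mk (nat_lit 503) (nat_lit 7) (nat_lit 6) (nat_lit 7) (nat_lit 7) (nat_lit 264) (nat_lit 227) r8_264 r2_227 (nat_lit 0) (nat_lit 0) (nat_lit 0) (nat_lit 0x2000efab8c) (nat_lit 2147483648),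
  Rx.mk (nat_lit 511) (nat_lit 7) (nat_lit 7) (nat_lit 7) (nat_lit 7) (nat_lit 265) (nat_lit 225) r8_265 r2_225 (nat_lit 0) (nat_lit 0) (nat_lit 0) (nat_lit 0x2000efab8c) (nat_lit 2147483648)]
noncomputable def e27_3 : List Rx := [
  Rx.mk (nat_lit 100) (nat_lit 4) (nat_lit 4) (nat_lit 1) (nat_lit 4) (nat_lit 334) (nat_lit 173) r8_334 r3_173 (nat_lit 205065) (nat_lit 365336) (nat_lit 0) (nat_lit 0x1a135a113c) (nat_lit 3800382449),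
  Rx.mk (nat_lit 103) (nat_lit 7) (nat_lit 4) (nat_lit 1) (nat_lit 5) (nat_lit 336) (nat_lit 175) r8_336 r3_175 (nat_lit 0) (nat_lit 445186) (nat_lit 0) (nat_lit 0x1d8f2d2f9e) (nat_lit 2828704184),
  Rx.mk (nat_lit 108) (nat_lit 4) (nat_lit 5) (nat_lit 1) (nat_lit 6) (nat_lit 335) (nat_lit 174) r8_335 r3_174 (nat_lit 20623991) (nat_lit 0) (nat_lit 0) (nat_lit 0x1cc9abc51e) (nat_lit 3064448589),
  Rx.mk (nat_lit 111) (nat_lit 7) (nat_lit 5) (nat_lit 1) (nat_lit 7) (nat_lit 337) (nat_lit 177) r8_337 r3_177 (nat_lit 0) (nat_lit 0) (nat_lit 0) (nat_lit 0x1feb9b0a56) (nat_lit 2170477498),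
  Rx.mk (nat_lit 359) (nat_lit 7) (nat_lit 4) (nat_lit 5) (nat_lit 5) (nat_lit 331) (nat_lit 176) r8_331 r3_176 (nat_lit 0) (nat_lit 6961748) (nat_lit 0) (nat_lit 0x1cd84063e6) (nat_lit 3034857646),
  Rx.mk (nat_lit 367) (nat_lit 7) (nat_lit 5) (nat_lit 5) (nat_lit 7) (nat_lit 332) (nat_lit 178) r8_332 r3_178 (nat_lit 0) (nat_lit 0) (nat_lit 0) (nat_lit 0x2015b55508) (nat_lit 2125211748),
  Rx.mk (nat_lit 383) (nat_lit 7) (nat_lit 7) (nat_lit 5) (nat_lit 7) (nat_lit 333) (nat_lit 179) r8_333 r3_179 (nat_lit 0) (nat_lit 0) (nat_lit 0) (nat_lit 0x1e81357a58) (nat_lit 2565026948)]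
noncomputable def e27_4 : List Rx := [
  Rx.mk (nat_lit 359) (nat_lit 7) (nat_lit 4) (nat_lit 5) (nat_lit 5) (nat_lit 351) (nat_lit 177) r8_351 r4_177 (nat_lit 0) (nat_lit 23283002) (nat_lit 0) (nat_lit 0x201629b4c0) (nat_lit 2147997650),
  Rx.mk (nat_lit 367) (nat_lit 7) (nat_lit 5) (nat_lit 5) (nat_lit 7) (nat_lit 352) (nat_lit 178) r8_352 r4_178 (nat_lit 0) (nat_lit 0) (nat_lit 0) (nat_lit 0x20158b4b32) (nat_lit 2125394898),
  Rx.mk (nat_lit 375) (nat_lit 7) (nat_lit 6) (nat_lit 5) (nat_lit 7) (nat_lit 353) (nat_lit 180) r8_353 r4_180 (nat_lit 0) (nat_lit 0) (nat_lit 0) (nat_lit 0x20158b4b32) (nat_lit 2125394898),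
  Rx.mk (nat_lit 383) (nat_lit 7) (nat_lit 7) (nat_lit 5) (nat_lit 7) (nat_lit 354) (nat_lit 179) r8_354 r4_179 (nat_lit 0) (nat_lit 0) (nat_lit 0) (nat_lit 0x2000efab8c) (nat_lit 2147483648)]
noncomputable def e27_5 : List Rx := [
  Rx.mk (nat_lit 100) (nat_lit 4) (nat_lit 4) (nat_lit 1) (nat_lit 4) (nat_lit 362) (nat_lit 191) r8_362 r5_191 (nat_lit 541463840) (nat_lit 36830427) (nat_lit 0) (nat_lit 0x1d28b706cc) (nat_lit 3518610915),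
  Rx.mk (nat_lit 103) (nat_lit 7) (nat_lit 4) (nat_lit 1) (nat_lit 5) (nat_lit 364) (nat_lit 193) r8_364 r5_193 (nat_lit 0) (nat_lit 49389029) (nat_lit 0) (nat_lit 0x1fc32a3312) (nat_lit 2263781527),
  Rx.mk (nat_lit 108) (nat_lit 4) (nat_lit 5) (nat_lit 1) (nat_lit 6) (nat_lit 363) (nat_lit 192) r8_363 r5_192 (nat_lit 39267561) (nat_lit 0) (nat_lit 0) (nat_lit 0x2000efab8c) (nat_lit 2186751209),
  Rx.mk (nat_lit 111) (nat_lit 7) (nat_lit 5) (nat_lit 1) (nat_lit 7) (nat_lit 365) (nat_lit 194) r8_365 r5_194 (nat_lit 0) (nat_lit 0) (nat_lit 0) (nat_lit 0x200d42af60) (nat_lit 2134256348),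
  Rx.mk (nat_lit 127) (nat_lit 7) (nat_lit 7) (nat_lit 1) (nat_lit 7) (nat_lit 366) (nat_lit 195) r8_366 r5_195 (nat_lit 0) (nat_lit 0) (nat_lit 0) (nat_lit 0x1fe0f94798) (nat_lit 2182018948),
  Rx.mk (nat_lit 383) (nat_lit 7) (nat_lit 7) (nat_lit 5) (nat_lit 7) (nat_lit 361) (nat_lit 196) r8_361 r5_196 (nat_lit 0) (nat_lit 0) (nat_lit 0) (nat_lit 0x1ff4a82bba) (nat_lit 2160712398)]
noncomputable def e27_6 : List Rx := [
  Rx.mk (nat_lit 59) (nat_lit 3) (nat_lit 7) (nat_lit 0) (nat_lit 3) (nat_lit 43) (nat_lit 120) r8_43 r3_120 (nat_lit 0) (nat_lit 0) (nat_lit 761558) (nat_lit 0x200a551720) (nat_lit 2137493506),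
  Rx.mk (nat_lit 123) (nat_lit 3) (nat_lit 7) (nat_lit 1) (nat_lit 7) (nat_lit 44) (nat_lit 121) r8_44 r3_121 (nat_lit 0) (nat_lit 0) (nat_lit 0) (nat_lit 0x20f4583910) (nat_lit 1888546948),
  Rx.mk (nat_lit 251) (nat_lit 3) (nat_lit 7) (nat_lit 3) (nat_lit 7) (nat_lit 46) (nat_lit 122) r8_46 r3_122 (nat_lit 0) (nat_lit 0) (nat_lit 0) (nat_lit 0x1fbf564442) (nat_lit 2218560898),
  Rx.mk (nat_lit 255) (nat_lit 7) (nat_lit 7) (nat_lit 3) (nat_lit 7) (nat_lit 45) (nat_lit 119) r8_45 r3_119 (nat_lit 0) (nat_lit 0) (nat_lit 0) (nat_lit 0x1f5784acdc) (nat_lit 2331580948)]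
noncomputable def e27_7 : List Rx := [
  Rx.mk (nat_lit 251) (nat_lit 3) (nat_lit 7) (nat_lit 3) (nat_lit 7) (nat_lit 77) (nat_lit 140) r8_77 r0_140 (nat_lit 0) (nat_lit 0) (nat_lit 0) (nat_lit 0x2000efab8c) (nat_lit 2147483648),
  Rx.mk (nat_lit 255) (nat_lit 7) (nat_lit 7) (nat_lit 3) (nat_lit 7) (nat_lit 76) (nat_lit 139) r8_76 r0_139 (nat_lit 0) (nat_lit 0) (nat_lit 0) (nat_lit 0x2000efab8c) (nat_lit 2147483648)]
noncomputable def e27_8 : List Rx := [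
  Rx.mk (nat_lit 251) (nat_lit 3) (nat_lit 7) (nat_lit 3) (nat_lit 7) (nat_lit 101) (nat_lit 146) r8_101 r1_146 (nat_lit 0) (nat_lit 0) (nat_lit 0) (nat_lit 0x2000efab8c) (nat_lit 2147483648),
  Rx.mk (nat_lit 255) (nat_lit 7) (nat_lit 7) (nat_lit 3) (nat_lit 7) (nat_lit 100) (nat_lit 145) r8_100 r1_145 (nat_lit 0) (nat_lit 0) (nat_lit 0) (nat_lit 0x2000efab8c) (nat_lit 2147483648),
  Rx.mk (nat_lit 292) (nat_lit 4) (nat_lit 4) (nat_lit 4) (nat_lit 0) (nat_lit 90) (nat_lit 141) r8_90 r1_141 (nat_lit 304855249) (nat_lit 13347553) (nat_lit 8932257) (nat_lit 0x1365628c54) (nat_lit 5990236307),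
  Rx.mk (nat_lit 308) (nat_lit 4) (nat_lit 6) (nat_lit 4) (nat_lit 2) (nat_lit 91) (nat_lit 147) r8_91 r1_147 (nat_lit 51329911) (nat_lit 0) (nat_lit 16549832) (nat_lit 0x1a19794916) (nat_lit 3861461541),
  Rx.mk (nat_lit 310) (nat_lit 6) (nat_lit 6) (nat_lit 4) (nat_lit 3) (nat_lit 92) (nat_lit 150) r8_92 r1_150 (nat_lit 0) (nat_lit 0) (nat_lit 33621592) (nat_lit 0x1fab29075c) (nat_lit 2274132840),
  Rx.mk (nat_lit 438) (nat_lit 6) (nat_lit 6) (nat_lit 6) (nat_lit 7) (nat_lit 93) (nat_lit 152) r8_93 r1_152 (nat_lit 0) (nat_lit 0) (nat_lit 0) (nat_lit 0x2000efab8c) (nat_lit 2147483648),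
  Rx.mk (nat_lit 484) (nat_lit 4) (nat_lit 4) (nat_lit 7) (nat_lit 4) (nat_lit 94) (nat_lit 142) r8_94 r1_142 (nat_lit 381512949) (nat_lit 52898717) (nat_lit 0) (nat_lit 0x1dae16a4e4) (nat_lit 3229443314),
  Rx.mk (nat_lit 487) (nat_lit 7) (nat_lit 4) (nat_lit 7) (nat_lit 5) (nat_lit 97) (nat_lit 143) r8_97 r1_143 (nat_lit 0) (nat_lit 58504564) (nat_lit 0) (nat_lit 0x1fe5448858) (nat_lit 2235871712),
  Rx.mk (nat_lit 500) (nat_lit 4) (nat_lit 6) (nat_lit 7) (nat_lit 6) (nat_lit 95) (nat_lit 148) r8_95 r1_148 (nat_lit 39267561) (nat_lit 0) (nat_lit 0) (nat_lit 0x20083dfac4) (nat_lit 2178903109),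
  Rx.mk (nat_lit 502) (nat_lit 6) (nat_lit 6) (nat_lit 7) (nat_lit 7) (nat_lit 96) (nat_lit 151) r8_96 r1_151 (nat_lit 0) (nat_lit 0) (nat_lit 0) (nat_lit 0x2000efab8c) (nat_lit 2147483648),
  Rx.mk (nat_lit 503) (nat_lit 7) (nat_lit 6) (nat_lit 7) (nat_lit 7) (nat_lit 98) (nat_lit 149) r8_98 r1_149 (nat_lit 0) (nat_lit 0) (nat_lit 0) (nat_lit 0x2000efab8c) (nat_lit 2147483648),
  Rx.mk (nat_lit 511) (nat_lit 7) (nat_lit 7) (nat_lit 7) (nat_lit 7) (nat_lit 99) (nat_lit 144) r8_99 r1_144 (nat_lit 0) (nat_lit 0) (nat_lit 0) (nat_lit 0x2000efab8c) (nat_lit 2147483648)]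
noncomputable def e27_9 : List Rx := [
  Rx.mk (nat_lit 59) (nat_lit 3) (nat_lit 7) (nat_lit 0) (nat_lit 3) (nat_lit 146) (nat_lit 126) r8_146 r4_126 (nat_lit 0) (nat_lit 0) (nat_lit 32943383) (nat_lit 0x20006b6bf6) (nat_lit 2180976481),
  Rx.mk (nat_lit 251) (nat_lit 3) (nat_lit 7) (nat_lit 3) (nat_lit 7) (nat_lit 148) (nat_lit 127) r8_148 r4_127 (nat_lit 0) (nat_lit 0) (nat_lit 0) (nat_lit 0x2000efab8c) (nat_lit 2147483648),
  Rx.mk (nat_lit 255) (nat_lit 7) (nat_lit 7) (nat_lit 3) (nat_lit 7) (nat_lit 147) (nat_lit 125) r8_147 r4_125 (nat_lit 0) (nat_lit 0) (nat_lit 0) (nat_lit 0x2000efab8c) (nat_lit 2147483648)]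
noncomputable def e27_10 : List Rx := [
  Rx.mk (nat_lit 103) (nat_lit 7) (nat_lit 4) (nat_lit 1) (nat_lit 5) (nat_lit 221) (nat_lit 207) r8_221 r6_207 (nat_lit 0) (nat_lit 24734064) (nat_lit 0) (nat_lit 0x201676d908) (nat_lit 2149143312),
  Rx.mk (nat_lit 111) (nat_lit 7) (nat_lit 5) (nat_lit 1) (nat_lit 7) (nat_lit 222) (nat_lit 208) r8_222 r6_208 (nat_lit 0) (nat_lit 0) (nat_lit 0) (nat_lit 0x2000efab8c) (nat_lit 2147483648),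
  Rx.mk (nat_lit 123) (nat_lit 3) (nat_lit 7) (nat_lit 1) (nat_lit 7) (nat_lit 224) (nat_lit 206) r8_224 r6_206 (nat_lit 0) (nat_lit 0) (nat_lit 0) (nat_lit 0x201df2e532) (nat_lit 2116412298),
  Rx.mk (nat_lit 127) (nat_lit 7) (nat_lit 7) (nat_lit 1) (nat_lit 7) (nat_lit 223) (nat_lit 209) r8_223 r6_209 (nat_lit 0) (nat_lit 0) (nat_lit 0) (nat_lit 0x2000efab8c) (nat_lit 2147483648)]
noncomputable def e27_11 : List Rx := [
  Rx.mk (nat_lit 59) (nat_lit 3) (nat_lit 7) (nat_lit 0) (nat_lit 3) (nat_lit 202) (nat_lit 121) r8_202 r5_121 (nat_lit 0) (nat_lit 0) (nat_lit 14730131) (nat_lit 0x200e2ec5e4) (nat_lit 2147964679),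
  Rx.mk (nat_lit 63) (nat_lit 7) (nat_lit 7) (nat_lit 0) (nat_lit 3) (nat_lit 201) (nat_lit 118) r8_201 r5_118 (nat_lit 0) (nat_lit 0) (nat_lit 52140562) (nat_lit 0x1f67ec0836) (nat_lit 2365859860),
  Rx.mk (nat_lit 123) (nat_lit 3) (nat_lit 7) (nat_lit 1) (nat_lit 7) (nat_lit 204) (nat_lit 122) r8_204 r5_122 (nat_lit 0) (nat_lit 0) (nat_lit 0) (nat_lit 0x203614c31a) (nat_lit 2090691798),
  Rx.mk (nat_lit 127) (nat_lit 7) (nat_lit 7) (nat_lit 1) (nat_lit 7) (nat_lit 203) (nat_lit 119) r8_203 r5_119 (nat_lit 0) (nat_lit 0) (nat_lit 0) (nat_lit 0x2000efab8c) (nat_lit 2147483648),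
  Rx.mk (nat_lit 255) (nat_lit 7) (nat_lit 7) (nat_lit 3) (nat_lit 7) (nat_lit 205) (nat_lit 120) r8_205 r5_120 (nat_lit 0) (nat_lit 0) (nat_lit 0) (nat_lit 0x2000efab8c) (nat_lit 2147483648)]
noncomputable def e27_12 : List Rx := [
  Rx.mk (nat_lit 100) (nat_lit 4) (nat_lit 4) (nat_lit 1) (nat_lit 4) (nat_lit 237) (nat_lit 278) r8_237 r0_278 (nat_lit 24388230) (nat_lit 163911417) (nat_lit 0) (nat_lit 0x1ad23e2188) (nat_lit 3780583995),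
  Rx.mk (nat_lit 101) (nat_lit 5) (nat_lit 4) (nat_lit 1) (nat_lit 5) (nat_lit 239) (nat_lit 279) r8_239 r0_279 (nat_lit 0) (nat_lit 47408999) (nat_lit 0) (nat_lit 0x1fcb05a0b2) (nat_lit 2253277997),
  Rx.mk (nat_lit 108) (nat_lit 4) (nat_lit 5) (nat_lit 1) (nat_lit 6) (nat_lit 238) (nat_lit 280) r8_238 r0_280 (nat_lit 64581062) (nat_lit 0) (nat_lit 0) (nat_lit 0x1e59996e96) (nat_lit 2672770760),
  Rx.mk (nat_lit 109) (nat_lit 5) (nat_lit 5) (nat_lit 1) (nat_lit 7) (nat_lit 240) (nat_lit 281) r8_240 r0_281 (nat_lit 0) (nat_lit 0) (nat_lit 0) (nat_lit 0x200c5303fc) (nat_lit 2135258648),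
  Rx.mk (nat_lit 356) (nat_lit 4) (nat_lit 4) (nat_lit 5) (nat_lit 4) (nat_lit 230) (nat_lit 271) r8_230 r0_271 (nat_lit 86496675) (nat_lit 46283751) (nat_lit 0) (nat_lit 0x1881893bee) (nat_lit 4370807724),
  Rx.mk (nat_lit 357) (nat_lit 5) (nat_lit 4) (nat_lit 5) (nat_lit 5) (nat_lit 232) (nat_lit 272) r8_232 r0_272 (nat_lit 0) (nat_lit 65181056) (nat_lit 0) (nat_lit 0x1e983fb0ce) (nat_lit 2605122654),
  Rx.mk (nat_lit 359) (nat_lit 7) (nat_lit 4) (nat_lit 5) (nat_lit 5) (nat_lit 234) (nat_lit 273) r8_234 r0_273 (nat_lit 0) (nat_lit 42976936) (nat_lit 0) (nat_lit 0x1fef7da476) (nat_lit 2209272234),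
  Rx.mk (nat_lit 364) (nat_lit 4) (nat_lit 5) (nat_lit 5) (nat_lit 6) (nat_lit 231) (nat_lit 274) r8_231 r0_274 (nat_lit 62054356) (nat_lit 0) (nat_lit 0) (nat_lit 0x1e2d15cb80) (nat_lit 2718743404),
  Rx.mk (nat_lit 365) (nat_lit 5) (nat_lit 5) (nat_lit 5) (nat_lit 7) (nat_lit 233) (nat_lit 275) r8_233 r0_275 (nat_lit 0) (nat_lit 0) (nat_lit 0) (nat_lit 0x1fcf833b36) (nat_lit 2200979698),
  Rx.mk (nat_lit 367) (nat_lit 7) (nat_lit 5) (nat_lit 5) (nat_lit 7) (nat_lit 235) (nat_lit 276) r8_235 r0_276 (nat_lit 0) (nat_lit 0) (nat_lit 0) (nat_lit 0x2000efab8c) (nat_lit 2147483648),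
  Rx.mk (nat_lit 383) (nat_lit 7) (nat_lit 7) (nat_lit 5) (nat_lit 7) (nat_lit 236) (nat_lit 277) r8_236 r0_277 (nat_lit 0) (nat_lit 0) (nat_lit 0) (nat_lit 0x2000efab8c) (nat_lit 2147483648)]
noncomputable def e27_13 : List Rx := [
  Rx.mk (nat_lit 356) (nat_lit 4) (nat_lit 4) (nat_lit 5) (nat_lit 4) (nat_lit 248) (nat_lit 246) r8_248 r7_246 (nat_lit 32339147) (nat_lit 25017464) (nat_lit 0) (nat_lit 0x17b72f48de) (nat_lit 4515822409),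
  Rx.mk (nat_lit 357) (nat_lit 5) (nat_lit 4) (nat_lit 5) (nat_lit 5) (nat_lit 251) (nat_lit 249) r8_251 r7_249 (nat_lit 0) (nat_lit 42592381) (nat_lit 0) (nat_lit 0x1ea87817d8) (nat_lit 2564854829),
  Rx.mk (nat_lit 359) (nat_lit 7) (nat_lit 4) (nat_lit 5) (nat_lit 5) (nat_lit 254) (nat_lit 252) r8_254 r7_252 (nat_lit 0) (nat_lit 50597122) (nat_lit 0) (nat_lit 0x1f9b7c9094) (nat_lit 2308173370),
  Rx.mk (nat_lit 364) (nat_lit 4) (nat_lit 5) (nat_lit 5) (nat_lit 6) (nat_lit 249) (nat_lit 247) r8_249 r7_247 (nat_lit 43498676) (nat_lit 0) (nat_lit 0) (nat_lit 0x1e36edb668) (nat_lit 2689461224),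
  Rx.mk (nat_lit 365) (nat_lit 5) (nat_lit 5) (nat_lit 5) (nat_lit 7) (nat_lit 252) (nat_lit 250) r8_252 r7_250 (nat_lit 0) (nat_lit 0) (nat_lit 0) (nat_lit 0x1ff740ac9e) (nat_lit 2157915398),
  Rx.mk (nat_lit 367) (nat_lit 7) (nat_lit 5) (nat_lit 5) (nat_lit 7) (nat_lit 255) (nat_lit 253) r8_255 r7_253 (nat_lit 0) (nat_lit 0) (nat_lit 0) (nat_lit 0x2000efab8c) (nat_lit 2147483648),
  Rx.mk (nat_lit 372) (nat_lit 4) (nat_lit 6) (nat_lit 5) (nat_lit 6) (nat_lit 250) (nat_lit 248) r8_250 r7_248 (nat_lit 39267561) (nat_lit 0) (nat_lit 0) (nat_lit 0x2000efab8c) (nat_lit 2186751209),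
  Rx.mk (nat_lit 373) (nat_lit 5) (nat_lit 6) (nat_lit 5) (nat_lit 7) (nat_lit 253) (nat_lit 251) r8_253 r7_251 (nat_lit 0) (nat_lit 0) (nat_lit 0) (nat_lit 0x2000efab8c) (nat_lit 2147483648),
  Rx.mk (nat_lit 383) (nat_lit 7) (nat_lit 7) (nat_lit 5) (nat_lit 7) (nat_lit 256) (nat_lit 254) r8_256 r7_254 (nat_lit 0) (nat_lit 0) (nat_lit 0) (nat_lit 0x2000efab8c) (nat_lit 2147483648)]
noncomputable def e27_14 : List Rx := [
  Rx.mk (nat_lit 101) (nat_lit 5) (nat_lit 4) (nat_lit 1) (nat_lit 5) (nat_lit 318) (nat_lit 276) r8_318 r1_276 (nat_lit 0) (nat_lit 39267561) (nat_lit 0) (nat_lit 0x1ff0e65fec) (nat_lit 2204037509),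
  Rx.mk (nat_lit 109) (nat_lit 5) (nat_lit 5) (nat_lit 1) (nat_lit 7) (nat_lit 319) (nat_lit 277) r8_319 r1_277 (nat_lit 0) (nat_lit 0) (nat_lit 0) (nat_lit 0x2000efab8c) (nat_lit 2147483648),
  Rx.mk (nat_lit 357) (nat_lit 5) (nat_lit 4) (nat_lit 5) (nat_lit 5) (nat_lit 316) (nat_lit 274) r8_316 r1_274 (nat_lit 0) (nat_lit 39267561) (nat_lit 0) (nat_lit 0x1fef7f6eaa) (nat_lit 2205554259),
  Rx.mk (nat_lit 365) (nat_lit 5) (nat_lit 5) (nat_lit 5) (nat_lit 7) (nat_lit 317) (nat_lit 275) r8_317 r1_275 (nat_lit 0) (nat_lit 0) (nat_lit 0) (nat_lit 0x2000efab8c) (nat_lit 2147483648)]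
noncomputable def e27_15 : List Rx := [
  Rx.mk (nat_lit 357) (nat_lit 5) (nat_lit 4) (nat_lit 5) (nat_lit 5) (nat_lit 323) (nat_lit 191) r8_323 r8_191 (nat_lit 0) (nat_lit 39267561) (nat_lit 0) (nat_lit 0x2000efab8c) (nat_lit 2186751209),
  Rx.mk (nat_lit 365) (nat_lit 5) (nat_lit 5) (nat_lit 5) (nat_lit 7) (nat_lit 324) (nat_lit 192) r8_324 r8_192 (nat_lit 0) (nat_lit 0) (nat_lit 0) (nat_lit 0x2000efab8c) (nat_lit 2147483648),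
  Rx.mk (nat_lit 373) (nat_lit 5) (nat_lit 6) (nat_lit 5) (nat_lit 7) (nat_lit 325) (nat_lit 193) r8_325 r8_193 (nat_lit 0) (nat_lit 0) (nat_lit 0) (nat_lit 0x2000efab8c) (nat_lit 2147483648)]
noncomputable def e27_16 : List Rx := [
  Rx.mk (nat_lit 292) (nat_lit 4) (nat_lit 4) (nat_lit 4) (nat_lit 0) (nat_lit 299) (nat_lit 299) r8_299 r8_299 (nat_lit 272999578) (nat_lit 272999578) (nat_lit 45926657) (nat_lit 0x12deffed32) (nat_lit 6401471711),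
  Rx.mk (nat_lit 295) (nat_lit 7) (nat_lit 4) (nat_lit 4) (nat_lit 1) (nat_lit 302) (nat_lit 300) r8_302 r8_300 (nat_lit 0) (nat_lit 115124764) (nat_lit 50348007) (nat_lit 0x1d0d16e680) (nat_lit 3135898419),
  Rx.mk (nat_lit 308) (nat_lit 4) (nat_lit 6) (nat_lit 4) (nat_lit 2) (nat_lit 300) (nat_lit 302) r8_300 r8_302 (nat_lit 115124764) (nat_lit 0) (nat_lit 50348007) (nat_lit 0x1d0d16e680) (nat_lit 3135898419),
  Rx.mk (nat_lit 310) (nat_lit 6) (nat_lit 6) (nat_lit 4) (nat_lit 3) (nat_lit 301) (nat_lit 303) r8_301 r8_303 (nat_lit 0) (nat_lit 0) (nat_lit 39267561) (nat_lit 0x2000efab8c) (nat_lit 2186751209),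
  Rx.mk (nat_lit 319) (nat_lit 7) (nat_lit 7) (nat_lit 4) (nat_lit 3) (nat_lit 303) (nat_lit 301) r8_303 r8_301 (nat_lit 0) (nat_lit 0) (nat_lit 39267561) (nat_lit 0x2000efab8c) (nat_lit 2186751209),
  Rx.mk (nat_lit 356) (nat_lit 4) (nat_lit 4) (nat_lit 5) (nat_lit 4) (nat_lit 304) (nat_lit 304) r8_304 r8_304 (nat_lit 172342969) (nat_lit 172342969) (nat_lit 0) (nat_lit 0x1c3477d866) (nat_lit 3551116136),
  Rx.mk (nat_lit 357) (nat_lit 5) (nat_lit 4) (nat_lit 5) (nat_lit 5) (nat_lit 307) (nat_lit 305) r8_307 r8_305 (nat_lit 0) (nat_lit 39267561) (nat_lit 0) (nat_lit 0x2000efab8c) (nat_lit 2186751209),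
  Rx.mk (nat_lit 359) (nat_lit 7) (nat_lit 4) (nat_lit 5) (nat_lit 5) (nat_lit 311) (nat_lit 306) r8_311 r8_306 (nat_lit 0) (nat_lit 39267561) (nat_lit 0) (nat_lit 0x2000efab8c) (nat_lit 2186751209),
  Rx.mk (nat_lit 364) (nat_lit 4) (nat_lit 5) (nat_lit 5) (nat_lit 6) (nat_lit 305) (nat_lit 307) r8_305 r8_307 (nat_lit 39267561) (nat_lit 0) (nat_lit 0) (nat_lit 0x2000efab8c) (nat_lit 2186751209),
  Rx.mk (nat_lit 365) (nat_lit 5) (nat_lit 5) (nat_lit 5) (nat_lit 7) (nat_lit 308) (nat_lit 308) r8_308 r8_308 (nat_lit 0) (nat_lit 0) (nat_lit 0) (nat_lit 0x2000efab8c) (nat_lit 2147483648),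
  Rx.mk (nat_lit 367) (nat_lit 7) (nat_lit 5) (nat_lit 5) (nat_lit 7) (nat_lit 312) (nat_lit 309) r8_312 r8_309 (nat_lit 0) (nat_lit 0) (nat_lit 0) (nat_lit 0x2000efab8c) (nat_lit 2147483648),
  Rx.mk (nat_lit 372) (nat_lit 4) (nat_lit 6) (nat_lit 5) (nat_lit 6) (nat_lit 306) (nat_lit 311) r8_306 r8_311 (nat_lit 39267561) (nat_lit 0) (nat_lit 0) (nat_lit 0x2000efab8c) (nat_lit 2186751209),
  Rx.mk (nat_lit 373) (nat_lit 5) (nat_lit 6) (nat_lit 5) (nat_lit 7) (nat_lit 309) (nat_lit 312) r8_309 r8_312 (nat_lit 0) (nat_lit 0) (nat_lit 0) (nat_lit 0x2000efab8c) (nat_lit 2147483648),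
  Rx.mk (nat_lit 374) (nat_lit 6) (nat_lit 6) (nat_lit 5) (nat_lit 7) (nat_lit 310) (nat_lit 313) r8_310 r8_313 (nat_lit 0) (nat_lit 0) (nat_lit 0) (nat_lit 0x2000efab8c) (nat_lit 2147483648),
  Rx.mk (nat_lit 383) (nat_lit 7) (nat_lit 7) (nat_lit 5) (nat_lit 7) (nat_lit 313) (nat_lit 310) r8_313 r8_310 (nat_lit 0) (nat_lit 0) (nat_lit 0) (nat_lit 0x2000efab8c) (nat_lit 2147483648),
  Rx.mk (nat_lit 438) (nat_lit 6) (nat_lit 6) (nat_lit 6) (nat_lit 7) (nat_lit 314) (nat_lit 315) r8_314 r8_315 (nat_lit 0) (nat_lit 0) (nat_lit 0) (nat_lit 0x2000efab8c) (nat_lit 2147483648),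
  Rx.mk (nat_lit 511) (nat_lit 7) (nat_lit 7) (nat_lit 7) (nat_lit 7) (nat_lit 315) (nat_lit 314) r8_315 r8_314 (nat_lit 0) (nat_lit 0) (nat_lit 0) (nat_lit 0x2000efab8c) (nat_lit 2147483648)]
noncomputable def e27_17 : List Rx := [
  Rx.mk (nat_lit 292) (nat_lit 4) (nat_lit 4) (nat_lit 4) (nat_lit 0) (nat_lit 266) (nat_lit 202) r8_266 r9_202 (nat_lit 126737006) (nat_lit 47555172) (nat_lit 43238125) (nat_lit 0x10fb15863c) (nat_lit 6554274751),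
  Rx.mk (nat_lit 295) (nat_lit 7) (nat_lit 4) (nat_lit 4) (nat_lit 1) (nat_lit 269) (nat_lit 204) r8_269 r9_204 (nat_lit 0) (nat_lit 34100939) (nat_lit 43192571) (nat_lit 0x1c6c16fa7c) (nat_lit 3223121158),
  Rx.mk (nat_lit 308) (nat_lit 4) (nat_lit 6) (nat_lit 4) (nat_lit 2) (nat_lit 267) (nat_lit 203) r8_267 r9_203 (nat_lit 47787285) (nat_lit 0) (nat_lit 51805718) (nat_lit 0x1c53d5173c) (nat_lit 3271827351),
  Rx.mk (nat_lit 310) (nat_lit 6) (nat_lit 6) (nat_lit 4) (nat_lit 3) (nat_lit 268) (nat_lit 207) r8_268 r9_207 (nat_lit 0) (nat_lit 0) (nat_lit 39267561) (nat_lit 0x2000efab8c) (nat_lit 2186751209),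
  Rx.mk (nat_lit 438) (nat_lit 6) (nat_lit 6) (nat_lit 6) (nat_lit 7) (nat_lit 270) (nat_lit 208) r8_270 r9_208 (nat_lit 0) (nat_lit 0) (nat_lit 0) (nat_lit 0x2000efab8c) (nat_lit 2147483648),
  Rx.mk (nat_lit 487) (nat_lit 7) (nat_lit 4) (nat_lit 7) (nat_lit 5) (nat_lit 271) (nat_lit 205) r8_271 r9_205 (nat_lit 0) (nat_lit 39267561) (nat_lit 0) (nat_lit 0x2000efab8c) (nat_lit 2186751209),
  Rx.mk (nat_lit 511) (nat_lit 7) (nat_lit 7) (nat_lit 7) (nat_lit 7) (nat_lit 272) (nat_lit 206) r8_272 r9_206 (nat_lit 0) (nat_lit 0) (nat_lit 0) (nat_lit 0x2000efab8c) (nat_lit 2147483648)]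
noncomputable def e27_18 : List Rx := [
  Rx.mk (nat_lit 100) (nat_lit 4) (nat_lit 4) (nat_lit 1) (nat_lit 4) (nat_lit 341) (nat_lit 287) r8_341 r4_287 (nat_lit 331596275) (nat_lit 59471417) (nat_lit 0) (nat_lit 0x1d9f8af25e) (nat_lit 3201944590),
  Rx.mk (nat_lit 101) (nat_lit 5) (nat_lit 4) (nat_lit 1) (nat_lit 5) (nat_lit 343) (nat_lit 288) r8_343 r4_288 (nat_lit 0) (nat_lit 39267561) (nat_lit 0) (nat_lit 0x2000efab8c) (nat_lit 2186751209),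
  Rx.mk (nat_lit 103) (nat_lit 7) (nat_lit 4) (nat_lit 1) (nat_lit 5) (nat_lit 345) (nat_lit 289) r8_345 r4_289 (nat_lit 0) (nat_lit 31791046) (nat_lit 0) (nat_lit 0x20094cfbe0) (nat_lit 2170292194),
  Rx.mk (nat_lit 108) (nat_lit 4) (nat_lit 5) (nat_lit 1) (nat_lit 6) (nat_lit 342) (nat_lit 290) r8_342 r4_290 (nat_lit 64302537) (nat_lit 0) (nat_lit 0) (nat_lit 0x1feb8774aa) (nat_lit 2234884635),
  Rx.mk (nat_lit 109) (nat_lit 5) (nat_lit 5) (nat_lit 1) (nat_lit 7) (nat_lit 344) (nat_lit 291) r8_344 r4_291 (nat_lit 0) (nat_lit 0) (nat_lit 0) (nat_lit 0x2000efab8c) (nat_lit 2147483648),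
  Rx.mk (nat_lit 111) (nat_lit 7) (nat_lit 5) (nat_lit 1) (nat_lit 7) (nat_lit 346) (nat_lit 292) r8_346 r4_292 (nat_lit 0) (nat_lit 0) (nat_lit 0) (nat_lit 0x2000efab8c) (nat_lit 2147483648),
  Rx.mk (nat_lit 359) (nat_lit 7) (nat_lit 4) (nat_lit 5) (nat_lit 5) (nat_lit 338) (nat_lit 284) r8_338 r4_284 (nat_lit 0) (nat_lit 39267561) (nat_lit 0) (nat_lit 0x2000efab8c) (nat_lit 2186751209),
  Rx.mk (nat_lit 367) (nat_lit 7) (nat_lit 5) (nat_lit 5) (nat_lit 7) (nat_lit 339) (nat_lit 285) r8_339 r4_285 (nat_lit 0) (nat_lit 0) (nat_lit 0) (nat_lit 0x2000efab8c) (nat_lit 2147483648),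
  Rx.mk (nat_lit 383) (nat_lit 7) (nat_lit 7) (nat_lit 5) (nat_lit 7) (nat_lit 340) (nat_lit 286) r8_340 r4_286 (nat_lit 0) (nat_lit 0) (nat_lit 0) (nat_lit 0x2000efab8c) (nat_lit 2147483648)]
noncomputable def e27_19 : List Rx := [
  Rx.mk (nat_lit 359) (nat_lit 7) (nat_lit 4) (nat_lit 5) (nat_lit 5) (nat_lit 355) (nat_lit 195) r8_355 r10_195 (nat_lit 0) (nat_lit 39267561) (nat_lit 0) (nat_lit 0x2000efab8c) (nat_lit 2186751209),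
  Rx.mk (nat_lit 367) (nat_lit 7) (nat_lit 5) (nat_lit 5) (nat_lit 7) (nat_lit 356) (nat_lit 196) r8_356 r10_196 (nat_lit 0) (nat_lit 0) (nat_lit 0) (nat_lit 0x2000efab8c) (nat_lit 2147483648),
  Rx.mk (nat_lit 383) (nat_lit 7) (nat_lit 7) (nat_lit 5) (nat_lit 7) (nat_lit 357) (nat_lit 197) r8_357 r10_197 (nat_lit 0) (nat_lit 0) (nat_lit 0) (nat_lit 0x2000efab8c) (nat_lit 2147483648)]
noncomputable def e27_20 : List Rx := [
  Rx.mk (nat_lit 100) (nat_lit 4) (nat_lit 4) (nat_lit 1) (nat_lit 4) (nat_lit 368) (nat_lit 222) r8_368 r11_222 (nat_lit 295948041) (nat_lit 141680864) (nat_lit 0) (nat_lit 0x1d8a86c9be) (nat_lit 3271412203),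
  Rx.mk (nat_lit 101) (nat_lit 5) (nat_lit 4) (nat_lit 1) (nat_lit 5) (nat_lit 370) (nat_lit 224) r8_370 r11_224 (nat_lit 0) (nat_lit 39267561) (nat_lit 0) (nat_lit 0x2000efab8c) (nat_lit 2186751209),
  Rx.mk (nat_lit 103) (nat_lit 7) (nat_lit 4) (nat_lit 1) (nat_lit 5) (nat_lit 372) (nat_lit 226) r8_372 r11_226 (nat_lit 0) (nat_lit 39267561) (nat_lit 0) (nat_lit 0x2000efab8c) (nat_lit 2186751209),
  Rx.mk (nat_lit 108) (nat_lit 4) (nat_lit 5) (nat_lit 1) (nat_lit 6) (nat_lit 369) (nat_lit 223) r8_369 r11_223 (nat_lit 68012220) (nat_lit 0) (nat_lit 0) (nat_lit 0x1fe98c2c5e) (nat_lit 2240740918),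
  Rx.mk (nat_lit 109) (nat_lit 5) (nat_lit 5) (nat_lit 1) (nat_lit 7) (nat_lit 371) (nat_lit 225) r8_371 r11_225 (nat_lit 0) (nat_lit 0) (nat_lit 0) (nat_lit 0x2000efab8c) (nat_lit 2147483648),
  Rx.mk (nat_lit 111) (nat_lit 7) (nat_lit 5) (nat_lit 1) (nat_lit 7) (nat_lit 373) (nat_lit 227) r8_373 r11_227 (nat_lit 0) (nat_lit 0) (nat_lit 0) (nat_lit 0x2000efab8c) (nat_lit 2147483648),
  Rx.mk (nat_lit 127) (nat_lit 7) (nat_lit 7) (nat_lit 1) (nat_lit 7) (nat_lit 374) (nat_lit 228) r8_374 r11_228 (nat_lit 0) (nat_lit 0) (nat_lit 0) (nat_lit 0x2000efab8c) (nat_lit 2147483648),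
  Rx.mk (nat_lit 383) (nat_lit 7) (nat_lit 7) (nat_lit 5) (nat_lit 7) (nat_lit 367) (nat_lit 229) r8_367 r11_229 (nat_lit 0) (nat_lit 0) (nat_lit 0) (nat_lit 0x2000efab8c) (nat_lit 2147483648)]
noncomputable def e27_21 : List Rx := [
  Rx.mk (nat_lit 292) (nat_lit 4) (nat_lit 4) (nat_lit 4) (nat_lit 0) (nat_lit 273) (nat_lit 99) r8_273 r9_99 (nat_lit 47607645) (nat_lit 16625292) (nat_lit 13680785) (nat_lit 0xfcbb0eb94) (nat_lit 6745146670),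
  Rx.mk (nat_lit 295) (nat_lit 7) (nat_lit 4) (nat_lit 4) (nat_lit 1) (nat_lit 276) (nat_lit 100) r8_276 r9_100 (nat_lit 0) (nat_lit 26438322) (nat_lit 33475329) (nat_lit 0x1afa500b14) (nat_lit 3608573699),
  Rx.mk (nat_lit 308) (nat_lit 4) (nat_lit 6) (nat_lit 4) (nat_lit 2) (nat_lit 274) (nat_lit 103) r8_274 r9_103 (nat_lit 46653649) (nat_lit 0) (nat_lit 33680415) (nat_lit 0x1aeb3866c6) (nat_lit 3645445662),
  Rx.mk (nat_lit 310) (nat_lit 6) (nat_lit 6) (nat_lit 4) (nat_lit 3) (nat_lit 275) (nat_lit 106) r8_275 r9_106 (nat_lit 0) (nat_lit 0) (nat_lit 39267561) (nat_lit 0x2000efab8c) (nat_lit 2186751209),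
  Rx.mk (nat_lit 311) (nat_lit 7) (nat_lit 6) (nat_lit 4) (nat_lit 3) (nat_lit 277) (nat_lit 104) r8_277 r9_104 (nat_lit 0) (nat_lit 0) (nat_lit 39267561) (nat_lit 0x2000efab8c) (nat_lit 2186751209),
  Rx.mk (nat_lit 406) (nat_lit 6) (nat_lit 2) (nat_lit 6) (nat_lit 7) (nat_lit 279) (nat_lit 108) r8_279 r9_108 (nat_lit 0) (nat_lit 0) (nat_lit 0) (nat_lit 0x2000efab8c) (nat_lit 2147483648),
  Rx.mk (nat_lit 438) (nat_lit 6) (nat_lit 6) (nat_lit 6) (nat_lit 7) (nat_lit 278) (nat_lit 107) r8_278 r9_107 (nat_lit 0) (nat_lit 0) (nat_lit 0) (nat_lit 0x2000efab8c) (nat_lit 2147483648),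
  Rx.mk (nat_lit 487) (nat_lit 7) (nat_lit 4) (nat_lit 7) (nat_lit 5) (nat_lit 280) (nat_lit 101) r8_280 r9_101 (nat_lit 0) (nat_lit 39267561) (nat_lit 0) (nat_lit 0x1ffbfbea5a) (nat_lit 2192079359),
  Rx.mk (nat_lit 503) (nat_lit 7) (nat_lit 6) (nat_lit 7) (nat_lit 7) (nat_lit 281) (nat_lit 105) r8_281 r9_105 (nat_lit 0) (nat_lit 0) (nat_lit 0) (nat_lit 0x2000efab8c) (nat_lit 2147483648),
  Rx.mk (nat_lit 511) (nat_lit 7) (nat_lit 7) (nat_lit 7) (nat_lit 7) (nat_lit 282) (nat_lit 102) r8_282 r9_102 (nat_lit 0) (nat_lit 0) (nat_lit 0) (nat_lit 0x2000efab8c) (nat_lit 2147483648)]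
noncomputable def e27_22 : List Rx := [
  Rx.mk (nat_lit 0) (nat_lit 0) (nat_lit 0) (nat_lit 0) (nat_lit 0) (nat_lit 0) (nat_lit 124) r8_0 r0_124 (nat_lit 472505440) (nat_lit 699134) (nat_lit 558198) (nat_lit 0x11858be2f2) (nat_lit 6659296570),
  Rx.mk (nat_lit 24) (nat_lit 0) (nat_lit 3) (nat_lit 0) (nat_lit 2) (nat_lit 1) (nat_lit 125) r8_1 r0_125 (nat_lit 164641045) (nat_lit 0) (nat_lit 12348484) (nat_lit 0x199e5ea924) (nat_lit 4104668277),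
  Rx.mk (nat_lit 27) (nat_lit 3) (nat_lit 3) (nat_lit 0) (nat_lit 3) (nat_lit 2) (nat_lit 126) r8_2 r0_126 (nat_lit 0) (nat_lit 0) (nat_lit 23182194) (nat_lit 0x1d95408368) (nat_lit 2845270342),
  Rx.mk (nat_lit 64) (nat_lit 0) (nat_lit 0) (nat_lit 1) (nat_lit 4) (nat_lit 3) (nat_lit 127) r8_3 r0_127 (nat_lit 457670761) (nat_lit 44295479) (nat_lit 0) (nat_lit 0x1a99669872) (nat_lit 4156204838),
  Rx.mk (nat_lit 88) (nat_lit 0) (nat_lit 3) (nat_lit 1) (nat_lit 6) (nat_lit 4) (nat_lit 128) r8_4 r0_128 (nat_lit 71617622) (nat_lit 0) (nat_lit 0) (nat_lit 0x1fec814016) (nat_lit 2241141020),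
  Rx.mk (nat_lit 91) (nat_lit 3) (nat_lit 3) (nat_lit 1) (nat_lit 7) (nat_lit 5) (nat_lit 129) r8_5 r0_129 (nat_lit 0) (nat_lit 0) (nat_lit 0) (nat_lit 0x1ff599fc9c) (nat_lit 2159689948),
  Rx.mk (nat_lit 128) (nat_lit 0) (nat_lit 0) (nat_lit 2) (nat_lit 4) (nat_lit 6) (nat_lit 133) r8_6 r0_133 (nat_lit 74617973) (nat_lit 16203895) (nat_lit 0) (nat_lit 0x19b544d8a2) (nat_lit 3993550566),
  Rx.mk (nat_lit 130) (nat_lit 2) (nat_lit 0) (nat_lit 2) (nat_lit 5) (nat_lit 8) (nat_lit 136) r8_8 r0_136 (nat_lit 0) (nat_lit 50768653) (nat_lit 0) (nat_lit 0x1e85aaedac) (nat_lit 2610948001),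
  Rx.mk (nat_lit 146) (nat_lit 2) (nat_lit 2) (nat_lit 2) (nat_lit 7) (nat_lit 9) (nat_lit 138) r8_9 r0_138 (nat_lit 0) (nat_lit 0) (nat_lit 0) (nat_lit 0x2000efab8c) (nat_lit 2147483648),
  Rx.mk (nat_lit 152) (nat_lit 0) (nat_lit 3) (nat_lit 2) (nat_lit 6) (nat_lit 7) (nat_lit 134) r8_7 r0_134 (nat_lit 158877595) (nat_lit 0) (nat_lit 0) (nat_lit 0x1fd910c394) (nat_lit 2349483443),
  Rx.mk (nat_lit 154) (nat_lit 2) (nat_lit 3) (nat_lit 2) (nat_lit 7) (nat_lit 10) (nat_lit 137) r8_10 r0_137 (nat_lit 0) (nat_lit 0) (nat_lit 0) (nat_lit 0x2000efab8c) (nat_lit 2147483648),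
  Rx.mk (nat_lit 155) (nat_lit 3) (nat_lit 3) (nat_lit 2) (nat_lit 7) (nat_lit 11) (nat_lit 135) r8_11 r0_135 (nat_lit 0) (nat_lit 0) (nat_lit 0) (nat_lit 0x1fffb6e1b8) (nat_lit 2148787748),
  Rx.mk (nat_lit 219) (nat_lit 3) (nat_lit 3) (nat_lit 3) (nat_lit 7) (nat_lit 14) (nat_lit 130) r8_14 r0_130 (nat_lit 0) (nat_lit 0) (nat_lit 0) (nat_lit 0x1fe8b50378) (nat_lit 2173652748),
  Rx.mk (nat_lit 251) (nat_lit 3) (nat_lit 7) (nat_lit 3) (nat_lit 7) (nat_lit 13) (nat_lit 131) r8_13 r0_131 (nat_lit 0) (nat_lit 0) (nat_lit 0) (nat_lit 0x2000efab8c) (nat_lit 2147483648),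
  Rx.mk (nat_lit 255) (nat_lit 7) (nat_lit 7) (nat_lit 3) (nat_lit 7) (nat_lit 12) (nat_lit 132) r8_12 r0_132 (nat_lit 0) (nat_lit 0) (nat_lit 0) (nat_lit 0x2000efab8c) (nat_lit 2147483648)]
noncomputable def e27_23 : List Rx := [
  Rx.mk (nat_lit 0) (nat_lit 0) (nat_lit 0) (nat_lit 0) (nat_lit 0) (nat_lit 15) (nat_lit 131) r8_15 r1_131 (nat_lit 327860633) (nat_lit 25335672) (nat_lit 33643597) (nat_lit 0x156bc9d33e) (nat_lit 5485228700),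
  Rx.mk (nat_lit 24) (nat_lit 0) (nat_lit 3) (nat_lit 0) (nat_lit 2) (nat_lit 16) (nat_lit 132) r8_16 r1_132 (nat_lit 221342276) (nat_lit 0) (nat_lit 221342276) (nat_lit 0x1d7611f760) (nat_lit 3298763200),
  Rx.mk (nat_lit 27) (nat_lit 3) (nat_lit 3) (nat_lit 0) (nat_lit 3) (nat_lit 17) (nat_lit 133) r8_17 r1_133 (nat_lit 0) (nat_lit 0) (nat_lit 58103393) (nat_lit 0x1fcdbf9e0c) (nat_lit 2261011041),
  Rx.mk (nat_lit 64) (nat_lit 0) (nat_lit 0) (nat_lit 1) (nat_lit 4) (nat_lit 18) (nat_lit 134) r8_18 r1_134 (nat_lit 562708984) (nat_lit 50846040) (nat_lit 0) (nat_lit 0x1defbe60d0) (nat_lit 3337053872),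
  Rx.mk (nat_lit 88) (nat_lit 0) (nat_lit 3) (nat_lit 1) (nat_lit 6) (nat_lit 19) (nat_lit 135) r8_19 r1_135 (nat_lit 39267561) (nat_lit 0) (nat_lit 0) (nat_lit 0x2000efab8c) (nat_lit 2186751209),
  Rx.mk (nat_lit 91) (nat_lit 3) (nat_lit 3) (nat_lit 1) (nat_lit 7) (nat_lit 20) (nat_lit 136) r8_20 r1_136 (nat_lit 0) (nat_lit 0) (nat_lit 0) (nat_lit 0x2000efab8c) (nat_lit 2147483648),
  Rx.mk (nat_lit 128) (nat_lit 0) (nat_lit 0) (nat_lit 2) (nat_lit 4) (nat_lit 21) (nat_lit 138) r8_21 r1_138 (nat_lit 421922006) (nat_lit 44461134) (nat_lit 0) (nat_lit 0x1e3a8d8f1e) (nat_lit 3108379638),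
  Rx.mk (nat_lit 130) (nat_lit 2) (nat_lit 0) (nat_lit 2) (nat_lit 5) (nat_lit 22) (nat_lit 139) r8_22 r1_139 (nat_lit 0) (nat_lit 32055572) (nat_lit 0) (nat_lit 0x1fed6dc972) (nat_lit 2200580170),
  Rx.mk (nat_lit 146) (nat_lit 2) (nat_lit 2) (nat_lit 2) (nat_lit 7) (nat_lit 23) (nat_lit 140) r8_23 r1_140 (nat_lit 0) (nat_lit 0) (nat_lit 0) (nat_lit 0x2000efab8c) (nat_lit 2147483648),
  Rx.mk (nat_lit 219) (nat_lit 3) (nat_lit 3) (nat_lit 3) (nat_lit 7) (nat_lit 24) (nat_lit 137) r8_24 r1_137 (nat_lit 0) (nat_lit 0) (nat_lit 0) (nat_lit 0x2000efab8c) (nat_lit 2147483648)]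
noncomputable def e27_24 : List Rx := [
  Rx.mk (nat_lit 24) (nat_lit 0) (nat_lit 3) (nat_lit 0) (nat_lit 2) (nat_lit 47) (nat_lit 114) r8_47 r4_114 (nat_lit 169341143) (nat_lit 0) (nat_lit 24233093) (nat_lit 0x1c19fb9a9a) (nat_lit 3428832434),
  Rx.mk (nat_lit 27) (nat_lit 3) (nat_lit 3) (nat_lit 0) (nat_lit 3) (nat_lit 49) (nat_lit 115) r8_49 r4_115 (nat_lit 0) (nat_lit 0) (nat_lit 20356374) (nat_lit 0x1feba633ea) (nat_lit 2190772272),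
  Rx.mk (nat_lit 59) (nat_lit 3) (nat_lit 7) (nat_lit 0) (nat_lit 3) (nat_lit 48) (nat_lit 116) r8_48 r4_116 (nat_lit 0) (nat_lit 0) (nat_lit 24441886) (nat_lit 0x20164ff054) (nat_lit 2149008934),
  Rx.mk (nat_lit 88) (nat_lit 0) (nat_lit 3) (nat_lit 1) (nat_lit 6) (nat_lit 50) (nat_lit 117) r8_50 r4_117 (nat_lit 39267561) (nat_lit 0) (nat_lit 0) (nat_lit 0x200dd2b574) (nat_lit 2172930209),
  Rx.mk (nat_lit 91) (nat_lit 3) (nat_lit 3) (nat_lit 1) (nat_lit 7) (nat_lit 52) (nat_lit 118) r8_52 r4_118 (nat_lit 0) (nat_lit 0) (nat_lit 0) (nat_lit 0x20266813b8) (nat_lit 2107390848),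
  Rx.mk (nat_lit 123) (nat_lit 3) (nat_lit 7) (nat_lit 1) (nat_lit 7) (nat_lit 51) (nat_lit 119) r8_51 r4_119 (nat_lit 0) (nat_lit 0) (nat_lit 0) (nat_lit 0x2000efab8c) (nat_lit 2147483648),
  Rx.mk (nat_lit 152) (nat_lit 0) (nat_lit 3) (nat_lit 2) (nat_lit 6) (nat_lit 53) (nat_lit 122) r8_53 r4_122 (nat_lit 39267561) (nat_lit 0) (nat_lit 0) (nat_lit 0x200dd2b574) (nat_lit 2172930209),
  Rx.mk (nat_lit 154) (nat_lit 2) (nat_lit 3) (nat_lit 2) (nat_lit 7) (nat_lit 54) (nat_lit 124) r8_54 r4_124 (nat_lit 0) (nat_lit 0) (nat_lit 0) (nat_lit 0x2000efab8c) (nat_lit 2147483648),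
  Rx.mk (nat_lit 155) (nat_lit 3) (nat_lit 3) (nat_lit 2) (nat_lit 7) (nat_lit 55) (nat_lit 123) r8_55 r4_123 (nat_lit 0) (nat_lit 0) (nat_lit 0) (nat_lit 0x20266813b8) (nat_lit 2107390848),
  Rx.mk (nat_lit 251) (nat_lit 3) (nat_lit 7) (nat_lit 3) (nat_lit 7) (nat_lit 57) (nat_lit 120) r8_57 r4_120 (nat_lit 0) (nat_lit 0) (nat_lit 0) (nat_lit 0x2000efab8c) (nat_lit 2147483648),
  Rx.mk (nat_lit 255) (nat_lit 7) (nat_lit 7) (nat_lit 3) (nat_lit 7) (nat_lit 56) (nat_lit 121) r8_56 r4_121 (nat_lit 0) (nat_lit 0) (nat_lit 0) (nat_lit 0x2000efab8c) (nat_lit 2147483648)]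
noncomputable def e27_25 : List Rx := [
  Rx.mk (nat_lit 0) (nat_lit 0) (nat_lit 0) (nat_lit 0) (nat_lit 0) (nat_lit 78) (nat_lit 150) r8_78 r7_150 (nat_lit 72243851) (nat_lit 10916527) (nat_lit 8054942) (nat_lit 0xea29e495a) (nat_lit 7082065618),
  Rx.mk (nat_lit 24) (nat_lit 0) (nat_lit 3) (nat_lit 0) (nat_lit 2) (nat_lit 79) (nat_lit 153) r8_79 r7_153 (nat_lit 49808052) (nat_lit 0) (nat_lit 13867952) (nat_lit 0x183270804e) (nat_lit 4387837202),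
  Rx.mk (nat_lit 27) (nat_lit 3) (nat_lit 3) (nat_lit 0) (nat_lit 3) (nat_lit 80) (nat_lit 155) r8_80 r7_155 (nat_lit 0) (nat_lit 0) (nat_lit 5067356) (nat_lit 0x1efa567aa4) (nat_lit 2438071504),
  Rx.mk (nat_lit 128) (nat_lit 0) (nat_lit 0) (nat_lit 2) (nat_lit 4) (nat_lit 81) (nat_lit 151) r8_81 r7_151 (nat_lit 38990238) (nat_lit 78285234) (nat_lit 0) (nat_lit 0x185c95d068) (nat_lit 4395485720),
  Rx.mk (nat_lit 130) (nat_lit 2) (nat_lit 0) (nat_lit 2) (nat_lit 5) (nat_lit 83) (nat_lit 152) r8_83 r7_152 (nat_lit 0) (nat_lit 287004756) (nat_lit 0) (nat_lit 0x1fb51a8c54) (nat_lit 2516688604),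
  Rx.mk (nat_lit 146) (nat_lit 2) (nat_lit 2) (nat_lit 2) (nat_lit 7) (nat_lit 84) (nat_lit 159) r8_84 r7_159 (nat_lit 0) (nat_lit 0) (nat_lit 0) (nat_lit 0x1fef6c33d0) (nat_lit 2166386048),
  Rx.mk (nat_lit 152) (nat_lit 0) (nat_lit 3) (nat_lit 2) (nat_lit 6) (nat_lit 82) (nat_lit 154) r8_82 r7_154 (nat_lit 37466795) (nat_lit 0) (nat_lit 0) (nat_lit 0x1ffcf3f89e) (nat_lit 2189236093),
  Rx.mk (nat_lit 154) (nat_lit 2) (nat_lit 3) (nat_lit 2) (nat_lit 7) (nat_lit 85) (nat_lit 158) r8_85 r7_158 (nat_lit 0) (nat_lit 0) (nat_lit 0) (nat_lit 0x2000efab8c) (nat_lit 2147483648),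
  Rx.mk (nat_lit 155) (nat_lit 3) (nat_lit 3) (nat_lit 2) (nat_lit 7) (nat_lit 86) (nat_lit 157) r8_86 r7_157 (nat_lit 0) (nat_lit 0) (nat_lit 0) (nat_lit 0x20251583f6) (nat_lit 2108796398),
  Rx.mk (nat_lit 219) (nat_lit 3) (nat_lit 3) (nat_lit 3) (nat_lit 7) (nat_lit 89) (nat_lit 156) r8_89 r7_156 (nat_lit 0) (nat_lit 0) (nat_lit 0) (nat_lit 0x2000efab8c) (nat_lit 2147483648),
  Rx.mk (nat_lit 251) (nat_lit 3) (nat_lit 7) (nat_lit 3) (nat_lit 7) (nat_lit 88) (nat_lit 149) r8_88 r7_149 (nat_lit 0) (nat_lit 0) (nat_lit 0) (nat_lit 0x2000efab8c) (nat_lit 2147483648),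
  Rx.mk (nat_lit 255) (nat_lit 7) (nat_lit 7) (nat_lit 3) (nat_lit 7) (nat_lit 87) (nat_lit 148) r8_87 r7_148 (nat_lit 0) (nat_lit 0) (nat_lit 0) (nat_lit 0x2000efab8c) (nat_lit 2147483648)]
noncomputable def e27_26 : List Rx := [
  Rx.mk (nat_lit 0) (nat_lit 0) (nat_lit 0) (nat_lit 0) (nat_lit 0) (nat_lit 126) (nat_lit 126) r8_126 r8_126 (nat_lit 164927620) (nat_lit 13962112) (nat_lit 13962112) (nat_lit 0x1135073d18) (nat_lit 6466452292),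
  Rx.mk (nat_lit 24) (nat_lit 0) (nat_lit 3) (nat_lit 0) (nat_lit 2) (nat_lit 127) (nat_lit 129) r8_127 r8_129 (nat_lit 67030596) (nat_lit 0) (nat_lit 59673331) (nat_lit 0x1ac955de9e) (nat_lit 3728716325),
  Rx.mk (nat_lit 27) (nat_lit 3) (nat_lit 3) (nat_lit 0) (nat_lit 3) (nat_lit 128) (nat_lit 130) r8_128 r8_130 (nat_lit 0) (nat_lit 0) (nat_lit 46106072) (nat_lit 0x1ff8a01a48) (nat_lit 2202536720),
  Rx.mk (nat_lit 128) (nat_lit 0) (nat_lit 0) (nat_lit 2) (nat_lit 4) (nat_lit 129) (nat_lit 127) r8_129 r8_127 (nat_lit 67030596) (nat_lit 59673331) (nat_lit 0) (nat_lit 0x1ac955de9e) (nat_lit 3728716325),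
  Rx.mk (nat_lit 130) (nat_lit 2) (nat_lit 0) (nat_lit 2) (nat_lit 5) (nat_lit 130) (nat_lit 128) r8_130 r8_128 (nat_lit 0) (nat_lit 46106072) (nat_lit 0) (nat_lit 0x1ff8a01a48) (nat_lit 2202536720),
  Rx.mk (nat_lit 146) (nat_lit 2) (nat_lit 2) (nat_lit 2) (nat_lit 7) (nat_lit 131) (nat_lit 132) r8_131 r8_132 (nat_lit 0) (nat_lit 0) (nat_lit 0) (nat_lit 0x2000efab8c) (nat_lit 2147483648),
  Rx.mk (nat_lit 219) (nat_lit 3) (nat_lit 3) (nat_lit 3) (nat_lit 7) (nat_lit 132) (nat_lit 131) r8_132 r8_131 (nat_lit 0) (nat_lit 0) (nat_lit 0) (nat_lit 0x2000efab8c) (nat_lit 2147483648)]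
noncomputable def e27_27 : List Rx := [
  Rx.mk (nat_lit 0) (nat_lit 0) (nat_lit 0) (nat_lit 0) (nat_lit 0) (nat_lit 114) (nat_lit 102) r8_114 r8_102 (nat_lit 14426121) (nat_lit 13099215) (nat_lit 8642804) (nat_lit 0xf2566eba8) (nat_lit 6884541388),
  Rx.mk (nat_lit 24) (nat_lit 0) (nat_lit 3) (nat_lit 0) (nat_lit 2) (nat_lit 115) (nat_lit 103) r8_115 r8_103 (nat_lit 2360715) (nat_lit 0) (nat_lit 1604421) (nat_lit 0x19ad24092c) (nat_lit 3915370484),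
  Rx.mk (nat_lit 27) (nat_lit 3) (nat_lit 3) (nat_lit 0) (nat_lit 3) (nat_lit 116) (nat_lit 104) r8_116 r8_104 (nat_lit 0) (nat_lit 0) (nat_lit 39267561) (nat_lit 0x1fe1d6dcca) (nat_lit 2220349759),
  Rx.mk (nat_lit 128) (nat_lit 0) (nat_lit 0) (nat_lit 2) (nat_lit 4) (nat_lit 117) (nat_lit 108) r8_117 r8_108 (nat_lit 1133588) (nat_lit 1493429) (nat_lit 0) (nat_lit 0x1c137f08be) (nat_lit 3244687115),
  Rx.mk (nat_lit 130) (nat_lit 2) (nat_lit 0) (nat_lit 2) (nat_lit 5) (nat_lit 119) (nat_lit 111) r8_119 r8_111 (nat_lit 0) (nat_lit 38052183) (nat_lit 0) (nat_lit 0x1fec57a652) (nat_lit 2207766581),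
  Rx.mk (nat_lit 146) (nat_lit 2) (nat_lit 2) (nat_lit 2) (nat_lit 7) (nat_lit 120) (nat_lit 113) r8_120 r8_113 (nat_lit 0) (nat_lit 0) (nat_lit 0) (nat_lit 0x2000efab8c) (nat_lit 2147483648),
  Rx.mk (nat_lit 152) (nat_lit 0) (nat_lit 3) (nat_lit 2) (nat_lit 6) (nat_lit 118) (nat_lit 109) r8_118 r8_109 (nat_lit 39267561) (nat_lit 0) (nat_lit 0) (nat_lit 0x1ffe5784d0) (nat_lit 2189542009),
  Rx.mk (nat_lit 154) (nat_lit 2) (nat_lit 3) (nat_lit 2) (nat_lit 7) (nat_lit 121) (nat_lit 112) r8_121 r8_112 (nat_lit 0) (nat_lit 0) (nat_lit 0) (nat_lit 0x2000efab8c) (nat_lit 2147483648),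
  Rx.mk (nat_lit 155) (nat_lit 3) (nat_lit 3) (nat_lit 2) (nat_lit 7) (nat_lit 122) (nat_lit 110) r8_122 r8_110 (nat_lit 0) (nat_lit 0) (nat_lit 0) (nat_lit 0x2000efab8c) (nat_lit 2147483648),
  Rx.mk (nat_lit 219) (nat_lit 3) (nat_lit 3) (nat_lit 3) (nat_lit 7) (nat_lit 125) (nat_lit 105) r8_125 r8_105 (nat_lit 0) (nat_lit 0) (nat_lit 0) (nat_lit 0x2000efab8c) (nat_lit 2147483648),
  Rx.mk (nat_lit 251) (nat_lit 3) (nat_lit 7) (nat_lit 3) (nat_lit 7) (nat_lit 124) (nat_lit 106) r8_124 r8_106 (nat_lit 0) (nat_lit 0) (nat_lit 0) (nat_lit 0x2000efab8c) (nat_lit 2147483648),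
  Rx.mk (nat_lit 255) (nat_lit 7) (nat_lit 7) (nat_lit 3) (nat_lit 7) (nat_lit 123) (nat_lit 107) r8_123 r8_107 (nat_lit 0) (nat_lit 0) (nat_lit 0) (nat_lit 0x2000efab8c) (nat_lit 2147483648),
  Rx.mk (nat_lit 292) (nat_lit 4) (nat_lit 4) (nat_lit 4) (nat_lit 0) (nat_lit 102) (nat_lit 114) r8_102 r8_114 (nat_lit 14426121) (nat_lit 13099215) (nat_lit 8642804) (nat_lit 0xf2566eba8) (nat_lit 6884541388),
  Rx.mk (nat_lit 308) (nat_lit 4) (nat_lit 6) (nat_lit 4) (nat_lit 2) (nat_lit 103) (nat_lit 115) r8_103 r8_115 (nat_lit 2360715) (nat_lit 0) (nat_lit 1604421) (nat_lit 0x19ad24092c) (nat_lit 3915370484),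
  Rx.mk (nat_lit 310) (nat_lit 6) (nat_lit 6) (nat_lit 4) (nat_lit 3) (nat_lit 104) (nat_lit 116) r8_104 r8_116 (nat_lit 0) (nat_lit 0) (nat_lit 39267561) (nat_lit 0x1fe1d6dcca) (nat_lit 2220349759),
  Rx.mk (nat_lit 402) (nat_lit 2) (nat_lit 2) (nat_lit 6) (nat_lit 7) (nat_lit 107) (nat_lit 123) r8_107 r8_123 (nat_lit 0) (nat_lit 0) (nat_lit 0) (nat_lit 0x2000efab8c) (nat_lit 2147483648),
  Rx.mk (nat_lit 406) (nat_lit 6) (nat_lit 2) (nat_lit 6) (nat_lit 7) (nat_lit 106) (nat_lit 124) r8_106 r8_124 (nat_lit 0) (nat_lit 0) (nat_lit 0) (nat_lit 0x2000efab8c) (nat_lit 2147483648),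
  Rx.mk (nat_lit 438) (nat_lit 6) (nat_lit 6) (nat_lit 6) (nat_lit 7) (nat_lit 105) (nat_lit 125) r8_105 r8_125 (nat_lit 0) (nat_lit 0) (nat_lit 0) (nat_lit 0x2000efab8c) (nat_lit 2147483648),
  Rx.mk (nat_lit 484) (nat_lit 4) (nat_lit 4) (nat_lit 7) (nat_lit 4) (nat_lit 108) (nat_lit 117) r8_108 r8_117 (nat_lit 1133588) (nat_lit 1493429) (nat_lit 0) (nat_lit 0x1c137f08be) (nat_lit 3244687115),
  Rx.mk (nat_lit 487) (nat_lit 7) (nat_lit 4) (nat_lit 7) (nat_lit 5) (nat_lit 111) (nat_lit 119) r8_111 r8_119 (nat_lit 0) (nat_lit 38052183) (nat_lit 0) (nat_lit 0x1fec57a652) (nat_lit 2207766581),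
  Rx.mk (nat_lit 500) (nat_lit 4) (nat_lit 6) (nat_lit 7) (nat_lit 6) (nat_lit 109) (nat_lit 118) r8_109 r8_118 (nat_lit 39267561) (nat_lit 0) (nat_lit 0) (nat_lit 0x1ffe5784d0) (nat_lit 2189542009),
  Rx.mk (nat_lit 502) (nat_lit 6) (nat_lit 6) (nat_lit 7) (nat_lit 7) (nat_lit 110) (nat_lit 122) r8_110 r8_122 (nat_lit 0) (nat_lit 0) (nat_lit 0) (nat_lit 0x2000efab8c) (nat_lit 2147483648),
  Rx.mk (nat_lit 503) (nat_lit 7) (nat_lit 6) (nat_lit 7) (nat_lit 7) (nat_lit 112) (nat_lit 121) r8_112 r8_121 (nat_lit 0) (nat_lit 0) (nat_lit 0) (nat_lit 0x2000efab8c) (nat_lit 2147483648),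
  Rx.mk (nat_lit 511) (nat_lit 7) (nat_lit 7) (nat_lit 7) (nat_lit 7) (nat_lit 113) (nat_lit 120) r8_113 r8_120 (nat_lit 0) (nat_lit 0) (nat_lit 0) (nat_lit 0x2000efab8c) (nat_lit 2147483648)]
noncomputable def e27_28 : List Rx := [
  Rx.mk (nat_lit 24) (nat_lit 0) (nat_lit 3) (nat_lit 0) (nat_lit 2) (nat_lit 149) (nat_lit 112) r8_149 r10_112 (nat_lit 36374722) (nat_lit 0) (nat_lit 22536325) (nat_lit 0x1b7c9efe72) (nat_lit 3465604845),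
  Rx.mk (nat_lit 27) (nat_lit 3) (nat_lit 3) (nat_lit 0) (nat_lit 3) (nat_lit 151) (nat_lit 114) r8_151 r10_114 (nat_lit 0) (nat_lit 0) (nat_lit 21482774) (nat_lit 0x1fa3cdbac0) (nat_lit 2270040822),
  Rx.mk (nat_lit 59) (nat_lit 3) (nat_lit 7) (nat_lit 0) (nat_lit 3) (nat_lit 150) (nat_lit 110) r8_150 r10_110 (nat_lit 0) (nat_lit 0) (nat_lit 39267561) (nat_lit 0x2000efab8c) (nat_lit 2186751209),
  Rx.mk (nat_lit 152) (nat_lit 0) (nat_lit 3) (nat_lit 2) (nat_lit 6) (nat_lit 152) (nat_lit 113) r8_152 r10_113 (nat_lit 39267561) (nat_lit 0) (nat_lit 0) (nat_lit 0x2000efab8c) (nat_lit 2186751209),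
  Rx.mk (nat_lit 154) (nat_lit 2) (nat_lit 3) (nat_lit 2) (nat_lit 7) (nat_lit 153) (nat_lit 116) r8_153 r10_116 (nat_lit 0) (nat_lit 0) (nat_lit 0) (nat_lit 0x2000efab8c) (nat_lit 2147483648),
  Rx.mk (nat_lit 155) (nat_lit 3) (nat_lit 3) (nat_lit 2) (nat_lit 7) (nat_lit 154) (nat_lit 115) r8_154 r10_115 (nat_lit 0) (nat_lit 0) (nat_lit 0) (nat_lit 0x2000efab8c) (nat_lit 2147483648),
  Rx.mk (nat_lit 251) (nat_lit 3) (nat_lit 7) (nat_lit 3) (nat_lit 7) (nat_lit 156) (nat_lit 111) r8_156 r10_111 (nat_lit 0) (nat_lit 0) (nat_lit 0) (nat_lit 0x2000efab8c) (nat_lit 2147483648),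
  Rx.mk (nat_lit 255) (nat_lit 7) (nat_lit 7) (nat_lit 3) (nat_lit 7) (nat_lit 155) (nat_lit 109) r8_155 r10_109 (nat_lit 0) (nat_lit 0) (nat_lit 0) (nat_lit 0x2000efab8c) (nat_lit 2147483648)]
noncomputable def e27_29 : List Rx := [
  Rx.mk (nat_lit 27) (nat_lit 3) (nat_lit 3) (nat_lit 0) (nat_lit 3) (nat_lit 208) (nat_lit 120) r8_208 r11_120 (nat_lit 0) (nat_lit 0) (nat_lit 22480419) (nat_lit 0x20133e61f2) (nat_lit 2150329117),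
  Rx.mk (nat_lit 59) (nat_lit 3) (nat_lit 7) (nat_lit 0) (nat_lit 3) (nat_lit 207) (nat_lit 118) r8_207 r11_118 (nat_lit 0) (nat_lit 0) (nat_lit 39267561) (nat_lit 0x2000efab8c) (nat_lit 2186751209),
  Rx.mk (nat_lit 63) (nat_lit 7) (nat_lit 7) (nat_lit 0) (nat_lit 3) (nat_lit 206) (nat_lit 115) r8_206 r11_115 (nat_lit 0) (nat_lit 0) (nat_lit 52859885) (nat_lit 0x1fca847898) (nat_lit 2259263733),
  Rx.mk (nat_lit 91) (nat_lit 3) (nat_lit 3) (nat_lit 1) (nat_lit 7) (nat_lit 211) (nat_lit 121) r8_211 r11_121 (nat_lit 0) (nat_lit 0) (nat_lit 0) (nat_lit 0x2010d79ca8) (nat_lit 2130430748),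
  Rx.mk (nat_lit 123) (nat_lit 3) (nat_lit 7) (nat_lit 1) (nat_lit 7) (nat_lit 210) (nat_lit 119) r8_210 r11_119 (nat_lit 0) (nat_lit 0) (nat_lit 0) (nat_lit 0x2000efab8c) (nat_lit 2147483648),
  Rx.mk (nat_lit 127) (nat_lit 7) (nat_lit 7) (nat_lit 1) (nat_lit 7) (nat_lit 209) (nat_lit 116) r8_209 r11_116 (nat_lit 0) (nat_lit 0) (nat_lit 0) (nat_lit 0x2000efab8c) (nat_lit 2147483648),
  Rx.mk (nat_lit 155) (nat_lit 3) (nat_lit 3) (nat_lit 2) (nat_lit 7) (nat_lit 212) (nat_lit 122) r8_212 r11_122 (nat_lit 0) (nat_lit 0) (nat_lit 0) (nat_lit 0x2010d79ca8) (nat_lit 2130430748),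
  Rx.mk (nat_lit 255) (nat_lit 7) (nat_lit 7) (nat_lit 3) (nat_lit 7) (nat_lit 213) (nat_lit 117) r8_213 r11_117 (nat_lit 0) (nat_lit 0) (nat_lit 0) (nat_lit 0x2000efab8c) (nat_lit 2147483648)]
noncomputable def e27_30 : List Rx := [
  Rx.mk (nat_lit 103) (nat_lit 7) (nat_lit 4) (nat_lit 1) (nat_lit 5) (nat_lit 349) (nat_lit 271) r8_349 r5_271 (nat_lit 0) (nat_lit 29877332) (nat_lit 0) (nat_lit 0x1ff65ee49e) (nat_lit 2188724730),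
  Rx.mk (nat_lit 111) (nat_lit 7) (nat_lit 5) (nat_lit 1) (nat_lit 7) (nat_lit 350) (nat_lit 272) r8_350 r5_272 (nat_lit 0) (nat_lit 0) (nat_lit 0) (nat_lit 0x2000efab8c) (nat_lit 2147483648),
  Rx.mk (nat_lit 359) (nat_lit 7) (nat_lit 4) (nat_lit 5) (nat_lit 5) (nat_lit 347) (nat_lit 269) r8_347 r5_269 (nat_lit 0) (nat_lit 30179101) (nat_lit 0) (nat_lit 0x20034b8dba) (nat_lit 2175115699),
  Rx.mk (nat_lit 367) (nat_lit 7) (nat_lit 5) (nat_lit 5) (nat_lit 7) (nat_lit 348) (nat_lit 270) r8_348 r5_270 (nat_lit 0) (nat_lit 0) (nat_lit 0) (nat_lit 0x2000efab8c) (nat_lit 2147483648)]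
noncomputable def e27_31 : List Rx := [
  Rx.mk (nat_lit 359) (nat_lit 7) (nat_lit 4) (nat_lit 5) (nat_lit 5) (nat_lit 358) (nat_lit 335) r8_358 r11_335 (nat_lit 0) (nat_lit 25196550) (nat_lit 0) (nat_lit 0x2016fbc60e) (nat_lit 2149059648),
  Rx.mk (nat_lit 367) (nat_lit 7) (nat_lit 5) (nat_lit 5) (nat_lit 7) (nat_lit 359) (nat_lit 336) r8_359 r11_336 (nat_lit 0) (nat_lit 0) (nat_lit 0) (nat_lit 0x2000efab8c) (nat_lit 2147483648),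
  Rx.mk (nat_lit 375) (nat_lit 7) (nat_lit 6) (nat_lit 5) (nat_lit 7) (nat_lit 360) (nat_lit 337) r8_360 r11_337 (nat_lit 0) (nat_lit 0) (nat_lit 0) (nat_lit 0x2000efab8c) (nat_lit 2147483648)]
noncomputable def e27_32 : List Rx := [
  Rx.mk (nat_lit 99) (nat_lit 3) (nat_lit 4) (nat_lit 1) (nat_lit 5) (nat_lit 71) (nat_lit 203) r8_71 r6_203 (nat_lit 0) (nat_lit 13558047) (nat_lit 0) (nat_lit 0x2028d5bcfe) (nat_lit 2118348245),
  Rx.mk (nat_lit 107) (nat_lit 3) (nat_lit 5) (nat_lit 1) (nat_lit 7) (nat_lit 72) (nat_lit 204) r8_72 r6_204 (nat_lit 0) (nat_lit 0) (nat_lit 0) (nat_lit 0x20219ab8ea) (nat_lit 2112508498),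
  Rx.mk (nat_lit 123) (nat_lit 3) (nat_lit 7) (nat_lit 1) (nat_lit 7) (nat_lit 73) (nat_lit 205) r8_73 r6_205 (nat_lit 0) (nat_lit 0) (nat_lit 0) (nat_lit 0x20322bb560) (nat_lit 2094853748)]
noncomputable def e27_33 : List Rx := [
  Rx.mk (nat_lit 59) (nat_lit 3) (nat_lit 7) (nat_lit 0) (nat_lit 3) (nat_lit 58) (nat_lit 115) r8_58 r5_115 (nat_lit 0) (nat_lit 0) (nat_lit 16622719) (nat_lit 0x20404a0c96) (nat_lit 2096452017),
  Rx.mk (nat_lit 123) (nat_lit 3) (nat_lit 7) (nat_lit 1) (nat_lit 7) (nat_lit 59) (nat_lit 116) r8_59 r5_116 (nat_lit 0) (nat_lit 0) (nat_lit 0) (nat_lit 0x201c9555d0) (nat_lit 2117865048),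
  Rx.mk (nat_lit 251) (nat_lit 3) (nat_lit 7) (nat_lit 3) (nat_lit 7) (nat_lit 60) (nat_lit 117) r8_60 r5_117 (nat_lit 0) (nat_lit 0) (nat_lit 0) (nat_lit 0x2000efab8c) (nat_lit 2147483648)]
noncomputable def e27_34 : List Rx := [
  Rx.mk (nat_lit 59) (nat_lit 3) (nat_lit 7) (nat_lit 0) (nat_lit 3) (nat_lit 157) (nat_lit 113) r8_157 r11_113 (nat_lit 0) (nat_lit 0) (nat_lit 45467115) (nat_lit 0x1ff9de9826) (nat_lit 2200558313),
  Rx.mk (nat_lit 251) (nat_lit 3) (nat_lit 7) (nat_lit 3) (nat_lit 7) (nat_lit 158) (nat_lit 114) r8_158 r11_114 (nat_lit 0) (nat_lit 0) (nat_lit 0) (nat_lit 0x2000efab8c) (nat_lit 2147483648)]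
noncomputable def e27_35 : List Rx := [
  Rx.mk (nat_lit 99) (nat_lit 3) (nat_lit 4) (nat_lit 1) (nat_lit 5) (nat_lit 216) (nat_lit 310) r8_216 r6_310 (nat_lit 0) (nat_lit 12950370) (nat_lit 0) (nat_lit 0x2009bc934c) (nat_lit 2150918918),
  Rx.mk (nat_lit 103) (nat_lit 7) (nat_lit 4) (nat_lit 1) (nat_lit 5) (nat_lit 214) (nat_lit 311) r8_214 r6_311 (nat_lit 0) (nat_lit 22905996) (nat_lit 0) (nat_lit 0x201b7b8070) (nat_lit 2141953244),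
  Rx.mk (nat_lit 107) (nat_lit 3) (nat_lit 5) (nat_lit 1) (nat_lit 7) (nat_lit 217) (nat_lit 312) r8_217 r6_312 (nat_lit 0) (nat_lit 0) (nat_lit 0) (nat_lit 0x2026f1b668) (nat_lit 2106815848),
  Rx.mk (nat_lit 111) (nat_lit 7) (nat_lit 5) (nat_lit 1) (nat_lit 7) (nat_lit 215) (nat_lit 313) r8_215 r6_313 (nat_lit 0) (nat_lit 0) (nat_lit 0) (nat_lit 0x200d095a4e) (nat_lit 2134500898)]
noncomputable def e27_36 : List Rx := [
  Rx.mk (nat_lit 99) (nat_lit 3) (nat_lit 4) (nat_lit 1) (nat_lit 5) (nat_lit 227) (nat_lit 208) r8_227 r12_208 (nat_lit 0) (nat_lit 9739573) (nat_lit 0) (nat_lit 0x203fec4d7c) (nat_lit 2089940321),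
  Rx.mk (nat_lit 103) (nat_lit 7) (nat_lit 4) (nat_lit 1) (nat_lit 5) (nat_lit 225) (nat_lit 211) r8_225 r12_211 (nat_lit 0) (nat_lit 23920748) (nat_lit 0) (nat_lit 0x2018d41a30) (nat_lit 2145804396),
  Rx.mk (nat_lit 107) (nat_lit 3) (nat_lit 5) (nat_lit 1) (nat_lit 7) (nat_lit 228) (nat_lit 209) r8_228 r12_209 (nat_lit 0) (nat_lit 0) (nat_lit 0) (nat_lit 0x202911d41e) (nat_lit 2104549198),
  Rx.mk (nat_lit 111) (nat_lit 7) (nat_lit 5) (nat_lit 1) (nat_lit 7) (nat_lit 226) (nat_lit 212) r8_226 r12_212 (nat_lit 0) (nat_lit 0) (nat_lit 0) (nat_lit 0x2000efab8c) (nat_lit 2147483648),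
  Rx.mk (nat_lit 123) (nat_lit 3) (nat_lit 7) (nat_lit 1) (nat_lit 7) (nat_lit 229) (nat_lit 210) r8_229 r12_210 (nat_lit 0) (nat_lit 0) (nat_lit 0) (nat_lit 0x203b20a61c) (nat_lit 2085320748)]
noncomputable def e27_37 : List Rx := [
  Rx.mk (nat_lit 72) (nat_lit 0) (nat_lit 1) (nat_lit 1) (nat_lit 6) (nat_lit 64) (nat_lit 186) r8_64 r0_186 (nat_lit 40854578) (nat_lit 0) (nat_lit 0) (nat_lit 0x1f671d7930) (nat_lit 2355441226),
  Rx.mk (nat_lit 75) (nat_lit 3) (nat_lit 1) (nat_lit 1) (nat_lit 7) (nat_lit 65) (nat_lit 187) r8_65 r0_187 (nat_lit 0) (nat_lit 0) (nat_lit 0) (nat_lit 0x201a746ebc) (nat_lit 2120137948),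
  Rx.mk (nat_lit 104) (nat_lit 0) (nat_lit 5) (nat_lit 1) (nat_lit 6) (nat_lit 63) (nat_lit 185) r8_63 r0_185 (nat_lit 39970022) (nat_lit 0) (nat_lit 0) (nat_lit 0x1e21cd06d0) (nat_lit 2708909070)]
noncomputable def e27_38 : List Rx := [
  Rx.mk (nat_lit 104) (nat_lit 0) (nat_lit 5) (nat_lit 1) (nat_lit 6) (nat_lit 178) (nat_lit 289) r8_178 r0_289 (nat_lit 56859670) (nat_lit 0) (nat_lit 0) (nat_lit 0x1ce3b5aac4) (nat_lit 3072366618),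
  Rx.mk (nat_lit 105) (nat_lit 1) (nat_lit 5) (nat_lit 1) (nat_lit 7) (nat_lit 179) (nat_lit 290) r8_179 r0_290 (nat_lit 0) (nat_lit 0) (nat_lit 0) (nat_lit 0x1fdef748c8) (nat_lit 2184202448)]
noncomputable def e27_39 : List Rx := [
  Rx.mk (nat_lit 72) (nat_lit 0) (nat_lit 1) (nat_lit 1) (nat_lit 6) (nat_lit 185) (nat_lit 242) r8_185 r7_242 (nat_lit 42780042) (nat_lit 0) (nat_lit 0) (nat_lit 0x1e3e97900a) (nat_lit 2680398140),
  Rx.mk (nat_lit 73) (nat_lit 1) (nat_lit 1) (nat_lit 1) (nat_lit 7) (nat_lit 187) (nat_lit 244) r8_187 r7_244 (nat_lit 0) (nat_lit 0) (nat_lit 0) (nat_lit 0x2000efab8c) (nat_lit 2147483648),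
  Rx.mk (nat_lit 75) (nat_lit 3) (nat_lit 1) (nat_lit 1) (nat_lit 7) (nat_lit 188) (nat_lit 245) r8_188 r7_245 (nat_lit 0) (nat_lit 0) (nat_lit 0) (nat_lit 0x2000efab8c) (nat_lit 2147483648),
  Rx.mk (nat_lit 104) (nat_lit 0) (nat_lit 5) (nat_lit 1) (nat_lit 6) (nat_lit 184) (nat_lit 241) r8_184 r7_241 (nat_lit 19673153) (nat_lit 0) (nat_lit 0) (nat_lit 0x1f8bf49b1c) (nat_lit 2294173401),
  Rx.mk (nat_lit 105) (nat_lit 1) (nat_lit 5) (nat_lit 1) (nat_lit 7) (nat_lit 186) (nat_lit 243) r8_186 r7_243 (nat_lit 0) (nat_lit 0) (nat_lit 0) (nat_lit 0x201b34a65a) (nat_lit 2119343898)]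
noncomputable def e27_40 : List Rx := [
  Rx.mk (nat_lit 105) (nat_lit 1) (nat_lit 5) (nat_lit 1) (nat_lit 7) (nat_lit 322) (nat_lit 312) r8_322 r2_312 (nat_lit 0) (nat_lit 0) (nat_lit 0) (nat_lit 0x2000efab8c) (nat_lit 2147483648),
  Rx.mk (nat_lit 109) (nat_lit 5) (nat_lit 5) (nat_lit 1) (nat_lit 7) (nat_lit 321) (nat_lit 313) r8_321 r2_313 (nat_lit 0) (nat_lit 0) (nat_lit 0) (nat_lit 0x2000efab8c) (nat_lit 2147483648),
  Rx.mk (nat_lit 365) (nat_lit 5) (nat_lit 5) (nat_lit 5) (nat_lit 7) (nat_lit 320) (nat_lit 314) r8_320 r2_314 (nat_lit 0) (nat_lit 0) (nat_lit 0) (nat_lit 0x2000efab8c) (nat_lit 2147483648)]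
noncomputable def e27_41 : List Rx := [
  Rx.mk (nat_lit 73) (nat_lit 1) (nat_lit 1) (nat_lit 1) (nat_lit 7) (nat_lit 330) (nat_lit 294) r8_330 r9_294 (nat_lit 0) (nat_lit 0) (nat_lit 0) (nat_lit 0x2000efab8c) (nat_lit 2147483648),
  Rx.mk (nat_lit 105) (nat_lit 1) (nat_lit 5) (nat_lit 1) (nat_lit 7) (nat_lit 329) (nat_lit 295) r8_329 r9_295 (nat_lit 0) (nat_lit 0) (nat_lit 0) (nat_lit 0x2000efab8c) (nat_lit 2147483648),
  Rx.mk (nat_lit 109) (nat_lit 5) (nat_lit 5) (nat_lit 1) (nat_lit 7) (nat_lit 328) (nat_lit 296) r8_328 r9_296 (nat_lit 0) (nat_lit 0) (nat_lit 0) (nat_lit 0x2000efab8c) (nat_lit 2147483648),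
  Rx.mk (nat_lit 365) (nat_lit 5) (nat_lit 5) (nat_lit 5) (nat_lit 7) (nat_lit 327) (nat_lit 297) r8_327 r9_297 (nat_lit 0) (nat_lit 0) (nat_lit 0) (nat_lit 0x2000efab8c) (nat_lit 2147483648)]
noncomputable def e27_42 : List Rx := [
  Rx.mk (nat_lit 365) (nat_lit 5) (nat_lit 5) (nat_lit 5) (nat_lit 7) (nat_lit 326) (nat_lit 289) r8_326 r9_289 (nat_lit 0) (nat_lit 0) (nat_lit 0) (nat_lit 0x2000efab8c) (nat_lit 2147483648)]
noncomputable def e27_43 : List Rx := [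
  Rx.mk (nat_lit 105) (nat_lit 1) (nat_lit 5) (nat_lit 1) (nat_lit 7) (nat_lit 180) (nat_lit 286) r8_180 r1_286 (nat_lit 0) (nat_lit 0) (nat_lit 0) (nat_lit 0x2000efab8c) (nat_lit 2147483648)]
noncomputable def e27_44 : List Rx := [
  Rx.mk (nat_lit 73) (nat_lit 1) (nat_lit 1) (nat_lit 1) (nat_lit 7) (nat_lit 190) (nat_lit 190) r8_190 r8_190 (nat_lit 0) (nat_lit 0) (nat_lit 0) (nat_lit 0x2000efab8c) (nat_lit 2147483648),
  Rx.mk (nat_lit 105) (nat_lit 1) (nat_lit 5) (nat_lit 1) (nat_lit 7) (nat_lit 189) (nat_lit 189) r8_189 r8_189 (nat_lit 0) (nat_lit 0) (nat_lit 0) (nat_lit 0x2000efab8c) (nat_lit 2147483648)]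
noncomputable def e27_45 : List Rx := [
  Rx.mk (nat_lit 72) (nat_lit 0) (nat_lit 1) (nat_lit 1) (nat_lit 6) (nat_lit 66) (nat_lit 199) r8_66 r1_199 (nat_lit 54833726) (nat_lit 0) (nat_lit 0) (nat_lit 0x1fe95212b2) (nat_lit 2227810624),
  Rx.mk (nat_lit 75) (nat_lit 3) (nat_lit 1) (nat_lit 1) (nat_lit 7) (nat_lit 67) (nat_lit 200) r8_67 r1_200 (nat_lit 0) (nat_lit 0) (nat_lit 0) (nat_lit 0x2000efab8c) (nat_lit 2147483648)]
noncomputable def e27_46 : List Rx := [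
  Rx.mk (nat_lit 0) (nat_lit 0) (nat_lit 0) (nat_lit 0) (nat_lit 0) (nat_lit 25) (nat_lit 203) r8_25 r2_203 (nat_lit 11199588) (nat_lit 563988) (nat_lit 409480) (nat_lit 0x106f9c1094) (nat_lit 6500473804),
  Rx.mk (nat_lit 3) (nat_lit 3) (nat_lit 0) (nat_lit 0) (nat_lit 1) (nat_lit 27) (nat_lit 209) r8_27 r2_209 (nat_lit 0) (nat_lit 811008) (nat_lit 463224) (nat_lit 0x18c722b8c4) (nat_lit 4163094280),
  Rx.mk (nat_lit 8) (nat_lit 0) (nat_lit 1) (nat_lit 0) (nat_lit 2) (nat_lit 26) (nat_lit 204) r8_26 r2_204 (nat_lit 26727303) (nat_lit 0) (nat_lit 26727303) (nat_lit 0x1901dec4da) (nat_lit 4151662204),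
  Rx.mk (nat_lit 11) (nat_lit 3) (nat_lit 1) (nat_lit 0) (nat_lit 3) (nat_lit 28) (nat_lit 210) r8_28 r2_210 (nat_lit 0) (nat_lit 0) (nat_lit 18717822) (nat_lit 0x202dc301d6) (nat_lit 2118269420),
  Rx.mk (nat_lit 27) (nat_lit 3) (nat_lit 3) (nat_lit 0) (nat_lit 3) (nat_lit 29) (nat_lit 211) r8_29 r2_211 (nat_lit 0) (nat_lit 0) (nat_lit 18774916) (nat_lit 0x202d9cc34a) (nat_lit 2118486314),
  Rx.mk (nat_lit 64) (nat_lit 0) (nat_lit 0) (nat_lit 1) (nat_lit 4) (nat_lit 30) (nat_lit 205) r8_30 r2_205 (nat_lit 105181742) (nat_lit 49680933) (nat_lit 0) (nat_lit 0x1ad2853f32) (nat_lit 3746880873),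
  Rx.mk (nat_lit 67) (nat_lit 3) (nat_lit 0) (nat_lit 1) (nat_lit 5) (nat_lit 32) (nat_lit 212) r8_32 r2_212 (nat_lit 0) (nat_lit 16041787) (nat_lit 0) (nat_lit 0x2048c10ad2) (nat_lit 2086868285),
  Rx.mk (nat_lit 72) (nat_lit 0) (nat_lit 1) (nat_lit 1) (nat_lit 6) (nat_lit 31) (nat_lit 206) r8_31 r2_206 (nat_lit 39267561) (nat_lit 0) (nat_lit 0) (nat_lit 0x2000efab8c) (nat_lit 2186751209),
  Rx.mk (nat_lit 75) (nat_lit 3) (nat_lit 1) (nat_lit 1) (nat_lit 7) (nat_lit 33) (nat_lit 213) r8_33 r2_213 (nat_lit 0) (nat_lit 0) (nat_lit 0) (nat_lit 0x2000efab8c) (nat_lit 2147483648),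
  Rx.mk (nat_lit 91) (nat_lit 3) (nat_lit 3) (nat_lit 1) (nat_lit 7) (nat_lit 34) (nat_lit 214) r8_34 r2_214 (nat_lit 0) (nat_lit 0) (nat_lit 0) (nat_lit 0x2000efab8c) (nat_lit 2147483648),
  Rx.mk (nat_lit 128) (nat_lit 0) (nat_lit 0) (nat_lit 2) (nat_lit 4) (nat_lit 35) (nat_lit 207) r8_35 r2_207 (nat_lit 31687861) (nat_lit 19598011) (nat_lit 0) (nat_lit 0x1c4f64ab18) (nat_lit 3228342920),
  Rx.mk (nat_lit 130) (nat_lit 2) (nat_lit 0) (nat_lit 2) (nat_lit 5) (nat_lit 37) (nat_lit 218) r8_37 r2_218 (nat_lit 0) (nat_lit 39267561) (nat_lit 0) (nat_lit 0x2000efab8c) (nat_lit 2186751209),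
  Rx.mk (nat_lit 131) (nat_lit 3) (nat_lit 0) (nat_lit 2) (nat_lit 5) (nat_lit 40) (nat_lit 216) r8_40 r2_216 (nat_lit 0) (nat_lit 16041787) (nat_lit 0) (nat_lit 0x2048c10ad2) (nat_lit 2086868285),
  Rx.mk (nat_lit 136) (nat_lit 0) (nat_lit 1) (nat_lit 2) (nat_lit 6) (nat_lit 36) (nat_lit 208) r8_36 r2_208 (nat_lit 39267561) (nat_lit 0) (nat_lit 0) (nat_lit 0x2000efab8c) (nat_lit 2186751209),
  Rx.mk (nat_lit 138) (nat_lit 2) (nat_lit 1) (nat_lit 2) (nat_lit 7) (nat_lit 38) (nat_lit 219) r8_38 r2_219 (nat_lit 0) (nat_lit 0) (nat_lit 0) (nat_lit 0x2000efab8c) (nat_lit 2147483648),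
  Rx.mk (nat_lit 139) (nat_lit 3) (nat_lit 1) (nat_lit 2) (nat_lit 7) (nat_lit 41) (nat_lit 217) r8_41 r2_217 (nat_lit 0) (nat_lit 0) (nat_lit 0) (nat_lit 0x2000efab8c) (nat_lit 2147483648),
  Rx.mk (nat_lit 146) (nat_lit 2) (nat_lit 2) (nat_lit 2) (nat_lit 7) (nat_lit 39) (nat_lit 220) r8_39 r2_220 (nat_lit 0) (nat_lit 0) (nat_lit 0) (nat_lit 0x2000efab8c) (nat_lit 2147483648),
  Rx.mk (nat_lit 219) (nat_lit 3) (nat_lit 3) (nat_lit 3) (nat_lit 7) (nat_lit 42) (nat_lit 215) r8_42 r2_215 (nat_lit 0) (nat_lit 0) (nat_lit 0) (nat_lit 0x2000efab8c) (nat_lit 2147483648)]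
noncomputable def e27_47 : List Rx := [
  Rx.mk (nat_lit 72) (nat_lit 0) (nat_lit 1) (nat_lit 1) (nat_lit 6) (nat_lit 191) (nat_lit 323) r8_191 r8_323 (nat_lit 39267561) (nat_lit 0) (nat_lit 0) (nat_lit 0x2000efab8c) (nat_lit 2186751209),
  Rx.mk (nat_lit 73) (nat_lit 1) (nat_lit 1) (nat_lit 1) (nat_lit 7) (nat_lit 192) (nat_lit 324) r8_192 r8_324 (nat_lit 0) (nat_lit 0) (nat_lit 0) (nat_lit 0x2000efab8c) (nat_lit 2147483648),
  Rx.mk (nat_lit 75) (nat_lit 3) (nat_lit 1) (nat_lit 1) (nat_lit 7) (nat_lit 193) (nat_lit 325) r8_193 r8_325 (nat_lit 0) (nat_lit 0) (nat_lit 0) (nat_lit 0x2000efab8c) (nat_lit 2147483648)]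
noncomputable def e27_48 : List Rx := [
  Rx.mk (nat_lit 0) (nat_lit 0) (nat_lit 0) (nat_lit 0) (nat_lit 0) (nat_lit 159) (nat_lit 183) r8_159 r9_183 (nat_lit 43751379) (nat_lit 18329467) (nat_lit 17775076) (nat_lit 0x126b7f3d0e) (nat_lit 6015222620),
  Rx.mk (nat_lit 3) (nat_lit 3) (nat_lit 0) (nat_lit 0) (nat_lit 1) (nat_lit 162) (nat_lit 192) r8_162 r9_192 (nat_lit 0) (nat_lit 46162637) (nat_lit 41792069) (nat_lit 0x1cf3193c42) (nat_lit 3086711804),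
  Rx.mk (nat_lit 8) (nat_lit 0) (nat_lit 1) (nat_lit 0) (nat_lit 2) (nat_lit 160) (nat_lit 184) r8_160 r9_184 (nat_lit 73973394) (nat_lit 0) (nat_lit 64269240) (nat_lit 0x1b9bf02dc8) (nat_lit 3510825782),
  Rx.mk (nat_lit 9) (nat_lit 1) (nat_lit 1) (nat_lit 0) (nat_lit 3) (nat_lit 161) (nat_lit 189) r8_161 r9_189 (nat_lit 0) (nat_lit 0) (nat_lit 39267561) (nat_lit 0x2000efab8c) (nat_lit 2186751209),
  Rx.mk (nat_lit 11) (nat_lit 3) (nat_lit 1) (nat_lit 0) (nat_lit 3) (nat_lit 163) (nat_lit 193) r8_163 r9_193 (nat_lit 0) (nat_lit 0) (nat_lit 39267561) (nat_lit 0x2000efab8c) (nat_lit 2186751209),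
  Rx.mk (nat_lit 27) (nat_lit 3) (nat_lit 3) (nat_lit 0) (nat_lit 3) (nat_lit 164) (nat_lit 194) r8_164 r9_194 (nat_lit 0) (nat_lit 0) (nat_lit 39267561) (nat_lit 0x2000efab8c) (nat_lit 2186751209),
  Rx.mk (nat_lit 64) (nat_lit 0) (nat_lit 0) (nat_lit 1) (nat_lit 4) (nat_lit 165) (nat_lit 185) r8_165 r9_185 (nat_lit 99535248) (nat_lit 161055423) (nat_lit 0) (nat_lit 0x1dd12e9a18) (nat_lit 3017390519),
  Rx.mk (nat_lit 67) (nat_lit 3) (nat_lit 0) (nat_lit 1) (nat_lit 5) (nat_lit 168) (nat_lit 195) r8_168 r9_195 (nat_lit 0) (nat_lit 39267561) (nat_lit 0) (nat_lit 0x2000efab8c) (nat_lit 2186751209),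
  Rx.mk (nat_lit 72) (nat_lit 0) (nat_lit 1) (nat_lit 1) (nat_lit 6) (nat_lit 166) (nat_lit 186) r8_166 r9_186 (nat_lit 39267561) (nat_lit 0) (nat_lit 0) (nat_lit 0x2000efab8c) (nat_lit 2186751209),
  Rx.mk (nat_lit 73) (nat_lit 1) (nat_lit 1) (nat_lit 1) (nat_lit 7) (nat_lit 167) (nat_lit 190) r8_167 r9_190 (nat_lit 0) (nat_lit 0) (nat_lit 0) (nat_lit 0x2000efab8c) (nat_lit 2147483648),
  Rx.mk (nat_lit 75) (nat_lit 3) (nat_lit 1) (nat_lit 1) (nat_lit 7) (nat_lit 169) (nat_lit 196) r8_169 r9_196 (nat_lit 0) (nat_lit 0) (nat_lit 0) (nat_lit 0x2000efab8c) (nat_lit 2147483648),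
  Rx.mk (nat_lit 91) (nat_lit 3) (nat_lit 3) (nat_lit 1) (nat_lit 7) (nat_lit 170) (nat_lit 197) r8_170 r9_197 (nat_lit 0) (nat_lit 0) (nat_lit 0) (nat_lit 0x2000efab8c) (nat_lit 2147483648),
  Rx.mk (nat_lit 128) (nat_lit 0) (nat_lit 0) (nat_lit 2) (nat_lit 4) (nat_lit 171) (nat_lit 187) r8_171 r9_187 (nat_lit 83951218) (nat_lit 83951218) (nat_lit 0) (nat_lit 0x1df20dcccc) (nat_lit 2888920384),
  Rx.mk (nat_lit 130) (nat_lit 2) (nat_lit 0) (nat_lit 2) (nat_lit 5) (nat_lit 174) (nat_lit 199) r8_174 r9_199 (nat_lit 0) (nat_lit 39267561) (nat_lit 0) (nat_lit 0x2000efab8c) (nat_lit 2186751209),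
  Rx.mk (nat_lit 136) (nat_lit 0) (nat_lit 1) (nat_lit 2) (nat_lit 6) (nat_lit 172) (nat_lit 188) r8_172 r9_188 (nat_lit 39267561) (nat_lit 0) (nat_lit 0) (nat_lit 0x2000efab8c) (nat_lit 2186751209),
  Rx.mk (nat_lit 137) (nat_lit 1) (nat_lit 1) (nat_lit 2) (nat_lit 7) (nat_lit 173) (nat_lit 191) r8_173 r9_191 (nat_lit 0) (nat_lit 0) (nat_lit 0) (nat_lit 0x2000efab8c) (nat_lit 2147483648),
  Rx.mk (nat_lit 138) (nat_lit 2) (nat_lit 1) (nat_lit 2) (nat_lit 7) (nat_lit 175) (nat_lit 200) r8_175 r9_200 (nat_lit 0) (nat_lit 0) (nat_lit 0) (nat_lit 0x2000efab8c) (nat_lit 2147483648),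
  Rx.mk (nat_lit 146) (nat_lit 2) (nat_lit 2) (nat_lit 2) (nat_lit 7) (nat_lit 176) (nat_lit 201) r8_176 r9_201 (nat_lit 0) (nat_lit 0) (nat_lit 0) (nat_lit 0x2000efab8c) (nat_lit 2147483648),
  Rx.mk (nat_lit 219) (nat_lit 3) (nat_lit 3) (nat_lit 3) (nat_lit 7) (nat_lit 177) (nat_lit 198) r8_177 r9_198 (nat_lit 0) (nat_lit 0) (nat_lit 0) (nat_lit 0x2000efab8c) (nat_lit 2147483648)]
noncomputable def e27_49 : List Rx := [
  Rx.mk (nat_lit 0) (nat_lit 0) (nat_lit 0) (nat_lit 0) (nat_lit 0) (nat_lit 133) (nat_lit 86) r8_133 r9_86 (nat_lit 110382014) (nat_lit 16492852) (nat_lit 11620677) (nat_lit 0x10b61feab8) (nat_lit 6550328991),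
  Rx.mk (nat_lit 3) (nat_lit 3) (nat_lit 0) (nat_lit 0) (nat_lit 1) (nat_lit 135) (nat_lit 88) r8_135 r9_88 (nat_lit 0) (nat_lit 48298644) (nat_lit 91887484) (nat_lit 0x1b379211ca) (nat_lit 3622114126),
  Rx.mk (nat_lit 8) (nat_lit 0) (nat_lit 1) (nat_lit 0) (nat_lit 2) (nat_lit 134) (nat_lit 87) r8_134 r9_87 (nat_lit 130641162) (nat_lit 0) (nat_lit 32464604) (nat_lit 0x1bddcbf93e) (nat_lit 3463944464),
  Rx.mk (nat_lit 11) (nat_lit 3) (nat_lit 1) (nat_lit 0) (nat_lit 3) (nat_lit 136) (nat_lit 89) r8_136 r9_89 (nat_lit 0) (nat_lit 0) (nat_lit 39267561) (nat_lit 0x2000efab8c) (nat_lit 2186751209),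
  Rx.mk (nat_lit 27) (nat_lit 3) (nat_lit 3) (nat_lit 0) (nat_lit 3) (nat_lit 137) (nat_lit 90) r8_137 r9_90 (nat_lit 0) (nat_lit 0) (nat_lit 39267561) (nat_lit 0x2000efab8c) (nat_lit 2186751209),
  Rx.mk (nat_lit 128) (nat_lit 0) (nat_lit 0) (nat_lit 2) (nat_lit 4) (nat_lit 138) (nat_lit 92) r8_138 r9_92 (nat_lit 53900239) (nat_lit 55782578) (nat_lit 0) (nat_lit 0x1c147041e8) (nat_lit 3350996965),
  Rx.mk (nat_lit 130) (nat_lit 2) (nat_lit 0) (nat_lit 2) (nat_lit 5) (nat_lit 140) (nat_lit 96) r8_140 r9_96 (nat_lit 0) (nat_lit 39267561) (nat_lit 0) (nat_lit 0x2000efab8c) (nat_lit 2186751209),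
  Rx.mk (nat_lit 131) (nat_lit 3) (nat_lit 0) (nat_lit 2) (nat_lit 5) (nat_lit 143) (nat_lit 94) r8_143 r9_94 (nat_lit 0) (nat_lit 39267561) (nat_lit 0) (nat_lit 0x2000efab8c) (nat_lit 2186751209),
  Rx.mk (nat_lit 136) (nat_lit 0) (nat_lit 1) (nat_lit 2) (nat_lit 6) (nat_lit 139) (nat_lit 93) r8_139 r9_93 (nat_lit 39267561) (nat_lit 0) (nat_lit 0) (nat_lit 0x2000efab8c) (nat_lit 2186751209),
  Rx.mk (nat_lit 138) (nat_lit 2) (nat_lit 1) (nat_lit 2) (nat_lit 7) (nat_lit 141) (nat_lit 97) r8_141 r9_97 (nat_lit 0) (nat_lit 0) (nat_lit 0) (nat_lit 0x2000efab8c) (nat_lit 2147483648),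
  Rx.mk (nat_lit 139) (nat_lit 3) (nat_lit 1) (nat_lit 2) (nat_lit 7) (nat_lit 144) (nat_lit 95) r8_144 r9_95 (nat_lit 0) (nat_lit 0) (nat_lit 0) (nat_lit 0x2000efab8c) (nat_lit 2147483648),
  Rx.mk (nat_lit 146) (nat_lit 2) (nat_lit 2) (nat_lit 2) (nat_lit 7) (nat_lit 142) (nat_lit 98) r8_142 r9_98 (nat_lit 0) (nat_lit 0) (nat_lit 0) (nat_lit 0x2000efab8c) (nat_lit 2147483648),
  Rx.mk (nat_lit 219) (nat_lit 3) (nat_lit 3) (nat_lit 3) (nat_lit 7) (nat_lit 145) (nat_lit 91) r8_145 r9_91 (nat_lit 0) (nat_lit 0) (nat_lit 0) (nat_lit 0x2000efab8c) (nat_lit 2147483648)]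
noncomputable def e27_50 : List Rx := [
  Rx.mk (nat_lit 104) (nat_lit 0) (nat_lit 5) (nat_lit 1) (nat_lit 6) (nat_lit 61) (nat_lit 171) r8_61 r3_171 (nat_lit 2008683) (nat_lit 0) (nat_lit 0) (nat_lit 0x1dad2c12da) (nat_lit 2797658481),
  Rx.mk (nat_lit 107) (nat_lit 3) (nat_lit 5) (nat_lit 1) (nat_lit 7) (nat_lit 62) (nat_lit 172) r8_62 r3_172 (nat_lit 0) (nat_lit 0) (nat_lit 0) (nat_lit 0x21791558fe) (nat_lit 1747567698)]
noncomputable def e27_51 : List Rx := [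
  Rx.mk (nat_lit 75) (nat_lit 3) (nat_lit 1) (nat_lit 1) (nat_lit 7) (nat_lit 70) (nat_lit 176) r8_70 r4_176 (nat_lit 0) (nat_lit 0) (nat_lit 0) (nat_lit 0x200af89148) (nat_lit 2136704548),
  Rx.mk (nat_lit 104) (nat_lit 0) (nat_lit 5) (nat_lit 1) (nat_lit 6) (nat_lit 68) (nat_lit 174) r8_68 r4_174 (nat_lit 26988162) (nat_lit 0) (nat_lit 0) (nat_lit 0x2010fdb6ea) (nat_lit 2157249060),
  Rx.mk (nat_lit 107) (nat_lit 3) (nat_lit 5) (nat_lit 1) (nat_lit 7) (nat_lit 69) (nat_lit 175) r8_69 r4_175 (nat_lit 0) (nat_lit 0) (nat_lit 0) (nat_lit 0x202885ec6a) (nat_lit 2105134598)]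
noncomputable def e27_52 : List Rx := [
  Rx.mk (nat_lit 104) (nat_lit 0) (nat_lit 5) (nat_lit 1) (nat_lit 6) (nat_lit 74) (nat_lit 189) r8_74 r5_189 (nat_lit 30412241) (nat_lit 0) (nat_lit 0) (nat_lit 0x200b7348de) (nat_lit 2166609639),
  Rx.mk (nat_lit 107) (nat_lit 3) (nat_lit 5) (nat_lit 1) (nat_lit 7) (nat_lit 75) (nat_lit 190) r8_75 r5_190 (nat_lit 0) (nat_lit 0) (nat_lit 0) (nat_lit 0x201b1570a0) (nat_lit 2119467948)]
noncomputable def e27_53 : List Rx := [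
  Rx.mk (nat_lit 104) (nat_lit 0) (nat_lit 5) (nat_lit 1) (nat_lit 6) (nat_lit 181) (nat_lit 304) r8_181 r4_304 (nat_lit 39267561) (nat_lit 0) (nat_lit 0) (nat_lit 0x2000efab8c) (nat_lit 2186751209),
  Rx.mk (nat_lit 105) (nat_lit 1) (nat_lit 5) (nat_lit 1) (nat_lit 7) (nat_lit 182) (nat_lit 305) r8_182 r4_305 (nat_lit 0) (nat_lit 0) (nat_lit 0) (nat_lit 0x2000efab8c) (nat_lit 2147483648),
  Rx.mk (nat_lit 107) (nat_lit 3) (nat_lit 5) (nat_lit 1) (nat_lit 7) (nat_lit 183) (nat_lit 306) r8_183 r4_306 (nat_lit 0) (nat_lit 0) (nat_lit 0) (nat_lit 0x2000efab8c) (nat_lit 2147483648)]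
noncomputable def e27_54 : List Rx := [
  Rx.mk (nat_lit 75) (nat_lit 3) (nat_lit 1) (nat_lit 1) (nat_lit 7) (nat_lit 197) (nat_lit 194) r8_197 r10_194 (nat_lit 0) (nat_lit 0) (nat_lit 0) (nat_lit 0x2000efab8c) (nat_lit 2147483648),
  Rx.mk (nat_lit 104) (nat_lit 0) (nat_lit 5) (nat_lit 1) (nat_lit 6) (nat_lit 194) (nat_lit 191) r8_194 r10_191 (nat_lit 39267561) (nat_lit 0) (nat_lit 0) (nat_lit 0x2000efab8c) (nat_lit 2186751209),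
  Rx.mk (nat_lit 105) (nat_lit 1) (nat_lit 5) (nat_lit 1) (nat_lit 7) (nat_lit 195) (nat_lit 192) r8_195 r10_192 (nat_lit 0) (nat_lit 0) (nat_lit 0) (nat_lit 0x2000efab8c) (nat_lit 2147483648),
  Rx.mk (nat_lit 107) (nat_lit 3) (nat_lit 5) (nat_lit 1) (nat_lit 7) (nat_lit 196) (nat_lit 193) r8_196 r10_193 (nat_lit 0) (nat_lit 0) (nat_lit 0) (nat_lit 0x2000efab8c) (nat_lit 2147483648)]
noncomputable def e27_55 : List Rx := [
  Rx.mk (nat_lit 104) (nat_lit 0) (nat_lit 5) (nat_lit 1) (nat_lit 6) (nat_lit 198) (nat_lit 219) r8_198 r11_219 (nat_lit 39267561) (nat_lit 0) (nat_lit 0) (nat_lit 0x2000efab8c) (nat_lit 2186751209),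
  Rx.mk (nat_lit 105) (nat_lit 1) (nat_lit 5) (nat_lit 1) (nat_lit 7) (nat_lit 199) (nat_lit 220) r8_199 r11_220 (nat_lit 0) (nat_lit 0) (nat_lit 0) (nat_lit 0x2000efab8c) (nat_lit 2147483648),
  Rx.mk (nat_lit 107) (nat_lit 3) (nat_lit 5) (nat_lit 1) (nat_lit 7) (nat_lit 200) (nat_lit 221) r8_200 r11_221 (nat_lit 0) (nat_lit 0) (nat_lit 0) (nat_lit 0x2000efab8c) (nat_lit 2147483648)]
noncomputable def e27_56 : List Rx := [
  Rx.mk (nat_lit 107) (nat_lit 3) (nat_lit 5) (nat_lit 1) (nat_lit 7) (nat_lit 218) (nat_lit 285) r8_218 r5_285 (nat_lit 0) (nat_lit 0) (nat_lit 0) (nat_lit 0x202d9e7fa0) (nat_lit 2099711048)]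
noncomputable def e27_57 : List Rx := [
  Rx.mk (nat_lit 75) (nat_lit 3) (nat_lit 1) (nat_lit 1) (nat_lit 7) (nat_lit 220) (nat_lit 343) r8_220 r11_343 (nat_lit 0) (nat_lit 0) (nat_lit 0) (nat_lit 0x2000efab8c) (nat_lit 2147483648),
  Rx.mk (nat_lit 107) (nat_lit 3) (nat_lit 5) (nat_lit 1) (nat_lit 7) (nat_lit 219) (nat_lit 344) r8_219 r11_344 (nat_lit 0) (nat_lit 0) (nat_lit 0) (nat_lit 0x202915178c) (nat_lit 2104546948)]
noncomputable def e27 : List (List Rx) := [e27_0, e27_1, e27_2, e27_3, e27_4, e27_5, e27_6, e27_7, e27_8, e27_9, e27_10, e27_11, e27_12, e27_13, e27_14, e27_15, e27_16, e27_17, e27_18, e27_19, e27_20, e27_21, e27_22, e27_23, e27_24, e27_25, e27_26, e27_27, e27_28, e27_29, e27_30, e27_31, e27_32, e27_33, e27_34, e27_35, e27_36, e27_37, e27_38, e27_39, e27_40, e27_41, e27_42, e27_43, e27_44, e27_45, e27_46, e27_47, e27_48, e27_49, e27_50,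 e27_51, e27_52, e27_53, e27_54, e27_55, e27_56, e27_57]
noncomputable def e28_0 : List Rx := [
  Rx.mk (nat_lit 100) (nat_lit 4) (nat_lit 4) (nat_lit 1) (nat_lit 4) (nat_lit 44) (nat_lit 195) r10_44 r0_195 (nat_lit 2403529) (nat_lit 730716) (nat_lit 0) (nat_lit 0x177a59ac38) (nat_lit 4527539093),
  Rx.mk (nat_lit 108) (nat_lit 4) (nat_lit 5) (nat_lit 1) (nat_lit 6) (nat_lit 45) (nat_lit 196) r10_45 r0_196 (nat_lit 11731241) (nat_lit 0) (nat_lit 0) (nat_lit 0x1bb23ede62) (nat_lit 3359930739),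
  Rx.mk (nat_lit 116) (nat_lit 4) (nat_lit 6) (nat_lit 1) (nat_lit 6) (nat_lit 46) (nat_lit 197) r10_46 r0_197 (nat_lit 1273131673) (nat_lit 0) (nat_lit 0) (nat_lit 0x202b13f47c) (nat_lit 3375334421),
  Rx.mk (nat_lit 372) (nat_lit 4) (nat_lit 6) (nat_lit 5) (nat_lit 6) (nat_lit 47) (nat_lit 198) r10_47 r0_198 (nat_lit 1104418901) (nat_lit 0) (nat_lit 0) (nat_lit 0x22cccfca64) (nat_lit 2490955749),
  Rx.mk (nat_lit 375) (nat_lit 7) (nat_lit 6) (nat_lit 5) (nat_lit 7) (nat_lit 48) (nat_lit 199) r10_48 r0_199 (nat_lit 0) (nat_lit 0) (nat_lit 0) (nat_lit 0x2025e3696a) (nat_lit 2107940098)]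
noncomputable def e28_1 : List Rx := [
  Rx.mk (nat_lit 372) (nat_lit 4) (nat_lit 6) (nat_lit 5) (nat_lit 6) (nat_lit 49) (nat_lit 217) r10_49 r1_217 (nat_lit 536446809) (nat_lit 0) (nat_lit 0) (nat_lit 0x22133fcd38) (nat_lit 2120293857),
  Rx.mk (nat_lit 374) (nat_lit 6) (nat_lit 6) (nat_lit 5) (nat_lit 7) (nat_lit 50) (nat_lit 219) r10_50 r1_219 (nat_lit 0) (nat_lit 0) (nat_lit 0) (nat_lit 0x200d111d9c) (nat_lit 2134433948),
  Rx.mk (nat_lit 375) (nat_lit 7) (nat_lit 6) (nat_lit 5) (nat_lit 7) (nat_lit 51) (nat_lit 218) r10_51 r1_218 (nat_lit 0) (nat_lit 0) (nat_lit 0) (nat_lit 0x200c338784) (nat_lit 2135391848)]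
noncomputable def e28_2 : List Rx := [
  Rx.mk (nat_lit 308) (nat_lit 4) (nat_lit 6) (nat_lit 4) (nat_lit 2) (nat_lit 10) (nat_lit 230) r10_10 r2_230 (nat_lit 17534844) (nat_lit 0) (nat_lit 12629514) (nat_lit 0x1cb4ee9bf6) (nat_lit 3096561456),
  Rx.mk (nat_lit 310) (nat_lit 6) (nat_lit 6) (nat_lit 4) (nat_lit 3) (nat_lit 12) (nat_lit 235) r10_12 r2_235 (nat_lit 0) (nat_lit 0) (nat_lit 39267561) (nat_lit 0x2000efab8c) (nat_lit 2186751209),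
  Rx.mk (nat_lit 311) (nat_lit 7) (nat_lit 6) (nat_lit 4) (nat_lit 3) (nat_lit 14) (nat_lit 232) r10_14 r2_232 (nat_lit 0) (nat_lit 0) (nat_lit 14179347) (nat_lit 0x204bfb978a) (nat_lit 2081570445),
  Rx.mk (nat_lit 372) (nat_lit 4) (nat_lit 6) (nat_lit 5) (nat_lit 6) (nat_lit 11) (nat_lit 231) r10_11 r2_231 (nat_lit 39267561) (nat_lit 0) (nat_lit 0) (nat_lit 0x2000efab8c) (nat_lit 2186751209),
  Rx.mk (nat_lit 374) (nat_lit 6) (nat_lit 6) (nat_lit 5) (nat_lit 7) (nat_lit 13) (nat_lit 236) r10_13 r2_236 (nat_lit 0) (nat_lit 0) (nat_lit 0) (nat_lit 0x2000efab8c) (nat_lit 2147483648),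
  Rx.mk (nat_lit 375) (nat_lit 7) (nat_lit 6) (nat_lit 5) (nat_lit 7) (nat_lit 15) (nat_lit 233) r10_15 r2_233 (nat_lit 0) (nat_lit 0) (nat_lit 0) (nat_lit 0x2000efab8c) (nat_lit 2147483648),
  Rx.mk (nat_lit 503) (nat_lit 7) (nat_lit 6) (nat_lit 7) (nat_lit 7) (nat_lit 16) (nat_lit 234) r10_16 r2_234 (nat_lit 0) (nat_lit 0) (nat_lit 0) (nat_lit 0x2000efab8c) (nat_lit 2147483648)]
noncomputable def e28_3 : List Rx := [
  Rx.mk (nat_lit 100) (nat_lit 4) (nat_lit 4) (nat_lit 1) (nat_lit 4) (nat_lit 38) (nat_lit 180) r10_38 r3_180 (nat_lit 79251) (nat_lit 96800) (nat_lit 0) (nat_lit 0x1abfa3f372) (nat_lit 3612266449),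
  Rx.mk (nat_lit 103) (nat_lit 7) (nat_lit 4) (nat_lit 1) (nat_lit 5) (nat_lit 39) (nat_lit 183) r10_39 r3_183 (nat_lit 0) (nat_lit 455029) (nat_lit 0) (nat_lit 0x21463c84de) (nat_lit 1801630727),
  Rx.mk (nat_lit 108) (nat_lit 4) (nat_lit 5) (nat_lit 1) (nat_lit 6) (nat_lit 40) (nat_lit 181) r10_40 r3_181 (nat_lit 82274493) (nat_lit 0) (nat_lit 0) (nat_lit 0x1ebcaa45c8) (nat_lit 2582550141),
  Rx.mk (nat_lit 111) (nat_lit 7) (nat_lit 5) (nat_lit 1) (nat_lit 7) (nat_lit 41) (nat_lit 184) r10_41 r3_184 (nat_lit 0) (nat_lit 0) (nat_lit 0) (nat_lit 0x22e01b6f88) (nat_lit 1366356048),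
  Rx.mk (nat_lit 116) (nat_lit 4) (nat_lit 6) (nat_lit 1) (nat_lit 6) (nat_lit 42) (nat_lit 182) r10_42 r3_182 (nat_lit 309040456) (nat_lit 0) (nat_lit 0) (nat_lit 0x1fb366aaa0) (nat_lit 2540566204),
  Rx.mk (nat_lit 119) (nat_lit 7) (nat_lit 6) (nat_lit 1) (nat_lit 7) (nat_lit 43) (nat_lit 185) r10_43 r3_185 (nat_lit 0) (nat_lit 0) (nat_lit 0) (nat_lit 0x22e01b729e) (nat_lit 1366355998)]
noncomputable def e28_4 : List Rx := [
  Rx.mk (nat_lit 100) (nat_lit 4) (nat_lit 4) (nat_lit 1) (nat_lit 4) (nat_lit 52) (nat_lit 181) r10_52 r4_181 (nat_lit 26843108) (nat_lit 5054852) (nat_lit 0) (nat_lit 0x18f28ef14e) (nat_lit 4146671158),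
  Rx.mk (nat_lit 103) (nat_lit 7) (nat_lit 4) (nat_lit 1) (nat_lit 5) (nat_lit 53) (nat_lit 184) r10_53 r4_184 (nat_lit 0) (nat_lit 9595899) (nat_lit 0) (nat_lit 0x1f96b45fe2) (nat_lit 2272287897),
  Rx.mk (nat_lit 108) (nat_lit 4) (nat_lit 5) (nat_lit 1) (nat_lit 6) (nat_lit 54) (nat_lit 182) r10_54 r4_182 (nat_lit 30411061) (nat_lit 0) (nat_lit 0) (nat_lit 0x2018283756) (nat_lit 2152991859),
  Rx.mk (nat_lit 111) (nat_lit 7) (nat_lit 5) (nat_lit 1) (nat_lit 7) (nat_lit 55) (nat_lit 185) r10_55 r4_185 (nat_lit 0) (nat_lit 0) (nat_lit 0) (nat_lit 0x2050e8c056) (nat_lit 2062160898),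
  Rx.mk (nat_lit 116) (nat_lit 4) (nat_lit 6) (nat_lit 1) (nat_lit 6) (nat_lit 56) (nat_lit 183) r10_56 r4_183 (nat_lit 57357888) (nat_lit 0) (nat_lit 0) (nat_lit 0x1fde8aa7a4) (nat_lit 2241982036),
  Rx.mk (nat_lit 119) (nat_lit 7) (nat_lit 6) (nat_lit 1) (nat_lit 7) (nat_lit 57) (nat_lit 186) r10_57 r4_186 (nat_lit 0) (nat_lit 0) (nat_lit 0) (nat_lit 0x2034786cb4) (nat_lit 2092394748),
  Rx.mk (nat_lit 375) (nat_lit 7) (nat_lit 6) (nat_lit 5) (nat_lit 7) (nat_lit 58) (nat_lit 187) r10_58 r4_187 (nat_lit 0) (nat_lit 0) (nat_lit 0) (nat_lit 0x201efa33cc) (nat_lit 2115312248)]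
noncomputable def e28_5 : List Rx := [
  Rx.mk (nat_lit 100) (nat_lit 4) (nat_lit 4) (nat_lit 1) (nat_lit 4) (nat_lit 72) (nat_lit 197) r10_72 r5_197 (nat_lit 136738429) (nat_lit 10259918) (nat_lit 0) (nat_lit 0x1d71611b1a) (nat_lit 3008143345),
  Rx.mk (nat_lit 103) (nat_lit 7) (nat_lit 4) (nat_lit 1) (nat_lit 5) (nat_lit 73) (nat_lit 199) r10_73 r5_199 (nat_lit 0) (nat_lit 10039542) (nat_lit 0) (nat_lit 0x20f383a2ae) (nat_lit 1899447140),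
  Rx.mk (nat_lit 116) (nat_lit 4) (nat_lit 6) (nat_lit 1) (nat_lit 6) (nat_lit 74) (nat_lit 198) r10_74 r5_198 (nat_lit 39267561) (nat_lit 0) (nat_lit 0) (nat_lit 0x1ffa141726) (nat_lit 2194133459),
  Rx.mk (nat_lit 119) (nat_lit 7) (nat_lit 6) (nat_lit 1) (nat_lit 7) (nat_lit 75) (nat_lit 201) r10_75 r5_201 (nat_lit 0) (nat_lit 0) (nat_lit 0) (nat_lit 0x20355ed604) (nat_lit 2091448048),
  Rx.mk (nat_lit 127) (nat_lit 7) (nat_lit 7) (nat_lit 1) (nat_lit 7) (nat_lit 76) (nat_lit 200) r10_76 r5_200 (nat_lit 0) (nat_lit 0) (nat_lit 0) (nat_lit 0x2000efab8c) (nat_lit 2147483648)]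
noncomputable def e28_6 : List Rx := [
  Rx.mk (nat_lit 59) (nat_lit 3) (nat_lit 7) (nat_lit 0) (nat_lit 3) (nat_lit 19) (nat_lit 135) r10_19 r3_135 (nat_lit 0) (nat_lit 0) (nat_lit 253501) (nat_lit 0x2134651794) (nat_lit 1820350049),
  Rx.mk (nat_lit 187) (nat_lit 3) (nat_lit 7) (nat_lit 2) (nat_lit 7) (nat_lit 20) (nat_lit 137) r10_20 r3_137 (nat_lit 0) (nat_lit 0) (nat_lit 0) (nat_lit 0x23d6f4b15c) (nat_lit 1104235048),
  Rx.mk (nat_lit 231) (nat_lit 7) (nat_lit 4) (nat_lit 3) (nat_lit 5) (nat_lit 17) (nat_lit 133) r10_17 r3_133 (nat_lit 0) (nat_lit 253501) (nat_lit 0) (nat_lit 0x2134651794) (nat_lit 1820350049),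
  Rx.mk (nat_lit 247) (nat_lit 7) (nat_lit 6) (nat_lit 3) (nat_lit 7) (nat_lit 18) (nat_lit 138) r10_18 r3_138 (nat_lit 0) (nat_lit 0) (nat_lit 0) (nat_lit 0x23d6f4b15c) (nat_lit 1104235048),
  Rx.mk (nat_lit 251) (nat_lit 3) (nat_lit 7) (nat_lit 3) (nat_lit 7) (nat_lit 21) (nat_lit 136) r10_21 r3_136 (nat_lit 0) (nat_lit 0) (nat_lit 0) (nat_lit 0x1fa86674c8) (nat_lit 2243519148),
  Rx.mk (nat_lit 255) (nat_lit 7) (nat_lit 7) (nat_lit 3) (nat_lit 7) (nat_lit 22) (nat_lit 134) r10_22 r3_134 (nat_lit 0) (nat_lit 0) (nat_lit 0) (nat_lit 0x1fa86674c8) (nat_lit 2243519148)]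
noncomputable def e28_7 : List Rx := [
  Rx.mk (nat_lit 308) (nat_lit 4) (nat_lit 6) (nat_lit 4) (nat_lit 2) (nat_lit 0) (nat_lit 147) r10_0 r0_147 (nat_lit 1138904) (nat_lit 0) (nat_lit 262045) (nat_lit 0x1a96d85a00) (nat_lit 3657986597),
  Rx.mk (nat_lit 310) (nat_lit 6) (nat_lit 6) (nat_lit 4) (nat_lit 3) (nat_lit 2) (nat_lit 150) r10_2 r0_150 (nat_lit 0) (nat_lit 0) (nat_lit 45719485) (nat_lit 0x1daaf8a9d8) (nat_lit 2844142233),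
  Rx.mk (nat_lit 500) (nat_lit 4) (nat_lit 6) (nat_lit 7) (nat_lit 6) (nat_lit 1) (nat_lit 148) r10_1 r0_148 (nat_lit 338475005) (nat_lit 0) (nat_lit 0) (nat_lit 0x1fe001c108) (nat_lit 2521532953),
  Rx.mk (nat_lit 502) (nat_lit 6) (nat_lit 6) (nat_lit 7) (nat_lit 7) (nat_lit 3) (nat_lit 151) r10_3 r0_151 (nat_lit 0) (nat_lit 0) (nat_lit 0) (nat_lit 0x1ff4aead0a) (nat_lit 2160688798),
  Rx.mk (nat_lit 503) (nat_lit 7) (nat_lit 6) (nat_lit 7) (nat_lit 7) (nat_lit 4) (nat_lit 149) r10_4 r0_149 (nat_lit 0) (nat_lit 0) (nat_lit 0) (nat_lit 0x1fdff99294) (nat_lit 2183098448)]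
noncomputable def e28_8 : List Rx := [
  Rx.mk (nat_lit 308) (nat_lit 4) (nat_lit 6) (nat_lit 4) (nat_lit 2) (nat_lit 5) (nat_lit 161) r10_5 r1_161 (nat_lit 1148669) (nat_lit 0) (nat_lit 585632) (nat_lit 0x1b7e74f206) (nat_lit 3406092099),
  Rx.mk (nat_lit 310) (nat_lit 6) (nat_lit 6) (nat_lit 4) (nat_lit 3) (nat_lit 7) (nat_lit 164) r10_7 r1_164 (nat_lit 0) (nat_lit 0) (nat_lit 33668941) (nat_lit 0x1ecd28f296) (nat_lit 2515961539),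
  Rx.mk (nat_lit 500) (nat_lit 4) (nat_lit 6) (nat_lit 7) (nat_lit 6) (nat_lit 6) (nat_lit 162) r10_6 r1_162 (nat_lit 42463438) (nat_lit 0) (nat_lit 0) (nat_lit 0x1ff3d565b8) (nat_lit 2204053486),
  Rx.mk (nat_lit 502) (nat_lit 6) (nat_lit 6) (nat_lit 7) (nat_lit 7) (nat_lit 8) (nat_lit 165) r10_8 r1_165 (nat_lit 0) (nat_lit 0) (nat_lit 0) (nat_lit 0x1ffa160824) (nat_lit 2154858048),
  Rx.mk (nat_lit 503) (nat_lit 7) (nat_lit 6) (nat_lit 7) (nat_lit 7) (nat_lit 9) (nat_lit 163) r10_9 r1_163 (nat_lit 0) (nat_lit 0) (nat_lit 0) (nat_lit 0x200e7af22a) (nat_lit 2132948298)]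
noncomputable def e28_9 : List Rx := [
  Rx.mk (nat_lit 59) (nat_lit 3) (nat_lit 7) (nat_lit 0) (nat_lit 3) (nat_lit 28) (nat_lit 136) r10_28 r4_136 (nat_lit 0) (nat_lit 0) (nat_lit 19969029) (nat_lit 0x2017377f46) (nat_lit 2143566027),
  Rx.mk (nat_lit 187) (nat_lit 3) (nat_lit 7) (nat_lit 2) (nat_lit 7) (nat_lit 29) (nat_lit 138) r10_29 r4_138 (nat_lit 0) (nat_lit 0) (nat_lit 0) (nat_lit 0x200a2486aa) (nat_lit 2137595998),
  Rx.mk (nat_lit 231) (nat_lit 7) (nat_lit 4) (nat_lit 3) (nat_lit 5) (nat_lit 23) (nat_lit 134) r10_23 r4_134 (nat_lit 0) (nat_lit 25140669) (nat_lit 0) (nat_lit 0x1ffbb08d58) (nat_lit 2178265217),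
  Rx.mk (nat_lit 247) (nat_lit 7) (nat_lit 6) (nat_lit 3) (nat_lit 7) (nat_lit 26) (nat_lit 141) r10_26 r4_141 (nat_lit 0) (nat_lit 0) (nat_lit 0) (nat_lit 0x200f059600) (nat_lit 2132372648),
  Rx.mk (nat_lit 251) (nat_lit 3) (nat_lit 7) (nat_lit 3) (nat_lit 7) (nat_lit 30) (nat_lit 137) r10_30 r4_137 (nat_lit 0) (nat_lit 0) (nat_lit 0) (nat_lit 0x2000efab8c) (nat_lit 2147483648),
  Rx.mk (nat_lit 255) (nat_lit 7) (nat_lit 7) (nat_lit 3) (nat_lit 7) (nat_lit 31) (nat_lit 135) r10_31 r4_135 (nat_lit 0) (nat_lit 0) (nat_lit 0) (nat_lit 0x2000efab8c) (nat_lit 2147483648),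
  Rx.mk (nat_lit 500) (nat_lit 4) (nat_lit 6) (nat_lit 7) (nat_lit 6) (nat_lit 24) (nat_lit 139) r10_24 r4_139 (nat_lit 33545149) (nat_lit 0) (nat_lit 0) (nat_lit 0x2009da6e80) (nat_lit 2171450097),
  Rx.mk (nat_lit 502) (nat_lit 6) (nat_lit 6) (nat_lit 7) (nat_lit 7) (nat_lit 25) (nat_lit 142) r10_25 r4_142 (nat_lit 0) (nat_lit 0) (nat_lit 0) (nat_lit 0x2000efab8c) (nat_lit 2147483648),
  Rx.mk (nat_lit 503) (nat_lit 7) (nat_lit 6) (nat_lit 7) (nat_lit 7) (nat_lit 27) (nat_lit 140) r10_27 r4_140 (nat_lit 0) (nat_lit 0) (nat_lit 0) (nat_lit 0x203553c1b0) (nat_lit 2091479948)]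
noncomputable def e28_10 : List Rx := [
  Rx.mk (nat_lit 39) (nat_lit 7) (nat_lit 4) (nat_lit 0) (nat_lit 1) (nat_lit 59) (nat_lit 213) r10_59 r6_213 (nat_lit 0) (nat_lit 2969871) (nat_lit 2864482) (nat_lit 0x1d7898d22e) (nat_lit 2858942551),
  Rx.mk (nat_lit 47) (nat_lit 7) (nat_lit 5) (nat_lit 0) (nat_lit 3) (nat_lit 62) (nat_lit 216) r10_62 r6_216 (nat_lit 0) (nat_lit 0) (nat_lit 14742202) (nat_lit 0x202b2a1eb4) (nat_lit 2117041250),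
  Rx.mk (nat_lit 55) (nat_lit 7) (nat_lit 6) (nat_lit 0) (nat_lit 3) (nat_lit 64) (nat_lit 220) r10_64 r6_220 (nat_lit 0) (nat_lit 0) (nat_lit 14742202) (nat_lit 0x202b2a1eb4) (nat_lit 2117041250),
  Rx.mk (nat_lit 59) (nat_lit 3) (nat_lit 7) (nat_lit 0) (nat_lit 3) (nat_lit 67) (nat_lit 210) r10_67 r6_210 (nat_lit 0) (nat_lit 0) (nat_lit 9855849) (nat_lit 0x1fb225dfee) (nat_lit 2242694747),
  Rx.mk (nat_lit 63) (nat_lit 7) (nat_lit 7) (nat_lit 0) (nat_lit 3) (nat_lit 70) (nat_lit 218) r10_70 r6_218 (nat_lit 0) (nat_lit 0) (nat_lit 28560695) (nat_lit 0x1fbd95b7a0) (nat_lit 2249011043),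
  Rx.mk (nat_lit 103) (nat_lit 7) (nat_lit 4) (nat_lit 1) (nat_lit 5) (nat_lit 60) (nat_lit 214) r10_60 r6_214 (nat_lit 0) (nat_lit 16073499) (nat_lit 0) (nat_lit 0x20493f0978) (nat_lit 2086378047),
  Rx.mk (nat_lit 119) (nat_lit 7) (nat_lit 6) (nat_lit 1) (nat_lit 7) (nat_lit 65) (nat_lit 221) r10_65 r6_221 (nat_lit 0) (nat_lit 0) (nat_lit 0) (nat_lit 0x2018194de0) (nat_lit 2122665648),
  Rx.mk (nat_lit 123) (nat_lit 3) (nat_lit 7) (nat_lit 1) (nat_lit 7) (nat_lit 68) (nat_lit 211) r10_68 r6_211 (nat_lit 0) (nat_lit 0) (nat_lit 0) (nat_lit 0x202b033e98) (nat_lit 2102485748),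
  Rx.mk (nat_lit 127) (nat_lit 7) (nat_lit 7) (nat_lit 1) (nat_lit 7) (nat_lit 71) (nat_lit 219) r10_71 r6_219 (nat_lit 0) (nat_lit 0) (nat_lit 0) (nat_lit 0x2000efab8c) (nat_lit 2147483648),
  Rx.mk (nat_lit 187) (nat_lit 3) (nat_lit 7) (nat_lit 2) (nat_lit 7) (nat_lit 69) (nat_lit 212) r10_69 r6_212 (nat_lit 0) (nat_lit 0) (nat_lit 0) (nat_lit 0x202b033e98) (nat_lit 2102485748),
  Rx.mk (nat_lit 231) (nat_lit 7) (nat_lit 4) (nat_lit 3) (nat_lit 5) (nat_lit 61) (nat_lit 215) r10_61 r6_215 (nat_lit 0) (nat_lit 9838664) (nat_lit 0) (nat_lit 0x203715a8f6) (nat_lit 2099425662),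
  Rx.mk (nat_lit 239) (nat_lit 7) (nat_lit 5) (nat_lit 3) (nat_lit 7) (nat_lit 63) (nat_lit 217) r10_63 r6_217 (nat_lit 0) (nat_lit 0) (nat_lit 0) (nat_lit 0x20ade2c482) (nat_lit 1963376398),
  Rx.mk (nat_lit 247) (nat_lit 7) (nat_lit 6) (nat_lit 3) (nat_lit 7) (nat_lit 66) (nat_lit 222) r10_66 r6_222 (nat_lit 0) (nat_lit 0) (nat_lit 0) (nat_lit 0x20ade2c482) (nat_lit 1963376398)]
noncomputable def e28_11 : List Rx := [
  Rx.mk (nat_lit 59) (nat_lit 3) (nat_lit 7) (nat_lit 0) (nat_lit 3) (nat_lit 34) (nat_lit 137) r10_34 r5_137 (nat_lit 0) (nat_lit 0) (nat_lit 9477336) (nat_lit 0x2029c5e94a) (nat_lit 2113267034),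
  Rx.mk (nat_lit 63) (nat_lit 7) (nat_lit 7) (nat_lit 0) (nat_lit 3) (nat_lit 36) (nat_lit 135) r10_36 r5_135 (nat_lit 0) (nat_lit 0) (nat_lit 15874565) (nat_lit 0x1e294cddd6) (nat_lit 2676665363),
  Rx.mk (nat_lit 187) (nat_lit 3) (nat_lit 7) (nat_lit 2) (nat_lit 7) (nat_lit 35) (nat_lit 138) r10_35 r5_138 (nat_lit 0) (nat_lit 0) (nat_lit 0) (nat_lit 0x205a0b004a) (nat_lit 2052446398),
  Rx.mk (nat_lit 231) (nat_lit 7) (nat_lit 4) (nat_lit 3) (nat_lit 5) (nat_lit 32) (nat_lit 134) r10_32 r5_134 (nat_lit 0) (nat_lit 12603283) (nat_lit 0) (nat_lit 0x2040eba434) (nat_lit 2091744731),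
  Rx.mk (nat_lit 247) (nat_lit 7) (nat_lit 6) (nat_lit 3) (nat_lit 7) (nat_lit 33) (nat_lit 139) r10_33 r5_139 (nat_lit 0) (nat_lit 0) (nat_lit 0) (nat_lit 0x20269a0a8a) (nat_lit 2107180898),
  Rx.mk (nat_lit 255) (nat_lit 7) (nat_lit 7) (nat_lit 3) (nat_lit 7) (nat_lit 37) (nat_lit 136) r10_37 r5_136 (nat_lit 0) (nat_lit 0) (nat_lit 0) (nat_lit 0x1ff31ae850) (nat_lit 2162394648)]
noncomputable def e28_12 : List Rx := [
  Rx.mk (nat_lit 100) (nat_lit 4) (nat_lit 4) (nat_lit 1) (nat_lit 4) (nat_lit 166) (nat_lit 322) r10_166 r0_322 (nat_lit 16668154) (nat_lit 24139993) (nat_lit 0) (nat_lit 0x1b131f8a52) (nat_lit 3562337045),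
  Rx.mk (nat_lit 101) (nat_lit 5) (nat_lit 4) (nat_lit 1) (nat_lit 5) (nat_lit 167) (nat_lit 323) r10_167 r0_323 (nat_lit 0) (nat_lit 39016835) (nat_lit 0) (nat_lit 0x1f8fadf186) (nat_lit 2309434733),
  Rx.mk (nat_lit 108) (nat_lit 4) (nat_lit 5) (nat_lit 1) (nat_lit 6) (nat_lit 168) (nat_lit 324) r10_168 r0_324 (nat_lit 51564713) (nat_lit 0) (nat_lit 0) (nat_lit 0x1f10506252) (nat_lit 2460712311),
  Rx.mk (nat_lit 109) (nat_lit 5) (nat_lit 5) (nat_lit 1) (nat_lit 7) (nat_lit 169) (nat_lit 325) r10_169 r0_325 (nat_lit 0) (nat_lit 0) (nat_lit 0) (nat_lit 0x200c3bcfac) (nat_lit 2135358348),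
  Rx.mk (nat_lit 116) (nat_lit 4) (nat_lit 6) (nat_lit 1) (nat_lit 6) (nat_lit 170) (nat_lit 326) r10_170 r0_326 (nat_lit 60597054) (nat_lit 0) (nat_lit 0) (nat_lit 0x1fb52cdd1e) (nat_lit 2290221952),
  Rx.mk (nat_lit 117) (nat_lit 5) (nat_lit 6) (nat_lit 1) (nat_lit 7) (nat_lit 171) (nat_lit 327) r10_171 r0_327 (nat_lit 0) (nat_lit 0) (nat_lit 0) (nat_lit 0x2000efab8c) (nat_lit 2147483648)]
noncomputable def e28_13 : List Rx := [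
  Rx.mk (nat_lit 100) (nat_lit 4) (nat_lit 4) (nat_lit 1) (nat_lit 4) (nat_lit 183) (nat_lit 255) r10_183 r7_255 (nat_lit 12079934) (nat_lit 4952524) (nat_lit 0) (nat_lit 0x1c6682ce4c) (nat_lit 3168808706),
  Rx.mk (nat_lit 101) (nat_lit 5) (nat_lit 4) (nat_lit 1) (nat_lit 5) (nat_lit 184) (nat_lit 259) r10_184 r7_259 (nat_lit 0) (nat_lit 13452800) (nat_lit 0) (nat_lit 0x1f8278d88c) (nat_lit 2298221048),
  Rx.mk (nat_lit 108) (nat_lit 4) (nat_lit 5) (nat_lit 1) (nat_lit 6) (nat_lit 185) (nat_lit 256) r10_185 r7_256 (nat_lit 13707378) (nat_lit 0) (nat_lit 0) (nat_lit 0x200280ed94) (nat_lit 2159443526),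
  Rx.mk (nat_lit 109) (nat_lit 5) (nat_lit 5) (nat_lit 1) (nat_lit 7) (nat_lit 186) (nat_lit 260) r10_186 r7_260 (nat_lit 0) (nat_lit 0) (nat_lit 0) (nat_lit 0x201a60a472) (nat_lit 2120226698),
  Rx.mk (nat_lit 116) (nat_lit 4) (nat_lit 6) (nat_lit 1) (nat_lit 6) (nat_lit 187) (nat_lit 257) r10_187 r7_257 (nat_lit 30193305) (nat_lit 0) (nat_lit 0) (nat_lit 0x1ff5267ed4) (nat_lit 2190327253),
  Rx.mk (nat_lit 117) (nat_lit 5) (nat_lit 6) (nat_lit 1) (nat_lit 7) (nat_lit 189) (nat_lit 261) r10_189 r7_261 (nat_lit 0) (nat_lit 0) (nat_lit 0) (nat_lit 0x201a60a472) (nat_lit 2120226698),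
  Rx.mk (nat_lit 372) (nat_lit 4) (nat_lit 6) (nat_lit 5) (nat_lit 6) (nat_lit 188) (nat_lit 258) r10_188 r7_258 (nat_lit 53854856) (nat_lit 0) (nat_lit 0) (nat_lit 0x1ff6037a00) (nat_lit 2213104004),
  Rx.mk (nat_lit 373) (nat_lit 5) (nat_lit 6) (nat_lit 5) (nat_lit 7) (nat_lit 190) (nat_lit 262) r10_190 r7_262 (nat_lit 0) (nat_lit 0) (nat_lit 0) (nat_lit 0x2000efab8c) (nat_lit 2147483648)]
noncomputable def e28_14 : List Rx := [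
  Rx.mk (nat_lit 101) (nat_lit 5) (nat_lit 4) (nat_lit 1) (nat_lit 5) (nat_lit 172) (nat_lit 307) r10_172 r1_307 (nat_lit 0) (nat_lit 48257598) (nat_lit 0) (nat_lit 0x1ea8ca7514) (nat_lit 2570159146),
  Rx.mk (nat_lit 109) (nat_lit 5) (nat_lit 5) (nat_lit 1) (nat_lit 7) (nat_lit 173) (nat_lit 308) r10_173 r1_308 (nat_lit 0) (nat_lit 0) (nat_lit 0) (nat_lit 0x2000efab8c) (nat_lit 2147483648),
  Rx.mk (nat_lit 117) (nat_lit 5) (nat_lit 6) (nat_lit 1) (nat_lit 7) (nat_lit 174) (nat_lit 309) r10_174 r1_309 (nat_lit 0) (nat_lit 0) (nat_lit 0) (nat_lit 0x2000efab8c) (nat_lit 2147483648)]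
noncomputable def e28_15 : List Rx := [
  Rx.mk (nat_lit 101) (nat_lit 5) (nat_lit 4) (nat_lit 1) (nat_lit 5) (nat_lit 191) (nat_lit 194) r10_191 r8_194 (nat_lit 0) (nat_lit 39267561) (nat_lit 0) (nat_lit 0x2000efab8c) (nat_lit 2186751209),
  Rx.mk (nat_lit 109) (nat_lit 5) (nat_lit 5) (nat_lit 1) (nat_lit 7) (nat_lit 192) (nat_lit 195) r10_192 r8_195 (nat_lit 0) (nat_lit 0) (nat_lit 0) (nat_lit 0x2000efab8c) (nat_lit 2147483648),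
  Rx.mk (nat_lit 117) (nat_lit 5) (nat_lit 6) (nat_lit 1) (nat_lit 7) (nat_lit 193) (nat_lit 196) r10_193 r8_196 (nat_lit 0) (nat_lit 0) (nat_lit 0) (nat_lit 0x2000efab8c) (nat_lit 2147483648),
  Rx.mk (nat_lit 373) (nat_lit 5) (nat_lit 6) (nat_lit 5) (nat_lit 7) (nat_lit 194) (nat_lit 197) r10_194 r8_197 (nat_lit 0) (nat_lit 0) (nat_lit 0) (nat_lit 0x2000efab8c) (nat_lit 2147483648)]
noncomputable def e28_16 : List Rx := [
  Rx.mk (nat_lit 372) (nat_lit 4) (nat_lit 6) (nat_lit 5) (nat_lit 6) (nat_lit 195) (nat_lit 355) r10_195 r8_355 (nat_lit 39267561) (nat_lit 0) (nat_lit 0) (nat_lit 0x2000efab8c) (nat_lit 2186751209),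
  Rx.mk (nat_lit 373) (nat_lit 5) (nat_lit 6) (nat_lit 5) (nat_lit 7) (nat_lit 196) (nat_lit 356) r10_196 r8_356 (nat_lit 0) (nat_lit 0) (nat_lit 0) (nat_lit 0x2000efab8c) (nat_lit 2147483648),
  Rx.mk (nat_lit 374) (nat_lit 6) (nat_lit 6) (nat_lit 5) (nat_lit 7) (nat_lit 197) (nat_lit 357) r10_197 r8_357 (nat_lit 0) (nat_lit 0) (nat_lit 0) (nat_lit 0x2000efab8c) (nat_lit 2147483648)]
noncomputable def e28_17 : List Rx := [
  Rx.mk (nat_lit 308) (nat_lit 4) (nat_lit 6) (nat_lit 4) (nat_lit 2) (nat_lit 161) (nat_lit 209) r10_161 r9_209 (nat_lit 124799571) (nat_lit 0) (nat_lit 66040820) (nat_lit 0x1cea04ca4a) (nat_lit 3199469589),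
  Rx.mk (nat_lit 310) (nat_lit 6) (nat_lit 6) (nat_lit 4) (nat_lit 3) (nat_lit 164) (nat_lit 212) r10_164 r9_212 (nat_lit 0) (nat_lit 0) (nat_lit 39267561) (nat_lit 0x2000efab8c) (nat_lit 2186751209),
  Rx.mk (nat_lit 372) (nat_lit 4) (nat_lit 6) (nat_lit 5) (nat_lit 6) (nat_lit 162) (nat_lit 210) r10_162 r9_210 (nat_lit 39267561) (nat_lit 0) (nat_lit 0) (nat_lit 0x2000efab8c) (nat_lit 2186751209),
  Rx.mk (nat_lit 373) (nat_lit 5) (nat_lit 6) (nat_lit 5) (nat_lit 7) (nat_lit 163) (nat_lit 211) r10_163 r9_211 (nat_lit 0) (nat_lit 0) (nat_lit 0) (nat_lit 0x2000efab8c) (nat_lit 2147483648),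
  Rx.mk (nat_lit 374) (nat_lit 6) (nat_lit 6) (nat_lit 5) (nat_lit 7) (nat_lit 165) (nat_lit 213) r10_165 r9_213 (nat_lit 0) (nat_lit 0) (nat_lit 0) (nat_lit 0x2000efab8c) (nat_lit 2147483648)]
noncomputable def e28_18 : List Rx := [
  Rx.mk (nat_lit 100) (nat_lit 4) (nat_lit 4) (nat_lit 1) (nat_lit 4) (nat_lit 175) (nat_lit 355) r10_175 r4_355 (nat_lit 60699131) (nat_lit 50926157) (nat_lit 0) (nat_lit 0x1d23403a24) (nat_lit 3057896636),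
  Rx.mk (nat_lit 101) (nat_lit 5) (nat_lit 4) (nat_lit 1) (nat_lit 5) (nat_lit 176) (nat_lit 356) r10_176 r4_356 (nat_lit 0) (nat_lit 39267561) (nat_lit 0) (nat_lit 0x2000efab8c) (nat_lit 2186751209),
  Rx.mk (nat_lit 103) (nat_lit 7) (nat_lit 4) (nat_lit 1) (nat_lit 5) (nat_lit 177) (nat_lit 357) r10_177 r4_357 (nat_lit 0) (nat_lit 31280084) (nat_lit 0) (nat_lit 0x2007bee5ea) (nat_lit 2171438082),
  Rx.mk (nat_lit 108) (nat_lit 4) (nat_lit 5) (nat_lit 1) (nat_lit 6) (nat_lit 178) (nat_lit 358) r10_178 r4_358 (nat_lit 30231688) (nat_lit 0) (nat_lit 0) (nat_lit 0x200f145992) (nat_lit 2162546986),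
  Rx.mk (nat_lit 109) (nat_lit 5) (nat_lit 5) (nat_lit 1) (nat_lit 7) (nat_lit 179) (nat_lit 359) r10_179 r4_359 (nat_lit 0) (nat_lit 0) (nat_lit 0) (nat_lit 0x2000efab8c) (nat_lit 2147483648),
  Rx.mk (nat_lit 111) (nat_lit 7) (nat_lit 5) (nat_lit 1) (nat_lit 7) (nat_lit 180) (nat_lit 360) r10_180 r4_360 (nat_lit 0) (nat_lit 0) (nat_lit 0) (nat_lit 0x2000efab8c) (nat_lit 2147483648),
  Rx.mk (nat_lit 116) (nat_lit 4) (nat_lit 6) (nat_lit 1) (nat_lit 6) (nat_lit 181) (nat_lit 361) r10_181 r4_361 (nat_lit 39267561) (nat_lit 0) (nat_lit 0) (nat_lit 0x2012dc8c48) (nat_lit 2167524809),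
  Rx.mk (nat_lit 117) (nat_lit 5) (nat_lit 6) (nat_lit 1) (nat_lit 7) (nat_lit 182) (nat_lit 362) r10_182 r4_362 (nat_lit 0) (nat_lit 0) (nat_lit 0) (nat_lit 0x2000efab8c) (nat_lit 2147483648)]
noncomputable def e28_19 : List Rx := [
  Rx.mk (nat_lit 100) (nat_lit 4) (nat_lit 4) (nat_lit 1) (nat_lit 4) (nat_lit 198) (nat_lit 198) r10_198 r10_198 (nat_lit 27662216) (nat_lit 27662216) (nat_lit 0) (nat_lit 0x1d2713b6da) (nat_lit 2997443430),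
  Rx.mk (nat_lit 101) (nat_lit 5) (nat_lit 4) (nat_lit 1) (nat_lit 5) (nat_lit 199) (nat_lit 201) r10_199 r10_201 (nat_lit 0) (nat_lit 39267561) (nat_lit 0) (nat_lit 0x2000efab8c) (nat_lit 2186751209),
  Rx.mk (nat_lit 103) (nat_lit 7) (nat_lit 4) (nat_lit 1) (nat_lit 5) (nat_lit 200) (nat_lit 204) r10_200 r10_204 (nat_lit 0) (nat_lit 54227519) (nat_lit 0) (nat_lit 0x1ff5d945fa) (nat_lit 2213654817),
  Rx.mk (nat_lit 108) (nat_lit 4) (nat_lit 5) (nat_lit 1) (nat_lit 6) (nat_lit 201) (nat_lit 199) r10_201 r10_199 (nat_lit 39267561) (nat_lit 0) (nat_lit 0) (nat_lit 0x2000efab8c) (nat_lit 2186751209),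
  Rx.mk (nat_lit 109) (nat_lit 5) (nat_lit 5) (nat_lit 1) (nat_lit 7) (nat_lit 202) (nat_lit 202) r10_202 r10_202 (nat_lit 0) (nat_lit 0) (nat_lit 0) (nat_lit 0x2000efab8c) (nat_lit 2147483648),
  Rx.mk (nat_lit 111) (nat_lit 7) (nat_lit 5) (nat_lit 1) (nat_lit 7) (nat_lit 203) (nat_lit 205) r10_203 r10_205 (nat_lit 0) (nat_lit 0) (nat_lit 0) (nat_lit 0x2000efab8c) (nat_lit 2147483648),
  Rx.mk (nat_lit 116) (nat_lit 4) (nat_lit 6) (nat_lit 1) (nat_lit 6) (nat_lit 204) (nat_lit 200) r10_204 r10_200 (nat_lit 54227519) (nat_lit 0) (nat_lit 0) (nat_lit 0x1ff5d945fa) (nat_lit 2213654817),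
  Rx.mk (nat_lit 117) (nat_lit 5) (nat_lit 6) (nat_lit 1) (nat_lit 7) (nat_lit 205) (nat_lit 203) r10_205 r10_203 (nat_lit 0) (nat_lit 0) (nat_lit 0) (nat_lit 0x2000efab8c) (nat_lit 2147483648)]
noncomputable def e28_20 : List Rx := [
  Rx.mk (nat_lit 100) (nat_lit 4) (nat_lit 4) (nat_lit 1) (nat_lit 4) (nat_lit 206) (nat_lit 230) r10_206 r11_230 (nat_lit 446566349) (nat_lit 35486126) (nat_lit 0) (nat_lit 0x1f60266dbc) (nat_lit 2804254423),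
  Rx.mk (nat_lit 101) (nat_lit 5) (nat_lit 4) (nat_lit 1) (nat_lit 5) (nat_lit 207) (nat_lit 232) r10_207 r11_232 (nat_lit 0) (nat_lit 39267561) (nat_lit 0) (nat_lit 0x2000efab8c) (nat_lit 2186751209),
  Rx.mk (nat_lit 103) (nat_lit 7) (nat_lit 4) (nat_lit 1) (nat_lit 5) (nat_lit 208) (nat_lit 234) r10_208 r11_234 (nat_lit 0) (nat_lit 39267561) (nat_lit 0) (nat_lit 0x2000efab8c) (nat_lit 2186751209),
  Rx.mk (nat_lit 116) (nat_lit 4) (nat_lit 6) (nat_lit 1) (nat_lit 6) (nat_lit 209) (nat_lit 231) r10_209 r11_231 (nat_lit 39267561) (nat_lit 0) (nat_lit 0) (nat_lit 0x2007d14906) (nat_lit 2179358459),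
  Rx.mk (nat_lit 117) (nat_lit 5) (nat_lit 6) (nat_lit 1) (nat_lit 7) (nat_lit 210) (nat_lit 233) r10_210 r11_233 (nat_lit 0) (nat_lit 0) (nat_lit 0) (nat_lit 0x2000efab8c) (nat_lit 2147483648),
  Rx.mk (nat_lit 127) (nat_lit 7) (nat_lit 7) (nat_lit 1) (nat_lit 7) (nat_lit 211) (nat_lit 235) r10_211 r11_235 (nat_lit 0) (nat_lit 0) (nat_lit 0) (nat_lit 0x2000efab8c) (nat_lit 2147483648)]
noncomputable def e28_21 : List Rx := [
  Rx.mk (nat_lit 278) (nat_lit 6) (nat_lit 2) (nat_lit 4) (nat_lit 3) (nat_lit 117) (nat_lit 143) r10_117 r9_143 (nat_lit 0) (nat_lit 0) (nat_lit 39267561) (nat_lit 0x2000efab8c) (nat_lit 2186751209),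
  Rx.mk (nat_lit 308) (nat_lit 4) (nat_lit 6) (nat_lit 4) (nat_lit 2) (nat_lit 120) (nat_lit 136) r10_120 r9_136 (nat_lit 64597608) (nat_lit 0) (nat_lit 43111231) (nat_lit 0x1b12265162) (nat_lit 3630406237),
  Rx.mk (nat_lit 310) (nat_lit 6) (nat_lit 6) (nat_lit 4) (nat_lit 3) (nat_lit 122) (nat_lit 141) r10_122 r9_141 (nat_lit 0) (nat_lit 0) (nat_lit 39267561) (nat_lit 0x2000efab8c) (nat_lit 2186751209),
  Rx.mk (nat_lit 311) (nat_lit 7) (nat_lit 6) (nat_lit 4) (nat_lit 3) (nat_lit 124) (nat_lit 138) r10_124 r9_138 (nat_lit 0) (nat_lit 0) (nat_lit 39267561) (nat_lit 0x2000efab8c) (nat_lit 2186751209),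
  Rx.mk (nat_lit 342) (nat_lit 6) (nat_lit 2) (nat_lit 5) (nat_lit 7) (nat_lit 118) (nat_lit 144) r10_118 r9_144 (nat_lit 0) (nat_lit 0) (nat_lit 0) (nat_lit 0x2000efab8c) (nat_lit 2147483648),
  Rx.mk (nat_lit 372) (nat_lit 4) (nat_lit 6) (nat_lit 5) (nat_lit 6) (nat_lit 121) (nat_lit 137) r10_121 r9_137 (nat_lit 39267561) (nat_lit 0) (nat_lit 0) (nat_lit 0x2000efab8c) (nat_lit 2186751209),
  Rx.mk (nat_lit 374) (nat_lit 6) (nat_lit 6) (nat_lit 5) (nat_lit 7) (nat_lit 123) (nat_lit 142) r10_123 r9_142 (nat_lit 0) (nat_lit 0) (nat_lit 0) (nat_lit 0x2000efab8c) (nat_lit 2147483648),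
  Rx.mk (nat_lit 375) (nat_lit 7) (nat_lit 6) (nat_lit 5) (nat_lit 7) (nat_lit 125) (nat_lit 139) r10_125 r9_139 (nat_lit 0) (nat_lit 0) (nat_lit 0) (nat_lit 0x2000efab8c) (nat_lit 2147483648),
  Rx.mk (nat_lit 406) (nat_lit 6) (nat_lit 2) (nat_lit 6) (nat_lit 7) (nat_lit 119) (nat_lit 145) r10_119 r9_145 (nat_lit 0) (nat_lit 0) (nat_lit 0) (nat_lit 0x2000efab8c) (nat_lit 2147483648),
  Rx.mk (nat_lit 503) (nat_lit 7) (nat_lit 6) (nat_lit 7) (nat_lit 7) (nat_lit 126) (nat_lit 140) r10_126 r9_140 (nat_lit 0) (nat_lit 0) (nat_lit 0) (nat_lit 0x2000efab8c) (nat_lit 2147483648)]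
noncomputable def e28_22 : List Rx := [
  Rx.mk (nat_lit 128) (nat_lit 0) (nat_lit 0) (nat_lit 2) (nat_lit 4) (nat_lit 77) (nat_lit 147) r10_77 r0_147 (nat_lit 1138904) (nat_lit 262045) (nat_lit 0) (nat_lit 0x1a96d85a00) (nat_lit 3657986597),
  Rx.mk (nat_lit 130) (nat_lit 2) (nat_lit 0) (nat_lit 2) (nat_lit 5) (nat_lit 78) (nat_lit 150) r10_78 r0_150 (nat_lit 0) (nat_lit 45719485) (nat_lit 0) (nat_lit 0x1daaf8a9d8) (nat_lit 2844142233),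
  Rx.mk (nat_lit 152) (nat_lit 0) (nat_lit 3) (nat_lit 2) (nat_lit 6) (nat_lit 79) (nat_lit 148) r10_79 r0_148 (nat_lit 338475005) (nat_lit 0) (nat_lit 0) (nat_lit 0x1fe001c108) (nat_lit 2521532953),
  Rx.mk (nat_lit 154) (nat_lit 2) (nat_lit 3) (nat_lit 2) (nat_lit 7) (nat_lit 80) (nat_lit 151) r10_80 r0_151 (nat_lit 0) (nat_lit 0) (nat_lit 0) (nat_lit 0x1ff4aead0a) (nat_lit 2160688798),
  Rx.mk (nat_lit 155) (nat_lit 3) (nat_lit 3) (nat_lit 2) (nat_lit 7) (nat_lit 81) (nat_lit 149) r10_81 r0_149 (nat_lit 0) (nat_lit 0) (nat_lit 0) (nat_lit 0x1fdff99294) (nat_lit 2183098448)]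
noncomputable def e28_23 : List Rx := [
  Rx.mk (nat_lit 128) (nat_lit 0) (nat_lit 0) (nat_lit 2) (nat_lit 4) (nat_lit 96) (nat_lit 161) r10_96 r1_161 (nat_lit 1148669) (nat_lit 585632) (nat_lit 0) (nat_lit 0x1b7e74f206) (nat_lit 3406092099),
  Rx.mk (nat_lit 130) (nat_lit 2) (nat_lit 0) (nat_lit 2) (nat_lit 5) (nat_lit 97) (nat_lit 164) r10_97 r1_164 (nat_lit 0) (nat_lit 33668941) (nat_lit 0) (nat_lit 0x1ecd28f296) (nat_lit 2515961539),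
  Rx.mk (nat_lit 152) (nat_lit 0) (nat_lit 3) (nat_lit 2) (nat_lit 6) (nat_lit 98) (nat_lit 162) r10_98 r1_162 (nat_lit 42463438) (nat_lit 0) (nat_lit 0) (nat_lit 0x1ff3d565b8) (nat_lit 2204053486),
  Rx.mk (nat_lit 154) (nat_lit 2) (nat_lit 3) (nat_lit 2) (nat_lit 7) (nat_lit 99) (nat_lit 165) r10_99 r1_165 (nat_lit 0) (nat_lit 0) (nat_lit 0) (nat_lit 0x1ffa160824) (nat_lit 2154858048),
  Rx.mk (nat_lit 155) (nat_lit 3) (nat_lit 3) (nat_lit 2) (nat_lit 7) (nat_lit 100) (nat_lit 163) r10_100 r1_163 (nat_lit 0) (nat_lit 0) (nat_lit 0) (nat_lit 0x200e7af22a) (nat_lit 2132948298)]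
noncomputable def e28_24 : List Rx := [
  Rx.mk (nat_lit 59) (nat_lit 3) (nat_lit 7) (nat_lit 0) (nat_lit 3) (nat_lit 132) (nat_lit 134) r10_132 r4_134 (nat_lit 0) (nat_lit 0) (nat_lit 25140669) (nat_lit 0x1ffbb08d58) (nat_lit 2178265217),
  Rx.mk (nat_lit 152) (nat_lit 0) (nat_lit 3) (nat_lit 2) (nat_lit 6) (nat_lit 127) (nat_lit 139) r10_127 r4_139 (nat_lit 33545149) (nat_lit 0) (nat_lit 0) (nat_lit 0x2009da6e80) (nat_lit 2171450097),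
  Rx.mk (nat_lit 154) (nat_lit 2) (nat_lit 3) (nat_lit 2) (nat_lit 7) (nat_lit 128) (nat_lit 142) r10_128 r4_142 (nat_lit 0) (nat_lit 0) (nat_lit 0) (nat_lit 0x2000efab8c) (nat_lit 2147483648),
  Rx.mk (nat_lit 155) (nat_lit 3) (nat_lit 3) (nat_lit 2) (nat_lit 7) (nat_lit 129) (nat_lit 140) r10_129 r4_140 (nat_lit 0) (nat_lit 0) (nat_lit 0) (nat_lit 0x203553c1b0) (nat_lit 2091479948),
  Rx.mk (nat_lit 187) (nat_lit 3) (nat_lit 7) (nat_lit 2) (nat_lit 7) (nat_lit 133) (nat_lit 141) r10_133 r4_141 (nat_lit 0) (nat_lit 0) (nat_lit 0) (nat_lit 0x200f059600) (nat_lit 2132372648),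
  Rx.mk (nat_lit 231) (nat_lit 7) (nat_lit 4) (nat_lit 3) (nat_lit 5) (nat_lit 130) (nat_lit 136) r10_130 r4_136 (nat_lit 0) (nat_lit 19969029) (nat_lit 0) (nat_lit 0x2017377f46) (nat_lit 2143566027),
  Rx.mk (nat_lit 247) (nat_lit 7) (nat_lit 6) (nat_lit 3) (nat_lit 7) (nat_lit 131) (nat_lit 138) r10_131 r4_138 (nat_lit 0) (nat_lit 0) (nat_lit 0) (nat_lit 0x200a2486aa) (nat_lit 2137595998),
  Rx.mk (nat_lit 251) (nat_lit 3) (nat_lit 7) (nat_lit 3) (nat_lit 7) (nat_lit 134) (nat_lit 135) r10_134 r4_135 (nat_lit 0) (nat_lit 0) (nat_lit 0) (nat_lit 0x2000efab8c) (nat_lit 2147483648),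
  Rx.mk (nat_lit 255) (nat_lit 7) (nat_lit 7) (nat_lit 3) (nat_lit 7) (nat_lit 135) (nat_lit 137) r10_135 r4_137 (nat_lit 0) (nat_lit 0) (nat_lit 0) (nat_lit 0x2000efab8c) (nat_lit 2147483648)]
noncomputable def e28_25 : List Rx := [
  Rx.mk (nat_lit 128) (nat_lit 0) (nat_lit 0) (nat_lit 2) (nat_lit 4) (nat_lit 82) (nat_lit 189) r10_82 r7_189 (nat_lit 15033885) (nat_lit 3314691) (nat_lit 0) (nat_lit 0x1a56beaf78) (nat_lit 3745066724),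
  Rx.mk (nat_lit 130) (nat_lit 2) (nat_lit 0) (nat_lit 2) (nat_lit 5) (nat_lit 83) (nat_lit 191) r10_83 r7_191 (nat_lit 0) (nat_lit 5456599) (nat_lit 0) (nat_lit 0x1d3c89f54c) (nat_lit 2924140447),
  Rx.mk (nat_lit 152) (nat_lit 0) (nat_lit 3) (nat_lit 2) (nat_lit 6) (nat_lit 88) (nat_lit 192) r10_88 r7_192 (nat_lit 35778202) (nat_lit 0) (nat_lit 0) (nat_lit 0x1dbad3aa88) (nat_lit 2816974650),
  Rx.mk (nat_lit 154) (nat_lit 2) (nat_lit 3) (nat_lit 2) (nat_lit 7) (nat_lit 89) (nat_lit 194) r10_89 r7_194 (nat_lit 0) (nat_lit 0) (nat_lit 0) (nat_lit 0x201081bdc4) (nat_lit 2130744948),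
  Rx.mk (nat_lit 155) (nat_lit 3) (nat_lit 3) (nat_lit 2) (nat_lit 7) (nat_lit 90) (nat_lit 193) r10_90 r7_193 (nat_lit 0) (nat_lit 0) (nat_lit 0) (nat_lit 0x20107f4b02) (nat_lit 2130755198),
  Rx.mk (nat_lit 278) (nat_lit 6) (nat_lit 2) (nat_lit 4) (nat_lit 3) (nat_lit 86) (nat_lit 195) r10_86 r7_195 (nat_lit 0) (nat_lit 0) (nat_lit 25957406) (nat_lit 0x1fb50a72ec) (nat_lit 2255744054),
  Rx.mk (nat_lit 308) (nat_lit 4) (nat_lit 6) (nat_lit 4) (nat_lit 2) (nat_lit 91) (nat_lit 184) r10_91 r7_184 (nat_lit 15033885) (nat_lit 0) (nat_lit 3314691) (nat_lit 0x1a56beaf78) (nat_lit 3745066724),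
  Rx.mk (nat_lit 310) (nat_lit 6) (nat_lit 6) (nat_lit 4) (nat_lit 3) (nat_lit 93) (nat_lit 187) r10_93 r7_187 (nat_lit 0) (nat_lit 0) (nat_lit 5456599) (nat_lit 0x1d3c89f54c) (nat_lit 2924140447),
  Rx.mk (nat_lit 386) (nat_lit 2) (nat_lit 0) (nat_lit 6) (nat_lit 5) (nat_lit 84) (nat_lit 190) r10_84 r7_190 (nat_lit 0) (nat_lit 25957406) (nat_lit 0) (nat_lit 0x1fb50a72ec) (nat_lit 2255744054),
  Rx.mk (nat_lit 402) (nat_lit 2) (nat_lit 2) (nat_lit 6) (nat_lit 7) (nat_lit 85) (nat_lit 197) r10_85 r7_197 (nat_lit 0) (nat_lit 0) (nat_lit 0) (nat_lit 0x1fb5caeaf4) (nat_lit 2228946748),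
  Rx.mk (nat_lit 406) (nat_lit 6) (nat_lit 2) (nat_lit 6) (nat_lit 7) (nat_lit 87) (nat_lit 196) r10_87 r7_196 (nat_lit 0) (nat_lit 0) (nat_lit 0) (nat_lit 0x1fb5caeaf4) (nat_lit 2228946748),
  Rx.mk (nat_lit 500) (nat_lit 4) (nat_lit 6) (nat_lit 7) (nat_lit 6) (nat_lit 92) (nat_lit 185) r10_92 r7_185 (nat_lit 35778202) (nat_lit 0) (nat_lit 0) (nat_lit 0x1dbad3aa88) (nat_lit 2816974650),
  Rx.mk (nat_lit 502) (nat_lit 6) (nat_lit 6) (nat_lit 7) (nat_lit 7) (nat_lit 94) (nat_lit 188) r10_94 r7_188 (nat_lit 0) (nat_lit 0) (nat_lit 0) (nat_lit 0x201081bdc4) (nat_lit 2130744948),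
  Rx.mk (nat_lit 503) (nat_lit 7) (nat_lit 6) (nat_lit 7) (nat_lit 7) (nat_lit 95) (nat_lit 186) r10_95 r7_186 (nat_lit 0) (nat_lit 0) (nat_lit 0) (nat_lit 0x20107f4b02) (nat_lit 2130755198)]
noncomputable def e28_26 : List Rx := [
  Rx.mk (nat_lit 128) (nat_lit 0) (nat_lit 0) (nat_lit 2) (nat_lit 4) (nat_lit 101) (nat_lit 149) r10_101 r8_149 (nat_lit 36374722) (nat_lit 22536325) (nat_lit 0) (nat_lit 0x1b7c9efe72) (nat_lit 3465604845),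
  Rx.mk (nat_lit 130) (nat_lit 2) (nat_lit 0) (nat_lit 2) (nat_lit 5) (nat_lit 102) (nat_lit 151) r10_102 r8_151 (nat_lit 0) (nat_lit 21482774) (nat_lit 0) (nat_lit 0x1fa3cdbac0) (nat_lit 2270040822),
  Rx.mk (nat_lit 152) (nat_lit 0) (nat_lit 3) (nat_lit 2) (nat_lit 6) (nat_lit 106) (nat_lit 152) r10_106 r8_152 (nat_lit 39267561) (nat_lit 0) (nat_lit 0) (nat_lit 0x2000efab8c) (nat_lit 2186751209),
  Rx.mk (nat_lit 154) (nat_lit 2) (nat_lit 3) (nat_lit 2) (nat_lit 7) (nat_lit 107) (nat_lit 154) r10_107 r8_154 (nat_lit 0) (nat_lit 0) (nat_lit 0) (nat_lit 0x2000efab8c) (nat_lit 2147483648),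
  Rx.mk (nat_lit 155) (nat_lit 3) (nat_lit 3) (nat_lit 2) (nat_lit 7) (nat_lit 108) (nat_lit 153) r10_108 r8_153 (nat_lit 0) (nat_lit 0) (nat_lit 0) (nat_lit 0x2000efab8c) (nat_lit 2147483648),
  Rx.mk (nat_lit 386) (nat_lit 2) (nat_lit 0) (nat_lit 6) (nat_lit 5) (nat_lit 103) (nat_lit 150) r10_103 r8_150 (nat_lit 0) (nat_lit 39267561) (nat_lit 0) (nat_lit 0x2000efab8c) (nat_lit 2186751209),
  Rx.mk (nat_lit 402) (nat_lit 2) (nat_lit 2) (nat_lit 6) (nat_lit 7) (nat_lit 104) (nat_lit 156) r10_104 r8_156 (nat_lit 0) (nat_lit 0) (nat_lit 0) (nat_lit 0x2000efab8c) (nat_lit 2147483648),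
  Rx.mk (nat_lit 406) (nat_lit 6) (nat_lit 2) (nat_lit 6) (nat_lit 7) (nat_lit 105) (nat_lit 155) r10_105 r8_155 (nat_lit 0) (nat_lit 0) (nat_lit 0) (nat_lit 0x2000efab8c) (nat_lit 2147483648)]
noncomputable def e28_27 : List Rx := [
  Rx.mk (nat_lit 278) (nat_lit 6) (nat_lit 2) (nat_lit 4) (nat_lit 3) (nat_lit 110) (nat_lit 150) r10_110 r8_150 (nat_lit 0) (nat_lit 0) (nat_lit 39267561) (nat_lit 0x2000efab8c) (nat_lit 2186751209),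
  Rx.mk (nat_lit 308) (nat_lit 4) (nat_lit 6) (nat_lit 4) (nat_lit 2) (nat_lit 112) (nat_lit 149) r10_112 r8_149 (nat_lit 36374722) (nat_lit 0) (nat_lit 22536325) (nat_lit 0x1b7c9efe72) (nat_lit 3465604845),
  Rx.mk (nat_lit 310) (nat_lit 6) (nat_lit 6) (nat_lit 4) (nat_lit 3) (nat_lit 114) (nat_lit 151) r10_114 r8_151 (nat_lit 0) (nat_lit 0) (nat_lit 21482774) (nat_lit 0x1fa3cdbac0) (nat_lit 2270040822),
  Rx.mk (nat_lit 402) (nat_lit 2) (nat_lit 2) (nat_lit 6) (nat_lit 7) (nat_lit 109) (nat_lit 155) r10_109 r8_155 (nat_lit 0) (nat_lit 0) (nat_lit 0) (nat_lit 0x2000efab8c) (nat_lit 2147483648),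
  Rx.mk (nat_lit 406) (nat_lit 6) (nat_lit 2) (nat_lit 6) (nat_lit 7) (nat_lit 111) (nat_lit 156) r10_111 r8_156 (nat_lit 0) (nat_lit 0) (nat_lit 0) (nat_lit 0x2000efab8c) (nat_lit 2147483648),
  Rx.mk (nat_lit 500) (nat_lit 4) (nat_lit 6) (nat_lit 7) (nat_lit 6) (nat_lit 113) (nat_lit 152) r10_113 r8_152 (nat_lit 39267561) (nat_lit 0) (nat_lit 0) (nat_lit 0x2000efab8c) (nat_lit 2186751209),
  Rx.mk (nat_lit 502) (nat_lit 6) (nat_lit 6) (nat_lit 7) (nat_lit 7) (nat_lit 115) (nat_lit 154) r10_115 r8_154 (nat_lit 0) (nat_lit 0) (nat_lit 0) (nat_lit 0x2000efab8c) (nat_lit 2147483648),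
  Rx.mk (nat_lit 503) (nat_lit 7) (nat_lit 6) (nat_lit 7) (nat_lit 7) (nat_lit 116) (nat_lit 153) r10_116 r8_153 (nat_lit 0) (nat_lit 0) (nat_lit 0) (nat_lit 0x2000efab8c) (nat_lit 2147483648)]
noncomputable def e28_28 : List Rx := [
  Rx.mk (nat_lit 59) (nat_lit 3) (nat_lit 7) (nat_lit 0) (nat_lit 3) (nat_lit 150) (nat_lit 138) r10_150 r10_138 (nat_lit 0) (nat_lit 0) (nat_lit 7462554) (nat_lit 0x1fe0fb167c) (nat_lit 2189355902),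
  Rx.mk (nat_lit 152) (nat_lit 0) (nat_lit 3) (nat_lit 2) (nat_lit 6) (nat_lit 141) (nat_lit 146) r10_141 r10_146 (nat_lit 2139075) (nat_lit 0) (nat_lit 0) (nat_lit 0x208c2b7352) (nat_lit 2001240273),
  Rx.mk (nat_lit 154) (nat_lit 2) (nat_lit 3) (nat_lit 2) (nat_lit 7) (nat_lit 142) (nat_lit 149) r10_142 r10_149 (nat_lit 0) (nat_lit 0) (nat_lit 0) (nat_lit 0x2085ec74aa) (nat_lit 2005830198),
  Rx.mk (nat_lit 155) (nat_lit 3) (nat_lit 3) (nat_lit 2) (nat_lit 7) (nat_lit 144) (nat_lit 147) r10_144 r10_147 (nat_lit 0) (nat_lit 0) (nat_lit 0) (nat_lit 0x2085ec74aa) (nat_lit 2005830198),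
  Rx.mk (nat_lit 187) (nat_lit 3) (nat_lit 7) (nat_lit 2) (nat_lit 7) (nat_lit 151) (nat_lit 140) r10_151 r10_140 (nat_lit 0) (nat_lit 0) (nat_lit 0) (nat_lit 0x2000efab8c) (nat_lit 2147483648),
  Rx.mk (nat_lit 231) (nat_lit 7) (nat_lit 4) (nat_lit 3) (nat_lit 5) (nat_lit 145) (nat_lit 136) r10_145 r10_136 (nat_lit 0) (nat_lit 7462554) (nat_lit 0) (nat_lit 0x1fe0fb167c) (nat_lit 2189355902),
  Rx.mk (nat_lit 247) (nat_lit 7) (nat_lit 6) (nat_lit 3) (nat_lit 7) (nat_lit 148) (nat_lit 143) r10_148 r10_143 (nat_lit 0) (nat_lit 0) (nat_lit 0) (nat_lit 0x2000efab8c) (nat_lit 2147483648),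
  Rx.mk (nat_lit 251) (nat_lit 3) (nat_lit 7) (nat_lit 3) (nat_lit 7) (nat_lit 152) (nat_lit 139) r10_152 r10_139 (nat_lit 0) (nat_lit 0) (nat_lit 0) (nat_lit 0x2000efab8c) (nat_lit 2147483648),
  Rx.mk (nat_lit 255) (nat_lit 7) (nat_lit 7) (nat_lit 3) (nat_lit 7) (nat_lit 153) (nat_lit 137) r10_153 r10_137 (nat_lit 0) (nat_lit 0) (nat_lit 0) (nat_lit 0x2000efab8c) (nat_lit 2147483648),
  Rx.mk (nat_lit 278) (nat_lit 6) (nat_lit 2) (nat_lit 4) (nat_lit 3) (nat_lit 138) (nat_lit 150) r10_138 r10_150 (nat_lit 0) (nat_lit 0) (nat_lit 7462554) (nat_lit 0x1fe0fb167c) (nat_lit 2189355902),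
  Rx.mk (nat_lit 386) (nat_lit 2) (nat_lit 0) (nat_lit 6) (nat_lit 5) (nat_lit 136) (nat_lit 145) r10_136 r10_145 (nat_lit 0) (nat_lit 7462554) (nat_lit 0) (nat_lit 0x1fe0fb167c) (nat_lit 2189355902),
  Rx.mk (nat_lit 402) (nat_lit 2) (nat_lit 2) (nat_lit 6) (nat_lit 7) (nat_lit 137) (nat_lit 153) r10_137 r10_153 (nat_lit 0) (nat_lit 0) (nat_lit 0) (nat_lit 0x2000efab8c) (nat_lit 2147483648),
  Rx.mk (nat_lit 406) (nat_lit 6) (nat_lit 2) (nat_lit 6) (nat_lit 7) (nat_lit 139) (nat_lit 152) r10_139 r10_152 (nat_lit 0) (nat_lit 0) (nat_lit 0) (nat_lit 0x2000efab8c) (nat_lit 2147483648),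
  Rx.mk (nat_lit 410) (nat_lit 2) (nat_lit 3) (nat_lit 6) (nat_lit 7) (nat_lit 143) (nat_lit 148) r10_143 r10_148 (nat_lit 0) (nat_lit 0) (nat_lit 0) (nat_lit 0x2000efab8c) (nat_lit 2147483648),
  Rx.mk (nat_lit 470) (nat_lit 6) (nat_lit 2) (nat_lit 7) (nat_lit 7) (nat_lit 140) (nat_lit 151) r10_140 r10_151 (nat_lit 0) (nat_lit 0) (nat_lit 0) (nat_lit 0x2000efab8c) (nat_lit 2147483648),
  Rx.mk (nat_lit 500) (nat_lit 4) (nat_lit 6) (nat_lit 7) (nat_lit 6) (nat_lit 146) (nat_lit 141) r10_146 r10_141 (nat_lit 2139075) (nat_lit 0) (nat_lit 0) (nat_lit 0x208c2b7352) (nat_lit 2001240273),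
  Rx.mk (nat_lit 502) (nat_lit 6) (nat_lit 6) (nat_lit 7) (nat_lit 7) (nat_lit 147) (nat_lit 144) r10_147 r10_144 (nat_lit 0) (nat_lit 0) (nat_lit 0) (nat_lit 0x2085ec74aa) (nat_lit 2005830198),
  Rx.mk (nat_lit 503) (nat_lit 7) (nat_lit 6) (nat_lit 7) (nat_lit 7) (nat_lit 149) (nat_lit 142) r10_149 r10_142 (nat_lit 0) (nat_lit 0) (nat_lit 0) (nat_lit 0x2085ec74aa) (nat_lit 2005830198)]
noncomputable def e28_29 : List Rx := [
  Rx.mk (nat_lit 59) (nat_lit 3) (nat_lit 7) (nat_lit 0) (nat_lit 3) (nat_lit 157) (nat_lit 140) r10_157 r11_140 (nat_lit 0) (nat_lit 0) (nat_lit 34042682) (nat_lit 0x1febd57484) (nat_lit 2204304930),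
  Rx.mk (nat_lit 63) (nat_lit 7) (nat_lit 7) (nat_lit 0) (nat_lit 3) (nat_lit 159) (nat_lit 138) r10_159 r11_138 (nat_lit 0) (nat_lit 0) (nat_lit 39267561) (nat_lit 0x2000efab8c) (nat_lit 2186751209),
  Rx.mk (nat_lit 155) (nat_lit 3) (nat_lit 3) (nat_lit 2) (nat_lit 7) (nat_lit 154) (nat_lit 143) r10_154 r11_143 (nat_lit 0) (nat_lit 0) (nat_lit 0) (nat_lit 0x201dc81622) (nat_lit 2116610098),
  Rx.mk (nat_lit 187) (nat_lit 3) (nat_lit 7) (nat_lit 2) (nat_lit 7) (nat_lit 158) (nat_lit 141) r10_158 r11_141 (nat_lit 0) (nat_lit 0) (nat_lit 0) (nat_lit 0x2000efab8c) (nat_lit 2147483648),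
  Rx.mk (nat_lit 231) (nat_lit 7) (nat_lit 4) (nat_lit 3) (nat_lit 5) (nat_lit 155) (nat_lit 137) r10_155 r11_137 (nat_lit 0) (nat_lit 25041654) (nat_lit 0) (nat_lit 0x200db9c406) (nat_lit 2158795352),
  Rx.mk (nat_lit 247) (nat_lit 7) (nat_lit 6) (nat_lit 3) (nat_lit 7) (nat_lit 156) (nat_lit 142) r10_156 r11_142 (nat_lit 0) (nat_lit 0) (nat_lit 0) (nat_lit 0x2000efab8c) (nat_lit 2147483648),
  Rx.mk (nat_lit 255) (nat_lit 7) (nat_lit 7) (nat_lit 3) (nat_lit 7) (nat_lit 160) (nat_lit 139) r10_160 r11_139 (nat_lit 0) (nat_lit 0) (nat_lit 0) (nat_lit 0x2000efab8c) (nat_lit 2147483648)]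
noncomputable def e28_30 : List Rx := [
  Rx.mk (nat_lit 103) (nat_lit 7) (nat_lit 4) (nat_lit 1) (nat_lit 5) (nat_lit 237) (nat_lit 307) r10_237 r5_307 (nat_lit 0) (nat_lit 16325209) (nat_lit 0) (nat_lit 0x1fe8004b2c) (nat_lit 2190656757),
  Rx.mk (nat_lit 111) (nat_lit 7) (nat_lit 5) (nat_lit 1) (nat_lit 7) (nat_lit 238) (nat_lit 308) r10_238 r5_308 (nat_lit 0) (nat_lit 0) (nat_lit 0) (nat_lit 0x20256af926) (nat_lit 2108470798),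
  Rx.mk (nat_lit 119) (nat_lit 7) (nat_lit 6) (nat_lit 1) (nat_lit 7) (nat_lit 239) (nat_lit 309) r10_239 r5_309 (nat_lit 0) (nat_lit 0) (nat_lit 0) (nat_lit 0x20256b14d8) (nat_lit 2108470348)]
noncomputable def e28_31 : List Rx := [
  Rx.mk (nat_lit 103) (nat_lit 7) (nat_lit 4) (nat_lit 1) (nat_lit 5) (nat_lit 240) (nat_lit 361) r10_240 r11_361 (nat_lit 0) (nat_lit 13701641) (nat_lit 0) (nat_lit 0x20754cc97e) (nat_lit 2037173539),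
  Rx.mk (nat_lit 111) (nat_lit 7) (nat_lit 5) (nat_lit 1) (nat_lit 7) (nat_lit 241) (nat_lit 362) r10_241 r11_362 (nat_lit 0) (nat_lit 0) (nat_lit 0) (nat_lit 0x20522be844) (nat_lit 2060817048),
  Rx.mk (nat_lit 119) (nat_lit 7) (nat_lit 6) (nat_lit 1) (nat_lit 7) (nat_lit 242) (nat_lit 363) r10_242 r11_363 (nat_lit 0) (nat_lit 0) (nat_lit 0) (nat_lit 0x20522be844) (nat_lit 2060817048),
  Rx.mk (nat_lit 375) (nat_lit 7) (nat_lit 6) (nat_lit 5) (nat_lit 7) (nat_lit 243) (nat_lit 360) r10_243 r11_360 (nat_lit 0) (nat_lit 0) (nat_lit 0) (nat_lit 0x2000efab8c) (nat_lit 2147483648)]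
noncomputable def e28_32 : List Rx := [
  Rx.mk (nat_lit 35) (nat_lit 3) (nat_lit 4) (nat_lit 0) (nat_lit 1) (nat_lit 244) (nat_lit 213) r10_244 r6_213 (nat_lit 0) (nat_lit 2864482) (nat_lit 2969871) (nat_lit 0x1d7898d22e) (nat_lit 2858942551),
  Rx.mk (nat_lit 43) (nat_lit 3) (nat_lit 5) (nat_lit 0) (nat_lit 3) (nat_lit 249) (nat_lit 214) r10_249 r6_214 (nat_lit 0) (nat_lit 0) (nat_lit 16073499) (nat_lit 0x20493f0978) (nat_lit 2086378047),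
  Rx.mk (nat_lit 59) (nat_lit 3) (nat_lit 7) (nat_lit 0) (nat_lit 3) (nat_lit 254) (nat_lit 215) r10_254 r6_215 (nat_lit 0) (nat_lit 0) (nat_lit 9838664) (nat_lit 0x203715a8f6) (nat_lit 2099425662),
  Rx.mk (nat_lit 99) (nat_lit 3) (nat_lit 4) (nat_lit 1) (nat_lit 5) (nat_lit 245) (nat_lit 216) r10_245 r6_216 (nat_lit 0) (nat_lit 14742202) (nat_lit 0) (nat_lit 0x202b2a1eb4) (nat_lit 2117041250),
  Rx.mk (nat_lit 123) (nat_lit 3) (nat_lit 7) (nat_lit 1) (nat_lit 7) (nat_lit 255) (nat_lit 217) r10_255 r6_217 (nat_lit 0) (nat_lit 0) (nat_lit 0) (nat_lit 0x20ade2c482) (nat_lit 1963376398),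
  Rx.mk (nat_lit 163) (nat_lit 3) (nat_lit 4) (nat_lit 2) (nat_lit 5) (nat_lit 246) (nat_lit 220) r10_246 r6_220 (nat_lit 0) (nat_lit 14742202) (nat_lit 0) (nat_lit 0x202b2a1eb4) (nat_lit 2117041250),
  Rx.mk (nat_lit 171) (nat_lit 3) (nat_lit 5) (nat_lit 2) (nat_lit 7) (nat_lit 250) (nat_lit 221) r10_250 r6_221 (nat_lit 0) (nat_lit 0) (nat_lit 0) (nat_lit 0x2018194de0) (nat_lit 2122665648),
  Rx.mk (nat_lit 187) (nat_lit 3) (nat_lit 7) (nat_lit 2) (nat_lit 7) (nat_lit 256) (nat_lit 222) r10_256 r6_222 (nat_lit 0) (nat_lit 0) (nat_lit 0) (nat_lit 0x20ade2c482) (nat_lit 1963376398),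
  Rx.mk (nat_lit 227) (nat_lit 3) (nat_lit 4) (nat_lit 3) (nat_lit 5) (nat_lit 247) (nat_lit 218) r10_247 r6_218 (nat_lit 0) (nat_lit 28560695) (nat_lit 0) (nat_lit 0x1fbd95b7a0) (nat_lit 2249011043),
  Rx.mk (nat_lit 231) (nat_lit 7) (nat_lit 4) (nat_lit 3) (nat_lit 5) (nat_lit 248) (nat_lit 210) r10_248 r6_210 (nat_lit 0) (nat_lit 9855849) (nat_lit 0) (nat_lit 0x1fb225dfee) (nat_lit 2242694747),
  Rx.mk (nat_lit 235) (nat_lit 3) (nat_lit 5) (nat_lit 3) (nat_lit 7) (nat_lit 251) (nat_lit 219) r10_251 r6_219 (nat_lit 0) (nat_lit 0) (nat_lit 0) (nat_lit 0x2000efab8c) (nat_lit 2147483648),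
  Rx.mk (nat_lit 239) (nat_lit 7) (nat_lit 5) (nat_lit 3) (nat_lit 7) (nat_lit 252) (nat_lit 211) r10_252 r6_211 (nat_lit 0) (nat_lit 0) (nat_lit 0) (nat_lit 0x202b033e98) (nat_lit 2102485748),
  Rx.mk (nat_lit 247) (nat_lit 7) (nat_lit 6) (nat_lit 3) (nat_lit 7) (nat_lit 253) (nat_lit 212) r10_253 r6_212 (nat_lit 0) (nat_lit 0) (nat_lit 0) (nat_lit 0x202b033e98) (nat_lit 2102485748)]
noncomputable def e28_33 : List Rx := [
  Rx.mk (nat_lit 59) (nat_lit 3) (nat_lit 7) (nat_lit 0) (nat_lit 3) (nat_lit 215) (nat_lit 134) r10_215 r5_134 (nat_lit 0) (nat_lit 0) (nat_lit 12603283) (nat_lit 0x2040eba434) (nat_lit 2091744731),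
  Rx.mk (nat_lit 187) (nat_lit 3) (nat_lit 7) (nat_lit 2) (nat_lit 7) (nat_lit 216) (nat_lit 139) r10_216 r5_139 (nat_lit 0) (nat_lit 0) (nat_lit 0) (nat_lit 0x20269a0a8a) (nat_lit 2107180898),
  Rx.mk (nat_lit 227) (nat_lit 3) (nat_lit 4) (nat_lit 3) (nat_lit 5) (nat_lit 212) (nat_lit 135) r10_212 r5_135 (nat_lit 0) (nat_lit 15874565) (nat_lit 0) (nat_lit 0x1e294cddd6) (nat_lit 2676665363),
  Rx.mk (nat_lit 231) (nat_lit 7) (nat_lit 4) (nat_lit 3) (nat_lit 5) (nat_lit 213) (nat_lit 137) r10_213 r5_137 (nat_lit 0) (nat_lit 9477336) (nat_lit 0) (nat_lit 0x2029c5e94a) (nat_lit 2113267034),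
  Rx.mk (nat_lit 247) (nat_lit 7) (nat_lit 6) (nat_lit 3) (nat_lit 7) (nat_lit 214) (nat_lit 138) r10_214 r5_138 (nat_lit 0) (nat_lit 0) (nat_lit 0) (nat_lit 0x205a0b004a) (nat_lit 2052446398),
  Rx.mk (nat_lit 251) (nat_lit 3) (nat_lit 7) (nat_lit 3) (nat_lit 7) (nat_lit 217) (nat_lit 136) r10_217 r5_136 (nat_lit 0) (nat_lit 0) (nat_lit 0) (nat_lit 0x1ff31ae850) (nat_lit 2162394648)]
noncomputable def e28_34 : List Rx := [
  Rx.mk (nat_lit 59) (nat_lit 3) (nat_lit 7) (nat_lit 0) (nat_lit 3) (nat_lit 222) (nat_lit 137) r10_222 r11_137 (nat_lit 0) (nat_lit 0) (nat_lit 25041654) (nat_lit 0x200db9c406) (nat_lit 2158795352),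
  Rx.mk (nat_lit 187) (nat_lit 3) (nat_lit 7) (nat_lit 2) (nat_lit 7) (nat_lit 223) (nat_lit 142) r10_223 r11_142 (nat_lit 0) (nat_lit 0) (nat_lit 0) (nat_lit 0x2000efab8c) (nat_lit 2147483648),
  Rx.mk (nat_lit 227) (nat_lit 3) (nat_lit 4) (nat_lit 3) (nat_lit 5) (nat_lit 218) (nat_lit 138) r10_218 r11_138 (nat_lit 0) (nat_lit 39267561) (nat_lit 0) (nat_lit 0x2000efab8c) (nat_lit 2186751209),
  Rx.mk (nat_lit 231) (nat_lit 7) (nat_lit 4) (nat_lit 3) (nat_lit 5) (nat_lit 219) (nat_lit 140) r10_219 r11_140 (nat_lit 0) (nat_lit 34042682) (nat_lit 0) (nat_lit 0x1febd57484) (nat_lit 2204304930),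
  Rx.mk (nat_lit 247) (nat_lit 7) (nat_lit 6) (nat_lit 3) (nat_lit 7) (nat_lit 220) (nat_lit 141) r10_220 r11_141 (nat_lit 0) (nat_lit 0) (nat_lit 0) (nat_lit 0x2000efab8c) (nat_lit 2147483648),
  Rx.mk (nat_lit 251) (nat_lit 3) (nat_lit 7) (nat_lit 3) (nat_lit 7) (nat_lit 224) (nat_lit 139) r10_224 r11_139 (nat_lit 0) (nat_lit 0) (nat_lit 0) (nat_lit 0x2000efab8c) (nat_lit 2147483648),
  Rx.mk (nat_lit 503) (nat_lit 7) (nat_lit 6) (nat_lit 7) (nat_lit 7) (nat_lit 221) (nat_lit 143) r10_221 r11_143 (nat_lit 0) (nat_lit 0) (nat_lit 0) (nat_lit 0x201dc81622) (nat_lit 2116610098)]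
noncomputable def e28_35 : List Rx := [
  Rx.mk (nat_lit 35) (nat_lit 3) (nat_lit 4) (nat_lit 0) (nat_lit 1) (nat_lit 225) (nat_lit 344) r10_225 r6_344 (nat_lit 0) (nat_lit 909772) (nat_lit 883330) (nat_lit 0x1db1c33d96) (nat_lit 2792482000),
  Rx.mk (nat_lit 39) (nat_lit 7) (nat_lit 4) (nat_lit 0) (nat_lit 1) (nat_lit 228) (nat_lit 345) r10_228 r6_345 (nat_lit 0) (nat_lit 883330) (nat_lit 909772) (nat_lit 0x1db1c33d96) (nat_lit 2792482000),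
  Rx.mk (nat_lit 43) (nat_lit 3) (nat_lit 5) (nat_lit 0) (nat_lit 3) (nat_lit 230) (nat_lit 349) r10_230 r6_349 (nat_lit 0) (nat_lit 0) (nat_lit 14425314) (nat_lit 0x2071a68774) (nat_lit 2041783962),
  Rx.mk (nat_lit 47) (nat_lit 7) (nat_lit 5) (nat_lit 0) (nat_lit 3) (nat_lit 233) (nat_lit 350) r10_233 r6_350 (nat_lit 0) (nat_lit 0) (nat_lit 12357481) (nat_lit 0x20235d8b76) (nat_lit 2122963579),
  Rx.mk (nat_lit 55) (nat_lit 7) (nat_lit 6) (nat_lit 0) (nat_lit 3) (nat_lit 235) (nat_lit 354) r10_235 r6_354 (nat_lit 0) (nat_lit 0) (nat_lit 13279449) (nat_lit 0x20399c77b2) (nat_lit 2100199847),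
  Rx.mk (nat_lit 99) (nat_lit 3) (nat_lit 4) (nat_lit 1) (nat_lit 5) (nat_lit 226) (nat_lit 346) r10_226 r6_346 (nat_lit 0) (nat_lit 12357481) (nat_lit 0) (nat_lit 0x20235d8b76) (nat_lit 2122963579),
  Rx.mk (nat_lit 103) (nat_lit 7) (nat_lit 4) (nat_lit 1) (nat_lit 5) (nat_lit 229) (nat_lit 347) r10_229 r6_347 (nat_lit 0) (nat_lit 14425314) (nat_lit 0) (nat_lit 0x2071a68774) (nat_lit 2041783962),
  Rx.mk (nat_lit 107) (nat_lit 3) (nat_lit 5) (nat_lit 1) (nat_lit 7) (nat_lit 231) (nat_lit 351) r10_231 r6_351 (nat_lit 0) (nat_lit 0) (nat_lit 0) (nat_lit 0x2026d194a0) (nat_lit 2106955348),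
  Rx.mk (nat_lit 111) (nat_lit 7) (nat_lit 5) (nat_lit 1) (nat_lit 7) (nat_lit 234) (nat_lit 352) r10_234 r6_352 (nat_lit 0) (nat_lit 0) (nat_lit 0) (nat_lit 0x2026d194a0) (nat_lit 2106955348),
  Rx.mk (nat_lit 119) (nat_lit 7) (nat_lit 6) (nat_lit 1) (nat_lit 7) (nat_lit 236) (nat_lit 355) r10_236 r6_355 (nat_lit 0) (nat_lit 0) (nat_lit 0) (nat_lit 0x2026d197b6) (nat_lit 2106955298),
  Rx.mk (nat_lit 163) (nat_lit 3) (nat_lit 4) (nat_lit 2) (nat_lit 5) (nat_lit 227) (nat_lit 348) r10_227 r6_348 (nat_lit 0) (nat_lit 13279449) (nat_lit 0) (nat_lit 0x20399c77b2) (nat_lit 2100199847),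
  Rx.mk (nat_lit 171) (nat_lit 3) (nat_lit 5) (nat_lit 2) (nat_lit 7) (nat_lit 232) (nat_lit 353) r10_232 r6_353 (nat_lit 0) (nat_lit 0) (nat_lit 0) (nat_lit 0x2026d197b6) (nat_lit 2106955298)]
noncomputable def e28_36 : List Rx := [
  Rx.mk (nat_lit 35) (nat_lit 3) (nat_lit 4) (nat_lit 0) (nat_lit 1) (nat_lit 257) (nat_lit 213) r10_257 r12_213 (nat_lit 0) (nat_lit 1464990) (nat_lit 1296586) (nat_lit 0x1d70d23076) (nat_lit 2864251174),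
  Rx.mk (nat_lit 39) (nat_lit 7) (nat_lit 4) (nat_lit 0) (nat_lit 1) (nat_lit 260) (nat_lit 221) r10_260 r12_221 (nat_lit 0) (nat_lit 1296586) (nat_lit 1464990) (nat_lit 0x1d70d23076) (nat_lit 2864251174),
  Rx.mk (nat_lit 43) (nat_lit 3) (nat_lit 5) (nat_lit 0) (nat_lit 3) (nat_lit 263) (nat_lit 216) r10_263 r12_216 (nat_lit 0) (nat_lit 0) (nat_lit 13463419) (nat_lit 0x20b7b8c60a) (nat_lit 1966390417),
  Rx.mk (nat_lit 47) (nat_lit 7) (nat_lit 5) (nat_lit 0) (nat_lit 3) (nat_lit 265) (nat_lit 224) r10_265 r12_224 (nat_lit 0) (nat_lit 0) (nat_lit 11296937) (nat_lit 0x208f406070) (nat_lit 2007236985),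
  Rx.mk (nat_lit 55) (nat_lit 7) (nat_lit 6) (nat_lit 0) (nat_lit 3) (nat_lit 267) (nat_lit 226) r10_267 r12_226 (nat_lit 0) (nat_lit 0) (nat_lit 10460316) (nat_lit 0x2080f5804a) (nat_lit 2021586414),
  Rx.mk (nat_lit 59) (nat_lit 3) (nat_lit 7) (nat_lit 0) (nat_lit 3) (nat_lit 270) (nat_lit 218) r10_270 r12_218 (nat_lit 0) (nat_lit 0) (nat_lit 6540563) (nat_lit 0x1fc295e04a) (nat_lit 2221458261),
  Rx.mk (nat_lit 99) (nat_lit 3) (nat_lit 4) (nat_lit 1) (nat_lit 5) (nat_lit 258) (nat_lit 214) r10_258 r12_214 (nat_lit 0) (nat_lit 11296937) (nat_lit 0) (nat_lit 0x208f406070) (nat_lit 2007236985),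
  Rx.mk (nat_lit 103) (nat_lit 7) (nat_lit 4) (nat_lit 1) (nat_lit 5) (nat_lit 261) (nat_lit 222) r10_261 r12_222 (nat_lit 0) (nat_lit 13463419) (nat_lit 0) (nat_lit 0x20b7b8c60a) (nat_lit 1966390417),
  Rx.mk (nat_lit 119) (nat_lit 7) (nat_lit 6) (nat_lit 1) (nat_lit 7) (nat_lit 268) (nat_lit 227) r10_268 r12_227 (nat_lit 0) (nat_lit 0) (nat_lit 0) (nat_lit 0x2020ac6cf8) (nat_lit 2113514948),
  Rx.mk (nat_lit 123) (nat_lit 3) (nat_lit 7) (nat_lit 1) (nat_lit 7) (nat_lit 271) (nat_lit 219) r10_271 r12_219 (nat_lit 0) (nat_lit 0) (nat_lit 0) (nat_lit 0x2129478ea0) (nat_lit 1832335148),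
  Rx.mk (nat_lit 163) (nat_lit 3) (nat_lit 4) (nat_lit 2) (nat_lit 5) (nat_lit 259) (nat_lit 215) r10_259 r12_215 (nat_lit 0) (nat_lit 10460316) (nat_lit 0) (nat_lit 0x2080f5804a) (nat_lit 2021586414),
  Rx.mk (nat_lit 171) (nat_lit 3) (nat_lit 5) (nat_lit 2) (nat_lit 7) (nat_lit 264) (nat_lit 217) r10_264 r12_217 (nat_lit 0) (nat_lit 0) (nat_lit 0) (nat_lit 0x2020ac6cf8) (nat_lit 2113514948),
  Rx.mk (nat_lit 187) (nat_lit 3) (nat_lit 7) (nat_lit 2) (nat_lit 7) (nat_lit 272) (nat_lit 220) r10_272 r12_220 (nat_lit 0) (nat_lit 0) (nat_lit 0) (nat_lit 0x2129478ea0) (nat_lit 1832335148),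
  Rx.mk (nat_lit 231) (nat_lit 7) (nat_lit 4) (nat_lit 3) (nat_lit 5) (nat_lit 262) (nat_lit 223) r10_262 r12_223 (nat_lit 0) (nat_lit 6540563) (nat_lit 0) (nat_lit 0x1fc295e04a) (nat_lit 2221458261),
  Rx.mk (nat_lit 239) (nat_lit 7) (nat_lit 5) (nat_lit 3) (nat_lit 7) (nat_lit 266) (nat_lit 225) r10_266 r12_225 (nat_lit 0) (nat_lit 0) (nat_lit 0) (nat_lit 0x2129478ea0) (nat_lit 1832335148),
  Rx.mk (nat_lit 247) (nat_lit 7) (nat_lit 6) (nat_lit 3) (nat_lit 7) (nat_lit 269) (nat_lit 228) r10_269 r12_228 (nat_lit 0) (nat_lit 0) (nat_lit 0) (nat_lit 0x2129478ea0) (nat_lit 1832335148)]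
noncomputable def e28_37 : List Rx := [
  Rx.mk (nat_lit 40) (nat_lit 0) (nat_lit 5) (nat_lit 0) (nat_lit 2) (nat_lit 281) (nat_lit 195) r10_281 r0_195 (nat_lit 2403529) (nat_lit 0) (nat_lit 730716) (nat_lit 0x177a59ac38) (nat_lit 4527539093),
  Rx.mk (nat_lit 104) (nat_lit 0) (nat_lit 5) (nat_lit 1) (nat_lit 6) (nat_lit 282) (nat_lit 196) r10_282 r0_196 (nat_lit 11731241) (nat_lit 0) (nat_lit 0) (nat_lit 0x1bb23ede62) (nat_lit 3359930739),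
  Rx.mk (nat_lit 136) (nat_lit 0) (nat_lit 1) (nat_lit 2) (nat_lit 6) (nat_lit 279) (nat_lit 198) r10_279 r0_198 (nat_lit 1104418901) (nat_lit 0) (nat_lit 0) (nat_lit 0x22cccfca64) (nat_lit 2490955749),
  Rx.mk (nat_lit 139) (nat_lit 3) (nat_lit 1) (nat_lit 2) (nat_lit 7) (nat_lit 280) (nat_lit 199) r10_280 r0_199 (nat_lit 0) (nat_lit 0) (nat_lit 0) (nat_lit 0x2025e3696a) (nat_lit 2107940098),
  Rx.mk (nat_lit 168) (nat_lit 0) (nat_lit 5) (nat_lit 2) (nat_lit 6) (nat_lit 283) (nat_lit 197) r10_283 r0_197 (nat_lit 1273131673) (nat_lit 0) (nat_lit 0) (nat_lit 0x202b13f47c) (nat_lit 3375334421)]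
noncomputable def e28_38 : List Rx := [
  Rx.mk (nat_lit 40) (nat_lit 0) (nat_lit 5) (nat_lit 0) (nat_lit 2) (nat_lit 273) (nat_lit 322) r10_273 r0_322 (nat_lit 16668154) (nat_lit 0) (nat_lit 24139993) (nat_lit 0x1b131f8a52) (nat_lit 3562337045),
  Rx.mk (nat_lit 41) (nat_lit 1) (nat_lit 5) (nat_lit 0) (nat_lit 3) (nat_lit 276) (nat_lit 323) r10_276 r0_323 (nat_lit 0) (nat_lit 0) (nat_lit 39016835) (nat_lit 0x1f8fadf186) (nat_lit 2309434733),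
  Rx.mk (nat_lit 104) (nat_lit 0) (nat_lit 5) (nat_lit 1) (nat_lit 6) (nat_lit 274) (nat_lit 324) r10_274 r0_324 (nat_lit 51564713) (nat_lit 0) (nat_lit 0) (nat_lit 0x1f10506252) (nat_lit 2460712311),
  Rx.mk (nat_lit 105) (nat_lit 1) (nat_lit 5) (nat_lit 1) (nat_lit 7) (nat_lit 277) (nat_lit 325) r10_277 r0_325 (nat_lit 0) (nat_lit 0) (nat_lit 0) (nat_lit 0x200c3bcfac) (nat_lit 2135358348),
  Rx.mk (nat_lit 168) (nat_lit 0) (nat_lit 5) (nat_lit 2) (nat_lit 6) (nat_lit 275) (nat_lit 326) r10_275 r0_326 (nat_lit 60597054) (nat_lit 0) (nat_lit 0) (nat_lit 0x1fb52cdd1e) (nat_lit 2290221952),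
  Rx.mk (nat_lit 169) (nat_lit 1) (nat_lit 5) (nat_lit 2) (nat_lit 7) (nat_lit 278) (nat_lit 327) r10_278 r0_327 (nat_lit 0) (nat_lit 0) (nat_lit 0) (nat_lit 0x2000efab8c) (nat_lit 2147483648)]
noncomputable def e28_39 : List Rx := [
  Rx.mk (nat_lit 40) (nat_lit 0) (nat_lit 5) (nat_lit 0) (nat_lit 2) (nat_lit 286) (nat_lit 255) r10_286 r7_255 (nat_lit 12079934) (nat_lit 0) (nat_lit 4952524) (nat_lit 0x1c6682ce4c) (nat_lit 3168808706),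
  Rx.mk (nat_lit 41) (nat_lit 1) (nat_lit 5) (nat_lit 0) (nat_lit 3) (nat_lit 289) (nat_lit 259) r10_289 r7_259 (nat_lit 0) (nat_lit 0) (nat_lit 13452800) (nat_lit 0x1f8278d88c) (nat_lit 2298221048),
  Rx.mk (nat_lit 104) (nat_lit 0) (nat_lit 5) (nat_lit 1) (nat_lit 6) (nat_lit 287) (nat_lit 256) r10_287 r7_256 (nat_lit 13707378) (nat_lit 0) (nat_lit 0) (nat_lit 0x200280ed94) (nat_lit 2159443526),
  Rx.mk (nat_lit 105) (nat_lit 1) (nat_lit 5) (nat_lit 1) (nat_lit 7) (nat_lit 290) (nat_lit 260) r10_290 r7_260 (nat_lit 0) (nat_lit 0) (nat_lit 0) (nat_lit 0x201a60a472) (nat_lit 2120226698),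
  Rx.mk (nat_lit 136) (nat_lit 0) (nat_lit 1) (nat_lit 2) (nat_lit 6) (nat_lit 284) (nat_lit 258) r10_284 r7_258 (nat_lit 53854856) (nat_lit 0) (nat_lit 0) (nat_lit 0x1ff6037a00) (nat_lit 2213104004),
  Rx.mk (nat_lit 137) (nat_lit 1) (nat_lit 1) (nat_lit 2) (nat_lit 7) (nat_lit 285) (nat_lit 262) r10_285 r7_262 (nat_lit 0) (nat_lit 0) (nat_lit 0) (nat_lit 0x2000efab8c) (nat_lit 2147483648),
  Rx.mk (nat_lit 168) (nat_lit 0) (nat_lit 5) (nat_lit 2) (nat_lit 6) (nat_lit 288) (nat_lit 257) r10_288 r7_257 (nat_lit 30193305) (nat_lit 0) (nat_lit 0) (nat_lit 0x1ff5267ed4) (nat_lit 2190327253),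
  Rx.mk (nat_lit 169) (nat_lit 1) (nat_lit 5) (nat_lit 2) (nat_lit 7) (nat_lit 291) (nat_lit 261) r10_291 r7_261 (nat_lit 0) (nat_lit 0) (nat_lit 0) (nat_lit 0x201a60a472) (nat_lit 2120226698)]
noncomputable def e28_40 : List Rx := [
  Rx.mk (nat_lit 105) (nat_lit 1) (nat_lit 5) (nat_lit 1) (nat_lit 7) (nat_lit 323) (nat_lit 354) r10_323 r2_354 (nat_lit 0) (nat_lit 0) (nat_lit 0) (nat_lit 0x2000efab8c) (nat_lit 2147483648),
  Rx.mk (nat_lit 109) (nat_lit 5) (nat_lit 5) (nat_lit 1) (nat_lit 7) (nat_lit 324) (nat_lit 355) r10_324 r2_355 (nat_lit 0) (nat_lit 0) (nat_lit 0) (nat_lit 0x2000efab8c) (nat_lit 2147483648)]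
noncomputable def e28_41 : List Rx := [
  Rx.mk (nat_lit 105) (nat_lit 1) (nat_lit 5) (nat_lit 1) (nat_lit 7) (nat_lit 329) (nat_lit 317) r10_329 r9_317 (nat_lit 0) (nat_lit 0) (nat_lit 0) (nat_lit 0x2000efab8c) (nat_lit 2147483648),
  Rx.mk (nat_lit 109) (nat_lit 5) (nat_lit 5) (nat_lit 1) (nat_lit 7) (nat_lit 330) (nat_lit 318) r10_330 r9_318 (nat_lit 0) (nat_lit 0) (nat_lit 0) (nat_lit 0x2000efab8c) (nat_lit 2147483648)]
noncomputable def e28_42 : List Rx := [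
  Rx.mk (nat_lit 105) (nat_lit 1) (nat_lit 5) (nat_lit 1) (nat_lit 7) (nat_lit 331) (nat_lit 318) r10_331 r9_318 (nat_lit 0) (nat_lit 0) (nat_lit 0) (nat_lit 0x2000efab8c) (nat_lit 2147483648),
  Rx.mk (nat_lit 109) (nat_lit 5) (nat_lit 5) (nat_lit 1) (nat_lit 7) (nat_lit 332) (nat_lit 317) r10_332 r9_317 (nat_lit 0) (nat_lit 0) (nat_lit 0) (nat_lit 0x2000efab8c) (nat_lit 2147483648)]
noncomputable def e28_43 : List Rx := [
  Rx.mk (nat_lit 41) (nat_lit 1) (nat_lit 5) (nat_lit 0) (nat_lit 3) (nat_lit 320) (nat_lit 307) r10_320 r1_307 (nat_lit 0) (nat_lit 0) (nat_lit 48257598) (nat_lit 0x1ea8ca7514) (nat_lit 2570159146),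
  Rx.mk (nat_lit 105) (nat_lit 1) (nat_lit 5) (nat_lit 1) (nat_lit 7) (nat_lit 321) (nat_lit 308) r10_321 r1_308 (nat_lit 0) (nat_lit 0) (nat_lit 0) (nat_lit 0x2000efab8c) (nat_lit 2147483648),
  Rx.mk (nat_lit 169) (nat_lit 1) (nat_lit 5) (nat_lit 2) (nat_lit 7) (nat_lit 322) (nat_lit 309) r10_322 r1_309 (nat_lit 0) (nat_lit 0) (nat_lit 0) (nat_lit 0x2000efab8c) (nat_lit 2147483648)]
noncomputable def e28_44 : List Rx := [
  Rx.mk (nat_lit 41) (nat_lit 1) (nat_lit 5) (nat_lit 0) (nat_lit 3) (nat_lit 326) (nat_lit 194) r10_326 r8_194 (nat_lit 0) (nat_lit 0) (nat_lit 39267561) (nat_lit 0x2000efab8c) (nat_lit 2186751209),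
  Rx.mk (nat_lit 105) (nat_lit 1) (nat_lit 5) (nat_lit 1) (nat_lit 7) (nat_lit 327) (nat_lit 195) r10_327 r8_195 (nat_lit 0) (nat_lit 0) (nat_lit 0) (nat_lit 0x2000efab8c) (nat_lit 2147483648),
  Rx.mk (nat_lit 137) (nat_lit 1) (nat_lit 1) (nat_lit 2) (nat_lit 7) (nat_lit 325) (nat_lit 197) r10_325 r8_197 (nat_lit 0) (nat_lit 0) (nat_lit 0) (nat_lit 0x2000efab8c) (nat_lit 2147483648),
  Rx.mk (nat_lit 169) (nat_lit 1) (nat_lit 5) (nat_lit 2) (nat_lit 7) (nat_lit 328) (nat_lit 196) r10_328 r8_196 (nat_lit 0) (nat_lit 0) (nat_lit 0) (nat_lit 0x2000efab8c) (nat_lit 2147483648)]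
noncomputable def e28_45 : List Rx := [
  Rx.mk (nat_lit 136) (nat_lit 0) (nat_lit 1) (nat_lit 2) (nat_lit 6) (nat_lit 314) (nat_lit 217) r10_314 r1_217 (nat_lit 536446809) (nat_lit 0) (nat_lit 0) (nat_lit 0x22133fcd38) (nat_lit 2120293857),
  Rx.mk (nat_lit 138) (nat_lit 2) (nat_lit 1) (nat_lit 2) (nat_lit 7) (nat_lit 315) (nat_lit 219) r10_315 r1_219 (nat_lit 0) (nat_lit 0) (nat_lit 0) (nat_lit 0x200d111d9c) (nat_lit 2134433948),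
  Rx.mk (nat_lit 139) (nat_lit 3) (nat_lit 1) (nat_lit 2) (nat_lit 7) (nat_lit 316) (nat_lit 218) r10_316 r1_218 (nat_lit 0) (nat_lit 0) (nat_lit 0) (nat_lit 0x200c338784) (nat_lit 2135391848)]
noncomputable def e28_46 : List Rx := [
  Rx.mk (nat_lit 128) (nat_lit 0) (nat_lit 0) (nat_lit 2) (nat_lit 4) (nat_lit 292) (nat_lit 230) r10_292 r2_230 (nat_lit 17534844) (nat_lit 12629514) (nat_lit 0) (nat_lit 0x1cb4ee9bf6) (nat_lit 3096561456),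
  Rx.mk (nat_lit 130) (nat_lit 2) (nat_lit 0) (nat_lit 2) (nat_lit 5) (nat_lit 293) (nat_lit 235) r10_293 r2_235 (nat_lit 0) (nat_lit 39267561) (nat_lit 0) (nat_lit 0x2000efab8c) (nat_lit 2186751209),
  Rx.mk (nat_lit 131) (nat_lit 3) (nat_lit 0) (nat_lit 2) (nat_lit 5) (nat_lit 294) (nat_lit 232) r10_294 r2_232 (nat_lit 0) (nat_lit 14179347) (nat_lit 0) (nat_lit 0x204bfb978a) (nat_lit 2081570445),
  Rx.mk (nat_lit 136) (nat_lit 0) (nat_lit 1) (nat_lit 2) (nat_lit 6) (nat_lit 295) (nat_lit 231) r10_295 r2_231 (nat_lit 39267561) (nat_lit 0) (nat_lit 0) (nat_lit 0x2000efab8c) (nat_lit 2186751209),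
  Rx.mk (nat_lit 138) (nat_lit 2) (nat_lit 1) (nat_lit 2) (nat_lit 7) (nat_lit 296) (nat_lit 236) r10_296 r2_236 (nat_lit 0) (nat_lit 0) (nat_lit 0) (nat_lit 0x2000efab8c) (nat_lit 2147483648),
  Rx.mk (nat_lit 139) (nat_lit 3) (nat_lit 1) (nat_lit 2) (nat_lit 7) (nat_lit 297) (nat_lit 233) r10_297 r2_233 (nat_lit 0) (nat_lit 0) (nat_lit 0) (nat_lit 0x2000efab8c) (nat_lit 2147483648),
  Rx.mk (nat_lit 155) (nat_lit 3) (nat_lit 3) (nat_lit 2) (nat_lit 7) (nat_lit 298) (nat_lit 234) r10_298 r2_234 (nat_lit 0) (nat_lit 0) (nat_lit 0) (nat_lit 0x2000efab8c) (nat_lit 2147483648)]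
noncomputable def e28_47 : List Rx := [
  Rx.mk (nat_lit 136) (nat_lit 0) (nat_lit 1) (nat_lit 2) (nat_lit 6) (nat_lit 317) (nat_lit 355) r10_317 r8_355 (nat_lit 39267561) (nat_lit 0) (nat_lit 0) (nat_lit 0x2000efab8c) (nat_lit 2186751209),
  Rx.mk (nat_lit 137) (nat_lit 1) (nat_lit 1) (nat_lit 2) (nat_lit 7) (nat_lit 318) (nat_lit 356) r10_318 r8_356 (nat_lit 0) (nat_lit 0) (nat_lit 0) (nat_lit 0x2000efab8c) (nat_lit 2147483648),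
  Rx.mk (nat_lit 138) (nat_lit 2) (nat_lit 1) (nat_lit 2) (nat_lit 7) (nat_lit 319) (nat_lit 357) r10_319 r8_357 (nat_lit 0) (nat_lit 0) (nat_lit 0) (nat_lit 0x2000efab8c) (nat_lit 2147483648)]
noncomputable def e28_48 : List Rx := [
  Rx.mk (nat_lit 128) (nat_lit 0) (nat_lit 0) (nat_lit 2) (nat_lit 4) (nat_lit 299) (nat_lit 209) r10_299 r9_209 (nat_lit 124799571) (nat_lit 66040820) (nat_lit 0) (nat_lit 0x1cea04ca4a) (nat_lit 3199469589),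
  Rx.mk (nat_lit 130) (nat_lit 2) (nat_lit 0) (nat_lit 2) (nat_lit 5) (nat_lit 300) (nat_lit 212) r10_300 r9_212 (nat_lit 0) (nat_lit 39267561) (nat_lit 0) (nat_lit 0x2000efab8c) (nat_lit 2186751209),
  Rx.mk (nat_lit 136) (nat_lit 0) (nat_lit 1) (nat_lit 2) (nat_lit 6) (nat_lit 301) (nat_lit 210) r10_301 r9_210 (nat_lit 39267561) (nat_lit 0) (nat_lit 0) (nat_lit 0x2000efab8c) (nat_lit 2186751209),
  Rx.mk (nat_lit 137) (nat_lit 1) (nat_lit 1) (nat_lit 2) (nat_lit 7) (nat_lit 302) (nat_lit 211) r10_302 r9_211 (nat_lit 0) (nat_lit 0) (nat_lit 0) (nat_lit 0x2000efab8c) (nat_lit 2147483648),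
  Rx.mk (nat_lit 138) (nat_lit 2) (nat_lit 1) (nat_lit 2) (nat_lit 7) (nat_lit 303) (nat_lit 213) r10_303 r9_213 (nat_lit 0) (nat_lit 0) (nat_lit 0) (nat_lit 0x2000efab8c) (nat_lit 2147483648)]
noncomputable def e28_49 : List Rx := [
  Rx.mk (nat_lit 128) (nat_lit 0) (nat_lit 0) (nat_lit 2) (nat_lit 4) (nat_lit 304) (nat_lit 136) r10_304 r9_136 (nat_lit 64597608) (nat_lit 43111231) (nat_lit 0) (nat_lit 0x1b12265162) (nat_lit 3630406237),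
  Rx.mk (nat_lit 130) (nat_lit 2) (nat_lit 0) (nat_lit 2) (nat_lit 5) (nat_lit 305) (nat_lit 141) r10_305 r9_141 (nat_lit 0) (nat_lit 39267561) (nat_lit 0) (nat_lit 0x2000efab8c) (nat_lit 2186751209),
  Rx.mk (nat_lit 131) (nat_lit 3) (nat_lit 0) (nat_lit 2) (nat_lit 5) (nat_lit 307) (nat_lit 138) r10_307 r9_138 (nat_lit 0) (nat_lit 39267561) (nat_lit 0) (nat_lit 0x2000efab8c) (nat_lit 2186751209),
  Rx.mk (nat_lit 136) (nat_lit 0) (nat_lit 1) (nat_lit 2) (nat_lit 6) (nat_lit 308) (nat_lit 137) r10_308 r9_137 (nat_lit 39267561) (nat_lit 0) (nat_lit 0) (nat_lit 0x2000efab8c) (nat_lit 2186751209),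
  Rx.mk (nat_lit 138) (nat_lit 2) (nat_lit 1) (nat_lit 2) (nat_lit 7) (nat_lit 309) (nat_lit 142) r10_309 r9_142 (nat_lit 0) (nat_lit 0) (nat_lit 0) (nat_lit 0x2000efab8c) (nat_lit 2147483648),
  Rx.mk (nat_lit 139) (nat_lit 3) (nat_lit 1) (nat_lit 2) (nat_lit 7) (nat_lit 311) (nat_lit 139) r10_311 r9_139 (nat_lit 0) (nat_lit 0) (nat_lit 0) (nat_lit 0x2000efab8c) (nat_lit 2147483648),
  Rx.mk (nat_lit 155) (nat_lit 3) (nat_lit 3) (nat_lit 2) (nat_lit 7) (nat_lit 313) (nat_lit 140) r10_313 r9_140 (nat_lit 0) (nat_lit 0) (nat_lit 0) (nat_lit 0x2000efab8c) (nat_lit 2147483648),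
  Rx.mk (nat_lit 386) (nat_lit 2) (nat_lit 0) (nat_lit 6) (nat_lit 5) (nat_lit 306) (nat_lit 143) r10_306 r9_143 (nat_lit 0) (nat_lit 39267561) (nat_lit 0) (nat_lit 0x2000efab8c) (nat_lit 2186751209),
  Rx.mk (nat_lit 394) (nat_lit 2) (nat_lit 1) (nat_lit 6) (nat_lit 7) (nat_lit 310) (nat_lit 144) r10_310 r9_144 (nat_lit 0) (nat_lit 0) (nat_lit 0) (nat_lit 0x2000efab8c) (nat_lit 2147483648),
  Rx.mk (nat_lit 402) (nat_lit 2) (nat_lit 2) (nat_lit 6) (nat_lit 7) (nat_lit 312) (nat_lit 145) r10_312 r9_145 (nat_lit 0) (nat_lit 0) (nat_lit 0) (nat_lit 0x2000efab8c) (nat_lit 2147483648)]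
noncomputable def e28_50 : List Rx := [
  Rx.mk (nat_lit 40) (nat_lit 0) (nat_lit 5) (nat_lit 0) (nat_lit 2) (nat_lit 333) (nat_lit 180) r10_333 r3_180 (nat_lit 79251) (nat_lit 0) (nat_lit 96800) (nat_lit 0x1abfa3f372) (nat_lit 3612266449),
  Rx.mk (nat_lit 43) (nat_lit 3) (nat_lit 5) (nat_lit 0) (nat_lit 3) (nat_lit 336) (nat_lit 183) r10_336 r3_183 (nat_lit 0) (nat_lit 0) (nat_lit 455029) (nat_lit 0x21463c84de) (nat_lit 1801630727),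
  Rx.mk (nat_lit 104) (nat_lit 0) (nat_lit 5) (nat_lit 1) (nat_lit 6) (nat_lit 334) (nat_lit 181) r10_334 r3_181 (nat_lit 82274493) (nat_lit 0) (nat_lit 0) (nat_lit 0x1ebcaa45c8) (nat_lit 2582550141),
  Rx.mk (nat_lit 107) (nat_lit 3) (nat_lit 5) (nat_lit 1) (nat_lit 7) (nat_lit 337) (nat_lit 184) r10_337 r3_184 (nat_lit 0) (nat_lit 0) (nat_lit 0) (nat_lit 0x22e01b6f88) (nat_lit 1366356048),
  Rx.mk (nat_lit 168) (nat_lit 0) (nat_lit 5) (nat_lit 2) (nat_lit 6) (nat_lit 335) (nat_lit 182) r10_335 r3_182 (nat_lit 309040456) (nat_lit 0) (nat_lit 0) (nat_lit 0x1fb366aaa0) (nat_lit 2540566204),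
  Rx.mk (nat_lit 171) (nat_lit 3) (nat_lit 5) (nat_lit 2) (nat_lit 7) (nat_lit 338) (nat_lit 185) r10_338 r3_185 (nat_lit 0) (nat_lit 0) (nat_lit 0) (nat_lit 0x22e01b729e) (nat_lit 1366355998)]
noncomputable def e28_51 : List Rx := [
  Rx.mk (nat_lit 40) (nat_lit 0) (nat_lit 5) (nat_lit 0) (nat_lit 2) (nat_lit 351) (nat_lit 181) r10_351 r4_181 (nat_lit 26843108) (nat_lit 0) (nat_lit 5054852) (nat_lit 0x18f28ef14e) (nat_lit 4146671158),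
  Rx.mk (nat_lit 43) (nat_lit 3) (nat_lit 5) (nat_lit 0) (nat_lit 3) (nat_lit 354) (nat_lit 184) r10_354 r4_184 (nat_lit 0) (nat_lit 0) (nat_lit 9595899) (nat_lit 0x1f96b45fe2) (nat_lit 2272287897),
  Rx.mk (nat_lit 104) (nat_lit 0) (nat_lit 5) (nat_lit 1) (nat_lit 6) (nat_lit 352) (nat_lit 182) r10_352 r4_182 (nat_lit 30411061) (nat_lit 0) (nat_lit 0) (nat_lit 0x2018283756) (nat_lit 2152991859),
  Rx.mk (nat_lit 107) (nat_lit 3) (nat_lit 5) (nat_lit 1) (nat_lit 7) (nat_lit 355) (nat_lit 185) r10_355 r4_185 (nat_lit 0) (nat_lit 0) (nat_lit 0) (nat_lit 0x2050e8c056) (nat_lit 2062160898),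
  Rx.mk (nat_lit 139) (nat_lit 3) (nat_lit 1) (nat_lit 2) (nat_lit 7) (nat_lit 350) (nat_lit 187) r10_350 r4_187 (nat_lit 0) (nat_lit 0) (nat_lit 0) (nat_lit 0x201efa33cc) (nat_lit 2115312248),
  Rx.mk (nat_lit 168) (nat_lit 0) (nat_lit 5) (nat_lit 2) (nat_lit 6) (nat_lit 353) (nat_lit 183) r10_353 r4_183 (nat_lit 57357888) (nat_lit 0) (nat_lit 0) (nat_lit 0x1fde8aa7a4) (nat_lit 2241982036),
  Rx.mk (nat_lit 171) (nat_lit 3) (nat_lit 5) (nat_lit 2) (nat_lit 7) (nat_lit 356) (nat_lit 186) r10_356 r4_186 (nat_lit 0) (nat_lit 0) (nat_lit 0) (nat_lit 0x2034786cb4) (nat_lit 2092394748)]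
noncomputable def e28_52 : List Rx := [
  Rx.mk (nat_lit 40) (nat_lit 0) (nat_lit 5) (nat_lit 0) (nat_lit 2) (nat_lit 369) (nat_lit 197) r10_369 r5_197 (nat_lit 136738429) (nat_lit 0) (nat_lit 10259918) (nat_lit 0x1d71611b1a) (nat_lit 3008143345),
  Rx.mk (nat_lit 43) (nat_lit 3) (nat_lit 5) (nat_lit 0) (nat_lit 3) (nat_lit 371) (nat_lit 199) r10_371 r5_199 (nat_lit 0) (nat_lit 0) (nat_lit 10039542) (nat_lit 0x20f383a2ae) (nat_lit 1899447140),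
  Rx.mk (nat_lit 168) (nat_lit 0) (nat_lit 5) (nat_lit 2) (nat_lit 6) (nat_lit 370) (nat_lit 198) r10_370 r5_198 (nat_lit 39267561) (nat_lit 0) (nat_lit 0) (nat_lit 0x1ffa141726) (nat_lit 2194133459),
  Rx.mk (nat_lit 171) (nat_lit 3) (nat_lit 5) (nat_lit 2) (nat_lit 7) (nat_lit 372) (nat_lit 201) r10_372 r5_201 (nat_lit 0) (nat_lit 0) (nat_lit 0) (nat_lit 0x20355ed604) (nat_lit 2091448048),
  Rx.mk (nat_lit 235) (nat_lit 3) (nat_lit 5) (nat_lit 3) (nat_lit 7) (nat_lit 373) (nat_lit 200) r10_373 r5_200 (nat_lit 0) (nat_lit 0) (nat_lit 0) (nat_lit 0x2000efab8c) (nat_lit 2147483648)]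
noncomputable def e28_53 : List Rx := [
  Rx.mk (nat_lit 40) (nat_lit 0) (nat_lit 5) (nat_lit 0) (nat_lit 2) (nat_lit 339) (nat_lit 355) r10_339 r4_355 (nat_lit 60699131) (nat_lit 0) (nat_lit 50926157) (nat_lit 0x1d23403a24) (nat_lit 3057896636),
  Rx.mk (nat_lit 41) (nat_lit 1) (nat_lit 5) (nat_lit 0) (nat_lit 3) (nat_lit 342) (nat_lit 356) r10_342 r4_356 (nat_lit 0) (nat_lit 0) (nat_lit 39267561) (nat_lit 0x2000efab8c) (nat_lit 2186751209),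
  Rx.mk (nat_lit 43) (nat_lit 3) (nat_lit 5) (nat_lit 0) (nat_lit 3) (nat_lit 345) (nat_lit 357) r10_345 r4_357 (nat_lit 0) (nat_lit 0) (nat_lit 31280084) (nat_lit 0x2007bee5ea) (nat_lit 2171438082),
  Rx.mk (nat_lit 104) (nat_lit 0) (nat_lit 5) (nat_lit 1) (nat_lit 6) (nat_lit 340) (nat_lit 358) r10_340 r4_358 (nat_lit 30231688) (nat_lit 0) (nat_lit 0) (nat_lit 0x200f145992) (nat_lit 2162546986),
  Rx.mk (nat_lit 105) (nat_lit 1) (nat_lit 5) (nat_lit 1) (nat_lit 7) (nat_lit 343) (nat_lit 359) r10_343 r4_359 (nat_lit 0) (nat_lit 0) (nat_lit 0) (nat_lit 0x2000efab8c) (nat_lit 2147483648),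
  Rx.mk (nat_lit 107) (nat_lit 3) (nat_lit 5) (nat_lit 1) (nat_lit 7) (nat_lit 346) (nat_lit 360) r10_346 r4_360 (nat_lit 0) (nat_lit 0) (nat_lit 0) (nat_lit 0x2000efab8c) (nat_lit 2147483648),
  Rx.mk (nat_lit 168) (nat_lit 0) (nat_lit 5) (nat_lit 2) (nat_lit 6) (nat_lit 341) (nat_lit 361) r10_341 r4_361 (nat_lit 39267561) (nat_lit 0) (nat_lit 0) (nat_lit 0x2012dc8c48) (nat_lit 2167524809),
  Rx.mk (nat_lit 169) (nat_lit 1) (nat_lit 5) (nat_lit 2) (nat_lit 7) (nat_lit 344) (nat_lit 362) r10_344 r4_362 (nat_lit 0) (nat_lit 0) (nat_lit 0) (nat_lit 0x2000efab8c) (nat_lit 2147483648)]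
noncomputable def e28_54 : List Rx := [
  Rx.mk (nat_lit 40) (nat_lit 0) (nat_lit 5) (nat_lit 0) (nat_lit 2) (nat_lit 357) (nat_lit 198) r10_357 r10_198 (nat_lit 27662216) (nat_lit 0) (nat_lit 27662216) (nat_lit 0x1d2713b6da) (nat_lit 2997443430),
  Rx.mk (nat_lit 41) (nat_lit 1) (nat_lit 5) (nat_lit 0) (nat_lit 3) (nat_lit 360) (nat_lit 201) r10_360 r10_201 (nat_lit 0) (nat_lit 0) (nat_lit 39267561) (nat_lit 0x2000efab8c) (nat_lit 2186751209),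
  Rx.mk (nat_lit 43) (nat_lit 3) (nat_lit 5) (nat_lit 0) (nat_lit 3) (nat_lit 363) (nat_lit 204) r10_363 r10_204 (nat_lit 0) (nat_lit 0) (nat_lit 54227519) (nat_lit 0x1ff5d945fa) (nat_lit 2213654817),
  Rx.mk (nat_lit 104) (nat_lit 0) (nat_lit 5) (nat_lit 1) (nat_lit 6) (nat_lit 358) (nat_lit 199) r10_358 r10_199 (nat_lit 39267561) (nat_lit 0) (nat_lit 0) (nat_lit 0x2000efab8c) (nat_lit 2186751209),
  Rx.mk (nat_lit 105) (nat_lit 1) (nat_lit 5) (nat_lit 1) (nat_lit 7) (nat_lit 361) (nat_lit 202) r10_361 r10_202 (nat_lit 0) (nat_lit 0) (nat_lit 0) (nat_lit 0x2000efab8c) (nat_lit 2147483648),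
  Rx.mk (nat_lit 107) (nat_lit 3) (nat_lit 5) (nat_lit 1) (nat_lit 7) (nat_lit 364) (nat_lit 205) r10_364 r10_205 (nat_lit 0) (nat_lit 0) (nat_lit 0) (nat_lit 0x2000efab8c) (nat_lit 2147483648),
  Rx.mk (nat_lit 168) (nat_lit 0) (nat_lit 5) (nat_lit 2) (nat_lit 6) (nat_lit 359) (nat_lit 200) r10_359 r10_200 (nat_lit 54227519) (nat_lit 0) (nat_lit 0) (nat_lit 0x1ff5d945fa) (nat_lit 2213654817),
  Rx.mk (nat_lit 169) (nat_lit 1) (nat_lit 5) (nat_lit 2) (nat_lit 7) (nat_lit 362) (nat_lit 203) r10_362 r10_203 (nat_lit 0) (nat_lit 0) (nat_lit 0) (nat_lit 0x2000efab8c) (nat_lit 2147483648)]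
noncomputable def e28_55 : List Rx := [
  Rx.mk (nat_lit 40) (nat_lit 0) (nat_lit 5) (nat_lit 0) (nat_lit 2) (nat_lit 374) (nat_lit 230) r10_374 r11_230 (nat_lit 446566349) (nat_lit 0) (nat_lit 35486126) (nat_lit 0x1f60266dbc) (nat_lit 2804254423),
  Rx.mk (nat_lit 41) (nat_lit 1) (nat_lit 5) (nat_lit 0) (nat_lit 3) (nat_lit 376) (nat_lit 232) r10_376 r11_232 (nat_lit 0) (nat_lit 0) (nat_lit 39267561) (nat_lit 0x2000efab8c) (nat_lit 2186751209),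
  Rx.mk (nat_lit 43) (nat_lit 3) (nat_lit 5) (nat_lit 0) (nat_lit 3) (nat_lit 378) (nat_lit 234) r10_378 r11_234 (nat_lit 0) (nat_lit 0) (nat_lit 39267561) (nat_lit 0x2000efab8c) (nat_lit 2186751209),
  Rx.mk (nat_lit 168) (nat_lit 0) (nat_lit 5) (nat_lit 2) (nat_lit 6) (nat_lit 375) (nat_lit 231) r10_375 r11_231 (nat_lit 39267561) (nat_lit 0) (nat_lit 0) (nat_lit 0x2007d14906) (nat_lit 2179358459),
  Rx.mk (nat_lit 169) (nat_lit 1) (nat_lit 5) (nat_lit 2) (nat_lit 7) (nat_lit 377) (nat_lit 233) r10_377 r11_233 (nat_lit 0) (nat_lit 0) (nat_lit 0) (nat_lit 0x2000efab8c) (nat_lit 2147483648),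
  Rx.mk (nat_lit 235) (nat_lit 3) (nat_lit 5) (nat_lit 3) (nat_lit 7) (nat_lit 379) (nat_lit 235) r10_379 r11_235 (nat_lit 0) (nat_lit 0) (nat_lit 0) (nat_lit 0x2000efab8c) (nat_lit 2147483648)]
noncomputable def e28_56 : List Rx := [
  Rx.mk (nat_lit 43) (nat_lit 3) (nat_lit 5) (nat_lit 0) (nat_lit 3) (nat_lit 347) (nat_lit 307) r10_347 r5_307 (nat_lit 0) (nat_lit 0) (nat_lit 16325209) (nat_lit 0x1fe8004b2c) (nat_lit 2190656757),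
  Rx.mk (nat_lit 107) (nat_lit 3) (nat_lit 5) (nat_lit 1) (nat_lit 7) (nat_lit 348) (nat_lit 308) r10_348 r5_308 (nat_lit 0) (nat_lit 0) (nat_lit 0) (nat_lit 0x20256af926) (nat_lit 2108470798),
  Rx.mk (nat_lit 171) (nat_lit 3) (nat_lit 5) (nat_lit 2) (nat_lit 7) (nat_lit 349) (nat_lit 309) r10_349 r5_309 (nat_lit 0) (nat_lit 0) (nat_lit 0) (nat_lit 0x20256b14d8) (nat_lit 2108470348)]
noncomputable def e28_57 : List Rx := [
  Rx.mk (nat_lit 43) (nat_lit 3) (nat_lit 5) (nat_lit 0) (nat_lit 3) (nat_lit 366) (nat_lit 361) r10_366 r11_361 (nat_lit 0) (nat_lit 0) (nat_lit 13701641) (nat_lit 0x20754cc97e) (nat_lit 2037173539),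
  Rx.mk (nat_lit 107) (nat_lit 3) (nat_lit 5) (nat_lit 1) (nat_lit 7) (nat_lit 367) (nat_lit 362) r10_367 r11_362 (nat_lit 0) (nat_lit 0) (nat_lit 0) (nat_lit 0x20522be844) (nat_lit 2060817048),
  Rx.mk (nat_lit 139) (nat_lit 3) (nat_lit 1) (nat_lit 2) (nat_lit 7) (nat_lit 365) (nat_lit 360) r10_365 r11_360 (nat_lit 0) (nat_lit 0) (nat_lit 0) (nat_lit 0x2000efab8c) (nat_lit 2147483648),
  Rx.mk (nat_lit 171) (nat_lit 3) (nat_lit 5) (nat_lit 2) (nat_lit 7) (nat_lit 368) (nat_lit 363) r10_368 r11_363 (nat_lit 0) (nat_lit 0) (nat_lit 0) (nat_lit 0x20522be844) (nat_lit 2060817048)]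
noncomputable def e28 : List (List Rx) := [e28_0, e28_1, e28_2, e28_3, e28_4, e28_5, e28_6, e28_7, e28_8, e28_9, e28_10, e28_11, e28_12, e28_13, e28_14, e28_15, e28_16, e28_17, e28_18, e28_19, e28_20, e28_21, e28_22, e28_23, e28_24, e28_25, e28_26, e28_27, e28_28, e28_29, e28_30, e28_31, e28_32, e28_33, e28_34, e28_35, e28_36, e28_37, e28_38, e28_39, e28_40, e28_41, e28_42, e28_43, e28_44, e28_45, e28_46, e28_47, e28_48, e28_49, e28_50, e28_51, e28_52, e28_53, e28_54, e28_55, e28_56, e28_57]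

end Pool.Agent.AKXS_42_46_VA
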