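import Pool.Agent.AKXS_42_46_VA.R0
import Pool.Agent.AKXS_42_46_VA.R1
import Pool.Agent.AKXS_42_46_VA.R2
import Pool.Agent.AKXS_42_46_VA.R3
import Pool.Agent.AKXS_42_46_VA.R4
import Pool.Agent.AKXS_42_46_VA.R5
import Pool.Agent.AKXS_42_46_VA.R6
import Pool.Agent.AKXS_42_46_VA.R7
import Pool.Agent.AKXS_42_46_VA.R8
import Pool.Agent.AKXS_42_46_VA.R9
import Pool.Agent.AKXS_42_46_VA.R10
import Pool.Agent.AKXS_42_46_VA.R11
import Pool.Agent.AKXS_42_46_VA.R12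

set_option autoImplicit false

namespace Pool.Agent.AKXS_42_46_VA

open Pool.Agent.AKX Pool.Agent.AKU

noncomputable def e35_0 : List Rx := [
  Rx.mk (nat_lit 6) (nat_lit 6) (nat_lit 0) (nat_lit 0) (nat_lit 1) (nat_lit 171) (nat_lit 232) r6_171 r0_232 (nat_lit 0) (nat_lit 43050) (nat_lit 30087) (nat_lit 0x1db0d45064) (nat_lit 2791604985),
  Rx.mk (nat_lit 20) (nat_lit 4) (nat_lit 2) (nat_lit 0) (nat_lit 2) (nat_lit 173) (nat_lit 228) r6_173 r0_228 (nat_lit 14886) (nat_lit 0) (nat_lit 17761) (nat_lit 0x1cee93e3de) (nat_lit 3003181845),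
  Rx.mk (nat_lit 22) (nat_lit 6) (nat_lit 2) (nat_lit 0) (nat_lit 3) (nat_lit 174) (nat_lit 234) r6_174 r0_234 (nat_lit 0) (nat_lit 0) (nat_lit 16654996) (nat_lit 0x2005241f12) (nat_lit 2159652094),
  Rx.mk (nat_lit 70) (nat_lit 6) (nat_lit 0) (nat_lit 1) (nat_lit 5) (nat_lit 172) (nat_lit 233) r6_172 r0_233 (nat_lit 0) (nat_lit 267236) (nat_lit 0) (nat_lit 0x210c9ec3fe) (nat_lit 1862567534),
  Rx.mk (nat_lit 84) (nat_lit 4) (nat_lit 2) (nat_lit 1) (nat_lit 6) (nat_lit 175) (nat_lit 229) r6_175 r0_229 (nat_lit 5496569) (nat_lit 0) (nat_lit 0) (nat_lit 0x22939b42fa) (nat_lit 1452874667),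
  Rx.mk (nat_lit 86) (nat_lit 6) (nat_lit 2) (nat_lit 1) (nat_lit 7) (nat_lit 176) (nat_lit 235) r6_176 r0_235 (nat_lit 0) (nat_lit 0) (nat_lit 0) (nat_lit 0x20b612ff1e) (nat_lit 1954649298),
  Rx.mk (nat_lit 148) (nat_lit 4) (nat_lit 2) (nat_lit 2) (nat_lit 6) (nat_lit 177) (nat_lit 230) r6_177 r0_230 (nat_lit 10858692) (nat_lit 0) (nat_lit 0) (nat_lit 0x1eba56bc98) (nat_lit 2513638840),
  Rx.mk (nat_lit 180) (nat_lit 4) (nat_lit 6) (nat_lit 2) (nat_lit 6) (nat_lit 170) (nat_lit 231) r6_170 r0_231 (nat_lit 6208960) (nat_lit 0) (nat_lit 0) (nat_lit 0x1e9d3cb284) (nat_lit 2540609808)]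
noncomputable def e35_1 : List Rx := [
  Rx.mk (nat_lit 70) (nat_lit 6) (nat_lit 0) (nat_lit 1) (nat_lit 5) (nat_lit 178) (nat_lit 247) r6_178 r1_247 (nat_lit 0) (nat_lit 2420839) (nat_lit 0) (nat_lit 0x201a47e5e0) (nat_lit 2122315587),
  Rx.mk (nat_lit 84) (nat_lit 4) (nat_lit 2) (nat_lit 1) (nat_lit 6) (nat_lit 179) (nat_lit 246) r6_179 r1_246 (nat_lit 11578528) (nat_lit 0) (nat_lit 0) (nat_lit 0x210ec50fd0) (nat_lit 1871982276),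
  Rx.mk (nat_lit 86) (nat_lit 6) (nat_lit 2) (nat_lit 1) (nat_lit 7) (nat_lit 180) (nat_lit 248) r6_180 r1_248 (nat_lit 0) (nat_lit 0) (nat_lit 0) (nat_lit 0x20f3bd63ea) (nat_lit 1889174098)]
noncomputable def e35_2 : List Rx := [
  Rx.mk (nat_lit 70) (nat_lit 6) (nat_lit 0) (nat_lit 1) (nat_lit 5) (nat_lit 307) (nat_lit 269) r6_307 r2_269 (nat_lit 0) (nat_lit 56092190) (nat_lit 0) (nat_lit 0x1fc43de9ce) (nat_lit 2269317788),
  Rx.mk (nat_lit 84) (nat_lit 4) (nat_lit 2) (nat_lit 1) (nat_lit 6) (nat_lit 308) (nat_lit 268) r6_308 r2_268 (nat_lit 95102396) (nat_lit 0) (nat_lit 0) (nat_lit 0x1fcdef6998) (nat_lit 2297800244),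
  Rx.mk (nat_lit 86) (nat_lit 6) (nat_lit 2) (nat_lit 1) (nat_lit 7) (nat_lit 309) (nat_lit 271) r6_309 r2_271 (nat_lit 0) (nat_lit 0) (nat_lit 0) (nat_lit 0x2000efab8c) (nat_lit 2147483648),
  Rx.mk (nat_lit 326) (nat_lit 6) (nat_lit 0) (nat_lit 5) (nat_lit 5) (nat_lit 306) (nat_lit 270) r6_306 r2_270 (nat_lit 0) (nat_lit 67932583) (nat_lit 0) (nat_lit 0x1f1bb86946) (nat_lit 2464643081)]
noncomputable def e35_3 : List Rx := [
  Rx.mk (nat_lit 20) (nat_lit 4) (nat_lit 2) (nat_lit 0) (nat_lit 2) (nat_lit 44) (nat_lit 227) r6_44 r3_227 (nat_lit 290) (nat_lit 0) (nat_lit 640) (nat_lit 0x1ffffa3f8a) (nat_lit 2147509128),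
  Rx.mk (nat_lit 22) (nat_lit 6) (nat_lit 2) (nat_lit 0) (nat_lit 3) (nat_lit 45) (nat_lit 233) r6_45 r3_233 (nat_lit 0) (nat_lit 0) (nat_lit 3370712) (nat_lit 0x1ded95fb74) (nat_lit 2729025760),
  Rx.mk (nat_lit 148) (nat_lit 4) (nat_lit 2) (nat_lit 2) (nat_lit 6) (nat_lit 46) (nat_lit 229) r6_46 r3_229 (nat_lit 147551) (nat_lit 0) (nat_lit 0) (nat_lit 0x1fd07a499e) (nat_lit 2199444249),
  Rx.mk (nat_lit 180) (nat_lit 4) (nat_lit 6) (nat_lit 2) (nat_lit 6) (nat_lit 41) (nat_lit 230) r6_41 r3_230 (nat_lit 69399) (nat_lit 0) (nat_lit 0) (nat_lit 0x1ffce038ae) (nat_lit 2150977697),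
  Rx.mk (nat_lit 183) (nat_lit 7) (nat_lit 6) (nat_lit 2) (nat_lit 7) (nat_lit 42) (nat_lit 231) r6_42 r3_231 (nat_lit 0) (nat_lit 0) (nat_lit 0) (nat_lit 0x1fdfb2f6c2) (nat_lit 2183064198),
  Rx.mk (nat_lit 198) (nat_lit 6) (nat_lit 0) (nat_lit 3) (nat_lit 5) (nat_lit 43) (nat_lit 232) r6_43 r3_232 (nat_lit 0) (nat_lit 51662) (nat_lit 0) (nat_lit 0x1f95a10e52) (nat_lit 2263426460),
  Rx.mk (nat_lit 212) (nat_lit 4) (nat_lit 2) (nat_lit 3) (nat_lit 6) (nat_lit 47) (nat_lit 228) r6_47 r3_228 (nat_lit 67289) (nat_lit 0) (nat_lit 0) (nat_lit 0x200c864118) (nat_lit 2134275937),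
  Rx.mk (nat_lit 214) (nat_lit 6) (nat_lit 2) (nat_lit 3) (nat_lit 7) (nat_lit 48) (nat_lit 234) r6_48 r3_234 (nat_lit 0) (nat_lit 0) (nat_lit 0) (nat_lit 0x207dfe2dd8) (nat_lit 2014173948)]
noncomputable def e35_4 : List Rx := [
  Rx.mk (nat_lit 6) (nat_lit 6) (nat_lit 0) (nat_lit 0) (nat_lit 1) (nat_lit 183) (nat_lit 235) r6_183 r4_235 (nat_lit 0) (nat_lit 1777) (nat_lit 1128) (nat_lit 0x1ea09d8c78) (nat_lit 2530295753),
  Rx.mk (nat_lit 20) (nat_lit 4) (nat_lit 2) (nat_lit 0) (nat_lit 2) (nat_lit 186) (nat_lit 229) r6_186 r4_229 (nat_lit 7273) (nat_lit 0) (nat_lit 6218) (nat_lit 0x1e321f58f8) (nat_lit 2650681939),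
  Rx.mk (nat_lit 22) (nat_lit 6) (nat_lit 2) (nat_lit 0) (nat_lit 3) (nat_lit 187) (nat_lit 238) r6_187 r4_238 (nat_lit 0) (nat_lit 0) (nat_lit 7104909) (nat_lit 0x201ee2435c) (nat_lit 2122416857),
  Rx.mk (nat_lit 70) (nat_lit 6) (nat_lit 0) (nat_lit 1) (nat_lit 5) (nat_lit 184) (nat_lit 236) r6_184 r4_236 (nat_lit 0) (nat_lit 27111174) (nat_lit 0) (nat_lit 0x2011d7632c) (nat_lit 2156468622),
  Rx.mk (nat_lit 84) (nat_lit 4) (nat_lit 2) (nat_lit 1) (nat_lit 6) (nat_lit 188) (nat_lit 230) r6_188 r4_230 (nat_lit 25209224) (nat_lit 0) (nat_lit 0) (nat_lit 0x201505b5bc) (nat_lit 2151158672),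
  Rx.mk (nat_lit 86) (nat_lit 6) (nat_lit 2) (nat_lit 1) (nat_lit 7) (nat_lit 189) (nat_lit 239) r6_189 r4_239 (nat_lit 0) (nat_lit 0) (nat_lit 0) (nat_lit 0x201f61977e) (nat_lit 2114879798),
  Rx.mk (nat_lit 148) (nat_lit 4) (nat_lit 2) (nat_lit 2) (nat_lit 6) (nat_lit 190) (nat_lit 232) r6_190 r4_232 (nat_lit 17703437) (nat_lit 0) (nat_lit 0) (nat_lit 0x1ff2b81306) (nat_lit 2180466335),
  Rx.mk (nat_lit 180) (nat_lit 4) (nat_lit 6) (nat_lit 2) (nat_lit 6) (nat_lit 181) (nat_lit 233) r6_181 r4_233 (nat_lit 27953982) (nat_lit 0) (nat_lit 0) (nat_lit 0x1e5f57767a) (nat_lit 2629847480),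
  Rx.mk (nat_lit 183) (nat_lit 7) (nat_lit 6) (nat_lit 2) (nat_lit 7) (nat_lit 182) (nat_lit 234) r6_182 r4_234 (nat_lit 0) (nat_lit 0) (nat_lit 0) (nat_lit 0x1fd2865336) (nat_lit 2197588398),
  Rx.mk (nat_lit 198) (nat_lit 6) (nat_lit 0) (nat_lit 3) (nat_lit 5) (nat_lit 185) (nat_lit 237) r6_185 r4_237 (nat_lit 0) (nat_lit 15272180) (nat_lit 0) (nat_lit 0x20217a8b2e) (nat_lit 2127869878),
  Rx.mk (nat_lit 212) (nat_lit 4) (nat_lit 2) (nat_lit 3) (nat_lit 6) (nat_lit 191) (nat_lit 231) r6_191 r4_231 (nat_lit 17454317) (nat_lit 0) (nat_lit 0) (nat_lit 0x204053351e) (nat_lit 2097263415),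
  Rx.mk (nat_lit 214) (nat_lit 6) (nat_lit 2) (nat_lit 3) (nat_lit 7) (nat_lit 192) (nat_lit 240) r6_192 r4_240 (nat_lit 0) (nat_lit 0) (nat_lit 0) (nat_lit 0x2035824c74) (nat_lit 2091316148)]
noncomputable def e35_5 : List Rx := [
  Rx.mk (nat_lit 198) (nat_lit 6) (nat_lit 0) (nat_lit 3) (nat_lit 5) (nat_lit 251) (nat_lit 243) r6_251 r5_243 (nat_lit 0) (nat_lit 108300) (nat_lit 0) (nat_lit 0x20977d56bc) (nat_lit 1986748748),
  Rx.mk (nat_lit 212) (nat_lit 4) (nat_lit 2) (nat_lit 3) (nat_lit 6) (nat_lit 252) (nat_lit 242) r6_252 r5_242 (nat_lit 902068) (nat_lit 0) (nat_lit 0) (nat_lit 0x20e84af7fc) (nat_lit 1901893616),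
  Rx.mk (nat_lit 214) (nat_lit 6) (nat_lit 2) (nat_lit 3) (nat_lit 7) (nat_lit 253) (nat_lit 244) r6_253 r5_244 (nat_lit 0) (nat_lit 0) (nat_lit 0) (nat_lit 0x1ff51b30d8) (nat_lit 2159914948)]
noncomputable def e35_6 : List Rx := [
  Rx.mk (nat_lit 258) (nat_lit 2) (nat_lit 0) (nat_lit 4) (nat_lit 1) (nat_lit 323) (nat_lit 219) r6_323 r3_219 (nat_lit 0) (nat_lit 1751) (nat_lit 1793) (nat_lit 0x1ffff3db5e) (nat_lit 2147539442),
  Rx.mk (nat_lit 262) (nat_lit 6) (nat_lit 0) (nat_lit 4) (nat_lit 1) (nat_lit 322) (nat_lit 217) r6_322 r3_217 (nat_lit 0) (nat_lit 1793) (nat_lit 1751) (nat_lit 0x1ffff3db5e) (nat_lit 2147539442),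
  Rx.mk (nat_lit 282) (nat_lit 2) (nat_lit 3) (nat_lit 4) (nat_lit 3) (nat_lit 325) (nat_lit 220) r6_325 r3_220 (nat_lit 0) (nat_lit 0) (nat_lit 2699) (nat_lit 0x1fffd5e2f2) (nat_lit 2147666497),
  Rx.mk (nat_lit 454) (nat_lit 6) (nat_lit 0) (nat_lit 7) (nat_lit 5) (nat_lit 324) (nat_lit 218) r6_324 r3_218 (nat_lit 0) (nat_lit 2699) (nat_lit 0) (nat_lit 0x1fffd5e2f2) (nat_lit 2147666497)]
noncomputable def e35_7 : List Rx := [
  Rx.mk (nat_lit 322) (nat_lit 2) (nat_lit 0) (nat_lit 5) (nat_lit 5) (nat_lit 277) (nat_lit 223) r6_277 r0_223 (nat_lit 0) (nat_lit 103259688) (nat_lit 0) (nat_lit 0x1fe7bb2056) (nat_lit 2277788286),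
  Rx.mk (nat_lit 326) (nat_lit 6) (nat_lit 0) (nat_lit 5) (nat_lit 5) (nat_lit 276) (nat_lit 222) r6_276 r0_222 (nat_lit 0) (nat_lit 11036) (nat_lit 0) (nat_lit 0x23825bcba8) (nat_lit 1193574884)]
noncomputable def e35_8 : List Rx := [
  Rx.mk (nat_lit 322) (nat_lit 2) (nat_lit 0) (nat_lit 5) (nat_lit 5) (nat_lit 305) (nat_lit 241) r6_305 r1_241 (nat_lit 0) (nat_lit 37811349) (nat_lit 0) (nat_lit 0x21166a7842) (nat_lit 1890185247),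
  Rx.mk (nat_lit 326) (nat_lit 6) (nat_lit 0) (nat_lit 5) (nat_lit 5) (nat_lit 304) (nat_lit 240) r6_304 r1_240 (nat_lit 0) (nat_lit 33742) (nat_lit 0) (nat_lit 0x22d789a1a0) (nat_lit 1374988090)]
noncomputable def e35_9 : List Rx := [
  Rx.mk (nat_lit 258) (nat_lit 2) (nat_lit 0) (nat_lit 4) (nat_lit 1) (nat_lit 327) (nat_lit 220) r6_327 r4_220 (nat_lit 0) (nat_lit 749742) (nat_lit 555196) (nat_lit 0x1967a2ca82) (nat_lit 3988232636),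
  Rx.mk (nat_lit 262) (nat_lit 6) (nat_lit 0) (nat_lit 4) (nat_lit 1) (nat_lit 326) (nat_lit 217) r6_326 r4_217 (nat_lit 0) (nat_lit 9891) (nat_lit 6850) (nat_lit 0x1e6ef66cf8) (nat_lit 2584404589),
  Rx.mk (nat_lit 282) (nat_lit 2) (nat_lit 3) (nat_lit 4) (nat_lit 3) (nat_lit 331) (nat_lit 222) r6_331 r4_222 (nat_lit 0) (nat_lit 0) (nat_lit 1610) (nat_lit 0x1550564f1a) (nat_lit 5127797908),
  Rx.mk (nat_lit 322) (nat_lit 2) (nat_lit 0) (nat_lit 5) (nat_lit 5) (nat_lit 329) (nat_lit 221) r6_329 r4_221 (nat_lit 0) (nat_lit 15524151) (nat_lit 0) (nat_lit 0x1fd0d1df42) (nat_lit 2215009849),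
  Rx.mk (nat_lit 326) (nat_lit 6) (nat_lit 0) (nat_lit 5) (nat_lit 5) (nat_lit 328) (nat_lit 218) r6_328 r4_218 (nat_lit 0) (nat_lit 13215204) (nat_lit 0) (nat_lit 0x1feb2255c0) (nat_lit 2184143352),
  Rx.mk (nat_lit 346) (nat_lit 2) (nat_lit 3) (nat_lit 5) (nat_lit 7) (nat_lit 332) (nat_lit 223) r6_332 r4_223 (nat_lit 0) (nat_lit 0) (nat_lit 0) (nat_lit 0x1d798a8e20) (nat_lit 2851812848),
  Rx.mk (nat_lit 454) (nat_lit 6) (nat_lit 0) (nat_lit 7) (nat_lit 5) (nat_lit 330) (nat_lit 219) r6_330 r4_219 (nat_lit 0) (nat_lit 16579424) (nat_lit 0) (nat_lit 0x204b4b044c) (nat_lit 2084721572)]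
noncomputable def e35_10 : List Rx := [
  Rx.mk (nat_lit 198) (nat_lit 6) (nat_lit 0) (nat_lit 3) (nat_lit 5) (nat_lit 246) (nat_lit 261) r6_246 r6_261 (nat_lit 0) (nat_lit 3163675) (nat_lit 0) (nat_lit 0x1f69abbf04) (nat_lit 2314773323),
  Rx.mk (nat_lit 212) (nat_lit 4) (nat_lit 2) (nat_lit 3) (nat_lit 6) (nat_lit 247) (nat_lit 260) r6_247 r6_260 (nat_lit 184170) (nat_lit 0) (nat_lit 0) (nat_lit 0x1f301d6a30) (nat_lit 2374191518),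
  Rx.mk (nat_lit 214) (nat_lit 6) (nat_lit 2) (nat_lit 3) (nat_lit 7) (nat_lit 248) (nat_lit 263) r6_248 r6_263 (nat_lit 0) (nat_lit 0) (nat_lit 0) (nat_lit 0x20319a5124) (nat_lit 2095274748),
  Rx.mk (nat_lit 282) (nat_lit 2) (nat_lit 3) (nat_lit 4) (nat_lit 3) (nat_lit 249) (nat_lit 258) r6_249 r6_258 (nat_lit 0) (nat_lit 0) (nat_lit 184170) (nat_lit 0x1f301d6a30) (nat_lit 2374191518),
  Rx.mk (nat_lit 450) (nat_lit 2) (nat_lit 0) (nat_lit 7) (nat_lit 5) (nat_lit 245) (nat_lit 257) r6_245 r6_257 (nat_lit 0) (nat_lit 3163675) (nat_lit 0) (nat_lit 0x1f69abbf04) (nat_lit 2314773323),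
  Rx.mk (nat_lit 454) (nat_lit 6) (nat_lit 0) (nat_lit 7) (nat_lit 5) (nat_lit 244) (nat_lit 262) r6_244 r6_262 (nat_lit 0) (nat_lit 36478) (nat_lit 0) (nat_lit 0x1eb014b190) (nat_lit 2513492626),
  Rx.mk (nat_lit 474) (nat_lit 2) (nat_lit 3) (nat_lit 7) (nat_lit 7) (nat_lit 250) (nat_lit 259) r6_250 r6_259 (nat_lit 0) (nat_lit 0) (nat_lit 0) (nat_lit 0x20319a5124) (nat_lit 2095274748)]
noncomputable def e35_11 : List Rx := [
  Rx.mk (nat_lit 258) (nat_lit 2) (nat_lit 0) (nat_lit 4) (nat_lit 1) (nat_lit 333) (nat_lit 232) r6_333 r5_232 (nat_lit 0) (nat_lit 69133) (nat_lit 79329) (nat_lit 0x1fb8fbf344) (nat_lit 2225021510),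
  Rx.mk (nat_lit 282) (nat_lit 2) (nat_lit 3) (nat_lit 4) (nat_lit 3) (nat_lit 336) (nat_lit 234) r6_336 r5_234 (nat_lit 0) (nat_lit 0) (nat_lit 730541) (nat_lit 0x202016d134) (nat_lit 2114314189),
  Rx.mk (nat_lit 450) (nat_lit 2) (nat_lit 0) (nat_lit 7) (nat_lit 5) (nat_lit 335) (nat_lit 233) r6_335 r5_233 (nat_lit 0) (nat_lit 7975319) (nat_lit 0) (nat_lit 0x215e5f1bd0) (nat_lit 1783890867),
  Rx.mk (nat_lit 454) (nat_lit 6) (nat_lit 0) (nat_lit 7) (nat_lit 5) (nat_lit 334) (nat_lit 231) r6_334 r5_231 (nat_lit 0) (nat_lit 15963) (nat_lit 0) (nat_lit 0x2000eaef0c) (nat_lit 2146529811)]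
noncomputable def e35_12 : List Rx := [
  Rx.mk (nat_lit 20) (nat_lit 4) (nat_lit 2) (nat_lit 0) (nat_lit 2) (nat_lit 51) (nat_lit 82) r6_51 r0_82 (nat_lit 343571) (nat_lit 0) (nat_lit 528265) (nat_lit 0x19e1c87672) (nat_lit 3854735034),
  Rx.mk (nat_lit 21) (nat_lit 5) (nat_lit 2) (nat_lit 0) (nat_lit 3) (nat_lit 52) (nat_lit 83) r6_52 r0_83 (nat_lit 0) (nat_lit 0) (nat_lit 22646286) (nat_lit 0x1fe695ad68) (nat_lit 2198518134),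
  Rx.mk (nat_lit 22) (nat_lit 6) (nat_lit 2) (nat_lit 0) (nat_lit 3) (nat_lit 53) (nat_lit 84) r6_53 r0_84 (nat_lit 0) (nat_lit 0) (nat_lit 11325125) (nat_lit 0x1e4b83c27a) (nat_lit 2634795123),
  Rx.mk (nat_lit 148) (nat_lit 4) (nat_lit 2) (nat_lit 2) (nat_lit 6) (nat_lit 54) (nat_lit 87) r6_54 r0_87 (nat_lit 19637407) (nat_lit 0) (nat_lit 0) (nat_lit 0x1f57f9f064) (nat_lit 2350808155),
  Rx.mk (nat_lit 149) (nat_lit 5) (nat_lit 2) (nat_lit 2) (nat_lit 7) (nat_lit 55) (nat_lit 88) r6_55 r0_88 (nat_lit 0) (nat_lit 0) (nat_lit 0) (nat_lit 0x2073d73e58) (nat_lit 2025033448),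
  Rx.mk (nat_lit 180) (nat_lit 4) (nat_lit 6) (nat_lit 2) (nat_lit 6) (nat_lit 49) (nat_lit 85) r6_49 r0_85 (nat_lit 4823489) (nat_lit 0) (nat_lit 0) (nat_lit 0x206bc35c4c) (nat_lit 2038343737),
  Rx.mk (nat_lit 181) (nat_lit 5) (nat_lit 6) (nat_lit 2) (nat_lit 7) (nat_lit 50) (nat_lit 86) r6_50 r0_86 (nat_lit 0) (nat_lit 0) (nat_lit 0) (nat_lit 0x218a46bc08) (nat_lit 1729288248)]
noncomputable def e35_13 : List Rx := [
  Rx.mk (nat_lit 20) (nat_lit 4) (nat_lit 2) (nat_lit 0) (nat_lit 2) (nat_lit 195) (nat_lit 293) r6_195 r7_293 (nat_lit 158384) (nat_lit 0) (nat_lit 186689) (nat_lit 0x1bd07ae5e2) (nat_lit 3315217271),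
  Rx.mk (nat_lit 21) (nat_lit 5) (nat_lit 2) (nat_lit 0) (nat_lit 3) (nat_lit 196) (nat_lit 297) r6_196 r7_297 (nat_lit 0) (nat_lit 0) (nat_lit 15143189) (nat_lit 0x200b9196ae) (nat_lit 2151113287),
  Rx.mk (nat_lit 22) (nat_lit 6) (nat_lit 2) (nat_lit 0) (nat_lit 3) (nat_lit 197) (nat_lit 301) r6_197 r7_301 (nat_lit 0) (nat_lit 0) (nat_lit 9039903) (nat_lit 0x1f0c3c340c) (nat_lit 2422599751),
  Rx.mk (nat_lit 84) (nat_lit 4) (nat_lit 2) (nat_lit 1) (nat_lit 6) (nat_lit 198) (nat_lit 294) r6_198 r7_294 (nat_lit 15522547) (nat_lit 0) (nat_lit 0) (nat_lit 0x2006c8f40a) (nat_lit 2156644545),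
  Rx.mk (nat_lit 85) (nat_lit 5) (nat_lit 2) (nat_lit 1) (nat_lit 7) (nat_lit 199) (nat_lit 298) r6_199 r7_298 (nat_lit 0) (nat_lit 0) (nat_lit 0) (nat_lit 0x20a6955a5a) (nat_lit 1971127798),
  Rx.mk (nat_lit 86) (nat_lit 6) (nat_lit 2) (nat_lit 1) (nat_lit 7) (nat_lit 200) (nat_lit 302) r6_200 r7_302 (nat_lit 0) (nat_lit 0) (nat_lit 0) (nat_lit 0x20390aaab2) (nat_lit 2087565198),
  Rx.mk (nat_lit 148) (nat_lit 4) (nat_lit 2) (nat_lit 2) (nat_lit 6) (nat_lit 201) (nat_lit 295) r6_201 r7_295 (nat_lit 26573864) (nat_lit 0) (nat_lit 0) (nat_lit 0x1b9621606a) (nat_lit 3405484862),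
  Rx.mk (nat_lit 149) (nat_lit 5) (nat_lit 2) (nat_lit 2) (nat_lit 7) (nat_lit 202) (nat_lit 299) r6_202 r7_299 (nat_lit 0) (nat_lit 0) (nat_lit 0) (nat_lit 0x2000efab8c) (nat_lit 2147483648),
  Rx.mk (nat_lit 180) (nat_lit 4) (nat_lit 6) (nat_lit 2) (nat_lit 6) (nat_lit 193) (nat_lit 296) r6_193 r7_296 (nat_lit 5682584) (nat_lit 0) (nat_lit 0) (nat_lit 0x1f0dcec532) (nat_lit 2417486782),
  Rx.mk (nat_lit 181) (nat_lit 5) (nat_lit 6) (nat_lit 2) (nat_lit 7) (nat_lit 194) (nat_lit 300) r6_194 r7_300 (nat_lit 0) (nat_lit 0) (nat_lit 0) (nat_lit 0x201de5d374) (nat_lit 2116448448)]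
noncomputable def e35_14 : List Rx := [
  Rx.mk (nat_lit 21) (nat_lit 5) (nat_lit 2) (nat_lit 0) (nat_lit 3) (nat_lit 57) (nat_lit 88) r6_57 r1_88 (nat_lit 0) (nat_lit 0) (nat_lit 19149938) (nat_lit 0x202b551178) (nat_lit 2121266686),
  Rx.mk (nat_lit 149) (nat_lit 5) (nat_lit 2) (nat_lit 2) (nat_lit 7) (nat_lit 58) (nat_lit 90) r6_58 r1_90 (nat_lit 0) (nat_lit 0) (nat_lit 0) (nat_lit 0x2054b28226) (nat_lit 2058132998),
  Rx.mk (nat_lit 181) (nat_lit 5) (nat_lit 6) (nat_lit 2) (nat_lit 7) (nat_lit 56) (nat_lit 89) r6_56 r1_89 (nat_lit 0) (nat_lit 0) (nat_lit 0) (nat_lit 0x22597baa38) (nat_lit 1509269848)]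
noncomputable def e35_15 : List Rx := [
  Rx.mk (nat_lit 21) (nat_lit 5) (nat_lit 2) (nat_lit 0) (nat_lit 3) (nat_lit 207) (nat_lit 221) r6_207 r8_221 (nat_lit 0) (nat_lit 0) (nat_lit 24734064) (nat_lit 0x201676d908) (nat_lit 2149143312),
  Rx.mk (nat_lit 85) (nat_lit 5) (nat_lit 2) (nat_lit 1) (nat_lit 7) (nat_lit 208) (nat_lit 222) r6_208 r8_222 (nat_lit 0) (nat_lit 0) (nat_lit 0) (nat_lit 0x2000efab8c) (nat_lit 2147483648),
  Rx.mk (nat_lit 149) (nat_lit 5) (nat_lit 2) (nat_lit 2) (nat_lit 7) (nat_lit 209) (nat_lit 223) r6_209 r8_223 (nat_lit 0) (nat_lit 0) (nat_lit 0) (nat_lit 0x2000efab8c) (nat_lit 2147483648),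
  Rx.mk (nat_lit 181) (nat_lit 5) (nat_lit 6) (nat_lit 2) (nat_lit 7) (nat_lit 206) (nat_lit 224) r6_206 r8_224 (nat_lit 0) (nat_lit 0) (nat_lit 0) (nat_lit 0x201df2e532) (nat_lit 2116412298)]
noncomputable def e35_16 : List Rx := [
  Rx.mk (nat_lit 84) (nat_lit 4) (nat_lit 2) (nat_lit 1) (nat_lit 6) (nat_lit 203) (nat_lit 71) r6_203 r8_71 (nat_lit 13558047) (nat_lit 0) (nat_lit 0) (nat_lit 0x2028d5bcfe) (nat_lit 2118348245),
  Rx.mk (nat_lit 85) (nat_lit 5) (nat_lit 2) (nat_lit 1) (nat_lit 7) (nat_lit 204) (nat_lit 72) r6_204 r8_72 (nat_lit 0) (nat_lit 0) (nat_lit 0) (nat_lit 0x20219ab8ea) (nat_lit 2112508498),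
  Rx.mk (nat_lit 86) (nat_lit 6) (nat_lit 2) (nat_lit 1) (nat_lit 7) (nat_lit 205) (nat_lit 73) r6_205 r8_73 (nat_lit 0) (nat_lit 0) (nat_lit 0) (nat_lit 0x20322bb560) (nat_lit 2094853748)]
noncomputable def e35_17 : List Rx := [
  Rx.mk (nat_lit 84) (nat_lit 4) (nat_lit 2) (nat_lit 1) (nat_lit 6) (nat_lit 319) (nat_lit 241) r6_319 r9_241 (nat_lit 39267561) (nat_lit 0) (nat_lit 0) (nat_lit 0x2000efab8c) (nat_lit 2186751209),
  Rx.mk (nat_lit 85) (nat_lit 5) (nat_lit 2) (nat_lit 1) (nat_lit 7) (nat_lit 320) (nat_lit 242) r6_320 r9_242 (nat_lit 0) (nat_lit 0) (nat_lit 0) (nat_lit 0x2000efab8c) (nat_lit 2147483648),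
  Rx.mk (nat_lit 86) (nat_lit 6) (nat_lit 2) (nat_lit 1) (nat_lit 7) (nat_lit 321) (nat_lit 243) r6_321 r9_243 (nat_lit 0) (nat_lit 0) (nat_lit 0) (nat_lit 0x2000efab8c) (nat_lit 2147483648)]
noncomputable def e35_18 : List Rx := [
  Rx.mk (nat_lit 20) (nat_lit 4) (nat_lit 2) (nat_lit 0) (nat_lit 2) (nat_lit 62) (nat_lit 78) r6_62 r4_78 (nat_lit 133555) (nat_lit 0) (nat_lit 171997) (nat_lit 0x1a6265629a) (nat_lit 3713992250),
  Rx.mk (nat_lit 21) (nat_lit 5) (nat_lit 2) (nat_lit 0) (nat_lit 3) (nat_lit 63) (nat_lit 79) r6_63 r4_79 (nat_lit 0) (nat_lit 0) (nat_lit 17020769) (nat_lit 0x1fffafe3e0) (nat_lit 2165783617),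
  Rx.mk (nat_lit 22) (nat_lit 6) (nat_lit 2) (nat_lit 0) (nat_lit 3) (nat_lit 64) (nat_lit 80) r6_64 r4_80 (nat_lit 0) (nat_lit 0) (nat_lit 26413005) (nat_lit 0x1e6d2b9a4c) (nat_lit 2613255353),
  Rx.mk (nat_lit 148) (nat_lit 4) (nat_lit 2) (nat_lit 2) (nat_lit 6) (nat_lit 65) (nat_lit 87) r6_65 r4_87 (nat_lit 7925745) (nat_lit 0) (nat_lit 0) (nat_lit 0x20373fb0ec) (nat_lit 2097311693),
  Rx.mk (nat_lit 149) (nat_lit 5) (nat_lit 2) (nat_lit 2) (nat_lit 7) (nat_lit 66) (nat_lit 88) r6_66 r4_88 (nat_lit 0) (nat_lit 0) (nat_lit 0) (nat_lit 0x200c352fd0) (nat_lit 2135384348),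
  Rx.mk (nat_lit 180) (nat_lit 4) (nat_lit 6) (nat_lit 2) (nat_lit 6) (nat_lit 59) (nat_lit 84) r6_59 r4_84 (nat_lit 6403559) (nat_lit 0) (nat_lit 0) (nat_lit 0x200a1b78da) (nat_lit 2143894957),
  Rx.mk (nat_lit 181) (nat_lit 5) (nat_lit 6) (nat_lit 2) (nat_lit 7) (nat_lit 60) (nat_lit 85) r6_60 r4_85 (nat_lit 0) (nat_lit 0) (nat_lit 0) (nat_lit 0x201109e208) (nat_lit 2130194048),
  Rx.mk (nat_lit 183) (nat_lit 7) (nat_lit 6) (nat_lit 2) (nat_lit 7) (nat_lit 61) (nat_lit 86) r6_61 r4_86 (nat_lit 0) (nat_lit 0) (nat_lit 0) (nat_lit 0x201eb01af8) (nat_lit 2115636748),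
  Rx.mk (nat_lit 212) (nat_lit 4) (nat_lit 2) (nat_lit 3) (nat_lit 6) (nat_lit 67) (nat_lit 81) r6_67 r4_81 (nat_lit 17128) (nat_lit 0) (nat_lit 0) (nat_lit 0x184f11cca8) (nat_lit 4292518276),
  Rx.mk (nat_lit 213) (nat_lit 5) (nat_lit 2) (nat_lit 3) (nat_lit 7) (nat_lit 68) (nat_lit 82) r6_68 r4_82 (nat_lit 0) (nat_lit 0) (nat_lit 0) (nat_lit 0x203b853550) (nat_lit 2084747848),
  Rx.mk (nat_lit 214) (nat_lit 6) (nat_lit 2) (nat_lit 3) (nat_lit 7) (nat_lit 69) (nat_lit 83) r6_69 r4_83 (nat_lit 0) (nat_lit 0) (nat_lit 0) (nat_lit 0x2004d169c0) (nat_lit 2143169448)]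
noncomputable def e35_19 : List Rx := [
  Rx.mk (nat_lit 20) (nat_lit 4) (nat_lit 2) (nat_lit 0) (nat_lit 2) (nat_lit 213) (nat_lit 244) r6_213 r10_244 (nat_lit 2864482) (nat_lit 0) (nat_lit 2969871) (nat_lit 0x1d7898d22e) (nat_lit 2858942551),
  Rx.mk (nat_lit 21) (nat_lit 5) (nat_lit 2) (nat_lit 0) (nat_lit 3) (nat_lit 214) (nat_lit 249) r6_214 r10_249 (nat_lit 0) (nat_lit 0) (nat_lit 16073499) (nat_lit 0x20493f0978) (nat_lit 2086378047),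
  Rx.mk (nat_lit 22) (nat_lit 6) (nat_lit 2) (nat_lit 0) (nat_lit 3) (nat_lit 215) (nat_lit 254) r6_215 r10_254 (nat_lit 0) (nat_lit 0) (nat_lit 9838664) (nat_lit 0x203715a8f6) (nat_lit 2099425662),
  Rx.mk (nat_lit 84) (nat_lit 4) (nat_lit 2) (nat_lit 1) (nat_lit 6) (nat_lit 216) (nat_lit 245) r6_216 r10_245 (nat_lit 14742202) (nat_lit 0) (nat_lit 0) (nat_lit 0x202b2a1eb4) (nat_lit 2117041250),
  Rx.mk (nat_lit 86) (nat_lit 6) (nat_lit 2) (nat_lit 1) (nat_lit 7) (nat_lit 217) (nat_lit 255) r6_217 r10_255 (nat_lit 0) (nat_lit 0) (nat_lit 0) (nat_lit 0x20ade2c482) (nat_lit 1963376398),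
  Rx.mk (nat_lit 148) (nat_lit 4) (nat_lit 2) (nat_lit 2) (nat_lit 6) (nat_lit 218) (nat_lit 247) r6_218 r10_247 (nat_lit 28560695) (nat_lit 0) (nat_lit 0) (nat_lit 0x1fbd95b7a0) (nat_lit 2249011043),
  Rx.mk (nat_lit 149) (nat_lit 5) (nat_lit 2) (nat_lit 2) (nat_lit 7) (nat_lit 219) (nat_lit 251) r6_219 r10_251 (nat_lit 0) (nat_lit 0) (nat_lit 0) (nat_lit 0x2000efab8c) (nat_lit 2147483648),
  Rx.mk (nat_lit 180) (nat_lit 4) (nat_lit 6) (nat_lit 2) (nat_lit 6) (nat_lit 210) (nat_lit 248) r6_210 r10_248 (nat_lit 9855849) (nat_lit 0) (nat_lit 0) (nat_lit 0x1fb225dfee) (nat_lit 2242694747),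
  Rx.mk (nat_lit 181) (nat_lit 5) (nat_lit 6) (nat_lit 2) (nat_lit 7) (nat_lit 211) (nat_lit 252) r6_211 r10_252 (nat_lit 0) (nat_lit 0) (nat_lit 0) (nat_lit 0x202b033e98) (nat_lit 2102485748),
  Rx.mk (nat_lit 183) (nat_lit 7) (nat_lit 6) (nat_lit 2) (nat_lit 7) (nat_lit 212) (nat_lit 253) r6_212 r10_253 (nat_lit 0) (nat_lit 0) (nat_lit 0) (nat_lit 0x202b033e98) (nat_lit 2102485748),
  Rx.mk (nat_lit 212) (nat_lit 4) (nat_lit 2) (nat_lit 3) (nat_lit 6) (nat_lit 220) (nat_lit 246) r6_220 r10_246 (nat_lit 14742202) (nat_lit 0) (nat_lit 0) (nat_lit 0x202b2a1eb4) (nat_lit 2117041250),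
  Rx.mk (nat_lit 213) (nat_lit 5) (nat_lit 2) (nat_lit 3) (nat_lit 7) (nat_lit 221) (nat_lit 250) r6_221 r10_250 (nat_lit 0) (nat_lit 0) (nat_lit 0) (nat_lit 0x2018194de0) (nat_lit 2122665648),
  Rx.mk (nat_lit 214) (nat_lit 6) (nat_lit 2) (nat_lit 3) (nat_lit 7) (nat_lit 222) (nat_lit 256) r6_222 r10_256 (nat_lit 0) (nat_lit 0) (nat_lit 0) (nat_lit 0x20ade2c482) (nat_lit 1963376398)]
noncomputable def e35_20 : List Rx := [
  Rx.mk (nat_lit 212) (nat_lit 4) (nat_lit 2) (nat_lit 3) (nat_lit 6) (nat_lit 254) (nat_lit 284) r6_254 r11_284 (nat_lit 2135820) (nat_lit 0) (nat_lit 0) (nat_lit 0x20648d7764) (nat_lit 2043263968),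
  Rx.mk (nat_lit 213) (nat_lit 5) (nat_lit 2) (nat_lit 3) (nat_lit 7) (nat_lit 255) (nat_lit 285) r6_255 r11_285 (nat_lit 0) (nat_lit 0) (nat_lit 0) (nat_lit 0x22532031ae) (nat_lit 1516004698),
  Rx.mk (nat_lit 214) (nat_lit 6) (nat_lit 2) (nat_lit 3) (nat_lit 7) (nat_lit 256) (nat_lit 286) r6_256 r11_286 (nat_lit 0) (nat_lit 0) (nat_lit 0) (nat_lit 0x216789d038) (nat_lit 1766216648)]
noncomputable def e35_21 : List Rx := [
  Rx.mk (nat_lit 70) (nat_lit 6) (nat_lit 0) (nat_lit 1) (nat_lit 5) (nat_lit 315) (nat_lit 220) r6_315 r9_220 (nat_lit 0) (nat_lit 45629580) (nat_lit 0) (nat_lit 0x1fe920cc98) (nat_lit 2218828828),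
  Rx.mk (nat_lit 78) (nat_lit 6) (nat_lit 1) (nat_lit 1) (nat_lit 7) (nat_lit 317) (nat_lit 222) r6_317 r9_222 (nat_lit 0) (nat_lit 0) (nat_lit 0) (nat_lit 0x2000efab8c) (nat_lit 2147483648),
  Rx.mk (nat_lit 86) (nat_lit 6) (nat_lit 2) (nat_lit 1) (nat_lit 7) (nat_lit 318) (nat_lit 223) r6_318 r9_223 (nat_lit 0) (nat_lit 0) (nat_lit 0) (nat_lit 0x2000efab8c) (nat_lit 2147483648),
  Rx.mk (nat_lit 326) (nat_lit 6) (nat_lit 0) (nat_lit 5) (nat_lit 5) (nat_lit 314) (nat_lit 219) r6_314 r9_219 (nat_lit 0) (nat_lit 39267561) (nat_lit 0) (nat_lit 0x2000efab8c) (nat_lit 2186751209),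
  Rx.mk (nat_lit 334) (nat_lit 6) (nat_lit 1) (nat_lit 5) (nat_lit 7) (nat_lit 316) (nat_lit 221) r6_316 r9_221 (nat_lit 0) (nat_lit 0) (nat_lit 0) (nat_lit 0x2000efab8c) (nat_lit 2147483648)]
noncomputable def e35_22 : List Rx := [
  Rx.mk (nat_lit 266) (nat_lit 2) (nat_lit 1) (nat_lit 4) (nat_lit 3) (nat_lit 279) (nat_lit 222) r6_279 r0_222 (nat_lit 0) (nat_lit 0) (nat_lit 11036) (nat_lit 0x23825bcba8) (nat_lit 1193574884),
  Rx.mk (nat_lit 270) (nat_lit 6) (nat_lit 1) (nat_lit 4) (nat_lit 3) (nat_lit 278) (nat_lit 223) r6_278 r0_223 (nat_lit 0) (nat_lit 0) (nat_lit 103259688) (nat_lit 0x1fe7bb2056) (nat_lit 2277788286)]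
noncomputable def e35_23 : List Rx := [
  Rx.mk (nat_lit 266) (nat_lit 2) (nat_lit 1) (nat_lit 4) (nat_lit 3) (nat_lit 299) (nat_lit 240) r6_299 r1_240 (nat_lit 0) (nat_lit 0) (nat_lit 33742) (nat_lit 0x22d789a1a0) (nat_lit 1374988090),
  Rx.mk (nat_lit 270) (nat_lit 6) (nat_lit 1) (nat_lit 4) (nat_lit 3) (nat_lit 298) (nat_lit 241) r6_298 r1_241 (nat_lit 0) (nat_lit 0) (nat_lit 37811349) (nat_lit 0x21166a7842) (nat_lit 1890185247)]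
noncomputable def e35_24 : List Rx := [
  Rx.mk (nat_lit 258) (nat_lit 2) (nat_lit 0) (nat_lit 4) (nat_lit 1) (nat_lit 338) (nat_lit 217) r6_338 r4_217 (nat_lit 0) (nat_lit 6850) (nat_lit 9891) (nat_lit 0x1e6ef66cf8) (nat_lit 2584404589),
  Rx.mk (nat_lit 262) (nat_lit 6) (nat_lit 0) (nat_lit 4) (nat_lit 1) (nat_lit 337) (nat_lit 220) r6_337 r4_220 (nat_lit 0) (nat_lit 555196) (nat_lit 749742) (nat_lit 0x1967a2ca82) (nat_lit 3988232636),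
  Rx.mk (nat_lit 266) (nat_lit 2) (nat_lit 1) (nat_lit 4) (nat_lit 3) (nat_lit 341) (nat_lit 218) r6_341 r4_218 (nat_lit 0) (nat_lit 0) (nat_lit 13215204) (nat_lit 0x1feb2255c0) (nat_lit 2184143352),
  Rx.mk (nat_lit 270) (nat_lit 6) (nat_lit 1) (nat_lit 4) (nat_lit 3) (nat_lit 340) (nat_lit 221) r6_340 r4_221 (nat_lit 0) (nat_lit 0) (nat_lit 15524151) (nat_lit 0x1fd0d1df42) (nat_lit 2215009849),
  Rx.mk (nat_lit 282) (nat_lit 2) (nat_lit 3) (nat_lit 4) (nat_lit 3) (nat_lit 343) (nat_lit 219) r6_343 r4_219 (nat_lit 0) (nat_lit 0) (nat_lit 16579424) (nat_lit 0x204b4b044c) (nat_lit 2084721572),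
  Rx.mk (nat_lit 454) (nat_lit 6) (nat_lit 0) (nat_lit 7) (nat_lit 5) (nat_lit 339) (nat_lit 222) r6_339 r4_222 (nat_lit 0) (nat_lit 1610) (nat_lit 0) (nat_lit 0x1550564f1a) (nat_lit 5127797908),
  Rx.mk (nat_lit 462) (nat_lit 6) (nat_lit 1) (nat_lit 7) (nat_lit 7) (nat_lit 342) (nat_lit 223) r6_342 r4_223 (nat_lit 0) (nat_lit 0) (nat_lit 0) (nat_lit 0x1d798a8e20) (nat_lit 2851812848)]
noncomputable def e35_25 : List Rx := [
  Rx.mk (nat_lit 266) (nat_lit 2) (nat_lit 1) (nat_lit 4) (nat_lit 3) (nat_lit 283) (nat_lit 284) r6_283 r7_284 (nat_lit 0) (nat_lit 0) (nat_lit 6173782) (nat_lit 0x1d1b708b64) (nat_lit 2960916230),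
  Rx.mk (nat_lit 270) (nat_lit 6) (nat_lit 1) (nat_lit 4) (nat_lit 3) (nat_lit 282) (nat_lit 282) r6_282 r7_282 (nat_lit 0) (nat_lit 0) (nat_lit 13430557) (nat_lit 0x1ff86b632a) (nat_lit 2170020455),
  Rx.mk (nat_lit 322) (nat_lit 2) (nat_lit 0) (nat_lit 5) (nat_lit 5) (nat_lit 281) (nat_lit 281) r6_281 r7_281 (nat_lit 0) (nat_lit 13430557) (nat_lit 0) (nat_lit 0x1ff86b632a) (nat_lit 2170020455),
  Rx.mk (nat_lit 326) (nat_lit 6) (nat_lit 0) (nat_lit 5) (nat_lit 5) (nat_lit 280) (nat_lit 280) r6_280 r7_280 (nat_lit 0) (nat_lit 6173782) (nat_lit 0) (nat_lit 0x1d1b708b64) (nat_lit 2960916230),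
  Rx.mk (nat_lit 330) (nat_lit 2) (nat_lit 1) (nat_lit 5) (nat_lit 7) (nat_lit 285) (nat_lit 285) r6_285 r7_285 (nat_lit 0) (nat_lit 0) (nat_lit 0) (nat_lit 0x2014b5fc66) (nat_lit 2126224198),
  Rx.mk (nat_lit 334) (nat_lit 6) (nat_lit 1) (nat_lit 5) (nat_lit 7) (nat_lit 284) (nat_lit 283) r6_284 r7_283 (nat_lit 0) (nat_lit 0) (nat_lit 0) (nat_lit 0x2014b5fc66) (nat_lit 2126224198)]
noncomputable def e35_26 : List Rx := [
  Rx.mk (nat_lit 266) (nat_lit 2) (nat_lit 1) (nat_lit 4) (nat_lit 3) (nat_lit 301) (nat_lit 216) r6_301 r8_216 (nat_lit 0) (nat_lit 0) (nat_lit 12950370) (nat_lit 0x2009bc934c) (nat_lit 2150918918),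
  Rx.mk (nat_lit 270) (nat_lit 6) (nat_lit 1) (nat_lit 4) (nat_lit 3) (nat_lit 300) (nat_lit 214) r6_300 r8_214 (nat_lit 0) (nat_lit 0) (nat_lit 22905996) (nat_lit 0x201b7b8070) (nat_lit 2141953244),
  Rx.mk (nat_lit 330) (nat_lit 2) (nat_lit 1) (nat_lit 5) (nat_lit 7) (nat_lit 303) (nat_lit 217) r6_303 r8_217 (nat_lit 0) (nat_lit 0) (nat_lit 0) (nat_lit 0x2026f1b668) (nat_lit 2106815848),
  Rx.mk (nat_lit 334) (nat_lit 6) (nat_lit 1) (nat_lit 5) (nat_lit 7) (nat_lit 302) (nat_lit 215) r6_302 r8_215 (nat_lit 0) (nat_lit 0) (nat_lit 0) (nat_lit 0x200d095a4e) (nat_lit 2134500898)]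
noncomputable def e35_27 : List Rx := [
  Rx.mk (nat_lit 322) (nat_lit 2) (nat_lit 0) (nat_lit 5) (nat_lit 5) (nat_lit 311) (nat_lit 214) r6_311 r8_214 (nat_lit 0) (nat_lit 22905996) (nat_lit 0) (nat_lit 0x201b7b8070) (nat_lit 2141953244),
  Rx.mk (nat_lit 326) (nat_lit 6) (nat_lit 0) (nat_lit 5) (nat_lit 5) (nat_lit 310) (nat_lit 216) r6_310 r8_216 (nat_lit 0) (nat_lit 12950370) (nat_lit 0) (nat_lit 0x2009bc934c) (nat_lit 2150918918),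
  Rx.mk (nat_lit 330) (nat_lit 2) (nat_lit 1) (nat_lit 5) (nat_lit 7) (nat_lit 313) (nat_lit 215) r6_313 r8_215 (nat_lit 0) (nat_lit 0) (nat_lit 0) (nat_lit 0x200d095a4e) (nat_lit 2134500898),
  Rx.mk (nat_lit 334) (nat_lit 6) (nat_lit 1) (nat_lit 5) (nat_lit 7) (nat_lit 312) (nat_lit 217) r6_312 r8_217 (nat_lit 0) (nat_lit 0) (nat_lit 0) (nat_lit 0x2026f1b668) (nat_lit 2106815848)]
noncomputable def e35_28 : List Rx := [
  Rx.mk (nat_lit 258) (nat_lit 2) (nat_lit 0) (nat_lit 4) (nat_lit 1) (nat_lit 345) (nat_lit 228) r6_345 r10_228 (nat_lit 0) (nat_lit 883330) (nat_lit 909772) (nat_lit 0x1db1c33d96) (nat_lit 2792482000),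
  Rx.mk (nat_lit 262) (nat_lit 6) (nat_lit 0) (nat_lit 4) (nat_lit 1) (nat_lit 344) (nat_lit 225) r6_344 r10_225 (nat_lit 0) (nat_lit 909772) (nat_lit 883330) (nat_lit 0x1db1c33d96) (nat_lit 2792482000),
  Rx.mk (nat_lit 266) (nat_lit 2) (nat_lit 1) (nat_lit 4) (nat_lit 3) (nat_lit 350) (nat_lit 233) r6_350 r10_233 (nat_lit 0) (nat_lit 0) (nat_lit 12357481) (nat_lit 0x20235d8b76) (nat_lit 2122963579),
  Rx.mk (nat_lit 270) (nat_lit 6) (nat_lit 1) (nat_lit 4) (nat_lit 3) (nat_lit 349) (nat_lit 230) r6_349 r10_230 (nat_lit 0) (nat_lit 0) (nat_lit 14425314) (nat_lit 0x2071a68774) (nat_lit 2041783962),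
  Rx.mk (nat_lit 282) (nat_lit 2) (nat_lit 3) (nat_lit 4) (nat_lit 3) (nat_lit 354) (nat_lit 235) r6_354 r10_235 (nat_lit 0) (nat_lit 0) (nat_lit 13279449) (nat_lit 0x20399c77b2) (nat_lit 2100199847),
  Rx.mk (nat_lit 322) (nat_lit 2) (nat_lit 0) (nat_lit 5) (nat_lit 5) (nat_lit 347) (nat_lit 229) r6_347 r10_229 (nat_lit 0) (nat_lit 14425314) (nat_lit 0) (nat_lit 0x2071a68774) (nat_lit 2041783962),
  Rx.mk (nat_lit 326) (nat_lit 6) (nat_lit 0) (nat_lit 5) (nat_lit 5) (nat_lit 346) (nat_lit 226) r6_346 r10_226 (nat_lit 0) (nat_lit 12357481) (nat_lit 0) (nat_lit 0x20235d8b76) (nat_lit 2122963579),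
  Rx.mk (nat_lit 330) (nat_lit 2) (nat_lit 1) (nat_lit 5) (nat_lit 7) (nat_lit 352) (nat_lit 234) r6_352 r10_234 (nat_lit 0) (nat_lit 0) (nat_lit 0) (nat_lit 0x2026d194a0) (nat_lit 2106955348),
  Rx.mk (nat_lit 334) (nat_lit 6) (nat_lit 1) (nat_lit 5) (nat_lit 7) (nat_lit 351) (nat_lit 231) r6_351 r10_231 (nat_lit 0) (nat_lit 0) (nat_lit 0) (nat_lit 0x2026d194a0) (nat_lit 2106955348),
  Rx.mk (nat_lit 346) (nat_lit 2) (nat_lit 3) (nat_lit 5) (nat_lit 7) (nat_lit 355) (nat_lit 236) r6_355 r10_236 (nat_lit 0) (nat_lit 0) (nat_lit 0) (nat_lit 0x2026d197b6) (nat_lit 2106955298),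
  Rx.mk (nat_lit 454) (nat_lit 6) (nat_lit 0) (nat_lit 7) (nat_lit 5) (nat_lit 348) (nat_lit 227) r6_348 r10_227 (nat_lit 0) (nat_lit 13279449) (nat_lit 0) (nat_lit 0x20399c77b2) (nat_lit 2100199847),
  Rx.mk (nat_lit 462) (nat_lit 6) (nat_lit 1) (nat_lit 7) (nat_lit 7) (nat_lit 353) (nat_lit 232) r6_353 r10_232 (nat_lit 0) (nat_lit 0) (nat_lit 0) (nat_lit 0x2026d197b6) (nat_lit 2106955298)]
noncomputable def e35_29 : List Rx := [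
  Rx.mk (nat_lit 258) (nat_lit 2) (nat_lit 0) (nat_lit 4) (nat_lit 1) (nat_lit 356) (nat_lit 267) r6_356 r11_267 (nat_lit 0) (nat_lit 3404605) (nat_lit 4006275) (nat_lit 0x1e809cfb8e) (nat_lit 2572942578),
  Rx.mk (nat_lit 266) (nat_lit 2) (nat_lit 1) (nat_lit 4) (nat_lit 3) (nat_lit 359) (nat_lit 270) r6_359 r11_270 (nat_lit 0) (nat_lit 0) (nat_lit 13581965) (nat_lit 0x203e5e8ce0) (nat_lit 2095442213),
  Rx.mk (nat_lit 282) (nat_lit 2) (nat_lit 3) (nat_lit 4) (nat_lit 3) (nat_lit 362) (nat_lit 272) r6_362 r11_272 (nat_lit 0) (nat_lit 0) (nat_lit 17015451) (nat_lit 0x203fd4e4a2) (nat_lit 2097339349),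
  Rx.mk (nat_lit 450) (nat_lit 2) (nat_lit 0) (nat_lit 7) (nat_lit 5) (nat_lit 358) (nat_lit 268) r6_358 r11_268 (nat_lit 0) (nat_lit 14473272) (nat_lit 0) (nat_lit 0x204310d45a) (nat_lit 2091350870),
  Rx.mk (nat_lit 454) (nat_lit 6) (nat_lit 0) (nat_lit 7) (nat_lit 5) (nat_lit 357) (nat_lit 266) r6_357 r11_266 (nat_lit 0) (nat_lit 3356373) (nat_lit 0) (nat_lit 0x1f790551c2) (nat_lit 2298246471),
  Rx.mk (nat_lit 458) (nat_lit 2) (nat_lit 1) (nat_lit 7) (nat_lit 7) (nat_lit 361) (nat_lit 271) r6_361 r11_271 (nat_lit 0) (nat_lit 0) (nat_lit 0) (nat_lit 0x2000efab8c) (nat_lit 2147483648),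
  Rx.mk (nat_lit 462) (nat_lit 6) (nat_lit 1) (nat_lit 7) (nat_lit 7) (nat_lit 360) (nat_lit 269) r6_360 r11_269 (nat_lit 0) (nat_lit 0) (nat_lit 0) (nat_lit 0x22b025bc3e) (nat_lit 1417222998)]
noncomputable def e35_30 : List Rx := [
  Rx.mk (nat_lit 20) (nat_lit 4) (nat_lit 2) (nat_lit 0) (nat_lit 2) (nat_lit 90) (nat_lit 70) r6_90 r5_70 (nat_lit 9770) (nat_lit 0) (nat_lit 15332) (nat_lit 0x1fff59ce10) (nat_lit 2148219850),
  Rx.mk (nat_lit 22) (nat_lit 6) (nat_lit 2) (nat_lit 0) (nat_lit 3) (nat_lit 91) (nat_lit 72) r6_91 r5_72 (nat_lit 0) (nat_lit 0) (nat_lit 18343661) (nat_lit 0x1f3e6a0184) (nat_lit 2377266509),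
  Rx.mk (nat_lit 23) (nat_lit 7) (nat_lit 2) (nat_lit 0) (nat_lit 3) (nat_lit 92) (nat_lit 71) r6_92 r5_71 (nat_lit 0) (nat_lit 0) (nat_lit 7277444) (nat_lit 0x2178af2c6e) (nat_lit 1755232442),
  Rx.mk (nat_lit 148) (nat_lit 4) (nat_lit 2) (nat_lit 2) (nat_lit 6) (nat_lit 93) (nat_lit 78) r6_93 r5_78 (nat_lit 22114884) (nat_lit 0) (nat_lit 0) (nat_lit 0x1fd0a8adf2) (nat_lit 2221885182),
  Rx.mk (nat_lit 151) (nat_lit 7) (nat_lit 2) (nat_lit 2) (nat_lit 7) (nat_lit 94) (nat_lit 79) r6_94 r5_79 (nat_lit 0) (nat_lit 0) (nat_lit 0) (nat_lit 0x1f028e4396) (nat_lit 2424116498),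
  Rx.mk (nat_lit 183) (nat_lit 7) (nat_lit 6) (nat_lit 2) (nat_lit 7) (nat_lit 88) (nat_lit 77) r6_88 r5_77 (nat_lit 0) (nat_lit 0) (nat_lit 0) (nat_lit 0x1f3c00cbee) (nat_lit 2361037198),
  Rx.mk (nat_lit 198) (nat_lit 6) (nat_lit 0) (nat_lit 3) (nat_lit 5) (nat_lit 89) (nat_lit 73) r6_89 r5_73 (nat_lit 0) (nat_lit 5712342) (nat_lit 0) (nat_lit 0x200095ed2c) (nat_lit 2153380190),
  Rx.mk (nat_lit 212) (nat_lit 4) (nat_lit 2) (nat_lit 3) (nat_lit 6) (nat_lit 95) (nat_lit 75) r6_95 r5_75 (nat_lit 3276232) (nat_lit 0) (nat_lit 0) (nat_lit 0x215ff9cf8a) (nat_lit 1777400230),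
  Rx.mk (nat_lit 214) (nat_lit 6) (nat_lit 2) (nat_lit 3) (nat_lit 7) (nat_lit 96) (nat_lit 76) r6_96 r5_76 (nat_lit 0) (nat_lit 0) (nat_lit 0) (nat_lit 0x221e48cb08) (nat_lit 1572146548),
  Rx.mk (nat_lit 222) (nat_lit 6) (nat_lit 3) (nat_lit 3) (nat_lit 7) (nat_lit 97) (nat_lit 74) r6_97 r5_74 (nat_lit 0) (nat_lit 0) (nat_lit 0) (nat_lit 0x1ff6448342) (nat_lit 2158897398)]
noncomputable def e35_31 : List Rx := [
  Rx.mk (nat_lit 6) (nat_lit 6) (nat_lit 0) (nat_lit 0) (nat_lit 1) (nat_lit 224) (nat_lit 53) r6_224 r11_53 (nat_lit 0) (nat_lit 7927408) (nat_lit 4755979) (nat_lit 0x1ea5a6abf0) (nat_lit 2537972735),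
  Rx.mk (nat_lit 20) (nat_lit 4) (nat_lit 2) (nat_lit 0) (nat_lit 2) (nat_lit 227) (nat_lit 54) r6_227 r11_54 (nat_lit 5195462) (nat_lit 0) (nat_lit 5458331) (nat_lit 0x1e52b1f120) (nat_lit 2626244641),
  Rx.mk (nat_lit 22) (nat_lit 6) (nat_lit 2) (nat_lit 0) (nat_lit 3) (nat_lit 228) (nat_lit 56) r6_228 r11_56 (nat_lit 0) (nat_lit 0) (nat_lit 8286677) (nat_lit 0x20237f3b36) (nat_lit 2118757375),
  Rx.mk (nat_lit 23) (nat_lit 7) (nat_lit 2) (nat_lit 0) (nat_lit 3) (nat_lit 229) (nat_lit 55) r6_229 r11_55 (nat_lit 0) (nat_lit 0) (nat_lit 15934796) (nat_lit 0x203db107aa) (nat_lit 2098526294),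
  Rx.mk (nat_lit 70) (nat_lit 6) (nat_lit 0) (nat_lit 1) (nat_lit 5) (nat_lit 225) (nat_lit 57) r6_225 r11_57 (nat_lit 0) (nat_lit 39267561) (nat_lit 0) (nat_lit 0x2000efab8c) (nat_lit 2186751209),
  Rx.mk (nat_lit 84) (nat_lit 4) (nat_lit 2) (nat_lit 1) (nat_lit 6) (nat_lit 230) (nat_lit 58) r6_230 r11_58 (nat_lit 25773849) (nat_lit 0) (nat_lit 0) (nat_lit 0x2012edb702) (nat_lit 2153958047),
  Rx.mk (nat_lit 86) (nat_lit 6) (nat_lit 2) (nat_lit 1) (nat_lit 7) (nat_lit 231) (nat_lit 60) r6_231 r11_60 (nat_lit 0) (nat_lit 0) (nat_lit 0) (nat_lit 0x201fd8ead6) (nat_lit 2114387298),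
  Rx.mk (nat_lit 87) (nat_lit 7) (nat_lit 2) (nat_lit 1) (nat_lit 7) (nat_lit 232) (nat_lit 59) r6_232 r11_59 (nat_lit 0) (nat_lit 0) (nat_lit 0) (nat_lit 0x2000efab8c) (nat_lit 2147483648),
  Rx.mk (nat_lit 148) (nat_lit 4) (nat_lit 2) (nat_lit 2) (nat_lit 6) (nat_lit 233) (nat_lit 66) r6_233 r11_66 (nat_lit 20851942) (nat_lit 0) (nat_lit 0) (nat_lit 0x20058a1f06) (nat_lit 2163363640),
  Rx.mk (nat_lit 151) (nat_lit 7) (nat_lit 2) (nat_lit 2) (nat_lit 7) (nat_lit 234) (nat_lit 67) r6_234 r11_67 (nat_lit 0) (nat_lit 0) (nat_lit 0) (nat_lit 0x200ed6b90c) (nat_lit 2132559348),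
  Rx.mk (nat_lit 183) (nat_lit 7) (nat_lit 6) (nat_lit 2) (nat_lit 7) (nat_lit 223) (nat_lit 65) r6_223 r11_65 (nat_lit 0) (nat_lit 0) (nat_lit 0) (nat_lit 0x200ea4e184) (nat_lit 2132640448),
  Rx.mk (nat_lit 198) (nat_lit 6) (nat_lit 0) (nat_lit 3) (nat_lit 5) (nat_lit 226) (nat_lit 61) r6_226 r11_61 (nat_lit 0) (nat_lit 41256762) (nat_lit 0) (nat_lit 0x200fb092c6) (nat_lit 2172894360),
  Rx.mk (nat_lit 212) (nat_lit 4) (nat_lit 2) (nat_lit 3) (nat_lit 6) (nat_lit 235) (nat_lit 63) r6_235 r11_63 (nat_lit 16296979) (nat_lit 0) (nat_lit 0) (nat_lit 0x2029821ed6) (nat_lit 2120364277),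
  Rx.mk (nat_lit 214) (nat_lit 6) (nat_lit 2) (nat_lit 3) (nat_lit 7) (nat_lit 236) (nat_lit 64) r6_236 r11_64 (nat_lit 0) (nat_lit 0) (nat_lit 0) (nat_lit 0x2041f3764a) (nat_lit 2078077698),
  Rx.mk (nat_lit 222) (nat_lit 6) (nat_lit 3) (nat_lit 3) (nat_lit 7) (nat_lit 237) (nat_lit 62) r6_237 r11_62 (nat_lit 0) (nat_lit 0) (nat_lit 0) (nat_lit 0x201578d358) (nat_lit 2125463148)]
noncomputable def e35_32 : List Rx := [
  Rx.mk (nat_lit 282) (nat_lit 2) (nat_lit 3) (nat_lit 4) (nat_lit 3) (nat_lit 262) (nat_lit 262) r6_262 r6_262 (nat_lit 0) (nat_lit 0) (nat_lit 36478) (nat_lit 0x1eb014b190) (nat_lit 2513492626),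
  Rx.mk (nat_lit 286) (nat_lit 6) (nat_lit 3) (nat_lit 4) (nat_lit 3) (nat_lit 261) (nat_lit 257) r6_261 r6_257 (nat_lit 0) (nat_lit 0) (nat_lit 3163675) (nat_lit 0x1f69abbf04) (nat_lit 2314773323),
  Rx.mk (nat_lit 314) (nat_lit 2) (nat_lit 7) (nat_lit 4) (nat_lit 3) (nat_lit 257) (nat_lit 261) r6_257 r6_261 (nat_lit 0) (nat_lit 0) (nat_lit 3163675) (nat_lit 0x1f69abbf04) (nat_lit 2314773323),
  Rx.mk (nat_lit 440) (nat_lit 0) (nat_lit 7) (nat_lit 6) (nat_lit 6) (nat_lit 258) (nat_lit 260) r6_258 r6_260 (nat_lit 184170) (nat_lit 0) (nat_lit 0) (nat_lit 0x1f301d6a30) (nat_lit 2374191518),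
  Rx.mk (nat_lit 442) (nat_lit 2) (nat_lit 7) (nat_lit 6) (nat_lit 7) (nat_lit 259) (nat_lit 263) r6_259 r6_263 (nat_lit 0) (nat_lit 0) (nat_lit 0) (nat_lit 0x20319a5124) (nat_lit 2095274748),
  Rx.mk (nat_lit 454) (nat_lit 6) (nat_lit 0) (nat_lit 7) (nat_lit 5) (nat_lit 260) (nat_lit 258) r6_260 r6_258 (nat_lit 0) (nat_lit 184170) (nat_lit 0) (nat_lit 0x1f301d6a30) (nat_lit 2374191518),
  Rx.mk (nat_lit 478) (nat_lit 6) (nat_lit 3) (nat_lit 7) (nat_lit 7) (nat_lit 263) (nat_lit 259) r6_263 r6_259 (nat_lit 0) (nat_lit 0) (nat_lit 0) (nat_lit 0x20319a5124) (nat_lit 2095274748)]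
noncomputable def e35_33 : List Rx := [
  Rx.mk (nat_lit 262) (nat_lit 6) (nat_lit 0) (nat_lit 4) (nat_lit 1) (nat_lit 363) (nat_lit 232) r6_363 r5_232 (nat_lit 0) (nat_lit 79329) (nat_lit 69133) (nat_lit 0x1fb8fbf344) (nat_lit 2225021510),
  Rx.mk (nat_lit 282) (nat_lit 2) (nat_lit 3) (nat_lit 4) (nat_lit 3) (nat_lit 366) (nat_lit 231) r6_366 r5_231 (nat_lit 0) (nat_lit 0) (nat_lit 15963) (nat_lit 0x2000eaef0c) (nat_lit 2146529811),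
  Rx.mk (nat_lit 286) (nat_lit 6) (nat_lit 3) (nat_lit 4) (nat_lit 3) (nat_lit 365) (nat_lit 233) r6_365 r5_233 (nat_lit 0) (nat_lit 0) (nat_lit 7975319) (nat_lit 0x215e5f1bd0) (nat_lit 1783890867),
  Rx.mk (nat_lit 454) (nat_lit 6) (nat_lit 0) (nat_lit 7) (nat_lit 5) (nat_lit 364) (nat_lit 234) r6_364 r5_234 (nat_lit 0) (nat_lit 730541) (nat_lit 0) (nat_lit 0x202016d134) (nat_lit 2114314189)]
noncomputable def e35_34 : List Rx := [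
  Rx.mk (nat_lit 262) (nat_lit 6) (nat_lit 0) (nat_lit 4) (nat_lit 1) (nat_lit 367) (nat_lit 267) r6_367 r11_267 (nat_lit 0) (nat_lit 4006275) (nat_lit 3404605) (nat_lit 0x1e809cfb8e) (nat_lit 2572942578),
  Rx.mk (nat_lit 282) (nat_lit 2) (nat_lit 3) (nat_lit 4) (nat_lit 3) (nat_lit 371) (nat_lit 266) r6_371 r11_266 (nat_lit 0) (nat_lit 0) (nat_lit 3356373) (nat_lit 0x1f790551c2) (nat_lit 2298246471),
  Rx.mk (nat_lit 286) (nat_lit 6) (nat_lit 3) (nat_lit 4) (nat_lit 3) (nat_lit 370) (nat_lit 268) r6_370 r11_268 (nat_lit 0) (nat_lit 0) (nat_lit 14473272) (nat_lit 0x204310d45a) (nat_lit 2091350870),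
  Rx.mk (nat_lit 326) (nat_lit 6) (nat_lit 0) (nat_lit 5) (nat_lit 5) (nat_lit 368) (nat_lit 270) r6_368 r11_270 (nat_lit 0) (nat_lit 13581965) (nat_lit 0) (nat_lit 0x203e5e8ce0) (nat_lit 2095442213),
  Rx.mk (nat_lit 346) (nat_lit 2) (nat_lit 3) (nat_lit 5) (nat_lit 7) (nat_lit 373) (nat_lit 269) r6_373 r11_269 (nat_lit 0) (nat_lit 0) (nat_lit 0) (nat_lit 0x22b025bc3e) (nat_lit 1417222998),
  Rx.mk (nat_lit 350) (nat_lit 6) (nat_lit 3) (nat_lit 5) (nat_lit 7) (nat_lit 372) (nat_lit 271) r6_372 r11_271 (nat_lit 0) (nat_lit 0) (nat_lit 0) (nat_lit 0x2000efab8c) (nat_lit 2147483648),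
  Rx.mk (nat_lit 454) (nat_lit 6) (nat_lit 0) (nat_lit 7) (nat_lit 5) (nat_lit 369) (nat_lit 272) r6_369 r11_272 (nat_lit 0) (nat_lit 17015451) (nat_lit 0) (nat_lit 0x203fd4e4a2) (nat_lit 2097339349)]
noncomputable def e35_35 : List Rx := [
  Rx.mk (nat_lit 23) (nat_lit 7) (nat_lit 2) (nat_lit 0) (nat_lit 3) (nat_lit 80) (nat_lit 74) r6_80 r6_74 (nat_lit 0) (nat_lit 0) (nat_lit 4616) (nat_lit 0x1fffcf246c) (nat_lit 2147697964),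
  Rx.mk (nat_lit 151) (nat_lit 7) (nat_lit 2) (nat_lit 2) (nat_lit 7) (nat_lit 81) (nat_lit 78) r6_81 r6_78 (nat_lit 0) (nat_lit 0) (nat_lit 0) (nat_lit 0x1f6a63b73a) (nat_lit 2310818198),
  Rx.mk (nat_lit 179) (nat_lit 3) (nat_lit 6) (nat_lit 2) (nat_lit 7) (nat_lit 73) (nat_lit 85) r6_73 r6_85 (nat_lit 0) (nat_lit 0) (nat_lit 0) (nat_lit 0x1ff2766154) (nat_lit 2162238748),
  Rx.mk (nat_lit 183) (nat_lit 7) (nat_lit 6) (nat_lit 2) (nat_lit 7) (nat_lit 72) (nat_lit 86) r6_72 r6_86 (nat_lit 0) (nat_lit 0) (nat_lit 0) (nat_lit 0x1ff2766154) (nat_lit 2162238748),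
  Rx.mk (nat_lit 198) (nat_lit 6) (nat_lit 0) (nat_lit 3) (nat_lit 5) (nat_lit 79) (nat_lit 70) r6_79 r6_70 (nat_lit 0) (nat_lit 4616) (nat_lit 0) (nat_lit 0x1fffcf246c) (nat_lit 2147697964),
  Rx.mk (nat_lit 212) (nat_lit 4) (nat_lit 2) (nat_lit 3) (nat_lit 6) (nat_lit 82) (nat_lit 75) r6_82 r6_75 (nat_lit 46581) (nat_lit 0) (nat_lit 0) (nat_lit 0x1f5ed3b578) (nat_lit 2323131029),
  Rx.mk (nat_lit 214) (nat_lit 6) (nat_lit 2) (nat_lit 3) (nat_lit 7) (nat_lit 83) (nat_lit 77) r6_83 r6_77 (nat_lit 0) (nat_lit 0) (nat_lit 0) (nat_lit 0x1ff8dabf36) (nat_lit 2155296798),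
  Rx.mk (nat_lit 215) (nat_lit 7) (nat_lit 2) (nat_lit 3) (nat_lit 7) (nat_lit 84) (nat_lit 76) r6_84 r6_76 (nat_lit 0) (nat_lit 0) (nat_lit 0) (nat_lit 0x1ff8dabf36) (nat_lit 2155296798),
  Rx.mk (nat_lit 222) (nat_lit 6) (nat_lit 3) (nat_lit 3) (nat_lit 7) (nat_lit 87) (nat_lit 71) r6_87 r6_71 (nat_lit 0) (nat_lit 0) (nat_lit 0) (nat_lit 0x1f6a63b73a) (nat_lit 2310818198),
  Rx.mk (nat_lit 314) (nat_lit 2) (nat_lit 7) (nat_lit 4) (nat_lit 3) (nat_lit 74) (nat_lit 80) r6_74 r6_80 (nat_lit 0) (nat_lit 0) (nat_lit 4616) (nat_lit 0x1fffcf246c) (nat_lit 2147697964),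
  Rx.mk (nat_lit 419) (nat_lit 3) (nat_lit 4) (nat_lit 6) (nat_lit 5) (nat_lit 70) (nat_lit 79) r6_70 r6_79 (nat_lit 0) (nat_lit 4616) (nat_lit 0) (nat_lit 0x1fffcf246c) (nat_lit 2147697964),
  Rx.mk (nat_lit 435) (nat_lit 3) (nat_lit 6) (nat_lit 6) (nat_lit 7) (nat_lit 71) (nat_lit 87) r6_71 r6_87 (nat_lit 0) (nat_lit 0) (nat_lit 0) (nat_lit 0x1f6a63b73a) (nat_lit 2310818198),
  Rx.mk (nat_lit 440) (nat_lit 0) (nat_lit 7) (nat_lit 6) (nat_lit 6) (nat_lit 75) (nat_lit 82) r6_75 r6_82 (nat_lit 46581) (nat_lit 0) (nat_lit 0) (nat_lit 0x1f5ed3b578) (nat_lit 2323131029),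
  Rx.mk (nat_lit 442) (nat_lit 2) (nat_lit 7) (nat_lit 6) (nat_lit 7) (nat_lit 76) (nat_lit 84) r6_76 r6_84 (nat_lit 0) (nat_lit 0) (nat_lit 0) (nat_lit 0x1ff8dabf36) (nat_lit 2155296798),
  Rx.mk (nat_lit 443) (nat_lit 3) (nat_lit 7) (nat_lit 6) (nat_lit 7) (nat_lit 77) (nat_lit 83) r6_77 r6_83 (nat_lit 0) (nat_lit 0) (nat_lit 0) (nat_lit 0x1ff8dabf36) (nat_lit 2155296798),
  Rx.mk (nat_lit 474) (nat_lit 2) (nat_lit 3) (nat_lit 7) (nat_lit 7) (nat_lit 86) (nat_lit 72) r6_86 r6_72 (nat_lit 0) (nat_lit 0) (nat_lit 0) (nat_lit 0x1ff2766154) (nat_lit 2162238748),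
  Rx.mk (nat_lit 478) (nat_lit 6) (nat_lit 3) (nat_lit 7) (nat_lit 7) (nat_lit 85) (nat_lit 73) r6_85 r6_73 (nat_lit 0) (nat_lit 0) (nat_lit 0) (nat_lit 0x1ff2766154) (nat_lit 2162238748),
  Rx.mk (nat_lit 506) (nat_lit 2) (nat_lit 7) (nat_lit 7) (nat_lit 7) (nat_lit 78) (nat_lit 81) r6_78 r6_81 (nat_lit 0) (nat_lit 0) (nat_lit 0) (nat_lit 0x1f6a63b73a) (nat_lit 2310818198)]
noncomputable def e35_36 : List Rx := [
  Rx.mk (nat_lit 198) (nat_lit 6) (nat_lit 0) (nat_lit 3) (nat_lit 5) (nat_lit 269) (nat_lit 296) r6_269 r12_296 (nat_lit 0) (nat_lit 10802) (nat_lit 0) (nat_lit 0x1e67e50c44) (nat_lit 2592099450),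
  Rx.mk (nat_lit 212) (nat_lit 4) (nat_lit 2) (nat_lit 3) (nat_lit 6) (nat_lit 270) (nat_lit 294) r6_270 r12_294 (nat_lit 219329) (nat_lit 0) (nat_lit 0) (nat_lit 0x1eecf3e8f6) (nat_lit 2447412027),
  Rx.mk (nat_lit 214) (nat_lit 6) (nat_lit 2) (nat_lit 3) (nat_lit 7) (nat_lit 271) (nat_lit 299) r6_271 r12_299 (nat_lit 0) (nat_lit 0) (nat_lit 0) (nat_lit 0x2078180a74) (nat_lit 2020246648),
  Rx.mk (nat_lit 215) (nat_lit 7) (nat_lit 2) (nat_lit 3) (nat_lit 7) (nat_lit 272) (nat_lit 295) r6_272 r12_295 (nat_lit 0) (nat_lit 0) (nat_lit 0) (nat_lit 0x2034cf6c76) (nat_lit 2091697098),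
  Rx.mk (nat_lit 282) (nat_lit 2) (nat_lit 3) (nat_lit 4) (nat_lit 3) (nat_lit 273) (nat_lit 290) r6_273 r12_290 (nat_lit 0) (nat_lit 0) (nat_lit 5176) (nat_lit 0x1fbb985822) (nat_lit 2222012674),
  Rx.mk (nat_lit 314) (nat_lit 2) (nat_lit 7) (nat_lit 4) (nat_lit 3) (nat_lit 264) (nat_lit 292) r6_264 r12_292 (nat_lit 0) (nat_lit 0) (nat_lit 10802) (nat_lit 0x1e67e50c44) (nat_lit 2592099450),
  Rx.mk (nat_lit 440) (nat_lit 0) (nat_lit 7) (nat_lit 6) (nat_lit 6) (nat_lit 265) (nat_lit 288) r6_265 r12_288 (nat_lit 219329) (nat_lit 0) (nat_lit 0) (nat_lit 0x1eecf3e8f6) (nat_lit 2447412027),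
  Rx.mk (nat_lit 442) (nat_lit 2) (nat_lit 7) (nat_lit 6) (nat_lit 7) (nat_lit 266) (nat_lit 293) r6_266 r12_293 (nat_lit 0) (nat_lit 0) (nat_lit 0) (nat_lit 0x2078180a74) (nat_lit 2020246648),
  Rx.mk (nat_lit 443) (nat_lit 3) (nat_lit 7) (nat_lit 6) (nat_lit 7) (nat_lit 267) (nat_lit 289) r6_267 r12_289 (nat_lit 0) (nat_lit 0) (nat_lit 0) (nat_lit 0x2034cf6c76) (nat_lit 2091697098),
  Rx.mk (nat_lit 454) (nat_lit 6) (nat_lit 0) (nat_lit 7) (nat_lit 5) (nat_lit 268) (nat_lit 297) r6_268 r12_297 (nat_lit 0) (nat_lit 5176) (nat_lit 0) (nat_lit 0x1fbb985822) (nat_lit 2222012674),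
  Rx.mk (nat_lit 474) (nat_lit 2) (nat_lit 3) (nat_lit 7) (nat_lit 7) (nat_lit 275) (nat_lit 291) r6_275 r12_291 (nat_lit 0) (nat_lit 0) (nat_lit 0) (nat_lit 0x1ffd36a48c) (nat_lit 2150521948),
  Rx.mk (nat_lit 478) (nat_lit 6) (nat_lit 3) (nat_lit 7) (nat_lit 7) (nat_lit 274) (nat_lit 298) r6_274 r12_298 (nat_lit 0) (nat_lit 0) (nat_lit 0) (nat_lit 0x1ffd36a48c) (nat_lit 2150521948)]
noncomputable def e35_37 : List Rx := [
  Rx.mk (nat_lit 176) (nat_lit 0) (nat_lit 6) (nat_lit 2) (nat_lit 6) (nat_lit 105) (nat_lit 231) r6_105 r0_231 (nat_lit 6208960) (nat_lit 0) (nat_lit 0) (nat_lit 0x1e9d3cb284) (nat_lit 2540609808),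
  Rx.mk (nat_lit 290) (nat_lit 2) (nat_lit 4) (nat_lit 4) (nat_lit 1) (nat_lit 98) (nat_lit 232) r6_98 r0_232 (nat_lit 0) (nat_lit 30087) (nat_lit 43050) (nat_lit 0x1db0d45064) (nat_lit 2791604985),
  Rx.mk (nat_lit 298) (nat_lit 2) (nat_lit 5) (nat_lit 4) (nat_lit 3) (nat_lit 101) (nat_lit 233) r6_101 r0_233 (nat_lit 0) (nat_lit 0) (nat_lit 267236) (nat_lit 0x210c9ec3fe) (nat_lit 1862567534),
  Rx.mk (nat_lit 416) (nat_lit 0) (nat_lit 4) (nat_lit 6) (nat_lit 4) (nat_lit 99) (nat_lit 228) r6_99 r0_228 (nat_lit 14886) (nat_lit 17761) (nat_lit 0) (nat_lit 0x1cee93e3de) (nat_lit 3003181845),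
  Rx.mk (nat_lit 418) (nat_lit 2) (nat_lit 4) (nat_lit 6) (nat_lit 5) (nat_lit 100) (nat_lit 234) r6_100 r0_234 (nat_lit 0) (nat_lit 16654996) (nat_lit 0) (nat_lit 0x2005241f12) (nat_lit 2159652094),
  Rx.mk (nat_lit 424) (nat_lit 0) (nat_lit 5) (nat_lit 6) (nat_lit 6) (nat_lit 102) (nat_lit 229) r6_102 r0_229 (nat_lit 5496569) (nat_lit 0) (nat_lit 0) (nat_lit 0x22939b42fa) (nat_lit 1452874667),
  Rx.mk (nat_lit 426) (nat_lit 2) (nat_lit 5) (nat_lit 6) (nat_lit 7) (nat_lit 103) (nat_lit 235) r6_103 r0_235 (nat_lit 0) (nat_lit 0) (nat_lit 0) (nat_lit 0x20b612ff1e) (nat_lit 1954649298),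
  Rx.mk (nat_lit 432) (nat_lit 0) (nat_lit 6) (nat_lit 6) (nat_lit 6) (nat_lit 104) (nat_lit 230) r6_104 r0_230 (nat_lit 10858692) (nat_lit 0) (nat_lit 0) (nat_lit 0x1eba56bc98) (nat_lit 2513638840)]
noncomputable def e35_38 : List Rx := [
  Rx.mk (nat_lit 176) (nat_lit 0) (nat_lit 6) (nat_lit 2) (nat_lit 6) (nat_lit 5) (nat_lit 85) r6_5 r0_85 (nat_lit 4823489) (nat_lit 0) (nat_lit 0) (nat_lit 0x206bc35c4c) (nat_lit 2038343737),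
  Rx.mk (nat_lit 177) (nat_lit 1) (nat_lit 6) (nat_lit 2) (nat_lit 7) (nat_lit 6) (nat_lit 86) r6_6 r0_86 (nat_lit 0) (nat_lit 0) (nat_lit 0) (nat_lit 0x218a46bc08) (nat_lit 1729288248),
  Rx.mk (nat_lit 416) (nat_lit 0) (nat_lit 4) (nat_lit 6) (nat_lit 4) (nat_lit 0) (nat_lit 82) r6_0 r0_82 (nat_lit 343571) (nat_lit 528265) (nat_lit 0) (nat_lit 0x19e1c87672) (nat_lit 3854735034),
  Rx.mk (nat_lit 417) (nat_lit 1) (nat_lit 4) (nat_lit 6) (nat_lit 5) (nat_lit 1) (nat_lit 83) r6_1 r0_83 (nat_lit 0) (nat_lit 22646286) (nat_lit 0) (nat_lit 0x1fe695ad68) (nat_lit 2198518134),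
  Rx.mk (nat_lit 418) (nat_lit 2) (nat_lit 4) (nat_lit 6) (nat_lit 5) (nat_lit 2) (nat_lit 84) r6_2 r0_84 (nat_lit 0) (nat_lit 11325125) (nat_lit 0) (nat_lit 0x1e4b83c27a) (nat_lit 2634795123),
  Rx.mk (nat_lit 432) (nat_lit 0) (nat_lit 6) (nat_lit 6) (nat_lit 6) (nat_lit 3) (nat_lit 87) r6_3 r0_87 (nat_lit 19637407) (nat_lit 0) (nat_lit 0) (nat_lit 0x1f57f9f064) (nat_lit 2350808155),
  Rx.mk (nat_lit 433) (nat_lit 1) (nat_lit 6) (nat_lit 6) (nat_lit 7) (nat_lit 4) (nat_lit 88) r6_4 r0_88 (nat_lit 0) (nat_lit 0) (nat_lit 0) (nat_lit 0x2073d73e58) (nat_lit 2025033448)]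
noncomputable def e35_39 : List Rx := [
  Rx.mk (nat_lit 176) (nat_lit 0) (nat_lit 6) (nat_lit 2) (nat_lit 6) (nat_lit 114) (nat_lit 296) r6_114 r7_296 (nat_lit 5682584) (nat_lit 0) (nat_lit 0) (nat_lit 0x1f0dcec532) (nat_lit 2417486782),
  Rx.mk (nat_lit 177) (nat_lit 1) (nat_lit 6) (nat_lit 2) (nat_lit 7) (nat_lit 115) (nat_lit 300) r6_115 r7_300 (nat_lit 0) (nat_lit 0) (nat_lit 0) (nat_lit 0x201de5d374) (nat_lit 2116448448),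
  Rx.mk (nat_lit 416) (nat_lit 0) (nat_lit 4) (nat_lit 6) (nat_lit 4) (nat_lit 106) (nat_lit 293) r6_106 r7_293 (nat_lit 158384) (nat_lit 186689) (nat_lit 0) (nat_lit 0x1bd07ae5e2) (nat_lit 3315217271),
  Rx.mk (nat_lit 417) (nat_lit 1) (nat_lit 4) (nat_lit 6) (nat_lit 5) (nat_lit 107) (nat_lit 297) r6_107 r7_297 (nat_lit 0) (nat_lit 15143189) (nat_lit 0) (nat_lit 0x200b9196ae) (nat_lit 2151113287),
  Rx.mk (nat_lit 418) (nat_lit 2) (nat_lit 4) (nat_lit 6) (nat_lit 5) (nat_lit 108) (nat_lit 301) r6_108 r7_301 (nat_lit 0) (nat_lit 9039903) (nat_lit 0) (nat_lit 0x1f0c3c340c) (nat_lit 2422599751),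
  Rx.mk (nat_lit 424) (nat_lit 0) (nat_lit 5) (nat_lit 6) (nat_lit 6) (nat_lit 109) (nat_lit 294) r6_109 r7_294 (nat_lit 15522547) (nat_lit 0) (nat_lit 0) (nat_lit 0x2006c8f40a) (nat_lit 2156644545),
  Rx.mk (nat_lit 425) (nat_lit 1) (nat_lit 5) (nat_lit 6) (nat_lit 7) (nat_lit 110) (nat_lit 298) r6_110 r7_298 (nat_lit 0) (nat_lit 0) (nat_lit 0) (nat_lit 0x20a6955a5a) (nat_lit 1971127798),
  Rx.mk (nat_lit 426) (nat_lit 2) (nat_lit 5) (nat_lit 6) (nat_lit 7) (nat_lit 111) (nat_lit 302) r6_111 r7_302 (nat_lit 0) (nat_lit 0) (nat_lit 0) (nat_lit 0x20390aaab2) (nat_lit 2087565198),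
  Rx.mk (nat_lit 432) (nat_lit 0) (nat_lit 6) (nat_lit 6) (nat_lit 6) (nat_lit 112) (nat_lit 295) r6_112 r7_295 (nat_lit 26573864) (nat_lit 0) (nat_lit 0) (nat_lit 0x1b9621606a) (nat_lit 3405484862),
  Rx.mk (nat_lit 433) (nat_lit 1) (nat_lit 6) (nat_lit 6) (nat_lit 7) (nat_lit 113) (nat_lit 299) r6_113 r7_299 (nat_lit 0) (nat_lit 0) (nat_lit 0) (nat_lit 0x2000efab8c) (nat_lit 2147483648)]
noncomputable def e35_40 : List Rx := [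
  Rx.mk (nat_lit 177) (nat_lit 1) (nat_lit 6) (nat_lit 2) (nat_lit 7) (nat_lit 11) (nat_lit 94) r6_11 r2_94 (nat_lit 0) (nat_lit 0) (nat_lit 0) (nat_lit 0x2000efab8c) (nat_lit 2147483648),
  Rx.mk (nat_lit 181) (nat_lit 5) (nat_lit 6) (nat_lit 2) (nat_lit 7) (nat_lit 10) (nat_lit 95) r6_10 r2_95 (nat_lit 0) (nat_lit 0) (nat_lit 0) (nat_lit 0x2000efab8c) (nat_lit 2147483648)]
noncomputable def e35_41 : List Rx := [
  Rx.mk (nat_lit 177) (nat_lit 1) (nat_lit 6) (nat_lit 2) (nat_lit 7) (nat_lit 127) (nat_lit 61) r6_127 r9_61 (nat_lit 0) (nat_lit 0) (nat_lit 0) (nat_lit 0x2000efab8c) (nat_lit 2147483648),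
  Rx.mk (nat_lit 181) (nat_lit 5) (nat_lit 6) (nat_lit 2) (nat_lit 7) (nat_lit 126) (nat_lit 62) r6_126 r9_62 (nat_lit 0) (nat_lit 0) (nat_lit 0) (nat_lit 0x2000efab8c) (nat_lit 2147483648)]
noncomputable def e35_42 : List Rx := [
  Rx.mk (nat_lit 177) (nat_lit 1) (nat_lit 6) (nat_lit 2) (nat_lit 7) (nat_lit 169) (nat_lit 62) r6_169 r9_62 (nat_lit 0) (nat_lit 0) (nat_lit 0) (nat_lit 0x2000efab8c) (nat_lit 2147483648),
  Rx.mk (nat_lit 181) (nat_lit 5) (nat_lit 6) (nat_lit 2) (nat_lit 7) (nat_lit 168) (nat_lit 61) r6_168 r9_61 (nat_lit 0) (nat_lit 0) (nat_lit 0) (nat_lit 0x2000efab8c) (nat_lit 2147483648)]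
noncomputable def e35_43 : List Rx := [
  Rx.mk (nat_lit 177) (nat_lit 1) (nat_lit 6) (nat_lit 2) (nat_lit 7) (nat_lit 9) (nat_lit 89) r6_9 r1_89 (nat_lit 0) (nat_lit 0) (nat_lit 0) (nat_lit 0x22597baa38) (nat_lit 1509269848),
  Rx.mk (nat_lit 417) (nat_lit 1) (nat_lit 4) (nat_lit 6) (nat_lit 5) (nat_lit 7) (nat_lit 88) r6_7 r1_88 (nat_lit 0) (nat_lit 19149938) (nat_lit 0) (nat_lit 0x202b551178) (nat_lit 2121266686),
  Rx.mk (nat_lit 433) (nat_lit 1) (nat_lit 6) (nat_lit 6) (nat_lit 7) (nat_lit 8) (nat_lit 90) r6_8 r1_90 (nat_lit 0) (nat_lit 0) (nat_lit 0) (nat_lit 0x2054b28226) (nat_lit 2058132998)]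
noncomputable def e35_44 : List Rx := [
  Rx.mk (nat_lit 177) (nat_lit 1) (nat_lit 6) (nat_lit 2) (nat_lit 7) (nat_lit 125) (nat_lit 224) r6_125 r8_224 (nat_lit 0) (nat_lit 0) (nat_lit 0) (nat_lit 0x201df2e532) (nat_lit 2116412298),
  Rx.mk (nat_lit 417) (nat_lit 1) (nat_lit 4) (nat_lit 6) (nat_lit 5) (nat_lit 122) (nat_lit 221) r6_122 r8_221 (nat_lit 0) (nat_lit 24734064) (nat_lit 0) (nat_lit 0x201676d908) (nat_lit 2149143312),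
  Rx.mk (nat_lit 425) (nat_lit 1) (nat_lit 5) (nat_lit 6) (nat_lit 7) (nat_lit 123) (nat_lit 222) r6_123 r8_222 (nat_lit 0) (nat_lit 0) (nat_lit 0) (nat_lit 0x2000efab8c) (nat_lit 2147483648),
  Rx.mk (nat_lit 433) (nat_lit 1) (nat_lit 6) (nat_lit 6) (nat_lit 7) (nat_lit 124) (nat_lit 223) r6_124 r8_223 (nat_lit 0) (nat_lit 0) (nat_lit 0) (nat_lit 0x2000efab8c) (nat_lit 2147483648)]
noncomputable def e35_45 : List Rx := [
  Rx.mk (nat_lit 298) (nat_lit 2) (nat_lit 5) (nat_lit 4) (nat_lit 3) (nat_lit 116) (nat_lit 247) r6_116 r1_247 (nat_lit 0) (nat_lit 0) (nat_lit 2420839) (nat_lit 0x201a47e5e0) (nat_lit 2122315587),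
  Rx.mk (nat_lit 424) (nat_lit 0) (nat_lit 5) (nat_lit 6) (nat_lit 6) (nat_lit 117) (nat_lit 246) r6_117 r1_246 (nat_lit 11578528) (nat_lit 0) (nat_lit 0) (nat_lit 0x210ec50fd0) (nat_lit 1871982276),
  Rx.mk (nat_lit 426) (nat_lit 2) (nat_lit 5) (nat_lit 6) (nat_lit 7) (nat_lit 118) (nat_lit 248) r6_118 r1_248 (nat_lit 0) (nat_lit 0) (nat_lit 0) (nat_lit 0x20f3bd63ea) (nat_lit 1889174098)]
noncomputable def e35_46 : List Rx := [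
  Rx.mk (nat_lit 266) (nat_lit 2) (nat_lit 1) (nat_lit 4) (nat_lit 3) (nat_lit 289) (nat_lit 270) r6_289 r2_270 (nat_lit 0) (nat_lit 0) (nat_lit 67932583) (nat_lit 0x1f1bb86946) (nat_lit 2464643081),
  Rx.mk (nat_lit 298) (nat_lit 2) (nat_lit 5) (nat_lit 4) (nat_lit 3) (nat_lit 286) (nat_lit 269) r6_286 r2_269 (nat_lit 0) (nat_lit 0) (nat_lit 56092190) (nat_lit 0x1fc43de9ce) (nat_lit 2269317788),
  Rx.mk (nat_lit 424) (nat_lit 0) (nat_lit 5) (nat_lit 6) (nat_lit 6) (nat_lit 287) (nat_lit 268) r6_287 r2_268 (nat_lit 95102396) (nat_lit 0) (nat_lit 0) (nat_lit 0x1fcdef6998) (nat_lit 2297800244),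
  Rx.mk (nat_lit 426) (nat_lit 2) (nat_lit 5) (nat_lit 6) (nat_lit 7) (nat_lit 288) (nat_lit 271) r6_288 r2_271 (nat_lit 0) (nat_lit 0) (nat_lit 0) (nat_lit 0x2000efab8c) (nat_lit 2147483648)]
noncomputable def e35_47 : List Rx := [
  Rx.mk (nat_lit 424) (nat_lit 0) (nat_lit 5) (nat_lit 6) (nat_lit 6) (nat_lit 119) (nat_lit 71) r6_119 r8_71 (nat_lit 13558047) (nat_lit 0) (nat_lit 0) (nat_lit 0x2028d5bcfe) (nat_lit 2118348245),
  Rx.mk (nat_lit 425) (nat_lit 1) (nat_lit 5) (nat_lit 6) (nat_lit 7) (nat_lit 120) (nat_lit 72) r6_120 r8_72 (nat_lit 0) (nat_lit 0) (nat_lit 0) (nat_lit 0x20219ab8ea) (nat_lit 2112508498),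
  Rx.mk (nat_lit 426) (nat_lit 2) (nat_lit 5) (nat_lit 6) (nat_lit 7) (nat_lit 121) (nat_lit 73) r6_121 r8_73 (nat_lit 0) (nat_lit 0) (nat_lit 0) (nat_lit 0x20322bb560) (nat_lit 2094853748)]
noncomputable def e35_48 : List Rx := [
  Rx.mk (nat_lit 424) (nat_lit 0) (nat_lit 5) (nat_lit 6) (nat_lit 6) (nat_lit 295) (nat_lit 241) r6_295 r9_241 (nat_lit 39267561) (nat_lit 0) (nat_lit 0) (nat_lit 0x2000efab8c) (nat_lit 2186751209),
  Rx.mk (nat_lit 425) (nat_lit 1) (nat_lit 5) (nat_lit 6) (nat_lit 7) (nat_lit 296) (nat_lit 242) r6_296 r9_242 (nat_lit 0) (nat_lit 0) (nat_lit 0) (nat_lit 0x2000efab8c) (nat_lit 2147483648),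
  Rx.mk (nat_lit 426) (nat_lit 2) (nat_lit 5) (nat_lit 6) (nat_lit 7) (nat_lit 297) (nat_lit 243) r6_297 r9_243 (nat_lit 0) (nat_lit 0) (nat_lit 0) (nat_lit 0x2000efab8c) (nat_lit 2147483648)]
noncomputable def e35_49 : List Rx := [
  Rx.mk (nat_lit 266) (nat_lit 2) (nat_lit 1) (nat_lit 4) (nat_lit 3) (nat_lit 293) (nat_lit 219) r6_293 r9_219 (nat_lit 0) (nat_lit 0) (nat_lit 39267561) (nat_lit 0x2000efab8c) (nat_lit 2186751209),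
  Rx.mk (nat_lit 298) (nat_lit 2) (nat_lit 5) (nat_lit 4) (nat_lit 3) (nat_lit 290) (nat_lit 220) r6_290 r9_220 (nat_lit 0) (nat_lit 0) (nat_lit 45629580) (nat_lit 0x1fe920cc98) (nat_lit 2218828828),
  Rx.mk (nat_lit 330) (nat_lit 2) (nat_lit 1) (nat_lit 5) (nat_lit 7) (nat_lit 294) (nat_lit 221) r6_294 r9_221 (nat_lit 0) (nat_lit 0) (nat_lit 0) (nat_lit 0x2000efab8c) (nat_lit 2147483648),
  Rx.mk (nat_lit 362) (nat_lit 2) (nat_lit 5) (nat_lit 5) (nat_lit 7) (nat_lit 291) (nat_lit 222) r6_291 r9_222 (nat_lit 0) (nat_lit 0) (nat_lit 0) (nat_lit 0x2000efab8c) (nat_lit 2147483648),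
  Rx.mk (nat_lit 426) (nat_lit 2) (nat_lit 5) (nat_lit 6) (nat_lit 7) (nat_lit 292) (nat_lit 223) r6_292 r9_223 (nat_lit 0) (nat_lit 0) (nat_lit 0) (nat_lit 0x2000efab8c) (nat_lit 2147483648)]
noncomputable def e35_50 : List Rx := [
  Rx.mk (nat_lit 176) (nat_lit 0) (nat_lit 6) (nat_lit 2) (nat_lit 6) (nat_lit 15) (nat_lit 230) r6_15 r3_230 (nat_lit 69399) (nat_lit 0) (nat_lit 0) (nat_lit 0x1ffce038ae) (nat_lit 2150977697),
  Rx.mk (nat_lit 179) (nat_lit 3) (nat_lit 6) (nat_lit 2) (nat_lit 7) (nat_lit 16) (nat_lit 231) r6_16 r3_231 (nat_lit 0) (nat_lit 0) (nat_lit 0) (nat_lit 0x1fdfb2f6c2) (nat_lit 2183064198),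
  Rx.mk (nat_lit 314) (nat_lit 2) (nat_lit 7) (nat_lit 4) (nat_lit 3) (nat_lit 17) (nat_lit 232) r6_17 r3_232 (nat_lit 0) (nat_lit 0) (nat_lit 51662) (nat_lit 0x1f95a10e52) (nat_lit 2263426460),
  Rx.mk (nat_lit 416) (nat_lit 0) (nat_lit 4) (nat_lit 6) (nat_lit 4) (nat_lit 12) (nat_lit 227) r6_12 r3_227 (nat_lit 290) (nat_lit 640) (nat_lit 0) (nat_lit 0x1ffffa3f8a) (nat_lit 2147509128),
  Rx.mk (nat_lit 418) (nat_lit 2) (nat_lit 4) (nat_lit 6) (nat_lit 5) (nat_lit 13) (nat_lit 233) r6_13 r3_233 (nat_lit 0) (nat_lit 3370712) (nat_lit 0) (nat_lit 0x1ded95fb74) (nat_lit 2729025760),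
  Rx.mk (nat_lit 432) (nat_lit 0) (nat_lit 6) (nat_lit 6) (nat_lit 6) (nat_lit 14) (nat_lit 229) r6_14 r3_229 (nat_lit 147551) (nat_lit 0) (nat_lit 0) (nat_lit 0x1fd07a499e) (nat_lit 2199444249),
  Rx.mk (nat_lit 440) (nat_lit 0) (nat_lit 7) (nat_lit 6) (nat_lit 6) (nat_lit 18) (nat_lit 228) r6_18 r3_228 (nat_lit 67289) (nat_lit 0) (nat_lit 0) (nat_lit 0x200c864118) (nat_lit 2134275937),
  Rx.mk (nat_lit 442) (nat_lit 2) (nat_lit 7) (nat_lit 6) (nat_lit 7) (nat_lit 19) (nat_lit 234) r6_19 r3_234 (nat_lit 0) (nat_lit 0) (nat_lit 0) (nat_lit 0x207dfe2dd8) (nat_lit 2014173948)]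
noncomputable def e35_51 : List Rx := [
  Rx.mk (nat_lit 176) (nat_lit 0) (nat_lit 6) (nat_lit 2) (nat_lit 6) (nat_lit 135) (nat_lit 233) r6_135 r4_233 (nat_lit 27953982) (nat_lit 0) (nat_lit 0) (nat_lit 0x1e5f57767a) (nat_lit 2629847480),
  Rx.mk (nat_lit 179) (nat_lit 3) (nat_lit 6) (nat_lit 2) (nat_lit 7) (nat_lit 136) (nat_lit 234) r6_136 r4_234 (nat_lit 0) (nat_lit 0) (nat_lit 0) (nat_lit 0x1fd2865336) (nat_lit 2197588398),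
  Rx.mk (nat_lit 290) (nat_lit 2) (nat_lit 4) (nat_lit 4) (nat_lit 1) (nat_lit 128) (nat_lit 235) r6_128 r4_235 (nat_lit 0) (nat_lit 1128) (nat_lit 1777) (nat_lit 0x1ea09d8c78) (nat_lit 2530295753),
  Rx.mk (nat_lit 298) (nat_lit 2) (nat_lit 5) (nat_lit 4) (nat_lit 3) (nat_lit 131) (nat_lit 236) r6_131 r4_236 (nat_lit 0) (nat_lit 0) (nat_lit 27111174) (nat_lit 0x2011d7632c) (nat_lit 2156468622),
  Rx.mk (nat_lit 314) (nat_lit 2) (nat_lit 7) (nat_lit 4) (nat_lit 3) (nat_lit 137) (nat_lit 237) r6_137 r4_237 (nat_lit 0) (nat_lit 0) (nat_lit 15272180) (nat_lit 0x20217a8b2e) (nat_lit 2127869878),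
  Rx.mk (nat_lit 416) (nat_lit 0) (nat_lit 4) (nat_lit 6) (nat_lit 4) (nat_lit 129) (nat_lit 229) r6_129 r4_229 (nat_lit 7273) (nat_lit 6218) (nat_lit 0) (nat_lit 0x1e321f58f8) (nat_lit 2650681939),
  Rx.mk (nat_lit 418) (nat_lit 2) (nat_lit 4) (nat_lit 6) (nat_lit 5) (nat_lit 130) (nat_lit 238) r6_130 r4_238 (nat_lit 0) (nat_lit 7104909) (nat_lit 0) (nat_lit 0x201ee2435c) (nat_lit 2122416857),
  Rx.mk (nat_lit 424) (nat_lit 0) (nat_lit 5) (nat_lit 6) (nat_lit 6) (nat_lit 132) (nat_lit 230) r6_132 r4_230 (nat_lit 25209224) (nat_lit 0) (nat_lit 0) (nat_lit 0x201505b5bc) (nat_lit 2151158672),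
  Rx.mk (nat_lit 426) (nat_lit 2) (nat_lit 5) (nat_lit 6) (nat_lit 7) (nat_lit 133) (nat_lit 239) r6_133 r4_239 (nat_lit 0) (nat_lit 0) (nat_lit 0) (nat_lit 0x201f61977e) (nat_lit 2114879798),
  Rx.mk (nat_lit 432) (nat_lit 0) (nat_lit 6) (nat_lit 6) (nat_lit 6) (nat_lit 134) (nat_lit 232) r6_134 r4_232 (nat_lit 17703437) (nat_lit 0) (nat_lit 0) (nat_lit 0x1ff2b81306) (nat_lit 2180466335),
  Rx.mk (nat_lit 440) (nat_lit 0) (nat_lit 7) (nat_lit 6) (nat_lit 6) (nat_lit 138) (nat_lit 231) r6_138 r4_231 (nat_lit 17454317) (nat_lit 0) (nat_lit 0) (nat_lit 0x204053351e) (nat_lit 2097263415),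
  Rx.mk (nat_lit 442) (nat_lit 2) (nat_lit 7) (nat_lit 6) (nat_lit 7) (nat_lit 139) (nat_lit 240) r6_139 r4_240 (nat_lit 0) (nat_lit 0) (nat_lit 0) (nat_lit 0x2035824c74) (nat_lit 2091316148)]
noncomputable def e35_52 : List Rx := [
  Rx.mk (nat_lit 314) (nat_lit 2) (nat_lit 7) (nat_lit 4) (nat_lit 3) (nat_lit 238) (nat_lit 243) r6_238 r5_243 (nat_lit 0) (nat_lit 0) (nat_lit 108300) (nat_lit 0x20977d56bc) (nat_lit 1986748748),
  Rx.mk (nat_lit 440) (nat_lit 0) (nat_lit 7) (nat_lit 6) (nat_lit 6) (nat_lit 239) (nat_lit 242) r6_239 r5_242 (nat_lit 902068) (nat_lit 0) (nat_lit 0) (nat_lit 0x20e84af7fc) (nat_lit 1901893616),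
  Rx.mk (nat_lit 442) (nat_lit 2) (nat_lit 7) (nat_lit 6) (nat_lit 7) (nat_lit 240) (nat_lit 244) r6_240 r5_244 (nat_lit 0) (nat_lit 0) (nat_lit 0) (nat_lit 0x1ff51b30d8) (nat_lit 2159914948)]
noncomputable def e35_53 : List Rx := [
  Rx.mk (nat_lit 176) (nat_lit 0) (nat_lit 6) (nat_lit 2) (nat_lit 6) (nat_lit 25) (nat_lit 84) r6_25 r4_84 (nat_lit 6403559) (nat_lit 0) (nat_lit 0) (nat_lit 0x200a1b78da) (nat_lit 2143894957),
  Rx.mk (nat_lit 177) (nat_lit 1) (nat_lit 6) (nat_lit 2) (nat_lit 7) (nat_lit 26) (nat_lit 85) r6_26 r4_85 (nat_lit 0) (nat_lit 0) (nat_lit 0) (nat_lit 0x201109e208) (nat_lit 2130194048),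
  Rx.mk (nat_lit 179) (nat_lit 3) (nat_lit 6) (nat_lit 2) (nat_lit 7) (nat_lit 27) (nat_lit 86) r6_27 r4_86 (nat_lit 0) (nat_lit 0) (nat_lit 0) (nat_lit 0x201eb01af8) (nat_lit 2115636748),
  Rx.mk (nat_lit 416) (nat_lit 0) (nat_lit 4) (nat_lit 6) (nat_lit 4) (nat_lit 20) (nat_lit 78) r6_20 r4_78 (nat_lit 133555) (nat_lit 171997) (nat_lit 0) (nat_lit 0x1a6265629a) (nat_lit 3713992250),
  Rx.mk (nat_lit 417) (nat_lit 1) (nat_lit 4) (nat_lit 6) (nat_lit 5) (nat_lit 21) (nat_lit 79) r6_21 r4_79 (nat_lit 0) (nat_lit 17020769) (nat_lit 0) (nat_lit 0x1fffafe3e0) (nat_lit 2165783617),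
  Rx.mk (nat_lit 418) (nat_lit 2) (nat_lit 4) (nat_lit 6) (nat_lit 5) (nat_lit 22) (nat_lit 80) r6_22 r4_80 (nat_lit 0) (nat_lit 26413005) (nat_lit 0) (nat_lit 0x1e6d2b9a4c) (nat_lit 2613255353),
  Rx.mk (nat_lit 432) (nat_lit 0) (nat_lit 6) (nat_lit 6) (nat_lit 6) (nat_lit 23) (nat_lit 87) r6_23 r4_87 (nat_lit 7925745) (nat_lit 0) (nat_lit 0) (nat_lit 0x20373fb0ec) (nat_lit 2097311693),
  Rx.mk (nat_lit 433) (nat_lit 1) (nat_lit 6) (nat_lit 6) (nat_lit 7) (nat_lit 24) (nat_lit 88) r6_24 r4_88 (nat_lit 0) (nat_lit 0) (nat_lit 0) (nat_lit 0x200c352fd0) (nat_lit 2135384348),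
  Rx.mk (nat_lit 440) (nat_lit 0) (nat_lit 7) (nat_lit 6) (nat_lit 6) (nat_lit 28) (nat_lit 81) r6_28 r4_81 (nat_lit 17128) (nat_lit 0) (nat_lit 0) (nat_lit 0x184f11cca8) (nat_lit 4292518276),
  Rx.mk (nat_lit 441) (nat_lit 1) (nat_lit 7) (nat_lit 6) (nat_lit 7) (nat_lit 29) (nat_lit 82) r6_29 r4_82 (nat_lit 0) (nat_lit 0) (nat_lit 0) (nat_lit 0x203b853550) (nat_lit 2084747848),
  Rx.mk (nat_lit 442) (nat_lit 2) (nat_lit 7) (nat_lit 6) (nat_lit 7) (nat_lit 30) (nat_lit 83) r6_30 r4_83 (nat_lit 0) (nat_lit 0) (nat_lit 0) (nat_lit 0x2004d169c0) (nat_lit 2143169448)]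
noncomputable def e35_54 : List Rx := [
  Rx.mk (nat_lit 176) (nat_lit 0) (nat_lit 6) (nat_lit 2) (nat_lit 6) (nat_lit 147) (nat_lit 248) r6_147 r10_248 (nat_lit 9855849) (nat_lit 0) (nat_lit 0) (nat_lit 0x1fb225dfee) (nat_lit 2242694747),
  Rx.mk (nat_lit 177) (nat_lit 1) (nat_lit 6) (nat_lit 2) (nat_lit 7) (nat_lit 148) (nat_lit 252) r6_148 r10_252 (nat_lit 0) (nat_lit 0) (nat_lit 0) (nat_lit 0x202b033e98) (nat_lit 2102485748),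
  Rx.mk (nat_lit 179) (nat_lit 3) (nat_lit 6) (nat_lit 2) (nat_lit 7) (nat_lit 149) (nat_lit 253) r6_149 r10_253 (nat_lit 0) (nat_lit 0) (nat_lit 0) (nat_lit 0x202b033e98) (nat_lit 2102485748),
  Rx.mk (nat_lit 416) (nat_lit 0) (nat_lit 4) (nat_lit 6) (nat_lit 4) (nat_lit 140) (nat_lit 244) r6_140 r10_244 (nat_lit 2864482) (nat_lit 2969871) (nat_lit 0) (nat_lit 0x1d7898d22e) (nat_lit 2858942551),
  Rx.mk (nat_lit 417) (nat_lit 1) (nat_lit 4) (nat_lit 6) (nat_lit 5) (nat_lit 141) (nat_lit 249) r6_141 r10_249 (nat_lit 0) (nat_lit 16073499) (nat_lit 0) (nat_lit 0x20493f0978) (nat_lit 2086378047),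
  Rx.mk (nat_lit 418) (nat_lit 2) (nat_lit 4) (nat_lit 6) (nat_lit 5) (nat_lit 142) (nat_lit 254) r6_142 r10_254 (nat_lit 0) (nat_lit 9838664) (nat_lit 0) (nat_lit 0x203715a8f6) (nat_lit 2099425662),
  Rx.mk (nat_lit 424) (nat_lit 0) (nat_lit 5) (nat_lit 6) (nat_lit 6) (nat_lit 143) (nat_lit 245) r6_143 r10_245 (nat_lit 14742202) (nat_lit 0) (nat_lit 0) (nat_lit 0x202b2a1eb4) (nat_lit 2117041250),
  Rx.mk (nat_lit 426) (nat_lit 2) (nat_lit 5) (nat_lit 6) (nat_lit 7) (nat_lit 144) (nat_lit 255) r6_144 r10_255 (nat_lit 0) (nat_lit 0) (nat_lit 0) (nat_lit 0x20ade2c482) (nat_lit 1963376398),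
  Rx.mk (nat_lit 432) (nat_lit 0) (nat_lit 6) (nat_lit 6) (nat_lit 6) (nat_lit 145) (nat_lit 247) r6_145 r10_247 (nat_lit 28560695) (nat_lit 0) (nat_lit 0) (nat_lit 0x1fbd95b7a0) (nat_lit 2249011043),
  Rx.mk (nat_lit 433) (nat_lit 1) (nat_lit 6) (nat_lit 6) (nat_lit 7) (nat_lit 146) (nat_lit 251) r6_146 r10_251 (nat_lit 0) (nat_lit 0) (nat_lit 0) (nat_lit 0x2000efab8c) (nat_lit 2147483648),
  Rx.mk (nat_lit 440) (nat_lit 0) (nat_lit 7) (nat_lit 6) (nat_lit 6) (nat_lit 150) (nat_lit 246) r6_150 r10_246 (nat_lit 14742202) (nat_lit 0) (nat_lit 0) (nat_lit 0x202b2a1eb4) (nat_lit 2117041250),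
  Rx.mk (nat_lit 441) (nat_lit 1) (nat_lit 7) (nat_lit 6) (nat_lit 7) (nat_lit 151) (nat_lit 250) r6_151 r10_250 (nat_lit 0) (nat_lit 0) (nat_lit 0) (nat_lit 0x2018194de0) (nat_lit 2122665648),
  Rx.mk (nat_lit 442) (nat_lit 2) (nat_lit 7) (nat_lit 6) (nat_lit 7) (nat_lit 152) (nat_lit 256) r6_152 r10_256 (nat_lit 0) (nat_lit 0) (nat_lit 0) (nat_lit 0x20ade2c482) (nat_lit 1963376398)]
noncomputable def e35_55 : List Rx := [
  Rx.mk (nat_lit 440) (nat_lit 0) (nat_lit 7) (nat_lit 6) (nat_lit 6) (nat_lit 241) (nat_lit 284) r6_241 r11_284 (nat_lit 2135820) (nat_lit 0) (nat_lit 0) (nat_lit 0x20648d7764) (nat_lit 2043263968),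
  Rx.mk (nat_lit 441) (nat_lit 1) (nat_lit 7) (nat_lit 6) (nat_lit 7) (nat_lit 242) (nat_lit 285) r6_242 r11_285 (nat_lit 0) (nat_lit 0) (nat_lit 0) (nat_lit 0x22532031ae) (nat_lit 1516004698),
  Rx.mk (nat_lit 442) (nat_lit 2) (nat_lit 7) (nat_lit 6) (nat_lit 7) (nat_lit 243) (nat_lit 286) r6_243 r11_286 (nat_lit 0) (nat_lit 0) (nat_lit 0) (nat_lit 0x216789d038) (nat_lit 1766216648)]
noncomputable def e35_56 : List Rx := [
  Rx.mk (nat_lit 179) (nat_lit 3) (nat_lit 6) (nat_lit 2) (nat_lit 7) (nat_lit 36) (nat_lit 77) r6_36 r5_77 (nat_lit 0) (nat_lit 0) (nat_lit 0) (nat_lit 0x1f3c00cbee) (nat_lit 2361037198),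
  Rx.mk (nat_lit 314) (nat_lit 2) (nat_lit 7) (nat_lit 4) (nat_lit 3) (nat_lit 37) (nat_lit 73) r6_37 r5_73 (nat_lit 0) (nat_lit 0) (nat_lit 5712342) (nat_lit 0x200095ed2c) (nat_lit 2153380190),
  Rx.mk (nat_lit 416) (nat_lit 0) (nat_lit 4) (nat_lit 6) (nat_lit 4) (nat_lit 31) (nat_lit 70) r6_31 r5_70 (nat_lit 9770) (nat_lit 15332) (nat_lit 0) (nat_lit 0x1fff59ce10) (nat_lit 2148219850),
  Rx.mk (nat_lit 418) (nat_lit 2) (nat_lit 4) (nat_lit 6) (nat_lit 5) (nat_lit 32) (nat_lit 72) r6_32 r5_72 (nat_lit 0) (nat_lit 18343661) (nat_lit 0) (nat_lit 0x1f3e6a0184) (nat_lit 2377266509),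
  Rx.mk (nat_lit 419) (nat_lit 3) (nat_lit 4) (nat_lit 6) (nat_lit 5) (nat_lit 33) (nat_lit 71) r6_33 r5_71 (nat_lit 0) (nat_lit 7277444) (nat_lit 0) (nat_lit 0x2178af2c6e) (nat_lit 1755232442),
  Rx.mk (nat_lit 432) (nat_lit 0) (nat_lit 6) (nat_lit 6) (nat_lit 6) (nat_lit 34) (nat_lit 78) r6_34 r5_78 (nat_lit 22114884) (nat_lit 0) (nat_lit 0) (nat_lit 0x1fd0a8adf2) (nat_lit 2221885182),
  Rx.mk (nat_lit 435) (nat_lit 3) (nat_lit 6) (nat_lit 6) (nat_lit 7) (nat_lit 35) (nat_lit 79) r6_35 r5_79 (nat_lit 0) (nat_lit 0) (nat_lit 0) (nat_lit 0x1f028e4396) (nat_lit 2424116498),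
  Rx.mk (nat_lit 440) (nat_lit 0) (nat_lit 7) (nat_lit 6) (nat_lit 6) (nat_lit 38) (nat_lit 75) r6_38 r5_75 (nat_lit 3276232) (nat_lit 0) (nat_lit 0) (nat_lit 0x215ff9cf8a) (nat_lit 1777400230),
  Rx.mk (nat_lit 442) (nat_lit 2) (nat_lit 7) (nat_lit 6) (nat_lit 7) (nat_lit 39) (nat_lit 76) r6_39 r5_76 (nat_lit 0) (nat_lit 0) (nat_lit 0) (nat_lit 0x221e48cb08) (nat_lit 1572146548),
  Rx.mk (nat_lit 506) (nat_lit 2) (nat_lit 7) (nat_lit 7) (nat_lit 7) (nat_lit 40) (nat_lit 74) r6_40 r5_74 (nat_lit 0) (nat_lit 0) (nat_lit 0) (nat_lit 0x1ff6448342) (nat_lit 2158897398)]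
noncomputable def e35_57 : List Rx := [
  Rx.mk (nat_lit 179) (nat_lit 3) (nat_lit 6) (nat_lit 2) (nat_lit 7) (nat_lit 163) (nat_lit 65) r6_163 r11_65 (nat_lit 0) (nat_lit 0) (nat_lit 0) (nat_lit 0x200ea4e184) (nat_lit 2132640448),
  Rx.mk (nat_lit 290) (nat_lit 2) (nat_lit 4) (nat_lit 4) (nat_lit 1) (nat_lit 153) (nat_lit 53) r6_153 r11_53 (nat_lit 0) (nat_lit 4755979) (nat_lit 7927408) (nat_lit 0x1ea5a6abf0) (nat_lit 2537972735),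
  Rx.mk (nat_lit 298) (nat_lit 2) (nat_lit 5) (nat_lit 4) (nat_lit 3) (nat_lit 157) (nat_lit 57) r6_157 r11_57 (nat_lit 0) (nat_lit 0) (nat_lit 39267561) (nat_lit 0x2000efab8c) (nat_lit 2186751209),
  Rx.mk (nat_lit 314) (nat_lit 2) (nat_lit 7) (nat_lit 4) (nat_lit 3) (nat_lit 164) (nat_lit 61) r6_164 r11_61 (nat_lit 0) (nat_lit 0) (nat_lit 41256762) (nat_lit 0x200fb092c6) (nat_lit 2172894360),
  Rx.mk (nat_lit 416) (nat_lit 0) (nat_lit 4) (nat_lit 6) (nat_lit 4) (nat_lit 154) (nat_lit 54) r6_154 r11_54 (nat_lit 5195462) (nat_lit 5458331) (nat_lit 0) (nat_lit 0x1e52b1f120) (nat_lit 2626244641),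
  Rx.mk (nat_lit 418) (nat_lit 2) (nat_lit 4) (nat_lit 6) (nat_lit 5) (nat_lit 155) (nat_lit 56) r6_155 r11_56 (nat_lit 0) (nat_lit 8286677) (nat_lit 0) (nat_lit 0x20237f3b36) (nat_lit 2118757375),
  Rx.mk (nat_lit 419) (nat_lit 3) (nat_lit 4) (nat_lit 6) (nat_lit 5) (nat_lit 156) (nat_lit 55) r6_156 r11_55 (nat_lit 0) (nat_lit 15934796) (nat_lit 0) (nat_lit 0x203db107aa) (nat_lit 2098526294),
  Rx.mk (nat_lit 424) (nat_lit 0) (nat_lit 5) (nat_lit 6) (nat_lit 6) (nat_lit 158) (nat_lit 58) r6_158 r11_58 (nat_lit 25773849) (nat_lit 0) (nat_lit 0) (nat_lit 0x2012edb702) (nat_lit 2153958047),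
  Rx.mk (nat_lit 426) (nat_lit 2) (nat_lit 5) (nat_lit 6) (nat_lit 7) (nat_lit 159) (nat_lit 60) r6_159 r11_60 (nat_lit 0) (nat_lit 0) (nat_lit 0) (nat_lit 0x201fd8ead6) (nat_lit 2114387298),
  Rx.mk (nat_lit 427) (nat_lit 3) (nat_lit 5) (nat_lit 6) (nat_lit 7) (nat_lit 160) (nat_lit 59) r6_160 r11_59 (nat_lit 0) (nat_lit 0) (nat_lit 0) (nat_lit 0x2000efab8c) (nat_lit 2147483648),
  Rx.mk (nat_lit 432) (nat_lit 0) (nat_lit 6) (nat_lit 6) (nat_lit 6) (nat_lit 161) (nat_lit 66) r6_161 r11_66 (nat_lit 20851942) (nat_lit 0) (nat_lit 0) (nat_lit 0x20058a1f06) (nat_lit 2163363640),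
  Rx.mk (nat_lit 435) (nat_lit 3) (nat_lit 6) (nat_lit 6) (nat_lit 7) (nat_lit 162) (nat_lit 67) r6_162 r11_67 (nat_lit 0) (nat_lit 0) (nat_lit 0) (nat_lit 0x200ed6b90c) (nat_lit 2132559348),
  Rx.mk (nat_lit 440) (nat_lit 0) (nat_lit 7) (nat_lit 6) (nat_lit 6) (nat_lit 165) (nat_lit 63) r6_165 r11_63 (nat_lit 16296979) (nat_lit 0) (nat_lit 0) (nat_lit 0x2029821ed6) (nat_lit 2120364277),
  Rx.mk (nat_lit 442) (nat_lit 2) (nat_lit 7) (nat_lit 6) (nat_lit 7) (nat_lit 166) (nat_lit 64) r6_166 r11_64 (nat_lit 0) (nat_lit 0) (nat_lit 0) (nat_lit 0x2041f3764a) (nat_lit 2078077698),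
  Rx.mk (nat_lit 506) (nat_lit 2) (nat_lit 7) (nat_lit 7) (nat_lit 7) (nat_lit 167) (nat_lit 62) r6_167 r11_62 (nat_lit 0) (nat_lit 0) (nat_lit 0) (nat_lit 0x201578d358) (nat_lit 2125463148)]
noncomputable def e35 : List (List Rx) := [e35_0, e35_1, e35_2, e35_3, e35_4, e35_5, e35_6, e35_7, e35_8, e35_9, e35_10, e35_11, e35_12, e35_13, e35_14, e35_15, e35_16, e35_17, e35_18, e35_19, e35_20, e35_21, e35_22, e35_23, e35_24, e35_25, e35_26, e35_27, e35_28, e35_29, e35_30, e35_31, e35_32, e35_33, e35_34, e35_35, e35_36, e35_37, e35_38, e35_39, e35_40, e35_41, e35_42, e35_43, e35_44, e35_45, e35_46, e35_47, e35_48, e35_49, e35_50, e35_51, e35_52, e35_53, e35_54, e35_55, e35_56, e35_57]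
noncomputable def e36_0 : List Rx := [
  Rx.mk (nat_lit 20) (nat_lit 4) (nat_lit 2) (nat_lit 0) (nat_lit 2) (nat_lit 3) (nat_lit 236) r12_3 r0_236 (nat_lit 3594) (nat_lit 0) (nat_lit 2766) (nat_lit 0x1c40c28d00) (nat_lit 3192515208),
  Rx.mk (nat_lit 22) (nat_lit 6) (nat_lit 2) (nat_lit 0) (nat_lit 3) (nat_lit 5) (nat_lit 241) r12_5 r0_241 (nat_lit 0) (nat_lit 0) (nat_lit 7905363) (nat_lit 0x1fe4879cc0) (nat_lit 2185986011),
  Rx.mk (nat_lit 52) (nat_lit 4) (nat_lit 6) (nat_lit 0) (nat_lit 2) (nat_lit 0) (nat_lit 238) r12_0 r0_238 (nat_lit 14688) (nat_lit 0) (nat_lit 13255) (nat_lit 0x1b267bc64c) (nat_lit 3500060191),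
  Rx.mk (nat_lit 84) (nat_lit 4) (nat_lit 2) (nat_lit 1) (nat_lit 6) (nat_lit 4) (nat_lit 237) r12_4 r0_237 (nat_lit 16716) (nat_lit 0) (nat_lit 0) (nat_lit 0x22aa0eb896) (nat_lit 1423260614),
  Rx.mk (nat_lit 86) (nat_lit 6) (nat_lit 2) (nat_lit 1) (nat_lit 7) (nat_lit 6) (nat_lit 242) r12_6 r0_242 (nat_lit 0) (nat_lit 0) (nat_lit 0) (nat_lit 0x22a34e539a) (nat_lit 1430860798),
  Rx.mk (nat_lit 116) (nat_lit 4) (nat_lit 6) (nat_lit 1) (nat_lit 6) (nat_lit 1) (nat_lit 239) r12_1 r0_239 (nat_lit 6379702) (nat_lit 0) (nat_lit 0) (nat_lit 0x1f0055a0a6) (nat_lit 2432499700),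
  Rx.mk (nat_lit 180) (nat_lit 4) (nat_lit 6) (nat_lit 2) (nat_lit 6) (nat_lit 2) (nat_lit 240) r12_2 r0_240 (nat_lit 124409) (nat_lit 0) (nat_lit 0) (nat_lit 0x1c8a243e1c) (nat_lit 3112716857)]
noncomputable def e36_1 : List Rx := [
  Rx.mk (nat_lit 84) (nat_lit 4) (nat_lit 2) (nat_lit 1) (nat_lit 6) (nat_lit 8) (nat_lit 249) r12_8 r1_249 (nat_lit 32060) (nat_lit 0) (nat_lit 0) (nat_lit 0x246ff2def6) (nat_lit 941316158),
  Rx.mk (nat_lit 86) (nat_lit 6) (nat_lit 2) (nat_lit 1) (nat_lit 7) (nat_lit 9) (nat_lit 251) r12_9 r1_251 (nat_lit 0) (nat_lit 0) (nat_lit 0) (nat_lit 0x23be0c1bee) (nat_lit 1130624198),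
  Rx.mk (nat_lit 116) (nat_lit 4) (nat_lit 6) (nat_lit 1) (nat_lit 6) (nat_lit 7) (nat_lit 250) r12_7 r1_250 (nat_lit 45745925) (nat_lit 0) (nat_lit 0) (nat_lit 0x2156b2c472) (nat_lit 1829796823)]
noncomputable def e36_2 : List Rx := [
  Rx.mk (nat_lit 84) (nat_lit 4) (nat_lit 2) (nat_lit 1) (nat_lit 6) (nat_lit 10) (nat_lit 272) r12_10 r2_272 (nat_lit 3377022) (nat_lit 0) (nat_lit 0) (nat_lit 0x1cb6815b98) (nat_lit 3067959970),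
  Rx.mk (nat_lit 86) (nat_lit 6) (nat_lit 2) (nat_lit 1) (nat_lit 7) (nat_lit 13) (nat_lit 274) r12_13 r2_274 (nat_lit 0) (nat_lit 0) (nat_lit 0) (nat_lit 0x2000efab8c) (nat_lit 2147483648),
  Rx.mk (nat_lit 326) (nat_lit 6) (nat_lit 0) (nat_lit 5) (nat_lit 5) (nat_lit 11) (nat_lit 273) r12_11 r2_273 (nat_lit 0) (nat_lit 3377022) (nat_lit 0) (nat_lit 0x1cb6815b98) (nat_lit 3067959970),
  Rx.mk (nat_lit 342) (nat_lit 6) (nat_lit 2) (nat_lit 5) (nat_lit 7) (nat_lit 12) (nat_lit 275) r12_12 r2_275 (nat_lit 0) (nat_lit 0) (nat_lit 0) (nat_lit 0x2000efab8c) (nat_lit 2147483648)]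
noncomputable def e36_3 : List Rx := [
  Rx.mk (nat_lit 20) (nat_lit 4) (nat_lit 2) (nat_lit 0) (nat_lit 2) (nat_lit 16) (nat_lit 235) r12_16 r3_235 (nat_lit 205) (nat_lit 0) (nat_lit 290) (nat_lit 0x1ffffed3ba) (nat_lit 2147489193),
  Rx.mk (nat_lit 22) (nat_lit 6) (nat_lit 2) (nat_lit 0) (nat_lit 3) (nat_lit 18) (nat_lit 241) r12_18 r3_241 (nat_lit 0) (nat_lit 0) (nat_lit 7207) (nat_lit 0x1ec9af2518) (nat_lit 2485559855),
  Rx.mk (nat_lit 52) (nat_lit 4) (nat_lit 6) (nat_lit 0) (nat_lit 2) (nat_lit 14) (nat_lit 237) r12_14 r3_237 (nat_lit 290) (nat_lit 0) (nat_lit 205) (nat_lit 0x1ffffed3ba) (nat_lit 2147489193),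
  Rx.mk (nat_lit 55) (nat_lit 7) (nat_lit 6) (nat_lit 0) (nat_lit 3) (nat_lit 20) (nat_lit 239) r12_20 r3_239 (nat_lit 0) (nat_lit 0) (nat_lit 3341) (nat_lit 0x20003b2ad6) (nat_lit 2147242839),
  Rx.mk (nat_lit 180) (nat_lit 4) (nat_lit 6) (nat_lit 2) (nat_lit 6) (nat_lit 15) (nat_lit 238) r12_15 r3_238 (nat_lit 7207) (nat_lit 0) (nat_lit 0) (nat_lit 0x1ec9af2518) (nat_lit 2485559855),
  Rx.mk (nat_lit 183) (nat_lit 7) (nat_lit 6) (nat_lit 2) (nat_lit 7) (nat_lit 21) (nat_lit 240) r12_21 r3_240 (nat_lit 0) (nat_lit 0) (nat_lit 0) (nat_lit 0x1ffbb8a7f4) (nat_lit 2152589448),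
  Rx.mk (nat_lit 212) (nat_lit 4) (nat_lit 2) (nat_lit 3) (nat_lit 6) (nat_lit 17) (nat_lit 236) r12_17 r3_236 (nat_lit 3341) (nat_lit 0) (nat_lit 0) (nat_lit 0x20003b2ad6) (nat_lit 2147242839),
  Rx.mk (nat_lit 214) (nat_lit 6) (nat_lit 2) (nat_lit 3) (nat_lit 7) (nat_lit 19) (nat_lit 242) r12_19 r3_242 (nat_lit 0) (nat_lit 0) (nat_lit 0) (nat_lit 0x1ffbb8a7f4) (nat_lit 2152589448)]
noncomputable def e36_4 : List Rx := [
  Rx.mk (nat_lit 20) (nat_lit 4) (nat_lit 2) (nat_lit 0) (nat_lit 2) (nat_lit 25) (nat_lit 241) r12_25 r4_241 (nat_lit 1272) (nat_lit 0) (nat_lit 855) (nat_lit 0x1d97a1ac0e) (nat_lit 2818976125),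
  Rx.mk (nat_lit 22) (nat_lit 6) (nat_lit 2) (nat_lit 0) (nat_lit 3) (nat_lit 28) (nat_lit 250) r12_28 r4_250 (nat_lit 0) (nat_lit 0) (nat_lit 3308125) (nat_lit 0x20fc14fe0e) (nat_lit 1883489423),
  Rx.mk (nat_lit 52) (nat_lit 4) (nat_lit 6) (nat_lit 0) (nat_lit 2) (nat_lit 22) (nat_lit 244) r12_22 r4_244 (nat_lit 28722) (nat_lit 0) (nat_lit 9859) (nat_lit 0x198c7c56fc) (nat_lit 3946733429),
  Rx.mk (nat_lit 55) (nat_lit 7) (nat_lit 6) (nat_lit 0) (nat_lit 3) (nat_lit 31) (nat_lit 247) r12_31 r4_247 (nat_lit 0) (nat_lit 0) (nat_lit 1770) (nat_lit 0x17c290559c) (nat_lit 4445568318),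
  Rx.mk (nat_lit 84) (nat_lit 4) (nat_lit 2) (nat_lit 1) (nat_lit 6) (nat_lit 26) (nat_lit 242) r12_26 r4_242 (nat_lit 12177089) (nat_lit 0) (nat_lit 0) (nat_lit 0x1fb27a9ab6) (nat_lit 2244661087),
  Rx.mk (nat_lit 86) (nat_lit 6) (nat_lit 2) (nat_lit 1) (nat_lit 7) (nat_lit 29) (nat_lit 251) r12_29 r4_251 (nat_lit 0) (nat_lit 0) (nat_lit 0) (nat_lit 0x202452f822) (nat_lit 2109582098),
  Rx.mk (nat_lit 116) (nat_lit 4) (nat_lit 6) (nat_lit 1) (nat_lit 6) (nat_lit 23) (nat_lit 245) r12_23 r4_245 (nat_lit 21146279) (nat_lit 0) (nat_lit 0) (nat_lit 0x1f0549b732) (nat_lit 2442248577),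
  Rx.mk (nat_lit 119) (nat_lit 7) (nat_lit 6) (nat_lit 1) (nat_lit 7) (nat_lit 32) (nat_lit 248) r12_32 r4_248 (nat_lit 0) (nat_lit 0) (nat_lit 0) (nat_lit 0x1fb03df1b2) (nat_lit 2234633498),
  Rx.mk (nat_lit 180) (nat_lit 4) (nat_lit 6) (nat_lit 2) (nat_lit 6) (nat_lit 24) (nat_lit 246) r12_24 r4_246 (nat_lit 29509241) (nat_lit 0) (nat_lit 0) (nat_lit 0x1ccaafb8a8) (nat_lit 3072224889),
  Rx.mk (nat_lit 183) (nat_lit 7) (nat_lit 6) (nat_lit 2) (nat_lit 7) (nat_lit 33) (nat_lit 249) r12_33 r4_249 (nat_lit 0) (nat_lit 0) (nat_lit 0) (nat_lit 0x1bfba7ffa2) (nat_lit 3268098598),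
  Rx.mk (nat_lit 212) (nat_lit 4) (nat_lit 2) (nat_lit 3) (nat_lit 6) (nat_lit 27) (nat_lit 243) r12_27 r4_243 (nat_lit 16759512) (nat_lit 0) (nat_lit 0) (nat_lit 0x2047463858) (nat_lit 2089173460),
  Rx.mk (nat_lit 214) (nat_lit 6) (nat_lit 2) (nat_lit 3) (nat_lit 7) (nat_lit 30) (nat_lit 252) r12_30 r4_252 (nat_lit 0) (nat_lit 0) (nat_lit 0) (nat_lit 0x2023d8595a) (nat_lit 2110118398)]
noncomputable def e36_5 : List Rx := [
  Rx.mk (nat_lit 52) (nat_lit 4) (nat_lit 6) (nat_lit 0) (nat_lit 2) (nat_lit 34) (nat_lit 246) r12_34 r5_246 (nat_lit 6986) (nat_lit 0) (nat_lit 3531) (nat_lit 0x1fffd33ac0) (nat_lit 2147686165),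
  Rx.mk (nat_lit 55) (nat_lit 7) (nat_lit 6) (nat_lit 0) (nat_lit 3) (nat_lit 39) (nat_lit 249) r12_39 r5_249 (nat_lit 0) (nat_lit 0) (nat_lit 1145676) (nat_lit 0x218e32d266) (nat_lit 1726042174),
  Rx.mk (nat_lit 180) (nat_lit 4) (nat_lit 6) (nat_lit 2) (nat_lit 6) (nat_lit 35) (nat_lit 248) r12_35 r5_248 (nat_lit 11931785) (nat_lit 0) (nat_lit 0) (nat_lit 0x1e8af7c94c) (nat_lit 2566283833),
  Rx.mk (nat_lit 183) (nat_lit 7) (nat_lit 6) (nat_lit 2) (nat_lit 7) (nat_lit 40) (nat_lit 250) r12_40 r5_250 (nat_lit 0) (nat_lit 0) (nat_lit 0) (nat_lit 0x231643e586) (nat_lit 1308792898),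
  Rx.mk (nat_lit 212) (nat_lit 4) (nat_lit 2) (nat_lit 3) (nat_lit 6) (nat_lit 37) (nat_lit 245) r12_37 r5_245 (nat_lit 48544) (nat_lit 0) (nat_lit 0) (nat_lit 0x2191f1b606) (nat_lit 1720739542),
  Rx.mk (nat_lit 214) (nat_lit 6) (nat_lit 2) (nat_lit 3) (nat_lit 7) (nat_lit 38) (nat_lit 251) r12_38 r5_251 (nat_lit 0) (nat_lit 0) (nat_lit 0) (nat_lit 0x1e973f11c4) (nat_lit 2540503148),
  Rx.mk (nat_lit 244) (nat_lit 4) (nat_lit 6) (nat_lit 3) (nat_lit 6) (nat_lit 36) (nat_lit 247) r12_36 r5_247 (nat_lit 4473231) (nat_lit 0) (nat_lit 0) (nat_lit 0x2234ad6e1c) (nat_lit 1552752779)]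
noncomputable def e36_6 : List Rx := [
  Rx.mk (nat_lit 258) (nat_lit 2) (nat_lit 0) (nat_lit 4) (nat_lit 1) (nat_lit 45) (nat_lit 237) r12_45 r3_237 (nat_lit 0) (nat_lit 290) (nat_lit 205) (nat_lit 0x1ffffed3ba) (nat_lit 2147489193),
  Rx.mk (nat_lit 262) (nat_lit 6) (nat_lit 0) (nat_lit 4) (nat_lit 1) (nat_lit 41) (nat_lit 235) r12_41 r3_235 (nat_lit 0) (nat_lit 205) (nat_lit 290) (nat_lit 0x1ffffed3ba) (nat_lit 2147489193),
  Rx.mk (nat_lit 278) (nat_lit 6) (nat_lit 2) (nat_lit 4) (nat_lit 3) (nat_lit 43) (nat_lit 241) r12_43 r3_241 (nat_lit 0) (nat_lit 0) (nat_lit 7207) (nat_lit 0x1ec9af2518) (nat_lit 2485559855),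
  Rx.mk (nat_lit 282) (nat_lit 2) (nat_lit 3) (nat_lit 4) (nat_lit 3) (nat_lit 47) (nat_lit 239) r12_47 r3_239 (nat_lit 0) (nat_lit 0) (nat_lit 3341) (nat_lit 0x20003b2ad6) (nat_lit 2147242839),
  Rx.mk (nat_lit 386) (nat_lit 2) (nat_lit 0) (nat_lit 6) (nat_lit 5) (nat_lit 46) (nat_lit 238) r12_46 r3_238 (nat_lit 0) (nat_lit 7207) (nat_lit 0) (nat_lit 0x1ec9af2518) (nat_lit 2485559855),
  Rx.mk (nat_lit 410) (nat_lit 2) (nat_lit 3) (nat_lit 6) (nat_lit 7) (nat_lit 48) (nat_lit 240) r12_48 r3_240 (nat_lit 0) (nat_lit 0) (nat_lit 0) (nat_lit 0x1ffbb8a7f4) (nat_lit 2152589448),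
  Rx.mk (nat_lit 454) (nat_lit 6) (nat_lit 0) (nat_lit 7) (nat_lit 5) (nat_lit 42) (nat_lit 236) r12_42 r3_236 (nat_lit 0) (nat_lit 3341) (nat_lit 0) (nat_lit 0x20003b2ad6) (nat_lit 2147242839),
  Rx.mk (nat_lit 470) (nat_lit 6) (nat_lit 2) (nat_lit 7) (nat_lit 7) (nat_lit 44) (nat_lit 242) r12_44 r3_242 (nat_lit 0) (nat_lit 0) (nat_lit 0) (nat_lit 0x1ffbb8a7f4) (nat_lit 2152589448)]
noncomputable def e36_7 : List Rx := [
  Rx.mk (nat_lit 258) (nat_lit 2) (nat_lit 0) (nat_lit 4) (nat_lit 1) (nat_lit 53) (nat_lit 238) r12_53 r0_238 (nat_lit 0) (nat_lit 14688) (nat_lit 13255) (nat_lit 0x1b267bc64c) (nat_lit 3500060191),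
  Rx.mk (nat_lit 262) (nat_lit 6) (nat_lit 0) (nat_lit 4) (nat_lit 1) (nat_lit 49) (nat_lit 236) r12_49 r0_236 (nat_lit 0) (nat_lit 3594) (nat_lit 2766) (nat_lit 0x1c40c28d00) (nat_lit 3192515208),
  Rx.mk (nat_lit 278) (nat_lit 6) (nat_lit 2) (nat_lit 4) (nat_lit 3) (nat_lit 51) (nat_lit 241) r12_51 r0_241 (nat_lit 0) (nat_lit 0) (nat_lit 7905363) (nat_lit 0x1fe4879cc0) (nat_lit 2185986011),
  Rx.mk (nat_lit 322) (nat_lit 2) (nat_lit 0) (nat_lit 5) (nat_lit 5) (nat_lit 54) (nat_lit 239) r12_54 r0_239 (nat_lit 0) (nat_lit 6379702) (nat_lit 0) (nat_lit 0x1f0055a0a6) (nat_lit 2432499700),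
  Rx.mk (nat_lit 326) (nat_lit 6) (nat_lit 0) (nat_lit 5) (nat_lit 5) (nat_lit 50) (nat_lit 237) r12_50 r0_237 (nat_lit 0) (nat_lit 16716) (nat_lit 0) (nat_lit 0x22aa0eb896) (nat_lit 1423260614),
  Rx.mk (nat_lit 342) (nat_lit 6) (nat_lit 2) (nat_lit 5) (nat_lit 7) (nat_lit 52) (nat_lit 242) r12_52 r0_242 (nat_lit 0) (nat_lit 0) (nat_lit 0) (nat_lit 0x22a34e539a) (nat_lit 1430860798),
  Rx.mk (nat_lit 386) (nat_lit 2) (nat_lit 0) (nat_lit 6) (nat_lit 5) (nat_lit 55) (nat_lit 240) r12_55 r0_240 (nat_lit 0) (nat_lit 124409) (nat_lit 0) (nat_lit 0x1c8a243e1c) (nat_lit 3112716857)]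
noncomputable def e36_8 : List Rx := [
  Rx.mk (nat_lit 322) (nat_lit 2) (nat_lit 0) (nat_lit 5) (nat_lit 5) (nat_lit 58) (nat_lit 250) r12_58 r1_250 (nat_lit 0) (nat_lit 45745925) (nat_lit 0) (nat_lit 0x2156b2c472) (nat_lit 1829796823),
  Rx.mk (nat_lit 326) (nat_lit 6) (nat_lit 0) (nat_lit 5) (nat_lit 5) (nat_lit 56) (nat_lit 249) r12_56 r1_249 (nat_lit 0) (nat_lit 32060) (nat_lit 0) (nat_lit 0x246ff2def6) (nat_lit 941316158),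
  Rx.mk (nat_lit 342) (nat_lit 6) (nat_lit 2) (nat_lit 5) (nat_lit 7) (nat_lit 57) (nat_lit 251) r12_57 r1_251 (nat_lit 0) (nat_lit 0) (nat_lit 0) (nat_lit 0x23be0c1bee) (nat_lit 1130624198)]
noncomputable def e36_9 : List Rx := [
  Rx.mk (nat_lit 258) (nat_lit 2) (nat_lit 0) (nat_lit 4) (nat_lit 1) (nat_lit 65) (nat_lit 244) r12_65 r4_244 (nat_lit 0) (nat_lit 28722) (nat_lit 9859) (nat_lit 0x198c7c56fc) (nat_lit 3946733429),
  Rx.mk (nat_lit 262) (nat_lit 6) (nat_lit 0) (nat_lit 4) (nat_lit 1) (nat_lit 59) (nat_lit 241) r12_59 r4_241 (nat_lit 0) (nat_lit 1272) (nat_lit 855) (nat_lit 0x1d97a1ac0e) (nat_lit 2818976125),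
  Rx.mk (nat_lit 278) (nat_lit 6) (nat_lit 2) (nat_lit 4) (nat_lit 3) (nat_lit 62) (nat_lit 250) r12_62 r4_250 (nat_lit 0) (nat_lit 0) (nat_lit 3308125) (nat_lit 0x20fc14fe0e) (nat_lit 1883489423),
  Rx.mk (nat_lit 282) (nat_lit 2) (nat_lit 3) (nat_lit 4) (nat_lit 3) (nat_lit 68) (nat_lit 247) r12_68 r4_247 (nat_lit 0) (nat_lit 0) (nat_lit 1770) (nat_lit 0x17c290559c) (nat_lit 4445568318),
  Rx.mk (nat_lit 322) (nat_lit 2) (nat_lit 0) (nat_lit 5) (nat_lit 5) (nat_lit 66) (nat_lit 245) r12_66 r4_245 (nat_lit 0) (nat_lit 21146279) (nat_lit 0) (nat_lit 0x1f0549b732) (nat_lit 2442248577),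
  Rx.mk (nat_lit 326) (nat_lit 6) (nat_lit 0) (nat_lit 5) (nat_lit 5) (nat_lit 60) (nat_lit 242) r12_60 r4_242 (nat_lit 0) (nat_lit 12177089) (nat_lit 0) (nat_lit 0x1fb27a9ab6) (nat_lit 2244661087),
  Rx.mk (nat_lit 342) (nat_lit 6) (nat_lit 2) (nat_lit 5) (nat_lit 7) (nat_lit 63) (nat_lit 251) r12_63 r4_251 (nat_lit 0) (nat_lit 0) (nat_lit 0) (nat_lit 0x202452f822) (nat_lit 2109582098),
  Rx.mk (nat_lit 346) (nat_lit 2) (nat_lit 3) (nat_lit 5) (nat_lit 7) (nat_lit 69) (nat_lit 248) r12_69 r4_248 (nat_lit 0) (nat_lit 0) (nat_lit 0) (nat_lit 0x1fb03df1b2) (nat_lit 2234633498),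
  Rx.mk (nat_lit 386) (nat_lit 2) (nat_lit 0) (nat_lit 6) (nat_lit 5) (nat_lit 67) (nat_lit 246) r12_67 r4_246 (nat_lit 0) (nat_lit 29509241) (nat_lit 0) (nat_lit 0x1ccaafb8a8) (nat_lit 3072224889),
  Rx.mk (nat_lit 410) (nat_lit 2) (nat_lit 3) (nat_lit 6) (nat_lit 7) (nat_lit 70) (nat_lit 249) r12_70 r4_249 (nat_lit 0) (nat_lit 0) (nat_lit 0) (nat_lit 0x1bfba7ffa2) (nat_lit 3268098598),
  Rx.mk (nat_lit 454) (nat_lit 6) (nat_lit 0) (nat_lit 7) (nat_lit 5) (nat_lit 61) (nat_lit 243) r12_61 r4_243 (nat_lit 0) (nat_lit 16759512) (nat_lit 0) (nat_lit 0x2047463858) (nat_lit 2089173460),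
  Rx.mk (nat_lit 470) (nat_lit 6) (nat_lit 2) (nat_lit 7) (nat_lit 7) (nat_lit 64) (nat_lit 252) r12_64 r4_252 (nat_lit 0) (nat_lit 0) (nat_lit 0) (nat_lit 0x2023d8595a) (nat_lit 2110118398)]
noncomputable def e36_10 : List Rx := [
  Rx.mk (nat_lit 55) (nat_lit 7) (nat_lit 6) (nat_lit 0) (nat_lit 3) (nat_lit 76) (nat_lit 270) r12_76 r6_270 (nat_lit 0) (nat_lit 0) (nat_lit 219329) (nat_lit 0x1eecf3e8f6) (nat_lit 2447412027),
  Rx.mk (nat_lit 183) (nat_lit 7) (nat_lit 6) (nat_lit 2) (nat_lit 7) (nat_lit 77) (nat_lit 272) r12_77 r6_272 (nat_lit 0) (nat_lit 0) (nat_lit 0) (nat_lit 0x2034cf6c76) (nat_lit 2091697098),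
  Rx.mk (nat_lit 212) (nat_lit 4) (nat_lit 2) (nat_lit 3) (nat_lit 6) (nat_lit 72) (nat_lit 268) r12_72 r6_268 (nat_lit 5176) (nat_lit 0) (nat_lit 0) (nat_lit 0x1fbb985822) (nat_lit 2222012674),
  Rx.mk (nat_lit 214) (nat_lit 6) (nat_lit 2) (nat_lit 3) (nat_lit 7) (nat_lit 75) (nat_lit 274) r12_75 r6_274 (nat_lit 0) (nat_lit 0) (nat_lit 0) (nat_lit 0x1ffd36a48c) (nat_lit 2150521948),
  Rx.mk (nat_lit 244) (nat_lit 4) (nat_lit 6) (nat_lit 3) (nat_lit 6) (nat_lit 71) (nat_lit 269) r12_71 r6_269 (nat_lit 10802) (nat_lit 0) (nat_lit 0) (nat_lit 0x1e67e50c44) (nat_lit 2592099450),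
  Rx.mk (nat_lit 247) (nat_lit 7) (nat_lit 6) (nat_lit 3) (nat_lit 7) (nat_lit 78) (nat_lit 271) r12_78 r6_271 (nat_lit 0) (nat_lit 0) (nat_lit 0) (nat_lit 0x2078180a74) (nat_lit 2020246648),
  Rx.mk (nat_lit 282) (nat_lit 2) (nat_lit 3) (nat_lit 4) (nat_lit 3) (nat_lit 80) (nat_lit 265) r12_80 r6_265 (nat_lit 0) (nat_lit 0) (nat_lit 219329) (nat_lit 0x1eecf3e8f6) (nat_lit 2447412027),
  Rx.mk (nat_lit 410) (nat_lit 2) (nat_lit 3) (nat_lit 6) (nat_lit 7) (nat_lit 81) (nat_lit 267) r12_81 r6_267 (nat_lit 0) (nat_lit 0) (nat_lit 0) (nat_lit 0x2034cf6c76) (nat_lit 2091697098),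
  Rx.mk (nat_lit 450) (nat_lit 2) (nat_lit 0) (nat_lit 7) (nat_lit 5) (nat_lit 79) (nat_lit 264) r12_79 r6_264 (nat_lit 0) (nat_lit 10802) (nat_lit 0) (nat_lit 0x1e67e50c44) (nat_lit 2592099450),
  Rx.mk (nat_lit 454) (nat_lit 6) (nat_lit 0) (nat_lit 7) (nat_lit 5) (nat_lit 73) (nat_lit 273) r12_73 r6_273 (nat_lit 0) (nat_lit 5176) (nat_lit 0) (nat_lit 0x1fbb985822) (nat_lit 2222012674),
  Rx.mk (nat_lit 470) (nat_lit 6) (nat_lit 2) (nat_lit 7) (nat_lit 7) (nat_lit 74) (nat_lit 275) r12_74 r6_275 (nat_lit 0) (nat_lit 0) (nat_lit 0) (nat_lit 0x1ffd36a48c) (nat_lit 2150521948),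
  Rx.mk (nat_lit 474) (nat_lit 2) (nat_lit 3) (nat_lit 7) (nat_lit 7) (nat_lit 82) (nat_lit 266) r12_82 r6_266 (nat_lit 0) (nat_lit 0) (nat_lit 0) (nat_lit 0x2078180a74) (nat_lit 2020246648)]
noncomputable def e36_11 : List Rx := [
  Rx.mk (nat_lit 258) (nat_lit 2) (nat_lit 0) (nat_lit 4) (nat_lit 1) (nat_lit 85) (nat_lit 246) r12_85 r5_246 (nat_lit 0) (nat_lit 6986) (nat_lit 3531) (nat_lit 0x1fffd33ac0) (nat_lit 2147686165),
  Rx.mk (nat_lit 282) (nat_lit 2) (nat_lit 3) (nat_lit 4) (nat_lit 3) (nat_lit 88) (nat_lit 249) r12_88 r5_249 (nat_lit 0) (nat_lit 0) (nat_lit 1145676) (nat_lit 0x218e32d266) (nat_lit 1726042174),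
  Rx.mk (nat_lit 386) (nat_lit 2) (nat_lit 0) (nat_lit 6) (nat_lit 5) (nat_lit 86) (nat_lit 248) r12_86 r5_248 (nat_lit 0) (nat_lit 11931785) (nat_lit 0) (nat_lit 0x1e8af7c94c) (nat_lit 2566283833),
  Rx.mk (nat_lit 410) (nat_lit 2) (nat_lit 3) (nat_lit 6) (nat_lit 7) (nat_lit 89) (nat_lit 250) r12_89 r5_250 (nat_lit 0) (nat_lit 0) (nat_lit 0) (nat_lit 0x231643e586) (nat_lit 1308792898),
  Rx.mk (nat_lit 450) (nat_lit 2) (nat_lit 0) (nat_lit 7) (nat_lit 5) (nat_lit 87) (nat_lit 247) r12_87 r5_247 (nat_lit 0) (nat_lit 4473231) (nat_lit 0) (nat_lit 0x2234ad6e1c) (nat_lit 1552752779),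
  Rx.mk (nat_lit 454) (nat_lit 6) (nat_lit 0) (nat_lit 7) (nat_lit 5) (nat_lit 83) (nat_lit 245) r12_83 r5_245 (nat_lit 0) (nat_lit 48544) (nat_lit 0) (nat_lit 0x2191f1b606) (nat_lit 1720739542),
  Rx.mk (nat_lit 470) (nat_lit 6) (nat_lit 2) (nat_lit 7) (nat_lit 7) (nat_lit 84) (nat_lit 251) r12_84 r5_251 (nat_lit 0) (nat_lit 0) (nat_lit 0) (nat_lit 0x1e973f11c4) (nat_lit 2540503148)]
noncomputable def e36_12 : List Rx := [
  Rx.mk (nat_lit 20) (nat_lit 4) (nat_lit 2) (nat_lit 0) (nat_lit 2) (nat_lit 92) (nat_lit 238) r12_92 r0_238 (nat_lit 13255) (nat_lit 0) (nat_lit 14688) (nat_lit 0x1b267bc64c) (nat_lit 3500060191),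
  Rx.mk (nat_lit 21) (nat_lit 5) (nat_lit 2) (nat_lit 0) (nat_lit 3) (nat_lit 95) (nat_lit 239) r12_95 r0_239 (nat_lit 0) (nat_lit 0) (nat_lit 6379702) (nat_lit 0x1f0055a0a6) (nat_lit 2432499700),
  Rx.mk (nat_lit 22) (nat_lit 6) (nat_lit 2) (nat_lit 0) (nat_lit 3) (nat_lit 96) (nat_lit 240) r12_96 r0_240 (nat_lit 0) (nat_lit 0) (nat_lit 124409) (nat_lit 0x1c8a243e1c) (nat_lit 3112716857),
  Rx.mk (nat_lit 52) (nat_lit 4) (nat_lit 6) (nat_lit 0) (nat_lit 2) (nat_lit 90) (nat_lit 236) r12_90 r0_236 (nat_lit 2766) (nat_lit 0) (nat_lit 3594) (nat_lit 0x1c40c28d00) (nat_lit 3192515208),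
  Rx.mk (nat_lit 53) (nat_lit 5) (nat_lit 6) (nat_lit 0) (nat_lit 3) (nat_lit 93) (nat_lit 237) r12_93 r0_237 (nat_lit 0) (nat_lit 0) (nat_lit 16716) (nat_lit 0x22aa0eb896) (nat_lit 1423260614),
  Rx.mk (nat_lit 180) (nat_lit 4) (nat_lit 6) (nat_lit 2) (nat_lit 6) (nat_lit 91) (nat_lit 241) r12_91 r0_241 (nat_lit 7905363) (nat_lit 0) (nat_lit 0) (nat_lit 0x1fe4879cc0) (nat_lit 2185986011),
  Rx.mk (nat_lit 181) (nat_lit 5) (nat_lit 6) (nat_lit 2) (nat_lit 7) (nat_lit 94) (nat_lit 242) r12_94 r0_242 (nat_lit 0) (nat_lit 0) (nat_lit 0) (nat_lit 0x22a34e539a) (nat_lit 1430860798)]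
noncomputable def e36_13 : List Rx := [
  Rx.mk (nat_lit 20) (nat_lit 4) (nat_lit 2) (nat_lit 0) (nat_lit 2) (nat_lit 100) (nat_lit 303) r12_100 r7_303 (nat_lit 172292) (nat_lit 0) (nat_lit 185901) (nat_lit 0x198be36bf4) (nat_lit 3947748541),
  Rx.mk (nat_lit 21) (nat_lit 5) (nat_lit 2) (nat_lit 0) (nat_lit 3) (nat_lit 105) (nat_lit 308) r12_105 r7_308 (nat_lit 0) (nat_lit 0) (nat_lit 9553025) (nat_lit 0x205b9e46b0) (nat_lit 2060271073),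
  Rx.mk (nat_lit 22) (nat_lit 6) (nat_lit 2) (nat_lit 0) (nat_lit 3) (nat_lit 107) (nat_lit 313) r12_107 r7_313 (nat_lit 0) (nat_lit 0) (nat_lit 2028317) (nat_lit 0x1ea0ece05c) (nat_lit 2532284665),
  Rx.mk (nat_lit 52) (nat_lit 4) (nat_lit 6) (nat_lit 0) (nat_lit 2) (nat_lit 97) (nat_lit 305) r12_97 r7_305 (nat_lit 185901) (nat_lit 0) (nat_lit 172292) (nat_lit 0x198be36bf4) (nat_lit 3947748541),
  Rx.mk (nat_lit 53) (nat_lit 5) (nat_lit 6) (nat_lit 0) (nat_lit 3) (nat_lit 102) (nat_lit 310) r12_102 r7_310 (nat_lit 0) (nat_lit 0) (nat_lit 17057350) (nat_lit 0x1ee2d51b42) (nat_lit 2475695548),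
  Rx.mk (nat_lit 84) (nat_lit 4) (nat_lit 2) (nat_lit 1) (nat_lit 6) (nat_lit 101) (nat_lit 304) r12_101 r7_304 (nat_lit 17057350) (nat_lit 0) (nat_lit 0) (nat_lit 0x1ee2d51b42) (nat_lit 2475695548),
  Rx.mk (nat_lit 85) (nat_lit 5) (nat_lit 2) (nat_lit 1) (nat_lit 7) (nat_lit 106) (nat_lit 309) r12_106 r7_309 (nat_lit 0) (nat_lit 0) (nat_lit 0) (nat_lit 0x22594f17fc) (nat_lit 1509483948),
  Rx.mk (nat_lit 86) (nat_lit 6) (nat_lit 2) (nat_lit 1) (nat_lit 7) (nat_lit 108) (nat_lit 314) r12_108 r7_314 (nat_lit 0) (nat_lit 0) (nat_lit 0) (nat_lit 0x204c1f7a38) (nat_lit 2067262648),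
  Rx.mk (nat_lit 116) (nat_lit 4) (nat_lit 6) (nat_lit 1) (nat_lit 6) (nat_lit 98) (nat_lit 306) r12_98 r7_306 (nat_lit 9553025) (nat_lit 0) (nat_lit 0) (nat_lit 0x205b9e46b0) (nat_lit 2060271073),
  Rx.mk (nat_lit 117) (nat_lit 5) (nat_lit 6) (nat_lit 1) (nat_lit 7) (nat_lit 103) (nat_lit 311) r12_103 r7_311 (nat_lit 0) (nat_lit 0) (nat_lit 0) (nat_lit 0x22594f17fc) (nat_lit 1509483948),
  Rx.mk (nat_lit 180) (nat_lit 4) (nat_lit 6) (nat_lit 2) (nat_lit 6) (nat_lit 99) (nat_lit 307) r12_99 r7_307 (nat_lit 2028317) (nat_lit 0) (nat_lit 0) (nat_lit 0x1ea0ece05c) (nat_lit 2532284665),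
  Rx.mk (nat_lit 181) (nat_lit 5) (nat_lit 6) (nat_lit 2) (nat_lit 7) (nat_lit 104) (nat_lit 312) r12_104 r7_312 (nat_lit 0) (nat_lit 0) (nat_lit 0) (nat_lit 0x204c1f7a38) (nat_lit 2067262648)]
noncomputable def e36_14 : List Rx := [
  Rx.mk (nat_lit 21) (nat_lit 5) (nat_lit 2) (nat_lit 0) (nat_lit 3) (nat_lit 111) (nat_lit 250) r12_111 r1_250 (nat_lit 0) (nat_lit 0) (nat_lit 45745925) (nat_lit 0x2156b2c472) (nat_lit 1829796823),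
  Rx.mk (nat_lit 53) (nat_lit 5) (nat_lit 6) (nat_lit 0) (nat_lit 3) (nat_lit 109) (nat_lit 249) r12_109 r1_249 (nat_lit 0) (nat_lit 0) (nat_lit 32060) (nat_lit 0x246ff2def6) (nat_lit 941316158),
  Rx.mk (nat_lit 181) (nat_lit 5) (nat_lit 6) (nat_lit 2) (nat_lit 7) (nat_lit 110) (nat_lit 251) r12_110 r1_251 (nat_lit 0) (nat_lit 0) (nat_lit 0) (nat_lit 0x23be0c1bee) (nat_lit 1130624198)]
noncomputable def e36_15 : List Rx := [
  Rx.mk (nat_lit 21) (nat_lit 5) (nat_lit 2) (nat_lit 0) (nat_lit 3) (nat_lit 115) (nat_lit 225) r12_115 r8_225 (nat_lit 0) (nat_lit 0) (nat_lit 23920748) (nat_lit 0x2018d41a30) (nat_lit 2145804396),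
  Rx.mk (nat_lit 53) (nat_lit 5) (nat_lit 6) (nat_lit 0) (nat_lit 3) (nat_lit 112) (nat_lit 227) r12_112 r8_227 (nat_lit 0) (nat_lit 0) (nat_lit 9739573) (nat_lit 0x203fec4d7c) (nat_lit 2089940321),
  Rx.mk (nat_lit 85) (nat_lit 5) (nat_lit 2) (nat_lit 1) (nat_lit 7) (nat_lit 116) (nat_lit 226) r12_116 r8_226 (nat_lit 0) (nat_lit 0) (nat_lit 0) (nat_lit 0x2000efab8c) (nat_lit 2147483648),
  Rx.mk (nat_lit 117) (nat_lit 5) (nat_lit 6) (nat_lit 1) (nat_lit 7) (nat_lit 113) (nat_lit 228) r12_113 r8_228 (nat_lit 0) (nat_lit 0) (nat_lit 0) (nat_lit 0x202911d41e) (nat_lit 2104549198),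
  Rx.mk (nat_lit 181) (nat_lit 5) (nat_lit 6) (nat_lit 2) (nat_lit 7) (nat_lit 114) (nat_lit 229) r12_114 r8_229 (nat_lit 0) (nat_lit 0) (nat_lit 0) (nat_lit 0x203b20a61c) (nat_lit 2085320748)]
noncomputable def e36_16 : List Rx := [
  Rx.mk (nat_lit 84) (nat_lit 4) (nat_lit 2) (nat_lit 1) (nat_lit 6) (nat_lit 118) (nat_lit 227) r12_118 r8_227 (nat_lit 9739573) (nat_lit 0) (nat_lit 0) (nat_lit 0x203fec4d7c) (nat_lit 2089940321),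
  Rx.mk (nat_lit 85) (nat_lit 5) (nat_lit 2) (nat_lit 1) (nat_lit 7) (nat_lit 120) (nat_lit 228) r12_120 r8_228 (nat_lit 0) (nat_lit 0) (nat_lit 0) (nat_lit 0x202911d41e) (nat_lit 2104549198),
  Rx.mk (nat_lit 86) (nat_lit 6) (nat_lit 2) (nat_lit 1) (nat_lit 7) (nat_lit 121) (nat_lit 229) r12_121 r8_229 (nat_lit 0) (nat_lit 0) (nat_lit 0) (nat_lit 0x203b20a61c) (nat_lit 2085320748),
  Rx.mk (nat_lit 116) (nat_lit 4) (nat_lit 6) (nat_lit 1) (nat_lit 6) (nat_lit 117) (nat_lit 225) r12_117 r8_225 (nat_lit 23920748) (nat_lit 0) (nat_lit 0) (nat_lit 0x2018d41a30) (nat_lit 2145804396),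
  Rx.mk (nat_lit 117) (nat_lit 5) (nat_lit 6) (nat_lit 1) (nat_lit 7) (nat_lit 119) (nat_lit 226) r12_119 r8_226 (nat_lit 0) (nat_lit 0) (nat_lit 0) (nat_lit 0x2000efab8c) (nat_lit 2147483648)]
noncomputable def e36_17 : List Rx := [
  Rx.mk (nat_lit 84) (nat_lit 4) (nat_lit 2) (nat_lit 1) (nat_lit 6) (nat_lit 122) (nat_lit 244) r12_122 r9_244 (nat_lit 45119070) (nat_lit 0) (nat_lit 0) (nat_lit 0x1fd92c27ce) (nat_lit 2235600468),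
  Rx.mk (nat_lit 85) (nat_lit 5) (nat_lit 2) (nat_lit 1) (nat_lit 7) (nat_lit 123) (nat_lit 245) r12_123 r9_245 (nat_lit 0) (nat_lit 0) (nat_lit 0) (nat_lit 0x2000efab8c) (nat_lit 2147483648),
  Rx.mk (nat_lit 86) (nat_lit 6) (nat_lit 2) (nat_lit 1) (nat_lit 7) (nat_lit 125) (nat_lit 246) r12_125 r9_246 (nat_lit 0) (nat_lit 0) (nat_lit 0) (nat_lit 0x2000efab8c) (nat_lit 2147483648),
  Rx.mk (nat_lit 342) (nat_lit 6) (nat_lit 2) (nat_lit 5) (nat_lit 7) (nat_lit 124) (nat_lit 247) r12_124 r9_247 (nat_lit 0) (nat_lit 0) (nat_lit 0) (nat_lit 0x2000efab8c) (nat_lit 2147483648)]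
noncomputable def e36_18 : List Rx := [
  Rx.mk (nat_lit 20) (nat_lit 4) (nat_lit 2) (nat_lit 0) (nat_lit 2) (nat_lit 128) (nat_lit 244) r12_128 r4_244 (nat_lit 9859) (nat_lit 0) (nat_lit 28722) (nat_lit 0x198c7c56fc) (nat_lit 3946733429),
  Rx.mk (nat_lit 21) (nat_lit 5) (nat_lit 2) (nat_lit 0) (nat_lit 3) (nat_lit 132) (nat_lit 245) r12_132 r4_245 (nat_lit 0) (nat_lit 0) (nat_lit 21146279) (nat_lit 0x1f0549b732) (nat_lit 2442248577),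
  Rx.mk (nat_lit 22) (nat_lit 6) (nat_lit 2) (nat_lit 0) (nat_lit 3) (nat_lit 134) (nat_lit 246) r12_134 r4_246 (nat_lit 0) (nat_lit 0) (nat_lit 29509241) (nat_lit 0x1ccaafb8a8) (nat_lit 3072224889),
  Rx.mk (nat_lit 52) (nat_lit 4) (nat_lit 6) (nat_lit 0) (nat_lit 2) (nat_lit 126) (nat_lit 241) r12_126 r4_241 (nat_lit 855) (nat_lit 0) (nat_lit 1272) (nat_lit 0x1d97a1ac0e) (nat_lit 2818976125),
  Rx.mk (nat_lit 53) (nat_lit 5) (nat_lit 6) (nat_lit 0) (nat_lit 3) (nat_lit 130) (nat_lit 242) r12_130 r4_242 (nat_lit 0) (nat_lit 0) (nat_lit 12177089) (nat_lit 0x1fb27a9ab6) (nat_lit 2244661087),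
  Rx.mk (nat_lit 55) (nat_lit 7) (nat_lit 6) (nat_lit 0) (nat_lit 3) (nat_lit 136) (nat_lit 243) r12_136 r4_243 (nat_lit 0) (nat_lit 0) (nat_lit 16759512) (nat_lit 0x2047463858) (nat_lit 2089173460),
  Rx.mk (nat_lit 180) (nat_lit 4) (nat_lit 6) (nat_lit 2) (nat_lit 6) (nat_lit 127) (nat_lit 250) r12_127 r4_250 (nat_lit 3308125) (nat_lit 0) (nat_lit 0) (nat_lit 0x20fc14fe0e) (nat_lit 1883489423),
  Rx.mk (nat_lit 181) (nat_lit 5) (nat_lit 6) (nat_lit 2) (nat_lit 7) (nat_lit 131) (nat_lit 251) r12_131 r4_251 (nat_lit 0) (nat_lit 0) (nat_lit 0) (nat_lit 0x202452f822) (nat_lit 2109582098),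
  Rx.mk (nat_lit 183) (nat_lit 7) (nat_lit 6) (nat_lit 2) (nat_lit 7) (nat_lit 137) (nat_lit 252) r12_137 r4_252 (nat_lit 0) (nat_lit 0) (nat_lit 0) (nat_lit 0x2023d8595a) (nat_lit 2110118398),
  Rx.mk (nat_lit 212) (nat_lit 4) (nat_lit 2) (nat_lit 3) (nat_lit 6) (nat_lit 129) (nat_lit 247) r12_129 r4_247 (nat_lit 1770) (nat_lit 0) (nat_lit 0) (nat_lit 0x17c290559c) (nat_lit 4445568318),
  Rx.mk (nat_lit 213) (nat_lit 5) (nat_lit 2) (nat_lit 3) (nat_lit 7) (nat_lit 133) (nat_lit 248) r12_133 r4_248 (nat_lit 0) (nat_lit 0) (nat_lit 0) (nat_lit 0x1fb03df1b2) (nat_lit 2234633498),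
  Rx.mk (nat_lit 214) (nat_lit 6) (nat_lit 2) (nat_lit 3) (nat_lit 7) (nat_lit 135) (nat_lit 249) r12_135 r4_249 (nat_lit 0) (nat_lit 0) (nat_lit 0) (nat_lit 0x1bfba7ffa2) (nat_lit 3268098598)]
noncomputable def e36_19 : List Rx := [
  Rx.mk (nat_lit 20) (nat_lit 4) (nat_lit 2) (nat_lit 0) (nat_lit 2) (nat_lit 141) (nat_lit 257) r12_141 r10_257 (nat_lit 1464990) (nat_lit 0) (nat_lit 1296586) (nat_lit 0x1d70d23076) (nat_lit 2864251174),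
  Rx.mk (nat_lit 21) (nat_lit 5) (nat_lit 2) (nat_lit 0) (nat_lit 3) (nat_lit 146) (nat_lit 263) r12_146 r10_263 (nat_lit 0) (nat_lit 0) (nat_lit 13463419) (nat_lit 0x20b7b8c60a) (nat_lit 1966390417),
  Rx.mk (nat_lit 22) (nat_lit 6) (nat_lit 2) (nat_lit 0) (nat_lit 3) (nat_lit 148) (nat_lit 270) r12_148 r10_270 (nat_lit 0) (nat_lit 0) (nat_lit 6540563) (nat_lit 0x1fc295e04a) (nat_lit 2221458261),
  Rx.mk (nat_lit 52) (nat_lit 4) (nat_lit 6) (nat_lit 0) (nat_lit 2) (nat_lit 138) (nat_lit 260) r12_138 r10_260 (nat_lit 1296586) (nat_lit 0) (nat_lit 1464990) (nat_lit 0x1d70d23076) (nat_lit 2864251174),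
  Rx.mk (nat_lit 53) (nat_lit 5) (nat_lit 6) (nat_lit 0) (nat_lit 3) (nat_lit 144) (nat_lit 265) r12_144 r10_265 (nat_lit 0) (nat_lit 0) (nat_lit 11296937) (nat_lit 0x208f406070) (nat_lit 2007236985),
  Rx.mk (nat_lit 55) (nat_lit 7) (nat_lit 6) (nat_lit 0) (nat_lit 3) (nat_lit 151) (nat_lit 267) r12_151 r10_267 (nat_lit 0) (nat_lit 0) (nat_lit 10460316) (nat_lit 0x2080f5804a) (nat_lit 2021586414),
  Rx.mk (nat_lit 84) (nat_lit 4) (nat_lit 2) (nat_lit 1) (nat_lit 6) (nat_lit 142) (nat_lit 258) r12_142 r10_258 (nat_lit 11296937) (nat_lit 0) (nat_lit 0) (nat_lit 0x208f406070) (nat_lit 2007236985),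
  Rx.mk (nat_lit 86) (nat_lit 6) (nat_lit 2) (nat_lit 1) (nat_lit 7) (nat_lit 149) (nat_lit 271) r12_149 r10_271 (nat_lit 0) (nat_lit 0) (nat_lit 0) (nat_lit 0x2129478ea0) (nat_lit 1832335148),
  Rx.mk (nat_lit 116) (nat_lit 4) (nat_lit 6) (nat_lit 1) (nat_lit 6) (nat_lit 139) (nat_lit 261) r12_139 r10_261 (nat_lit 13463419) (nat_lit 0) (nat_lit 0) (nat_lit 0x20b7b8c60a) (nat_lit 1966390417),
  Rx.mk (nat_lit 119) (nat_lit 7) (nat_lit 6) (nat_lit 1) (nat_lit 7) (nat_lit 152) (nat_lit 268) r12_152 r10_268 (nat_lit 0) (nat_lit 0) (nat_lit 0) (nat_lit 0x2020ac6cf8) (nat_lit 2113514948),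
  Rx.mk (nat_lit 180) (nat_lit 4) (nat_lit 6) (nat_lit 2) (nat_lit 6) (nat_lit 140) (nat_lit 262) r12_140 r10_262 (nat_lit 6540563) (nat_lit 0) (nat_lit 0) (nat_lit 0x1fc295e04a) (nat_lit 2221458261),
  Rx.mk (nat_lit 181) (nat_lit 5) (nat_lit 6) (nat_lit 2) (nat_lit 7) (nat_lit 145) (nat_lit 266) r12_145 r10_266 (nat_lit 0) (nat_lit 0) (nat_lit 0) (nat_lit 0x2129478ea0) (nat_lit 1832335148),
  Rx.mk (nat_lit 183) (nat_lit 7) (nat_lit 6) (nat_lit 2) (nat_lit 7) (nat_lit 153) (nat_lit 269) r12_153 r10_269 (nat_lit 0) (nat_lit 0) (nat_lit 0) (nat_lit 0x2129478ea0) (nat_lit 1832335148),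
  Rx.mk (nat_lit 212) (nat_lit 4) (nat_lit 2) (nat_lit 3) (nat_lit 6) (nat_lit 143) (nat_lit 259) r12_143 r10_259 (nat_lit 10460316) (nat_lit 0) (nat_lit 0) (nat_lit 0x2080f5804a) (nat_lit 2021586414),
  Rx.mk (nat_lit 213) (nat_lit 5) (nat_lit 2) (nat_lit 3) (nat_lit 7) (nat_lit 147) (nat_lit 264) r12_147 r10_264 (nat_lit 0) (nat_lit 0) (nat_lit 0) (nat_lit 0x2020ac6cf8) (nat_lit 2113514948),
  Rx.mk (nat_lit 214) (nat_lit 6) (nat_lit 2) (nat_lit 3) (nat_lit 7) (nat_lit 150) (nat_lit 272) r12_150 r10_272 (nat_lit 0) (nat_lit 0) (nat_lit 0) (nat_lit 0x2129478ea0) (nat_lit 1832335148)]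
noncomputable def e36_20 : List Rx := [
  Rx.mk (nat_lit 52) (nat_lit 4) (nat_lit 6) (nat_lit 0) (nat_lit 2) (nat_lit 154) (nat_lit 288) r12_154 r11_288 (nat_lit 1769042) (nat_lit 0) (nat_lit 2923838) (nat_lit 0x1e5ff9e7d4) (nat_lit 2605723528),
  Rx.mk (nat_lit 53) (nat_lit 5) (nat_lit 6) (nat_lit 0) (nat_lit 3) (nat_lit 158) (nat_lit 292) r12_158 r11_292 (nat_lit 0) (nat_lit 0) (nat_lit 11262264) (nat_lit 0x1ff0a3676e) (nat_lit 2176243462),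
  Rx.mk (nat_lit 55) (nat_lit 7) (nat_lit 6) (nat_lit 0) (nat_lit 3) (nat_lit 163) (nat_lit 295) r12_163 r11_295 (nat_lit 0) (nat_lit 0) (nat_lit 16738825) (nat_lit 0x2040c2e954) (nat_lit 2096069273),
  Rx.mk (nat_lit 180) (nat_lit 4) (nat_lit 6) (nat_lit 2) (nat_lit 6) (nat_lit 155) (nat_lit 290) r12_155 r11_290 (nat_lit 7227201) (nat_lit 0) (nat_lit 0) (nat_lit 0x20cdb858b2) (nat_lit 1936857399),
  Rx.mk (nat_lit 181) (nat_lit 5) (nat_lit 6) (nat_lit 2) (nat_lit 7) (nat_lit 159) (nat_lit 294) r12_159 r11_294 (nat_lit 0) (nat_lit 0) (nat_lit 0) (nat_lit 0x2017771d54) (nat_lit 2123310648),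
  Rx.mk (nat_lit 183) (nat_lit 7) (nat_lit 6) (nat_lit 2) (nat_lit 7) (nat_lit 164) (nat_lit 296) r12_164 r11_296 (nat_lit 0) (nat_lit 0) (nat_lit 0) (nat_lit 0x20465bbdb4) (nat_lit 2073385048),
  Rx.mk (nat_lit 212) (nat_lit 4) (nat_lit 2) (nat_lit 3) (nat_lit 6) (nat_lit 157) (nat_lit 287) r12_157 r11_287 (nat_lit 2048619) (nat_lit 0) (nat_lit 0) (nat_lit 0x20e465f024) (nat_lit 1907326767),
  Rx.mk (nat_lit 213) (nat_lit 5) (nat_lit 2) (nat_lit 3) (nat_lit 7) (nat_lit 161) (nat_lit 291) r12_161 r11_291 (nat_lit 0) (nat_lit 0) (nat_lit 0) (nat_lit 0x23aa5a6c68) (nat_lit 1151525148),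
  Rx.mk (nat_lit 214) (nat_lit 6) (nat_lit 2) (nat_lit 3) (nat_lit 7) (nat_lit 162) (nat_lit 297) r12_162 r11_297 (nat_lit 0) (nat_lit 0) (nat_lit 0) (nat_lit 0x1fe909ed0c) (nat_lit 2172901848),
  Rx.mk (nat_lit 244) (nat_lit 4) (nat_lit 6) (nat_lit 3) (nat_lit 6) (nat_lit 156) (nat_lit 289) r12_156 r11_289 (nat_lit 15054897) (nat_lit 0) (nat_lit 0) (nat_lit 0x20601fea90) (nat_lit 2061039845),
  Rx.mk (nat_lit 245) (nat_lit 5) (nat_lit 6) (nat_lit 3) (nat_lit 7) (nat_lit 160) (nat_lit 293) r12_160 r11_293 (nat_lit 0) (nat_lit 0) (nat_lit 0) (nat_lit 0x1ff3c36084) (nat_lit 2161675148)]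
noncomputable def e36_21 : List Rx := [
  Rx.mk (nat_lit 86) (nat_lit 6) (nat_lit 2) (nat_lit 1) (nat_lit 7) (nat_lit 168) (nat_lit 247) r12_168 r9_247 (nat_lit 0) (nat_lit 0) (nat_lit 0) (nat_lit 0x2000efab8c) (nat_lit 2147483648),
  Rx.mk (nat_lit 326) (nat_lit 6) (nat_lit 0) (nat_lit 5) (nat_lit 5) (nat_lit 165) (nat_lit 244) r12_165 r9_244 (nat_lit 0) (nat_lit 45119070) (nat_lit 0) (nat_lit 0x1fd92c27ce) (nat_lit 2235600468),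
  Rx.mk (nat_lit 334) (nat_lit 6) (nat_lit 1) (nat_lit 5) (nat_lit 7) (nat_lit 166) (nat_lit 245) r12_166 r9_245 (nat_lit 0) (nat_lit 0) (nat_lit 0) (nat_lit 0x2000efab8c) (nat_lit 2147483648),
  Rx.mk (nat_lit 342) (nat_lit 6) (nat_lit 2) (nat_lit 5) (nat_lit 7) (nat_lit 167) (nat_lit 246) r12_167 r9_246 (nat_lit 0) (nat_lit 0) (nat_lit 0) (nat_lit 0x2000efab8c) (nat_lit 2147483648)]
noncomputable def e36_22 : List Rx := [
  Rx.mk (nat_lit 258) (nat_lit 2) (nat_lit 0) (nat_lit 4) (nat_lit 1) (nat_lit 172) (nat_lit 236) r12_172 r0_236 (nat_lit 0) (nat_lit 2766) (nat_lit 3594) (nat_lit 0x1c40c28d00) (nat_lit 3192515208),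
  Rx.mk (nat_lit 262) (nat_lit 6) (nat_lit 0) (nat_lit 4) (nat_lit 1) (nat_lit 169) (nat_lit 238) r12_169 r0_238 (nat_lit 0) (nat_lit 13255) (nat_lit 14688) (nat_lit 0x1b267bc64c) (nat_lit 3500060191),
  Rx.mk (nat_lit 266) (nat_lit 2) (nat_lit 1) (nat_lit 4) (nat_lit 3) (nat_lit 174) (nat_lit 237) r12_174 r0_237 (nat_lit 0) (nat_lit 0) (nat_lit 16716) (nat_lit 0x22aa0eb896) (nat_lit 1423260614),
  Rx.mk (nat_lit 270) (nat_lit 6) (nat_lit 1) (nat_lit 4) (nat_lit 3) (nat_lit 170) (nat_lit 239) r12_170 r0_239 (nat_lit 0) (nat_lit 0) (nat_lit 6379702) (nat_lit 0x1f0055a0a6) (nat_lit 2432499700),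
  Rx.mk (nat_lit 278) (nat_lit 6) (nat_lit 2) (nat_lit 4) (nat_lit 3) (nat_lit 171) (nat_lit 240) r12_171 r0_240 (nat_lit 0) (nat_lit 0) (nat_lit 124409) (nat_lit 0x1c8a243e1c) (nat_lit 3112716857),
  Rx.mk (nat_lit 386) (nat_lit 2) (nat_lit 0) (nat_lit 6) (nat_lit 5) (nat_lit 173) (nat_lit 241) r12_173 r0_241 (nat_lit 0) (nat_lit 7905363) (nat_lit 0) (nat_lit 0x1fe4879cc0) (nat_lit 2185986011),
  Rx.mk (nat_lit 394) (nat_lit 2) (nat_lit 1) (nat_lit 6) (nat_lit 7) (nat_lit 175) (nat_lit 242) r12_175 r0_242 (nat_lit 0) (nat_lit 0) (nat_lit 0) (nat_lit 0x22a34e539a) (nat_lit 1430860798)]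
noncomputable def e36_23 : List Rx := [
  Rx.mk (nat_lit 266) (nat_lit 2) (nat_lit 1) (nat_lit 4) (nat_lit 3) (nat_lit 177) (nat_lit 249) r12_177 r1_249 (nat_lit 0) (nat_lit 0) (nat_lit 32060) (nat_lit 0x246ff2def6) (nat_lit 941316158),
  Rx.mk (nat_lit 270) (nat_lit 6) (nat_lit 1) (nat_lit 4) (nat_lit 3) (nat_lit 176) (nat_lit 250) r12_176 r1_250 (nat_lit 0) (nat_lit 0) (nat_lit 45745925) (nat_lit 0x2156b2c472) (nat_lit 1829796823),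
  Rx.mk (nat_lit 394) (nat_lit 2) (nat_lit 1) (nat_lit 6) (nat_lit 7) (nat_lit 178) (nat_lit 251) r12_178 r1_251 (nat_lit 0) (nat_lit 0) (nat_lit 0) (nat_lit 0x23be0c1bee) (nat_lit 1130624198)]
noncomputable def e36_24 : List Rx := [
  Rx.mk (nat_lit 258) (nat_lit 2) (nat_lit 0) (nat_lit 4) (nat_lit 1) (nat_lit 185) (nat_lit 241) r12_185 r4_241 (nat_lit 0) (nat_lit 855) (nat_lit 1272) (nat_lit 0x1d97a1ac0e) (nat_lit 2818976125),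
  Rx.mk (nat_lit 262) (nat_lit 6) (nat_lit 0) (nat_lit 4) (nat_lit 1) (nat_lit 179) (nat_lit 244) r12_179 r4_244 (nat_lit 0) (nat_lit 9859) (nat_lit 28722) (nat_lit 0x198c7c56fc) (nat_lit 3946733429),
  Rx.mk (nat_lit 266) (nat_lit 2) (nat_lit 1) (nat_lit 4) (nat_lit 3) (nat_lit 187) (nat_lit 242) r12_187 r4_242 (nat_lit 0) (nat_lit 0) (nat_lit 12177089) (nat_lit 0x1fb27a9ab6) (nat_lit 2244661087),
  Rx.mk (nat_lit 270) (nat_lit 6) (nat_lit 1) (nat_lit 4) (nat_lit 3) (nat_lit 181) (nat_lit 245) r12_181 r4_245 (nat_lit 0) (nat_lit 0) (nat_lit 21146279) (nat_lit 0x1f0549b732) (nat_lit 2442248577),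
  Rx.mk (nat_lit 278) (nat_lit 6) (nat_lit 2) (nat_lit 4) (nat_lit 3) (nat_lit 183) (nat_lit 246) r12_183 r4_246 (nat_lit 0) (nat_lit 0) (nat_lit 29509241) (nat_lit 0x1ccaafb8a8) (nat_lit 3072224889),
  Rx.mk (nat_lit 282) (nat_lit 2) (nat_lit 3) (nat_lit 4) (nat_lit 3) (nat_lit 189) (nat_lit 243) r12_189 r4_243 (nat_lit 0) (nat_lit 0) (nat_lit 16759512) (nat_lit 0x2047463858) (nat_lit 2089173460),
  Rx.mk (nat_lit 386) (nat_lit 2) (nat_lit 0) (nat_lit 6) (nat_lit 5) (nat_lit 186) (nat_lit 250) r12_186 r4_250 (nat_lit 0) (nat_lit 3308125) (nat_lit 0) (nat_lit 0x20fc14fe0e) (nat_lit 1883489423),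
  Rx.mk (nat_lit 394) (nat_lit 2) (nat_lit 1) (nat_lit 6) (nat_lit 7) (nat_lit 188) (nat_lit 251) r12_188 r4_251 (nat_lit 0) (nat_lit 0) (nat_lit 0) (nat_lit 0x202452f822) (nat_lit 2109582098),
  Rx.mk (nat_lit 410) (nat_lit 2) (nat_lit 3) (nat_lit 6) (nat_lit 7) (nat_lit 190) (nat_lit 252) r12_190 r4_252 (nat_lit 0) (nat_lit 0) (nat_lit 0) (nat_lit 0x2023d8595a) (nat_lit 2110118398),
  Rx.mk (nat_lit 454) (nat_lit 6) (nat_lit 0) (nat_lit 7) (nat_lit 5) (nat_lit 180) (nat_lit 247) r12_180 r4_247 (nat_lit 0) (nat_lit 1770) (nat_lit 0) (nat_lit 0x17c290559c) (nat_lit 4445568318),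
  Rx.mk (nat_lit 462) (nat_lit 6) (nat_lit 1) (nat_lit 7) (nat_lit 7) (nat_lit 182) (nat_lit 248) r12_182 r4_248 (nat_lit 0) (nat_lit 0) (nat_lit 0) (nat_lit 0x1fb03df1b2) (nat_lit 2234633498),
  Rx.mk (nat_lit 470) (nat_lit 6) (nat_lit 2) (nat_lit 7) (nat_lit 7) (nat_lit 184) (nat_lit 249) r12_184 r4_249 (nat_lit 0) (nat_lit 0) (nat_lit 0) (nat_lit 0x1bfba7ffa2) (nat_lit 3268098598)]
noncomputable def e36_25 : List Rx := [
  Rx.mk (nat_lit 258) (nat_lit 2) (nat_lit 0) (nat_lit 4) (nat_lit 1) (nat_lit 197) (nat_lit 305) r12_197 r7_305 (nat_lit 0) (nat_lit 185901) (nat_lit 172292) (nat_lit 0x198be36bf4) (nat_lit 3947748541),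
  Rx.mk (nat_lit 262) (nat_lit 6) (nat_lit 0) (nat_lit 4) (nat_lit 1) (nat_lit 191) (nat_lit 303) r12_191 r7_303 (nat_lit 0) (nat_lit 172292) (nat_lit 185901) (nat_lit 0x198be36bf4) (nat_lit 3947748541),
  Rx.mk (nat_lit 266) (nat_lit 2) (nat_lit 1) (nat_lit 4) (nat_lit 3) (nat_lit 200) (nat_lit 310) r12_200 r7_310 (nat_lit 0) (nat_lit 0) (nat_lit 17057350) (nat_lit 0x1ee2d51b42) (nat_lit 2475695548),
  Rx.mk (nat_lit 270) (nat_lit 6) (nat_lit 1) (nat_lit 4) (nat_lit 3) (nat_lit 193) (nat_lit 308) r12_193 r7_308 (nat_lit 0) (nat_lit 0) (nat_lit 9553025) (nat_lit 0x205b9e46b0) (nat_lit 2060271073),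
  Rx.mk (nat_lit 278) (nat_lit 6) (nat_lit 2) (nat_lit 4) (nat_lit 3) (nat_lit 195) (nat_lit 313) r12_195 r7_313 (nat_lit 0) (nat_lit 0) (nat_lit 2028317) (nat_lit 0x1ea0ece05c) (nat_lit 2532284665),
  Rx.mk (nat_lit 322) (nat_lit 2) (nat_lit 0) (nat_lit 5) (nat_lit 5) (nat_lit 198) (nat_lit 306) r12_198 r7_306 (nat_lit 0) (nat_lit 9553025) (nat_lit 0) (nat_lit 0x205b9e46b0) (nat_lit 2060271073),
  Rx.mk (nat_lit 326) (nat_lit 6) (nat_lit 0) (nat_lit 5) (nat_lit 5) (nat_lit 192) (nat_lit 304) r12_192 r7_304 (nat_lit 0) (nat_lit 17057350) (nat_lit 0) (nat_lit 0x1ee2d51b42) (nat_lit 2475695548),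
  Rx.mk (nat_lit 330) (nat_lit 2) (nat_lit 1) (nat_lit 5) (nat_lit 7) (nat_lit 201) (nat_lit 311) r12_201 r7_311 (nat_lit 0) (nat_lit 0) (nat_lit 0) (nat_lit 0x22594f17fc) (nat_lit 1509483948),
  Rx.mk (nat_lit 334) (nat_lit 6) (nat_lit 1) (nat_lit 5) (nat_lit 7) (nat_lit 194) (nat_lit 309) r12_194 r7_309 (nat_lit 0) (nat_lit 0) (nat_lit 0) (nat_lit 0x22594f17fc) (nat_lit 1509483948),
  Rx.mk (nat_lit 342) (nat_lit 6) (nat_lit 2) (nat_lit 5) (nat_lit 7) (nat_lit 196) (nat_lit 314) r12_196 r7_314 (nat_lit 0) (nat_lit 0) (nat_lit 0) (nat_lit 0x204c1f7a38) (nat_lit 2067262648),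
  Rx.mk (nat_lit 386) (nat_lit 2) (nat_lit 0) (nat_lit 6) (nat_lit 5) (nat_lit 199) (nat_lit 307) r12_199 r7_307 (nat_lit 0) (nat_lit 2028317) (nat_lit 0) (nat_lit 0x1ea0ece05c) (nat_lit 2532284665),
  Rx.mk (nat_lit 394) (nat_lit 2) (nat_lit 1) (nat_lit 6) (nat_lit 7) (nat_lit 202) (nat_lit 312) r12_202 r7_312 (nat_lit 0) (nat_lit 0) (nat_lit 0) (nat_lit 0x204c1f7a38) (nat_lit 2067262648)]
noncomputable def e36_26 : List Rx := [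
  Rx.mk (nat_lit 266) (nat_lit 2) (nat_lit 1) (nat_lit 4) (nat_lit 3) (nat_lit 205) (nat_lit 227) r12_205 r8_227 (nat_lit 0) (nat_lit 0) (nat_lit 9739573) (nat_lit 0x203fec4d7c) (nat_lit 2089940321),
  Rx.mk (nat_lit 270) (nat_lit 6) (nat_lit 1) (nat_lit 4) (nat_lit 3) (nat_lit 203) (nat_lit 225) r12_203 r8_225 (nat_lit 0) (nat_lit 0) (nat_lit 23920748) (nat_lit 0x2018d41a30) (nat_lit 2145804396),
  Rx.mk (nat_lit 330) (nat_lit 2) (nat_lit 1) (nat_lit 5) (nat_lit 7) (nat_lit 206) (nat_lit 228) r12_206 r8_228 (nat_lit 0) (nat_lit 0) (nat_lit 0) (nat_lit 0x202911d41e) (nat_lit 2104549198),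
  Rx.mk (nat_lit 334) (nat_lit 6) (nat_lit 1) (nat_lit 5) (nat_lit 7) (nat_lit 204) (nat_lit 226) r12_204 r8_226 (nat_lit 0) (nat_lit 0) (nat_lit 0) (nat_lit 0x2000efab8c) (nat_lit 2147483648),
  Rx.mk (nat_lit 394) (nat_lit 2) (nat_lit 1) (nat_lit 6) (nat_lit 7) (nat_lit 207) (nat_lit 229) r12_207 r8_229 (nat_lit 0) (nat_lit 0) (nat_lit 0) (nat_lit 0x203b20a61c) (nat_lit 2085320748)]
noncomputable def e36_27 : List Rx := [
  Rx.mk (nat_lit 322) (nat_lit 2) (nat_lit 0) (nat_lit 5) (nat_lit 5) (nat_lit 211) (nat_lit 225) r12_211 r8_225 (nat_lit 0) (nat_lit 23920748) (nat_lit 0) (nat_lit 0x2018d41a30) (nat_lit 2145804396),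
  Rx.mk (nat_lit 326) (nat_lit 6) (nat_lit 0) (nat_lit 5) (nat_lit 5) (nat_lit 208) (nat_lit 227) r12_208 r8_227 (nat_lit 0) (nat_lit 9739573) (nat_lit 0) (nat_lit 0x203fec4d7c) (nat_lit 2089940321),
  Rx.mk (nat_lit 330) (nat_lit 2) (nat_lit 1) (nat_lit 5) (nat_lit 7) (nat_lit 212) (nat_lit 226) r12_212 r8_226 (nat_lit 0) (nat_lit 0) (nat_lit 0) (nat_lit 0x2000efab8c) (nat_lit 2147483648),
  Rx.mk (nat_lit 334) (nat_lit 6) (nat_lit 1) (nat_lit 5) (nat_lit 7) (nat_lit 209) (nat_lit 228) r12_209 r8_228 (nat_lit 0) (nat_lit 0) (nat_lit 0) (nat_lit 0x202911d41e) (nat_lit 2104549198),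
  Rx.mk (nat_lit 342) (nat_lit 6) (nat_lit 2) (nat_lit 5) (nat_lit 7) (nat_lit 210) (nat_lit 229) r12_210 r8_229 (nat_lit 0) (nat_lit 0) (nat_lit 0) (nat_lit 0x203b20a61c) (nat_lit 2085320748)]
noncomputable def e36_28 : List Rx := [
  Rx.mk (nat_lit 258) (nat_lit 2) (nat_lit 0) (nat_lit 4) (nat_lit 1) (nat_lit 221) (nat_lit 260) r12_221 r10_260 (nat_lit 0) (nat_lit 1296586) (nat_lit 1464990) (nat_lit 0x1d70d23076) (nat_lit 2864251174),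
  Rx.mk (nat_lit 262) (nat_lit 6) (nat_lit 0) (nat_lit 4) (nat_lit 1) (nat_lit 213) (nat_lit 257) r12_213 r10_257 (nat_lit 0) (nat_lit 1464990) (nat_lit 1296586) (nat_lit 0x1d70d23076) (nat_lit 2864251174),
  Rx.mk (nat_lit 266) (nat_lit 2) (nat_lit 1) (nat_lit 4) (nat_lit 3) (nat_lit 224) (nat_lit 265) r12_224 r10_265 (nat_lit 0) (nat_lit 0) (nat_lit 11296937) (nat_lit 0x208f406070) (nat_lit 2007236985),
  Rx.mk (nat_lit 270) (nat_lit 6) (nat_lit 1) (nat_lit 4) (nat_lit 3) (nat_lit 216) (nat_lit 263) r12_216 r10_263 (nat_lit 0) (nat_lit 0) (nat_lit 13463419) (nat_lit 0x20b7b8c60a) (nat_lit 1966390417),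
  Rx.mk (nat_lit 278) (nat_lit 6) (nat_lit 2) (nat_lit 4) (nat_lit 3) (nat_lit 218) (nat_lit 270) r12_218 r10_270 (nat_lit 0) (nat_lit 0) (nat_lit 6540563) (nat_lit 0x1fc295e04a) (nat_lit 2221458261),
  Rx.mk (nat_lit 282) (nat_lit 2) (nat_lit 3) (nat_lit 4) (nat_lit 3) (nat_lit 226) (nat_lit 267) r12_226 r10_267 (nat_lit 0) (nat_lit 0) (nat_lit 10460316) (nat_lit 0x2080f5804a) (nat_lit 2021586414),
  Rx.mk (nat_lit 322) (nat_lit 2) (nat_lit 0) (nat_lit 5) (nat_lit 5) (nat_lit 222) (nat_lit 261) r12_222 r10_261 (nat_lit 0) (nat_lit 13463419) (nat_lit 0) (nat_lit 0x20b7b8c60a) (nat_lit 1966390417),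
  Rx.mk (nat_lit 326) (nat_lit 6) (nat_lit 0) (nat_lit 5) (nat_lit 5) (nat_lit 214) (nat_lit 258) r12_214 r10_258 (nat_lit 0) (nat_lit 11296937) (nat_lit 0) (nat_lit 0x208f406070) (nat_lit 2007236985),
  Rx.mk (nat_lit 342) (nat_lit 6) (nat_lit 2) (nat_lit 5) (nat_lit 7) (nat_lit 219) (nat_lit 271) r12_219 r10_271 (nat_lit 0) (nat_lit 0) (nat_lit 0) (nat_lit 0x2129478ea0) (nat_lit 1832335148),
  Rx.mk (nat_lit 346) (nat_lit 2) (nat_lit 3) (nat_lit 5) (nat_lit 7) (nat_lit 227) (nat_lit 268) r12_227 r10_268 (nat_lit 0) (nat_lit 0) (nat_lit 0) (nat_lit 0x2020ac6cf8) (nat_lit 2113514948),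
  Rx.mk (nat_lit 386) (nat_lit 2) (nat_lit 0) (nat_lit 6) (nat_lit 5) (nat_lit 223) (nat_lit 262) r12_223 r10_262 (nat_lit 0) (nat_lit 6540563) (nat_lit 0) (nat_lit 0x1fc295e04a) (nat_lit 2221458261),
  Rx.mk (nat_lit 394) (nat_lit 2) (nat_lit 1) (nat_lit 6) (nat_lit 7) (nat_lit 225) (nat_lit 266) r12_225 r10_266 (nat_lit 0) (nat_lit 0) (nat_lit 0) (nat_lit 0x2129478ea0) (nat_lit 1832335148),
  Rx.mk (nat_lit 410) (nat_lit 2) (nat_lit 3) (nat_lit 6) (nat_lit 7) (nat_lit 228) (nat_lit 269) r12_228 r10_269 (nat_lit 0) (nat_lit 0) (nat_lit 0) (nat_lit 0x2129478ea0) (nat_lit 1832335148),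
  Rx.mk (nat_lit 454) (nat_lit 6) (nat_lit 0) (nat_lit 7) (nat_lit 5) (nat_lit 215) (nat_lit 259) r12_215 r10_259 (nat_lit 0) (nat_lit 10460316) (nat_lit 0) (nat_lit 0x2080f5804a) (nat_lit 2021586414),
  Rx.mk (nat_lit 462) (nat_lit 6) (nat_lit 1) (nat_lit 7) (nat_lit 7) (nat_lit 217) (nat_lit 264) r12_217 r10_264 (nat_lit 0) (nat_lit 0) (nat_lit 0) (nat_lit 0x2020ac6cf8) (nat_lit 2113514948),
  Rx.mk (nat_lit 470) (nat_lit 6) (nat_lit 2) (nat_lit 7) (nat_lit 7) (nat_lit 220) (nat_lit 272) r12_220 r10_272 (nat_lit 0) (nat_lit 0) (nat_lit 0) (nat_lit 0x2129478ea0) (nat_lit 1832335148)]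
noncomputable def e36_29 : List Rx := [
  Rx.mk (nat_lit 258) (nat_lit 2) (nat_lit 0) (nat_lit 4) (nat_lit 1) (nat_lit 232) (nat_lit 288) r12_232 r11_288 (nat_lit 0) (nat_lit 1769042) (nat_lit 2923838) (nat_lit 0x1e5ff9e7d4) (nat_lit 2605723528),
  Rx.mk (nat_lit 266) (nat_lit 2) (nat_lit 1) (nat_lit 4) (nat_lit 3) (nat_lit 235) (nat_lit 292) r12_235 r11_292 (nat_lit 0) (nat_lit 0) (nat_lit 11262264) (nat_lit 0x1ff0a3676e) (nat_lit 2176243462),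
  Rx.mk (nat_lit 282) (nat_lit 2) (nat_lit 3) (nat_lit 4) (nat_lit 3) (nat_lit 238) (nat_lit 295) r12_238 r11_295 (nat_lit 0) (nat_lit 0) (nat_lit 16738825) (nat_lit 0x2040c2e954) (nat_lit 2096069273),
  Rx.mk (nat_lit 386) (nat_lit 2) (nat_lit 0) (nat_lit 6) (nat_lit 5) (nat_lit 233) (nat_lit 290) r12_233 r11_290 (nat_lit 0) (nat_lit 7227201) (nat_lit 0) (nat_lit 0x20cdb858b2) (nat_lit 1936857399),
  Rx.mk (nat_lit 394) (nat_lit 2) (nat_lit 1) (nat_lit 6) (nat_lit 7) (nat_lit 236) (nat_lit 294) r12_236 r11_294 (nat_lit 0) (nat_lit 0) (nat_lit 0) (nat_lit 0x2017771d54) (nat_lit 2123310648),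
  Rx.mk (nat_lit 410) (nat_lit 2) (nat_lit 3) (nat_lit 6) (nat_lit 7) (nat_lit 239) (nat_lit 296) r12_239 r11_296 (nat_lit 0) (nat_lit 0) (nat_lit 0) (nat_lit 0x20465bbdb4) (nat_lit 2073385048),
  Rx.mk (nat_lit 450) (nat_lit 2) (nat_lit 0) (nat_lit 7) (nat_lit 5) (nat_lit 234) (nat_lit 289) r12_234 r11_289 (nat_lit 0) (nat_lit 15054897) (nat_lit 0) (nat_lit 0x20601fea90) (nat_lit 2061039845),
  Rx.mk (nat_lit 454) (nat_lit 6) (nat_lit 0) (nat_lit 7) (nat_lit 5) (nat_lit 229) (nat_lit 287) r12_229 r11_287 (nat_lit 0) (nat_lit 2048619) (nat_lit 0) (nat_lit 0x20e465f024) (nat_lit 1907326767),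
  Rx.mk (nat_lit 458) (nat_lit 2) (nat_lit 1) (nat_lit 7) (nat_lit 7) (nat_lit 237) (nat_lit 293) r12_237 r11_293 (nat_lit 0) (nat_lit 0) (nat_lit 0) (nat_lit 0x1ff3c36084) (nat_lit 2161675148),
  Rx.mk (nat_lit 462) (nat_lit 6) (nat_lit 1) (nat_lit 7) (nat_lit 7) (nat_lit 230) (nat_lit 291) r12_230 r11_291 (nat_lit 0) (nat_lit 0) (nat_lit 0) (nat_lit 0x23aa5a6c68) (nat_lit 1151525148),
  Rx.mk (nat_lit 470) (nat_lit 6) (nat_lit 2) (nat_lit 7) (nat_lit 7) (nat_lit 231) (nat_lit 297) r12_231 r11_297 (nat_lit 0) (nat_lit 0) (nat_lit 0) (nat_lit 0x1fe909ed0c) (nat_lit 2172901848)]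
noncomputable def e36_30 : List Rx := [
  Rx.mk (nat_lit 20) (nat_lit 4) (nat_lit 2) (nat_lit 0) (nat_lit 2) (nat_lit 240) (nat_lit 246) r12_240 r5_246 (nat_lit 3531) (nat_lit 0) (nat_lit 6986) (nat_lit 0x1fffd33ac0) (nat_lit 2147686165),
  Rx.mk (nat_lit 22) (nat_lit 6) (nat_lit 2) (nat_lit 0) (nat_lit 3) (nat_lit 242) (nat_lit 248) r12_242 r5_248 (nat_lit 0) (nat_lit 0) (nat_lit 11931785) (nat_lit 0x1e8af7c94c) (nat_lit 2566283833),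
  Rx.mk (nat_lit 23) (nat_lit 7) (nat_lit 2) (nat_lit 0) (nat_lit 3) (nat_lit 246) (nat_lit 247) r12_246 r5_247 (nat_lit 0) (nat_lit 0) (nat_lit 4473231) (nat_lit 0x2234ad6e1c) (nat_lit 1552752779),
  Rx.mk (nat_lit 55) (nat_lit 7) (nat_lit 6) (nat_lit 0) (nat_lit 3) (nat_lit 244) (nat_lit 245) r12_244 r5_245 (nat_lit 0) (nat_lit 0) (nat_lit 48544) (nat_lit 0x2191f1b606) (nat_lit 1720739542),
  Rx.mk (nat_lit 183) (nat_lit 7) (nat_lit 6) (nat_lit 2) (nat_lit 7) (nat_lit 245) (nat_lit 251) r12_245 r5_251 (nat_lit 0) (nat_lit 0) (nat_lit 0) (nat_lit 0x1e973f11c4) (nat_lit 2540503148),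
  Rx.mk (nat_lit 212) (nat_lit 4) (nat_lit 2) (nat_lit 3) (nat_lit 6) (nat_lit 241) (nat_lit 249) r12_241 r5_249 (nat_lit 1145676) (nat_lit 0) (nat_lit 0) (nat_lit 0x218e32d266) (nat_lit 1726042174),
  Rx.mk (nat_lit 214) (nat_lit 6) (nat_lit 2) (nat_lit 3) (nat_lit 7) (nat_lit 243) (nat_lit 250) r12_243 r5_250 (nat_lit 0) (nat_lit 0) (nat_lit 0) (nat_lit 0x231643e586) (nat_lit 1308792898)]
noncomputable def e36_31 : List Rx := [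
  Rx.mk (nat_lit 20) (nat_lit 4) (nat_lit 2) (nat_lit 0) (nat_lit 2) (nat_lit 247) (nat_lit 288) r12_247 r11_288 (nat_lit 2923838) (nat_lit 0) (nat_lit 1769042) (nat_lit 0x1e5ff9e7d4) (nat_lit 2605723528),
  Rx.mk (nat_lit 22) (nat_lit 6) (nat_lit 2) (nat_lit 0) (nat_lit 3) (nat_lit 250) (nat_lit 290) r12_250 r11_290 (nat_lit 0) (nat_lit 0) (nat_lit 7227201) (nat_lit 0x20cdb858b2) (nat_lit 1936857399),
  Rx.mk (nat_lit 23) (nat_lit 7) (nat_lit 2) (nat_lit 0) (nat_lit 3) (nat_lit 256) (nat_lit 289) r12_256 r11_289 (nat_lit 0) (nat_lit 0) (nat_lit 15054897) (nat_lit 0x20601fea90) (nat_lit 2061039845),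
  Rx.mk (nat_lit 55) (nat_lit 7) (nat_lit 6) (nat_lit 0) (nat_lit 3) (nat_lit 253) (nat_lit 287) r12_253 r11_287 (nat_lit 0) (nat_lit 0) (nat_lit 2048619) (nat_lit 0x20e465f024) (nat_lit 1907326767),
  Rx.mk (nat_lit 84) (nat_lit 4) (nat_lit 2) (nat_lit 1) (nat_lit 6) (nat_lit 248) (nat_lit 292) r12_248 r11_292 (nat_lit 11262264) (nat_lit 0) (nat_lit 0) (nat_lit 0x1ff0a3676e) (nat_lit 2176243462),
  Rx.mk (nat_lit 86) (nat_lit 6) (nat_lit 2) (nat_lit 1) (nat_lit 7) (nat_lit 251) (nat_lit 294) r12_251 r11_294 (nat_lit 0) (nat_lit 0) (nat_lit 0) (nat_lit 0x2017771d54) (nat_lit 2123310648),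
  Rx.mk (nat_lit 87) (nat_lit 7) (nat_lit 2) (nat_lit 1) (nat_lit 7) (nat_lit 257) (nat_lit 293) r12_257 r11_293 (nat_lit 0) (nat_lit 0) (nat_lit 0) (nat_lit 0x1ff3c36084) (nat_lit 2161675148),
  Rx.mk (nat_lit 119) (nat_lit 7) (nat_lit 6) (nat_lit 1) (nat_lit 7) (nat_lit 254) (nat_lit 291) r12_254 r11_291 (nat_lit 0) (nat_lit 0) (nat_lit 0) (nat_lit 0x23aa5a6c68) (nat_lit 1151525148),
  Rx.mk (nat_lit 183) (nat_lit 7) (nat_lit 6) (nat_lit 2) (nat_lit 7) (nat_lit 255) (nat_lit 297) r12_255 r11_297 (nat_lit 0) (nat_lit 0) (nat_lit 0) (nat_lit 0x1fe909ed0c) (nat_lit 2172901848),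
  Rx.mk (nat_lit 212) (nat_lit 4) (nat_lit 2) (nat_lit 3) (nat_lit 6) (nat_lit 249) (nat_lit 295) r12_249 r11_295 (nat_lit 16738825) (nat_lit 0) (nat_lit 0) (nat_lit 0x2040c2e954) (nat_lit 2096069273),
  Rx.mk (nat_lit 214) (nat_lit 6) (nat_lit 2) (nat_lit 3) (nat_lit 7) (nat_lit 252) (nat_lit 296) r12_252 r11_296 (nat_lit 0) (nat_lit 0) (nat_lit 0) (nat_lit 0x20465bbdb4) (nat_lit 2073385048)]
noncomputable def e36_32 : List Rx := [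
  Rx.mk (nat_lit 163) (nat_lit 3) (nat_lit 4) (nat_lit 2) (nat_lit 5) (nat_lit 267) (nat_lit 270) r12_267 r6_270 (nat_lit 0) (nat_lit 219329) (nat_lit 0) (nat_lit 0x1eecf3e8f6) (nat_lit 2447412027),
  Rx.mk (nat_lit 179) (nat_lit 3) (nat_lit 6) (nat_lit 2) (nat_lit 7) (nat_lit 268) (nat_lit 272) r12_268 r6_272 (nat_lit 0) (nat_lit 0) (nat_lit 0) (nat_lit 0x2034cf6c76) (nat_lit 2091697098),
  Rx.mk (nat_lit 184) (nat_lit 0) (nat_lit 7) (nat_lit 2) (nat_lit 6) (nat_lit 263) (nat_lit 269) r12_263 r6_269 (nat_lit 10802) (nat_lit 0) (nat_lit 0) (nat_lit 0x1e67e50c44) (nat_lit 2592099450),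
  Rx.mk (nat_lit 187) (nat_lit 3) (nat_lit 7) (nat_lit 2) (nat_lit 7) (nat_lit 269) (nat_lit 271) r12_269 r6_271 (nat_lit 0) (nat_lit 0) (nat_lit 0) (nat_lit 0x2078180a74) (nat_lit 2020246648),
  Rx.mk (nat_lit 282) (nat_lit 2) (nat_lit 3) (nat_lit 4) (nat_lit 3) (nat_lit 265) (nat_lit 273) r12_265 r6_273 (nat_lit 0) (nat_lit 0) (nat_lit 5176) (nat_lit 0x1fbb985822) (nat_lit 2222012674),
  Rx.mk (nat_lit 286) (nat_lit 6) (nat_lit 3) (nat_lit 4) (nat_lit 3) (nat_lit 260) (nat_lit 264) r12_260 r6_264 (nat_lit 0) (nat_lit 0) (nat_lit 10802) (nat_lit 0x1e67e50c44) (nat_lit 2592099450),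
  Rx.mk (nat_lit 410) (nat_lit 2) (nat_lit 3) (nat_lit 6) (nat_lit 7) (nat_lit 266) (nat_lit 275) r12_266 r6_275 (nat_lit 0) (nat_lit 0) (nat_lit 0) (nat_lit 0x1ffd36a48c) (nat_lit 2150521948),
  Rx.mk (nat_lit 440) (nat_lit 0) (nat_lit 7) (nat_lit 6) (nat_lit 6) (nat_lit 262) (nat_lit 268) r12_262 r6_268 (nat_lit 5176) (nat_lit 0) (nat_lit 0) (nat_lit 0x1fbb985822) (nat_lit 2222012674),
  Rx.mk (nat_lit 442) (nat_lit 2) (nat_lit 7) (nat_lit 6) (nat_lit 7) (nat_lit 264) (nat_lit 274) r12_264 r6_274 (nat_lit 0) (nat_lit 0) (nat_lit 0) (nat_lit 0x1ffd36a48c) (nat_lit 2150521948),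
  Rx.mk (nat_lit 454) (nat_lit 6) (nat_lit 0) (nat_lit 7) (nat_lit 5) (nat_lit 258) (nat_lit 265) r12_258 r6_265 (nat_lit 0) (nat_lit 219329) (nat_lit 0) (nat_lit 0x1eecf3e8f6) (nat_lit 2447412027),
  Rx.mk (nat_lit 470) (nat_lit 6) (nat_lit 2) (nat_lit 7) (nat_lit 7) (nat_lit 259) (nat_lit 267) r12_259 r6_267 (nat_lit 0) (nat_lit 0) (nat_lit 0) (nat_lit 0x2034cf6c76) (nat_lit 2091697098),
  Rx.mk (nat_lit 478) (nat_lit 6) (nat_lit 3) (nat_lit 7) (nat_lit 7) (nat_lit 261) (nat_lit 266) r12_261 r6_266 (nat_lit 0) (nat_lit 0) (nat_lit 0) (nat_lit 0x2078180a74) (nat_lit 2020246648)]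
noncomputable def e36_33 : List Rx := [
  Rx.mk (nat_lit 262) (nat_lit 6) (nat_lit 0) (nat_lit 4) (nat_lit 1) (nat_lit 270) (nat_lit 246) r12_270 r5_246 (nat_lit 0) (nat_lit 3531) (nat_lit 6986) (nat_lit 0x1fffd33ac0) (nat_lit 2147686165),
  Rx.mk (nat_lit 278) (nat_lit 6) (nat_lit 2) (nat_lit 4) (nat_lit 3) (nat_lit 272) (nat_lit 248) r12_272 r5_248 (nat_lit 0) (nat_lit 0) (nat_lit 11931785) (nat_lit 0x1e8af7c94c) (nat_lit 2566283833),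
  Rx.mk (nat_lit 282) (nat_lit 2) (nat_lit 3) (nat_lit 4) (nat_lit 3) (nat_lit 275) (nat_lit 245) r12_275 r5_245 (nat_lit 0) (nat_lit 0) (nat_lit 48544) (nat_lit 0x2191f1b606) (nat_lit 1720739542),
  Rx.mk (nat_lit 286) (nat_lit 6) (nat_lit 3) (nat_lit 4) (nat_lit 3) (nat_lit 274) (nat_lit 247) r12_274 r5_247 (nat_lit 0) (nat_lit 0) (nat_lit 4473231) (nat_lit 0x2234ad6e1c) (nat_lit 1552752779),
  Rx.mk (nat_lit 410) (nat_lit 2) (nat_lit 3) (nat_lit 6) (nat_lit 7) (nat_lit 276) (nat_lit 251) r12_276 r5_251 (nat_lit 0) (nat_lit 0) (nat_lit 0) (nat_lit 0x1e973f11c4) (nat_lit 2540503148),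
  Rx.mk (nat_lit 454) (nat_lit 6) (nat_lit 0) (nat_lit 7) (nat_lit 5) (nat_lit 271) (nat_lit 249) r12_271 r5_249 (nat_lit 0) (nat_lit 1145676) (nat_lit 0) (nat_lit 0x218e32d266) (nat_lit 1726042174),
  Rx.mk (nat_lit 470) (nat_lit 6) (nat_lit 2) (nat_lit 7) (nat_lit 7) (nat_lit 273) (nat_lit 250) r12_273 r5_250 (nat_lit 0) (nat_lit 0) (nat_lit 0) (nat_lit 0x231643e586) (nat_lit 1308792898)]
noncomputable def e36_34 : List Rx := [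
  Rx.mk (nat_lit 262) (nat_lit 6) (nat_lit 0) (nat_lit 4) (nat_lit 1) (nat_lit 277) (nat_lit 288) r12_277 r11_288 (nat_lit 0) (nat_lit 2923838) (nat_lit 1769042) (nat_lit 0x1e5ff9e7d4) (nat_lit 2605723528),
  Rx.mk (nat_lit 278) (nat_lit 6) (nat_lit 2) (nat_lit 4) (nat_lit 3) (nat_lit 280) (nat_lit 290) r12_280 r11_290 (nat_lit 0) (nat_lit 0) (nat_lit 7227201) (nat_lit 0x20cdb858b2) (nat_lit 1936857399),
  Rx.mk (nat_lit 282) (nat_lit 2) (nat_lit 3) (nat_lit 4) (nat_lit 3) (nat_lit 285) (nat_lit 287) r12_285 r11_287 (nat_lit 0) (nat_lit 0) (nat_lit 2048619) (nat_lit 0x20e465f024) (nat_lit 1907326767),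
  Rx.mk (nat_lit 286) (nat_lit 6) (nat_lit 3) (nat_lit 4) (nat_lit 3) (nat_lit 283) (nat_lit 289) r12_283 r11_289 (nat_lit 0) (nat_lit 0) (nat_lit 15054897) (nat_lit 0x20601fea90) (nat_lit 2061039845),
  Rx.mk (nat_lit 326) (nat_lit 6) (nat_lit 0) (nat_lit 5) (nat_lit 5) (nat_lit 278) (nat_lit 292) r12_278 r11_292 (nat_lit 0) (nat_lit 11262264) (nat_lit 0) (nat_lit 0x1ff0a3676e) (nat_lit 2176243462),
  Rx.mk (nat_lit 342) (nat_lit 6) (nat_lit 2) (nat_lit 5) (nat_lit 7) (nat_lit 281) (nat_lit 294) r12_281 r11_294 (nat_lit 0) (nat_lit 0) (nat_lit 0) (nat_lit 0x2017771d54) (nat_lit 2123310648),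
  Rx.mk (nat_lit 346) (nat_lit 2) (nat_lit 3) (nat_lit 5) (nat_lit 7) (nat_lit 286) (nat_lit 291) r12_286 r11_291 (nat_lit 0) (nat_lit 0) (nat_lit 0) (nat_lit 0x23aa5a6c68) (nat_lit 1151525148),
  Rx.mk (nat_lit 350) (nat_lit 6) (nat_lit 3) (nat_lit 5) (nat_lit 7) (nat_lit 284) (nat_lit 293) r12_284 r11_293 (nat_lit 0) (nat_lit 0) (nat_lit 0) (nat_lit 0x1ff3c36084) (nat_lit 2161675148),
  Rx.mk (nat_lit 410) (nat_lit 2) (nat_lit 3) (nat_lit 6) (nat_lit 7) (nat_lit 287) (nat_lit 297) r12_287 r11_297 (nat_lit 0) (nat_lit 0) (nat_lit 0) (nat_lit 0x1fe909ed0c) (nat_lit 2172901848),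
  Rx.mk (nat_lit 454) (nat_lit 6) (nat_lit 0) (nat_lit 7) (nat_lit 5) (nat_lit 279) (nat_lit 295) r12_279 r11_295 (nat_lit 0) (nat_lit 16738825) (nat_lit 0) (nat_lit 0x2040c2e954) (nat_lit 2096069273),
  Rx.mk (nat_lit 470) (nat_lit 6) (nat_lit 2) (nat_lit 7) (nat_lit 7) (nat_lit 282) (nat_lit 296) r12_282 r11_296 (nat_lit 0) (nat_lit 0) (nat_lit 0) (nat_lit 0x20465bbdb4) (nat_lit 2073385048)]
noncomputable def e36_35 : List Rx := [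
  Rx.mk (nat_lit 23) (nat_lit 7) (nat_lit 2) (nat_lit 0) (nat_lit 3) (nat_lit 292) (nat_lit 264) r12_292 r6_264 (nat_lit 0) (nat_lit 0) (nat_lit 10802) (nat_lit 0x1e67e50c44) (nat_lit 2592099450),
  Rx.mk (nat_lit 55) (nat_lit 7) (nat_lit 6) (nat_lit 0) (nat_lit 3) (nat_lit 290) (nat_lit 273) r12_290 r6_273 (nat_lit 0) (nat_lit 0) (nat_lit 5176) (nat_lit 0x1fbb985822) (nat_lit 2222012674),
  Rx.mk (nat_lit 163) (nat_lit 3) (nat_lit 4) (nat_lit 2) (nat_lit 5) (nat_lit 297) (nat_lit 268) r12_297 r6_268 (nat_lit 0) (nat_lit 5176) (nat_lit 0) (nat_lit 0x1fbb985822) (nat_lit 2222012674),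
  Rx.mk (nat_lit 179) (nat_lit 3) (nat_lit 6) (nat_lit 2) (nat_lit 7) (nat_lit 298) (nat_lit 274) r12_298 r6_274 (nat_lit 0) (nat_lit 0) (nat_lit 0) (nat_lit 0x1ffd36a48c) (nat_lit 2150521948),
  Rx.mk (nat_lit 183) (nat_lit 7) (nat_lit 6) (nat_lit 2) (nat_lit 7) (nat_lit 291) (nat_lit 275) r12_291 r6_275 (nat_lit 0) (nat_lit 0) (nat_lit 0) (nat_lit 0x1ffd36a48c) (nat_lit 2150521948),
  Rx.mk (nat_lit 212) (nat_lit 4) (nat_lit 2) (nat_lit 3) (nat_lit 6) (nat_lit 288) (nat_lit 265) r12_288 r6_265 (nat_lit 219329) (nat_lit 0) (nat_lit 0) (nat_lit 0x1eecf3e8f6) (nat_lit 2447412027),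
  Rx.mk (nat_lit 214) (nat_lit 6) (nat_lit 2) (nat_lit 3) (nat_lit 7) (nat_lit 289) (nat_lit 267) r12_289 r6_267 (nat_lit 0) (nat_lit 0) (nat_lit 0) (nat_lit 0x2034cf6c76) (nat_lit 2091697098),
  Rx.mk (nat_lit 215) (nat_lit 7) (nat_lit 2) (nat_lit 3) (nat_lit 7) (nat_lit 293) (nat_lit 266) r12_293 r6_266 (nat_lit 0) (nat_lit 0) (nat_lit 0) (nat_lit 0x2078180a74) (nat_lit 2020246648),
  Rx.mk (nat_lit 419) (nat_lit 3) (nat_lit 4) (nat_lit 6) (nat_lit 5) (nat_lit 296) (nat_lit 269) r12_296 r6_269 (nat_lit 0) (nat_lit 10802) (nat_lit 0) (nat_lit 0x1e67e50c44) (nat_lit 2592099450),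
  Rx.mk (nat_lit 440) (nat_lit 0) (nat_lit 7) (nat_lit 6) (nat_lit 6) (nat_lit 294) (nat_lit 270) r12_294 r6_270 (nat_lit 219329) (nat_lit 0) (nat_lit 0) (nat_lit 0x1eecf3e8f6) (nat_lit 2447412027),
  Rx.mk (nat_lit 442) (nat_lit 2) (nat_lit 7) (nat_lit 6) (nat_lit 7) (nat_lit 295) (nat_lit 272) r12_295 r6_272 (nat_lit 0) (nat_lit 0) (nat_lit 0) (nat_lit 0x2034cf6c76) (nat_lit 2091697098),
  Rx.mk (nat_lit 443) (nat_lit 3) (nat_lit 7) (nat_lit 6) (nat_lit 7) (nat_lit 299) (nat_lit 271) r12_299 r6_271 (nat_lit 0) (nat_lit 0) (nat_lit 0) (nat_lit 0x2078180a74) (nat_lit 2020246648)]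
noncomputable def e36_36 : List Rx := [
  Rx.mk (nat_lit 55) (nat_lit 7) (nat_lit 6) (nat_lit 0) (nat_lit 3) (nat_lit 305) (nat_lit 311) r12_305 r12_311 (nat_lit 0) (nat_lit 0) (nat_lit 1921) (nat_lit 0x2000089dbe) (nat_lit 2147450719),
  Rx.mk (nat_lit 163) (nat_lit 3) (nat_lit 4) (nat_lit 2) (nat_lit 5) (nat_lit 314) (nat_lit 301) r12_314 r12_301 (nat_lit 0) (nat_lit 1921) (nat_lit 0) (nat_lit 0x2000089dbe) (nat_lit 2147450719),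
  Rx.mk (nat_lit 179) (nat_lit 3) (nat_lit 6) (nat_lit 2) (nat_lit 7) (nat_lit 315) (nat_lit 304) r12_315 r12_304 (nat_lit 0) (nat_lit 0) (nat_lit 0) (nat_lit 0x1fff57f2ac) (nat_lit 2148200448),
  Rx.mk (nat_lit 183) (nat_lit 7) (nat_lit 6) (nat_lit 2) (nat_lit 7) (nat_lit 306) (nat_lit 313) r12_306 r12_313 (nat_lit 0) (nat_lit 0) (nat_lit 0) (nat_lit 0x1fff57f2ac) (nat_lit 2148200448),
  Rx.mk (nat_lit 187) (nat_lit 3) (nat_lit 7) (nat_lit 2) (nat_lit 7) (nat_lit 317) (nat_lit 302) r12_317 r12_302 (nat_lit 0) (nat_lit 0) (nat_lit 0) (nat_lit 0x1fff57f2ac) (nat_lit 2148200448),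
  Rx.mk (nat_lit 212) (nat_lit 4) (nat_lit 2) (nat_lit 3) (nat_lit 6) (nat_lit 300) (nat_lit 309) r12_300 r12_309 (nat_lit 1921) (nat_lit 0) (nat_lit 0) (nat_lit 0x2000089dbe) (nat_lit 2147450719),
  Rx.mk (nat_lit 214) (nat_lit 6) (nat_lit 2) (nat_lit 3) (nat_lit 7) (nat_lit 303) (nat_lit 316) r12_303 r12_316 (nat_lit 0) (nat_lit 0) (nat_lit 0) (nat_lit 0x1fff57f2ac) (nat_lit 2148200448),
  Rx.mk (nat_lit 215) (nat_lit 7) (nat_lit 2) (nat_lit 3) (nat_lit 7) (nat_lit 308) (nat_lit 310) r12_308 r12_310 (nat_lit 0) (nat_lit 0) (nat_lit 0) (nat_lit 0x1fff57f2ac) (nat_lit 2148200448),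
  Rx.mk (nat_lit 247) (nat_lit 7) (nat_lit 6) (nat_lit 3) (nat_lit 7) (nat_lit 307) (nat_lit 312) r12_307 r12_312 (nat_lit 0) (nat_lit 0) (nat_lit 0) (nat_lit 0x1fff57f2ac) (nat_lit 2148200448),
  Rx.mk (nat_lit 282) (nat_lit 2) (nat_lit 3) (nat_lit 4) (nat_lit 3) (nat_lit 311) (nat_lit 305) r12_311 r12_305 (nat_lit 0) (nat_lit 0) (nat_lit 1921) (nat_lit 0x2000089dbe) (nat_lit 2147450719),
  Rx.mk (nat_lit 410) (nat_lit 2) (nat_lit 3) (nat_lit 6) (nat_lit 7) (nat_lit 312) (nat_lit 307) r12_312 r12_307 (nat_lit 0) (nat_lit 0) (nat_lit 0) (nat_lit 0x1fff57f2ac) (nat_lit 2148200448),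
  Rx.mk (nat_lit 440) (nat_lit 0) (nat_lit 7) (nat_lit 6) (nat_lit 6) (nat_lit 309) (nat_lit 300) r12_309 r12_300 (nat_lit 1921) (nat_lit 0) (nat_lit 0) (nat_lit 0x2000089dbe) (nat_lit 2147450719),
  Rx.mk (nat_lit 442) (nat_lit 2) (nat_lit 7) (nat_lit 6) (nat_lit 7) (nat_lit 310) (nat_lit 308) r12_310 r12_308 (nat_lit 0) (nat_lit 0) (nat_lit 0) (nat_lit 0x1fff57f2ac) (nat_lit 2148200448),
  Rx.mk (nat_lit 443) (nat_lit 3) (nat_lit 7) (nat_lit 6) (nat_lit 7) (nat_lit 316) (nat_lit 303) r12_316 r12_303 (nat_lit 0) (nat_lit 0) (nat_lit 0) (nat_lit 0x1fff57f2ac) (nat_lit 2148200448),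
  Rx.mk (nat_lit 454) (nat_lit 6) (nat_lit 0) (nat_lit 7) (nat_lit 5) (nat_lit 301) (nat_lit 314) r12_301 r12_314 (nat_lit 0) (nat_lit 1921) (nat_lit 0) (nat_lit 0x2000089dbe) (nat_lit 2147450719),
  Rx.mk (nat_lit 470) (nat_lit 6) (nat_lit 2) (nat_lit 7) (nat_lit 7) (nat_lit 302) (nat_lit 317) r12_302 r12_317 (nat_lit 0) (nat_lit 0) (nat_lit 0) (nat_lit 0x1fff57f2ac) (nat_lit 2148200448),
  Rx.mk (nat_lit 474) (nat_lit 2) (nat_lit 3) (nat_lit 7) (nat_lit 7) (nat_lit 313) (nat_lit 306) r12_313 r12_306 (nat_lit 0) (nat_lit 0) (nat_lit 0) (nat_lit 0x1fff57f2ac) (nat_lit 2148200448),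
  Rx.mk (nat_lit 478) (nat_lit 6) (nat_lit 3) (nat_lit 7) (nat_lit 7) (nat_lit 304) (nat_lit 315) r12_304 r12_315 (nat_lit 0) (nat_lit 0) (nat_lit 0) (nat_lit 0x1fff57f2ac) (nat_lit 2148200448)]
noncomputable def e36_37 : List Rx := [
  Rx.mk (nat_lit 160) (nat_lit 0) (nat_lit 4) (nat_lit 2) (nat_lit 4) (nat_lit 319) (nat_lit 238) r12_319 r0_238 (nat_lit 14688) (nat_lit 13255) (nat_lit 0) (nat_lit 0x1b267bc64c) (nat_lit 3500060191),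
  Rx.mk (nat_lit 168) (nat_lit 0) (nat_lit 5) (nat_lit 2) (nat_lit 6) (nat_lit 321) (nat_lit 239) r12_321 r0_239 (nat_lit 6379702) (nat_lit 0) (nat_lit 0) (nat_lit 0x1f0055a0a6) (nat_lit 2432499700),
  Rx.mk (nat_lit 176) (nat_lit 0) (nat_lit 6) (nat_lit 2) (nat_lit 6) (nat_lit 322) (nat_lit 240) r12_322 r0_240 (nat_lit 124409) (nat_lit 0) (nat_lit 0) (nat_lit 0x1c8a243e1c) (nat_lit 3112716857),
  Rx.mk (nat_lit 416) (nat_lit 0) (nat_lit 4) (nat_lit 6) (nat_lit 4) (nat_lit 318) (nat_lit 236) r12_318 r0_236 (nat_lit 3594) (nat_lit 2766) (nat_lit 0) (nat_lit 0x1c40c28d00) (nat_lit 3192515208),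
  Rx.mk (nat_lit 418) (nat_lit 2) (nat_lit 4) (nat_lit 6) (nat_lit 5) (nat_lit 323) (nat_lit 241) r12_323 r0_241 (nat_lit 0) (nat_lit 7905363) (nat_lit 0) (nat_lit 0x1fe4879cc0) (nat_lit 2185986011),
  Rx.mk (nat_lit 424) (nat_lit 0) (nat_lit 5) (nat_lit 6) (nat_lit 6) (nat_lit 320) (nat_lit 237) r12_320 r0_237 (nat_lit 16716) (nat_lit 0) (nat_lit 0) (nat_lit 0x22aa0eb896) (nat_lit 1423260614),
  Rx.mk (nat_lit 426) (nat_lit 2) (nat_lit 5) (nat_lit 6) (nat_lit 7) (nat_lit 324) (nat_lit 242) r12_324 r0_242 (nat_lit 0) (nat_lit 0) (nat_lit 0) (nat_lit 0x22a34e539a) (nat_lit 1430860798)]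
noncomputable def e36_38 : List Rx := [
  Rx.mk (nat_lit 160) (nat_lit 0) (nat_lit 4) (nat_lit 2) (nat_lit 4) (nat_lit 326) (nat_lit 236) r12_326 r0_236 (nat_lit 2766) (nat_lit 3594) (nat_lit 0) (nat_lit 0x1c40c28d00) (nat_lit 3192515208),
  Rx.mk (nat_lit 161) (nat_lit 1) (nat_lit 4) (nat_lit 2) (nat_lit 5) (nat_lit 329) (nat_lit 237) r12_329 r0_237 (nat_lit 0) (nat_lit 16716) (nat_lit 0) (nat_lit 0x22aa0eb896) (nat_lit 1423260614),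
  Rx.mk (nat_lit 176) (nat_lit 0) (nat_lit 6) (nat_lit 2) (nat_lit 6) (nat_lit 327) (nat_lit 241) r12_327 r0_241 (nat_lit 7905363) (nat_lit 0) (nat_lit 0) (nat_lit 0x1fe4879cc0) (nat_lit 2185986011),
  Rx.mk (nat_lit 177) (nat_lit 1) (nat_lit 6) (nat_lit 2) (nat_lit 7) (nat_lit 330) (nat_lit 242) r12_330 r0_242 (nat_lit 0) (nat_lit 0) (nat_lit 0) (nat_lit 0x22a34e539a) (nat_lit 1430860798),
  Rx.mk (nat_lit 416) (nat_lit 0) (nat_lit 4) (nat_lit 6) (nat_lit 4) (nat_lit 325) (nat_lit 238) r12_325 r0_238 (nat_lit 13255) (nat_lit 14688) (nat_lit 0) (nat_lit 0x1b267bc64c) (nat_lit 3500060191),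
  Rx.mk (nat_lit 417) (nat_lit 1) (nat_lit 4) (nat_lit 6) (nat_lit 5) (nat_lit 328) (nat_lit 239) r12_328 r0_239 (nat_lit 0) (nat_lit 6379702) (nat_lit 0) (nat_lit 0x1f0055a0a6) (nat_lit 2432499700),
  Rx.mk (nat_lit 418) (nat_lit 2) (nat_lit 4) (nat_lit 6) (nat_lit 5) (nat_lit 331) (nat_lit 240) r12_331 r0_240 (nat_lit 0) (nat_lit 124409) (nat_lit 0) (nat_lit 0x1c8a243e1c) (nat_lit 3112716857)]
noncomputable def e36_39 : List Rx := [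
  Rx.mk (nat_lit 160) (nat_lit 0) (nat_lit 4) (nat_lit 2) (nat_lit 4) (nat_lit 333) (nat_lit 305) r12_333 r7_305 (nat_lit 185901) (nat_lit 172292) (nat_lit 0) (nat_lit 0x198be36bf4) (nat_lit 3947748541),
  Rx.mk (nat_lit 161) (nat_lit 1) (nat_lit 4) (nat_lit 2) (nat_lit 5) (nat_lit 338) (nat_lit 310) r12_338 r7_310 (nat_lit 0) (nat_lit 17057350) (nat_lit 0) (nat_lit 0x1ee2d51b42) (nat_lit 2475695548),
  Rx.mk (nat_lit 168) (nat_lit 0) (nat_lit 5) (nat_lit 2) (nat_lit 6) (nat_lit 335) (nat_lit 306) r12_335 r7_306 (nat_lit 9553025) (nat_lit 0) (nat_lit 0) (nat_lit 0x205b9e46b0) (nat_lit 2060271073),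
  Rx.mk (nat_lit 169) (nat_lit 1) (nat_lit 5) (nat_lit 2) (nat_lit 7) (nat_lit 340) (nat_lit 311) r12_340 r7_311 (nat_lit 0) (nat_lit 0) (nat_lit 0) (nat_lit 0x22594f17fc) (nat_lit 1509483948),
  Rx.mk (nat_lit 176) (nat_lit 0) (nat_lit 6) (nat_lit 2) (nat_lit 6) (nat_lit 336) (nat_lit 307) r12_336 r7_307 (nat_lit 2028317) (nat_lit 0) (nat_lit 0) (nat_lit 0x1ea0ece05c) (nat_lit 2532284665),
  Rx.mk (nat_lit 177) (nat_lit 1) (nat_lit 6) (nat_lit 2) (nat_lit 7) (nat_lit 341) (nat_lit 312) r12_341 r7_312 (nat_lit 0) (nat_lit 0) (nat_lit 0) (nat_lit 0x204c1f7a38) (nat_lit 2067262648),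
  Rx.mk (nat_lit 416) (nat_lit 0) (nat_lit 4) (nat_lit 6) (nat_lit 4) (nat_lit 332) (nat_lit 303) r12_332 r7_303 (nat_lit 172292) (nat_lit 185901) (nat_lit 0) (nat_lit 0x198be36bf4) (nat_lit 3947748541),
  Rx.mk (nat_lit 417) (nat_lit 1) (nat_lit 4) (nat_lit 6) (nat_lit 5) (nat_lit 337) (nat_lit 308) r12_337 r7_308 (nat_lit 0) (nat_lit 9553025) (nat_lit 0) (nat_lit 0x205b9e46b0) (nat_lit 2060271073),
  Rx.mk (nat_lit 418) (nat_lit 2) (nat_lit 4) (nat_lit 6) (nat_lit 5) (nat_lit 342) (nat_lit 313) r12_342 r7_313 (nat_lit 0) (nat_lit 2028317) (nat_lit 0) (nat_lit 0x1ea0ece05c) (nat_lit 2532284665),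
  Rx.mk (nat_lit 424) (nat_lit 0) (nat_lit 5) (nat_lit 6) (nat_lit 6) (nat_lit 334) (nat_lit 304) r12_334 r7_304 (nat_lit 17057350) (nat_lit 0) (nat_lit 0) (nat_lit 0x1ee2d51b42) (nat_lit 2475695548),
  Rx.mk (nat_lit 425) (nat_lit 1) (nat_lit 5) (nat_lit 6) (nat_lit 7) (nat_lit 339) (nat_lit 309) r12_339 r7_309 (nat_lit 0) (nat_lit 0) (nat_lit 0) (nat_lit 0x22594f17fc) (nat_lit 1509483948),
  Rx.mk (nat_lit 426) (nat_lit 2) (nat_lit 5) (nat_lit 6) (nat_lit 7) (nat_lit 343) (nat_lit 314) r12_343 r7_314 (nat_lit 0) (nat_lit 0) (nat_lit 0) (nat_lit 0x204c1f7a38) (nat_lit 2067262648)]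
noncomputable def e36_40 : List Rx := [
  Rx.mk (nat_lit 53) (nat_lit 5) (nat_lit 6) (nat_lit 0) (nat_lit 3) (nat_lit 344) (nat_lit 273) r12_344 r2_273 (nat_lit 0) (nat_lit 0) (nat_lit 3377022) (nat_lit 0x1cb6815b98) (nat_lit 3067959970),
  Rx.mk (nat_lit 161) (nat_lit 1) (nat_lit 4) (nat_lit 2) (nat_lit 5) (nat_lit 346) (nat_lit 272) r12_346 r2_272 (nat_lit 0) (nat_lit 3377022) (nat_lit 0) (nat_lit 0x1cb6815b98) (nat_lit 3067959970),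
  Rx.mk (nat_lit 177) (nat_lit 1) (nat_lit 6) (nat_lit 2) (nat_lit 7) (nat_lit 347) (nat_lit 274) r12_347 r2_274 (nat_lit 0) (nat_lit 0) (nat_lit 0) (nat_lit 0x2000efab8c) (nat_lit 2147483648),
  Rx.mk (nat_lit 181) (nat_lit 5) (nat_lit 6) (nat_lit 2) (nat_lit 7) (nat_lit 345) (nat_lit 275) r12_345 r2_275 (nat_lit 0) (nat_lit 0) (nat_lit 0) (nat_lit 0x2000efab8c) (nat_lit 2147483648)]
noncomputable def e36_41 : List Rx := [
  Rx.mk (nat_lit 161) (nat_lit 1) (nat_lit 4) (nat_lit 2) (nat_lit 5) (nat_lit 349) (nat_lit 244) r12_349 r9_244 (nat_lit 0) (nat_lit 45119070) (nat_lit 0) (nat_lit 0x1fd92c27ce) (nat_lit 2235600468),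
  Rx.mk (nat_lit 169) (nat_lit 1) (nat_lit 5) (nat_lit 2) (nat_lit 7) (nat_lit 350) (nat_lit 245) r12_350 r9_245 (nat_lit 0) (nat_lit 0) (nat_lit 0) (nat_lit 0x2000efab8c) (nat_lit 2147483648),
  Rx.mk (nat_lit 177) (nat_lit 1) (nat_lit 6) (nat_lit 2) (nat_lit 7) (nat_lit 351) (nat_lit 246) r12_351 r9_246 (nat_lit 0) (nat_lit 0) (nat_lit 0) (nat_lit 0x2000efab8c) (nat_lit 2147483648),
  Rx.mk (nat_lit 181) (nat_lit 5) (nat_lit 6) (nat_lit 2) (nat_lit 7) (nat_lit 348) (nat_lit 247) r12_348 r9_247 (nat_lit 0) (nat_lit 0) (nat_lit 0) (nat_lit 0x2000efab8c) (nat_lit 2147483648)]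
noncomputable def e36_42 : List Rx := [
  Rx.mk (nat_lit 53) (nat_lit 5) (nat_lit 6) (nat_lit 0) (nat_lit 3) (nat_lit 352) (nat_lit 244) r12_352 r9_244 (nat_lit 0) (nat_lit 0) (nat_lit 45119070) (nat_lit 0x1fd92c27ce) (nat_lit 2235600468),
  Rx.mk (nat_lit 117) (nat_lit 5) (nat_lit 6) (nat_lit 1) (nat_lit 7) (nat_lit 353) (nat_lit 245) r12_353 r9_245 (nat_lit 0) (nat_lit 0) (nat_lit 0) (nat_lit 0x2000efab8c) (nat_lit 2147483648),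
  Rx.mk (nat_lit 177) (nat_lit 1) (nat_lit 6) (nat_lit 2) (nat_lit 7) (nat_lit 355) (nat_lit 247) r12_355 r9_247 (nat_lit 0) (nat_lit 0) (nat_lit 0) (nat_lit 0x2000efab8c) (nat_lit 2147483648),
  Rx.mk (nat_lit 181) (nat_lit 5) (nat_lit 6) (nat_lit 2) (nat_lit 7) (nat_lit 354) (nat_lit 246) r12_354 r9_246 (nat_lit 0) (nat_lit 0) (nat_lit 0) (nat_lit 0x2000efab8c) (nat_lit 2147483648)]
noncomputable def e36_43 : List Rx := [
  Rx.mk (nat_lit 161) (nat_lit 1) (nat_lit 4) (nat_lit 2) (nat_lit 5) (nat_lit 357) (nat_lit 249) r12_357 r1_249 (nat_lit 0) (nat_lit 32060) (nat_lit 0) (nat_lit 0x246ff2def6) (nat_lit 941316158),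
  Rx.mk (nat_lit 177) (nat_lit 1) (nat_lit 6) (nat_lit 2) (nat_lit 7) (nat_lit 358) (nat_lit 251) r12_358 r1_251 (nat_lit 0) (nat_lit 0) (nat_lit 0) (nat_lit 0x23be0c1bee) (nat_lit 1130624198),
  Rx.mk (nat_lit 417) (nat_lit 1) (nat_lit 4) (nat_lit 6) (nat_lit 5) (nat_lit 356) (nat_lit 250) r12_356 r1_250 (nat_lit 0) (nat_lit 45745925) (nat_lit 0) (nat_lit 0x2156b2c472) (nat_lit 1829796823)]
noncomputable def e36_44 : List Rx := [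
  Rx.mk (nat_lit 161) (nat_lit 1) (nat_lit 4) (nat_lit 2) (nat_lit 5) (nat_lit 360) (nat_lit 227) r12_360 r8_227 (nat_lit 0) (nat_lit 9739573) (nat_lit 0) (nat_lit 0x203fec4d7c) (nat_lit 2089940321),
  Rx.mk (nat_lit 169) (nat_lit 1) (nat_lit 5) (nat_lit 2) (nat_lit 7) (nat_lit 362) (nat_lit 228) r12_362 r8_228 (nat_lit 0) (nat_lit 0) (nat_lit 0) (nat_lit 0x202911d41e) (nat_lit 2104549198),
  Rx.mk (nat_lit 177) (nat_lit 1) (nat_lit 6) (nat_lit 2) (nat_lit 7) (nat_lit 363) (nat_lit 229) r12_363 r8_229 (nat_lit 0) (nat_lit 0) (nat_lit 0) (nat_lit 0x203b20a61c) (nat_lit 2085320748),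
  Rx.mk (nat_lit 417) (nat_lit 1) (nat_lit 4) (nat_lit 6) (nat_lit 5) (nat_lit 359) (nat_lit 225) r12_359 r8_225 (nat_lit 0) (nat_lit 23920748) (nat_lit 0) (nat_lit 0x2018d41a30) (nat_lit 2145804396),
  Rx.mk (nat_lit 425) (nat_lit 1) (nat_lit 5) (nat_lit 6) (nat_lit 7) (nat_lit 361) (nat_lit 226) r12_361 r8_226 (nat_lit 0) (nat_lit 0) (nat_lit 0) (nat_lit 0x2000efab8c) (nat_lit 2147483648)]
noncomputable def e36_45 : List Rx := [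
  Rx.mk (nat_lit 168) (nat_lit 0) (nat_lit 5) (nat_lit 2) (nat_lit 6) (nat_lit 365) (nat_lit 250) r12_365 r1_250 (nat_lit 45745925) (nat_lit 0) (nat_lit 0) (nat_lit 0x2156b2c472) (nat_lit 1829796823),
  Rx.mk (nat_lit 424) (nat_lit 0) (nat_lit 5) (nat_lit 6) (nat_lit 6) (nat_lit 364) (nat_lit 249) r12_364 r1_249 (nat_lit 32060) (nat_lit 0) (nat_lit 0) (nat_lit 0x246ff2def6) (nat_lit 941316158),
  Rx.mk (nat_lit 426) (nat_lit 2) (nat_lit 5) (nat_lit 6) (nat_lit 7) (nat_lit 366) (nat_lit 251) r12_366 r1_251 (nat_lit 0) (nat_lit 0) (nat_lit 0) (nat_lit 0x23be0c1bee) (nat_lit 1130624198)]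
noncomputable def e36_46 : List Rx := [
  Rx.mk (nat_lit 266) (nat_lit 2) (nat_lit 1) (nat_lit 4) (nat_lit 3) (nat_lit 369) (nat_lit 273) r12_369 r2_273 (nat_lit 0) (nat_lit 0) (nat_lit 3377022) (nat_lit 0x1cb6815b98) (nat_lit 3067959970),
  Rx.mk (nat_lit 394) (nat_lit 2) (nat_lit 1) (nat_lit 6) (nat_lit 7) (nat_lit 370) (nat_lit 275) r12_370 r2_275 (nat_lit 0) (nat_lit 0) (nat_lit 0) (nat_lit 0x2000efab8c) (nat_lit 2147483648),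
  Rx.mk (nat_lit 424) (nat_lit 0) (nat_lit 5) (nat_lit 6) (nat_lit 6) (nat_lit 367) (nat_lit 272) r12_367 r2_272 (nat_lit 3377022) (nat_lit 0) (nat_lit 0) (nat_lit 0x1cb6815b98) (nat_lit 3067959970),
  Rx.mk (nat_lit 426) (nat_lit 2) (nat_lit 5) (nat_lit 6) (nat_lit 7) (nat_lit 368) (nat_lit 274) r12_368 r2_274 (nat_lit 0) (nat_lit 0) (nat_lit 0) (nat_lit 0x2000efab8c) (nat_lit 2147483648)]
noncomputable def e36_47 : List Rx := [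
  Rx.mk (nat_lit 168) (nat_lit 0) (nat_lit 5) (nat_lit 2) (nat_lit 6) (nat_lit 372) (nat_lit 225) r12_372 r8_225 (nat_lit 23920748) (nat_lit 0) (nat_lit 0) (nat_lit 0x2018d41a30) (nat_lit 2145804396),
  Rx.mk (nat_lit 169) (nat_lit 1) (nat_lit 5) (nat_lit 2) (nat_lit 7) (nat_lit 374) (nat_lit 226) r12_374 r8_226 (nat_lit 0) (nat_lit 0) (nat_lit 0) (nat_lit 0x2000efab8c) (nat_lit 2147483648),
  Rx.mk (nat_lit 424) (nat_lit 0) (nat_lit 5) (nat_lit 6) (nat_lit 6) (nat_lit 371) (nat_lit 227) r12_371 r8_227 (nat_lit 9739573) (nat_lit 0) (nat_lit 0) (nat_lit 0x203fec4d7c) (nat_lit 2089940321),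
  Rx.mk (nat_lit 425) (nat_lit 1) (nat_lit 5) (nat_lit 6) (nat_lit 7) (nat_lit 373) (nat_lit 228) r12_373 r8_228 (nat_lit 0) (nat_lit 0) (nat_lit 0) (nat_lit 0x202911d41e) (nat_lit 2104549198),
  Rx.mk (nat_lit 426) (nat_lit 2) (nat_lit 5) (nat_lit 6) (nat_lit 7) (nat_lit 375) (nat_lit 229) r12_375 r8_229 (nat_lit 0) (nat_lit 0) (nat_lit 0) (nat_lit 0x203b20a61c) (nat_lit 2085320748)]
noncomputable def e36_48 : List Rx := [
  Rx.mk (nat_lit 394) (nat_lit 2) (nat_lit 1) (nat_lit 6) (nat_lit 7) (nat_lit 379) (nat_lit 247) r12_379 r9_247 (nat_lit 0) (nat_lit 0) (nat_lit 0) (nat_lit 0x2000efab8c) (nat_lit 2147483648),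
  Rx.mk (nat_lit 424) (nat_lit 0) (nat_lit 5) (nat_lit 6) (nat_lit 6) (nat_lit 376) (nat_lit 244) r12_376 r9_244 (nat_lit 45119070) (nat_lit 0) (nat_lit 0) (nat_lit 0x1fd92c27ce) (nat_lit 2235600468),
  Rx.mk (nat_lit 425) (nat_lit 1) (nat_lit 5) (nat_lit 6) (nat_lit 7) (nat_lit 377) (nat_lit 245) r12_377 r9_245 (nat_lit 0) (nat_lit 0) (nat_lit 0) (nat_lit 0x2000efab8c) (nat_lit 2147483648),
  Rx.mk (nat_lit 426) (nat_lit 2) (nat_lit 5) (nat_lit 6) (nat_lit 7) (nat_lit 378) (nat_lit 246) r12_378 r9_246 (nat_lit 0) (nat_lit 0) (nat_lit 0) (nat_lit 0x2000efab8c) (nat_lit 2147483648)]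
noncomputable def e36_49 : List Rx := [
  Rx.mk (nat_lit 266) (nat_lit 2) (nat_lit 1) (nat_lit 4) (nat_lit 3) (nat_lit 381) (nat_lit 244) r12_381 r9_244 (nat_lit 0) (nat_lit 0) (nat_lit 45119070) (nat_lit 0x1fd92c27ce) (nat_lit 2235600468),
  Rx.mk (nat_lit 330) (nat_lit 2) (nat_lit 1) (nat_lit 5) (nat_lit 7) (nat_lit 382) (nat_lit 245) r12_382 r9_245 (nat_lit 0) (nat_lit 0) (nat_lit 0) (nat_lit 0x2000efab8c) (nat_lit 2147483648),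
  Rx.mk (nat_lit 394) (nat_lit 2) (nat_lit 1) (nat_lit 6) (nat_lit 7) (nat_lit 383) (nat_lit 246) r12_383 r9_246 (nat_lit 0) (nat_lit 0) (nat_lit 0) (nat_lit 0x2000efab8c) (nat_lit 2147483648),
  Rx.mk (nat_lit 426) (nat_lit 2) (nat_lit 5) (nat_lit 6) (nat_lit 7) (nat_lit 380) (nat_lit 247) r12_380 r9_247 (nat_lit 0) (nat_lit 0) (nat_lit 0) (nat_lit 0x2000efab8c) (nat_lit 2147483648)]
noncomputable def e36_50 : List Rx := [
  Rx.mk (nat_lit 160) (nat_lit 0) (nat_lit 4) (nat_lit 2) (nat_lit 4) (nat_lit 385) (nat_lit 237) r12_385 r3_237 (nat_lit 290) (nat_lit 205) (nat_lit 0) (nat_lit 0x1ffffed3ba) (nat_lit 2147489193),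
  Rx.mk (nat_lit 163) (nat_lit 3) (nat_lit 4) (nat_lit 2) (nat_lit 5) (nat_lit 390) (nat_lit 239) r12_390 r3_239 (nat_lit 0) (nat_lit 3341) (nat_lit 0) (nat_lit 0x20003b2ad6) (nat_lit 2147242839),
  Rx.mk (nat_lit 176) (nat_lit 0) (nat_lit 6) (nat_lit 2) (nat_lit 6) (nat_lit 386) (nat_lit 238) r12_386 r3_238 (nat_lit 7207) (nat_lit 0) (nat_lit 0) (nat_lit 0x1ec9af2518) (nat_lit 2485559855),
  Rx.mk (nat_lit 179) (nat_lit 3) (nat_lit 6) (nat_lit 2) (nat_lit 7) (nat_lit 391) (nat_lit 240) r12_391 r3_240 (nat_lit 0) (nat_lit 0) (nat_lit 0) (nat_lit 0x1ffbb8a7f4) (nat_lit 2152589448),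
  Rx.mk (nat_lit 416) (nat_lit 0) (nat_lit 4) (nat_lit 6) (nat_lit 4) (nat_lit 384) (nat_lit 235) r12_384 r3_235 (nat_lit 205) (nat_lit 290) (nat_lit 0) (nat_lit 0x1ffffed3ba) (nat_lit 2147489193),
  Rx.mk (nat_lit 418) (nat_lit 2) (nat_lit 4) (nat_lit 6) (nat_lit 5) (nat_lit 388) (nat_lit 241) r12_388 r3_241 (nat_lit 0) (nat_lit 7207) (nat_lit 0) (nat_lit 0x1ec9af2518) (nat_lit 2485559855),
  Rx.mk (nat_lit 440) (nat_lit 0) (nat_lit 7) (nat_lit 6) (nat_lit 6) (nat_lit 387) (nat_lit 236) r12_387 r3_236 (nat_lit 3341) (nat_lit 0) (nat_lit 0) (nat_lit 0x20003b2ad6) (nat_lit 2147242839),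
  Rx.mk (nat_lit 442) (nat_lit 2) (nat_lit 7) (nat_lit 6) (nat_lit 7) (nat_lit 389) (nat_lit 242) r12_389 r3_242 (nat_lit 0) (nat_lit 0) (nat_lit 0) (nat_lit 0x1ffbb8a7f4) (nat_lit 2152589448)]
noncomputable def e36_51 : List Rx := [
  Rx.mk (nat_lit 160) (nat_lit 0) (nat_lit 4) (nat_lit 2) (nat_lit 4) (nat_lit 393) (nat_lit 244) r12_393 r4_244 (nat_lit 28722) (nat_lit 9859) (nat_lit 0) (nat_lit 0x198c7c56fc) (nat_lit 3946733429),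
  Rx.mk (nat_lit 163) (nat_lit 3) (nat_lit 4) (nat_lit 2) (nat_lit 5) (nat_lit 401) (nat_lit 247) r12_401 r4_247 (nat_lit 0) (nat_lit 1770) (nat_lit 0) (nat_lit 0x17c290559c) (nat_lit 4445568318),
  Rx.mk (nat_lit 168) (nat_lit 0) (nat_lit 5) (nat_lit 2) (nat_lit 6) (nat_lit 395) (nat_lit 245) r12_395 r4_245 (nat_lit 21146279) (nat_lit 0) (nat_lit 0) (nat_lit 0x1f0549b732) (nat_lit 2442248577),
  Rx.mk (nat_lit 171) (nat_lit 3) (nat_lit 5) (nat_lit 2) (nat_lit 7) (nat_lit 402) (nat_lit 248) r12_402 r4_248 (nat_lit 0) (nat_lit 0) (nat_lit 0) (nat_lit 0x1fb03df1b2) (nat_lit 2234633498),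
  Rx.mk (nat_lit 176) (nat_lit 0) (nat_lit 6) (nat_lit 2) (nat_lit 6) (nat_lit 396) (nat_lit 246) r12_396 r4_246 (nat_lit 29509241) (nat_lit 0) (nat_lit 0) (nat_lit 0x1ccaafb8a8) (nat_lit 3072224889),
  Rx.mk (nat_lit 179) (nat_lit 3) (nat_lit 6) (nat_lit 2) (nat_lit 7) (nat_lit 403) (nat_lit 249) r12_403 r4_249 (nat_lit 0) (nat_lit 0) (nat_lit 0) (nat_lit 0x1bfba7ffa2) (nat_lit 3268098598),
  Rx.mk (nat_lit 416) (nat_lit 0) (nat_lit 4) (nat_lit 6) (nat_lit 4) (nat_lit 392) (nat_lit 241) r12_392 r4_241 (nat_lit 1272) (nat_lit 855) (nat_lit 0) (nat_lit 0x1d97a1ac0e) (nat_lit 2818976125),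
  Rx.mk (nat_lit 418) (nat_lit 2) (nat_lit 4) (nat_lit 6) (nat_lit 5) (nat_lit 398) (nat_lit 250) r12_398 r4_250 (nat_lit 0) (nat_lit 3308125) (nat_lit 0) (nat_lit 0x20fc14fe0e) (nat_lit 1883489423),
  Rx.mk (nat_lit 424) (nat_lit 0) (nat_lit 5) (nat_lit 6) (nat_lit 6) (nat_lit 394) (nat_lit 242) r12_394 r4_242 (nat_lit 12177089) (nat_lit 0) (nat_lit 0) (nat_lit 0x1fb27a9ab6) (nat_lit 2244661087),
  Rx.mk (nat_lit 426) (nat_lit 2) (nat_lit 5) (nat_lit 6) (nat_lit 7) (nat_lit 399) (nat_lit 251) r12_399 r4_251 (nat_lit 0) (nat_lit 0) (nat_lit 0) (nat_lit 0x202452f822) (nat_lit 2109582098),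
  Rx.mk (nat_lit 440) (nat_lit 0) (nat_lit 7) (nat_lit 6) (nat_lit 6) (nat_lit 397) (nat_lit 243) r12_397 r4_243 (nat_lit 16759512) (nat_lit 0) (nat_lit 0) (nat_lit 0x2047463858) (nat_lit 2089173460),
  Rx.mk (nat_lit 442) (nat_lit 2) (nat_lit 7) (nat_lit 6) (nat_lit 7) (nat_lit 400) (nat_lit 252) r12_400 r4_252 (nat_lit 0) (nat_lit 0) (nat_lit 0) (nat_lit 0x2023d8595a) (nat_lit 2110118398)]
noncomputable def e36_52 : List Rx := [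
  Rx.mk (nat_lit 160) (nat_lit 0) (nat_lit 4) (nat_lit 2) (nat_lit 4) (nat_lit 404) (nat_lit 246) r12_404 r5_246 (nat_lit 6986) (nat_lit 3531) (nat_lit 0) (nat_lit 0x1fffd33ac0) (nat_lit 2147686165),
  Rx.mk (nat_lit 163) (nat_lit 3) (nat_lit 4) (nat_lit 2) (nat_lit 5) (nat_lit 409) (nat_lit 249) r12_409 r5_249 (nat_lit 0) (nat_lit 1145676) (nat_lit 0) (nat_lit 0x218e32d266) (nat_lit 1726042174),
  Rx.mk (nat_lit 176) (nat_lit 0) (nat_lit 6) (nat_lit 2) (nat_lit 6) (nat_lit 405) (nat_lit 248) r12_405 r5_248 (nat_lit 11931785) (nat_lit 0) (nat_lit 0) (nat_lit 0x1e8af7c94c) (nat_lit 2566283833),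
  Rx.mk (nat_lit 179) (nat_lit 3) (nat_lit 6) (nat_lit 2) (nat_lit 7) (nat_lit 410) (nat_lit 250) r12_410 r5_250 (nat_lit 0) (nat_lit 0) (nat_lit 0) (nat_lit 0x231643e586) (nat_lit 1308792898),
  Rx.mk (nat_lit 184) (nat_lit 0) (nat_lit 7) (nat_lit 2) (nat_lit 6) (nat_lit 407) (nat_lit 247) r12_407 r5_247 (nat_lit 4473231) (nat_lit 0) (nat_lit 0) (nat_lit 0x2234ad6e1c) (nat_lit 1552752779),
  Rx.mk (nat_lit 440) (nat_lit 0) (nat_lit 7) (nat_lit 6) (nat_lit 6) (nat_lit 406) (nat_lit 245) r12_406 r5_245 (nat_lit 48544) (nat_lit 0) (nat_lit 0) (nat_lit 0x2191f1b606) (nat_lit 1720739542),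
  Rx.mk (nat_lit 442) (nat_lit 2) (nat_lit 7) (nat_lit 6) (nat_lit 7) (nat_lit 408) (nat_lit 251) r12_408 r5_251 (nat_lit 0) (nat_lit 0) (nat_lit 0) (nat_lit 0x1e973f11c4) (nat_lit 2540503148)]
noncomputable def e36_53 : List Rx := [
  Rx.mk (nat_lit 160) (nat_lit 0) (nat_lit 4) (nat_lit 2) (nat_lit 4) (nat_lit 412) (nat_lit 241) r12_412 r4_241 (nat_lit 855) (nat_lit 1272) (nat_lit 0) (nat_lit 0x1d97a1ac0e) (nat_lit 2818976125),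
  Rx.mk (nat_lit 161) (nat_lit 1) (nat_lit 4) (nat_lit 2) (nat_lit 5) (nat_lit 416) (nat_lit 242) r12_416 r4_242 (nat_lit 0) (nat_lit 12177089) (nat_lit 0) (nat_lit 0x1fb27a9ab6) (nat_lit 2244661087),
  Rx.mk (nat_lit 163) (nat_lit 3) (nat_lit 4) (nat_lit 2) (nat_lit 5) (nat_lit 421) (nat_lit 243) r12_421 r4_243 (nat_lit 0) (nat_lit 16759512) (nat_lit 0) (nat_lit 0x2047463858) (nat_lit 2089173460),
  Rx.mk (nat_lit 176) (nat_lit 0) (nat_lit 6) (nat_lit 2) (nat_lit 6) (nat_lit 413) (nat_lit 250) r12_413 r4_250 (nat_lit 3308125) (nat_lit 0) (nat_lit 0) (nat_lit 0x20fc14fe0e) (nat_lit 1883489423),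
  Rx.mk (nat_lit 177) (nat_lit 1) (nat_lit 6) (nat_lit 2) (nat_lit 7) (nat_lit 417) (nat_lit 251) r12_417 r4_251 (nat_lit 0) (nat_lit 0) (nat_lit 0) (nat_lit 0x202452f822) (nat_lit 2109582098),
  Rx.mk (nat_lit 179) (nat_lit 3) (nat_lit 6) (nat_lit 2) (nat_lit 7) (nat_lit 422) (nat_lit 252) r12_422 r4_252 (nat_lit 0) (nat_lit 0) (nat_lit 0) (nat_lit 0x2023d8595a) (nat_lit 2110118398),
  Rx.mk (nat_lit 416) (nat_lit 0) (nat_lit 4) (nat_lit 6) (nat_lit 4) (nat_lit 411) (nat_lit 244) r12_411 r4_244 (nat_lit 9859) (nat_lit 28722) (nat_lit 0) (nat_lit 0x198c7c56fc) (nat_lit 3946733429),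
  Rx.mk (nat_lit 417) (nat_lit 1) (nat_lit 4) (nat_lit 6) (nat_lit 5) (nat_lit 415) (nat_lit 245) r12_415 r4_245 (nat_lit 0) (nat_lit 21146279) (nat_lit 0) (nat_lit 0x1f0549b732) (nat_lit 2442248577),
  Rx.mk (nat_lit 418) (nat_lit 2) (nat_lit 4) (nat_lit 6) (nat_lit 5) (nat_lit 419) (nat_lit 246) r12_419 r4_246 (nat_lit 0) (nat_lit 29509241) (nat_lit 0) (nat_lit 0x1ccaafb8a8) (nat_lit 3072224889),
  Rx.mk (nat_lit 440) (nat_lit 0) (nat_lit 7) (nat_lit 6) (nat_lit 6) (nat_lit 414) (nat_lit 247) r12_414 r4_247 (nat_lit 1770) (nat_lit 0) (nat_lit 0) (nat_lit 0x17c290559c) (nat_lit 4445568318),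
  Rx.mk (nat_lit 441) (nat_lit 1) (nat_lit 7) (nat_lit 6) (nat_lit 7) (nat_lit 418) (nat_lit 248) r12_418 r4_248 (nat_lit 0) (nat_lit 0) (nat_lit 0) (nat_lit 0x1fb03df1b2) (nat_lit 2234633498),
  Rx.mk (nat_lit 442) (nat_lit 2) (nat_lit 7) (nat_lit 6) (nat_lit 7) (nat_lit 420) (nat_lit 249) r12_420 r4_249 (nat_lit 0) (nat_lit 0) (nat_lit 0) (nat_lit 0x1bfba7ffa2) (nat_lit 3268098598)]
noncomputable def e36_54 : List Rx := [
  Rx.mk (nat_lit 160) (nat_lit 0) (nat_lit 4) (nat_lit 2) (nat_lit 4) (nat_lit 424) (nat_lit 260) r12_424 r10_260 (nat_lit 1296586) (nat_lit 1464990) (nat_lit 0) (nat_lit 0x1d70d23076) (nat_lit 2864251174),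
  Rx.mk (nat_lit 161) (nat_lit 1) (nat_lit 4) (nat_lit 2) (nat_lit 5) (nat_lit 430) (nat_lit 265) r12_430 r10_265 (nat_lit 0) (nat_lit 11296937) (nat_lit 0) (nat_lit 0x208f406070) (nat_lit 2007236985),
  Rx.mk (nat_lit 163) (nat_lit 3) (nat_lit 4) (nat_lit 2) (nat_lit 5) (nat_lit 436) (nat_lit 267) r12_436 r10_267 (nat_lit 0) (nat_lit 10460316) (nat_lit 0) (nat_lit 0x2080f5804a) (nat_lit 2021586414),
  Rx.mk (nat_lit 168) (nat_lit 0) (nat_lit 5) (nat_lit 2) (nat_lit 6) (nat_lit 426) (nat_lit 261) r12_426 r10_261 (nat_lit 13463419) (nat_lit 0) (nat_lit 0) (nat_lit 0x20b7b8c60a) (nat_lit 1966390417),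
  Rx.mk (nat_lit 171) (nat_lit 3) (nat_lit 5) (nat_lit 2) (nat_lit 7) (nat_lit 437) (nat_lit 268) r12_437 r10_268 (nat_lit 0) (nat_lit 0) (nat_lit 0) (nat_lit 0x2020ac6cf8) (nat_lit 2113514948),
  Rx.mk (nat_lit 176) (nat_lit 0) (nat_lit 6) (nat_lit 2) (nat_lit 6) (nat_lit 427) (nat_lit 262) r12_427 r10_262 (nat_lit 6540563) (nat_lit 0) (nat_lit 0) (nat_lit 0x1fc295e04a) (nat_lit 2221458261),
  Rx.mk (nat_lit 177) (nat_lit 1) (nat_lit 6) (nat_lit 2) (nat_lit 7) (nat_lit 431) (nat_lit 266) r12_431 r10_266 (nat_lit 0) (nat_lit 0) (nat_lit 0) (nat_lit 0x2129478ea0) (nat_lit 1832335148),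
  Rx.mk (nat_lit 179) (nat_lit 3) (nat_lit 6) (nat_lit 2) (nat_lit 7) (nat_lit 438) (nat_lit 269) r12_438 r10_269 (nat_lit 0) (nat_lit 0) (nat_lit 0) (nat_lit 0x2129478ea0) (nat_lit 1832335148),
  Rx.mk (nat_lit 416) (nat_lit 0) (nat_lit 4) (nat_lit 6) (nat_lit 4) (nat_lit 423) (nat_lit 257) r12_423 r10_257 (nat_lit 1464990) (nat_lit 1296586) (nat_lit 0) (nat_lit 0x1d70d23076) (nat_lit 2864251174),
  Rx.mk (nat_lit 417) (nat_lit 1) (nat_lit 4) (nat_lit 6) (nat_lit 5) (nat_lit 429) (nat_lit 263) r12_429 r10_263 (nat_lit 0) (nat_lit 13463419) (nat_lit 0) (nat_lit 0x20b7b8c60a) (nat_lit 1966390417),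
  Rx.mk (nat_lit 418) (nat_lit 2) (nat_lit 4) (nat_lit 6) (nat_lit 5) (nat_lit 433) (nat_lit 270) r12_433 r10_270 (nat_lit 0) (nat_lit 6540563) (nat_lit 0) (nat_lit 0x1fc295e04a) (nat_lit 2221458261),
  Rx.mk (nat_lit 424) (nat_lit 0) (nat_lit 5) (nat_lit 6) (nat_lit 6) (nat_lit 425) (nat_lit 258) r12_425 r10_258 (nat_lit 11296937) (nat_lit 0) (nat_lit 0) (nat_lit 0x208f406070) (nat_lit 2007236985),
  Rx.mk (nat_lit 426) (nat_lit 2) (nat_lit 5) (nat_lit 6) (nat_lit 7) (nat_lit 434) (nat_lit 271) r12_434 r10_271 (nat_lit 0) (nat_lit 0) (nat_lit 0) (nat_lit 0x2129478ea0) (nat_lit 1832335148),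
  Rx.mk (nat_lit 440) (nat_lit 0) (nat_lit 7) (nat_lit 6) (nat_lit 6) (nat_lit 428) (nat_lit 259) r12_428 r10_259 (nat_lit 10460316) (nat_lit 0) (nat_lit 0) (nat_lit 0x2080f5804a) (nat_lit 2021586414),
  Rx.mk (nat_lit 441) (nat_lit 1) (nat_lit 7) (nat_lit 6) (nat_lit 7) (nat_lit 432) (nat_lit 264) r12_432 r10_264 (nat_lit 0) (nat_lit 0) (nat_lit 0) (nat_lit 0x2020ac6cf8) (nat_lit 2113514948),
  Rx.mk (nat_lit 442) (nat_lit 2) (nat_lit 7) (nat_lit 6) (nat_lit 7) (nat_lit 435) (nat_lit 272) r12_435 r10_272 (nat_lit 0) (nat_lit 0) (nat_lit 0) (nat_lit 0x2129478ea0) (nat_lit 1832335148)]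
noncomputable def e36_55 : List Rx := [
  Rx.mk (nat_lit 160) (nat_lit 0) (nat_lit 4) (nat_lit 2) (nat_lit 4) (nat_lit 439) (nat_lit 288) r12_439 r11_288 (nat_lit 1769042) (nat_lit 2923838) (nat_lit 0) (nat_lit 0x1e5ff9e7d4) (nat_lit 2605723528),
  Rx.mk (nat_lit 161) (nat_lit 1) (nat_lit 4) (nat_lit 2) (nat_lit 5) (nat_lit 443) (nat_lit 292) r12_443 r11_292 (nat_lit 0) (nat_lit 11262264) (nat_lit 0) (nat_lit 0x1ff0a3676e) (nat_lit 2176243462),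
  Rx.mk (nat_lit 163) (nat_lit 3) (nat_lit 4) (nat_lit 2) (nat_lit 5) (nat_lit 448) (nat_lit 295) r12_448 r11_295 (nat_lit 0) (nat_lit 16738825) (nat_lit 0) (nat_lit 0x2040c2e954) (nat_lit 2096069273),
  Rx.mk (nat_lit 176) (nat_lit 0) (nat_lit 6) (nat_lit 2) (nat_lit 6) (nat_lit 440) (nat_lit 290) r12_440 r11_290 (nat_lit 7227201) (nat_lit 0) (nat_lit 0) (nat_lit 0x20cdb858b2) (nat_lit 1936857399),
  Rx.mk (nat_lit 177) (nat_lit 1) (nat_lit 6) (nat_lit 2) (nat_lit 7) (nat_lit 444) (nat_lit 294) r12_444 r11_294 (nat_lit 0) (nat_lit 0) (nat_lit 0) (nat_lit 0x2017771d54) (nat_lit 2123310648),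
  Rx.mk (nat_lit 179) (nat_lit 3) (nat_lit 6) (nat_lit 2) (nat_lit 7) (nat_lit 449) (nat_lit 296) r12_449 r11_296 (nat_lit 0) (nat_lit 0) (nat_lit 0) (nat_lit 0x20465bbdb4) (nat_lit 2073385048),
  Rx.mk (nat_lit 184) (nat_lit 0) (nat_lit 7) (nat_lit 2) (nat_lit 6) (nat_lit 442) (nat_lit 289) r12_442 r11_289 (nat_lit 15054897) (nat_lit 0) (nat_lit 0) (nat_lit 0x20601fea90) (nat_lit 2061039845),
  Rx.mk (nat_lit 185) (nat_lit 1) (nat_lit 7) (nat_lit 2) (nat_lit 7) (nat_lit 446) (nat_lit 293) r12_446 r11_293 (nat_lit 0) (nat_lit 0) (nat_lit 0) (nat_lit 0x1ff3c36084) (nat_lit 2161675148),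
  Rx.mk (nat_lit 440) (nat_lit 0) (nat_lit 7) (nat_lit 6) (nat_lit 6) (nat_lit 441) (nat_lit 287) r12_441 r11_287 (nat_lit 2048619) (nat_lit 0) (nat_lit 0) (nat_lit 0x20e465f024) (nat_lit 1907326767),
  Rx.mk (nat_lit 441) (nat_lit 1) (nat_lit 7) (nat_lit 6) (nat_lit 7) (nat_lit 445) (nat_lit 291) r12_445 r11_291 (nat_lit 0) (nat_lit 0) (nat_lit 0) (nat_lit 0x23aa5a6c68) (nat_lit 1151525148),
  Rx.mk (nat_lit 442) (nat_lit 2) (nat_lit 7) (nat_lit 6) (nat_lit 7) (nat_lit 447) (nat_lit 297) r12_447 r11_297 (nat_lit 0) (nat_lit 0) (nat_lit 0) (nat_lit 0x1fe909ed0c) (nat_lit 2172901848)]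
noncomputable def e36_56 : List Rx := [
  Rx.mk (nat_lit 163) (nat_lit 3) (nat_lit 4) (nat_lit 2) (nat_lit 5) (nat_lit 455) (nat_lit 245) r12_455 r5_245 (nat_lit 0) (nat_lit 48544) (nat_lit 0) (nat_lit 0x2191f1b606) (nat_lit 1720739542),
  Rx.mk (nat_lit 179) (nat_lit 3) (nat_lit 6) (nat_lit 2) (nat_lit 7) (nat_lit 456) (nat_lit 251) r12_456 r5_251 (nat_lit 0) (nat_lit 0) (nat_lit 0) (nat_lit 0x1e973f11c4) (nat_lit 2540503148),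
  Rx.mk (nat_lit 416) (nat_lit 0) (nat_lit 4) (nat_lit 6) (nat_lit 4) (nat_lit 450) (nat_lit 246) r12_450 r5_246 (nat_lit 3531) (nat_lit 6986) (nat_lit 0) (nat_lit 0x1fffd33ac0) (nat_lit 2147686165),
  Rx.mk (nat_lit 418) (nat_lit 2) (nat_lit 4) (nat_lit 6) (nat_lit 5) (nat_lit 452) (nat_lit 248) r12_452 r5_248 (nat_lit 0) (nat_lit 11931785) (nat_lit 0) (nat_lit 0x1e8af7c94c) (nat_lit 2566283833),
  Rx.mk (nat_lit 419) (nat_lit 3) (nat_lit 4) (nat_lit 6) (nat_lit 5) (nat_lit 454) (nat_lit 247) r12_454 r5_247 (nat_lit 0) (nat_lit 4473231) (nat_lit 0) (nat_lit 0x2234ad6e1c) (nat_lit 1552752779),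
  Rx.mk (nat_lit 440) (nat_lit 0) (nat_lit 7) (nat_lit 6) (nat_lit 6) (nat_lit 451) (nat_lit 249) r12_451 r5_249 (nat_lit 1145676) (nat_lit 0) (nat_lit 0) (nat_lit 0x218e32d266) (nat_lit 1726042174),
  Rx.mk (nat_lit 442) (nat_lit 2) (nat_lit 7) (nat_lit 6) (nat_lit 7) (nat_lit 453) (nat_lit 250) r12_453 r5_250 (nat_lit 0) (nat_lit 0) (nat_lit 0) (nat_lit 0x231643e586) (nat_lit 1308792898)]
noncomputable def e36_57 : List Rx := [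
  Rx.mk (nat_lit 163) (nat_lit 3) (nat_lit 4) (nat_lit 2) (nat_lit 5) (nat_lit 464) (nat_lit 287) r12_464 r11_287 (nat_lit 0) (nat_lit 2048619) (nat_lit 0) (nat_lit 0x20e465f024) (nat_lit 1907326767),
  Rx.mk (nat_lit 171) (nat_lit 3) (nat_lit 5) (nat_lit 2) (nat_lit 7) (nat_lit 466) (nat_lit 291) r12_466 r11_291 (nat_lit 0) (nat_lit 0) (nat_lit 0) (nat_lit 0x23aa5a6c68) (nat_lit 1151525148),
  Rx.mk (nat_lit 179) (nat_lit 3) (nat_lit 6) (nat_lit 2) (nat_lit 7) (nat_lit 467) (nat_lit 297) r12_467 r11_297 (nat_lit 0) (nat_lit 0) (nat_lit 0) (nat_lit 0x1fe909ed0c) (nat_lit 2172901848),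
  Rx.mk (nat_lit 416) (nat_lit 0) (nat_lit 4) (nat_lit 6) (nat_lit 4) (nat_lit 457) (nat_lit 288) r12_457 r11_288 (nat_lit 2923838) (nat_lit 1769042) (nat_lit 0) (nat_lit 0x1e5ff9e7d4) (nat_lit 2605723528),
  Rx.mk (nat_lit 418) (nat_lit 2) (nat_lit 4) (nat_lit 6) (nat_lit 5) (nat_lit 460) (nat_lit 290) r12_460 r11_290 (nat_lit 0) (nat_lit 7227201) (nat_lit 0) (nat_lit 0x20cdb858b2) (nat_lit 1936857399),
  Rx.mk (nat_lit 419) (nat_lit 3) (nat_lit 4) (nat_lit 6) (nat_lit 5) (nat_lit 463) (nat_lit 289) r12_463 r11_289 (nat_lit 0) (nat_lit 15054897) (nat_lit 0) (nat_lit 0x20601fea90) (nat_lit 2061039845),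
  Rx.mk (nat_lit 424) (nat_lit 0) (nat_lit 5) (nat_lit 6) (nat_lit 6) (nat_lit 458) (nat_lit 292) r12_458 r11_292 (nat_lit 11262264) (nat_lit 0) (nat_lit 0) (nat_lit 0x1ff0a3676e) (nat_lit 2176243462),
  Rx.mk (nat_lit 426) (nat_lit 2) (nat_lit 5) (nat_lit 6) (nat_lit 7) (nat_lit 461) (nat_lit 294) r12_461 r11_294 (nat_lit 0) (nat_lit 0) (nat_lit 0) (nat_lit 0x2017771d54) (nat_lit 2123310648),
  Rx.mk (nat_lit 427) (nat_lit 3) (nat_lit 5) (nat_lit 6) (nat_lit 7) (nat_lit 465) (nat_lit 293) r12_465 r11_293 (nat_lit 0) (nat_lit 0) (nat_lit 0) (nat_lit 0x1ff3c36084) (nat_lit 2161675148),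
  Rx.mk (nat_lit 440) (nat_lit 0) (nat_lit 7) (nat_lit 6) (nat_lit 6) (nat_lit 459) (nat_lit 295) r12_459 r11_295 (nat_lit 16738825) (nat_lit 0) (nat_lit 0) (nat_lit 0x2040c2e954) (nat_lit 2096069273),
  Rx.mk (nat_lit 442) (nat_lit 2) (nat_lit 7) (nat_lit 6) (nat_lit 7) (nat_lit 462) (nat_lit 296) r12_462 r11_296 (nat_lit 0) (nat_lit 0) (nat_lit 0) (nat_lit 0x20465bbdb4) (nat_lit 2073385048)]
noncomputable def e36 : List (List Rx) := [e36_0, e36_1, e36_2, e36_3, e36_4, e36_5, e36_6, e36_7, e36_8, e36_9, e36_10, e36_11, e36_12, e36_13, e36_14, e36_15, e36_16, e36_17, e36_18, e36_19, e36_20, e36_21, e36_22, e36_23, e36_24, e36_25, e36_26, e36_27, e36_28, e36_29, e36_30, e36_31, e36_32, e36_33, e36_34, e36_35, e36_36, e36_37, e36_38, e36_39, e36_40, e36_41, e36_42, e36_43, e36_44, e36_45, e36_46, e36_47, e36_48, e36_49, e36_50, e36_51, e36_52, e36_53, e36_54,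 e36_55, e36_56, e36_57]
noncomputable def e37_0 : List Rx := [
  Rx.mk (nat_lit 5) (nat_lit 5) (nat_lit 0) (nat_lit 0) (nat_lit 1) (nat_lit 244) (nat_lit 244) r0_244 r0_244 (nat_lit 0) (nat_lit 54781818) (nat_lit 54781818) (nat_lit 0x19d2a84fbe) (nat_lit 3980215634),
  Rx.mk (nat_lit 13) (nat_lit 5) (nat_lit 1) (nat_lit 0) (nat_lit 3) (nat_lit 245) (nat_lit 246) r0_245 r0_246 (nat_lit 0) (nat_lit 0) (nat_lit 15527228) (nat_lit 0x1d4ead624a) (nat_lit 2914472826),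
  Rx.mk (nat_lit 69) (nat_lit 5) (nat_lit 0) (nat_lit 1) (nat_lit 5) (nat_lit 246) (nat_lit 245) r0_246 r0_245 (nat_lit 0) (nat_lit 15527228) (nat_lit 0) (nat_lit 0x1d4ead624a) (nat_lit 2914472826),
  Rx.mk (nat_lit 76) (nat_lit 4) (nat_lit 1) (nat_lit 1) (nat_lit 6) (nat_lit 243) (nat_lit 243) r0_243 r0_243 (nat_lit 2106888265) (nat_lit 0) (nat_lit 0) (nat_lit 0x200af5d1d8) (nat_lit 4242734813),
  Rx.mk (nat_lit 77) (nat_lit 5) (nat_lit 1) (nat_lit 1) (nat_lit 7) (nat_lit 247) (nat_lit 247) r0_247 r0_247 (nat_lit 0) (nat_lit 0) (nat_lit 0) (nat_lit 0x1fd1f2a7da) (nat_lit 2198310498)]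
noncomputable def e37_1 : List Rx := [
  Rx.mk (nat_lit 69) (nat_lit 5) (nat_lit 0) (nat_lit 1) (nat_lit 5) (nat_lit 283) (nat_lit 253) r0_283 r1_253 (nat_lit 0) (nat_lit 45119817) (nat_lit 0) (nat_lit 0x1fb5c8be96) (nat_lit 2274073515),
  Rx.mk (nat_lit 76) (nat_lit 4) (nat_lit 1) (nat_lit 1) (nat_lit 6) (nat_lit 282) (nat_lit 252) r0_282 r1_252 (nat_lit 2390923576) (nat_lit 0) (nat_lit 0) (nat_lit 0x1fffff54de) (nat_lit 4538411474),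
  Rx.mk (nat_lit 77) (nat_lit 5) (nat_lit 1) (nat_lit 1) (nat_lit 7) (nat_lit 284) (nat_lit 254) r0_284 r1_254 (nat_lit 0) (nat_lit 0) (nat_lit 0) (nat_lit 0x1fece021a8) (nat_lit 2169107148)]
noncomputable def e37_2 : List Rx := [
  Rx.mk (nat_lit 76) (nat_lit 4) (nat_lit 1) (nat_lit 1) (nat_lit 6) (nat_lit 285) (nat_lit 276) r0_285 r2_276 (nat_lit 986109084) (nat_lit 0) (nat_lit 0) (nat_lit 0x1dea0cabe2) (nat_lit 3715784482),
  Rx.mk (nat_lit 77) (nat_lit 5) (nat_lit 1) (nat_lit 1) (nat_lit 7) (nat_lit 287) (nat_lit 278) r0_287 r2_278 (nat_lit 0) (nat_lit 0) (nat_lit 0) (nat_lit 0x2000efab8c) (nat_lit 2147483648),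
  Rx.mk (nat_lit 332) (nat_lit 4) (nat_lit 1) (nat_lit 5) (nat_lit 6) (nat_lit 286) (nat_lit 277) r0_286 r2_277 (nat_lit 584857788) (nat_lit 0) (nat_lit 0) (nat_lit 0x1f8286a8c2) (nat_lit 2869583386),
  Rx.mk (nat_lit 333) (nat_lit 5) (nat_lit 1) (nat_lit 5) (nat_lit 7) (nat_lit 288) (nat_lit 279) r0_288 r2_279 (nat_lit 0) (nat_lit 0) (nat_lit 0) (nat_lit 0x1fed00a78e) (nat_lit 2168993998)]
noncomputable def e37_3 : List Rx := [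
  Rx.mk (nat_lit 5) (nat_lit 5) (nat_lit 0) (nat_lit 0) (nat_lit 1) (nat_lit 302) (nat_lit 245) r0_302 r3_245 (nat_lit 0) (nat_lit 389) (nat_lit 874) (nat_lit 0x1f7e3b0d62) (nat_lit 2288859561),
  Rx.mk (nat_lit 12) (nat_lit 4) (nat_lit 1) (nat_lit 0) (nat_lit 2) (nat_lit 300) (nat_lit 243) r0_300 r3_243 (nat_lit 383) (nat_lit 0) (nat_lit 155) (nat_lit 0x200001900a) (nat_lit 2147477736),
  Rx.mk (nat_lit 13) (nat_lit 5) (nat_lit 1) (nat_lit 0) (nat_lit 3) (nat_lit 303) (nat_lit 247) r0_303 r3_247 (nat_lit 0) (nat_lit 0) (nat_lit 283645) (nat_lit 0x1f309166e2) (nat_lit 2373769543),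
  Rx.mk (nat_lit 197) (nat_lit 5) (nat_lit 0) (nat_lit 3) (nat_lit 5) (nat_lit 304) (nat_lit 246) r0_304 r3_246 (nat_lit 0) (nat_lit 3395765) (nat_lit 0) (nat_lit 0x1f0c6c1b18) (nat_lit 2416554513),
  Rx.mk (nat_lit 204) (nat_lit 4) (nat_lit 1) (nat_lit 3) (nat_lit 6) (nat_lit 301) (nat_lit 244) r0_301 r3_244 (nat_lit 34591) (nat_lit 0) (nat_lit 0) (nat_lit 0x1f7dd3835e) (nat_lit 2289337389),
  Rx.mk (nat_lit 205) (nat_lit 5) (nat_lit 1) (nat_lit 3) (nat_lit 7) (nat_lit 305) (nat_lit 248) r0_305 r3_248 (nat_lit 0) (nat_lit 0) (nat_lit 0) (nat_lit 0x201d869ecc) (nat_lit 2116710248)]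
noncomputable def e37_4 : List Rx := [
  Rx.mk (nat_lit 5) (nat_lit 5) (nat_lit 0) (nat_lit 0) (nat_lit 1) (nat_lit 309) (nat_lit 256) r0_309 r4_256 (nat_lit 0) (nat_lit 26838499) (nat_lit 294663616) (nat_lit 0x1cdabdf85e) (nat_lit 3346728613),
  Rx.mk (nat_lit 12) (nat_lit 4) (nat_lit 1) (nat_lit 0) (nat_lit 2) (nat_lit 306) (nat_lit 253) r0_306 r4_253 (nat_lit 291920685) (nat_lit 0) (nat_lit 15162375) (nat_lit 0x1e916535bc) (nat_lit 2854513508),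
  Rx.mk (nat_lit 13) (nat_lit 5) (nat_lit 1) (nat_lit 0) (nat_lit 3) (nat_lit 310) (nat_lit 259) r0_310 r4_259 (nat_lit 0) (nat_lit 0) (nat_lit 32637715) (nat_lit 0x1ffe6945e4) (nat_lit 2182809363),
  Rx.mk (nat_lit 69) (nat_lit 5) (nat_lit 0) (nat_lit 1) (nat_lit 5) (nat_lit 311) (nat_lit 257) r0_311 r4_257 (nat_lit 0) (nat_lit 43818815) (nat_lit 0) (nat_lit 0x1ffa9c45ce) (nat_lit 2198104813),
  Rx.mk (nat_lit 76) (nat_lit 4) (nat_lit 1) (nat_lit 1) (nat_lit 6) (nat_lit 307) (nat_lit 254) r0_307 r4_254 (nat_lit 1478697491) (nat_lit 0) (nat_lit 0) (nat_lit 0x1b916040aa) (nat_lit 4862457289),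
  Rx.mk (nat_lit 77) (nat_lit 5) (nat_lit 1) (nat_lit 1) (nat_lit 7) (nat_lit 312) (nat_lit 260) r0_312 r4_260 (nat_lit 0) (nat_lit 0) (nat_lit 0) (nat_lit 0x20125a86ee) (nat_lit 2128797898),
  Rx.mk (nat_lit 197) (nat_lit 5) (nat_lit 0) (nat_lit 3) (nat_lit 5) (nat_lit 313) (nat_lit 258) r0_313 r4_258 (nat_lit 0) (nat_lit 22623974) (nat_lit 0) (nat_lit 0x200cc3314a) (nat_lit 2157397672),
  Rx.mk (nat_lit 204) (nat_lit 4) (nat_lit 1) (nat_lit 3) (nat_lit 6) (nat_lit 308) (nat_lit 255) r0_308 r4_255 (nat_lit 39267561) (nat_lit 0) (nat_lit 0) (nat_lit 0x2021d713e4) (nat_lit 2151522509),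
  Rx.mk (nat_lit 205) (nat_lit 5) (nat_lit 1) (nat_lit 3) (nat_lit 7) (nat_lit 314) (nat_lit 261) r0_314 r4_261 (nat_lit 0) (nat_lit 0) (nat_lit 0) (nat_lit 0x2000efab8c) (nat_lit 2147483648)]
noncomputable def e37_5 : List Rx := [
  Rx.mk (nat_lit 197) (nat_lit 5) (nat_lit 0) (nat_lit 3) (nat_lit 5) (nat_lit 316) (nat_lit 253) r0_316 r5_253 (nat_lit 0) (nat_lit 10230116) (nat_lit 0) (nat_lit 0x1ffc891754) (nat_lit 2162378464),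
  Rx.mk (nat_lit 204) (nat_lit 4) (nat_lit 1) (nat_lit 3) (nat_lit 6) (nat_lit 315) (nat_lit 252) r0_315 r5_252 (nat_lit 14169320) (nat_lit 0) (nat_lit 0) (nat_lit 0x2011405b94) (nat_lit 2143991268),
  Rx.mk (nat_lit 205) (nat_lit 5) (nat_lit 1) (nat_lit 3) (nat_lit 7) (nat_lit 317) (nat_lit 254) r0_317 r5_254 (nat_lit 0) (nat_lit 0) (nat_lit 0) (nat_lit 0x21e14b5fd6) (nat_lit 1636891998)]
noncomputable def e37_6 : List Rx := [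
  Rx.mk (nat_lit 460) (nat_lit 4) (nat_lit 1) (nat_lit 7) (nat_lit 6) (nat_lit 71) (nat_lit 249) r0_71 r3_249 (nat_lit 320) (nat_lit 0) (nat_lit 0) (nat_lit 0x2000035fa2) (nat_lit 2147470018)]
noncomputable def e37_7 : List Rx := [
  Rx.mk (nat_lit 268) (nat_lit 4) (nat_lit 1) (nat_lit 4) (nat_lit 2) (nat_lit 171) (nat_lit 248) r0_171 r0_248 (nat_lit 2877740417) (nat_lit 0) (nat_lit 422) (nat_lit 0x2000025918) (nat_lit 5025214887),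
  Rx.mk (nat_lit 332) (nat_lit 4) (nat_lit 1) (nat_lit 5) (nat_lit 6) (nat_lit 172) (nat_lit 249) r0_172 r0_249 (nat_lit 1609807934) (nat_lit 0) (nat_lit 0) (nat_lit 0x1e784939b6) (nat_lit 4184525532)]
noncomputable def e37_8 : List Rx := [
  Rx.mk (nat_lit 332) (nat_lit 4) (nat_lit 1) (nat_lit 5) (nat_lit 6) (nat_lit 173) (nat_lit 255) r0_173 r1_255 (nat_lit 555792281) (nat_lit 0) (nat_lit 0) (nat_lit 0x1fe0102158) (nat_lit 2738758229)]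
noncomputable def e37_9 : List Rx := [
  Rx.mk (nat_lit 268) (nat_lit 4) (nat_lit 1) (nat_lit 4) (nat_lit 2) (nat_lit 174) (nat_lit 262) r0_174 r4_262 (nat_lit 1533124982) (nat_lit 0) (nat_lit 66964) (nat_lit 0x1e8debd5bc) (nat_lit 4083866094),
  Rx.mk (nat_lit 332) (nat_lit 4) (nat_lit 1) (nat_lit 5) (nat_lit 6) (nat_lit 175) (nat_lit 263) r0_175 r4_263 (nat_lit 154395515) (nat_lit 0) (nat_lit 0) (nat_lit 0x1fe15133e0) (nat_lit 2335967163),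
  Rx.mk (nat_lit 460) (nat_lit 4) (nat_lit 1) (nat_lit 7) (nat_lit 6) (nat_lit 176) (nat_lit 264) r0_176 r4_264 (nat_lit 1408666374) (nat_lit 0) (nat_lit 0) (nat_lit 0x18f64197e2) (nat_lit 5519067172)]
noncomputable def e37_10 : List Rx := [
  Rx.mk (nat_lit 204) (nat_lit 4) (nat_lit 1) (nat_lit 3) (nat_lit 6) (nat_lit 222) (nat_lit 276) r0_222 r6_276 (nat_lit 11036) (nat_lit 0) (nat_lit 0) (nat_lit 0x23825bcba8) (nat_lit 1193574884),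
  Rx.mk (nat_lit 460) (nat_lit 4) (nat_lit 1) (nat_lit 7) (nat_lit 6) (nat_lit 223) (nat_lit 277) r0_223 r6_277 (nat_lit 103259688) (nat_lit 0) (nat_lit 0) (nat_lit 0x1fe7bb2056) (nat_lit 2277788286)]
noncomputable def e37_11 : List Rx := [
  Rx.mk (nat_lit 460) (nat_lit 4) (nat_lit 1) (nat_lit 7) (nat_lit 6) (nat_lit 224) (nat_lit 255) r0_224 r5_255 (nat_lit 626395478) (nat_lit 0) (nat_lit 0) (nat_lit 0x2000005ef6) (nat_lit 2773878076)]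
noncomputable def e37_12 : List Rx := [
  Rx.mk (nat_lit 5) (nat_lit 5) (nat_lit 0) (nat_lit 0) (nat_lit 1) (nat_lit 248) (nat_lit 171) r0_248 r0_171 (nat_lit 0) (nat_lit 422) (nat_lit 2877740417) (nat_lit 0x2000025918) (nat_lit 5025214887),
  Rx.mk (nat_lit 13) (nat_lit 5) (nat_lit 1) (nat_lit 0) (nat_lit 3) (nat_lit 249) (nat_lit 172) r0_249 r0_172 (nat_lit 0) (nat_lit 0) (nat_lit 1609807934) (nat_lit 0x1e784939b6) (nat_lit 4184525532)]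
noncomputable def e37_13 : List Rx := [
  Rx.mk (nat_lit 5) (nat_lit 5) (nat_lit 0) (nat_lit 0) (nat_lit 1) (nat_lit 250) (nat_lit 315) r0_250 r7_315 (nat_lit 0) (nat_lit 25106789) (nat_lit 114738951) (nat_lit 0x198796769a) (nat_lit 4092190738),
  Rx.mk (nat_lit 13) (nat_lit 5) (nat_lit 1) (nat_lit 0) (nat_lit 3) (nat_lit 251) (nat_lit 317) r0_251 r7_317 (nat_lit 0) (nat_lit 0) (nat_lit 36924422) (nat_lit 0x1e44557ca0) (nat_lit 2668277270),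
  Rx.mk (nat_lit 69) (nat_lit 5) (nat_lit 0) (nat_lit 1) (nat_lit 5) (nat_lit 252) (nat_lit 316) r0_252 r7_316 (nat_lit 0) (nat_lit 22821440) (nat_lit 0) (nat_lit 0x1b76f69c00) (nat_lit 3435676488),
  Rx.mk (nat_lit 77) (nat_lit 5) (nat_lit 1) (nat_lit 1) (nat_lit 7) (nat_lit 253) (nat_lit 318) r0_253 r7_318 (nat_lit 0) (nat_lit 0) (nat_lit 0) (nat_lit 0x1fdc2e0604) (nat_lit 2187177448)]
noncomputable def e37_14 : List Rx := [
  Rx.mk (nat_lit 1) (nat_lit 1) (nat_lit 0) (nat_lit 0) (nat_lit 1) (nat_lit 265) (nat_lit 180) r0_265 r1_180 (nat_lit 0) (nat_lit 8815563) (nat_lit 346192734) (nat_lit 0x1c1c0af0ce) (nat_lit 3587956995),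
  Rx.mk (nat_lit 5) (nat_lit 5) (nat_lit 0) (nat_lit 0) (nat_lit 1) (nat_lit 269) (nat_lit 179) r0_269 r1_179 (nat_lit 0) (nat_lit 6436) (nat_lit 3361702353) (nat_lit 0x20a63c7822) (nat_lit 5332676687),
  Rx.mk (nat_lit 9) (nat_lit 1) (nat_lit 1) (nat_lit 0) (nat_lit 3) (nat_lit 266) (nat_lit 182) r0_266 r1_182 (nat_lit 0) (nat_lit 0) (nat_lit 95564869) (nat_lit 0x1fc56b59e4) (nat_lit 2307546017),
  Rx.mk (nat_lit 13) (nat_lit 5) (nat_lit 1) (nat_lit 0) (nat_lit 3) (nat_lit 270) (nat_lit 181) r0_270 r1_181 (nat_lit 0) (nat_lit 0) (nat_lit 102192820) (nat_lit 0x1fd74b6780) (nat_lit 2294693068),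
  Rx.mk (nat_lit 17) (nat_lit 1) (nat_lit 2) (nat_lit 0) (nat_lit 3) (nat_lit 267) (nat_lit 183) r0_267 r1_183 (nat_lit 0) (nat_lit 0) (nat_lit 1923198255) (nat_lit 0x22f6223c94) (nat_lit 3266126603),
  Rx.mk (nat_lit 145) (nat_lit 1) (nat_lit 2) (nat_lit 2) (nat_lit 7) (nat_lit 268) (nat_lit 184) r0_268 r1_184 (nat_lit 0) (nat_lit 0) (nat_lit 0) (nat_lit 0x1fdfcf6dde) (nat_lit 2183239798)]
noncomputable def e37_15 : List Rx := [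
  Rx.mk (nat_lit 1) (nat_lit 1) (nat_lit 0) (nat_lit 0) (nat_lit 1) (nat_lit 271) (nat_lit 230) r0_271 r8_230 (nat_lit 0) (nat_lit 86496675) (nat_lit 46283751) (nat_lit 0x1881893bee) (nat_lit 4370807724),
  Rx.mk (nat_lit 5) (nat_lit 5) (nat_lit 0) (nat_lit 0) (nat_lit 1) (nat_lit 278) (nat_lit 237) r0_278 r8_237 (nat_lit 0) (nat_lit 24388230) (nat_lit 163911417) (nat_lit 0x1ad23e2188) (nat_lit 3780583995),
  Rx.mk (nat_lit 9) (nat_lit 1) (nat_lit 1) (nat_lit 0) (nat_lit 3) (nat_lit 272) (nat_lit 232) r0_272 r8_232 (nat_lit 0) (nat_lit 0) (nat_lit 65181056) (nat_lit 0x1e983fb0ce) (nat_lit 2605122654),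
  Rx.mk (nat_lit 13) (nat_lit 5) (nat_lit 1) (nat_lit 0) (nat_lit 3) (nat_lit 279) (nat_lit 239) r0_279 r8_239 (nat_lit 0) (nat_lit 0) (nat_lit 47408999) (nat_lit 0x1fcb05a0b2) (nat_lit 2253277997),
  Rx.mk (nat_lit 17) (nat_lit 1) (nat_lit 2) (nat_lit 0) (nat_lit 3) (nat_lit 273) (nat_lit 234) r0_273 r8_234 (nat_lit 0) (nat_lit 0) (nat_lit 42976936) (nat_lit 0x1fef7da476) (nat_lit 2209272234),
  Rx.mk (nat_lit 65) (nat_lit 1) (nat_lit 0) (nat_lit 1) (nat_lit 5) (nat_lit 274) (nat_lit 231) r0_274 r8_231 (nat_lit 0) (nat_lit 62054356) (nat_lit 0) (nat_lit 0x1e2d15cb80) (nat_lit 2718743404),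
  Rx.mk (nat_lit 69) (nat_lit 5) (nat_lit 0) (nat_lit 1) (nat_lit 5) (nat_lit 280) (nat_lit 238) r0_280 r8_238 (nat_lit 0) (nat_lit 64581062) (nat_lit 0) (nat_lit 0x1e59996e96) (nat_lit 2672770760),
  Rx.mk (nat_lit 73) (nat_lit 1) (nat_lit 1) (nat_lit 1) (nat_lit 7) (nat_lit 275) (nat_lit 233) r0_275 r8_233 (nat_lit 0) (nat_lit 0) (nat_lit 0) (nat_lit 0x1fcf833b36) (nat_lit 2200979698),
  Rx.mk (nat_lit 77) (nat_lit 5) (nat_lit 1) (nat_lit 1) (nat_lit 7) (nat_lit 281) (nat_lit 240) r0_281 r8_240 (nat_lit 0) (nat_lit 0) (nat_lit 0) (nat_lit 0x200c5303fc) (nat_lit 2135258648),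
  Rx.mk (nat_lit 81) (nat_lit 1) (nat_lit 2) (nat_lit 1) (nat_lit 7) (nat_lit 276) (nat_lit 235) r0_276 r8_235 (nat_lit 0) (nat_lit 0) (nat_lit 0) (nat_lit 0x2000efab8c) (nat_lit 2147483648),
  Rx.mk (nat_lit 145) (nat_lit 1) (nat_lit 2) (nat_lit 2) (nat_lit 7) (nat_lit 277) (nat_lit 236) r0_277 r8_236 (nat_lit 0) (nat_lit 0) (nat_lit 0) (nat_lit 0x2000efab8c) (nat_lit 2147483648)]
noncomputable def e37_16 : List Rx := [
  Rx.mk (nat_lit 69) (nat_lit 5) (nat_lit 0) (nat_lit 1) (nat_lit 5) (nat_lit 289) (nat_lit 178) r0_289 r8_178 (nat_lit 0) (nat_lit 56859670) (nat_lit 0) (nat_lit 0x1ce3b5aac4) (nat_lit 3072366618),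
  Rx.mk (nat_lit 77) (nat_lit 5) (nat_lit 1) (nat_lit 1) (nat_lit 7) (nat_lit 290) (nat_lit 179) r0_290 r8_179 (nat_lit 0) (nat_lit 0) (nat_lit 0) (nat_lit 0x1fdef748c8) (nat_lit 2184202448)]
noncomputable def e37_17 : List Rx := [
  Rx.mk (nat_lit 77) (nat_lit 5) (nat_lit 1) (nat_lit 1) (nat_lit 7) (nat_lit 291) (nat_lit 248) r0_291 r9_248 (nat_lit 0) (nat_lit 0) (nat_lit 0) (nat_lit 0x2000efab8c) (nat_lit 2147483648),
  Rx.mk (nat_lit 333) (nat_lit 5) (nat_lit 1) (nat_lit 5) (nat_lit 7) (nat_lit 292) (nat_lit 249) r0_292 r9_249 (nat_lit 0) (nat_lit 0) (nat_lit 0) (nat_lit 0x2000efab8c) (nat_lit 2147483648)]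
noncomputable def e37_18 : List Rx := [
  Rx.mk (nat_lit 5) (nat_lit 5) (nat_lit 0) (nat_lit 0) (nat_lit 1) (nat_lit 318) (nat_lit 155) r0_318 r4_155 (nat_lit 0) (nat_lit 723582) (nat_lit 598549210) (nat_lit 0x19bbf5fb36) (nat_lit 4494381490),
  Rx.mk (nat_lit 13) (nat_lit 5) (nat_lit 1) (nat_lit 0) (nat_lit 3) (nat_lit 319) (nat_lit 156) r0_319 r4_156 (nat_lit 0) (nat_lit 0) (nat_lit 32921011) (nat_lit 0x1fd9c6b4f6) (nat_lit 2222694609),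
  Rx.mk (nat_lit 197) (nat_lit 5) (nat_lit 0) (nat_lit 3) (nat_lit 5) (nat_lit 320) (nat_lit 157) r0_320 r4_157 (nat_lit 0) (nat_lit 13615453) (nat_lit 0) (nat_lit 0x1e83e8aac2) (nat_lit 2575669251),
  Rx.mk (nat_lit 205) (nat_lit 5) (nat_lit 1) (nat_lit 3) (nat_lit 7) (nat_lit 321) (nat_lit 158) r0_321 r4_158 (nat_lit 0) (nat_lit 0) (nat_lit 0) (nat_lit 0x20213b2e84) (nat_lit 2112904448)]
noncomputable def e37_19 : List Rx := [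
  Rx.mk (nat_lit 5) (nat_lit 5) (nat_lit 0) (nat_lit 0) (nat_lit 1) (nat_lit 322) (nat_lit 273) r0_322 r10_273 (nat_lit 0) (nat_lit 16668154) (nat_lit 24139993) (nat_lit 0x1b131f8a52) (nat_lit 3562337045),
  Rx.mk (nat_lit 13) (nat_lit 5) (nat_lit 1) (nat_lit 0) (nat_lit 3) (nat_lit 323) (nat_lit 276) r0_323 r10_276 (nat_lit 0) (nat_lit 0) (nat_lit 39016835) (nat_lit 0x1f8fadf186) (nat_lit 2309434733),
  Rx.mk (nat_lit 69) (nat_lit 5) (nat_lit 0) (nat_lit 1) (nat_lit 5) (nat_lit 324) (nat_lit 274) r0_324 r10_274 (nat_lit 0) (nat_lit 51564713) (nat_lit 0) (nat_lit 0x1f10506252) (nat_lit 2460712311),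
  Rx.mk (nat_lit 77) (nat_lit 5) (nat_lit 1) (nat_lit 1) (nat_lit 7) (nat_lit 325) (nat_lit 277) r0_325 r10_277 (nat_lit 0) (nat_lit 0) (nat_lit 0) (nat_lit 0x200c3bcfac) (nat_lit 2135358348),
  Rx.mk (nat_lit 197) (nat_lit 5) (nat_lit 0) (nat_lit 3) (nat_lit 5) (nat_lit 326) (nat_lit 275) r0_326 r10_275 (nat_lit 0) (nat_lit 60597054) (nat_lit 0) (nat_lit 0x1fb52cdd1e) (nat_lit 2290221952),
  Rx.mk (nat_lit 205) (nat_lit 5) (nat_lit 1) (nat_lit 3) (nat_lit 7) (nat_lit 327) (nat_lit 278) r0_327 r10_278 (nat_lit 0) (nat_lit 0) (nat_lit 0) (nat_lit 0x2000efab8c) (nat_lit 2147483648)]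
noncomputable def e37_20 : List Rx := [
  Rx.mk (nat_lit 197) (nat_lit 5) (nat_lit 0) (nat_lit 3) (nat_lit 5) (nat_lit 328) (nat_lit 298) r0_328 r11_298 (nat_lit 0) (nat_lit 28472617) (nat_lit 0) (nat_lit 0x1ff05337ee) (nat_lit 2193848915),
  Rx.mk (nat_lit 205) (nat_lit 5) (nat_lit 1) (nat_lit 3) (nat_lit 7) (nat_lit 329) (nat_lit 299) r0_329 r11_299 (nat_lit 0) (nat_lit 0) (nat_lit 0) (nat_lit 0x200ae52c70) (nat_lit 2136789348)]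
noncomputable def e37_21 : List Rx := [
  Rx.mk (nat_lit 76) (nat_lit 4) (nat_lit 1) (nat_lit 1) (nat_lit 6) (nat_lit 293) (nat_lit 254) r0_293 r9_254 (nat_lit 56312438) (nat_lit 0) (nat_lit 0) (nat_lit 0x1eb380c710) (nat_lit 2566555586),
  Rx.mk (nat_lit 77) (nat_lit 5) (nat_lit 1) (nat_lit 1) (nat_lit 7) (nat_lit 296) (nat_lit 256) r0_296 r9_256 (nat_lit 0) (nat_lit 0) (nat_lit 0) (nat_lit 0x2000efab8c) (nat_lit 2147483648),
  Rx.mk (nat_lit 332) (nat_lit 4) (nat_lit 1) (nat_lit 5) (nat_lit 6) (nat_lit 294) (nat_lit 253) r0_294 r9_253 (nat_lit 72389406) (nat_lit 0) (nat_lit 0) (nat_lit 0x1fbef9dc0c) (nat_lit 2291344854),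
  Rx.mk (nat_lit 333) (nat_lit 5) (nat_lit 1) (nat_lit 5) (nat_lit 7) (nat_lit 297) (nat_lit 255) r0_297 r9_255 (nat_lit 0) (nat_lit 0) (nat_lit 0) (nat_lit 0x2000efab8c) (nat_lit 2147483648),
  Rx.mk (nat_lit 364) (nat_lit 4) (nat_lit 5) (nat_lit 5) (nat_lit 6) (nat_lit 295) (nat_lit 250) r0_295 r9_250 (nat_lit 39267561) (nat_lit 0) (nat_lit 0) (nat_lit 0x1ff330fa5a) (nat_lit 2201561359),
  Rx.mk (nat_lit 365) (nat_lit 5) (nat_lit 5) (nat_lit 5) (nat_lit 7) (nat_lit 298) (nat_lit 251) r0_298 r9_251 (nat_lit 0) (nat_lit 0) (nat_lit 0) (nat_lit 0x2000efab8c) (nat_lit 2147483648),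
  Rx.mk (nat_lit 366) (nat_lit 6) (nat_lit 5) (nat_lit 5) (nat_lit 7) (nat_lit 299) (nat_lit 252) r0_299 r9_252 (nat_lit 0) (nat_lit 0) (nat_lit 0) (nat_lit 0x2000efab8c) (nat_lit 2147483648)]
noncomputable def e37_22 : List Rx := [
  Rx.mk (nat_lit 302) (nat_lit 6) (nat_lit 5) (nat_lit 4) (nat_lit 3) (nat_lit 73) (nat_lit 72) r0_73 r0_72 (nat_lit 0) (nat_lit 0) (nat_lit 17795932) (nat_lit 0x1e7d2cb02a) (nat_lit 2587150230),
  Rx.mk (nat_lit 492) (nat_lit 4) (nat_lit 5) (nat_lit 7) (nat_lit 6) (nat_lit 72) (nat_lit 73) r0_72 r0_73 (nat_lit 17795932) (nat_lit 0) (nat_lit 0) (nat_lit 0x1e7d2cb02a) (nat_lit 2587150230),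
  Rx.mk (nat_lit 494) (nat_lit 6) (nat_lit 5) (nat_lit 7) (nat_lit 7) (nat_lit 74) (nat_lit 74) r0_74 r0_74 (nat_lit 0) (nat_lit 0) (nat_lit 0) (nat_lit 0x2016fdec86) (nat_lit 2123809098)]
noncomputable def e37_23 : List Rx := [
  Rx.mk (nat_lit 302) (nat_lit 6) (nat_lit 5) (nat_lit 4) (nat_lit 3) (nat_lit 76) (nat_lit 69) r0_76 r1_69 (nat_lit 0) (nat_lit 0) (nat_lit 26835322) (nat_lit 0x1fe96494b4) (nat_lit 2199705370),
  Rx.mk (nat_lit 430) (nat_lit 6) (nat_lit 5) (nat_lit 6) (nat_lit 7) (nat_lit 77) (nat_lit 72) r0_77 r1_72 (nat_lit 0) (nat_lit 0) (nat_lit 0) (nat_lit 0x1ff271916a) (nat_lit 2163096198),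
  Rx.mk (nat_lit 492) (nat_lit 4) (nat_lit 5) (nat_lit 7) (nat_lit 6) (nat_lit 75) (nat_lit 70) r0_75 r1_70 (nat_lit 11563267) (nat_lit 0) (nat_lit 0) (nat_lit 0x202620f76c) (nat_lit 2119181415),
  Rx.mk (nat_lit 494) (nat_lit 6) (nat_lit 5) (nat_lit 7) (nat_lit 7) (nat_lit 78) (nat_lit 71) r0_78 r1_71 (nat_lit 0) (nat_lit 0) (nat_lit 0) (nat_lit 0x21dc6a04a4) (nat_lit 1642099848)]
noncomputable def e37_24 : List Rx := [
  Rx.mk (nat_lit 460) (nat_lit 4) (nat_lit 1) (nat_lit 7) (nat_lit 6) (nat_lit 79) (nat_lit 68) r0_79 r4_68 (nat_lit 346379) (nat_lit 0) (nat_lit 0) (nat_lit 0x1785b5c58a) (nat_lit 4512244877),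
  Rx.mk (nat_lit 492) (nat_lit 4) (nat_lit 5) (nat_lit 7) (nat_lit 6) (nat_lit 80) (nat_lit 69) r0_80 r4_69 (nat_lit 11856797) (nat_lit 0) (nat_lit 0) (nat_lit 0x1f36ac2e54) (nat_lit 2379133345),
  Rx.mk (nat_lit 494) (nat_lit 6) (nat_lit 5) (nat_lit 7) (nat_lit 7) (nat_lit 81) (nat_lit 70) r0_81 r4_70 (nat_lit 0) (nat_lit 0) (nat_lit 0) (nat_lit 0x1de36764f8) (nat_lit 2736761248)]
noncomputable def e37_25 : List Rx := [
  Rx.mk (nat_lit 268) (nat_lit 4) (nat_lit 1) (nat_lit 4) (nat_lit 2) (nat_lit 177) (nat_lit 325) r0_177 r7_325 (nat_lit 364323767) (nat_lit 0) (nat_lit 70053) (nat_lit 0x1936d6e51e) (nat_lit 4404409418),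
  Rx.mk (nat_lit 300) (nat_lit 4) (nat_lit 5) (nat_lit 4) (nat_lit 2) (nat_lit 178) (nat_lit 319) r0_178 r7_319 (nat_lit 394520) (nat_lit 0) (nat_lit 13826) (nat_lit 0x1be69cc70a) (nat_lit 3291128944),
  Rx.mk (nat_lit 302) (nat_lit 6) (nat_lit 5) (nat_lit 4) (nat_lit 3) (nat_lit 182) (nat_lit 322) r0_182 r7_322 (nat_lit 0) (nat_lit 0) (nat_lit 8222135) (nat_lit 0x20013cd0ec) (nat_lit 2155212183),
  Rx.mk (nat_lit 332) (nat_lit 4) (nat_lit 1) (nat_lit 5) (nat_lit 6) (nat_lit 179) (nat_lit 326) r0_179 r7_326 (nat_lit 2076918) (nat_lit 0) (nat_lit 0) (nat_lit 0x16b9749910) (nat_lit 4736536266),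
  Rx.mk (nat_lit 364) (nat_lit 4) (nat_lit 5) (nat_lit 5) (nat_lit 6) (nat_lit 180) (nat_lit 320) r0_180 r7_320 (nat_lit 52001452) (nat_lit 0) (nat_lit 0) (nat_lit 0x1e69666108) (nat_lit 2642941100),
  Rx.mk (nat_lit 366) (nat_lit 6) (nat_lit 5) (nat_lit 5) (nat_lit 7) (nat_lit 183) (nat_lit 323) r0_183 r7_323 (nat_lit 0) (nat_lit 0) (nat_lit 0) (nat_lit 0x201d3442b2) (nat_lit 2117185098),
  Rx.mk (nat_lit 492) (nat_lit 4) (nat_lit 5) (nat_lit 7) (nat_lit 6) (nat_lit 181) (nat_lit 321) r0_181 r7_321 (nat_lit 1259355059) (nat_lit 0) (nat_lit 0) (nat_lit 0x20beee895a) (nat_lit 3204160657),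
  Rx.mk (nat_lit 494) (nat_lit 6) (nat_lit 5) (nat_lit 7) (nat_lit 7) (nat_lit 184) (nat_lit 324) r0_184 r7_324 (nat_lit 0) (nat_lit 0) (nat_lit 0) (nat_lit 0x203183aa1e) (nat_lit 2095553398)]
noncomputable def e37_26 : List Rx := [
  Rx.mk (nat_lit 300) (nat_lit 4) (nat_lit 5) (nat_lit 4) (nat_lit 2) (nat_lit 188) (nat_lit 241) r0_188 r8_241 (nat_lit 134688878) (nat_lit 0) (nat_lit 16981321) (nat_lit 0x1910184f12) (nat_lit 4234336497),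
  Rx.mk (nat_lit 302) (nat_lit 6) (nat_lit 5) (nat_lit 4) (nat_lit 3) (nat_lit 191) (nat_lit 244) r0_191 r8_244 (nat_lit 0) (nat_lit 0) (nat_lit 25551595) (nat_lit 0x1febb7003a) (nat_lit 2195908193),
  Rx.mk (nat_lit 364) (nat_lit 4) (nat_lit 5) (nat_lit 5) (nat_lit 6) (nat_lit 189) (nat_lit 242) r0_189 r8_242 (nat_lit 25858598) (nat_lit 0) (nat_lit 0) (nat_lit 0x1fc8152652) (nat_lit 2234886196),
  Rx.mk (nat_lit 366) (nat_lit 6) (nat_lit 5) (nat_lit 5) (nat_lit 7) (nat_lit 192) (nat_lit 245) r0_192 r8_245 (nat_lit 0) (nat_lit 0) (nat_lit 0) (nat_lit 0x2000efab8c) (nat_lit 2147483648),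
  Rx.mk (nat_lit 430) (nat_lit 6) (nat_lit 5) (nat_lit 6) (nat_lit 7) (nat_lit 193) (nat_lit 247) r0_193 r8_247 (nat_lit 0) (nat_lit 0) (nat_lit 0) (nat_lit 0x1ff886e3b6) (nat_lit 2156539498),
  Rx.mk (nat_lit 492) (nat_lit 4) (nat_lit 5) (nat_lit 7) (nat_lit 6) (nat_lit 190) (nat_lit 243) r0_190 r8_243 (nat_lit 891972013) (nat_lit 0) (nat_lit 0) (nat_lit 0x1ff12e5ad6) (nat_lit 3056376711),
  Rx.mk (nat_lit 494) (nat_lit 6) (nat_lit 5) (nat_lit 7) (nat_lit 7) (nat_lit 194) (nat_lit 246) r0_194 r8_246 (nat_lit 0) (nat_lit 0) (nat_lit 0) (nat_lit 0x2000efab8c) (nat_lit 2147483648)]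
noncomputable def e37_27 : List Rx := [
  Rx.mk (nat_lit 332) (nat_lit 4) (nat_lit 1) (nat_lit 5) (nat_lit 6) (nat_lit 185) (nat_lit 63) r0_185 r8_63 (nat_lit 39970022) (nat_lit 0) (nat_lit 0) (nat_lit 0x1e21cd06d0) (nat_lit 2708909070),
  Rx.mk (nat_lit 364) (nat_lit 4) (nat_lit 5) (nat_lit 5) (nat_lit 6) (nat_lit 186) (nat_lit 64) r0_186 r8_64 (nat_lit 40854578) (nat_lit 0) (nat_lit 0) (nat_lit 0x1f671d7930) (nat_lit 2355441226),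
  Rx.mk (nat_lit 366) (nat_lit 6) (nat_lit 5) (nat_lit 5) (nat_lit 7) (nat_lit 187) (nat_lit 65) r0_187 r8_65 (nat_lit 0) (nat_lit 0) (nat_lit 0) (nat_lit 0x201a746ebc) (nat_lit 2120137948)]
noncomputable def e37_28 : List Rx := [
  Rx.mk (nat_lit 268) (nat_lit 4) (nat_lit 1) (nat_lit 4) (nat_lit 2) (nat_lit 195) (nat_lit 281) r0_195 r10_281 (nat_lit 2403529) (nat_lit 0) (nat_lit 730716) (nat_lit 0x177a59ac38) (nat_lit 4527539093),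
  Rx.mk (nat_lit 332) (nat_lit 4) (nat_lit 1) (nat_lit 5) (nat_lit 6) (nat_lit 196) (nat_lit 282) r0_196 r10_282 (nat_lit 11731241) (nat_lit 0) (nat_lit 0) (nat_lit 0x1bb23ede62) (nat_lit 3359930739),
  Rx.mk (nat_lit 460) (nat_lit 4) (nat_lit 1) (nat_lit 7) (nat_lit 6) (nat_lit 197) (nat_lit 283) r0_197 r10_283 (nat_lit 1273131673) (nat_lit 0) (nat_lit 0) (nat_lit 0x202b13f47c) (nat_lit 3375334421),
  Rx.mk (nat_lit 492) (nat_lit 4) (nat_lit 5) (nat_lit 7) (nat_lit 6) (nat_lit 198) (nat_lit 279) r0_198 r10_279 (nat_lit 1104418901) (nat_lit 0) (nat_lit 0) (nat_lit 0x22cccfca64) (nat_lit 2490955749),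
  Rx.mk (nat_lit 494) (nat_lit 6) (nat_lit 5) (nat_lit 7) (nat_lit 7) (nat_lit 199) (nat_lit 280) r0_199 r10_280 (nat_lit 0) (nat_lit 0) (nat_lit 0) (nat_lit 0x2025e3696a) (nat_lit 2107940098)]
noncomputable def e37_29 : List Rx := [
  Rx.mk (nat_lit 460) (nat_lit 4) (nat_lit 1) (nat_lit 7) (nat_lit 6) (nat_lit 225) (nat_lit 302) r0_225 r11_302 (nat_lit 42064346) (nat_lit 0) (nat_lit 0) (nat_lit 0x1e82c47ab8) (nat_lit 2605302794),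
  Rx.mk (nat_lit 492) (nat_lit 4) (nat_lit 5) (nat_lit 7) (nat_lit 6) (nat_lit 226) (nat_lit 300) r0_226 r11_300 (nat_lit 33373994) (nat_lit 0) (nat_lit 0) (nat_lit 0x2027342142) (nat_lit 2139827192),
  Rx.mk (nat_lit 494) (nat_lit 6) (nat_lit 5) (nat_lit 7) (nat_lit 7) (nat_lit 227) (nat_lit 301) r0_227 r11_301 (nat_lit 0) (nat_lit 0) (nat_lit 0) (nat_lit 0x203c4011c2) (nat_lit 2084060298)]
noncomputable def e37_30 : List Rx := [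
  Rx.mk (nat_lit 4) (nat_lit 4) (nat_lit 0) (nat_lit 0) (nat_lit 0) (nat_lit 330) (nat_lit 152) r0_330 r5_152 (nat_lit 439) (nat_lit 447) (nat_lit 1049326081) (nat_lit 0x20000198ca) (nat_lit 3196804165),
  Rx.mk (nat_lit 5) (nat_lit 5) (nat_lit 0) (nat_lit 0) (nat_lit 1) (nat_lit 335) (nat_lit 153) r0_335 r5_153 (nat_lit 0) (nat_lit 14233515) (nat_lit 836676726) (nat_lit 0x1dbf5a2fa0) (nat_lit 3627046689),
  Rx.mk (nat_lit 7) (nat_lit 7) (nat_lit 0) (nat_lit 0) (nat_lit 1) (nat_lit 340) (nat_lit 154) r0_340 r5_154 (nat_lit 0) (nat_lit 2993290) (nat_lit 78079260) (nat_lit 0x1f9a455b5c) (nat_lit 2339808798),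
  Rx.mk (nat_lit 12) (nat_lit 4) (nat_lit 1) (nat_lit 0) (nat_lit 2) (nat_lit 331) (nat_lit 155) r0_331 r5_155 (nat_lit 27024974) (nat_lit 0) (nat_lit 27354700) (nat_lit 0x1fb037b946) (nat_lit 2289337272),
  Rx.mk (nat_lit 13) (nat_lit 5) (nat_lit 1) (nat_lit 0) (nat_lit 3) (nat_lit 336) (nat_lit 156) r0_336 r5_156 (nat_lit 0) (nat_lit 0) (nat_lit 35701536) (nat_lit 0x1ff559c230) (nat_lit 2195649984),
  Rx.mk (nat_lit 15) (nat_lit 7) (nat_lit 1) (nat_lit 0) (nat_lit 3) (nat_lit 341) (nat_lit 157) r0_341 r5_157 (nat_lit 0) (nat_lit 0) (nat_lit 6623622) (nat_lit 0x1f6d145f0c) (nat_lit 2314593770),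
  Rx.mk (nat_lit 196) (nat_lit 4) (nat_lit 0) (nat_lit 3) (nat_lit 4) (nat_lit 332) (nat_lit 158) r0_332 r5_158 (nat_lit 16404426) (nat_lit 11259591) (nat_lit 0) (nat_lit 0x1c58686b0a) (nat_lit 3194903615),
  Rx.mk (nat_lit 197) (nat_lit 5) (nat_lit 0) (nat_lit 3) (nat_lit 5) (nat_lit 337) (nat_lit 159) r0_337 r5_159 (nat_lit 0) (nat_lit 28690527) (nat_lit 0) (nat_lit 0x1fa3753e2c) (nat_lit 2277567575),
  Rx.mk (nat_lit 204) (nat_lit 4) (nat_lit 1) (nat_lit 3) (nat_lit 6) (nat_lit 333) (nat_lit 160) r0_333 r5_160 (nat_lit 31773174) (nat_lit 0) (nat_lit 0) (nat_lit 0x2008c5c86e) (nat_lit 2170800572),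
  Rx.mk (nat_lit 205) (nat_lit 5) (nat_lit 1) (nat_lit 3) (nat_lit 7) (nat_lit 338) (nat_lit 161) r0_338 r5_161 (nat_lit 0) (nat_lit 0) (nat_lit 0) (nat_lit 0x200ae3dc26) (nat_lit 2136794298),
  Rx.mk (nat_lit 220) (nat_lit 4) (nat_lit 3) (nat_lit 3) (nat_lit 6) (nat_lit 334) (nat_lit 162) r0_334 r5_162 (nat_lit 26216418) (nat_lit 0) (nat_lit 0) (nat_lit 0x1e2e32a182) (nat_lit 2681673116),
  Rx.mk (nat_lit 221) (nat_lit 5) (nat_lit 3) (nat_lit 3) (nat_lit 7) (nat_lit 339) (nat_lit 163) r0_339 r5_163 (nat_lit 0) (nat_lit 0) (nat_lit 0) (nat_lit 0x200ed05e40) (nat_lit 2132587948)]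
noncomputable def e37_31 : List Rx := [
  Rx.mk (nat_lit 4) (nat_lit 4) (nat_lit 0) (nat_lit 0) (nat_lit 0) (nat_lit 342) (nat_lit 165) r0_342 r11_165 (nat_lit 12940473) (nat_lit 31449710) (nat_lit 234590059) (nat_lit 0x18bae9b9fe) (nat_lit 4454445640),
  Rx.mk (nat_lit 5) (nat_lit 5) (nat_lit 0) (nat_lit 0) (nat_lit 1) (nat_lit 349) (nat_lit 166) r0_349 r11_166 (nat_lit 0) (nat_lit 23414709) (nat_lit 513976701) (nat_lit 0x1fddc319f0) (nat_lit 2722900458),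
  Rx.mk (nat_lit 7) (nat_lit 7) (nat_lit 0) (nat_lit 0) (nat_lit 1) (nat_lit 356) (nat_lit 167) r0_356 r11_167 (nat_lit 0) (nat_lit 37658965) (nat_lit 45824042) (nat_lit 0x1fa37cba80) (nat_lit 2332344955),
  Rx.mk (nat_lit 12) (nat_lit 4) (nat_lit 1) (nat_lit 0) (nat_lit 2) (nat_lit 343) (nat_lit 168) r0_343 r11_168 (nat_lit 281247095) (nat_lit 0) (nat_lit 34354690) (nat_lit 0x1f1df2e5a6) (nat_lit 2709892883),
  Rx.mk (nat_lit 13) (nat_lit 5) (nat_lit 1) (nat_lit 0) (nat_lit 3) (nat_lit 350) (nat_lit 169) r0_350 r11_169 (nat_lit 0) (nat_lit 0) (nat_lit 43594055) (nat_lit 0x1ffbdc8fde) (nat_lit 2196539353),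
  Rx.mk (nat_lit 15) (nat_lit 7) (nat_lit 1) (nat_lit 0) (nat_lit 3) (nat_lit 357) (nat_lit 170) r0_357 r11_170 (nat_lit 0) (nat_lit 0) (nat_lit 19939951) (nat_lit 0x2025d660ee) (nat_lit 2127933249),
  Rx.mk (nat_lit 68) (nat_lit 4) (nat_lit 0) (nat_lit 1) (nat_lit 4) (nat_lit 344) (nat_lit 171) r0_344 r11_171 (nat_lit 640914359) (nat_lit 27207512) (nat_lit 0) (nat_lit 0x1f18a3fc3e) (nat_lit 3068189969),
  Rx.mk (nat_lit 69) (nat_lit 5) (nat_lit 0) (nat_lit 1) (nat_lit 5) (nat_lit 351) (nat_lit 172) r0_351 r11_172 (nat_lit 0) (nat_lit 39267561) (nat_lit 0) (nat_lit 0x2000efab8c) (nat_lit 2186751209),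
  Rx.mk (nat_lit 71) (nat_lit 7) (nat_lit 0) (nat_lit 1) (nat_lit 5) (nat_lit 358) (nat_lit 173) r0_358 r11_173 (nat_lit 0) (nat_lit 23211538) (nat_lit 0) (nat_lit 0x200c4d1938) (nat_lit 2158480186),
  Rx.mk (nat_lit 76) (nat_lit 4) (nat_lit 1) (nat_lit 1) (nat_lit 6) (nat_lit 345) (nat_lit 174) r0_345 r11_174 (nat_lit 439318681) (nat_lit 0) (nat_lit 0) (nat_lit 0x1f83e54dd6) (nat_lit 2722503479),
  Rx.mk (nat_lit 77) (nat_lit 5) (nat_lit 1) (nat_lit 1) (nat_lit 7) (nat_lit 352) (nat_lit 175) r0_352 r11_175 (nat_lit 0) (nat_lit 0) (nat_lit 0) (nat_lit 0x2008c9b1f4) (nat_lit 2139048948),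
  Rx.mk (nat_lit 79) (nat_lit 7) (nat_lit 1) (nat_lit 1) (nat_lit 7) (nat_lit 359) (nat_lit 176) r0_359 r11_176 (nat_lit 0) (nat_lit 0) (nat_lit 0) (nat_lit 0x2008d71dbc) (nat_lit 2138972248),
  Rx.mk (nat_lit 196) (nat_lit 4) (nat_lit 0) (nat_lit 3) (nat_lit 4) (nat_lit 346) (nat_lit 177) r0_346 r11_177 (nat_lit 56553025) (nat_lit 59151949) (nat_lit 0) (nat_lit 0x1ed23069ea) (nat_lit 2592579872),
  Rx.mk (nat_lit 197) (nat_lit 5) (nat_lit 0) (nat_lit 3) (nat_lit 5) (nat_lit 353) (nat_lit 178) r0_353 r11_178 (nat_lit 0) (nat_lit 26928061) (nat_lit 0) (nat_lit 0x200dd61462) (nat_lit 2160559759),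
  Rx.mk (nat_lit 204) (nat_lit 4) (nat_lit 1) (nat_lit 3) (nat_lit 6) (nat_lit 347) (nat_lit 179) r0_347 r11_179 (nat_lit 39267561) (nat_lit 0) (nat_lit 0) (nat_lit 0x201e819c32) (nat_lit 2155079559),
  Rx.mk (nat_lit 205) (nat_lit 5) (nat_lit 1) (nat_lit 3) (nat_lit 7) (nat_lit 354) (nat_lit 180) r0_354 r11_180 (nat_lit 0) (nat_lit 0) (nat_lit 0) (nat_lit 0x2000efab8c) (nat_lit 2147483648),
  Rx.mk (nat_lit 220) (nat_lit 4) (nat_lit 3) (nat_lit 3) (nat_lit 6) (nat_lit 348) (nat_lit 181) r0_348 r11_181 (nat_lit 39267561) (nat_lit 0) (nat_lit 0) (nat_lit 0x1ff7d35d1e) (nat_lit 2196560359),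
  Rx.mk (nat_lit 221) (nat_lit 5) (nat_lit 3) (nat_lit 3) (nat_lit 7) (nat_lit 355) (nat_lit 182) r0_355 r11_182 (nat_lit 0) (nat_lit 0) (nat_lit 0) (nat_lit 0x200b1cd5f8) (nat_lit 2136553848)]
noncomputable def e37_32 : List Rx := [
  Rx.mk (nat_lit 199) (nat_lit 7) (nat_lit 0) (nat_lit 3) (nat_lit 5) (nat_lit 85) (nat_lit 5) r0_85 r6_5 (nat_lit 0) (nat_lit 4823489) (nat_lit 0) (nat_lit 0x206bc35c4c) (nat_lit 2038343737),
  Rx.mk (nat_lit 207) (nat_lit 7) (nat_lit 1) (nat_lit 3) (nat_lit 7) (nat_lit 86) (nat_lit 6) r0_86 r6_6 (nat_lit 0) (nat_lit 0) (nat_lit 0) (nat_lit 0x218a46bc08) (nat_lit 1729288248),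
  Rx.mk (nat_lit 452) (nat_lit 4) (nat_lit 0) (nat_lit 7) (nat_lit 4) (nat_lit 82) (nat_lit 0) r0_82 r6_0 (nat_lit 528265) (nat_lit 343571) (nat_lit 0) (nat_lit 0x19e1c87672) (nat_lit 3854735034),
  Rx.mk (nat_lit 455) (nat_lit 7) (nat_lit 0) (nat_lit 7) (nat_lit 5) (nat_lit 87) (nat_lit 3) r0_87 r6_3 (nat_lit 0) (nat_lit 19637407) (nat_lit 0) (nat_lit 0x1f57f9f064) (nat_lit 2350808155),
  Rx.mk (nat_lit 460) (nat_lit 4) (nat_lit 1) (nat_lit 7) (nat_lit 6) (nat_lit 83) (nat_lit 1) r0_83 r6_1 (nat_lit 22646286) (nat_lit 0) (nat_lit 0) (nat_lit 0x1fe695ad68) (nat_lit 2198518134),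
  Rx.mk (nat_lit 463) (nat_lit 7) (nat_lit 1) (nat_lit 7) (nat_lit 7) (nat_lit 88) (nat_lit 4) r0_88 r6_4 (nat_lit 0) (nat_lit 0) (nat_lit 0) (nat_lit 0x2073d73e58) (nat_lit 2025033448),
  Rx.mk (nat_lit 476) (nat_lit 4) (nat_lit 3) (nat_lit 7) (nat_lit 6) (nat_lit 84) (nat_lit 2) r0_84 r6_2 (nat_lit 11325125) (nat_lit 0) (nat_lit 0) (nat_lit 0x1e4b83c27a) (nat_lit 2634795123)]
noncomputable def e37_33 : List Rx := [
  Rx.mk (nat_lit 460) (nat_lit 4) (nat_lit 1) (nat_lit 7) (nat_lit 6) (nat_lit 89) (nat_lit 61) r0_89 r5_61 (nat_lit 24756995) (nat_lit 0) (nat_lit 0) (nat_lit 0x1f66c1b87a) (nat_lit 2339657793),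
  Rx.mk (nat_lit 463) (nat_lit 7) (nat_lit 1) (nat_lit 7) (nat_lit 7) (nat_lit 90) (nat_lit 62) r0_90 r5_62 (nat_lit 0) (nat_lit 0) (nat_lit 0) (nat_lit 0x20857b3c68) (nat_lit 2006284248)]
noncomputable def e37_34 : List Rx := [
  Rx.mk (nat_lit 268) (nat_lit 4) (nat_lit 1) (nat_lit 4) (nat_lit 2) (nat_lit 200) (nat_lit 37) r0_200 r11_37 (nat_lit 957084729) (nat_lit 0) (nat_lit 17109463) (nat_lit 0x1d9f6f1214) (nat_lit 3785167340),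
  Rx.mk (nat_lit 332) (nat_lit 4) (nat_lit 1) (nat_lit 5) (nat_lit 6) (nat_lit 201) (nat_lit 38) r0_201 r11_38 (nat_lit 67257441) (nat_lit 0) (nat_lit 0) (nat_lit 0x2012044a68) (nat_lit 2196402489),
  Rx.mk (nat_lit 460) (nat_lit 4) (nat_lit 1) (nat_lit 7) (nat_lit 6) (nat_lit 202) (nat_lit 39) r0_202 r11_39 (nat_lit 1091917146) (nat_lit 0) (nat_lit 0) (nat_lit 0x20bead267c) (nat_lit 3037389894),
  Rx.mk (nat_lit 463) (nat_lit 7) (nat_lit 1) (nat_lit 7) (nat_lit 7) (nat_lit 203) (nat_lit 40) r0_203 r11_40 (nat_lit 0) (nat_lit 0) (nat_lit 0) (nat_lit 0x20914d4158) (nat_lit 1993747748)]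
noncomputable def e37_35 : List Rx := [
  Rx.mk (nat_lit 7) (nat_lit 7) (nat_lit 0) (nat_lit 0) (nat_lit 1) (nat_lit 232) (nat_lit 98) r0_232 r6_98 (nat_lit 0) (nat_lit 30087) (nat_lit 43050) (nat_lit 0x1db0d45064) (nat_lit 2791604985),
  Rx.mk (nat_lit 15) (nat_lit 7) (nat_lit 1) (nat_lit 0) (nat_lit 3) (nat_lit 233) (nat_lit 101) r0_233 r6_101 (nat_lit 0) (nat_lit 0) (nat_lit 267236) (nat_lit 0x210c9ec3fe) (nat_lit 1862567534),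
  Rx.mk (nat_lit 196) (nat_lit 4) (nat_lit 0) (nat_lit 3) (nat_lit 4) (nat_lit 228) (nat_lit 99) r0_228 r6_99 (nat_lit 14886) (nat_lit 17761) (nat_lit 0) (nat_lit 0x1cee93e3de) (nat_lit 3003181845),
  Rx.mk (nat_lit 199) (nat_lit 7) (nat_lit 0) (nat_lit 3) (nat_lit 5) (nat_lit 234) (nat_lit 100) r0_234 r6_100 (nat_lit 0) (nat_lit 16654996) (nat_lit 0) (nat_lit 0x2005241f12) (nat_lit 2159652094),
  Rx.mk (nat_lit 204) (nat_lit 4) (nat_lit 1) (nat_lit 3) (nat_lit 6) (nat_lit 229) (nat_lit 102) r0_229 r6_102 (nat_lit 5496569) (nat_lit 0) (nat_lit 0) (nat_lit 0x22939b42fa) (nat_lit 1452874667),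
  Rx.mk (nat_lit 207) (nat_lit 7) (nat_lit 1) (nat_lit 3) (nat_lit 7) (nat_lit 235) (nat_lit 103) r0_235 r6_103 (nat_lit 0) (nat_lit 0) (nat_lit 0) (nat_lit 0x20b612ff1e) (nat_lit 1954649298),
  Rx.mk (nat_lit 220) (nat_lit 4) (nat_lit 3) (nat_lit 3) (nat_lit 6) (nat_lit 230) (nat_lit 104) r0_230 r6_104 (nat_lit 10858692) (nat_lit 0) (nat_lit 0) (nat_lit 0x1eba56bc98) (nat_lit 2513638840),
  Rx.mk (nat_lit 476) (nat_lit 4) (nat_lit 3) (nat_lit 7) (nat_lit 6) (nat_lit 231) (nat_lit 105) r0_231 r6_105 (nat_lit 6208960) (nat_lit 0) (nat_lit 0) (nat_lit 0x1e9d3cb284) (nat_lit 2540609808)]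
noncomputable def e37_36 : List Rx := [
  Rx.mk (nat_lit 196) (nat_lit 4) (nat_lit 0) (nat_lit 3) (nat_lit 4) (nat_lit 236) (nat_lit 318) r0_236 r12_318 (nat_lit 3594) (nat_lit 2766) (nat_lit 0) (nat_lit 0x1c40c28d00) (nat_lit 3192515208),
  Rx.mk (nat_lit 199) (nat_lit 7) (nat_lit 0) (nat_lit 3) (nat_lit 5) (nat_lit 241) (nat_lit 323) r0_241 r12_323 (nat_lit 0) (nat_lit 7905363) (nat_lit 0) (nat_lit 0x1fe4879cc0) (nat_lit 2185986011),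
  Rx.mk (nat_lit 204) (nat_lit 4) (nat_lit 1) (nat_lit 3) (nat_lit 6) (nat_lit 237) (nat_lit 320) r0_237 r12_320 (nat_lit 16716) (nat_lit 0) (nat_lit 0) (nat_lit 0x22aa0eb896) (nat_lit 1423260614),
  Rx.mk (nat_lit 207) (nat_lit 7) (nat_lit 1) (nat_lit 3) (nat_lit 7) (nat_lit 242) (nat_lit 324) r0_242 r12_324 (nat_lit 0) (nat_lit 0) (nat_lit 0) (nat_lit 0x22a34e539a) (nat_lit 1430860798),
  Rx.mk (nat_lit 452) (nat_lit 4) (nat_lit 0) (nat_lit 7) (nat_lit 4) (nat_lit 238) (nat_lit 319) r0_238 r12_319 (nat_lit 14688) (nat_lit 13255) (nat_lit 0) (nat_lit 0x1b267bc64c) (nat_lit 3500060191),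
  Rx.mk (nat_lit 460) (nat_lit 4) (nat_lit 1) (nat_lit 7) (nat_lit 6) (nat_lit 239) (nat_lit 321) r0_239 r12_321 (nat_lit 6379702) (nat_lit 0) (nat_lit 0) (nat_lit 0x1f0055a0a6) (nat_lit 2432499700),
  Rx.mk (nat_lit 476) (nat_lit 4) (nat_lit 3) (nat_lit 7) (nat_lit 6) (nat_lit 240) (nat_lit 322) r0_240 r12_322 (nat_lit 124409) (nat_lit 0) (nat_lit 0) (nat_lit 0x1c8a243e1c) (nat_lit 3112716857)]
noncomputable def e37_37 : List Rx := [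
  Rx.mk (nat_lit 3) (nat_lit 3) (nat_lit 0) (nat_lit 0) (nat_lit 1) (nat_lit 4) (nat_lit 11) r0_4 r0_11 (nat_lit 0) (nat_lit 348) (nat_lit 448) (nat_lit 0x2000006b80) (nat_lit 2147482944),
  Rx.mk (nat_lit 19) (nat_lit 3) (nat_lit 2) (nat_lit 0) (nat_lit 3) (nat_lit 5) (nat_lit 12) r0_5 r0_12 (nat_lit 0) (nat_lit 0) (nat_lit 211668) (nat_lit 0x1c6c86b89e) (nat_lit 3145086466),
  Rx.mk (nat_lit 144) (nat_lit 0) (nat_lit 2) (nat_lit 2) (nat_lit 6) (nat_lit 0) (nat_lit 10) r0_0 r0_10 (nat_lit 3682) (nat_lit 0) (nat_lit 0) (nat_lit 0x1de45c53aa) (nat_lit 2735387580),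
  Rx.mk (nat_lit 146) (nat_lit 2) (nat_lit 2) (nat_lit 2) (nat_lit 7) (nat_lit 1) (nat_lit 19) r0_1 r0_19 (nat_lit 0) (nat_lit 0) (nat_lit 0) (nat_lit 0x1ebc30450c) (nat_lit 2500633448),
  Rx.mk (nat_lit 147) (nat_lit 3) (nat_lit 2) (nat_lit 2) (nat_lit 7) (nat_lit 6) (nat_lit 16) r0_6 r0_16 (nat_lit 0) (nat_lit 0) (nat_lit 0) (nat_lit 0x1ffffefb74) (nat_lit 2147488348),
  Rx.mk (nat_lit 178) (nat_lit 2) (nat_lit 6) (nat_lit 2) (nat_lit 7) (nat_lit 2) (nat_lit 18) r0_2 r0_18 (nat_lit 0) (nat_lit 0) (nat_lit 0) (nat_lit 0x200c454ed8) (nat_lit 2134587448),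
  Rx.mk (nat_lit 195) (nat_lit 3) (nat_lit 0) (nat_lit 3) (nat_lit 5) (nat_lit 7) (nat_lit 13) r0_7 r0_13 (nat_lit 0) (nat_lit 438) (nat_lit 0) (nat_lit 0x215479697c) (nat_lit 1785951986),
  Rx.mk (nat_lit 211) (nat_lit 3) (nat_lit 2) (nat_lit 3) (nat_lit 7) (nat_lit 8) (nat_lit 15) r0_8 r0_15 (nat_lit 0) (nat_lit 0) (nat_lit 0) (nat_lit 0x1fd13517d8) (nat_lit 2199156348),
  Rx.mk (nat_lit 219) (nat_lit 3) (nat_lit 3) (nat_lit 3) (nat_lit 7) (nat_lit 9) (nat_lit 14) r0_9 r0_14 (nat_lit 0) (nat_lit 0) (nat_lit 0) (nat_lit 0x1fb0d47056) (nat_lit 2234332198),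
  Rx.mk (nat_lit 223) (nat_lit 7) (nat_lit 3) (nat_lit 3) (nat_lit 7) (nat_lit 17) (nat_lit 3) r0_17 r0_3 (nat_lit 0) (nat_lit 0) (nat_lit 0) (nat_lit 0x1fe66bb666) (nat_lit 2176103198),
  Rx.mk (nat_lit 294) (nat_lit 6) (nat_lit 4) (nat_lit 4) (nat_lit 1) (nat_lit 11) (nat_lit 4) r0_11 r0_4 (nat_lit 0) (nat_lit 348) (nat_lit 448) (nat_lit 0x2000006b80) (nat_lit 2147482944),
  Rx.mk (nat_lit 318) (nat_lit 6) (nat_lit 7) (nat_lit 4) (nat_lit 3) (nat_lit 12) (nat_lit 5) r0_12 r0_5 (nat_lit 0) (nat_lit 0) (nat_lit 211668) (nat_lit 0x1c6c86b89e) (nat_lit 3145086466),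
  Rx.mk (nat_lit 422) (nat_lit 6) (nat_lit 4) (nat_lit 6) (nat_lit 5) (nat_lit 13) (nat_lit 7) r0_13 r0_7 (nat_lit 0) (nat_lit 438) (nat_lit 0) (nat_lit 0x215479697c) (nat_lit 1785951986),
  Rx.mk (nat_lit 434) (nat_lit 2) (nat_lit 6) (nat_lit 6) (nat_lit 7) (nat_lit 3) (nat_lit 17) r0_3 r0_17 (nat_lit 0) (nat_lit 0) (nat_lit 0) (nat_lit 0x1fe66bb666) (nat_lit 2176103198),
  Rx.mk (nat_lit 438) (nat_lit 6) (nat_lit 6) (nat_lit 6) (nat_lit 7) (nat_lit 14) (nat_lit 9) r0_14 r0_9 (nat_lit 0) (nat_lit 0) (nat_lit 0) (nat_lit 0x1fb0d47056) (nat_lit 2234332198),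
  Rx.mk (nat_lit 446) (nat_lit 6) (nat_lit 7) (nat_lit 6) (nat_lit 7) (nat_lit 15) (nat_lit 8) r0_15 r0_8 (nat_lit 0) (nat_lit 0) (nat_lit 0) (nat_lit 0x1fd13517d8) (nat_lit 2199156348),
  Rx.mk (nat_lit 479) (nat_lit 7) (nat_lit 3) (nat_lit 7) (nat_lit 7) (nat_lit 18) (nat_lit 2) r0_18 r0_2 (nat_lit 0) (nat_lit 0) (nat_lit 0) (nat_lit 0x200c454ed8) (nat_lit 2134587448),
  Rx.mk (nat_lit 508) (nat_lit 4) (nat_lit 7) (nat_lit 7) (nat_lit 6) (nat_lit 10) (nat_lit 0) r0_10 r0_0 (nat_lit 3682) (nat_lit 0) (nat_lit 0) (nat_lit 0x1de45c53aa) (nat_lit 2735387580),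
  Rx.mk (nat_lit 510) (nat_lit 6) (nat_lit 7) (nat_lit 7) (nat_lit 7) (nat_lit 16) (nat_lit 6) r0_16 r0_6 (nat_lit 0) (nat_lit 0) (nat_lit 0) (nat_lit 0x1ffffefb74) (nat_lit 2147488348),
  Rx.mk (nat_lit 511) (nat_lit 7) (nat_lit 7) (nat_lit 7) (nat_lit 7) (nat_lit 19) (nat_lit 1) r0_19 r0_1 (nat_lit 0) (nat_lit 0) (nat_lit 0) (nat_lit 0x1ebc30450c) (nat_lit 2500633448)]
noncomputable def e37_38 : List Rx := [
  Rx.mk (nat_lit 3) (nat_lit 3) (nat_lit 0) (nat_lit 0) (nat_lit 1) (nat_lit 94) (nat_lit 91) r0_94 r0_91 (nat_lit 0) (nat_lit 4146700) (nat_lit 1040475940) (nat_lit 0x1c113aa176) (nat_lit 4289260438),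
  Rx.mk (nat_lit 16) (nat_lit 0) (nat_lit 2) (nat_lit 0) (nat_lit 2) (nat_lit 91) (nat_lit 94) r0_91 r0_94 (nat_lit 4146700) (nat_lit 0) (nat_lit 1040475940) (nat_lit 0x1c113aa176) (nat_lit 4289260438),
  Rx.mk (nat_lit 19) (nat_lit 3) (nat_lit 2) (nat_lit 0) (nat_lit 3) (nat_lit 95) (nat_lit 95) r0_95 r0_95 (nat_lit 0) (nat_lit 0) (nat_lit 928406146) (nat_lit 0x2016212198) (nat_lit 3053127494),
  Rx.mk (nat_lit 144) (nat_lit 0) (nat_lit 2) (nat_lit 2) (nat_lit 6) (nat_lit 92) (nat_lit 97) r0_92 r0_97 (nat_lit 39205071) (nat_lit 0) (nat_lit 0) (nat_lit 0x1cf8cbd0aa) (nat_lit 3031727569),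
  Rx.mk (nat_lit 146) (nat_lit 2) (nat_lit 2) (nat_lit 2) (nat_lit 7) (nat_lit 93) (nat_lit 99) r0_93 r0_99 (nat_lit 0) (nat_lit 0) (nat_lit 0) (nat_lit 0x2000efab8c) (nat_lit 2147483648),
  Rx.mk (nat_lit 147) (nat_lit 3) (nat_lit 2) (nat_lit 2) (nat_lit 7) (nat_lit 96) (nat_lit 98) r0_96 r0_98 (nat_lit 0) (nat_lit 0) (nat_lit 0) (nat_lit 0x2009aed838) (nat_lit 2138090548),
  Rx.mk (nat_lit 195) (nat_lit 3) (nat_lit 0) (nat_lit 3) (nat_lit 5) (nat_lit 97) (nat_lit 92) r0_97 r0_92 (nat_lit 0) (nat_lit 39205071) (nat_lit 0) (nat_lit 0x1cf8cbd0aa) (nat_lit 3031727569),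
  Rx.mk (nat_lit 211) (nat_lit 3) (nat_lit 2) (nat_lit 3) (nat_lit 7) (nat_lit 98) (nat_lit 96) r0_98 r0_96 (nat_lit 0) (nat_lit 0) (nat_lit 0) (nat_lit 0x2009aed838) (nat_lit 2138090548),
  Rx.mk (nat_lit 219) (nat_lit 3) (nat_lit 3) (nat_lit 3) (nat_lit 7) (nat_lit 99) (nat_lit 93) r0_99 r0_93 (nat_lit 0) (nat_lit 0) (nat_lit 0) (nat_lit 0x2000efab8c) (nat_lit 2147483648)]
noncomputable def e37_39 : List Rx := [
  Rx.mk (nat_lit 3) (nat_lit 3) (nat_lit 0) (nat_lit 0) (nat_lit 1) (nat_lit 105) (nat_lit 2) r0_105 r7_2 (nat_lit 0) (nat_lit 118942) (nat_lit 1681448) (nat_lit 0x1a2c72ec48) (nat_lit 3774257838),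
  Rx.mk (nat_lit 16) (nat_lit 0) (nat_lit 2) (nat_lit 0) (nat_lit 2) (nat_lit 100) (nat_lit 0) r0_100 r7_0 (nat_lit 5017793) (nat_lit 0) (nat_lit 203862769) (nat_lit 0x184e7076c8) (nat_lit 4502484910),
  Rx.mk (nat_lit 19) (nat_lit 3) (nat_lit 2) (nat_lit 0) (nat_lit 3) (nat_lit 106) (nat_lit 3) r0_106 r7_3 (nat_lit 0) (nat_lit 0) (nat_lit 889720639) (nat_lit 0x201c8bd30c) (nat_lit 3007471987),
  Rx.mk (nat_lit 144) (nat_lit 0) (nat_lit 2) (nat_lit 2) (nat_lit 6) (nat_lit 101) (nat_lit 1) r0_101 r7_1 (nat_lit 12432931) (nat_lit 0) (nat_lit 0) (nat_lit 0x1b37024158) (nat_lit 3494942479),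
  Rx.mk (nat_lit 146) (nat_lit 2) (nat_lit 2) (nat_lit 2) (nat_lit 7) (nat_lit 102) (nat_lit 10) r0_102 r7_10 (nat_lit 0) (nat_lit 0) (nat_lit 0) (nat_lit 0x1d505599a0) (nat_lit 2897180348),
  Rx.mk (nat_lit 147) (nat_lit 3) (nat_lit 2) (nat_lit 2) (nat_lit 7) (nat_lit 107) (nat_lit 7) r0_107 r7_7 (nat_lit 0) (nat_lit 0) (nat_lit 0) (nat_lit 0x1fe69d992e) (nat_lit 2175885398),
  Rx.mk (nat_lit 178) (nat_lit 2) (nat_lit 6) (nat_lit 2) (nat_lit 7) (nat_lit 103) (nat_lit 9) r0_103 r7_9 (nat_lit 0) (nat_lit 0) (nat_lit 0) (nat_lit 0x1fd442bfde) (nat_lit 2195818098),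
  Rx.mk (nat_lit 195) (nat_lit 3) (nat_lit 0) (nat_lit 3) (nat_lit 5) (nat_lit 108) (nat_lit 4) r0_108 r7_4 (nat_lit 0) (nat_lit 12433884) (nat_lit 0) (nat_lit 0x1d4834c50c) (nat_lit 2918441232),
  Rx.mk (nat_lit 211) (nat_lit 3) (nat_lit 2) (nat_lit 3) (nat_lit 7) (nat_lit 109) (nat_lit 6) r0_109 r7_6 (nat_lit 0) (nat_lit 0) (nat_lit 0) (nat_lit 0x1fe1cf73ae) (nat_lit 2181107598),
  Rx.mk (nat_lit 219) (nat_lit 3) (nat_lit 3) (nat_lit 3) (nat_lit 7) (nat_lit 110) (nat_lit 5) r0_110 r7_5 (nat_lit 0) (nat_lit 0) (nat_lit 0) (nat_lit 0x1fcde9e496) (nat_lit 2202710498),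
  Rx.mk (nat_lit 434) (nat_lit 2) (nat_lit 6) (nat_lit 6) (nat_lit 7) (nat_lit 104) (nat_lit 8) r0_104 r7_8 (nat_lit 0) (nat_lit 0) (nat_lit 0) (nat_lit 0x1fd446eec4) (nat_lit 2195815148)]
noncomputable def e37_40 : List Rx := [
  Rx.mk (nat_lit 1) (nat_lit 1) (nat_lit 0) (nat_lit 0) (nat_lit 1) (nat_lit 254) (nat_lit 98) r0_254 r2_98 (nat_lit 0) (nat_lit 36413796) (nat_lit 434226316) (nat_lit 0x1879ff9526) (nat_lit 4716875910),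
  Rx.mk (nat_lit 17) (nat_lit 1) (nat_lit 2) (nat_lit 0) (nat_lit 3) (nat_lit 255) (nat_lit 99) r0_255 r2_99 (nat_lit 0) (nat_lit 0) (nat_lit 100346273) (nat_lit 0x1fdee46c8a) (nat_lit 2284621071),
  Rx.mk (nat_lit 145) (nat_lit 1) (nat_lit 2) (nat_lit 2) (nat_lit 7) (nat_lit 256) (nat_lit 100) r0_256 r2_100 (nat_lit 0) (nat_lit 0) (nat_lit 0) (nat_lit 0x2000efab8c) (nat_lit 2147483648)]
noncomputable def e37_41 : List Rx := [
  Rx.mk (nat_lit 1) (nat_lit 1) (nat_lit 0) (nat_lit 0) (nat_lit 1) (nat_lit 262) (nat_lit 65) r0_262 r9_65 (nat_lit 0) (nat_lit 72232326) (nat_lit 166779767) (nat_lit 0x190ef59338) (nat_lit 4322965641),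
  Rx.mk (nat_lit 17) (nat_lit 1) (nat_lit 2) (nat_lit 0) (nat_lit 3) (nat_lit 263) (nat_lit 66) r0_263 r9_66 (nat_lit 0) (nat_lit 0) (nat_lit 73195626) (nat_lit 0x1fe7afec7c) (nat_lit 2247944174),
  Rx.mk (nat_lit 145) (nat_lit 1) (nat_lit 2) (nat_lit 2) (nat_lit 7) (nat_lit 264) (nat_lit 67) r0_264 r9_67 (nat_lit 0) (nat_lit 0) (nat_lit 0) (nat_lit 0x1ff2f3eb7e) (nat_lit 2162569598)]
noncomputable def e37_42 : List Rx := [
  Rx.mk (nat_lit 1) (nat_lit 1) (nat_lit 0) (nat_lit 0) (nat_lit 1) (nat_lit 257) (nat_lit 155) r0_257 r9_155 (nat_lit 0) (nat_lit 92061587) (nat_lit 90581538) (nat_lit 0x1890a80cb8) (nat_lit 4404199273),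
  Rx.mk (nat_lit 17) (nat_lit 1) (nat_lit 2) (nat_lit 0) (nat_lit 3) (nat_lit 258) (nat_lit 156) r0_258 r9_156 (nat_lit 0) (nat_lit 0) (nat_lit 39267561) (nat_lit 0x2000efab8c) (nat_lit 2186751209),
  Rx.mk (nat_lit 65) (nat_lit 1) (nat_lit 0) (nat_lit 1) (nat_lit 5) (nat_lit 259) (nat_lit 157) r0_259 r9_157 (nat_lit 0) (nat_lit 69251615) (nat_lit 0) (nat_lit 0x1f82d6c8b6) (nat_lit 2353662613),
  Rx.mk (nat_lit 81) (nat_lit 1) (nat_lit 2) (nat_lit 1) (nat_lit 7) (nat_lit 260) (nat_lit 158) r0_260 r9_158 (nat_lit 0) (nat_lit 0) (nat_lit 0) (nat_lit 0x2000efab8c) (nat_lit 2147483648),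
  Rx.mk (nat_lit 145) (nat_lit 1) (nat_lit 2) (nat_lit 2) (nat_lit 7) (nat_lit 261) (nat_lit 159) r0_261 r9_159 (nat_lit 0) (nat_lit 0) (nat_lit 0) (nat_lit 0x2000efab8c) (nat_lit 2147483648)]
noncomputable def e37_43 : List Rx := [
  Rx.mk (nat_lit 0) (nat_lit 0) (nat_lit 0) (nat_lit 0) (nat_lit 0) (nat_lit 111) (nat_lit 94) r0_111 r1_94 (nat_lit 864) (nat_lit 881) (nat_lit 876482094) (nat_lit 0x20000c1836) (nat_lit 3023917637),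
  Rx.mk (nat_lit 1) (nat_lit 1) (nat_lit 0) (nat_lit 0) (nat_lit 1) (nat_lit 114) (nat_lit 95) r0_114 r1_95 (nat_lit 0) (nat_lit 36244003) (nat_lit 1026409620) (nat_lit 0x1fb9979876) (nat_lit 3287509021),
  Rx.mk (nat_lit 3) (nat_lit 3) (nat_lit 0) (nat_lit 0) (nat_lit 1) (nat_lit 118) (nat_lit 96) r0_118 r1_96 (nat_lit 0) (nat_lit 110464278) (nat_lit 757504902) (nat_lit 0x1fdb685e40) (nat_lit 3056021828),
  Rx.mk (nat_lit 16) (nat_lit 0) (nat_lit 2) (nat_lit 0) (nat_lit 2) (nat_lit 112) (nat_lit 99) r0_112 r1_99 (nat_lit 10773148) (nat_lit 0) (nat_lit 586852438) (nat_lit 0x1d5a093704) (nat_lit 3484186834),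
  Rx.mk (nat_lit 17) (nat_lit 1) (nat_lit 2) (nat_lit 0) (nat_lit 3) (nat_lit 115) (nat_lit 100) r0_115 r1_100 (nat_lit 0) (nat_lit 0) (nat_lit 56828886) (nat_lit 0x1ff6c67032) (nat_lit 2215252084),
  Rx.mk (nat_lit 19) (nat_lit 3) (nat_lit 2) (nat_lit 0) (nat_lit 3) (nat_lit 119) (nat_lit 101) r0_119 r1_101 (nat_lit 0) (nat_lit 0) (nat_lit 131034728) (nat_lit 0x201eaa4376) (nat_lit 2246656226),
  Rx.mk (nat_lit 144) (nat_lit 0) (nat_lit 2) (nat_lit 2) (nat_lit 6) (nat_lit 113) (nat_lit 103) r0_113 r1_103 (nat_lit 28379546) (nat_lit 0) (nat_lit 0) (nat_lit 0x1f8f4ceb02) (nat_lit 2299251744),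
  Rx.mk (nat_lit 145) (nat_lit 1) (nat_lit 2) (nat_lit 2) (nat_lit 7) (nat_lit 116) (nat_lit 104) r0_116 r1_104 (nat_lit 0) (nat_lit 0) (nat_lit 0) (nat_lit 0x2000efab8c) (nat_lit 2147483648),
  Rx.mk (nat_lit 146) (nat_lit 2) (nat_lit 2) (nat_lit 2) (nat_lit 7) (nat_lit 117) (nat_lit 106) r0_117 r1_106 (nat_lit 0) (nat_lit 0) (nat_lit 0) (nat_lit 0x2000efab8c) (nat_lit 2147483648),
  Rx.mk (nat_lit 147) (nat_lit 3) (nat_lit 2) (nat_lit 2) (nat_lit 7) (nat_lit 120) (nat_lit 105) r0_120 r1_105 (nat_lit 0) (nat_lit 0) (nat_lit 0) (nat_lit 0x2008ca226a) (nat_lit 2139048298),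
  Rx.mk (nat_lit 195) (nat_lit 3) (nat_lit 0) (nat_lit 3) (nat_lit 5) (nat_lit 121) (nat_lit 97) r0_121 r1_97 (nat_lit 0) (nat_lit 32825473) (nat_lit 0) (nat_lit 0x1ff5e28a70) (nat_lit 2192205321),
  Rx.mk (nat_lit 211) (nat_lit 3) (nat_lit 2) (nat_lit 3) (nat_lit 7) (nat_lit 122) (nat_lit 102) r0_122 r1_102 (nat_lit 0) (nat_lit 0) (nat_lit 0) (nat_lit 0x2000efab8c) (nat_lit 2147483648),
  Rx.mk (nat_lit 219) (nat_lit 3) (nat_lit 3) (nat_lit 3) (nat_lit 7) (nat_lit 123) (nat_lit 98) r0_123 r1_98 (nat_lit 0) (nat_lit 0) (nat_lit 0) (nat_lit 0x2000efab8c) (nat_lit 2147483648)]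
noncomputable def e37_44 : List Rx := [
  Rx.mk (nat_lit 0) (nat_lit 0) (nat_lit 0) (nat_lit 0) (nat_lit 0) (nat_lit 124) (nat_lit 0) r0_124 r8_0 (nat_lit 558198) (nat_lit 699134) (nat_lit 472505440) (nat_lit 0x11858be2f2) (nat_lit 6659296570),
  Rx.mk (nat_lit 1) (nat_lit 1) (nat_lit 0) (nat_lit 0) (nat_lit 1) (nat_lit 127) (nat_lit 3) r0_127 r8_3 (nat_lit 0) (nat_lit 44295479) (nat_lit 457670761) (nat_lit 0x1a99669872) (nat_lit 4156204838),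
  Rx.mk (nat_lit 3) (nat_lit 3) (nat_lit 0) (nat_lit 0) (nat_lit 1) (nat_lit 133) (nat_lit 6) r0_133 r8_6 (nat_lit 0) (nat_lit 16203895) (nat_lit 74617973) (nat_lit 0x19b544d8a2) (nat_lit 3993550566),
  Rx.mk (nat_lit 16) (nat_lit 0) (nat_lit 2) (nat_lit 0) (nat_lit 2) (nat_lit 125) (nat_lit 1) r0_125 r8_1 (nat_lit 12348484) (nat_lit 0) (nat_lit 164641045) (nat_lit 0x199e5ea924) (nat_lit 4104668277),
  Rx.mk (nat_lit 17) (nat_lit 1) (nat_lit 2) (nat_lit 0) (nat_lit 3) (nat_lit 128) (nat_lit 4) r0_128 r8_4 (nat_lit 0) (nat_lit 0) (nat_lit 71617622) (nat_lit 0x1fec814016) (nat_lit 2241141020),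
  Rx.mk (nat_lit 19) (nat_lit 3) (nat_lit 2) (nat_lit 0) (nat_lit 3) (nat_lit 134) (nat_lit 7) r0_134 r8_7 (nat_lit 0) (nat_lit 0) (nat_lit 158877595) (nat_lit 0x1fd910c394) (nat_lit 2349483443),
  Rx.mk (nat_lit 144) (nat_lit 0) (nat_lit 2) (nat_lit 2) (nat_lit 6) (nat_lit 126) (nat_lit 2) r0_126 r8_2 (nat_lit 23182194) (nat_lit 0) (nat_lit 0) (nat_lit 0x1d95408368) (nat_lit 2845270342),
  Rx.mk (nat_lit 145) (nat_lit 1) (nat_lit 2) (nat_lit 2) (nat_lit 7) (nat_lit 129) (nat_lit 5) r0_129 r8_5 (nat_lit 0) (nat_lit 0) (nat_lit 0) (nat_lit 0x1ff599fc9c) (nat_lit 2159689948),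
  Rx.mk (nat_lit 146) (nat_lit 2) (nat_lit 2) (nat_lit 2) (nat_lit 7) (nat_lit 130) (nat_lit 14) r0_130 r8_14 (nat_lit 0) (nat_lit 0) (nat_lit 0) (nat_lit 0x1fe8b50378) (nat_lit 2173652748),
  Rx.mk (nat_lit 147) (nat_lit 3) (nat_lit 2) (nat_lit 2) (nat_lit 7) (nat_lit 135) (nat_lit 11) r0_135 r8_11 (nat_lit 0) (nat_lit 0) (nat_lit 0) (nat_lit 0x1fffb6e1b8) (nat_lit 2148787748),
  Rx.mk (nat_lit 178) (nat_lit 2) (nat_lit 6) (nat_lit 2) (nat_lit 7) (nat_lit 131) (nat_lit 13) r0_131 r8_13 (nat_lit 0) (nat_lit 0) (nat_lit 0) (nat_lit 0x2000efab8c) (nat_lit 2147483648),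
  Rx.mk (nat_lit 195) (nat_lit 3) (nat_lit 0) (nat_lit 3) (nat_lit 5) (nat_lit 136) (nat_lit 8) r0_136 r8_8 (nat_lit 0) (nat_lit 50768653) (nat_lit 0) (nat_lit 0x1e85aaedac) (nat_lit 2610948001),
  Rx.mk (nat_lit 211) (nat_lit 3) (nat_lit 2) (nat_lit 3) (nat_lit 7) (nat_lit 137) (nat_lit 10) r0_137 r8_10 (nat_lit 0) (nat_lit 0) (nat_lit 0) (nat_lit 0x2000efab8c) (nat_lit 2147483648),
  Rx.mk (nat_lit 219) (nat_lit 3) (nat_lit 3) (nat_lit 3) (nat_lit 7) (nat_lit 138) (nat_lit 9) r0_138 r8_9 (nat_lit 0) (nat_lit 0) (nat_lit 0) (nat_lit 0x2000efab8c) (nat_lit 2147483648),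
  Rx.mk (nat_lit 434) (nat_lit 2) (nat_lit 6) (nat_lit 6) (nat_lit 7) (nat_lit 132) (nat_lit 12) r0_132 r8_12 (nat_lit 0) (nat_lit 0) (nat_lit 0) (nat_lit 0x2000efab8c) (nat_lit 2147483648)]
noncomputable def e37_45 : List Rx := [
  Rx.mk (nat_lit 178) (nat_lit 2) (nat_lit 6) (nat_lit 2) (nat_lit 7) (nat_lit 20) (nat_lit 9) r0_20 r1_9 (nat_lit 0) (nat_lit 0) (nat_lit 0) (nat_lit 0x20033add1c) (nat_lit 2145005248),
  Rx.mk (nat_lit 294) (nat_lit 6) (nat_lit 4) (nat_lit 4) (nat_lit 1) (nat_lit 23) (nat_lit 2) r0_23 r1_2 (nat_lit 0) (nat_lit 3759942) (nat_lit 6565323) (nat_lit 0x1d89a47866) (nat_lit 2845011663),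
  Rx.mk (nat_lit 318) (nat_lit 6) (nat_lit 7) (nat_lit 4) (nat_lit 3) (nat_lit 24) (nat_lit 3) r0_24 r1_3 (nat_lit 0) (nat_lit 0) (nat_lit 34120018) (nat_lit 0x1fe2baab9e) (nat_lit 2214220516),
  Rx.mk (nat_lit 422) (nat_lit 6) (nat_lit 4) (nat_lit 6) (nat_lit 5) (nat_lit 25) (nat_lit 5) r0_25 r1_5 (nat_lit 0) (nat_lit 9049524) (nat_lit 0) (nat_lit 0x1f9b0d1dea) (nat_lit 2267094122),
  Rx.mk (nat_lit 434) (nat_lit 2) (nat_lit 6) (nat_lit 6) (nat_lit 7) (nat_lit 21) (nat_lit 8) r0_21 r1_8 (nat_lit 0) (nat_lit 0) (nat_lit 0) (nat_lit 0x2008e878fa) (nat_lit 2138918598),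
  Rx.mk (nat_lit 438) (nat_lit 6) (nat_lit 6) (nat_lit 6) (nat_lit 7) (nat_lit 26) (nat_lit 7) r0_26 r1_7 (nat_lit 0) (nat_lit 0) (nat_lit 0) (nat_lit 0x2010475ae4) (nat_lit 2131019648),
  Rx.mk (nat_lit 446) (nat_lit 6) (nat_lit 7) (nat_lit 6) (nat_lit 7) (nat_lit 27) (nat_lit 6) r0_27 r1_6 (nat_lit 0) (nat_lit 0) (nat_lit 0) (nat_lit 0x2010475ae4) (nat_lit 2131019648),
  Rx.mk (nat_lit 508) (nat_lit 4) (nat_lit 7) (nat_lit 7) (nat_lit 6) (nat_lit 22) (nat_lit 0) r0_22 r1_0 (nat_lit 40197689) (nat_lit 0) (nat_lit 0) (nat_lit 0x1e57e6aa32) (nat_lit 2650224487),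
  Rx.mk (nat_lit 510) (nat_lit 6) (nat_lit 7) (nat_lit 7) (nat_lit 7) (nat_lit 28) (nat_lit 4) r0_28 r1_4 (nat_lit 0) (nat_lit 0) (nat_lit 0) (nat_lit 0x2265931950) (nat_lit 1496427248),
  Rx.mk (nat_lit 511) (nat_lit 7) (nat_lit 7) (nat_lit 7) (nat_lit 7) (nat_lit 29) (nat_lit 1) r0_29 r1_1 (nat_lit 0) (nat_lit 0) (nat_lit 0) (nat_lit 0x205cf259c0) (nat_lit 2049377648)]
noncomputable def e37_46 : List Rx := [
  Rx.mk (nat_lit 294) (nat_lit 6) (nat_lit 4) (nat_lit 4) (nat_lit 1) (nat_lit 34) (nat_lit 4) r0_34 r2_4 (nat_lit 0) (nat_lit 2861756) (nat_lit 6583621) (nat_lit 0x1a9a9f48e2) (nat_lit 3662193675),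
  Rx.mk (nat_lit 302) (nat_lit 6) (nat_lit 5) (nat_lit 4) (nat_lit 3) (nat_lit 35) (nat_lit 5) r0_35 r2_5 (nat_lit 0) (nat_lit 0) (nat_lit 61056546) (nat_lit 0x1f5fe08608) (nat_lit 2383572594),
  Rx.mk (nat_lit 422) (nat_lit 6) (nat_lit 4) (nat_lit 6) (nat_lit 5) (nat_lit 36) (nat_lit 9) r0_36 r2_9 (nat_lit 0) (nat_lit 21572134) (nat_lit 0) (nat_lit 0x1fc3ad1d68) (nat_lit 2235386682),
  Rx.mk (nat_lit 430) (nat_lit 6) (nat_lit 5) (nat_lit 6) (nat_lit 7) (nat_lit 37) (nat_lit 10) r0_37 r2_10 (nat_lit 0) (nat_lit 0) (nat_lit 0) (nat_lit 0x1ffb86aca4) (nat_lit 2153304848),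
  Rx.mk (nat_lit 434) (nat_lit 2) (nat_lit 6) (nat_lit 6) (nat_lit 7) (nat_lit 30) (nat_lit 12) r0_30 r2_12 (nat_lit 0) (nat_lit 0) (nat_lit 0) (nat_lit 0x2000efab8c) (nat_lit 2147483648),
  Rx.mk (nat_lit 438) (nat_lit 6) (nat_lit 6) (nat_lit 6) (nat_lit 7) (nat_lit 38) (nat_lit 11) r0_38 r2_11 (nat_lit 0) (nat_lit 0) (nat_lit 0) (nat_lit 0x1ffb86aca4) (nat_lit 2153304848),
  Rx.mk (nat_lit 484) (nat_lit 4) (nat_lit 4) (nat_lit 7) (nat_lit 4) (nat_lit 31) (nat_lit 0) r0_31 r2_0 (nat_lit 6982) (nat_lit 8480) (nat_lit 0) (nat_lit 0x19db76d458) (nat_lit 3860668410),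
  Rx.mk (nat_lit 486) (nat_lit 6) (nat_lit 4) (nat_lit 7) (nat_lit 5) (nat_lit 39) (nat_lit 6) r0_39 r2_6 (nat_lit 0) (nat_lit 24227) (nat_lit 0) (nat_lit 0x1ffef76540) (nat_lit 2148644475),
  Rx.mk (nat_lit 492) (nat_lit 4) (nat_lit 5) (nat_lit 7) (nat_lit 6) (nat_lit 32) (nat_lit 1) r0_32 r2_1 (nat_lit 13338302) (nat_lit 0) (nat_lit 0) (nat_lit 0x1ff9b2a7d4) (nat_lit 2168548850),
  Rx.mk (nat_lit 494) (nat_lit 6) (nat_lit 5) (nat_lit 7) (nat_lit 7) (nat_lit 40) (nat_lit 7) r0_40 r2_7 (nat_lit 0) (nat_lit 0) (nat_lit 0) (nat_lit 0x21e1f887b0) (nat_lit 1636203448),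
  Rx.mk (nat_lit 508) (nat_lit 4) (nat_lit 7) (nat_lit 7) (nat_lit 6) (nat_lit 33) (nat_lit 2) r0_33 r2_2 (nat_lit 30568667) (nat_lit 0) (nat_lit 0) (nat_lit 0x1eb858b9aa) (nat_lit 2535564565),
  Rx.mk (nat_lit 510) (nat_lit 6) (nat_lit 7) (nat_lit 7) (nat_lit 7) (nat_lit 41) (nat_lit 8) r0_41 r2_8 (nat_lit 0) (nat_lit 0) (nat_lit 0) (nat_lit 0x21fbd87028) (nat_lit 1608727548),
  Rx.mk (nat_lit 511) (nat_lit 7) (nat_lit 7) (nat_lit 7) (nat_lit 7) (nat_lit 42) (nat_lit 3) r0_42 r2_3 (nat_lit 0) (nat_lit 0) (nat_lit 0) (nat_lit 0x201241bcd6) (nat_lit 2128902698)]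
noncomputable def e37_47 : List Rx := [
  Rx.mk (nat_lit 178) (nat_lit 2) (nat_lit 6) (nat_lit 2) (nat_lit 7) (nat_lit 139) (nat_lit 76) r0_139 r8_76 (nat_lit 0) (nat_lit 0) (nat_lit 0) (nat_lit 0x2000efab8c) (nat_lit 2147483648),
  Rx.mk (nat_lit 434) (nat_lit 2) (nat_lit 6) (nat_lit 6) (nat_lit 7) (nat_lit 140) (nat_lit 77) r0_140 r8_77 (nat_lit 0) (nat_lit 0) (nat_lit 0) (nat_lit 0x2000efab8c) (nat_lit 2147483648)]
noncomputable def e37_48 : List Rx := [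
  Rx.mk (nat_lit 434) (nat_lit 2) (nat_lit 6) (nat_lit 6) (nat_lit 7) (nat_lit 141) (nat_lit 0) r0_141 r9_0 (nat_lit 0) (nat_lit 0) (nat_lit 0) (nat_lit 0x2000efab8c) (nat_lit 2147483648)]
noncomputable def e37_49 : List Rx := [
  Rx.mk (nat_lit 292) (nat_lit 4) (nat_lit 4) (nat_lit 4) (nat_lit 0) (nat_lit 155) (nat_lit 23) r0_155 r9_23 (nat_lit 4942448) (nat_lit 3309211) (nat_lit 4415930) (nat_lit 0xc2b2d9256) (nat_lit 7691336587),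
  Rx.mk (nat_lit 294) (nat_lit 6) (nat_lit 4) (nat_lit 4) (nat_lit 1) (nat_lit 161) (nat_lit 25) r0_161 r9_25 (nat_lit 0) (nat_lit 13779880) (nat_lit 25331639) (nat_lit 0x1a1997e830) (nat_lit 3832574467),
  Rx.mk (nat_lit 300) (nat_lit 4) (nat_lit 5) (nat_lit 4) (nat_lit 2) (nat_lit 156) (nat_lit 24) r0_156 r9_24 (nat_lit 25331948) (nat_lit 0) (nat_lit 25331948) (nat_lit 0x178bc459f0) (nat_lit 4556426244),
  Rx.mk (nat_lit 302) (nat_lit 6) (nat_lit 5) (nat_lit 4) (nat_lit 3) (nat_lit 162) (nat_lit 26) r0_162 r9_26 (nat_lit 0) (nat_lit 0) (nat_lit 41622051) (nat_lit 0x1fdf7b28f0) (nat_lit 2225254599),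
  Rx.mk (nat_lit 364) (nat_lit 4) (nat_lit 5) (nat_lit 5) (nat_lit 6) (nat_lit 157) (nat_lit 27) r0_157 r9_27 (nat_lit 39267561) (nat_lit 0) (nat_lit 0) (nat_lit 0x1fe67b77a4) (nat_lit 2215310309),
  Rx.mk (nat_lit 366) (nat_lit 6) (nat_lit 5) (nat_lit 5) (nat_lit 7) (nat_lit 163) (nat_lit 28) r0_163 r9_28 (nat_lit 0) (nat_lit 0) (nat_lit 0) (nat_lit 0x2000efab8c) (nat_lit 2147483648),
  Rx.mk (nat_lit 422) (nat_lit 6) (nat_lit 4) (nat_lit 6) (nat_lit 5) (nat_lit 164) (nat_lit 37) r0_164 r9_37 (nat_lit 0) (nat_lit 39267561) (nat_lit 0) (nat_lit 0x1ff12a068e) (nat_lit 2203751959),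
  Rx.mk (nat_lit 430) (nat_lit 6) (nat_lit 5) (nat_lit 6) (nat_lit 7) (nat_lit 165) (nat_lit 38) r0_165 r9_38 (nat_lit 0) (nat_lit 0) (nat_lit 0) (nat_lit 0x2000efab8c) (nat_lit 2147483648),
  Rx.mk (nat_lit 434) (nat_lit 2) (nat_lit 6) (nat_lit 6) (nat_lit 7) (nat_lit 154) (nat_lit 36) r0_154 r9_36 (nat_lit 0) (nat_lit 0) (nat_lit 0) (nat_lit 0x2000efab8c) (nat_lit 2147483648),
  Rx.mk (nat_lit 438) (nat_lit 6) (nat_lit 6) (nat_lit 6) (nat_lit 7) (nat_lit 166) (nat_lit 39) r0_166 r9_39 (nat_lit 0) (nat_lit 0) (nat_lit 0) (nat_lit 0x2000efab8c) (nat_lit 2147483648),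
  Rx.mk (nat_lit 484) (nat_lit 4) (nat_lit 4) (nat_lit 7) (nat_lit 4) (nat_lit 158) (nat_lit 29) r0_158 r9_29 (nat_lit 67686870) (nat_lit 13428273) (nat_lit 0) (nat_lit 0x188378dfd6) (nat_lit 4317011741),
  Rx.mk (nat_lit 486) (nat_lit 6) (nat_lit 4) (nat_lit 7) (nat_lit 5) (nat_lit 167) (nat_lit 33) r0_167 r9_33 (nat_lit 0) (nat_lit 36938456) (nat_lit 0) (nat_lit 0x1ff1b3bbfe) (nat_lit 2200840854),
  Rx.mk (nat_lit 492) (nat_lit 4) (nat_lit 5) (nat_lit 7) (nat_lit 6) (nat_lit 159) (nat_lit 30) r0_159 r9_30 (nat_lit 97242392) (nat_lit 0) (nat_lit 0) (nat_lit 0x1fdb06dbc0) (nat_lit 2285709440),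
  Rx.mk (nat_lit 494) (nat_lit 6) (nat_lit 5) (nat_lit 7) (nat_lit 7) (nat_lit 168) (nat_lit 34) r0_168 r9_34 (nat_lit 0) (nat_lit 0) (nat_lit 0) (nat_lit 0x2000efab8c) (nat_lit 2147483648),
  Rx.mk (nat_lit 508) (nat_lit 4) (nat_lit 7) (nat_lit 7) (nat_lit 6) (nat_lit 160) (nat_lit 31) r0_160 r9_31 (nat_lit 189228985) (nat_lit 0) (nat_lit 0) (nat_lit 0x1fcca2dc46) (nat_lit 2393332583),
  Rx.mk (nat_lit 510) (nat_lit 6) (nat_lit 7) (nat_lit 7) (nat_lit 7) (nat_lit 169) (nat_lit 35) r0_169 r9_35 (nat_lit 0) (nat_lit 0) (nat_lit 0) (nat_lit 0x2000efab8c) (nat_lit 2147483648),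
  Rx.mk (nat_lit 511) (nat_lit 7) (nat_lit 7) (nat_lit 7) (nat_lit 7) (nat_lit 170) (nat_lit 32) r0_170 r9_32 (nat_lit 0) (nat_lit 0) (nat_lit 0) (nat_lit 0x1fdcae46fc) (nat_lit 2186726148)]
noncomputable def e37_50 : List Rx := [
  Rx.mk (nat_lit 3) (nat_lit 3) (nat_lit 0) (nat_lit 0) (nat_lit 1) (nat_lit 43) (nat_lit 4) r0_43 r3_4 (nat_lit 0) (nat_lit 73) (nat_lit 215) (nat_lit 0x208ef5c466) (nat_lit 1995681986),
  Rx.mk (nat_lit 19) (nat_lit 3) (nat_lit 2) (nat_lit 0) (nat_lit 3) (nat_lit 44) (nat_lit 5) r0_44 r3_5 (nat_lit 0) (nat_lit 0) (nat_lit 19309) (nat_lit 0x1ddfe8eb08) (nat_lit 2740252157),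
  Rx.mk (nat_lit 147) (nat_lit 3) (nat_lit 2) (nat_lit 2) (nat_lit 7) (nat_lit 45) (nat_lit 8) r0_45 r3_8 (nat_lit 0) (nat_lit 0) (nat_lit 0) (nat_lit 0x1f031cc922) (nat_lit 2423601598),
  Rx.mk (nat_lit 195) (nat_lit 3) (nat_lit 0) (nat_lit 3) (nat_lit 5) (nat_lit 46) (nat_lit 6) r0_46 r3_6 (nat_lit 0) (nat_lit 2361722) (nat_lit 0) (nat_lit 0x1f6c91dc1c) (nat_lit 2310927070),
  Rx.mk (nat_lit 199) (nat_lit 7) (nat_lit 0) (nat_lit 3) (nat_lit 5) (nat_lit 49) (nat_lit 2) r0_49 r3_2 (nat_lit 0) (nat_lit 1834) (nat_lit 0) (nat_lit 0x20001276d6) (nat_lit 2147409632),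
  Rx.mk (nat_lit 211) (nat_lit 3) (nat_lit 2) (nat_lit 3) (nat_lit 7) (nat_lit 47) (nat_lit 7) r0_47 r3_7 (nat_lit 0) (nat_lit 0) (nat_lit 0) (nat_lit 0x1f7d715e86) (nat_lit 2290386998),
  Rx.mk (nat_lit 223) (nat_lit 7) (nat_lit 3) (nat_lit 3) (nat_lit 7) (nat_lit 50) (nat_lit 3) r0_50 r3_3 (nat_lit 0) (nat_lit 0) (nat_lit 0) (nat_lit 0x1fefa3a5ae) (nat_lit 2166113798),
  Rx.mk (nat_lit 476) (nat_lit 4) (nat_lit 3) (nat_lit 7) (nat_lit 6) (nat_lit 48) (nat_lit 0) r0_48 r3_0 (nat_lit 2906) (nat_lit 0) (nat_lit 0) (nat_lit 0x20010f203e) (nat_lit 2146362904),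
  Rx.mk (nat_lit 479) (nat_lit 7) (nat_lit 3) (nat_lit 7) (nat_lit 7) (nat_lit 51) (nat_lit 1) r0_51 r3_1 (nat_lit 0) (nat_lit 0) (nat_lit 0) (nat_lit 0x1f10eee5bc) (nat_lit 2408480848)]
noncomputable def e37_51 : List Rx := [
  Rx.mk (nat_lit 3) (nat_lit 3) (nat_lit 0) (nat_lit 0) (nat_lit 1) (nat_lit 52) (nat_lit 8) r0_52 r4_8 (nat_lit 0) (nat_lit 2811065) (nat_lit 10795796) (nat_lit 0x1bb0099aa6) (nat_lit 3364106359),
  Rx.mk (nat_lit 19) (nat_lit 3) (nat_lit 2) (nat_lit 0) (nat_lit 3) (nat_lit 53) (nat_lit 9) r0_53 r4_9 (nat_lit 0) (nat_lit 0) (nat_lit 172912565) (nat_lit 0x1fa59890e6) (nat_lit 2419478663),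
  Rx.mk (nat_lit 147) (nat_lit 3) (nat_lit 2) (nat_lit 2) (nat_lit 7) (nat_lit 54) (nat_lit 12) r0_54 r4_12 (nat_lit 0) (nat_lit 0) (nat_lit 0) (nat_lit 0x1d9b5930e2) (nat_lit 2815357398),
  Rx.mk (nat_lit 195) (nat_lit 3) (nat_lit 0) (nat_lit 3) (nat_lit 5) (nat_lit 55) (nat_lit 10) r0_55 r4_10 (nat_lit 0) (nat_lit 14431387) (nat_lit 0) (nat_lit 0x2014f336d0) (nat_lit 2140417235),
  Rx.mk (nat_lit 199) (nat_lit 7) (nat_lit 0) (nat_lit 3) (nat_lit 5) (nat_lit 62) (nat_lit 3) r0_62 r4_3 (nat_lit 0) (nat_lit 14357593) (nat_lit 0) (nat_lit 0x20073225b0) (nat_lit 2155067741),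
  Rx.mk (nat_lit 211) (nat_lit 3) (nat_lit 2) (nat_lit 3) (nat_lit 7) (nat_lit 56) (nat_lit 11) r0_56 r4_11 (nat_lit 0) (nat_lit 0) (nat_lit 0) (nat_lit 0x200b2fd50e) (nat_lit 2136456398),
  Rx.mk (nat_lit 223) (nat_lit 7) (nat_lit 3) (nat_lit 3) (nat_lit 7) (nat_lit 63) (nat_lit 4) r0_63 r4_4 (nat_lit 0) (nat_lit 0) (nat_lit 0) (nat_lit 0x201be52be2) (nat_lit 2118602698),
  Rx.mk (nat_lit 318) (nat_lit 6) (nat_lit 7) (nat_lit 4) (nat_lit 3) (nat_lit 59) (nat_lit 5) r0_59 r4_5 (nat_lit 0) (nat_lit 0) (nat_lit 377222843) (nat_lit 0x1fa5877f7c) (nat_lit 2623806591),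
  Rx.mk (nat_lit 446) (nat_lit 6) (nat_lit 7) (nat_lit 6) (nat_lit 7) (nat_lit 60) (nat_lit 7) r0_60 r4_7 (nat_lit 0) (nat_lit 0) (nat_lit 0) (nat_lit 0x1feb1c0b0c) (nat_lit 2171020348),
  Rx.mk (nat_lit 476) (nat_lit 4) (nat_lit 3) (nat_lit 7) (nat_lit 6) (nat_lit 57) (nat_lit 1) r0_57 r4_1 (nat_lit 25610096) (nat_lit 0) (nat_lit 0) (nat_lit 0x1fa1c5f8f0) (nat_lit 2276387244),
  Rx.mk (nat_lit 479) (nat_lit 7) (nat_lit 3) (nat_lit 7) (nat_lit 7) (nat_lit 64) (nat_lit 2) r0_64 r4_2 (nat_lit 0) (nat_lit 0) (nat_lit 0) (nat_lit 0x2019baf5ea) (nat_lit 2120890398),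
  Rx.mk (nat_lit 508) (nat_lit 4) (nat_lit 7) (nat_lit 7) (nat_lit 6) (nat_lit 58) (nat_lit 0) r0_58 r4_0 (nat_lit 240284) (nat_lit 0) (nat_lit 0) (nat_lit 0x1ac7316714) (nat_lit 3604123732),
  Rx.mk (nat_lit 510) (nat_lit 6) (nat_lit 7) (nat_lit 7) (nat_lit 7) (nat_lit 61) (nat_lit 6) r0_61 r4_6 (nat_lit 0) (nat_lit 0) (nat_lit 0) (nat_lit 0x1ffa6263f4) (nat_lit 2154445148)]
noncomputable def e37_52 : List Rx := [
  Rx.mk (nat_lit 195) (nat_lit 3) (nat_lit 0) (nat_lit 3) (nat_lit 5) (nat_lit 65) (nat_lit 4) r0_65 r5_4 (nat_lit 0) (nat_lit 9043971) (nat_lit 0) (nat_lit 0x1f10a8a7fa) (nat_lit 2417939669),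
  Rx.mk (nat_lit 199) (nat_lit 7) (nat_lit 0) (nat_lit 3) (nat_lit 5) (nat_lit 68) (nat_lit 3) r0_68 r5_3 (nat_lit 0) (nat_lit 6870395) (nat_lit 0) (nat_lit 0x1fad06131c) (nat_lit 2245263143),
  Rx.mk (nat_lit 211) (nat_lit 3) (nat_lit 2) (nat_lit 3) (nat_lit 7) (nat_lit 66) (nat_lit 5) r0_66 r5_5 (nat_lit 0) (nat_lit 0) (nat_lit 0) (nat_lit 0x1ff558b91c) (nat_lit 2159948448),
  Rx.mk (nat_lit 455) (nat_lit 7) (nat_lit 0) (nat_lit 7) (nat_lit 5) (nat_lit 69) (nat_lit 1) r0_69 r5_1 (nat_lit 0) (nat_lit 4015658) (nat_lit 0) (nat_lit 0x1f80388130) (nat_lit 2291139706),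
  Rx.mk (nat_lit 476) (nat_lit 4) (nat_lit 3) (nat_lit 7) (nat_lit 6) (nat_lit 67) (nat_lit 0) r0_67 r5_0 (nat_lit 5023616) (nat_lit 0) (nat_lit 0) (nat_lit 0x1fcf4963b6) (nat_lit 2206060714),
  Rx.mk (nat_lit 479) (nat_lit 7) (nat_lit 3) (nat_lit 7) (nat_lit 7) (nat_lit 70) (nat_lit 2) r0_70 r5_2 (nat_lit 0) (nat_lit 0) (nat_lit 0) (nat_lit 0x1fbd392d3c) (nat_lit 2220843648)]
noncomputable def e37_53 : List Rx := [
  Rx.mk (nat_lit 3) (nat_lit 3) (nat_lit 0) (nat_lit 0) (nat_lit 1) (nat_lit 142) (nat_lit 93) r0_142 r4_93 (nat_lit 0) (nat_lit 13521) (nat_lit 584415283) (nat_lit 0x177c6cbc18) (nat_lit 5106410752),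
  Rx.mk (nat_lit 19) (nat_lit 3) (nat_lit 2) (nat_lit 0) (nat_lit 3) (nat_lit 143) (nat_lit 95) r0_143 r4_95 (nat_lit 0) (nat_lit 0) (nat_lit 797087088) (nat_lit 0x208a696d12) (nat_lit 2798084686),
  Rx.mk (nat_lit 147) (nat_lit 3) (nat_lit 2) (nat_lit 2) (nat_lit 7) (nat_lit 144) (nat_lit 97) r0_144 r4_97 (nat_lit 0) (nat_lit 0) (nat_lit 0) (nat_lit 0x2000c8a456) (nat_lit 2147637498),
  Rx.mk (nat_lit 195) (nat_lit 3) (nat_lit 0) (nat_lit 3) (nat_lit 5) (nat_lit 145) (nat_lit 94) r0_145 r4_94 (nat_lit 0) (nat_lit 18823017) (nat_lit 0) (nat_lit 0x1ff87f2cde) (nat_lit 2175355815),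
  Rx.mk (nat_lit 211) (nat_lit 3) (nat_lit 2) (nat_lit 3) (nat_lit 7) (nat_lit 146) (nat_lit 96) r0_146 r4_96 (nat_lit 0) (nat_lit 0) (nat_lit 0) (nat_lit 0x2021a6b00a) (nat_lit 2112456498)]
noncomputable def e37_54 : List Rx := [
  Rx.mk (nat_lit 3) (nat_lit 3) (nat_lit 0) (nat_lit 0) (nat_lit 1) (nat_lit 147) (nat_lit 0) r0_147 r10_0 (nat_lit 0) (nat_lit 262045) (nat_lit 1138904) (nat_lit 0x1a96d85a00) (nat_lit 3657986597),
  Rx.mk (nat_lit 19) (nat_lit 3) (nat_lit 2) (nat_lit 0) (nat_lit 3) (nat_lit 148) (nat_lit 1) r0_148 r10_1 (nat_lit 0) (nat_lit 0) (nat_lit 338475005) (nat_lit 0x1fe001c108) (nat_lit 2521532953),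
  Rx.mk (nat_lit 147) (nat_lit 3) (nat_lit 2) (nat_lit 2) (nat_lit 7) (nat_lit 149) (nat_lit 4) r0_149 r10_4 (nat_lit 0) (nat_lit 0) (nat_lit 0) (nat_lit 0x1fdff99294) (nat_lit 2183098448),
  Rx.mk (nat_lit 195) (nat_lit 3) (nat_lit 0) (nat_lit 3) (nat_lit 5) (nat_lit 150) (nat_lit 2) r0_150 r10_2 (nat_lit 0) (nat_lit 45719485) (nat_lit 0) (nat_lit 0x1daaf8a9d8) (nat_lit 2844142233),
  Rx.mk (nat_lit 211) (nat_lit 3) (nat_lit 2) (nat_lit 3) (nat_lit 7) (nat_lit 151) (nat_lit 3) r0_151 r10_3 (nat_lit 0) (nat_lit 0) (nat_lit 0) (nat_lit 0x1ff4aead0a) (nat_lit 2160688798)]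
noncomputable def e37_55 : List Rx := [
  Rx.mk (nat_lit 195) (nat_lit 3) (nat_lit 0) (nat_lit 3) (nat_lit 5) (nat_lit 152) (nat_lit 0) r0_152 r11_0 (nat_lit 0) (nat_lit 48603275) (nat_lit 0) (nat_lit 0x1fd6bf4ae8) (nat_lit 2241700223),
  Rx.mk (nat_lit 211) (nat_lit 3) (nat_lit 2) (nat_lit 3) (nat_lit 7) (nat_lit 153) (nat_lit 1) r0_153 r11_1 (nat_lit 0) (nat_lit 0) (nat_lit 0) (nat_lit 0x20067c0c94) (nat_lit 2141514348)]
noncomputable def e37_56 : List Rx := [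
  Rx.mk (nat_lit 3) (nat_lit 3) (nat_lit 0) (nat_lit 0) (nat_lit 1) (nat_lit 204) (nat_lit 94) r0_204 r5_94 (nat_lit 0) (nat_lit 152079) (nat_lit 2449785) (nat_lit 0x206a335292) (nat_lit 2037358062),
  Rx.mk (nat_lit 7) (nat_lit 7) (nat_lit 0) (nat_lit 0) (nat_lit 1) (nat_lit 209) (nat_lit 95) r0_209 r5_95 (nat_lit 0) (nat_lit 3084) (nat_lit 3543) (nat_lit 0x1fffe821e2) (nat_lit 2147592925),
  Rx.mk (nat_lit 19) (nat_lit 3) (nat_lit 2) (nat_lit 0) (nat_lit 3) (nat_lit 205) (nat_lit 100) r0_205 r5_100 (nat_lit 0) (nat_lit 0) (nat_lit 681694027) (nat_lit 0x1fc3079d52) (nat_lit 2896214325),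
  Rx.mk (nat_lit 147) (nat_lit 3) (nat_lit 2) (nat_lit 2) (nat_lit 7) (nat_lit 206) (nat_lit 101) r0_206 r5_101 (nat_lit 0) (nat_lit 0) (nat_lit 0) (nat_lit 0x1fe2b2faa2) (nat_lit 2180140898),
  Rx.mk (nat_lit 199) (nat_lit 7) (nat_lit 0) (nat_lit 3) (nat_lit 5) (nat_lit 210) (nat_lit 96) r0_210 r5_96 (nat_lit 0) (nat_lit 11067647) (nat_lit 0) (nat_lit 0x200a027f1a) (nat_lit 2148740545),
  Rx.mk (nat_lit 220) (nat_lit 4) (nat_lit 3) (nat_lit 3) (nat_lit 6) (nat_lit 207) (nat_lit 97) r0_207 r5_97 (nat_lit 8862298) (nat_lit 0) (nat_lit 0) (nat_lit 0x1cbd542cfc) (nat_lit 3066097946),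
  Rx.mk (nat_lit 223) (nat_lit 7) (nat_lit 3) (nat_lit 3) (nat_lit 7) (nat_lit 211) (nat_lit 98) r0_211 r5_98 (nat_lit 0) (nat_lit 0) (nat_lit 0) (nat_lit 0x2000efab8c) (nat_lit 2147483648),
  Rx.mk (nat_lit 476) (nat_lit 4) (nat_lit 3) (nat_lit 7) (nat_lit 6) (nat_lit 208) (nat_lit 99) r0_208 r5_99 (nat_lit 14020635) (nat_lit 0) (nat_lit 0) (nat_lit 0x1e6d97f944) (nat_lit 2600362883)]
noncomputable def e37_57 : List Rx := [
  Rx.mk (nat_lit 3) (nat_lit 3) (nat_lit 0) (nat_lit 0) (nat_lit 1) (nat_lit 212) (nat_lit 91) r0_212 r11_91 (nat_lit 0) (nat_lit 15579271) (nat_lit 780504845) (nat_lit 0x1f8dad26d6) (nat_lit 3068659914),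
  Rx.mk (nat_lit 7) (nat_lit 7) (nat_lit 0) (nat_lit 0) (nat_lit 1) (nat_lit 219) (nat_lit 92) r0_219 r11_92 (nat_lit 0) (nat_lit 3472685) (nat_lit 3368670) (nat_lit 0x1cedbdefae) (nat_lit 3011201853),
  Rx.mk (nat_lit 19) (nat_lit 3) (nat_lit 2) (nat_lit 0) (nat_lit 3) (nat_lit 213) (nat_lit 97) r0_213 r11_97 (nat_lit 0) (nat_lit 0) (nat_lit 334762896) (nat_lit 0x1fea0d66a2) (nat_lit 2507008394),
  Rx.mk (nat_lit 147) (nat_lit 3) (nat_lit 2) (nat_lit 2) (nat_lit 7) (nat_lit 214) (nat_lit 98) r0_214 r11_98 (nat_lit 0) (nat_lit 0) (nat_lit 0) (nat_lit 0x20205f5378) (nat_lit 2113776548),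
  Rx.mk (nat_lit 199) (nat_lit 7) (nat_lit 0) (nat_lit 3) (nat_lit 5) (nat_lit 220) (nat_lit 93) r0_220 r11_93 (nat_lit 0) (nat_lit 20559212) (nat_lit 0) (nat_lit 0x2019697d32) (nat_lit 2141803110),
  Rx.mk (nat_lit 220) (nat_lit 4) (nat_lit 3) (nat_lit 3) (nat_lit 6) (nat_lit 215) (nat_lit 94) r0_215 r11_94 (nat_lit 15591372) (nat_lit 0) (nat_lit 0) (nat_lit 0x1fcf2f6812) (nat_lit 2216874370),
  Rx.mk (nat_lit 223) (nat_lit 7) (nat_lit 3) (nat_lit 3) (nat_lit 7) (nat_lit 221) (nat_lit 95) r0_221 r11_95 (nat_lit 0) (nat_lit 0) (nat_lit 0) (nat_lit 0x200e89d2fe) (nat_lit 2132889398),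
  Rx.mk (nat_lit 476) (nat_lit 4) (nat_lit 3) (nat_lit 7) (nat_lit 6) (nat_lit 216) (nat_lit 96) r0_216 r11_96 (nat_lit 15731749) (nat_lit 0) (nat_lit 0) (nat_lit 0x202174caea) (nat_lit 2128376747),
  Rx.mk (nat_lit 508) (nat_lit 4) (nat_lit 7) (nat_lit 7) (nat_lit 6) (nat_lit 217) (nat_lit 99) r0_217 r11_99 (nat_lit 14314335) (nat_lit 0) (nat_lit 0) (nat_lit 0x1d4d782284) (nat_lit 2914535483),
  Rx.mk (nat_lit 510) (nat_lit 6) (nat_lit 7) (nat_lit 7) (nat_lit 7) (nat_lit 218) (nat_lit 100) r0_218 r11_100 (nat_lit 0) (nat_lit 0) (nat_lit 0) (nat_lit 0x202403ff74) (nat_lit 2109880248)]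
noncomputable def e37 : List (List Rx) := [e37_0, e37_1, e37_2, e37_3, e37_4, e37_5, e37_6, e37_7, e37_8, e37_9, e37_10, e37_11, e37_12, e37_13, e37_14, e37_15, e37_16, e37_17, e37_18, e37_19, e37_20, e37_21, e37_22, e37_23, e37_24, e37_25, e37_26, e37_27, e37_28, e37_29, e37_30, e37_31, e37_32, e37_33, e37_34, e37_35, e37_36, e37_37, e37_38, e37_39, e37_40, e37_41, e37_42, e37_43, e37_44, e37_45, e37_46, e37_47, e37_48, e37_49, e37_50, e37_51, e37_52, e37_53, e37_54, e37_55, e37_56, e37_57]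
noncomputable def e38_0 : List Rx := [
  Rx.mk (nat_lit 5) (nat_lit 5) (nat_lit 0) (nat_lit 0) (nat_lit 1) (nat_lit 171) (nat_lit 248) r0_171 r0_248 (nat_lit 0) (nat_lit 2877740417) (nat_lit 422) (nat_lit 0x2000025918) (nat_lit 5025214887),
  Rx.mk (nat_lit 69) (nat_lit 5) (nat_lit 0) (nat_lit 1) (nat_lit 5) (nat_lit 172) (nat_lit 249) r0_172 r0_249 (nat_lit 0) (nat_lit 1609807934) (nat_lit 0) (nat_lit 0x1e784939b6) (nat_lit 4184525532)]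
noncomputable def e38_1 : List Rx := [
  Rx.mk (nat_lit 69) (nat_lit 5) (nat_lit 0) (nat_lit 1) (nat_lit 5) (nat_lit 173) (nat_lit 255) r0_173 r1_255 (nat_lit 0) (nat_lit 555792281) (nat_lit 0) (nat_lit 0x1fe0102158) (nat_lit 2738758229)]
noncomputable def e38_2 : List Rx := [
  Rx.mk (nat_lit 69) (nat_lit 5) (nat_lit 0) (nat_lit 1) (nat_lit 5) (nat_lit 286) (nat_lit 280) r0_286 r2_280 (nat_lit 0) (nat_lit 584857788) (nat_lit 0) (nat_lit 0x1f8286a8c2) (nat_lit 2869583386),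
  Rx.mk (nat_lit 77) (nat_lit 5) (nat_lit 1) (nat_lit 1) (nat_lit 7) (nat_lit 288) (nat_lit 282) r0_288 r2_282 (nat_lit 0) (nat_lit 0) (nat_lit 0) (nat_lit 0x1fed00a78e) (nat_lit 2168993998),
  Rx.mk (nat_lit 325) (nat_lit 5) (nat_lit 0) (nat_lit 5) (nat_lit 5) (nat_lit 285) (nat_lit 281) r0_285 r2_281 (nat_lit 0) (nat_lit 986109084) (nat_lit 0) (nat_lit 0x1dea0cabe2) (nat_lit 3715784482),
  Rx.mk (nat_lit 333) (nat_lit 5) (nat_lit 1) (nat_lit 5) (nat_lit 7) (nat_lit 287) (nat_lit 283) r0_287 r2_283 (nat_lit 0) (nat_lit 0) (nat_lit 0) (nat_lit 0x2000efab8c) (nat_lit 2147483648)]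
noncomputable def e38_3 : List Rx := [
  Rx.mk (nat_lit 197) (nat_lit 5) (nat_lit 0) (nat_lit 3) (nat_lit 5) (nat_lit 71) (nat_lit 249) r0_71 r3_249 (nat_lit 0) (nat_lit 320) (nat_lit 0) (nat_lit 0x2000035fa2) (nat_lit 2147470018)]
noncomputable def e38_4 : List Rx := [
  Rx.mk (nat_lit 5) (nat_lit 5) (nat_lit 0) (nat_lit 0) (nat_lit 1) (nat_lit 174) (nat_lit 262) r0_174 r4_262 (nat_lit 0) (nat_lit 1533124982) (nat_lit 66964) (nat_lit 0x1e8debd5bc) (nat_lit 4083866094),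
  Rx.mk (nat_lit 69) (nat_lit 5) (nat_lit 0) (nat_lit 1) (nat_lit 5) (nat_lit 175) (nat_lit 263) r0_175 r4_263 (nat_lit 0) (nat_lit 154395515) (nat_lit 0) (nat_lit 0x1fe15133e0) (nat_lit 2335967163),
  Rx.mk (nat_lit 197) (nat_lit 5) (nat_lit 0) (nat_lit 3) (nat_lit 5) (nat_lit 176) (nat_lit 264) r0_176 r4_264 (nat_lit 0) (nat_lit 1408666374) (nat_lit 0) (nat_lit 0x18f64197e2) (nat_lit 5519067172)]
noncomputable def e38_5 : List Rx := [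
  Rx.mk (nat_lit 197) (nat_lit 5) (nat_lit 0) (nat_lit 3) (nat_lit 5) (nat_lit 224) (nat_lit 255) r0_224 r5_255 (nat_lit 0) (nat_lit 626395478) (nat_lit 0) (nat_lit 0x2000005ef6) (nat_lit 2773878076)]
noncomputable def e38_6 : List Rx := [
  Rx.mk (nat_lit 261) (nat_lit 5) (nat_lit 0) (nat_lit 4) (nat_lit 1) (nat_lit 300) (nat_lit 243) r0_300 r3_243 (nat_lit 0) (nat_lit 383) (nat_lit 155) (nat_lit 0x200001900a) (nat_lit 2147477736),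
  Rx.mk (nat_lit 268) (nat_lit 4) (nat_lit 1) (nat_lit 4) (nat_lit 2) (nat_lit 302) (nat_lit 245) r0_302 r3_245 (nat_lit 389) (nat_lit 0) (nat_lit 874) (nat_lit 0x1f7e3b0d62) (nat_lit 2288859561),
  Rx.mk (nat_lit 269) (nat_lit 5) (nat_lit 1) (nat_lit 4) (nat_lit 3) (nat_lit 303) (nat_lit 247) r0_303 r3_247 (nat_lit 0) (nat_lit 0) (nat_lit 283645) (nat_lit 0x1f309166e2) (nat_lit 2373769543),
  Rx.mk (nat_lit 453) (nat_lit 5) (nat_lit 0) (nat_lit 7) (nat_lit 5) (nat_lit 301) (nat_lit 244) r0_301 r3_244 (nat_lit 0) (nat_lit 34591) (nat_lit 0) (nat_lit 0x1f7dd3835e) (nat_lit 2289337389),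
  Rx.mk (nat_lit 460) (nat_lit 4) (nat_lit 1) (nat_lit 7) (nat_lit 6) (nat_lit 304) (nat_lit 246) r0_304 r3_246 (nat_lit 3395765) (nat_lit 0) (nat_lit 0) (nat_lit 0x1f0c6c1b18) (nat_lit 2416554513),
  Rx.mk (nat_lit 461) (nat_lit 5) (nat_lit 1) (nat_lit 7) (nat_lit 7) (nat_lit 305) (nat_lit 248) r0_305 r3_248 (nat_lit 0) (nat_lit 0) (nat_lit 0) (nat_lit 0x201d869ecc) (nat_lit 2116710248)]
noncomputable def e38_7 : List Rx := [
  Rx.mk (nat_lit 268) (nat_lit 4) (nat_lit 1) (nat_lit 4) (nat_lit 2) (nat_lit 244) (nat_lit 244) r0_244 r0_244 (nat_lit 54781818) (nat_lit 0) (nat_lit 54781818) (nat_lit 0x19d2a84fbe) (nat_lit 3980215634),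
  Rx.mk (nat_lit 269) (nat_lit 5) (nat_lit 1) (nat_lit 4) (nat_lit 3) (nat_lit 245) (nat_lit 246) r0_245 r0_246 (nat_lit 0) (nat_lit 0) (nat_lit 15527228) (nat_lit 0x1d4ead624a) (nat_lit 2914472826),
  Rx.mk (nat_lit 325) (nat_lit 5) (nat_lit 0) (nat_lit 5) (nat_lit 5) (nat_lit 243) (nat_lit 243) r0_243 r0_243 (nat_lit 0) (nat_lit 2106888265) (nat_lit 0) (nat_lit 0x200af5d1d8) (nat_lit 4242734813),
  Rx.mk (nat_lit 332) (nat_lit 4) (nat_lit 1) (nat_lit 5) (nat_lit 6) (nat_lit 246) (nat_lit 245) r0_246 r0_245 (nat_lit 15527228) (nat_lit 0) (nat_lit 0) (nat_lit 0x1d4ead624a) (nat_lit 2914472826),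
  Rx.mk (nat_lit 333) (nat_lit 5) (nat_lit 1) (nat_lit 5) (nat_lit 7) (nat_lit 247) (nat_lit 247) r0_247 r0_247 (nat_lit 0) (nat_lit 0) (nat_lit 0) (nat_lit 0x1fd1f2a7da) (nat_lit 2198310498)]
noncomputable def e38_8 : List Rx := [
  Rx.mk (nat_lit 325) (nat_lit 5) (nat_lit 0) (nat_lit 5) (nat_lit 5) (nat_lit 282) (nat_lit 252) r0_282 r1_252 (nat_lit 0) (nat_lit 2390923576) (nat_lit 0) (nat_lit 0x1fffff54de) (nat_lit 4538411474),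
  Rx.mk (nat_lit 332) (nat_lit 4) (nat_lit 1) (nat_lit 5) (nat_lit 6) (nat_lit 283) (nat_lit 253) r0_283 r1_253 (nat_lit 45119817) (nat_lit 0) (nat_lit 0) (nat_lit 0x1fb5c8be96) (nat_lit 2274073515),
  Rx.mk (nat_lit 333) (nat_lit 5) (nat_lit 1) (nat_lit 5) (nat_lit 7) (nat_lit 284) (nat_lit 254) r0_284 r1_254 (nat_lit 0) (nat_lit 0) (nat_lit 0) (nat_lit 0x1fece021a8) (nat_lit 2169107148)]
noncomputable def e38_9 : List Rx := [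
  Rx.mk (nat_lit 261) (nat_lit 5) (nat_lit 0) (nat_lit 4) (nat_lit 1) (nat_lit 306) (nat_lit 253) r0_306 r4_253 (nat_lit 0) (nat_lit 291920685) (nat_lit 15162375) (nat_lit 0x1e916535bc) (nat_lit 2854513508),
  Rx.mk (nat_lit 268) (nat_lit 4) (nat_lit 1) (nat_lit 4) (nat_lit 2) (nat_lit 309) (nat_lit 256) r0_309 r4_256 (nat_lit 26838499) (nat_lit 0) (nat_lit 294663616) (nat_lit 0x1cdabdf85e) (nat_lit 3346728613),
  Rx.mk (nat_lit 269) (nat_lit 5) (nat_lit 1) (nat_lit 4) (nat_lit 3) (nat_lit 310) (nat_lit 259) r0_310 r4_259 (nat_lit 0) (nat_lit 0) (nat_lit 32637715) (nat_lit 0x1ffe6945e4) (nat_lit 2182809363),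
  Rx.mk (nat_lit 325) (nat_lit 5) (nat_lit 0) (nat_lit 5) (nat_lit 5) (nat_lit 307) (nat_lit 254) r0_307 r4_254 (nat_lit 0) (nat_lit 1478697491) (nat_lit 0) (nat_lit 0x1b916040aa) (nat_lit 4862457289),
  Rx.mk (nat_lit 332) (nat_lit 4) (nat_lit 1) (nat_lit 5) (nat_lit 6) (nat_lit 311) (nat_lit 257) r0_311 r4_257 (nat_lit 43818815) (nat_lit 0) (nat_lit 0) (nat_lit 0x1ffa9c45ce) (nat_lit 2198104813),
  Rx.mk (nat_lit 333) (nat_lit 5) (nat_lit 1) (nat_lit 5) (nat_lit 7) (nat_lit 312) (nat_lit 260) r0_312 r4_260 (nat_lit 0) (nat_lit 0) (nat_lit 0) (nat_lit 0x20125a86ee) (nat_lit 2128797898),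
  Rx.mk (nat_lit 453) (nat_lit 5) (nat_lit 0) (nat_lit 7) (nat_lit 5) (nat_lit 308) (nat_lit 255) r0_308 r4_255 (nat_lit 0) (nat_lit 39267561) (nat_lit 0) (nat_lit 0x2021d713e4) (nat_lit 2151522509),
  Rx.mk (nat_lit 460) (nat_lit 4) (nat_lit 1) (nat_lit 7) (nat_lit 6) (nat_lit 313) (nat_lit 258) r0_313 r4_258 (nat_lit 22623974) (nat_lit 0) (nat_lit 0) (nat_lit 0x200cc3314a) (nat_lit 2157397672),
  Rx.mk (nat_lit 461) (nat_lit 5) (nat_lit 1) (nat_lit 7) (nat_lit 7) (nat_lit 314) (nat_lit 261) r0_314 r4_261 (nat_lit 0) (nat_lit 0) (nat_lit 0) (nat_lit 0x2000efab8c) (nat_lit 2147483648)]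
noncomputable def e38_10 : List Rx := [
  Rx.mk (nat_lit 197) (nat_lit 5) (nat_lit 0) (nat_lit 3) (nat_lit 5) (nat_lit 223) (nat_lit 278) r0_223 r6_278 (nat_lit 0) (nat_lit 103259688) (nat_lit 0) (nat_lit 0x1fe7bb2056) (nat_lit 2277788286),
  Rx.mk (nat_lit 453) (nat_lit 5) (nat_lit 0) (nat_lit 7) (nat_lit 5) (nat_lit 222) (nat_lit 279) r0_222 r6_279 (nat_lit 0) (nat_lit 11036) (nat_lit 0) (nat_lit 0x23825bcba8) (nat_lit 1193574884)]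
noncomputable def e38_11 : List Rx := [
  Rx.mk (nat_lit 453) (nat_lit 5) (nat_lit 0) (nat_lit 7) (nat_lit 5) (nat_lit 315) (nat_lit 252) r0_315 r5_252 (nat_lit 0) (nat_lit 14169320) (nat_lit 0) (nat_lit 0x2011405b94) (nat_lit 2143991268),
  Rx.mk (nat_lit 460) (nat_lit 4) (nat_lit 1) (nat_lit 7) (nat_lit 6) (nat_lit 316) (nat_lit 253) r0_316 r5_253 (nat_lit 10230116) (nat_lit 0) (nat_lit 0) (nat_lit 0x1ffc891754) (nat_lit 2162378464),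
  Rx.mk (nat_lit 461) (nat_lit 5) (nat_lit 1) (nat_lit 7) (nat_lit 7) (nat_lit 317) (nat_lit 254) r0_317 r5_254 (nat_lit 0) (nat_lit 0) (nat_lit 0) (nat_lit 0x21e14b5fd6) (nat_lit 1636891998)]
noncomputable def e38_12 : List Rx := [
  Rx.mk (nat_lit 17) (nat_lit 1) (nat_lit 2) (nat_lit 0) (nat_lit 3) (nat_lit 73) (nat_lit 72) r0_73 r0_72 (nat_lit 0) (nat_lit 0) (nat_lit 17795932) (nat_lit 0x1e7d2cb02a) (nat_lit 2587150230),
  Rx.mk (nat_lit 193) (nat_lit 1) (nat_lit 0) (nat_lit 3) (nat_lit 5) (nat_lit 72) (nat_lit 73) r0_72 r0_73 (nat_lit 0) (nat_lit 17795932) (nat_lit 0) (nat_lit 0x1e7d2cb02a) (nat_lit 2587150230),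
  Rx.mk (nat_lit 209) (nat_lit 1) (nat_lit 2) (nat_lit 3) (nat_lit 7) (nat_lit 74) (nat_lit 74) r0_74 r0_74 (nat_lit 0) (nat_lit 0) (nat_lit 0) (nat_lit 0x2016fdec86) (nat_lit 2123809098)]
noncomputable def e38_13 : List Rx := [
  Rx.mk (nat_lit 1) (nat_lit 1) (nat_lit 0) (nat_lit 0) (nat_lit 1) (nat_lit 178) (nat_lit 319) r0_178 r7_319 (nat_lit 0) (nat_lit 394520) (nat_lit 13826) (nat_lit 0x1be69cc70a) (nat_lit 3291128944),
  Rx.mk (nat_lit 5) (nat_lit 5) (nat_lit 0) (nat_lit 0) (nat_lit 1) (nat_lit 177) (nat_lit 325) r0_177 r7_325 (nat_lit 0) (nat_lit 364323767) (nat_lit 70053) (nat_lit 0x1936d6e51e) (nat_lit 4404409418),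
  Rx.mk (nat_lit 17) (nat_lit 1) (nat_lit 2) (nat_lit 0) (nat_lit 3) (nat_lit 182) (nat_lit 322) r0_182 r7_322 (nat_lit 0) (nat_lit 0) (nat_lit 8222135) (nat_lit 0x20013cd0ec) (nat_lit 2155212183),
  Rx.mk (nat_lit 65) (nat_lit 1) (nat_lit 0) (nat_lit 1) (nat_lit 5) (nat_lit 180) (nat_lit 320) r0_180 r7_320 (nat_lit 0) (nat_lit 52001452) (nat_lit 0) (nat_lit 0x1e69666108) (nat_lit 2642941100),
  Rx.mk (nat_lit 69) (nat_lit 5) (nat_lit 0) (nat_lit 1) (nat_lit 5) (nat_lit 179) (nat_lit 326) r0_179 r7_326 (nat_lit 0) (nat_lit 2076918) (nat_lit 0) (nat_lit 0x16b9749910) (nat_lit 4736536266),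
  Rx.mk (nat_lit 81) (nat_lit 1) (nat_lit 2) (nat_lit 1) (nat_lit 7) (nat_lit 183) (nat_lit 323) r0_183 r7_323 (nat_lit 0) (nat_lit 0) (nat_lit 0) (nat_lit 0x201d3442b2) (nat_lit 2117185098),
  Rx.mk (nat_lit 193) (nat_lit 1) (nat_lit 0) (nat_lit 3) (nat_lit 5) (nat_lit 181) (nat_lit 321) r0_181 r7_321 (nat_lit 0) (nat_lit 1259355059) (nat_lit 0) (nat_lit 0x20beee895a) (nat_lit 3204160657),
  Rx.mk (nat_lit 209) (nat_lit 1) (nat_lit 2) (nat_lit 3) (nat_lit 7) (nat_lit 184) (nat_lit 324) r0_184 r7_324 (nat_lit 0) (nat_lit 0) (nat_lit 0) (nat_lit 0x203183aa1e) (nat_lit 2095553398)]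
noncomputable def e38_14 : List Rx := [
  Rx.mk (nat_lit 17) (nat_lit 1) (nat_lit 2) (nat_lit 0) (nat_lit 3) (nat_lit 76) (nat_lit 69) r0_76 r1_69 (nat_lit 0) (nat_lit 0) (nat_lit 26835322) (nat_lit 0x1fe96494b4) (nat_lit 2199705370),
  Rx.mk (nat_lit 145) (nat_lit 1) (nat_lit 2) (nat_lit 2) (nat_lit 7) (nat_lit 77) (nat_lit 72) r0_77 r1_72 (nat_lit 0) (nat_lit 0) (nat_lit 0) (nat_lit 0x1ff271916a) (nat_lit 2163096198),
  Rx.mk (nat_lit 193) (nat_lit 1) (nat_lit 0) (nat_lit 3) (nat_lit 5) (nat_lit 75) (nat_lit 70) r0_75 r1_70 (nat_lit 0) (nat_lit 11563267) (nat_lit 0) (nat_lit 0x202620f76c) (nat_lit 2119181415),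
  Rx.mk (nat_lit 209) (nat_lit 1) (nat_lit 2) (nat_lit 3) (nat_lit 7) (nat_lit 78) (nat_lit 71) r0_78 r1_71 (nat_lit 0) (nat_lit 0) (nat_lit 0) (nat_lit 0x21dc6a04a4) (nat_lit 1642099848)]
noncomputable def e38_15 : List Rx := [
  Rx.mk (nat_lit 1) (nat_lit 1) (nat_lit 0) (nat_lit 0) (nat_lit 1) (nat_lit 188) (nat_lit 241) r0_188 r8_241 (nat_lit 0) (nat_lit 134688878) (nat_lit 16981321) (nat_lit 0x1910184f12) (nat_lit 4234336497),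
  Rx.mk (nat_lit 17) (nat_lit 1) (nat_lit 2) (nat_lit 0) (nat_lit 3) (nat_lit 191) (nat_lit 244) r0_191 r8_244 (nat_lit 0) (nat_lit 0) (nat_lit 25551595) (nat_lit 0x1febb7003a) (nat_lit 2195908193),
  Rx.mk (nat_lit 65) (nat_lit 1) (nat_lit 0) (nat_lit 1) (nat_lit 5) (nat_lit 189) (nat_lit 242) r0_189 r8_242 (nat_lit 0) (nat_lit 25858598) (nat_lit 0) (nat_lit 0x1fc8152652) (nat_lit 2234886196),
  Rx.mk (nat_lit 81) (nat_lit 1) (nat_lit 2) (nat_lit 1) (nat_lit 7) (nat_lit 192) (nat_lit 245) r0_192 r8_245 (nat_lit 0) (nat_lit 0) (nat_lit 0) (nat_lit 0x2000efab8c) (nat_lit 2147483648),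
  Rx.mk (nat_lit 145) (nat_lit 1) (nat_lit 2) (nat_lit 2) (nat_lit 7) (nat_lit 193) (nat_lit 247) r0_193 r8_247 (nat_lit 0) (nat_lit 0) (nat_lit 0) (nat_lit 0x1ff886e3b6) (nat_lit 2156539498),
  Rx.mk (nat_lit 193) (nat_lit 1) (nat_lit 0) (nat_lit 3) (nat_lit 5) (nat_lit 190) (nat_lit 243) r0_190 r8_243 (nat_lit 0) (nat_lit 891972013) (nat_lit 0) (nat_lit 0x1ff12e5ad6) (nat_lit 3056376711),
  Rx.mk (nat_lit 209) (nat_lit 1) (nat_lit 2) (nat_lit 3) (nat_lit 7) (nat_lit 194) (nat_lit 246) r0_194 r8_246 (nat_lit 0) (nat_lit 0) (nat_lit 0) (nat_lit 0x2000efab8c) (nat_lit 2147483648)]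
noncomputable def e38_16 : List Rx := [
  Rx.mk (nat_lit 65) (nat_lit 1) (nat_lit 0) (nat_lit 1) (nat_lit 5) (nat_lit 186) (nat_lit 64) r0_186 r8_64 (nat_lit 0) (nat_lit 40854578) (nat_lit 0) (nat_lit 0x1f671d7930) (nat_lit 2355441226),
  Rx.mk (nat_lit 69) (nat_lit 5) (nat_lit 0) (nat_lit 1) (nat_lit 5) (nat_lit 185) (nat_lit 63) r0_185 r8_63 (nat_lit 0) (nat_lit 39970022) (nat_lit 0) (nat_lit 0x1e21cd06d0) (nat_lit 2708909070),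
  Rx.mk (nat_lit 81) (nat_lit 1) (nat_lit 2) (nat_lit 1) (nat_lit 7) (nat_lit 187) (nat_lit 65) r0_187 r8_65 (nat_lit 0) (nat_lit 0) (nat_lit 0) (nat_lit 0x201a746ebc) (nat_lit 2120137948)]
noncomputable def e38_17 : List Rx := [
  Rx.mk (nat_lit 65) (nat_lit 1) (nat_lit 0) (nat_lit 1) (nat_lit 5) (nat_lit 295) (nat_lit 250) r0_295 r9_250 (nat_lit 0) (nat_lit 39267561) (nat_lit 0) (nat_lit 0x1ff330fa5a) (nat_lit 2201561359),
  Rx.mk (nat_lit 69) (nat_lit 5) (nat_lit 0) (nat_lit 1) (nat_lit 5) (nat_lit 294) (nat_lit 253) r0_294 r9_253 (nat_lit 0) (nat_lit 72389406) (nat_lit 0) (nat_lit 0x1fbef9dc0c) (nat_lit 2291344854),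
  Rx.mk (nat_lit 73) (nat_lit 1) (nat_lit 1) (nat_lit 1) (nat_lit 7) (nat_lit 298) (nat_lit 251) r0_298 r9_251 (nat_lit 0) (nat_lit 0) (nat_lit 0) (nat_lit 0x2000efab8c) (nat_lit 2147483648),
  Rx.mk (nat_lit 77) (nat_lit 5) (nat_lit 1) (nat_lit 1) (nat_lit 7) (nat_lit 297) (nat_lit 255) r0_297 r9_255 (nat_lit 0) (nat_lit 0) (nat_lit 0) (nat_lit 0x2000efab8c) (nat_lit 2147483648),
  Rx.mk (nat_lit 81) (nat_lit 1) (nat_lit 2) (nat_lit 1) (nat_lit 7) (nat_lit 299) (nat_lit 252) r0_299 r9_252 (nat_lit 0) (nat_lit 0) (nat_lit 0) (nat_lit 0x2000efab8c) (nat_lit 2147483648),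
  Rx.mk (nat_lit 325) (nat_lit 5) (nat_lit 0) (nat_lit 5) (nat_lit 5) (nat_lit 293) (nat_lit 254) r0_293 r9_254 (nat_lit 0) (nat_lit 56312438) (nat_lit 0) (nat_lit 0x1eb380c710) (nat_lit 2566555586),
  Rx.mk (nat_lit 333) (nat_lit 5) (nat_lit 1) (nat_lit 5) (nat_lit 7) (nat_lit 296) (nat_lit 256) r0_296 r9_256 (nat_lit 0) (nat_lit 0) (nat_lit 0) (nat_lit 0x2000efab8c) (nat_lit 2147483648)]
noncomputable def e38_18 : List Rx := [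
  Rx.mk (nat_lit 193) (nat_lit 1) (nat_lit 0) (nat_lit 3) (nat_lit 5) (nat_lit 80) (nat_lit 69) r0_80 r4_69 (nat_lit 0) (nat_lit 11856797) (nat_lit 0) (nat_lit 0x1f36ac2e54) (nat_lit 2379133345),
  Rx.mk (nat_lit 197) (nat_lit 5) (nat_lit 0) (nat_lit 3) (nat_lit 5) (nat_lit 79) (nat_lit 68) r0_79 r4_68 (nat_lit 0) (nat_lit 346379) (nat_lit 0) (nat_lit 0x1785b5c58a) (nat_lit 4512244877),
  Rx.mk (nat_lit 209) (nat_lit 1) (nat_lit 2) (nat_lit 3) (nat_lit 7) (nat_lit 81) (nat_lit 70) r0_81 r4_70 (nat_lit 0) (nat_lit 0) (nat_lit 0) (nat_lit 0x1de36764f8) (nat_lit 2736761248)]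
noncomputable def e38_19 : List Rx := [
  Rx.mk (nat_lit 5) (nat_lit 5) (nat_lit 0) (nat_lit 0) (nat_lit 1) (nat_lit 195) (nat_lit 281) r0_195 r10_281 (nat_lit 0) (nat_lit 2403529) (nat_lit 730716) (nat_lit 0x177a59ac38) (nat_lit 4527539093),
  Rx.mk (nat_lit 69) (nat_lit 5) (nat_lit 0) (nat_lit 1) (nat_lit 5) (nat_lit 196) (nat_lit 282) r0_196 r10_282 (nat_lit 0) (nat_lit 11731241) (nat_lit 0) (nat_lit 0x1bb23ede62) (nat_lit 3359930739),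
  Rx.mk (nat_lit 193) (nat_lit 1) (nat_lit 0) (nat_lit 3) (nat_lit 5) (nat_lit 198) (nat_lit 279) r0_198 r10_279 (nat_lit 0) (nat_lit 1104418901) (nat_lit 0) (nat_lit 0x22cccfca64) (nat_lit 2490955749),
  Rx.mk (nat_lit 197) (nat_lit 5) (nat_lit 0) (nat_lit 3) (nat_lit 5) (nat_lit 197) (nat_lit 283) r0_197 r10_283 (nat_lit 0) (nat_lit 1273131673) (nat_lit 0) (nat_lit 0x202b13f47c) (nat_lit 3375334421),
  Rx.mk (nat_lit 209) (nat_lit 1) (nat_lit 2) (nat_lit 3) (nat_lit 7) (nat_lit 199) (nat_lit 280) r0_199 r10_280 (nat_lit 0) (nat_lit 0) (nat_lit 0) (nat_lit 0x2025e3696a) (nat_lit 2107940098)]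
noncomputable def e38_20 : List Rx := [
  Rx.mk (nat_lit 193) (nat_lit 1) (nat_lit 0) (nat_lit 3) (nat_lit 5) (nat_lit 226) (nat_lit 300) r0_226 r11_300 (nat_lit 0) (nat_lit 33373994) (nat_lit 0) (nat_lit 0x2027342142) (nat_lit 2139827192),
  Rx.mk (nat_lit 197) (nat_lit 5) (nat_lit 0) (nat_lit 3) (nat_lit 5) (nat_lit 225) (nat_lit 302) r0_225 r11_302 (nat_lit 0) (nat_lit 42064346) (nat_lit 0) (nat_lit 0x1e82c47ab8) (nat_lit 2605302794),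
  Rx.mk (nat_lit 209) (nat_lit 1) (nat_lit 2) (nat_lit 3) (nat_lit 7) (nat_lit 227) (nat_lit 301) r0_227 r11_301 (nat_lit 0) (nat_lit 0) (nat_lit 0) (nat_lit 0x203c4011c2) (nat_lit 2084060298)]
noncomputable def e38_21 : List Rx := [
  Rx.mk (nat_lit 77) (nat_lit 5) (nat_lit 1) (nat_lit 1) (nat_lit 7) (nat_lit 292) (nat_lit 249) r0_292 r9_249 (nat_lit 0) (nat_lit 0) (nat_lit 0) (nat_lit 0x2000efab8c) (nat_lit 2147483648),
  Rx.mk (nat_lit 333) (nat_lit 5) (nat_lit 1) (nat_lit 5) (nat_lit 7) (nat_lit 291) (nat_lit 248) r0_291 r9_248 (nat_lit 0) (nat_lit 0) (nat_lit 0) (nat_lit 0x2000efab8c) (nat_lit 2147483648)]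
noncomputable def e38_22 : List Rx := [
  Rx.mk (nat_lit 268) (nat_lit 4) (nat_lit 1) (nat_lit 4) (nat_lit 2) (nat_lit 248) (nat_lit 171) r0_248 r0_171 (nat_lit 422) (nat_lit 0) (nat_lit 2877740417) (nat_lit 0x2000025918) (nat_lit 5025214887),
  Rx.mk (nat_lit 269) (nat_lit 5) (nat_lit 1) (nat_lit 4) (nat_lit 3) (nat_lit 249) (nat_lit 172) r0_249 r0_172 (nat_lit 0) (nat_lit 0) (nat_lit 1609807934) (nat_lit 0x1e784939b6) (nat_lit 4184525532)]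
noncomputable def e38_23 : List Rx := [
  Rx.mk (nat_lit 268) (nat_lit 4) (nat_lit 1) (nat_lit 4) (nat_lit 2) (nat_lit 269) (nat_lit 179) r0_269 r1_179 (nat_lit 6436) (nat_lit 0) (nat_lit 3361702353) (nat_lit 0x20a63c7822) (nat_lit 5332676687),
  Rx.mk (nat_lit 269) (nat_lit 5) (nat_lit 1) (nat_lit 4) (nat_lit 3) (nat_lit 270) (nat_lit 181) r0_270 r1_181 (nat_lit 0) (nat_lit 0) (nat_lit 102192820) (nat_lit 0x1fd74b6780) (nat_lit 2294693068),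
  Rx.mk (nat_lit 300) (nat_lit 4) (nat_lit 5) (nat_lit 4) (nat_lit 2) (nat_lit 265) (nat_lit 180) r0_265 r1_180 (nat_lit 8815563) (nat_lit 0) (nat_lit 346192734) (nat_lit 0x1c1c0af0ce) (nat_lit 3587956995),
  Rx.mk (nat_lit 301) (nat_lit 5) (nat_lit 5) (nat_lit 4) (nat_lit 3) (nat_lit 266) (nat_lit 182) r0_266 r1_182 (nat_lit 0) (nat_lit 0) (nat_lit 95564869) (nat_lit 0x1fc56b59e4) (nat_lit 2307546017),
  Rx.mk (nat_lit 302) (nat_lit 6) (nat_lit 5) (nat_lit 4) (nat_lit 3) (nat_lit 267) (nat_lit 183) r0_267 r1_183 (nat_lit 0) (nat_lit 0) (nat_lit 1923198255) (nat_lit 0x22f6223c94) (nat_lit 3266126603),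
  Rx.mk (nat_lit 430) (nat_lit 6) (nat_lit 5) (nat_lit 6) (nat_lit 7) (nat_lit 268) (nat_lit 184) r0_268 r1_184 (nat_lit 0) (nat_lit 0) (nat_lit 0) (nat_lit 0x1fdfcf6dde) (nat_lit 2183239798)]
noncomputable def e38_24 : List Rx := [
  Rx.mk (nat_lit 268) (nat_lit 4) (nat_lit 1) (nat_lit 4) (nat_lit 2) (nat_lit 318) (nat_lit 155) r0_318 r4_155 (nat_lit 723582) (nat_lit 0) (nat_lit 598549210) (nat_lit 0x19bbf5fb36) (nat_lit 4494381490),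
  Rx.mk (nat_lit 269) (nat_lit 5) (nat_lit 1) (nat_lit 4) (nat_lit 3) (nat_lit 319) (nat_lit 156) r0_319 r4_156 (nat_lit 0) (nat_lit 0) (nat_lit 32921011) (nat_lit 0x1fd9c6b4f6) (nat_lit 2222694609),
  Rx.mk (nat_lit 460) (nat_lit 4) (nat_lit 1) (nat_lit 7) (nat_lit 6) (nat_lit 320) (nat_lit 157) r0_320 r4_157 (nat_lit 13615453) (nat_lit 0) (nat_lit 0) (nat_lit 0x1e83e8aac2) (nat_lit 2575669251),
  Rx.mk (nat_lit 461) (nat_lit 5) (nat_lit 1) (nat_lit 7) (nat_lit 7) (nat_lit 321) (nat_lit 158) r0_321 r4_158 (nat_lit 0) (nat_lit 0) (nat_lit 0) (nat_lit 0x20213b2e84) (nat_lit 2112904448)]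
noncomputable def e38_25 : List Rx := [
  Rx.mk (nat_lit 268) (nat_lit 4) (nat_lit 1) (nat_lit 4) (nat_lit 2) (nat_lit 250) (nat_lit 315) r0_250 r7_315 (nat_lit 25106789) (nat_lit 0) (nat_lit 114738951) (nat_lit 0x198796769a) (nat_lit 4092190738),
  Rx.mk (nat_lit 269) (nat_lit 5) (nat_lit 1) (nat_lit 4) (nat_lit 3) (nat_lit 251) (nat_lit 317) r0_251 r7_317 (nat_lit 0) (nat_lit 0) (nat_lit 36924422) (nat_lit 0x1e44557ca0) (nat_lit 2668277270),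
  Rx.mk (nat_lit 332) (nat_lit 4) (nat_lit 1) (nat_lit 5) (nat_lit 6) (nat_lit 252) (nat_lit 316) r0_252 r7_316 (nat_lit 22821440) (nat_lit 0) (nat_lit 0) (nat_lit 0x1b76f69c00) (nat_lit 3435676488),
  Rx.mk (nat_lit 333) (nat_lit 5) (nat_lit 1) (nat_lit 5) (nat_lit 7) (nat_lit 253) (nat_lit 318) r0_253 r7_318 (nat_lit 0) (nat_lit 0) (nat_lit 0) (nat_lit 0x1fdc2e0604) (nat_lit 2187177448)]
noncomputable def e38_26 : List Rx := [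
  Rx.mk (nat_lit 268) (nat_lit 4) (nat_lit 1) (nat_lit 4) (nat_lit 2) (nat_lit 278) (nat_lit 237) r0_278 r8_237 (nat_lit 24388230) (nat_lit 0) (nat_lit 163911417) (nat_lit 0x1ad23e2188) (nat_lit 3780583995),
  Rx.mk (nat_lit 269) (nat_lit 5) (nat_lit 1) (nat_lit 4) (nat_lit 3) (nat_lit 279) (nat_lit 239) r0_279 r8_239 (nat_lit 0) (nat_lit 0) (nat_lit 47408999) (nat_lit 0x1fcb05a0b2) (nat_lit 2253277997),
  Rx.mk (nat_lit 300) (nat_lit 4) (nat_lit 5) (nat_lit 4) (nat_lit 2) (nat_lit 271) (nat_lit 230) r0_271 r8_230 (nat_lit 86496675) (nat_lit 0) (nat_lit 46283751) (nat_lit 0x1881893bee) (nat_lit 4370807724),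
  Rx.mk (nat_lit 301) (nat_lit 5) (nat_lit 5) (nat_lit 4) (nat_lit 3) (nat_lit 272) (nat_lit 232) r0_272 r8_232 (nat_lit 0) (nat_lit 0) (nat_lit 65181056) (nat_lit 0x1e983fb0ce) (nat_lit 2605122654),
  Rx.mk (nat_lit 302) (nat_lit 6) (nat_lit 5) (nat_lit 4) (nat_lit 3) (nat_lit 273) (nat_lit 234) r0_273 r8_234 (nat_lit 0) (nat_lit 0) (nat_lit 42976936) (nat_lit 0x1fef7da476) (nat_lit 2209272234),
  Rx.mk (nat_lit 332) (nat_lit 4) (nat_lit 1) (nat_lit 5) (nat_lit 6) (nat_lit 280) (nat_lit 238) r0_280 r8_238 (nat_lit 64581062) (nat_lit 0) (nat_lit 0) (nat_lit 0x1e59996e96) (nat_lit 2672770760),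
  Rx.mk (nat_lit 333) (nat_lit 5) (nat_lit 1) (nat_lit 5) (nat_lit 7) (nat_lit 281) (nat_lit 240) r0_281 r8_240 (nat_lit 0) (nat_lit 0) (nat_lit 0) (nat_lit 0x200c5303fc) (nat_lit 2135258648),
  Rx.mk (nat_lit 364) (nat_lit 4) (nat_lit 5) (nat_lit 5) (nat_lit 6) (nat_lit 274) (nat_lit 231) r0_274 r8_231 (nat_lit 62054356) (nat_lit 0) (nat_lit 0) (nat_lit 0x1e2d15cb80) (nat_lit 2718743404),
  Rx.mk (nat_lit 365) (nat_lit 5) (nat_lit 5) (nat_lit 5) (nat_lit 7) (nat_lit 275) (nat_lit 233) r0_275 r8_233 (nat_lit 0) (nat_lit 0) (nat_lit 0) (nat_lit 0x1fcf833b36) (nat_lit 2200979698),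
  Rx.mk (nat_lit 366) (nat_lit 6) (nat_lit 5) (nat_lit 5) (nat_lit 7) (nat_lit 276) (nat_lit 235) r0_276 r8_235 (nat_lit 0) (nat_lit 0) (nat_lit 0) (nat_lit 0x2000efab8c) (nat_lit 2147483648),
  Rx.mk (nat_lit 430) (nat_lit 6) (nat_lit 5) (nat_lit 6) (nat_lit 7) (nat_lit 277) (nat_lit 236) r0_277 r8_236 (nat_lit 0) (nat_lit 0) (nat_lit 0) (nat_lit 0x2000efab8c) (nat_lit 2147483648)]
noncomputable def e38_27 : List Rx := [
  Rx.mk (nat_lit 332) (nat_lit 4) (nat_lit 1) (nat_lit 5) (nat_lit 6) (nat_lit 289) (nat_lit 178) r0_289 r8_178 (nat_lit 56859670) (nat_lit 0) (nat_lit 0) (nat_lit 0x1ce3b5aac4) (nat_lit 3072366618),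
  Rx.mk (nat_lit 333) (nat_lit 5) (nat_lit 1) (nat_lit 5) (nat_lit 7) (nat_lit 290) (nat_lit 179) r0_290 r8_179 (nat_lit 0) (nat_lit 0) (nat_lit 0) (nat_lit 0x1fdef748c8) (nat_lit 2184202448)]
noncomputable def e38_28 : List Rx := [
  Rx.mk (nat_lit 268) (nat_lit 4) (nat_lit 1) (nat_lit 4) (nat_lit 2) (nat_lit 322) (nat_lit 273) r0_322 r10_273 (nat_lit 16668154) (nat_lit 0) (nat_lit 24139993) (nat_lit 0x1b131f8a52) (nat_lit 3562337045),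
  Rx.mk (nat_lit 269) (nat_lit 5) (nat_lit 1) (nat_lit 4) (nat_lit 3) (nat_lit 323) (nat_lit 276) r0_323 r10_276 (nat_lit 0) (nat_lit 0) (nat_lit 39016835) (nat_lit 0x1f8fadf186) (nat_lit 2309434733),
  Rx.mk (nat_lit 332) (nat_lit 4) (nat_lit 1) (nat_lit 5) (nat_lit 6) (nat_lit 324) (nat_lit 274) r0_324 r10_274 (nat_lit 51564713) (nat_lit 0) (nat_lit 0) (nat_lit 0x1f10506252) (nat_lit 2460712311),
  Rx.mk (nat_lit 333) (nat_lit 5) (nat_lit 1) (nat_lit 5) (nat_lit 7) (nat_lit 325) (nat_lit 277) r0_325 r10_277 (nat_lit 0) (nat_lit 0) (nat_lit 0) (nat_lit 0x200c3bcfac) (nat_lit 2135358348),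
  Rx.mk (nat_lit 460) (nat_lit 4) (nat_lit 1) (nat_lit 7) (nat_lit 6) (nat_lit 326) (nat_lit 275) r0_326 r10_275 (nat_lit 60597054) (nat_lit 0) (nat_lit 0) (nat_lit 0x1fb52cdd1e) (nat_lit 2290221952),
  Rx.mk (nat_lit 461) (nat_lit 5) (nat_lit 1) (nat_lit 7) (nat_lit 7) (nat_lit 327) (nat_lit 278) r0_327 r10_278 (nat_lit 0) (nat_lit 0) (nat_lit 0) (nat_lit 0x2000efab8c) (nat_lit 2147483648)]
noncomputable def e38_29 : List Rx := [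
  Rx.mk (nat_lit 460) (nat_lit 4) (nat_lit 1) (nat_lit 7) (nat_lit 6) (nat_lit 328) (nat_lit 298) r0_328 r11_298 (nat_lit 28472617) (nat_lit 0) (nat_lit 0) (nat_lit 0x1ff05337ee) (nat_lit 2193848915),
  Rx.mk (nat_lit 461) (nat_lit 5) (nat_lit 1) (nat_lit 7) (nat_lit 7) (nat_lit 329) (nat_lit 299) r0_329 r11_299 (nat_lit 0) (nat_lit 0) (nat_lit 0) (nat_lit 0x200ae52c70) (nat_lit 2136789348)]
noncomputable def e38_30 : List Rx := [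
  Rx.mk (nat_lit 197) (nat_lit 5) (nat_lit 0) (nat_lit 3) (nat_lit 5) (nat_lit 89) (nat_lit 61) r0_89 r5_61 (nat_lit 0) (nat_lit 24756995) (nat_lit 0) (nat_lit 0x1f66c1b87a) (nat_lit 2339657793),
  Rx.mk (nat_lit 221) (nat_lit 5) (nat_lit 3) (nat_lit 3) (nat_lit 7) (nat_lit 90) (nat_lit 62) r0_90 r5_62 (nat_lit 0) (nat_lit 0) (nat_lit 0) (nat_lit 0x20857b3c68) (nat_lit 2006284248)]
noncomputable def e38_31 : List Rx := [
  Rx.mk (nat_lit 5) (nat_lit 5) (nat_lit 0) (nat_lit 0) (nat_lit 1) (nat_lit 200) (nat_lit 37) r0_200 r11_37 (nat_lit 0) (nat_lit 957084729) (nat_lit 17109463) (nat_lit 0x1d9f6f1214) (nat_lit 3785167340),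
  Rx.mk (nat_lit 69) (nat_lit 5) (nat_lit 0) (nat_lit 1) (nat_lit 5) (nat_lit 201) (nat_lit 38) r0_201 r11_38 (nat_lit 0) (nat_lit 67257441) (nat_lit 0) (nat_lit 0x2012044a68) (nat_lit 2196402489),
  Rx.mk (nat_lit 197) (nat_lit 5) (nat_lit 0) (nat_lit 3) (nat_lit 5) (nat_lit 202) (nat_lit 39) r0_202 r11_39 (nat_lit 0) (nat_lit 1091917146) (nat_lit 0) (nat_lit 0x20bead267c) (nat_lit 3037389894),
  Rx.mk (nat_lit 221) (nat_lit 5) (nat_lit 3) (nat_lit 3) (nat_lit 7) (nat_lit 203) (nat_lit 40) r0_203 r11_40 (nat_lit 0) (nat_lit 0) (nat_lit 0) (nat_lit 0x20914d4158) (nat_lit 1993747748)]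
noncomputable def e38_32 : List Rx := [
  Rx.mk (nat_lit 199) (nat_lit 7) (nat_lit 0) (nat_lit 3) (nat_lit 5) (nat_lit 231) (nat_lit 105) r0_231 r6_105 (nat_lit 0) (nat_lit 6208960) (nat_lit 0) (nat_lit 0x1e9d3cb284) (nat_lit 2540609808),
  Rx.mk (nat_lit 284) (nat_lit 4) (nat_lit 3) (nat_lit 4) (nat_lit 2) (nat_lit 232) (nat_lit 98) r0_232 r6_98 (nat_lit 30087) (nat_lit 0) (nat_lit 43050) (nat_lit 0x1db0d45064) (nat_lit 2791604985),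
  Rx.mk (nat_lit 285) (nat_lit 5) (nat_lit 3) (nat_lit 4) (nat_lit 3) (nat_lit 233) (nat_lit 101) r0_233 r6_101 (nat_lit 0) (nat_lit 0) (nat_lit 267236) (nat_lit 0x210c9ec3fe) (nat_lit 1862567534),
  Rx.mk (nat_lit 452) (nat_lit 4) (nat_lit 0) (nat_lit 7) (nat_lit 4) (nat_lit 228) (nat_lit 99) r0_228 r6_99 (nat_lit 17761) (nat_lit 14886) (nat_lit 0) (nat_lit 0x1cee93e3de) (nat_lit 3003181845),
  Rx.mk (nat_lit 453) (nat_lit 5) (nat_lit 0) (nat_lit 7) (nat_lit 5) (nat_lit 229) (nat_lit 102) r0_229 r6_102 (nat_lit 0) (nat_lit 5496569) (nat_lit 0) (nat_lit 0x22939b42fa) (nat_lit 1452874667),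
  Rx.mk (nat_lit 455) (nat_lit 7) (nat_lit 0) (nat_lit 7) (nat_lit 5) (nat_lit 230) (nat_lit 104) r0_230 r6_104 (nat_lit 0) (nat_lit 10858692) (nat_lit 0) (nat_lit 0x1eba56bc98) (nat_lit 2513638840),
  Rx.mk (nat_lit 476) (nat_lit 4) (nat_lit 3) (nat_lit 7) (nat_lit 6) (nat_lit 234) (nat_lit 100) r0_234 r6_100 (nat_lit 16654996) (nat_lit 0) (nat_lit 0) (nat_lit 0x2005241f12) (nat_lit 2159652094),
  Rx.mk (nat_lit 477) (nat_lit 5) (nat_lit 3) (nat_lit 7) (nat_lit 7) (nat_lit 235) (nat_lit 103) r0_235 r6_103 (nat_lit 0) (nat_lit 0) (nat_lit 0) (nat_lit 0x20b612ff1e) (nat_lit 1954649298)]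
noncomputable def e38_33 : List Rx := [
  Rx.mk (nat_lit 260) (nat_lit 4) (nat_lit 0) (nat_lit 4) (nat_lit 0) (nat_lit 330) (nat_lit 152) r0_330 r5_152 (nat_lit 447) (nat_lit 439) (nat_lit 1049326081) (nat_lit 0x20000198ca) (nat_lit 3196804165),
  Rx.mk (nat_lit 261) (nat_lit 5) (nat_lit 0) (nat_lit 4) (nat_lit 1) (nat_lit 331) (nat_lit 155) r0_331 r5_155 (nat_lit 0) (nat_lit 27024974) (nat_lit 27354700) (nat_lit 0x1fb037b946) (nat_lit 2289337272),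
  Rx.mk (nat_lit 268) (nat_lit 4) (nat_lit 1) (nat_lit 4) (nat_lit 2) (nat_lit 335) (nat_lit 153) r0_335 r5_153 (nat_lit 14233515) (nat_lit 0) (nat_lit 836676726) (nat_lit 0x1dbf5a2fa0) (nat_lit 3627046689),
  Rx.mk (nat_lit 269) (nat_lit 5) (nat_lit 1) (nat_lit 4) (nat_lit 3) (nat_lit 336) (nat_lit 156) r0_336 r5_156 (nat_lit 0) (nat_lit 0) (nat_lit 35701536) (nat_lit 0x1ff559c230) (nat_lit 2195649984),
  Rx.mk (nat_lit 284) (nat_lit 4) (nat_lit 3) (nat_lit 4) (nat_lit 2) (nat_lit 340) (nat_lit 154) r0_340 r5_154 (nat_lit 2993290) (nat_lit 0) (nat_lit 78079260) (nat_lit 0x1f9a455b5c) (nat_lit 2339808798),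
  Rx.mk (nat_lit 285) (nat_lit 5) (nat_lit 3) (nat_lit 4) (nat_lit 3) (nat_lit 341) (nat_lit 157) r0_341 r5_157 (nat_lit 0) (nat_lit 0) (nat_lit 6623622) (nat_lit 0x1f6d145f0c) (nat_lit 2314593770),
  Rx.mk (nat_lit 452) (nat_lit 4) (nat_lit 0) (nat_lit 7) (nat_lit 4) (nat_lit 332) (nat_lit 158) r0_332 r5_158 (nat_lit 11259591) (nat_lit 16404426) (nat_lit 0) (nat_lit 0x1c58686b0a) (nat_lit 3194903615),
  Rx.mk (nat_lit 453) (nat_lit 5) (nat_lit 0) (nat_lit 7) (nat_lit 5) (nat_lit 333) (nat_lit 160) r0_333 r5_160 (nat_lit 0) (nat_lit 31773174) (nat_lit 0) (nat_lit 0x2008c5c86e) (nat_lit 2170800572),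
  Rx.mk (nat_lit 455) (nat_lit 7) (nat_lit 0) (nat_lit 7) (nat_lit 5) (nat_lit 334) (nat_lit 162) r0_334 r5_162 (nat_lit 0) (nat_lit 26216418) (nat_lit 0) (nat_lit 0x1e2e32a182) (nat_lit 2681673116),
  Rx.mk (nat_lit 460) (nat_lit 4) (nat_lit 1) (nat_lit 7) (nat_lit 6) (nat_lit 337) (nat_lit 159) r0_337 r5_159 (nat_lit 28690527) (nat_lit 0) (nat_lit 0) (nat_lit 0x1fa3753e2c) (nat_lit 2277567575),
  Rx.mk (nat_lit 461) (nat_lit 5) (nat_lit 1) (nat_lit 7) (nat_lit 7) (nat_lit 338) (nat_lit 161) r0_338 r5_161 (nat_lit 0) (nat_lit 0) (nat_lit 0) (nat_lit 0x200ae3dc26) (nat_lit 2136794298),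
  Rx.mk (nat_lit 463) (nat_lit 7) (nat_lit 1) (nat_lit 7) (nat_lit 7) (nat_lit 339) (nat_lit 163) r0_339 r5_163 (nat_lit 0) (nat_lit 0) (nat_lit 0) (nat_lit 0x200ed05e40) (nat_lit 2132587948)]
noncomputable def e38_34 : List Rx := [
  Rx.mk (nat_lit 260) (nat_lit 4) (nat_lit 0) (nat_lit 4) (nat_lit 0) (nat_lit 342) (nat_lit 165) r0_342 r11_165 (nat_lit 31449710) (nat_lit 12940473) (nat_lit 234590059) (nat_lit 0x18bae9b9fe) (nat_lit 4454445640),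
  Rx.mk (nat_lit 261) (nat_lit 5) (nat_lit 0) (nat_lit 4) (nat_lit 1) (nat_lit 343) (nat_lit 168) r0_343 r11_168 (nat_lit 0) (nat_lit 281247095) (nat_lit 34354690) (nat_lit 0x1f1df2e5a6) (nat_lit 2709892883),
  Rx.mk (nat_lit 268) (nat_lit 4) (nat_lit 1) (nat_lit 4) (nat_lit 2) (nat_lit 349) (nat_lit 166) r0_349 r11_166 (nat_lit 23414709) (nat_lit 0) (nat_lit 513976701) (nat_lit 0x1fddc319f0) (nat_lit 2722900458),
  Rx.mk (nat_lit 269) (nat_lit 5) (nat_lit 1) (nat_lit 4) (nat_lit 3) (nat_lit 350) (nat_lit 169) r0_350 r11_169 (nat_lit 0) (nat_lit 0) (nat_lit 43594055) (nat_lit 0x1ffbdc8fde) (nat_lit 2196539353),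
  Rx.mk (nat_lit 284) (nat_lit 4) (nat_lit 3) (nat_lit 4) (nat_lit 2) (nat_lit 356) (nat_lit 167) r0_356 r11_167 (nat_lit 37658965) (nat_lit 0) (nat_lit 45824042) (nat_lit 0x1fa37cba80) (nat_lit 2332344955),
  Rx.mk (nat_lit 285) (nat_lit 5) (nat_lit 3) (nat_lit 4) (nat_lit 3) (nat_lit 357) (nat_lit 170) r0_357 r11_170 (nat_lit 0) (nat_lit 0) (nat_lit 19939951) (nat_lit 0x2025d660ee) (nat_lit 2127933249),
  Rx.mk (nat_lit 324) (nat_lit 4) (nat_lit 0) (nat_lit 5) (nat_lit 4) (nat_lit 344) (nat_lit 171) r0_344 r11_171 (nat_lit 27207512) (nat_lit 640914359) (nat_lit 0) (nat_lit 0x1f18a3fc3e) (nat_lit 3068189969),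
  Rx.mk (nat_lit 325) (nat_lit 5) (nat_lit 0) (nat_lit 5) (nat_lit 5) (nat_lit 345) (nat_lit 174) r0_345 r11_174 (nat_lit 0) (nat_lit 439318681) (nat_lit 0) (nat_lit 0x1f83e54dd6) (nat_lit 2722503479),
  Rx.mk (nat_lit 332) (nat_lit 4) (nat_lit 1) (nat_lit 5) (nat_lit 6) (nat_lit 351) (nat_lit 172) r0_351 r11_172 (nat_lit 39267561) (nat_lit 0) (nat_lit 0) (nat_lit 0x2000efab8c) (nat_lit 2186751209),
  Rx.mk (nat_lit 333) (nat_lit 5) (nat_lit 1) (nat_lit 5) (nat_lit 7) (nat_lit 352) (nat_lit 175) r0_352 r11_175 (nat_lit 0) (nat_lit 0) (nat_lit 0) (nat_lit 0x2008c9b1f4) (nat_lit 2139048948),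
  Rx.mk (nat_lit 348) (nat_lit 4) (nat_lit 3) (nat_lit 5) (nat_lit 6) (nat_lit 358) (nat_lit 173) r0_358 r11_173 (nat_lit 23211538) (nat_lit 0) (nat_lit 0) (nat_lit 0x200c4d1938) (nat_lit 2158480186),
  Rx.mk (nat_lit 349) (nat_lit 5) (nat_lit 3) (nat_lit 5) (nat_lit 7) (nat_lit 359) (nat_lit 176) r0_359 r11_176 (nat_lit 0) (nat_lit 0) (nat_lit 0) (nat_lit 0x2008d71dbc) (nat_lit 2138972248),
  Rx.mk (nat_lit 452) (nat_lit 4) (nat_lit 0) (nat_lit 7) (nat_lit 4) (nat_lit 346) (nat_lit 177) r0_346 r11_177 (nat_lit 59151949) (nat_lit 56553025) (nat_lit 0) (nat_lit 0x1ed23069ea) (nat_lit 2592579872),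
  Rx.mk (nat_lit 453) (nat_lit 5) (nat_lit 0) (nat_lit 7) (nat_lit 5) (nat_lit 347) (nat_lit 179) r0_347 r11_179 (nat_lit 0) (nat_lit 39267561) (nat_lit 0) (nat_lit 0x201e819c32) (nat_lit 2155079559),
  Rx.mk (nat_lit 455) (nat_lit 7) (nat_lit 0) (nat_lit 7) (nat_lit 5) (nat_lit 348) (nat_lit 181) r0_348 r11_181 (nat_lit 0) (nat_lit 39267561) (nat_lit 0) (nat_lit 0x1ff7d35d1e) (nat_lit 2196560359),
  Rx.mk (nat_lit 460) (nat_lit 4) (nat_lit 1) (nat_lit 7) (nat_lit 6) (nat_lit 353) (nat_lit 178) r0_353 r11_178 (nat_lit 26928061) (nat_lit 0) (nat_lit 0) (nat_lit 0x200dd61462) (nat_lit 2160559759),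
  Rx.mk (nat_lit 461) (nat_lit 5) (nat_lit 1) (nat_lit 7) (nat_lit 7) (nat_lit 354) (nat_lit 180) r0_354 r11_180 (nat_lit 0) (nat_lit 0) (nat_lit 0) (nat_lit 0x2000efab8c) (nat_lit 2147483648),
  Rx.mk (nat_lit 463) (nat_lit 7) (nat_lit 1) (nat_lit 7) (nat_lit 7) (nat_lit 355) (nat_lit 182) r0_355 r11_182 (nat_lit 0) (nat_lit 0) (nat_lit 0) (nat_lit 0x200b1cd5f8) (nat_lit 2136553848)]
noncomputable def e38_35 : List Rx := [
  Rx.mk (nat_lit 196) (nat_lit 4) (nat_lit 0) (nat_lit 3) (nat_lit 4) (nat_lit 82) (nat_lit 0) r0_82 r6_0 (nat_lit 343571) (nat_lit 528265) (nat_lit 0) (nat_lit 0x19e1c87672) (nat_lit 3854735034),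
  Rx.mk (nat_lit 197) (nat_lit 5) (nat_lit 0) (nat_lit 3) (nat_lit 5) (nat_lit 83) (nat_lit 1) r0_83 r6_1 (nat_lit 0) (nat_lit 22646286) (nat_lit 0) (nat_lit 0x1fe695ad68) (nat_lit 2198518134),
  Rx.mk (nat_lit 199) (nat_lit 7) (nat_lit 0) (nat_lit 3) (nat_lit 5) (nat_lit 84) (nat_lit 2) r0_84 r6_2 (nat_lit 0) (nat_lit 11325125) (nat_lit 0) (nat_lit 0x1e4b83c27a) (nat_lit 2634795123),
  Rx.mk (nat_lit 220) (nat_lit 4) (nat_lit 3) (nat_lit 3) (nat_lit 6) (nat_lit 87) (nat_lit 3) r0_87 r6_3 (nat_lit 19637407) (nat_lit 0) (nat_lit 0) (nat_lit 0x1f57f9f064) (nat_lit 2350808155),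
  Rx.mk (nat_lit 221) (nat_lit 5) (nat_lit 3) (nat_lit 3) (nat_lit 7) (nat_lit 88) (nat_lit 4) r0_88 r6_4 (nat_lit 0) (nat_lit 0) (nat_lit 0) (nat_lit 0x2073d73e58) (nat_lit 2025033448),
  Rx.mk (nat_lit 476) (nat_lit 4) (nat_lit 3) (nat_lit 7) (nat_lit 6) (nat_lit 85) (nat_lit 5) r0_85 r6_5 (nat_lit 4823489) (nat_lit 0) (nat_lit 0) (nat_lit 0x206bc35c4c) (nat_lit 2038343737),
  Rx.mk (nat_lit 477) (nat_lit 5) (nat_lit 3) (nat_lit 7) (nat_lit 7) (nat_lit 86) (nat_lit 6) r0_86 r6_6 (nat_lit 0) (nat_lit 0) (nat_lit 0) (nat_lit 0x218a46bc08) (nat_lit 1729288248)]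
noncomputable def e38_36 : List Rx := [
  Rx.mk (nat_lit 196) (nat_lit 4) (nat_lit 0) (nat_lit 3) (nat_lit 4) (nat_lit 238) (nat_lit 325) r0_238 r12_325 (nat_lit 13255) (nat_lit 14688) (nat_lit 0) (nat_lit 0x1b267bc64c) (nat_lit 3500060191),
  Rx.mk (nat_lit 197) (nat_lit 5) (nat_lit 0) (nat_lit 3) (nat_lit 5) (nat_lit 239) (nat_lit 328) r0_239 r12_328 (nat_lit 0) (nat_lit 6379702) (nat_lit 0) (nat_lit 0x1f0055a0a6) (nat_lit 2432499700),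
  Rx.mk (nat_lit 199) (nat_lit 7) (nat_lit 0) (nat_lit 3) (nat_lit 5) (nat_lit 240) (nat_lit 331) r0_240 r12_331 (nat_lit 0) (nat_lit 124409) (nat_lit 0) (nat_lit 0x1c8a243e1c) (nat_lit 3112716857),
  Rx.mk (nat_lit 452) (nat_lit 4) (nat_lit 0) (nat_lit 7) (nat_lit 4) (nat_lit 236) (nat_lit 326) r0_236 r12_326 (nat_lit 2766) (nat_lit 3594) (nat_lit 0) (nat_lit 0x1c40c28d00) (nat_lit 3192515208),
  Rx.mk (nat_lit 453) (nat_lit 5) (nat_lit 0) (nat_lit 7) (nat_lit 5) (nat_lit 237) (nat_lit 329) r0_237 r12_329 (nat_lit 0) (nat_lit 16716) (nat_lit 0) (nat_lit 0x22aa0eb896) (nat_lit 1423260614),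
  Rx.mk (nat_lit 476) (nat_lit 4) (nat_lit 3) (nat_lit 7) (nat_lit 6) (nat_lit 241) (nat_lit 327) r0_241 r12_327 (nat_lit 7905363) (nat_lit 0) (nat_lit 0) (nat_lit 0x1fe4879cc0) (nat_lit 2185986011),
  Rx.mk (nat_lit 477) (nat_lit 5) (nat_lit 3) (nat_lit 7) (nat_lit 7) (nat_lit 242) (nat_lit 330) r0_242 r12_330 (nat_lit 0) (nat_lit 0) (nat_lit 0) (nat_lit 0x22a34e539a) (nat_lit 1430860798)]
noncomputable def e38_37 : List Rx := [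
  Rx.mk (nat_lit 294) (nat_lit 6) (nat_lit 4) (nat_lit 4) (nat_lit 1) (nat_lit 91) (nat_lit 94) r0_91 r0_94 (nat_lit 0) (nat_lit 4146700) (nat_lit 1040475940) (nat_lit 0x1c113aa176) (nat_lit 4289260438),
  Rx.mk (nat_lit 316) (nat_lit 4) (nat_lit 7) (nat_lit 4) (nat_lit 2) (nat_lit 94) (nat_lit 91) r0_94 r0_91 (nat_lit 4146700) (nat_lit 0) (nat_lit 1040475940) (nat_lit 0x1c113aa176) (nat_lit 4289260438),
  Rx.mk (nat_lit 318) (nat_lit 6) (nat_lit 7) (nat_lit 4) (nat_lit 3) (nat_lit 95) (nat_lit 95) r0_95 r0_95 (nat_lit 0) (nat_lit 0) (nat_lit 928406146) (nat_lit 0x2016212198) (nat_lit 3053127494),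
  Rx.mk (nat_lit 422) (nat_lit 6) (nat_lit 4) (nat_lit 6) (nat_lit 5) (nat_lit 92) (nat_lit 97) r0_92 r0_97 (nat_lit 0) (nat_lit 39205071) (nat_lit 0) (nat_lit 0x1cf8cbd0aa) (nat_lit 3031727569),
  Rx.mk (nat_lit 438) (nat_lit 6) (nat_lit 6) (nat_lit 6) (nat_lit 7) (nat_lit 93) (nat_lit 99) r0_93 r0_99 (nat_lit 0) (nat_lit 0) (nat_lit 0) (nat_lit 0x2000efab8c) (nat_lit 2147483648),
  Rx.mk (nat_lit 446) (nat_lit 6) (nat_lit 7) (nat_lit 6) (nat_lit 7) (nat_lit 96) (nat_lit 98) r0_96 r0_98 (nat_lit 0) (nat_lit 0) (nat_lit 0) (nat_lit 0x2009aed838) (nat_lit 2138090548),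
  Rx.mk (nat_lit 508) (nat_lit 4) (nat_lit 7) (nat_lit 7) (nat_lit 6) (nat_lit 97) (nat_lit 92) r0_97 r0_92 (nat_lit 39205071) (nat_lit 0) (nat_lit 0) (nat_lit 0x1cf8cbd0aa) (nat_lit 3031727569),
  Rx.mk (nat_lit 510) (nat_lit 6) (nat_lit 7) (nat_lit 7) (nat_lit 7) (nat_lit 98) (nat_lit 96) r0_98 r0_96 (nat_lit 0) (nat_lit 0) (nat_lit 0) (nat_lit 0x2009aed838) (nat_lit 2138090548),
  Rx.mk (nat_lit 511) (nat_lit 7) (nat_lit 7) (nat_lit 7) (nat_lit 7) (nat_lit 99) (nat_lit 93) r0_99 r0_93 (nat_lit 0) (nat_lit 0) (nat_lit 0) (nat_lit 0x2000efab8c) (nat_lit 2147483648)]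
noncomputable def e38_38 : List Rx := [
  Rx.mk (nat_lit 16) (nat_lit 0) (nat_lit 2) (nat_lit 0) (nat_lit 2) (nat_lit 11) (nat_lit 4) r0_11 r0_4 (nat_lit 348) (nat_lit 0) (nat_lit 448) (nat_lit 0x2000006b80) (nat_lit 2147482944),
  Rx.mk (nat_lit 19) (nat_lit 3) (nat_lit 2) (nat_lit 0) (nat_lit 3) (nat_lit 12) (nat_lit 5) r0_12 r0_5 (nat_lit 0) (nat_lit 0) (nat_lit 211668) (nat_lit 0x1c6c86b89e) (nat_lit 3145086466),
  Rx.mk (nat_lit 144) (nat_lit 0) (nat_lit 2) (nat_lit 2) (nat_lit 6) (nat_lit 13) (nat_lit 7) r0_13 r0_7 (nat_lit 438) (nat_lit 0) (nat_lit 0) (nat_lit 0x215479697c) (nat_lit 1785951986),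
  Rx.mk (nat_lit 146) (nat_lit 2) (nat_lit 2) (nat_lit 2) (nat_lit 7) (nat_lit 14) (nat_lit 9) r0_14 r0_9 (nat_lit 0) (nat_lit 0) (nat_lit 0) (nat_lit 0x1fb0d47056) (nat_lit 2234332198),
  Rx.mk (nat_lit 147) (nat_lit 3) (nat_lit 2) (nat_lit 2) (nat_lit 7) (nat_lit 15) (nat_lit 8) r0_15 r0_8 (nat_lit 0) (nat_lit 0) (nat_lit 0) (nat_lit 0x1fd13517d8) (nat_lit 2199156348),
  Rx.mk (nat_lit 178) (nat_lit 2) (nat_lit 6) (nat_lit 2) (nat_lit 7) (nat_lit 3) (nat_lit 17) r0_3 r0_17 (nat_lit 0) (nat_lit 0) (nat_lit 0) (nat_lit 0x1fe66bb666) (nat_lit 2176103198),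
  Rx.mk (nat_lit 195) (nat_lit 3) (nat_lit 0) (nat_lit 3) (nat_lit 5) (nat_lit 10) (nat_lit 0) r0_10 r0_0 (nat_lit 0) (nat_lit 3682) (nat_lit 0) (nat_lit 0x1de45c53aa) (nat_lit 2735387580),
  Rx.mk (nat_lit 211) (nat_lit 3) (nat_lit 2) (nat_lit 3) (nat_lit 7) (nat_lit 16) (nat_lit 6) r0_16 r0_6 (nat_lit 0) (nat_lit 0) (nat_lit 0) (nat_lit 0x1ffffefb74) (nat_lit 2147488348),
  Rx.mk (nat_lit 219) (nat_lit 3) (nat_lit 3) (nat_lit 3) (nat_lit 7) (nat_lit 19) (nat_lit 1) r0_19 r0_1 (nat_lit 0) (nat_lit 0) (nat_lit 0) (nat_lit 0x1ebc30450c) (nat_lit 2500633448),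
  Rx.mk (nat_lit 223) (nat_lit 7) (nat_lit 3) (nat_lit 3) (nat_lit 7) (nat_lit 18) (nat_lit 2) r0_18 r0_2 (nat_lit 0) (nat_lit 0) (nat_lit 0) (nat_lit 0x200c454ed8) (nat_lit 2134587448),
  Rx.mk (nat_lit 316) (nat_lit 4) (nat_lit 7) (nat_lit 4) (nat_lit 2) (nat_lit 4) (nat_lit 11) r0_4 r0_11 (nat_lit 348) (nat_lit 0) (nat_lit 448) (nat_lit 0x2000006b80) (nat_lit 2147482944),
  Rx.mk (nat_lit 318) (nat_lit 6) (nat_lit 7) (nat_lit 4) (nat_lit 3) (nat_lit 5) (nat_lit 12) r0_5 r0_12 (nat_lit 0) (nat_lit 0) (nat_lit 211668) (nat_lit 0x1c6c86b89e) (nat_lit 3145086466),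
  Rx.mk (nat_lit 422) (nat_lit 6) (nat_lit 4) (nat_lit 6) (nat_lit 5) (nat_lit 0) (nat_lit 10) r0_0 r0_10 (nat_lit 0) (nat_lit 3682) (nat_lit 0) (nat_lit 0x1de45c53aa) (nat_lit 2735387580),
  Rx.mk (nat_lit 434) (nat_lit 2) (nat_lit 6) (nat_lit 6) (nat_lit 7) (nat_lit 2) (nat_lit 18) r0_2 r0_18 (nat_lit 0) (nat_lit 0) (nat_lit 0) (nat_lit 0x200c454ed8) (nat_lit 2134587448),
  Rx.mk (nat_lit 438) (nat_lit 6) (nat_lit 6) (nat_lit 6) (nat_lit 7) (nat_lit 1) (nat_lit 19) r0_1 r0_19 (nat_lit 0) (nat_lit 0) (nat_lit 0) (nat_lit 0x1ebc30450c) (nat_lit 2500633448),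
  Rx.mk (nat_lit 446) (nat_lit 6) (nat_lit 7) (nat_lit 6) (nat_lit 7) (nat_lit 6) (nat_lit 16) r0_6 r0_16 (nat_lit 0) (nat_lit 0) (nat_lit 0) (nat_lit 0x1ffffefb74) (nat_lit 2147488348),
  Rx.mk (nat_lit 479) (nat_lit 7) (nat_lit 3) (nat_lit 7) (nat_lit 7) (nat_lit 17) (nat_lit 3) r0_17 r0_3 (nat_lit 0) (nat_lit 0) (nat_lit 0) (nat_lit 0x1fe66bb666) (nat_lit 2176103198),
  Rx.mk (nat_lit 508) (nat_lit 4) (nat_lit 7) (nat_lit 7) (nat_lit 6) (nat_lit 7) (nat_lit 13) r0_7 r0_13 (nat_lit 438) (nat_lit 0) (nat_lit 0) (nat_lit 0x215479697c) (nat_lit 1785951986),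
  Rx.mk (nat_lit 510) (nat_lit 6) (nat_lit 7) (nat_lit 7) (nat_lit 7) (nat_lit 8) (nat_lit 15) r0_8 r0_15 (nat_lit 0) (nat_lit 0) (nat_lit 0) (nat_lit 0x1fd13517d8) (nat_lit 2199156348),
  Rx.mk (nat_lit 511) (nat_lit 7) (nat_lit 7) (nat_lit 7) (nat_lit 7) (nat_lit 9) (nat_lit 14) r0_9 r0_14 (nat_lit 0) (nat_lit 0) (nat_lit 0) (nat_lit 0x1fb0d47056) (nat_lit 2234332198)]
noncomputable def e38_39 : List Rx := [
  Rx.mk (nat_lit 178) (nat_lit 2) (nat_lit 6) (nat_lit 2) (nat_lit 7) (nat_lit 104) (nat_lit 103) r0_104 r7_103 (nat_lit 0) (nat_lit 0) (nat_lit 0) (nat_lit 0x1fd446eec4) (nat_lit 2195815148),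
  Rx.mk (nat_lit 294) (nat_lit 6) (nat_lit 4) (nat_lit 4) (nat_lit 1) (nat_lit 100) (nat_lit 96) r0_100 r7_96 (nat_lit 0) (nat_lit 5017793) (nat_lit 203862769) (nat_lit 0x184e7076c8) (nat_lit 4502484910),
  Rx.mk (nat_lit 316) (nat_lit 4) (nat_lit 7) (nat_lit 4) (nat_lit 2) (nat_lit 105) (nat_lit 93) r0_105 r7_93 (nat_lit 118942) (nat_lit 0) (nat_lit 1681448) (nat_lit 0x1a2c72ec48) (nat_lit 3774257838),
  Rx.mk (nat_lit 318) (nat_lit 6) (nat_lit 7) (nat_lit 4) (nat_lit 3) (nat_lit 106) (nat_lit 97) r0_106 r7_97 (nat_lit 0) (nat_lit 0) (nat_lit 889720639) (nat_lit 0x201c8bd30c) (nat_lit 3007471987),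
  Rx.mk (nat_lit 422) (nat_lit 6) (nat_lit 4) (nat_lit 6) (nat_lit 5) (nat_lit 101) (nat_lit 99) r0_101 r7_99 (nat_lit 0) (nat_lit 12432931) (nat_lit 0) (nat_lit 0x1b37024158) (nat_lit 3494942479),
  Rx.mk (nat_lit 434) (nat_lit 2) (nat_lit 6) (nat_lit 6) (nat_lit 7) (nat_lit 103) (nat_lit 102) r0_103 r7_102 (nat_lit 0) (nat_lit 0) (nat_lit 0) (nat_lit 0x1fd442bfde) (nat_lit 2195818098),
  Rx.mk (nat_lit 438) (nat_lit 6) (nat_lit 6) (nat_lit 6) (nat_lit 7) (nat_lit 102) (nat_lit 101) r0_102 r7_101 (nat_lit 0) (nat_lit 0) (nat_lit 0) (nat_lit 0x1d505599a0) (nat_lit 2897180348),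
  Rx.mk (nat_lit 446) (nat_lit 6) (nat_lit 7) (nat_lit 6) (nat_lit 7) (nat_lit 107) (nat_lit 100) r0_107 r7_100 (nat_lit 0) (nat_lit 0) (nat_lit 0) (nat_lit 0x1fe69d992e) (nat_lit 2175885398),
  Rx.mk (nat_lit 508) (nat_lit 4) (nat_lit 7) (nat_lit 7) (nat_lit 6) (nat_lit 108) (nat_lit 94) r0_108 r7_94 (nat_lit 12433884) (nat_lit 0) (nat_lit 0) (nat_lit 0x1d4834c50c) (nat_lit 2918441232),
  Rx.mk (nat_lit 510) (nat_lit 6) (nat_lit 7) (nat_lit 7) (nat_lit 7) (nat_lit 109) (nat_lit 98) r0_109 r7_98 (nat_lit 0) (nat_lit 0) (nat_lit 0) (nat_lit 0x1fe1cf73ae) (nat_lit 2181107598),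
  Rx.mk (nat_lit 511) (nat_lit 7) (nat_lit 7) (nat_lit 7) (nat_lit 7) (nat_lit 110) (nat_lit 95) r0_110 r7_95 (nat_lit 0) (nat_lit 0) (nat_lit 0) (nat_lit 0x1fcde9e496) (nat_lit 2202710498)]
noncomputable def e38_40 : List Rx := [
  Rx.mk (nat_lit 16) (nat_lit 0) (nat_lit 2) (nat_lit 0) (nat_lit 2) (nat_lit 34) (nat_lit 4) r0_34 r2_4 (nat_lit 2861756) (nat_lit 0) (nat_lit 6583621) (nat_lit 0x1a9a9f48e2) (nat_lit 3662193675),
  Rx.mk (nat_lit 17) (nat_lit 1) (nat_lit 2) (nat_lit 0) (nat_lit 3) (nat_lit 35) (nat_lit 5) r0_35 r2_5 (nat_lit 0) (nat_lit 0) (nat_lit 61056546) (nat_lit 0x1f5fe08608) (nat_lit 2383572594),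
  Rx.mk (nat_lit 144) (nat_lit 0) (nat_lit 2) (nat_lit 2) (nat_lit 6) (nat_lit 36) (nat_lit 9) r0_36 r2_9 (nat_lit 21572134) (nat_lit 0) (nat_lit 0) (nat_lit 0x1fc3ad1d68) (nat_lit 2235386682),
  Rx.mk (nat_lit 145) (nat_lit 1) (nat_lit 2) (nat_lit 2) (nat_lit 7) (nat_lit 37) (nat_lit 10) r0_37 r2_10 (nat_lit 0) (nat_lit 0) (nat_lit 0) (nat_lit 0x1ffb86aca4) (nat_lit 2153304848),
  Rx.mk (nat_lit 146) (nat_lit 2) (nat_lit 2) (nat_lit 2) (nat_lit 7) (nat_lit 38) (nat_lit 11) r0_38 r2_11 (nat_lit 0) (nat_lit 0) (nat_lit 0) (nat_lit 0x1ffb86aca4) (nat_lit 2153304848),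
  Rx.mk (nat_lit 178) (nat_lit 2) (nat_lit 6) (nat_lit 2) (nat_lit 7) (nat_lit 30) (nat_lit 12) r0_30 r2_12 (nat_lit 0) (nat_lit 0) (nat_lit 0) (nat_lit 0x2000efab8c) (nat_lit 2147483648),
  Rx.mk (nat_lit 192) (nat_lit 0) (nat_lit 0) (nat_lit 3) (nat_lit 4) (nat_lit 31) (nat_lit 0) r0_31 r2_0 (nat_lit 8480) (nat_lit 6982) (nat_lit 0) (nat_lit 0x19db76d458) (nat_lit 3860668410),
  Rx.mk (nat_lit 193) (nat_lit 1) (nat_lit 0) (nat_lit 3) (nat_lit 5) (nat_lit 32) (nat_lit 1) r0_32 r2_1 (nat_lit 0) (nat_lit 13338302) (nat_lit 0) (nat_lit 0x1ff9b2a7d4) (nat_lit 2168548850),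
  Rx.mk (nat_lit 195) (nat_lit 3) (nat_lit 0) (nat_lit 3) (nat_lit 5) (nat_lit 33) (nat_lit 2) r0_33 r2_2 (nat_lit 0) (nat_lit 30568667) (nat_lit 0) (nat_lit 0x1eb858b9aa) (nat_lit 2535564565),
  Rx.mk (nat_lit 208) (nat_lit 0) (nat_lit 2) (nat_lit 3) (nat_lit 6) (nat_lit 39) (nat_lit 6) r0_39 r2_6 (nat_lit 24227) (nat_lit 0) (nat_lit 0) (nat_lit 0x1ffef76540) (nat_lit 2148644475),
  Rx.mk (nat_lit 209) (nat_lit 1) (nat_lit 2) (nat_lit 3) (nat_lit 7) (nat_lit 40) (nat_lit 7) r0_40 r2_7 (nat_lit 0) (nat_lit 0) (nat_lit 0) (nat_lit 0x21e1f887b0) (nat_lit 1636203448),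
  Rx.mk (nat_lit 211) (nat_lit 3) (nat_lit 2) (nat_lit 3) (nat_lit 7) (nat_lit 41) (nat_lit 8) r0_41 r2_8 (nat_lit 0) (nat_lit 0) (nat_lit 0) (nat_lit 0x21fbd87028) (nat_lit 1608727548),
  Rx.mk (nat_lit 219) (nat_lit 3) (nat_lit 3) (nat_lit 3) (nat_lit 7) (nat_lit 42) (nat_lit 3) r0_42 r2_3 (nat_lit 0) (nat_lit 0) (nat_lit 0) (nat_lit 0x201241bcd6) (nat_lit 2128902698)]
noncomputable def e38_41 : List Rx := [
  Rx.mk (nat_lit 178) (nat_lit 2) (nat_lit 6) (nat_lit 2) (nat_lit 7) (nat_lit 141) (nat_lit 0) r0_141 r9_0 (nat_lit 0) (nat_lit 0) (nat_lit 0) (nat_lit 0x2000efab8c) (nat_lit 2147483648)]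
noncomputable def e38_42 : List Rx := [
  Rx.mk (nat_lit 0) (nat_lit 0) (nat_lit 0) (nat_lit 0) (nat_lit 0) (nat_lit 155) (nat_lit 23) r0_155 r9_23 (nat_lit 3309211) (nat_lit 4942448) (nat_lit 4415930) (nat_lit 0xc2b2d9256) (nat_lit 7691336587),
  Rx.mk (nat_lit 1) (nat_lit 1) (nat_lit 0) (nat_lit 0) (nat_lit 1) (nat_lit 156) (nat_lit 24) r0_156 r9_24 (nat_lit 0) (nat_lit 25331948) (nat_lit 25331948) (nat_lit 0x178bc459f0) (nat_lit 4556426244),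
  Rx.mk (nat_lit 16) (nat_lit 0) (nat_lit 2) (nat_lit 0) (nat_lit 2) (nat_lit 161) (nat_lit 25) r0_161 r9_25 (nat_lit 13779880) (nat_lit 0) (nat_lit 25331639) (nat_lit 0x1a1997e830) (nat_lit 3832574467),
  Rx.mk (nat_lit 17) (nat_lit 1) (nat_lit 2) (nat_lit 0) (nat_lit 3) (nat_lit 162) (nat_lit 26) r0_162 r9_26 (nat_lit 0) (nat_lit 0) (nat_lit 41622051) (nat_lit 0x1fdf7b28f0) (nat_lit 2225254599),
  Rx.mk (nat_lit 65) (nat_lit 1) (nat_lit 0) (nat_lit 1) (nat_lit 5) (nat_lit 157) (nat_lit 27) r0_157 r9_27 (nat_lit 0) (nat_lit 39267561) (nat_lit 0) (nat_lit 0x1fe67b77a4) (nat_lit 2215310309),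
  Rx.mk (nat_lit 81) (nat_lit 1) (nat_lit 2) (nat_lit 1) (nat_lit 7) (nat_lit 163) (nat_lit 28) r0_163 r9_28 (nat_lit 0) (nat_lit 0) (nat_lit 0) (nat_lit 0x2000efab8c) (nat_lit 2147483648),
  Rx.mk (nat_lit 144) (nat_lit 0) (nat_lit 2) (nat_lit 2) (nat_lit 6) (nat_lit 164) (nat_lit 37) r0_164 r9_37 (nat_lit 39267561) (nat_lit 0) (nat_lit 0) (nat_lit 0x1ff12a068e) (nat_lit 2203751959),
  Rx.mk (nat_lit 145) (nat_lit 1) (nat_lit 2) (nat_lit 2) (nat_lit 7) (nat_lit 165) (nat_lit 38) r0_165 r9_38 (nat_lit 0) (nat_lit 0) (nat_lit 0) (nat_lit 0x2000efab8c) (nat_lit 2147483648),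
  Rx.mk (nat_lit 146) (nat_lit 2) (nat_lit 2) (nat_lit 2) (nat_lit 7) (nat_lit 166) (nat_lit 39) r0_166 r9_39 (nat_lit 0) (nat_lit 0) (nat_lit 0) (nat_lit 0x2000efab8c) (nat_lit 2147483648),
  Rx.mk (nat_lit 178) (nat_lit 2) (nat_lit 6) (nat_lit 2) (nat_lit 7) (nat_lit 154) (nat_lit 36) r0_154 r9_36 (nat_lit 0) (nat_lit 0) (nat_lit 0) (nat_lit 0x2000efab8c) (nat_lit 2147483648),
  Rx.mk (nat_lit 192) (nat_lit 0) (nat_lit 0) (nat_lit 3) (nat_lit 4) (nat_lit 158) (nat_lit 29) r0_158 r9_29 (nat_lit 13428273) (nat_lit 67686870) (nat_lit 0) (nat_lit 0x188378dfd6) (nat_lit 4317011741),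
  Rx.mk (nat_lit 193) (nat_lit 1) (nat_lit 0) (nat_lit 3) (nat_lit 5) (nat_lit 159) (nat_lit 30) r0_159 r9_30 (nat_lit 0) (nat_lit 97242392) (nat_lit 0) (nat_lit 0x1fdb06dbc0) (nat_lit 2285709440),
  Rx.mk (nat_lit 195) (nat_lit 3) (nat_lit 0) (nat_lit 3) (nat_lit 5) (nat_lit 160) (nat_lit 31) r0_160 r9_31 (nat_lit 0) (nat_lit 189228985) (nat_lit 0) (nat_lit 0x1fcca2dc46) (nat_lit 2393332583),
  Rx.mk (nat_lit 208) (nat_lit 0) (nat_lit 2) (nat_lit 3) (nat_lit 6) (nat_lit 167) (nat_lit 33) r0_167 r9_33 (nat_lit 36938456) (nat_lit 0) (nat_lit 0) (nat_lit 0x1ff1b3bbfe) (nat_lit 2200840854),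
  Rx.mk (nat_lit 209) (nat_lit 1) (nat_lit 2) (nat_lit 3) (nat_lit 7) (nat_lit 168) (nat_lit 34) r0_168 r9_34 (nat_lit 0) (nat_lit 0) (nat_lit 0) (nat_lit 0x2000efab8c) (nat_lit 2147483648),
  Rx.mk (nat_lit 211) (nat_lit 3) (nat_lit 2) (nat_lit 3) (nat_lit 7) (nat_lit 169) (nat_lit 35) r0_169 r9_35 (nat_lit 0) (nat_lit 0) (nat_lit 0) (nat_lit 0x2000efab8c) (nat_lit 2147483648),
  Rx.mk (nat_lit 219) (nat_lit 3) (nat_lit 3) (nat_lit 3) (nat_lit 7) (nat_lit 170) (nat_lit 32) r0_170 r9_32 (nat_lit 0) (nat_lit 0) (nat_lit 0) (nat_lit 0x1fdcae46fc) (nat_lit 2186726148)]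
noncomputable def e38_43 : List Rx := [
  Rx.mk (nat_lit 16) (nat_lit 0) (nat_lit 2) (nat_lit 0) (nat_lit 2) (nat_lit 23) (nat_lit 2) r0_23 r1_2 (nat_lit 3759942) (nat_lit 0) (nat_lit 6565323) (nat_lit 0x1d89a47866) (nat_lit 2845011663),
  Rx.mk (nat_lit 19) (nat_lit 3) (nat_lit 2) (nat_lit 0) (nat_lit 3) (nat_lit 24) (nat_lit 3) r0_24 r1_3 (nat_lit 0) (nat_lit 0) (nat_lit 34120018) (nat_lit 0x1fe2baab9e) (nat_lit 2214220516),
  Rx.mk (nat_lit 144) (nat_lit 0) (nat_lit 2) (nat_lit 2) (nat_lit 6) (nat_lit 25) (nat_lit 5) r0_25 r1_5 (nat_lit 9049524) (nat_lit 0) (nat_lit 0) (nat_lit 0x1f9b0d1dea) (nat_lit 2267094122),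
  Rx.mk (nat_lit 146) (nat_lit 2) (nat_lit 2) (nat_lit 2) (nat_lit 7) (nat_lit 26) (nat_lit 7) r0_26 r1_7 (nat_lit 0) (nat_lit 0) (nat_lit 0) (nat_lit 0x2010475ae4) (nat_lit 2131019648),
  Rx.mk (nat_lit 147) (nat_lit 3) (nat_lit 2) (nat_lit 2) (nat_lit 7) (nat_lit 27) (nat_lit 6) r0_27 r1_6 (nat_lit 0) (nat_lit 0) (nat_lit 0) (nat_lit 0x2010475ae4) (nat_lit 2131019648),
  Rx.mk (nat_lit 178) (nat_lit 2) (nat_lit 6) (nat_lit 2) (nat_lit 7) (nat_lit 21) (nat_lit 8) r0_21 r1_8 (nat_lit 0) (nat_lit 0) (nat_lit 0) (nat_lit 0x2008e878fa) (nat_lit 2138918598),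
  Rx.mk (nat_lit 195) (nat_lit 3) (nat_lit 0) (nat_lit 3) (nat_lit 5) (nat_lit 22) (nat_lit 0) r0_22 r1_0 (nat_lit 0) (nat_lit 40197689) (nat_lit 0) (nat_lit 0x1e57e6aa32) (nat_lit 2650224487),
  Rx.mk (nat_lit 211) (nat_lit 3) (nat_lit 2) (nat_lit 3) (nat_lit 7) (nat_lit 28) (nat_lit 4) r0_28 r1_4 (nat_lit 0) (nat_lit 0) (nat_lit 0) (nat_lit 0x2265931950) (nat_lit 1496427248),
  Rx.mk (nat_lit 219) (nat_lit 3) (nat_lit 3) (nat_lit 3) (nat_lit 7) (nat_lit 29) (nat_lit 1) r0_29 r1_1 (nat_lit 0) (nat_lit 0) (nat_lit 0) (nat_lit 0x205cf259c0) (nat_lit 2049377648),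
  Rx.mk (nat_lit 434) (nat_lit 2) (nat_lit 6) (nat_lit 6) (nat_lit 7) (nat_lit 20) (nat_lit 9) r0_20 r1_9 (nat_lit 0) (nat_lit 0) (nat_lit 0) (nat_lit 0x20033add1c) (nat_lit 2145005248)]
noncomputable def e38_44 : List Rx := [
  Rx.mk (nat_lit 178) (nat_lit 2) (nat_lit 6) (nat_lit 2) (nat_lit 7) (nat_lit 140) (nat_lit 77) r0_140 r8_77 (nat_lit 0) (nat_lit 0) (nat_lit 0) (nat_lit 0x2000efab8c) (nat_lit 2147483648),
  Rx.mk (nat_lit 434) (nat_lit 2) (nat_lit 6) (nat_lit 6) (nat_lit 7) (nat_lit 139) (nat_lit 76) r0_139 r8_76 (nat_lit 0) (nat_lit 0) (nat_lit 0) (nat_lit 0x2000efab8c) (nat_lit 2147483648)]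
noncomputable def e38_45 : List Rx := [
  Rx.mk (nat_lit 292) (nat_lit 4) (nat_lit 4) (nat_lit 4) (nat_lit 0) (nat_lit 111) (nat_lit 94) r0_111 r1_94 (nat_lit 881) (nat_lit 864) (nat_lit 876482094) (nat_lit 0x20000c1836) (nat_lit 3023917637),
  Rx.mk (nat_lit 294) (nat_lit 6) (nat_lit 4) (nat_lit 4) (nat_lit 1) (nat_lit 112) (nat_lit 99) r0_112 r1_99 (nat_lit 0) (nat_lit 10773148) (nat_lit 586852438) (nat_lit 0x1d5a093704) (nat_lit 3484186834),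
  Rx.mk (nat_lit 300) (nat_lit 4) (nat_lit 5) (nat_lit 4) (nat_lit 2) (nat_lit 114) (nat_lit 95) r0_114 r1_95 (nat_lit 36244003) (nat_lit 0) (nat_lit 1026409620) (nat_lit 0x1fb9979876) (nat_lit 3287509021),
  Rx.mk (nat_lit 302) (nat_lit 6) (nat_lit 5) (nat_lit 4) (nat_lit 3) (nat_lit 115) (nat_lit 100) r0_115 r1_100 (nat_lit 0) (nat_lit 0) (nat_lit 56828886) (nat_lit 0x1ff6c67032) (nat_lit 2215252084),
  Rx.mk (nat_lit 316) (nat_lit 4) (nat_lit 7) (nat_lit 4) (nat_lit 2) (nat_lit 118) (nat_lit 96) r0_118 r1_96 (nat_lit 110464278) (nat_lit 0) (nat_lit 757504902) (nat_lit 0x1fdb685e40) (nat_lit 3056021828),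
  Rx.mk (nat_lit 318) (nat_lit 6) (nat_lit 7) (nat_lit 4) (nat_lit 3) (nat_lit 119) (nat_lit 101) r0_119 r1_101 (nat_lit 0) (nat_lit 0) (nat_lit 131034728) (nat_lit 0x201eaa4376) (nat_lit 2246656226),
  Rx.mk (nat_lit 422) (nat_lit 6) (nat_lit 4) (nat_lit 6) (nat_lit 5) (nat_lit 113) (nat_lit 103) r0_113 r1_103 (nat_lit 0) (nat_lit 28379546) (nat_lit 0) (nat_lit 0x1f8f4ceb02) (nat_lit 2299251744),
  Rx.mk (nat_lit 430) (nat_lit 6) (nat_lit 5) (nat_lit 6) (nat_lit 7) (nat_lit 116) (nat_lit 104) r0_116 r1_104 (nat_lit 0) (nat_lit 0) (nat_lit 0) (nat_lit 0x2000efab8c) (nat_lit 2147483648),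
  Rx.mk (nat_lit 438) (nat_lit 6) (nat_lit 6) (nat_lit 6) (nat_lit 7) (nat_lit 117) (nat_lit 106) r0_117 r1_106 (nat_lit 0) (nat_lit 0) (nat_lit 0) (nat_lit 0x2000efab8c) (nat_lit 2147483648),
  Rx.mk (nat_lit 446) (nat_lit 6) (nat_lit 7) (nat_lit 6) (nat_lit 7) (nat_lit 120) (nat_lit 105) r0_120 r1_105 (nat_lit 0) (nat_lit 0) (nat_lit 0) (nat_lit 0x2008ca226a) (nat_lit 2139048298),
  Rx.mk (nat_lit 508) (nat_lit 4) (nat_lit 7) (nat_lit 7) (nat_lit 6) (nat_lit 121) (nat_lit 97) r0_121 r1_97 (nat_lit 32825473) (nat_lit 0) (nat_lit 0) (nat_lit 0x1ff5e28a70) (nat_lit 2192205321),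
  Rx.mk (nat_lit 510) (nat_lit 6) (nat_lit 7) (nat_lit 7) (nat_lit 7) (nat_lit 122) (nat_lit 102) r0_122 r1_102 (nat_lit 0) (nat_lit 0) (nat_lit 0) (nat_lit 0x2000efab8c) (nat_lit 2147483648),
  Rx.mk (nat_lit 511) (nat_lit 7) (nat_lit 7) (nat_lit 7) (nat_lit 7) (nat_lit 123) (nat_lit 98) r0_123 r1_98 (nat_lit 0) (nat_lit 0) (nat_lit 0) (nat_lit 0x2000efab8c) (nat_lit 2147483648)]
noncomputable def e38_46 : List Rx := [
  Rx.mk (nat_lit 300) (nat_lit 4) (nat_lit 5) (nat_lit 4) (nat_lit 2) (nat_lit 254) (nat_lit 98) r0_254 r2_98 (nat_lit 36413796) (nat_lit 0) (nat_lit 434226316) (nat_lit 0x1879ff9526) (nat_lit 4716875910),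
  Rx.mk (nat_lit 302) (nat_lit 6) (nat_lit 5) (nat_lit 4) (nat_lit 3) (nat_lit 255) (nat_lit 99) r0_255 r2_99 (nat_lit 0) (nat_lit 0) (nat_lit 100346273) (nat_lit 0x1fdee46c8a) (nat_lit 2284621071),
  Rx.mk (nat_lit 430) (nat_lit 6) (nat_lit 5) (nat_lit 6) (nat_lit 7) (nat_lit 256) (nat_lit 100) r0_256 r2_100 (nat_lit 0) (nat_lit 0) (nat_lit 0) (nat_lit 0x2000efab8c) (nat_lit 2147483648)]
noncomputable def e38_47 : List Rx := [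
  Rx.mk (nat_lit 178) (nat_lit 2) (nat_lit 6) (nat_lit 2) (nat_lit 7) (nat_lit 132) (nat_lit 12) r0_132 r8_12 (nat_lit 0) (nat_lit 0) (nat_lit 0) (nat_lit 0x2000efab8c) (nat_lit 2147483648),
  Rx.mk (nat_lit 292) (nat_lit 4) (nat_lit 4) (nat_lit 4) (nat_lit 0) (nat_lit 124) (nat_lit 0) r0_124 r8_0 (nat_lit 699134) (nat_lit 558198) (nat_lit 472505440) (nat_lit 0x11858be2f2) (nat_lit 6659296570),
  Rx.mk (nat_lit 294) (nat_lit 6) (nat_lit 4) (nat_lit 4) (nat_lit 1) (nat_lit 125) (nat_lit 1) r0_125 r8_1 (nat_lit 0) (nat_lit 12348484) (nat_lit 164641045) (nat_lit 0x199e5ea924) (nat_lit 4104668277),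
  Rx.mk (nat_lit 300) (nat_lit 4) (nat_lit 5) (nat_lit 4) (nat_lit 2) (nat_lit 127) (nat_lit 3) r0_127 r8_3 (nat_lit 44295479) (nat_lit 0) (nat_lit 457670761) (nat_lit 0x1a99669872) (nat_lit 4156204838),
  Rx.mk (nat_lit 302) (nat_lit 6) (nat_lit 5) (nat_lit 4) (nat_lit 3) (nat_lit 128) (nat_lit 4) r0_128 r8_4 (nat_lit 0) (nat_lit 0) (nat_lit 71617622) (nat_lit 0x1fec814016) (nat_lit 2241141020),
  Rx.mk (nat_lit 316) (nat_lit 4) (nat_lit 7) (nat_lit 4) (nat_lit 2) (nat_lit 133) (nat_lit 6) r0_133 r8_6 (nat_lit 16203895) (nat_lit 0) (nat_lit 74617973) (nat_lit 0x19b544d8a2) (nat_lit 3993550566),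
  Rx.mk (nat_lit 318) (nat_lit 6) (nat_lit 7) (nat_lit 4) (nat_lit 3) (nat_lit 134) (nat_lit 7) r0_134 r8_7 (nat_lit 0) (nat_lit 0) (nat_lit 158877595) (nat_lit 0x1fd910c394) (nat_lit 2349483443),
  Rx.mk (nat_lit 422) (nat_lit 6) (nat_lit 4) (nat_lit 6) (nat_lit 5) (nat_lit 126) (nat_lit 2) r0_126 r8_2 (nat_lit 0) (nat_lit 23182194) (nat_lit 0) (nat_lit 0x1d95408368) (nat_lit 2845270342),
  Rx.mk (nat_lit 430) (nat_lit 6) (nat_lit 5) (nat_lit 6) (nat_lit 7) (nat_lit 129) (nat_lit 5) r0_129 r8_5 (nat_lit 0) (nat_lit 0) (nat_lit 0) (nat_lit 0x1ff599fc9c) (nat_lit 2159689948),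
  Rx.mk (nat_lit 434) (nat_lit 2) (nat_lit 6) (nat_lit 6) (nat_lit 7) (nat_lit 131) (nat_lit 13) r0_131 r8_13 (nat_lit 0) (nat_lit 0) (nat_lit 0) (nat_lit 0x2000efab8c) (nat_lit 2147483648),
  Rx.mk (nat_lit 438) (nat_lit 6) (nat_lit 6) (nat_lit 6) (nat_lit 7) (nat_lit 130) (nat_lit 14) r0_130 r8_14 (nat_lit 0) (nat_lit 0) (nat_lit 0) (nat_lit 0x1fe8b50378) (nat_lit 2173652748),
  Rx.mk (nat_lit 446) (nat_lit 6) (nat_lit 7) (nat_lit 6) (nat_lit 7) (nat_lit 135) (nat_lit 11) r0_135 r8_11 (nat_lit 0) (nat_lit 0) (nat_lit 0) (nat_lit 0x1fffb6e1b8) (nat_lit 2148787748),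
  Rx.mk (nat_lit 508) (nat_lit 4) (nat_lit 7) (nat_lit 7) (nat_lit 6) (nat_lit 136) (nat_lit 8) r0_136 r8_8 (nat_lit 50768653) (nat_lit 0) (nat_lit 0) (nat_lit 0x1e85aaedac) (nat_lit 2610948001),
  Rx.mk (nat_lit 510) (nat_lit 6) (nat_lit 7) (nat_lit 7) (nat_lit 7) (nat_lit 137) (nat_lit 10) r0_137 r8_10 (nat_lit 0) (nat_lit 0) (nat_lit 0) (nat_lit 0x2000efab8c) (nat_lit 2147483648),
  Rx.mk (nat_lit 511) (nat_lit 7) (nat_lit 7) (nat_lit 7) (nat_lit 7) (nat_lit 138) (nat_lit 9) r0_138 r8_9 (nat_lit 0) (nat_lit 0) (nat_lit 0) (nat_lit 0x2000efab8c) (nat_lit 2147483648)]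
noncomputable def e38_48 : List Rx := [
  Rx.mk (nat_lit 300) (nat_lit 4) (nat_lit 5) (nat_lit 4) (nat_lit 2) (nat_lit 262) (nat_lit 65) r0_262 r9_65 (nat_lit 72232326) (nat_lit 0) (nat_lit 166779767) (nat_lit 0x190ef59338) (nat_lit 4322965641),
  Rx.mk (nat_lit 302) (nat_lit 6) (nat_lit 5) (nat_lit 4) (nat_lit 3) (nat_lit 263) (nat_lit 66) r0_263 r9_66 (nat_lit 0) (nat_lit 0) (nat_lit 73195626) (nat_lit 0x1fe7afec7c) (nat_lit 2247944174),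
  Rx.mk (nat_lit 430) (nat_lit 6) (nat_lit 5) (nat_lit 6) (nat_lit 7) (nat_lit 264) (nat_lit 67) r0_264 r9_67 (nat_lit 0) (nat_lit 0) (nat_lit 0) (nat_lit 0x1ff2f3eb7e) (nat_lit 2162569598)]
noncomputable def e38_49 : List Rx := [
  Rx.mk (nat_lit 300) (nat_lit 4) (nat_lit 5) (nat_lit 4) (nat_lit 2) (nat_lit 257) (nat_lit 155) r0_257 r9_155 (nat_lit 92061587) (nat_lit 0) (nat_lit 90581538) (nat_lit 0x1890a80cb8) (nat_lit 4404199273),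
  Rx.mk (nat_lit 302) (nat_lit 6) (nat_lit 5) (nat_lit 4) (nat_lit 3) (nat_lit 258) (nat_lit 156) r0_258 r9_156 (nat_lit 0) (nat_lit 0) (nat_lit 39267561) (nat_lit 0x2000efab8c) (nat_lit 2186751209),
  Rx.mk (nat_lit 364) (nat_lit 4) (nat_lit 5) (nat_lit 5) (nat_lit 6) (nat_lit 259) (nat_lit 157) r0_259 r9_157 (nat_lit 69251615) (nat_lit 0) (nat_lit 0) (nat_lit 0x1f82d6c8b6) (nat_lit 2353662613),
  Rx.mk (nat_lit 366) (nat_lit 6) (nat_lit 5) (nat_lit 5) (nat_lit 7) (nat_lit 260) (nat_lit 158) r0_260 r9_158 (nat_lit 0) (nat_lit 0) (nat_lit 0) (nat_lit 0x2000efab8c) (nat_lit 2147483648),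
  Rx.mk (nat_lit 430) (nat_lit 6) (nat_lit 5) (nat_lit 6) (nat_lit 7) (nat_lit 261) (nat_lit 159) r0_261 r9_159 (nat_lit 0) (nat_lit 0) (nat_lit 0) (nat_lit 0x2000efab8c) (nat_lit 2147483648)]
noncomputable def e38_50 : List Rx := [
  Rx.mk (nat_lit 199) (nat_lit 7) (nat_lit 0) (nat_lit 3) (nat_lit 5) (nat_lit 48) (nat_lit 95) r0_48 r3_95 (nat_lit 0) (nat_lit 2906) (nat_lit 0) (nat_lit 0x20010f203e) (nat_lit 2146362904),
  Rx.mk (nat_lit 223) (nat_lit 7) (nat_lit 3) (nat_lit 3) (nat_lit 7) (nat_lit 51) (nat_lit 96) r0_51 r3_96 (nat_lit 0) (nat_lit 0) (nat_lit 0) (nat_lit 0x1f10eee5bc) (nat_lit 2408480848),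
  Rx.mk (nat_lit 316) (nat_lit 4) (nat_lit 7) (nat_lit 4) (nat_lit 2) (nat_lit 43) (nat_lit 91) r0_43 r3_91 (nat_lit 73) (nat_lit 0) (nat_lit 215) (nat_lit 0x208ef5c466) (nat_lit 1995681986),
  Rx.mk (nat_lit 318) (nat_lit 6) (nat_lit 7) (nat_lit 4) (nat_lit 3) (nat_lit 44) (nat_lit 97) r0_44 r3_97 (nat_lit 0) (nat_lit 0) (nat_lit 19309) (nat_lit 0x1ddfe8eb08) (nat_lit 2740252157),
  Rx.mk (nat_lit 446) (nat_lit 6) (nat_lit 7) (nat_lit 6) (nat_lit 7) (nat_lit 45) (nat_lit 99) r0_45 r3_99 (nat_lit 0) (nat_lit 0) (nat_lit 0) (nat_lit 0x1f031cc922) (nat_lit 2423601598),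
  Rx.mk (nat_lit 476) (nat_lit 4) (nat_lit 3) (nat_lit 7) (nat_lit 6) (nat_lit 49) (nat_lit 93) r0_49 r3_93 (nat_lit 1834) (nat_lit 0) (nat_lit 0) (nat_lit 0x20001276d6) (nat_lit 2147409632),
  Rx.mk (nat_lit 479) (nat_lit 7) (nat_lit 3) (nat_lit 7) (nat_lit 7) (nat_lit 50) (nat_lit 94) r0_50 r3_94 (nat_lit 0) (nat_lit 0) (nat_lit 0) (nat_lit 0x1fefa3a5ae) (nat_lit 2166113798),
  Rx.mk (nat_lit 508) (nat_lit 4) (nat_lit 7) (nat_lit 7) (nat_lit 6) (nat_lit 46) (nat_lit 92) r0_46 r3_92 (nat_lit 2361722) (nat_lit 0) (nat_lit 0) (nat_lit 0x1f6c91dc1c) (nat_lit 2310927070),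
  Rx.mk (nat_lit 510) (nat_lit 6) (nat_lit 7) (nat_lit 7) (nat_lit 7) (nat_lit 47) (nat_lit 98) r0_47 r3_98 (nat_lit 0) (nat_lit 0) (nat_lit 0) (nat_lit 0x1f7d715e86) (nat_lit 2290386998)]
noncomputable def e38_51 : List Rx := [
  Rx.mk (nat_lit 316) (nat_lit 4) (nat_lit 7) (nat_lit 4) (nat_lit 2) (nat_lit 142) (nat_lit 93) r0_142 r4_93 (nat_lit 13521) (nat_lit 0) (nat_lit 584415283) (nat_lit 0x177c6cbc18) (nat_lit 5106410752),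
  Rx.mk (nat_lit 318) (nat_lit 6) (nat_lit 7) (nat_lit 4) (nat_lit 3) (nat_lit 143) (nat_lit 95) r0_143 r4_95 (nat_lit 0) (nat_lit 0) (nat_lit 797087088) (nat_lit 0x208a696d12) (nat_lit 2798084686),
  Rx.mk (nat_lit 446) (nat_lit 6) (nat_lit 7) (nat_lit 6) (nat_lit 7) (nat_lit 144) (nat_lit 97) r0_144 r4_97 (nat_lit 0) (nat_lit 0) (nat_lit 0) (nat_lit 0x2000c8a456) (nat_lit 2147637498),
  Rx.mk (nat_lit 508) (nat_lit 4) (nat_lit 7) (nat_lit 7) (nat_lit 6) (nat_lit 145) (nat_lit 94) r0_145 r4_94 (nat_lit 18823017) (nat_lit 0) (nat_lit 0) (nat_lit 0x1ff87f2cde) (nat_lit 2175355815),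
  Rx.mk (nat_lit 510) (nat_lit 6) (nat_lit 7) (nat_lit 7) (nat_lit 7) (nat_lit 146) (nat_lit 96) r0_146 r4_96 (nat_lit 0) (nat_lit 0) (nat_lit 0) (nat_lit 0x2021a6b00a) (nat_lit 2112456498)]
noncomputable def e38_52 : List Rx := [
  Rx.mk (nat_lit 199) (nat_lit 7) (nat_lit 0) (nat_lit 3) (nat_lit 5) (nat_lit 208) (nat_lit 99) r0_208 r5_99 (nat_lit 0) (nat_lit 14020635) (nat_lit 0) (nat_lit 0x1e6d97f944) (nat_lit 2600362883),
  Rx.mk (nat_lit 284) (nat_lit 4) (nat_lit 3) (nat_lit 4) (nat_lit 2) (nat_lit 209) (nat_lit 95) r0_209 r5_95 (nat_lit 3084) (nat_lit 0) (nat_lit 3543) (nat_lit 0x1fffe821e2) (nat_lit 2147592925),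
  Rx.mk (nat_lit 316) (nat_lit 4) (nat_lit 7) (nat_lit 4) (nat_lit 2) (nat_lit 204) (nat_lit 94) r0_204 r5_94 (nat_lit 152079) (nat_lit 0) (nat_lit 2449785) (nat_lit 0x206a335292) (nat_lit 2037358062),
  Rx.mk (nat_lit 318) (nat_lit 6) (nat_lit 7) (nat_lit 4) (nat_lit 3) (nat_lit 205) (nat_lit 100) r0_205 r5_100 (nat_lit 0) (nat_lit 0) (nat_lit 681694027) (nat_lit 0x1fc3079d52) (nat_lit 2896214325),
  Rx.mk (nat_lit 446) (nat_lit 6) (nat_lit 7) (nat_lit 6) (nat_lit 7) (nat_lit 206) (nat_lit 101) r0_206 r5_101 (nat_lit 0) (nat_lit 0) (nat_lit 0) (nat_lit 0x1fe2b2faa2) (nat_lit 2180140898),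
  Rx.mk (nat_lit 455) (nat_lit 7) (nat_lit 0) (nat_lit 7) (nat_lit 5) (nat_lit 207) (nat_lit 97) r0_207 r5_97 (nat_lit 0) (nat_lit 8862298) (nat_lit 0) (nat_lit 0x1cbd542cfc) (nat_lit 3066097946),
  Rx.mk (nat_lit 476) (nat_lit 4) (nat_lit 3) (nat_lit 7) (nat_lit 6) (nat_lit 210) (nat_lit 96) r0_210 r5_96 (nat_lit 11067647) (nat_lit 0) (nat_lit 0) (nat_lit 0x200a027f1a) (nat_lit 2148740545),
  Rx.mk (nat_lit 479) (nat_lit 7) (nat_lit 3) (nat_lit 7) (nat_lit 7) (nat_lit 211) (nat_lit 98) r0_211 r5_98 (nat_lit 0) (nat_lit 0) (nat_lit 0) (nat_lit 0x2000efab8c) (nat_lit 2147483648)]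
noncomputable def e38_53 : List Rx := [
  Rx.mk (nat_lit 19) (nat_lit 3) (nat_lit 2) (nat_lit 0) (nat_lit 3) (nat_lit 59) (nat_lit 5) r0_59 r4_5 (nat_lit 0) (nat_lit 0) (nat_lit 377222843) (nat_lit 0x1fa5877f7c) (nat_lit 2623806591),
  Rx.mk (nat_lit 147) (nat_lit 3) (nat_lit 2) (nat_lit 2) (nat_lit 7) (nat_lit 60) (nat_lit 7) r0_60 r4_7 (nat_lit 0) (nat_lit 0) (nat_lit 0) (nat_lit 0x1feb1c0b0c) (nat_lit 2171020348),
  Rx.mk (nat_lit 195) (nat_lit 3) (nat_lit 0) (nat_lit 3) (nat_lit 5) (nat_lit 58) (nat_lit 0) r0_58 r4_0 (nat_lit 0) (nat_lit 240284) (nat_lit 0) (nat_lit 0x1ac7316714) (nat_lit 3604123732),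
  Rx.mk (nat_lit 199) (nat_lit 7) (nat_lit 0) (nat_lit 3) (nat_lit 5) (nat_lit 57) (nat_lit 1) r0_57 r4_1 (nat_lit 0) (nat_lit 25610096) (nat_lit 0) (nat_lit 0x1fa1c5f8f0) (nat_lit 2276387244),
  Rx.mk (nat_lit 211) (nat_lit 3) (nat_lit 2) (nat_lit 3) (nat_lit 7) (nat_lit 61) (nat_lit 6) r0_61 r4_6 (nat_lit 0) (nat_lit 0) (nat_lit 0) (nat_lit 0x1ffa6263f4) (nat_lit 2154445148),
  Rx.mk (nat_lit 223) (nat_lit 7) (nat_lit 3) (nat_lit 3) (nat_lit 7) (nat_lit 64) (nat_lit 2) r0_64 r4_2 (nat_lit 0) (nat_lit 0) (nat_lit 0) (nat_lit 0x2019baf5ea) (nat_lit 2120890398),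
  Rx.mk (nat_lit 316) (nat_lit 4) (nat_lit 7) (nat_lit 4) (nat_lit 2) (nat_lit 52) (nat_lit 8) r0_52 r4_8 (nat_lit 2811065) (nat_lit 0) (nat_lit 10795796) (nat_lit 0x1bb0099aa6) (nat_lit 3364106359),
  Rx.mk (nat_lit 318) (nat_lit 6) (nat_lit 7) (nat_lit 4) (nat_lit 3) (nat_lit 53) (nat_lit 9) r0_53 r4_9 (nat_lit 0) (nat_lit 0) (nat_lit 172912565) (nat_lit 0x1fa59890e6) (nat_lit 2419478663),
  Rx.mk (nat_lit 446) (nat_lit 6) (nat_lit 7) (nat_lit 6) (nat_lit 7) (nat_lit 54) (nat_lit 12) r0_54 r4_12 (nat_lit 0) (nat_lit 0) (nat_lit 0) (nat_lit 0x1d9b5930e2) (nat_lit 2815357398),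
  Rx.mk (nat_lit 476) (nat_lit 4) (nat_lit 3) (nat_lit 7) (nat_lit 6) (nat_lit 62) (nat_lit 3) r0_62 r4_3 (nat_lit 14357593) (nat_lit 0) (nat_lit 0) (nat_lit 0x20073225b0) (nat_lit 2155067741),
  Rx.mk (nat_lit 479) (nat_lit 7) (nat_lit 3) (nat_lit 7) (nat_lit 7) (nat_lit 63) (nat_lit 4) r0_63 r4_4 (nat_lit 0) (nat_lit 0) (nat_lit 0) (nat_lit 0x201be52be2) (nat_lit 2118602698),
  Rx.mk (nat_lit 508) (nat_lit 4) (nat_lit 7) (nat_lit 7) (nat_lit 6) (nat_lit 55) (nat_lit 10) r0_55 r4_10 (nat_lit 14431387) (nat_lit 0) (nat_lit 0) (nat_lit 0x2014f336d0) (nat_lit 2140417235),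
  Rx.mk (nat_lit 510) (nat_lit 6) (nat_lit 7) (nat_lit 7) (nat_lit 7) (nat_lit 56) (nat_lit 11) r0_56 r4_11 (nat_lit 0) (nat_lit 0) (nat_lit 0) (nat_lit 0x200b2fd50e) (nat_lit 2136456398)]
noncomputable def e38_54 : List Rx := [
  Rx.mk (nat_lit 316) (nat_lit 4) (nat_lit 7) (nat_lit 4) (nat_lit 2) (nat_lit 147) (nat_lit 77) r0_147 r10_77 (nat_lit 262045) (nat_lit 0) (nat_lit 1138904) (nat_lit 0x1a96d85a00) (nat_lit 3657986597),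
  Rx.mk (nat_lit 318) (nat_lit 6) (nat_lit 7) (nat_lit 4) (nat_lit 3) (nat_lit 148) (nat_lit 79) r0_148 r10_79 (nat_lit 0) (nat_lit 0) (nat_lit 338475005) (nat_lit 0x1fe001c108) (nat_lit 2521532953),
  Rx.mk (nat_lit 446) (nat_lit 6) (nat_lit 7) (nat_lit 6) (nat_lit 7) (nat_lit 149) (nat_lit 81) r0_149 r10_81 (nat_lit 0) (nat_lit 0) (nat_lit 0) (nat_lit 0x1fdff99294) (nat_lit 2183098448),
  Rx.mk (nat_lit 508) (nat_lit 4) (nat_lit 7) (nat_lit 7) (nat_lit 6) (nat_lit 150) (nat_lit 78) r0_150 r10_78 (nat_lit 45719485) (nat_lit 0) (nat_lit 0) (nat_lit 0x1daaf8a9d8) (nat_lit 2844142233),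
  Rx.mk (nat_lit 510) (nat_lit 6) (nat_lit 7) (nat_lit 7) (nat_lit 7) (nat_lit 151) (nat_lit 80) r0_151 r10_80 (nat_lit 0) (nat_lit 0) (nat_lit 0) (nat_lit 0x1ff4aead0a) (nat_lit 2160688798)]
noncomputable def e38_55 : List Rx := [
  Rx.mk (nat_lit 195) (nat_lit 3) (nat_lit 0) (nat_lit 3) (nat_lit 5) (nat_lit 217) (nat_lit 99) r0_217 r11_99 (nat_lit 0) (nat_lit 14314335) (nat_lit 0) (nat_lit 0x1d4d782284) (nat_lit 2914535483),
  Rx.mk (nat_lit 199) (nat_lit 7) (nat_lit 0) (nat_lit 3) (nat_lit 5) (nat_lit 216) (nat_lit 96) r0_216 r11_96 (nat_lit 0) (nat_lit 15731749) (nat_lit 0) (nat_lit 0x202174caea) (nat_lit 2128376747),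
  Rx.mk (nat_lit 211) (nat_lit 3) (nat_lit 2) (nat_lit 3) (nat_lit 7) (nat_lit 218) (nat_lit 100) r0_218 r11_100 (nat_lit 0) (nat_lit 0) (nat_lit 0) (nat_lit 0x202403ff74) (nat_lit 2109880248),
  Rx.mk (nat_lit 284) (nat_lit 4) (nat_lit 3) (nat_lit 4) (nat_lit 2) (nat_lit 219) (nat_lit 92) r0_219 r11_92 (nat_lit 3472685) (nat_lit 0) (nat_lit 3368670) (nat_lit 0x1cedbdefae) (nat_lit 3011201853),
  Rx.mk (nat_lit 316) (nat_lit 4) (nat_lit 7) (nat_lit 4) (nat_lit 2) (nat_lit 212) (nat_lit 91) r0_212 r11_91 (nat_lit 15579271) (nat_lit 0) (nat_lit 780504845) (nat_lit 0x1f8dad26d6) (nat_lit 3068659914),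
  Rx.mk (nat_lit 318) (nat_lit 6) (nat_lit 7) (nat_lit 4) (nat_lit 3) (nat_lit 213) (nat_lit 97) r0_213 r11_97 (nat_lit 0) (nat_lit 0) (nat_lit 334762896) (nat_lit 0x1fea0d66a2) (nat_lit 2507008394),
  Rx.mk (nat_lit 446) (nat_lit 6) (nat_lit 7) (nat_lit 6) (nat_lit 7) (nat_lit 214) (nat_lit 98) r0_214 r11_98 (nat_lit 0) (nat_lit 0) (nat_lit 0) (nat_lit 0x20205f5378) (nat_lit 2113776548),
  Rx.mk (nat_lit 455) (nat_lit 7) (nat_lit 0) (nat_lit 7) (nat_lit 5) (nat_lit 215) (nat_lit 94) r0_215 r11_94 (nat_lit 0) (nat_lit 15591372) (nat_lit 0) (nat_lit 0x1fcf2f6812) (nat_lit 2216874370),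
  Rx.mk (nat_lit 476) (nat_lit 4) (nat_lit 3) (nat_lit 7) (nat_lit 6) (nat_lit 220) (nat_lit 93) r0_220 r11_93 (nat_lit 20559212) (nat_lit 0) (nat_lit 0) (nat_lit 0x2019697d32) (nat_lit 2141803110),
  Rx.mk (nat_lit 479) (nat_lit 7) (nat_lit 3) (nat_lit 7) (nat_lit 7) (nat_lit 221) (nat_lit 95) r0_221 r11_95 (nat_lit 0) (nat_lit 0) (nat_lit 0) (nat_lit 0x200e89d2fe) (nat_lit 2132889398)]
noncomputable def e38_56 : List Rx := [
  Rx.mk (nat_lit 199) (nat_lit 7) (nat_lit 0) (nat_lit 3) (nat_lit 5) (nat_lit 67) (nat_lit 0) r0_67 r5_0 (nat_lit 0) (nat_lit 5023616) (nat_lit 0) (nat_lit 0x1fcf4963b6) (nat_lit 2206060714),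
  Rx.mk (nat_lit 220) (nat_lit 4) (nat_lit 3) (nat_lit 3) (nat_lit 6) (nat_lit 69) (nat_lit 1) r0_69 r5_1 (nat_lit 4015658) (nat_lit 0) (nat_lit 0) (nat_lit 0x1f80388130) (nat_lit 2291139706),
  Rx.mk (nat_lit 223) (nat_lit 7) (nat_lit 3) (nat_lit 3) (nat_lit 7) (nat_lit 70) (nat_lit 2) r0_70 r5_2 (nat_lit 0) (nat_lit 0) (nat_lit 0) (nat_lit 0x1fbd392d3c) (nat_lit 2220843648),
  Rx.mk (nat_lit 476) (nat_lit 4) (nat_lit 3) (nat_lit 7) (nat_lit 6) (nat_lit 68) (nat_lit 3) r0_68 r5_3 (nat_lit 6870395) (nat_lit 0) (nat_lit 0) (nat_lit 0x1fad06131c) (nat_lit 2245263143),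
  Rx.mk (nat_lit 508) (nat_lit 4) (nat_lit 7) (nat_lit 7) (nat_lit 6) (nat_lit 65) (nat_lit 4) r0_65 r5_4 (nat_lit 9043971) (nat_lit 0) (nat_lit 0) (nat_lit 0x1f10a8a7fa) (nat_lit 2417939669),
  Rx.mk (nat_lit 510) (nat_lit 6) (nat_lit 7) (nat_lit 7) (nat_lit 7) (nat_lit 66) (nat_lit 5) r0_66 r5_5 (nat_lit 0) (nat_lit 0) (nat_lit 0) (nat_lit 0x1ff558b91c) (nat_lit 2159948448)]
noncomputable def e38_57 : List Rx := [
  Rx.mk (nat_lit 508) (nat_lit 4) (nat_lit 7) (nat_lit 7) (nat_lit 6) (nat_lit 152) (nat_lit 0) r0_152 r11_0 (nat_lit 48603275) (nat_lit 0) (nat_lit 0) (nat_lit 0x1fd6bf4ae8) (nat_lit 2241700223),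
  Rx.mk (nat_lit 510) (nat_lit 6) (nat_lit 7) (nat_lit 7) (nat_lit 7) (nat_lit 153) (nat_lit 1) r0_153 r11_1 (nat_lit 0) (nat_lit 0) (nat_lit 0) (nat_lit 0x20067c0c94) (nat_lit 2141514348)]
noncomputable def e38 : List (List Rx) := [e38_0, e38_1, e38_2, e38_3, e38_4, e38_5, e38_6, e38_7, e38_8, e38_9, e38_10, e38_11, e38_12, e38_13, e38_14, e38_15, e38_16, e38_17, e38_18, e38_19, e38_20, e38_21, e38_22, e38_23, e38_24, e38_25, e38_26, e38_27, e38_28, e38_29, e38_30, e38_31, e38_32, e38_33, e38_34, e38_35, e38_36, e38_37, e38_38, e38_39, e38_40, e38_41, e38_42, e38_43, e38_44, e38_45, e38_46, e38_47, e38_48, e38_49, e38_50, e38_51, e38_52, e38_53, e38_54, e38_55, e38_56, e38_57]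
noncomputable def e39_0 : List Rx := [
  Rx.mk (nat_lit 5) (nat_lit 5) (nat_lit 0) (nat_lit 0) (nat_lit 1) (nat_lit 315) (nat_lit 250) r7_315 r0_250 (nat_lit 0) (nat_lit 114738951) (nat_lit 25106789) (nat_lit 0x198796769a) (nat_lit 4092190738),
  Rx.mk (nat_lit 13) (nat_lit 5) (nat_lit 1) (nat_lit 0) (nat_lit 3) (nat_lit 316) (nat_lit 252) r7_316 r0_252 (nat_lit 0) (nat_lit 0) (nat_lit 22821440) (nat_lit 0x1b76f69c00) (nat_lit 3435676488),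
  Rx.mk (nat_lit 69) (nat_lit 5) (nat_lit 0) (nat_lit 1) (nat_lit 5) (nat_lit 317) (nat_lit 251) r7_317 r0_251 (nat_lit 0) (nat_lit 36924422) (nat_lit 0) (nat_lit 0x1e44557ca0) (nat_lit 2668277270),
  Rx.mk (nat_lit 77) (nat_lit 5) (nat_lit 1) (nat_lit 1) (nat_lit 7) (nat_lit 318) (nat_lit 253) r7_318 r0_253 (nat_lit 0) (nat_lit 0) (nat_lit 0) (nat_lit 0x1fdc2e0604) (nat_lit 2187177448)]
noncomputable def e39_1 : List Rx := [
  Rx.mk (nat_lit 69) (nat_lit 5) (nat_lit 0) (nat_lit 1) (nat_lit 5) (nat_lit 397) (nat_lit 256) r7_397 r1_256 (nat_lit 0) (nat_lit 16795015) (nat_lit 0) (nat_lit 0x1abd690b42) (nat_lit 3631785813),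
  Rx.mk (nat_lit 77) (nat_lit 5) (nat_lit 1) (nat_lit 1) (nat_lit 7) (nat_lit 398) (nat_lit 257) r7_398 r1_257 (nat_lit 0) (nat_lit 0) (nat_lit 0) (nat_lit 0x1fae1bec86) (nat_lit 2237247798)]
noncomputable def e39_2 : List Rx := [
  Rx.mk (nat_lit 77) (nat_lit 5) (nat_lit 1) (nat_lit 1) (nat_lit 7) (nat_lit 399) (nat_lit 284) r7_399 r2_284 (nat_lit 0) (nat_lit 0) (nat_lit 0) (nat_lit 0x2000efab8c) (nat_lit 2147483648),
  Rx.mk (nat_lit 333) (nat_lit 5) (nat_lit 1) (nat_lit 5) (nat_lit 7) (nat_lit 400) (nat_lit 285) r7_400 r2_285 (nat_lit 0) (nat_lit 0) (nat_lit 0) (nat_lit 0x2000efab8c) (nat_lit 2147483648)]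
noncomputable def e39_3 : List Rx := [
  Rx.mk (nat_lit 5) (nat_lit 5) (nat_lit 0) (nat_lit 0) (nat_lit 1) (nat_lit 412) (nat_lit 250) r7_412 r3_250 (nat_lit 0) (nat_lit 3027) (nat_lit 2430) (nat_lit 0x1c96a78c70) (nat_lit 3098938105),
  Rx.mk (nat_lit 13) (nat_lit 5) (nat_lit 1) (nat_lit 0) (nat_lit 3) (nat_lit 413) (nat_lit 252) r7_413 r3_252 (nat_lit 0) (nat_lit 0) (nat_lit 71436) (nat_lit 0x1ecd88f65a) (nat_lit 2481433234),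
  Rx.mk (nat_lit 197) (nat_lit 5) (nat_lit 0) (nat_lit 3) (nat_lit 5) (nat_lit 414) (nat_lit 251) r7_414 r3_251 (nat_lit 0) (nat_lit 2374) (nat_lit 0) (nat_lit 0x1fff9a4832) (nat_lit 2147919272),
  Rx.mk (nat_lit 205) (nat_lit 5) (nat_lit 1) (nat_lit 3) (nat_lit 7) (nat_lit 415) (nat_lit 253) r7_415 r3_253 (nat_lit 0) (nat_lit 0) (nat_lit 0) (nat_lit 0x2023d6e4a8) (nat_lit 2110098548)]
noncomputable def e39_4 : List Rx := [
  Rx.mk (nat_lit 5) (nat_lit 5) (nat_lit 0) (nat_lit 0) (nat_lit 1) (nat_lit 416) (nat_lit 265) r7_416 r4_265 (nat_lit 0) (nat_lit 34044114) (nat_lit 62737068) (nat_lit 0x1cc30aedd4) (nat_lit 3147862730),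
  Rx.mk (nat_lit 13) (nat_lit 5) (nat_lit 1) (nat_lit 0) (nat_lit 3) (nat_lit 417) (nat_lit 268) r7_417 r4_268 (nat_lit 0) (nat_lit 0) (nat_lit 35717356) (nat_lit 0x1ff8a3b8e2) (nat_lit 2192124454),
  Rx.mk (nat_lit 69) (nat_lit 5) (nat_lit 0) (nat_lit 1) (nat_lit 5) (nat_lit 418) (nat_lit 266) r7_418 r4_266 (nat_lit 0) (nat_lit 39267561) (nat_lit 0) (nat_lit 0x2000efab8c) (nat_lit 2186751209),
  Rx.mk (nat_lit 77) (nat_lit 5) (nat_lit 1) (nat_lit 1) (nat_lit 7) (nat_lit 419) (nat_lit 269) r7_419 r4_269 (nat_lit 0) (nat_lit 0) (nat_lit 0) (nat_lit 0x2000efab8c) (nat_lit 2147483648),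
  Rx.mk (nat_lit 197) (nat_lit 5) (nat_lit 0) (nat_lit 3) (nat_lit 5) (nat_lit 420) (nat_lit 267) r7_420 r4_267 (nat_lit 0) (nat_lit 26162412) (nat_lit 0) (nat_lit 0x2009bf166c) (nat_lit 2164172060),
  Rx.mk (nat_lit 205) (nat_lit 5) (nat_lit 1) (nat_lit 3) (nat_lit 7) (nat_lit 421) (nat_lit 270) r7_421 r4_270 (nat_lit 0) (nat_lit 0) (nat_lit 0) (nat_lit 0x2000efab8c) (nat_lit 2147483648)]
noncomputable def e39_5 : List Rx := [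
  Rx.mk (nat_lit 197) (nat_lit 5) (nat_lit 0) (nat_lit 3) (nat_lit 5) (nat_lit 422) (nat_lit 256) r7_422 r5_256 (nat_lit 0) (nat_lit 3251367) (nat_lit 0) (nat_lit 0x1d3435a2ba) (nat_lit 2930865065),
  Rx.mk (nat_lit 205) (nat_lit 5) (nat_lit 1) (nat_lit 3) (nat_lit 7) (nat_lit 423) (nat_lit 257) r7_423 r5_257 (nat_lit 0) (nat_lit 0) (nat_lit 0) (nat_lit 0x1ff6e38154) (nat_lit 2158169848)]
noncomputable def e39_6 : List Rx := [
  Rx.mk (nat_lit 268) (nat_lit 4) (nat_lit 1) (nat_lit 4) (nat_lit 2) (nat_lit 52) (nat_lit 250) r7_52 r3_250 (nat_lit 3027) (nat_lit 0) (nat_lit 2430) (nat_lit 0x1c96a78c70) (nat_lit 3098938105),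
  Rx.mk (nat_lit 269) (nat_lit 5) (nat_lit 1) (nat_lit 4) (nat_lit 3) (nat_lit 54) (nat_lit 252) r7_54 r3_252 (nat_lit 0) (nat_lit 0) (nat_lit 71436) (nat_lit 0x1ecd88f65a) (nat_lit 2481433234),
  Rx.mk (nat_lit 460) (nat_lit 4) (nat_lit 1) (nat_lit 7) (nat_lit 6) (nat_lit 53) (nat_lit 251) r7_53 r3_251 (nat_lit 2374) (nat_lit 0) (nat_lit 0) (nat_lit 0x1fff9a4832) (nat_lit 2147919272),
  Rx.mk (nat_lit 461) (nat_lit 5) (nat_lit 1) (nat_lit 7) (nat_lit 7) (nat_lit 55) (nat_lit 253) r7_55 r3_253 (nat_lit 0) (nat_lit 0) (nat_lit 0) (nat_lit 0x2023d6e4a8) (nat_lit 2110098548)]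
noncomputable def e39_7 : List Rx := [
  Rx.mk (nat_lit 268) (nat_lit 4) (nat_lit 1) (nat_lit 4) (nat_lit 2) (nat_lit 217) (nat_lit 250) r7_217 r0_250 (nat_lit 114738951) (nat_lit 0) (nat_lit 25106789) (nat_lit 0x198796769a) (nat_lit 4092190738),
  Rx.mk (nat_lit 269) (nat_lit 5) (nat_lit 1) (nat_lit 4) (nat_lit 3) (nat_lit 219) (nat_lit 252) r7_219 r0_252 (nat_lit 0) (nat_lit 0) (nat_lit 22821440) (nat_lit 0x1b76f69c00) (nat_lit 3435676488),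
  Rx.mk (nat_lit 332) (nat_lit 4) (nat_lit 1) (nat_lit 5) (nat_lit 6) (nat_lit 218) (nat_lit 251) r7_218 r0_251 (nat_lit 36924422) (nat_lit 0) (nat_lit 0) (nat_lit 0x1e44557ca0) (nat_lit 2668277270),
  Rx.mk (nat_lit 333) (nat_lit 5) (nat_lit 1) (nat_lit 5) (nat_lit 7) (nat_lit 220) (nat_lit 253) r7_220 r0_253 (nat_lit 0) (nat_lit 0) (nat_lit 0) (nat_lit 0x1fdc2e0604) (nat_lit 2187177448)]
noncomputable def e39_8 : List Rx := [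
  Rx.mk (nat_lit 332) (nat_lit 4) (nat_lit 1) (nat_lit 5) (nat_lit 6) (nat_lit 221) (nat_lit 256) r7_221 r1_256 (nat_lit 16795015) (nat_lit 0) (nat_lit 0) (nat_lit 0x1abd690b42) (nat_lit 3631785813),
  Rx.mk (nat_lit 333) (nat_lit 5) (nat_lit 1) (nat_lit 5) (nat_lit 7) (nat_lit 222) (nat_lit 257) r7_222 r1_257 (nat_lit 0) (nat_lit 0) (nat_lit 0) (nat_lit 0x1fae1bec86) (nat_lit 2237247798)]
noncomputable def e39_9 : List Rx := [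
  Rx.mk (nat_lit 268) (nat_lit 4) (nat_lit 1) (nat_lit 4) (nat_lit 2) (nat_lit 223) (nat_lit 265) r7_223 r4_265 (nat_lit 34044114) (nat_lit 0) (nat_lit 62737068) (nat_lit 0x1cc30aedd4) (nat_lit 3147862730),
  Rx.mk (nat_lit 269) (nat_lit 5) (nat_lit 1) (nat_lit 4) (nat_lit 3) (nat_lit 226) (nat_lit 268) r7_226 r4_268 (nat_lit 0) (nat_lit 0) (nat_lit 35717356) (nat_lit 0x1ff8a3b8e2) (nat_lit 2192124454),
  Rx.mk (nat_lit 332) (nat_lit 4) (nat_lit 1) (nat_lit 5) (nat_lit 6) (nat_lit 224) (nat_lit 266) r7_224 r4_266 (nat_lit 39267561) (nat_lit 0) (nat_lit 0) (nat_lit 0x2000efab8c) (nat_lit 2186751209),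
  Rx.mk (nat_lit 333) (nat_lit 5) (nat_lit 1) (nat_lit 5) (nat_lit 7) (nat_lit 227) (nat_lit 269) r7_227 r4_269 (nat_lit 0) (nat_lit 0) (nat_lit 0) (nat_lit 0x2000efab8c) (nat_lit 2147483648),
  Rx.mk (nat_lit 460) (nat_lit 4) (nat_lit 1) (nat_lit 7) (nat_lit 6) (nat_lit 225) (nat_lit 267) r7_225 r4_267 (nat_lit 26162412) (nat_lit 0) (nat_lit 0) (nat_lit 0x2009bf166c) (nat_lit 2164172060),
  Rx.mk (nat_lit 461) (nat_lit 5) (nat_lit 1) (nat_lit 7) (nat_lit 7) (nat_lit 228) (nat_lit 270) r7_228 r4_270 (nat_lit 0) (nat_lit 0) (nat_lit 0) (nat_lit 0x2000efab8c) (nat_lit 2147483648)]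
noncomputable def e39_10 : List Rx := [
  Rx.mk (nat_lit 197) (nat_lit 5) (nat_lit 0) (nat_lit 3) (nat_lit 5) (nat_lit 282) (nat_lit 282) r7_282 r6_282 (nat_lit 0) (nat_lit 13430557) (nat_lit 0) (nat_lit 0x1ff86b632a) (nat_lit 2170020455),
  Rx.mk (nat_lit 204) (nat_lit 4) (nat_lit 1) (nat_lit 3) (nat_lit 6) (nat_lit 280) (nat_lit 280) r7_280 r6_280 (nat_lit 6173782) (nat_lit 0) (nat_lit 0) (nat_lit 0x1d1b708b64) (nat_lit 2960916230),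
  Rx.mk (nat_lit 205) (nat_lit 5) (nat_lit 1) (nat_lit 3) (nat_lit 7) (nat_lit 283) (nat_lit 284) r7_283 r6_284 (nat_lit 0) (nat_lit 0) (nat_lit 0) (nat_lit 0x2014b5fc66) (nat_lit 2126224198),
  Rx.mk (nat_lit 453) (nat_lit 5) (nat_lit 0) (nat_lit 7) (nat_lit 5) (nat_lit 284) (nat_lit 283) r7_284 r6_283 (nat_lit 0) (nat_lit 6173782) (nat_lit 0) (nat_lit 0x1d1b708b64) (nat_lit 2960916230),
  Rx.mk (nat_lit 460) (nat_lit 4) (nat_lit 1) (nat_lit 7) (nat_lit 6) (nat_lit 281) (nat_lit 281) r7_281 r6_281 (nat_lit 13430557) (nat_lit 0) (nat_lit 0) (nat_lit 0x1ff86b632a) (nat_lit 2170020455),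
  Rx.mk (nat_lit 461) (nat_lit 5) (nat_lit 1) (nat_lit 7) (nat_lit 7) (nat_lit 285) (nat_lit 285) r7_285 r6_285 (nat_lit 0) (nat_lit 0) (nat_lit 0) (nat_lit 0x2014b5fc66) (nat_lit 2126224198)]
noncomputable def e39_11 : List Rx := [
  Rx.mk (nat_lit 460) (nat_lit 4) (nat_lit 1) (nat_lit 7) (nat_lit 6) (nat_lit 286) (nat_lit 256) r7_286 r5_256 (nat_lit 3251367) (nat_lit 0) (nat_lit 0) (nat_lit 0x1d3435a2ba) (nat_lit 2930865065),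
  Rx.mk (nat_lit 461) (nat_lit 5) (nat_lit 1) (nat_lit 7) (nat_lit 7) (nat_lit 287) (nat_lit 257) r7_287 r5_257 (nat_lit 0) (nat_lit 0) (nat_lit 0) (nat_lit 0x1ff6e38154) (nat_lit 2158169848)]
noncomputable def e39_12 : List Rx := [
  Rx.mk (nat_lit 1) (nat_lit 1) (nat_lit 0) (nat_lit 0) (nat_lit 1) (nat_lit 319) (nat_lit 178) r7_319 r0_178 (nat_lit 0) (nat_lit 13826) (nat_lit 394520) (nat_lit 0x1be69cc70a) (nat_lit 3291128944),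
  Rx.mk (nat_lit 5) (nat_lit 5) (nat_lit 0) (nat_lit 0) (nat_lit 1) (nat_lit 325) (nat_lit 177) r7_325 r0_177 (nat_lit 0) (nat_lit 70053) (nat_lit 364323767) (nat_lit 0x1936d6e51e) (nat_lit 4404409418),
  Rx.mk (nat_lit 9) (nat_lit 1) (nat_lit 1) (nat_lit 0) (nat_lit 3) (nat_lit 320) (nat_lit 180) r7_320 r0_180 (nat_lit 0) (nat_lit 0) (nat_lit 52001452) (nat_lit 0x1e69666108) (nat_lit 2642941100),
  Rx.mk (nat_lit 13) (nat_lit 5) (nat_lit 1) (nat_lit 0) (nat_lit 3) (nat_lit 326) (nat_lit 179) r7_326 r0_179 (nat_lit 0) (nat_lit 0) (nat_lit 2076918) (nat_lit 0x16b9749910) (nat_lit 4736536266),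
  Rx.mk (nat_lit 17) (nat_lit 1) (nat_lit 2) (nat_lit 0) (nat_lit 3) (nat_lit 321) (nat_lit 181) r7_321 r0_181 (nat_lit 0) (nat_lit 0) (nat_lit 1259355059) (nat_lit 0x20beee895a) (nat_lit 3204160657),
  Rx.mk (nat_lit 193) (nat_lit 1) (nat_lit 0) (nat_lit 3) (nat_lit 5) (nat_lit 322) (nat_lit 182) r7_322 r0_182 (nat_lit 0) (nat_lit 8222135) (nat_lit 0) (nat_lit 0x20013cd0ec) (nat_lit 2155212183),
  Rx.mk (nat_lit 201) (nat_lit 1) (nat_lit 1) (nat_lit 3) (nat_lit 7) (nat_lit 323) (nat_lit 183) r7_323 r0_183 (nat_lit 0) (nat_lit 0) (nat_lit 0) (nat_lit 0x201d3442b2) (nat_lit 2117185098),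
  Rx.mk (nat_lit 209) (nat_lit 1) (nat_lit 2) (nat_lit 3) (nat_lit 7) (nat_lit 324) (nat_lit 184) r7_324 r0_184 (nat_lit 0) (nat_lit 0) (nat_lit 0) (nat_lit 0x203183aa1e) (nat_lit 2095553398)]
noncomputable def e39_13 : List Rx := [
  Rx.mk (nat_lit 1) (nat_lit 1) (nat_lit 0) (nat_lit 0) (nat_lit 1) (nat_lit 327) (nat_lit 327) r7_327 r7_327 (nat_lit 0) (nat_lit 6981812) (nat_lit 6981812) (nat_lit 0x17dd520bbe) (nat_lit 4430838622),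
  Rx.mk (nat_lit 5) (nat_lit 5) (nat_lit 0) (nat_lit 0) (nat_lit 1) (nat_lit 335) (nat_lit 335) r7_335 r7_335 (nat_lit 0) (nat_lit 8401195) (nat_lit 8401195) (nat_lit 0x190ad77d3e) (nat_lit 4105114188),
  Rx.mk (nat_lit 9) (nat_lit 1) (nat_lit 1) (nat_lit 0) (nat_lit 3) (nat_lit 328) (nat_lit 330) r7_328 r7_330 (nat_lit 0) (nat_lit 0) (nat_lit 12671990) (nat_lit 0x1a8eea14a0) (nat_lit 3678299338),
  Rx.mk (nat_lit 13) (nat_lit 5) (nat_lit 1) (nat_lit 0) (nat_lit 3) (nat_lit 336) (nat_lit 337) r7_336 r7_337 (nat_lit 0) (nat_lit 0) (nat_lit 8849300) (nat_lit 0x1ef929dad6) (nat_lit 2443145598),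
  Rx.mk (nat_lit 17) (nat_lit 1) (nat_lit 2) (nat_lit 0) (nat_lit 3) (nat_lit 329) (nat_lit 333) r7_329 r7_333 (nat_lit 0) (nat_lit 0) (nat_lit 117894459) (nat_lit 0x1fa638f9b4) (nat_lit 2363788607),
  Rx.mk (nat_lit 65) (nat_lit 1) (nat_lit 0) (nat_lit 1) (nat_lit 5) (nat_lit 330) (nat_lit 328) r7_330 r7_328 (nat_lit 0) (nat_lit 12671990) (nat_lit 0) (nat_lit 0x1a8eea14a0) (nat_lit 3678299338),
  Rx.mk (nat_lit 69) (nat_lit 5) (nat_lit 0) (nat_lit 1) (nat_lit 5) (nat_lit 337) (nat_lit 336) r7_337 r7_336 (nat_lit 0) (nat_lit 8849300) (nat_lit 0) (nat_lit 0x1ef929dad6) (nat_lit 2443145598),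
  Rx.mk (nat_lit 73) (nat_lit 1) (nat_lit 1) (nat_lit 1) (nat_lit 7) (nat_lit 331) (nat_lit 331) r7_331 r7_331 (nat_lit 0) (nat_lit 0) (nat_lit 0) (nat_lit 0x1eb69a1fa0) (nat_lit 2506857848),
  Rx.mk (nat_lit 77) (nat_lit 5) (nat_lit 1) (nat_lit 1) (nat_lit 7) (nat_lit 338) (nat_lit 338) r7_338 r7_338 (nat_lit 0) (nat_lit 0) (nat_lit 0) (nat_lit 0x2000ba4fd2) (nat_lit 2147684198),
  Rx.mk (nat_lit 81) (nat_lit 1) (nat_lit 2) (nat_lit 1) (nat_lit 7) (nat_lit 332) (nat_lit 334) r7_332 r7_334 (nat_lit 0) (nat_lit 0) (nat_lit 0) (nat_lit 0x2000efab8c) (nat_lit 2147483648),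
  Rx.mk (nat_lit 193) (nat_lit 1) (nat_lit 0) (nat_lit 3) (nat_lit 5) (nat_lit 333) (nat_lit 329) r7_333 r7_329 (nat_lit 0) (nat_lit 117894459) (nat_lit 0) (nat_lit 0x1fa638f9b4) (nat_lit 2363788607),
  Rx.mk (nat_lit 201) (nat_lit 1) (nat_lit 1) (nat_lit 3) (nat_lit 7) (nat_lit 334) (nat_lit 332) r7_334 r7_332 (nat_lit 0) (nat_lit 0) (nat_lit 0) (nat_lit 0x2000efab8c) (nat_lit 2147483648)]
noncomputable def e39_14 : List Rx := [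
  Rx.mk (nat_lit 1) (nat_lit 1) (nat_lit 0) (nat_lit 0) (nat_lit 1) (nat_lit 381) (nat_lit 192) r7_381 r1_192 (nat_lit 0) (nat_lit 14677998) (nat_lit 380376103) (nat_lit 0x1cff4bb35a) (nat_lit 3380478299),
  Rx.mk (nat_lit 9) (nat_lit 1) (nat_lit 1) (nat_lit 0) (nat_lit 3) (nat_lit 382) (nat_lit 193) r7_382 r1_193 (nat_lit 0) (nat_lit 0) (nat_lit 104823800) (nat_lit 0x1ff47440e8) (nat_lit 2265770548),
  Rx.mk (nat_lit 17) (nat_lit 1) (nat_lit 2) (nat_lit 0) (nat_lit 3) (nat_lit 383) (nat_lit 194) r7_383 r1_194 (nat_lit 0) (nat_lit 0) (nat_lit 1171744702) (nat_lit 0x231bc52466) (nat_lit 2474665500),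
  Rx.mk (nat_lit 145) (nat_lit 1) (nat_lit 2) (nat_lit 2) (nat_lit 7) (nat_lit 384) (nat_lit 198) r7_384 r1_198 (nat_lit 0) (nat_lit 0) (nat_lit 0) (nat_lit 0x1fd6d74576) (nat_lit 2192969998),
  Rx.mk (nat_lit 193) (nat_lit 1) (nat_lit 0) (nat_lit 3) (nat_lit 5) (nat_lit 385) (nat_lit 195) r7_385 r1_195 (nat_lit 0) (nat_lit 16886061) (nat_lit 0) (nat_lit 0x201fca129a) (nat_lit 2131328859),
  Rx.mk (nat_lit 201) (nat_lit 1) (nat_lit 1) (nat_lit 3) (nat_lit 7) (nat_lit 386) (nat_lit 196) r7_386 r1_196 (nat_lit 0) (nat_lit 0) (nat_lit 0) (nat_lit 0x201b565cdc) (nat_lit 2119195248),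
  Rx.mk (nat_lit 209) (nat_lit 1) (nat_lit 2) (nat_lit 3) (nat_lit 7) (nat_lit 387) (nat_lit 197) r7_387 r1_197 (nat_lit 0) (nat_lit 0) (nat_lit 0) (nat_lit 0x201b565cdc) (nat_lit 2119195248)]
noncomputable def e39_15 : List Rx := [
  Rx.mk (nat_lit 1) (nat_lit 1) (nat_lit 0) (nat_lit 0) (nat_lit 1) (nat_lit 388) (nat_lit 248) r7_388 r8_248 (nat_lit 0) (nat_lit 32339147) (nat_lit 25017464) (nat_lit 0x17b72f48de) (nat_lit 4515822409),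
  Rx.mk (nat_lit 9) (nat_lit 1) (nat_lit 1) (nat_lit 0) (nat_lit 3) (nat_lit 389) (nat_lit 251) r7_389 r8_251 (nat_lit 0) (nat_lit 0) (nat_lit 42592381) (nat_lit 0x1ea87817d8) (nat_lit 2564854829),
  Rx.mk (nat_lit 17) (nat_lit 1) (nat_lit 2) (nat_lit 0) (nat_lit 3) (nat_lit 390) (nat_lit 254) r7_390 r8_254 (nat_lit 0) (nat_lit 0) (nat_lit 50597122) (nat_lit 0x1f9b7c9094) (nat_lit 2308173370),
  Rx.mk (nat_lit 65) (nat_lit 1) (nat_lit 0) (nat_lit 1) (nat_lit 5) (nat_lit 391) (nat_lit 249) r7_391 r8_249 (nat_lit 0) (nat_lit 43498676) (nat_lit 0) (nat_lit 0x1e36edb668) (nat_lit 2689461224),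
  Rx.mk (nat_lit 73) (nat_lit 1) (nat_lit 1) (nat_lit 1) (nat_lit 7) (nat_lit 392) (nat_lit 252) r7_392 r8_252 (nat_lit 0) (nat_lit 0) (nat_lit 0) (nat_lit 0x1ff740ac9e) (nat_lit 2157915398),
  Rx.mk (nat_lit 81) (nat_lit 1) (nat_lit 2) (nat_lit 1) (nat_lit 7) (nat_lit 393) (nat_lit 255) r7_393 r8_255 (nat_lit 0) (nat_lit 0) (nat_lit 0) (nat_lit 0x2000efab8c) (nat_lit 2147483648),
  Rx.mk (nat_lit 145) (nat_lit 1) (nat_lit 2) (nat_lit 2) (nat_lit 7) (nat_lit 394) (nat_lit 256) r7_394 r8_256 (nat_lit 0) (nat_lit 0) (nat_lit 0) (nat_lit 0x2000efab8c) (nat_lit 2147483648),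
  Rx.mk (nat_lit 193) (nat_lit 1) (nat_lit 0) (nat_lit 3) (nat_lit 5) (nat_lit 395) (nat_lit 250) r7_395 r8_250 (nat_lit 0) (nat_lit 39267561) (nat_lit 0) (nat_lit 0x2000efab8c) (nat_lit 2186751209),
  Rx.mk (nat_lit 201) (nat_lit 1) (nat_lit 1) (nat_lit 3) (nat_lit 7) (nat_lit 396) (nat_lit 253) r7_396 r8_253 (nat_lit 0) (nat_lit 0) (nat_lit 0) (nat_lit 0x2000efab8c) (nat_lit 2147483648)]
noncomputable def e39_16 : List Rx := [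
  Rx.mk (nat_lit 65) (nat_lit 1) (nat_lit 0) (nat_lit 1) (nat_lit 5) (nat_lit 401) (nat_lit 185) r7_401 r8_185 (nat_lit 0) (nat_lit 42780042) (nat_lit 0) (nat_lit 0x1e3e97900a) (nat_lit 2680398140),
  Rx.mk (nat_lit 69) (nat_lit 5) (nat_lit 0) (nat_lit 1) (nat_lit 5) (nat_lit 404) (nat_lit 184) r7_404 r8_184 (nat_lit 0) (nat_lit 19673153) (nat_lit 0) (nat_lit 0x1f8bf49b1c) (nat_lit 2294173401),
  Rx.mk (nat_lit 73) (nat_lit 1) (nat_lit 1) (nat_lit 1) (nat_lit 7) (nat_lit 402) (nat_lit 187) r7_402 r8_187 (nat_lit 0) (nat_lit 0) (nat_lit 0) (nat_lit 0x2000efab8c) (nat_lit 2147483648),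
  Rx.mk (nat_lit 77) (nat_lit 5) (nat_lit 1) (nat_lit 1) (nat_lit 7) (nat_lit 405) (nat_lit 186) r7_405 r8_186 (nat_lit 0) (nat_lit 0) (nat_lit 0) (nat_lit 0x201b34a65a) (nat_lit 2119343898),
  Rx.mk (nat_lit 81) (nat_lit 1) (nat_lit 2) (nat_lit 1) (nat_lit 7) (nat_lit 403) (nat_lit 188) r7_403 r8_188 (nat_lit 0) (nat_lit 0) (nat_lit 0) (nat_lit 0x2000efab8c) (nat_lit 2147483648)]
noncomputable def e39_17 : List Rx := [
  Rx.mk (nat_lit 73) (nat_lit 1) (nat_lit 1) (nat_lit 1) (nat_lit 7) (nat_lit 406) (nat_lit 257) r7_406 r9_257 (nat_lit 0) (nat_lit 0) (nat_lit 0) (nat_lit 0x2000efab8c) (nat_lit 2147483648),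
  Rx.mk (nat_lit 77) (nat_lit 5) (nat_lit 1) (nat_lit 1) (nat_lit 7) (nat_lit 407) (nat_lit 258) r7_407 r9_258 (nat_lit 0) (nat_lit 0) (nat_lit 0) (nat_lit 0x2000efab8c) (nat_lit 2147483648),
  Rx.mk (nat_lit 333) (nat_lit 5) (nat_lit 1) (nat_lit 5) (nat_lit 7) (nat_lit 408) (nat_lit 259) r7_408 r9_259 (nat_lit 0) (nat_lit 0) (nat_lit 0) (nat_lit 0x2000efab8c) (nat_lit 2147483648)]
noncomputable def e39_18 : List Rx := [
  Rx.mk (nat_lit 5) (nat_lit 5) (nat_lit 0) (nat_lit 0) (nat_lit 1) (nat_lit 427) (nat_lit 167) r7_427 r4_167 (nat_lit 0) (nat_lit 193240) (nat_lit 184540823) (nat_lit 0x15f56a5f6e) (nat_lit 5132738961),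
  Rx.mk (nat_lit 13) (nat_lit 5) (nat_lit 1) (nat_lit 0) (nat_lit 3) (nat_lit 428) (nat_lit 168) r7_428 r4_168 (nat_lit 0) (nat_lit 0) (nat_lit 548337725) (nat_lit 0x1f9f02c116) (nat_lit 2801997023),
  Rx.mk (nat_lit 193) (nat_lit 1) (nat_lit 0) (nat_lit 3) (nat_lit 5) (nat_lit 424) (nat_lit 170) r7_424 r4_170 (nat_lit 0) (nat_lit 10163698) (nat_lit 0) (nat_lit 0x1f1480be58) (nat_lit 2414683846),
  Rx.mk (nat_lit 197) (nat_lit 5) (nat_lit 0) (nat_lit 3) (nat_lit 5) (nat_lit 429) (nat_lit 169) r7_429 r4_169 (nat_lit 0) (nat_lit 3444502) (nat_lit 0) (nat_lit 0x191b2752ea) (nat_lit 4073882200),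
  Rx.mk (nat_lit 201) (nat_lit 1) (nat_lit 1) (nat_lit 3) (nat_lit 7) (nat_lit 425) (nat_lit 172) r7_425 r4_172 (nat_lit 0) (nat_lit 0) (nat_lit 0) (nat_lit 0x208e2a96f6) (nat_lit 1997063298),
  Rx.mk (nat_lit 205) (nat_lit 5) (nat_lit 1) (nat_lit 3) (nat_lit 7) (nat_lit 430) (nat_lit 171) r7_430 r4_171 (nat_lit 0) (nat_lit 0) (nat_lit 0) (nat_lit 0x20bc663f2a) (nat_lit 1947979098),
  Rx.mk (nat_lit 209) (nat_lit 1) (nat_lit 2) (nat_lit 3) (nat_lit 7) (nat_lit 426) (nat_lit 173) r7_426 r4_173 (nat_lit 0) (nat_lit 0) (nat_lit 0) (nat_lit 0x2026fc885e) (nat_lit 2106733598)]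
noncomputable def e39_19 : List Rx := [
  Rx.mk (nat_lit 5) (nat_lit 5) (nat_lit 0) (nat_lit 0) (nat_lit 1) (nat_lit 433) (nat_lit 286) r7_433 r10_286 (nat_lit 0) (nat_lit 12079934) (nat_lit 4952524) (nat_lit 0x1c6682ce4c) (nat_lit 3168808706),
  Rx.mk (nat_lit 13) (nat_lit 5) (nat_lit 1) (nat_lit 0) (nat_lit 3) (nat_lit 434) (nat_lit 289) r7_434 r10_289 (nat_lit 0) (nat_lit 0) (nat_lit 13452800) (nat_lit 0x1f8278d88c) (nat_lit 2298221048),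
  Rx.mk (nat_lit 69) (nat_lit 5) (nat_lit 0) (nat_lit 1) (nat_lit 5) (nat_lit 435) (nat_lit 287) r7_435 r10_287 (nat_lit 0) (nat_lit 13707378) (nat_lit 0) (nat_lit 0x200280ed94) (nat_lit 2159443526),
  Rx.mk (nat_lit 77) (nat_lit 5) (nat_lit 1) (nat_lit 1) (nat_lit 7) (nat_lit 436) (nat_lit 290) r7_436 r10_290 (nat_lit 0) (nat_lit 0) (nat_lit 0) (nat_lit 0x201a60a472) (nat_lit 2120226698),
  Rx.mk (nat_lit 193) (nat_lit 1) (nat_lit 0) (nat_lit 3) (nat_lit 5) (nat_lit 431) (nat_lit 284) r7_431 r10_284 (nat_lit 0) (nat_lit 53854856) (nat_lit 0) (nat_lit 0x1ff6037a00) (nat_lit 2213104004),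
  Rx.mk (nat_lit 197) (nat_lit 5) (nat_lit 0) (nat_lit 3) (nat_lit 5) (nat_lit 437) (nat_lit 288) r7_437 r10_288 (nat_lit 0) (nat_lit 30193305) (nat_lit 0) (nat_lit 0x1ff5267ed4) (nat_lit 2190327253),
  Rx.mk (nat_lit 201) (nat_lit 1) (nat_lit 1) (nat_lit 3) (nat_lit 7) (nat_lit 432) (nat_lit 285) r7_432 r10_285 (nat_lit 0) (nat_lit 0) (nat_lit 0) (nat_lit 0x2000efab8c) (nat_lit 2147483648),
  Rx.mk (nat_lit 205) (nat_lit 5) (nat_lit 1) (nat_lit 3) (nat_lit 7) (nat_lit 438) (nat_lit 291) r7_438 r10_291 (nat_lit 0) (nat_lit 0) (nat_lit 0) (nat_lit 0x201a60a472) (nat_lit 2120226698)]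
noncomputable def e39_20 : List Rx := [
  Rx.mk (nat_lit 193) (nat_lit 1) (nat_lit 0) (nat_lit 3) (nat_lit 5) (nat_lit 439) (nat_lit 303) r7_439 r11_303 (nat_lit 0) (nat_lit 11918404) (nat_lit 0) (nat_lit 0x20aa08332e) (nat_lit 1979381802),
  Rx.mk (nat_lit 197) (nat_lit 5) (nat_lit 0) (nat_lit 3) (nat_lit 5) (nat_lit 442) (nat_lit 306) r7_442 r11_306 (nat_lit 0) (nat_lit 7912812) (nat_lit 0) (nat_lit 0x1fff5c5bb2) (nat_lit 2157063510),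
  Rx.mk (nat_lit 201) (nat_lit 1) (nat_lit 1) (nat_lit 3) (nat_lit 7) (nat_lit 440) (nat_lit 304) r7_440 r11_304 (nat_lit 0) (nat_lit 0) (nat_lit 0) (nat_lit 0x205ecc09d0) (nat_lit 2047393448),
  Rx.mk (nat_lit 205) (nat_lit 5) (nat_lit 1) (nat_lit 3) (nat_lit 7) (nat_lit 443) (nat_lit 307) r7_443 r11_307 (nat_lit 0) (nat_lit 0) (nat_lit 0) (nat_lit 0x204cffe834) (nat_lit 2066325548),
  Rx.mk (nat_lit 209) (nat_lit 1) (nat_lit 2) (nat_lit 3) (nat_lit 7) (nat_lit 441) (nat_lit 305) r7_441 r11_305 (nat_lit 0) (nat_lit 0) (nat_lit 0) (nat_lit 0x204faaf506) (nat_lit 2063467898)]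
noncomputable def e39_21 : List Rx := [
  Rx.mk (nat_lit 77) (nat_lit 5) (nat_lit 1) (nat_lit 1) (nat_lit 7) (nat_lit 409) (nat_lit 259) r7_409 r9_259 (nat_lit 0) (nat_lit 0) (nat_lit 0) (nat_lit 0x2000efab8c) (nat_lit 2147483648),
  Rx.mk (nat_lit 333) (nat_lit 5) (nat_lit 1) (nat_lit 5) (nat_lit 7) (nat_lit 410) (nat_lit 258) r7_410 r9_258 (nat_lit 0) (nat_lit 0) (nat_lit 0) (nat_lit 0x2000efab8c) (nat_lit 2147483648),
  Rx.mk (nat_lit 365) (nat_lit 5) (nat_lit 5) (nat_lit 5) (nat_lit 7) (nat_lit 411) (nat_lit 257) r7_411 r9_257 (nat_lit 0) (nat_lit 0) (nat_lit 0) (nat_lit 0x2000efab8c) (nat_lit 2147483648)]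
noncomputable def e39_22 : List Rx := [
  Rx.mk (nat_lit 268) (nat_lit 4) (nat_lit 1) (nat_lit 4) (nat_lit 2) (nat_lit 56) (nat_lit 177) r7_56 r0_177 (nat_lit 70053) (nat_lit 0) (nat_lit 364323767) (nat_lit 0x1936d6e51e) (nat_lit 4404409418),
  Rx.mk (nat_lit 269) (nat_lit 5) (nat_lit 1) (nat_lit 4) (nat_lit 3) (nat_lit 59) (nat_lit 179) r7_59 r0_179 (nat_lit 0) (nat_lit 0) (nat_lit 2076918) (nat_lit 0x16b9749910) (nat_lit 4736536266),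
  Rx.mk (nat_lit 300) (nat_lit 4) (nat_lit 5) (nat_lit 4) (nat_lit 2) (nat_lit 57) (nat_lit 178) r7_57 r0_178 (nat_lit 13826) (nat_lit 0) (nat_lit 394520) (nat_lit 0x1be69cc70a) (nat_lit 3291128944),
  Rx.mk (nat_lit 301) (nat_lit 5) (nat_lit 5) (nat_lit 4) (nat_lit 3) (nat_lit 60) (nat_lit 180) r7_60 r0_180 (nat_lit 0) (nat_lit 0) (nat_lit 52001452) (nat_lit 0x1e69666108) (nat_lit 2642941100),
  Rx.mk (nat_lit 302) (nat_lit 6) (nat_lit 5) (nat_lit 4) (nat_lit 3) (nat_lit 62) (nat_lit 181) r7_62 r0_181 (nat_lit 0) (nat_lit 0) (nat_lit 1259355059) (nat_lit 0x20beee895a) (nat_lit 3204160657),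
  Rx.mk (nat_lit 492) (nat_lit 4) (nat_lit 5) (nat_lit 7) (nat_lit 6) (nat_lit 58) (nat_lit 182) r7_58 r0_182 (nat_lit 8222135) (nat_lit 0) (nat_lit 0) (nat_lit 0x20013cd0ec) (nat_lit 2155212183),
  Rx.mk (nat_lit 493) (nat_lit 5) (nat_lit 5) (nat_lit 7) (nat_lit 7) (nat_lit 61) (nat_lit 183) r7_61 r0_183 (nat_lit 0) (nat_lit 0) (nat_lit 0) (nat_lit 0x201d3442b2) (nat_lit 2117185098),
  Rx.mk (nat_lit 494) (nat_lit 6) (nat_lit 5) (nat_lit 7) (nat_lit 7) (nat_lit 63) (nat_lit 184) r7_63 r0_184 (nat_lit 0) (nat_lit 0) (nat_lit 0) (nat_lit 0x203183aa1e) (nat_lit 2095553398)]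
noncomputable def e39_23 : List Rx := [
  Rx.mk (nat_lit 300) (nat_lit 4) (nat_lit 5) (nat_lit 4) (nat_lit 2) (nat_lit 64) (nat_lit 192) r7_64 r1_192 (nat_lit 14677998) (nat_lit 0) (nat_lit 380376103) (nat_lit 0x1cff4bb35a) (nat_lit 3380478299),
  Rx.mk (nat_lit 301) (nat_lit 5) (nat_lit 5) (nat_lit 4) (nat_lit 3) (nat_lit 66) (nat_lit 193) r7_66 r1_193 (nat_lit 0) (nat_lit 0) (nat_lit 104823800) (nat_lit 0x1ff47440e8) (nat_lit 2265770548),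
  Rx.mk (nat_lit 302) (nat_lit 6) (nat_lit 5) (nat_lit 4) (nat_lit 3) (nat_lit 68) (nat_lit 194) r7_68 r1_194 (nat_lit 0) (nat_lit 0) (nat_lit 1171744702) (nat_lit 0x231bc52466) (nat_lit 2474665500),
  Rx.mk (nat_lit 430) (nat_lit 6) (nat_lit 5) (nat_lit 6) (nat_lit 7) (nat_lit 69) (nat_lit 198) r7_69 r1_198 (nat_lit 0) (nat_lit 0) (nat_lit 0) (nat_lit 0x1fd6d74576) (nat_lit 2192969998),
  Rx.mk (nat_lit 492) (nat_lit 4) (nat_lit 5) (nat_lit 7) (nat_lit 6) (nat_lit 65) (nat_lit 195) r7_65 r1_195 (nat_lit 16886061) (nat_lit 0) (nat_lit 0) (nat_lit 0x201fca129a) (nat_lit 2131328859),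
  Rx.mk (nat_lit 493) (nat_lit 5) (nat_lit 5) (nat_lit 7) (nat_lit 7) (nat_lit 67) (nat_lit 196) r7_67 r1_196 (nat_lit 0) (nat_lit 0) (nat_lit 0) (nat_lit 0x201b565cdc) (nat_lit 2119195248),
  Rx.mk (nat_lit 494) (nat_lit 6) (nat_lit 5) (nat_lit 7) (nat_lit 7) (nat_lit 70) (nat_lit 197) r7_70 r1_197 (nat_lit 0) (nat_lit 0) (nat_lit 0) (nat_lit 0x201b565cdc) (nat_lit 2119195248)]
noncomputable def e39_24 : List Rx := [
  Rx.mk (nat_lit 268) (nat_lit 4) (nat_lit 1) (nat_lit 4) (nat_lit 2) (nat_lit 71) (nat_lit 167) r7_71 r4_167 (nat_lit 193240) (nat_lit 0) (nat_lit 184540823) (nat_lit 0x15f56a5f6e) (nat_lit 5132738961),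
  Rx.mk (nat_lit 269) (nat_lit 5) (nat_lit 1) (nat_lit 4) (nat_lit 3) (nat_lit 74) (nat_lit 168) r7_74 r4_168 (nat_lit 0) (nat_lit 0) (nat_lit 548337725) (nat_lit 0x1f9f02c116) (nat_lit 2801997023),
  Rx.mk (nat_lit 460) (nat_lit 4) (nat_lit 1) (nat_lit 7) (nat_lit 6) (nat_lit 72) (nat_lit 169) r7_72 r4_169 (nat_lit 3444502) (nat_lit 0) (nat_lit 0) (nat_lit 0x191b2752ea) (nat_lit 4073882200),
  Rx.mk (nat_lit 461) (nat_lit 5) (nat_lit 1) (nat_lit 7) (nat_lit 7) (nat_lit 75) (nat_lit 171) r7_75 r4_171 (nat_lit 0) (nat_lit 0) (nat_lit 0) (nat_lit 0x20bc663f2a) (nat_lit 1947979098),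
  Rx.mk (nat_lit 492) (nat_lit 4) (nat_lit 5) (nat_lit 7) (nat_lit 6) (nat_lit 73) (nat_lit 170) r7_73 r4_170 (nat_lit 10163698) (nat_lit 0) (nat_lit 0) (nat_lit 0x1f1480be58) (nat_lit 2414683846),
  Rx.mk (nat_lit 493) (nat_lit 5) (nat_lit 5) (nat_lit 7) (nat_lit 7) (nat_lit 76) (nat_lit 172) r7_76 r4_172 (nat_lit 0) (nat_lit 0) (nat_lit 0) (nat_lit 0x208e2a96f6) (nat_lit 1997063298),
  Rx.mk (nat_lit 494) (nat_lit 6) (nat_lit 5) (nat_lit 7) (nat_lit 7) (nat_lit 77) (nat_lit 173) r7_77 r4_173 (nat_lit 0) (nat_lit 0) (nat_lit 0) (nat_lit 0x2026fc885e) (nat_lit 2106733598)]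
noncomputable def e39_25 : List Rx := [
  Rx.mk (nat_lit 268) (nat_lit 4) (nat_lit 1) (nat_lit 4) (nat_lit 2) (nat_lit 229) (nat_lit 335) r7_229 r7_335 (nat_lit 8401195) (nat_lit 0) (nat_lit 8401195) (nat_lit 0x190ad77d3e) (nat_lit 4105114188),
  Rx.mk (nat_lit 269) (nat_lit 5) (nat_lit 1) (nat_lit 4) (nat_lit 3) (nat_lit 234) (nat_lit 337) r7_234 r7_337 (nat_lit 0) (nat_lit 0) (nat_lit 8849300) (nat_lit 0x1ef929dad6) (nat_lit 2443145598),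
  Rx.mk (nat_lit 300) (nat_lit 4) (nat_lit 5) (nat_lit 4) (nat_lit 2) (nat_lit 230) (nat_lit 327) r7_230 r7_327 (nat_lit 6981812) (nat_lit 0) (nat_lit 6981812) (nat_lit 0x17dd520bbe) (nat_lit 4430838622),
  Rx.mk (nat_lit 301) (nat_lit 5) (nat_lit 5) (nat_lit 4) (nat_lit 3) (nat_lit 235) (nat_lit 330) r7_235 r7_330 (nat_lit 0) (nat_lit 0) (nat_lit 12671990) (nat_lit 0x1a8eea14a0) (nat_lit 3678299338),
  Rx.mk (nat_lit 302) (nat_lit 6) (nat_lit 5) (nat_lit 4) (nat_lit 3) (nat_lit 239) (nat_lit 333) r7_239 r7_333 (nat_lit 0) (nat_lit 0) (nat_lit 117894459) (nat_lit 0x1fa638f9b4) (nat_lit 2363788607),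
  Rx.mk (nat_lit 332) (nat_lit 4) (nat_lit 1) (nat_lit 5) (nat_lit 6) (nat_lit 231) (nat_lit 336) r7_231 r7_336 (nat_lit 8849300) (nat_lit 0) (nat_lit 0) (nat_lit 0x1ef929dad6) (nat_lit 2443145598),
  Rx.mk (nat_lit 333) (nat_lit 5) (nat_lit 1) (nat_lit 5) (nat_lit 7) (nat_lit 236) (nat_lit 338) r7_236 r7_338 (nat_lit 0) (nat_lit 0) (nat_lit 0) (nat_lit 0x2000ba4fd2) (nat_lit 2147684198),
  Rx.mk (nat_lit 364) (nat_lit 4) (nat_lit 5) (nat_lit 5) (nat_lit 6) (nat_lit 232) (nat_lit 328) r7_232 r7_328 (nat_lit 12671990) (nat_lit 0) (nat_lit 0) (nat_lit 0x1a8eea14a0) (nat_lit 3678299338),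
  Rx.mk (nat_lit 365) (nat_lit 5) (nat_lit 5) (nat_lit 5) (nat_lit 7) (nat_lit 237) (nat_lit 331) r7_237 r7_331 (nat_lit 0) (nat_lit 0) (nat_lit 0) (nat_lit 0x1eb69a1fa0) (nat_lit 2506857848),
  Rx.mk (nat_lit 366) (nat_lit 6) (nat_lit 5) (nat_lit 5) (nat_lit 7) (nat_lit 240) (nat_lit 334) r7_240 r7_334 (nat_lit 0) (nat_lit 0) (nat_lit 0) (nat_lit 0x2000efab8c) (nat_lit 2147483648),
  Rx.mk (nat_lit 492) (nat_lit 4) (nat_lit 5) (nat_lit 7) (nat_lit 6) (nat_lit 233) (nat_lit 329) r7_233 r7_329 (nat_lit 117894459) (nat_lit 0) (nat_lit 0) (nat_lit 0x1fa638f9b4) (nat_lit 2363788607),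
  Rx.mk (nat_lit 493) (nat_lit 5) (nat_lit 5) (nat_lit 7) (nat_lit 7) (nat_lit 238) (nat_lit 332) r7_238 r7_332 (nat_lit 0) (nat_lit 0) (nat_lit 0) (nat_lit 0x2000efab8c) (nat_lit 2147483648)]
noncomputable def e39_26 : List Rx := [
  Rx.mk (nat_lit 300) (nat_lit 4) (nat_lit 5) (nat_lit 4) (nat_lit 2) (nat_lit 246) (nat_lit 248) r7_246 r8_248 (nat_lit 32339147) (nat_lit 0) (nat_lit 25017464) (nat_lit 0x17b72f48de) (nat_lit 4515822409),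
  Rx.mk (nat_lit 301) (nat_lit 5) (nat_lit 5) (nat_lit 4) (nat_lit 3) (nat_lit 249) (nat_lit 251) r7_249 r8_251 (nat_lit 0) (nat_lit 0) (nat_lit 42592381) (nat_lit 0x1ea87817d8) (nat_lit 2564854829),
  Rx.mk (nat_lit 302) (nat_lit 6) (nat_lit 5) (nat_lit 4) (nat_lit 3) (nat_lit 252) (nat_lit 254) r7_252 r8_254 (nat_lit 0) (nat_lit 0) (nat_lit 50597122) (nat_lit 0x1f9b7c9094) (nat_lit 2308173370),
  Rx.mk (nat_lit 364) (nat_lit 4) (nat_lit 5) (nat_lit 5) (nat_lit 6) (nat_lit 247) (nat_lit 249) r7_247 r8_249 (nat_lit 43498676) (nat_lit 0) (nat_lit 0) (nat_lit 0x1e36edb668) (nat_lit 2689461224),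
  Rx.mk (nat_lit 365) (nat_lit 5) (nat_lit 5) (nat_lit 5) (nat_lit 7) (nat_lit 250) (nat_lit 252) r7_250 r8_252 (nat_lit 0) (nat_lit 0) (nat_lit 0) (nat_lit 0x1ff740ac9e) (nat_lit 2157915398),
  Rx.mk (nat_lit 366) (nat_lit 6) (nat_lit 5) (nat_lit 5) (nat_lit 7) (nat_lit 253) (nat_lit 255) r7_253 r8_255 (nat_lit 0) (nat_lit 0) (nat_lit 0) (nat_lit 0x2000efab8c) (nat_lit 2147483648),
  Rx.mk (nat_lit 430) (nat_lit 6) (nat_lit 5) (nat_lit 6) (nat_lit 7) (nat_lit 254) (nat_lit 256) r7_254 r8_256 (nat_lit 0) (nat_lit 0) (nat_lit 0) (nat_lit 0x2000efab8c) (nat_lit 2147483648),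
  Rx.mk (nat_lit 492) (nat_lit 4) (nat_lit 5) (nat_lit 7) (nat_lit 6) (nat_lit 248) (nat_lit 250) r7_248 r8_250 (nat_lit 39267561) (nat_lit 0) (nat_lit 0) (nat_lit 0x2000efab8c) (nat_lit 2186751209),
  Rx.mk (nat_lit 493) (nat_lit 5) (nat_lit 5) (nat_lit 7) (nat_lit 7) (nat_lit 251) (nat_lit 253) r7_251 r8_253 (nat_lit 0) (nat_lit 0) (nat_lit 0) (nat_lit 0x2000efab8c) (nat_lit 2147483648)]
noncomputable def e39_27 : List Rx := [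
  Rx.mk (nat_lit 332) (nat_lit 4) (nat_lit 1) (nat_lit 5) (nat_lit 6) (nat_lit 241) (nat_lit 184) r7_241 r8_184 (nat_lit 19673153) (nat_lit 0) (nat_lit 0) (nat_lit 0x1f8bf49b1c) (nat_lit 2294173401),
  Rx.mk (nat_lit 333) (nat_lit 5) (nat_lit 1) (nat_lit 5) (nat_lit 7) (nat_lit 243) (nat_lit 186) r7_243 r8_186 (nat_lit 0) (nat_lit 0) (nat_lit 0) (nat_lit 0x201b34a65a) (nat_lit 2119343898),
  Rx.mk (nat_lit 364) (nat_lit 4) (nat_lit 5) (nat_lit 5) (nat_lit 6) (nat_lit 242) (nat_lit 185) r7_242 r8_185 (nat_lit 42780042) (nat_lit 0) (nat_lit 0) (nat_lit 0x1e3e97900a) (nat_lit 2680398140),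
  Rx.mk (nat_lit 365) (nat_lit 5) (nat_lit 5) (nat_lit 5) (nat_lit 7) (nat_lit 244) (nat_lit 187) r7_244 r8_187 (nat_lit 0) (nat_lit 0) (nat_lit 0) (nat_lit 0x2000efab8c) (nat_lit 2147483648),
  Rx.mk (nat_lit 366) (nat_lit 6) (nat_lit 5) (nat_lit 5) (nat_lit 7) (nat_lit 245) (nat_lit 188) r7_245 r8_188 (nat_lit 0) (nat_lit 0) (nat_lit 0) (nat_lit 0x2000efab8c) (nat_lit 2147483648)]
noncomputable def e39_28 : List Rx := [
  Rx.mk (nat_lit 268) (nat_lit 4) (nat_lit 1) (nat_lit 4) (nat_lit 2) (nat_lit 255) (nat_lit 286) r7_255 r10_286 (nat_lit 12079934) (nat_lit 0) (nat_lit 4952524) (nat_lit 0x1c6682ce4c) (nat_lit 3168808706),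
  Rx.mk (nat_lit 269) (nat_lit 5) (nat_lit 1) (nat_lit 4) (nat_lit 3) (nat_lit 259) (nat_lit 289) r7_259 r10_289 (nat_lit 0) (nat_lit 0) (nat_lit 13452800) (nat_lit 0x1f8278d88c) (nat_lit 2298221048),
  Rx.mk (nat_lit 332) (nat_lit 4) (nat_lit 1) (nat_lit 5) (nat_lit 6) (nat_lit 256) (nat_lit 287) r7_256 r10_287 (nat_lit 13707378) (nat_lit 0) (nat_lit 0) (nat_lit 0x200280ed94) (nat_lit 2159443526),
  Rx.mk (nat_lit 333) (nat_lit 5) (nat_lit 1) (nat_lit 5) (nat_lit 7) (nat_lit 260) (nat_lit 290) r7_260 r10_290 (nat_lit 0) (nat_lit 0) (nat_lit 0) (nat_lit 0x201a60a472) (nat_lit 2120226698),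
  Rx.mk (nat_lit 460) (nat_lit 4) (nat_lit 1) (nat_lit 7) (nat_lit 6) (nat_lit 257) (nat_lit 288) r7_257 r10_288 (nat_lit 30193305) (nat_lit 0) (nat_lit 0) (nat_lit 0x1ff5267ed4) (nat_lit 2190327253),
  Rx.mk (nat_lit 461) (nat_lit 5) (nat_lit 1) (nat_lit 7) (nat_lit 7) (nat_lit 261) (nat_lit 291) r7_261 r10_291 (nat_lit 0) (nat_lit 0) (nat_lit 0) (nat_lit 0x201a60a472) (nat_lit 2120226698),
  Rx.mk (nat_lit 492) (nat_lit 4) (nat_lit 5) (nat_lit 7) (nat_lit 6) (nat_lit 258) (nat_lit 284) r7_258 r10_284 (nat_lit 53854856) (nat_lit 0) (nat_lit 0) (nat_lit 0x1ff6037a00) (nat_lit 2213104004),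
  Rx.mk (nat_lit 493) (nat_lit 5) (nat_lit 5) (nat_lit 7) (nat_lit 7) (nat_lit 262) (nat_lit 285) r7_262 r10_285 (nat_lit 0) (nat_lit 0) (nat_lit 0) (nat_lit 0x2000efab8c) (nat_lit 2147483648)]
noncomputable def e39_29 : List Rx := [
  Rx.mk (nat_lit 460) (nat_lit 4) (nat_lit 1) (nat_lit 7) (nat_lit 6) (nat_lit 288) (nat_lit 306) r7_288 r11_306 (nat_lit 7912812) (nat_lit 0) (nat_lit 0) (nat_lit 0x1fff5c5bb2) (nat_lit 2157063510),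
  Rx.mk (nat_lit 461) (nat_lit 5) (nat_lit 1) (nat_lit 7) (nat_lit 7) (nat_lit 290) (nat_lit 307) r7_290 r11_307 (nat_lit 0) (nat_lit 0) (nat_lit 0) (nat_lit 0x204cffe834) (nat_lit 2066325548),
  Rx.mk (nat_lit 492) (nat_lit 4) (nat_lit 5) (nat_lit 7) (nat_lit 6) (nat_lit 289) (nat_lit 303) r7_289 r11_303 (nat_lit 11918404) (nat_lit 0) (nat_lit 0) (nat_lit 0x20aa08332e) (nat_lit 1979381802),
  Rx.mk (nat_lit 493) (nat_lit 5) (nat_lit 5) (nat_lit 7) (nat_lit 7) (nat_lit 291) (nat_lit 304) r7_291 r11_304 (nat_lit 0) (nat_lit 0) (nat_lit 0) (nat_lit 0x205ecc09d0) (nat_lit 2047393448),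
  Rx.mk (nat_lit 494) (nat_lit 6) (nat_lit 5) (nat_lit 7) (nat_lit 7) (nat_lit 292) (nat_lit 305) r7_292 r11_305 (nat_lit 0) (nat_lit 0) (nat_lit 0) (nat_lit 0x204faaf506) (nat_lit 2063467898)]
noncomputable def e39_30 : List Rx := [
  Rx.mk (nat_lit 5) (nat_lit 5) (nat_lit 0) (nat_lit 0) (nat_lit 1) (nat_lit 444) (nat_lit 184) r7_444 r5_184 (nat_lit 0) (nat_lit 9778492) (nat_lit 252916038) (nat_lit 0x1d1464a12a) (nat_lit 3225071628),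
  Rx.mk (nat_lit 13) (nat_lit 5) (nat_lit 1) (nat_lit 0) (nat_lit 3) (nat_lit 445) (nat_lit 185) r7_445 r5_185 (nat_lit 0) (nat_lit 0) (nat_lit 39267561) (nat_lit 0x2011d074a4) (nat_lit 2168648009),
  Rx.mk (nat_lit 197) (nat_lit 5) (nat_lit 0) (nat_lit 3) (nat_lit 5) (nat_lit 446) (nat_lit 186) r7_446 r5_186 (nat_lit 0) (nat_lit 27762807) (nat_lit 0) (nat_lit 0x1fcba4fb58) (nat_lit 2232881655),
  Rx.mk (nat_lit 205) (nat_lit 5) (nat_lit 1) (nat_lit 3) (nat_lit 7) (nat_lit 447) (nat_lit 187) r7_447 r5_187 (nat_lit 0) (nat_lit 0) (nat_lit 0) (nat_lit 0x204b3d1260) (nat_lit 2068186448),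
  Rx.mk (nat_lit 221) (nat_lit 5) (nat_lit 3) (nat_lit 3) (nat_lit 7) (nat_lit 448) (nat_lit 188) r7_448 r5_188 (nat_lit 0) (nat_lit 0) (nat_lit 0) (nat_lit 0x1fab898f46) (nat_lit 2240089898)]
noncomputable def e39_31 : List Rx := [
  Rx.mk (nat_lit 5) (nat_lit 5) (nat_lit 0) (nat_lit 0) (nat_lit 1) (nat_lit 449) (nat_lit 212) r7_449 r11_212 (nat_lit 0) (nat_lit 49199921) (nat_lit 452164224) (nat_lit 0x1de67e208c) (nat_lit 3234966993),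
  Rx.mk (nat_lit 13) (nat_lit 5) (nat_lit 1) (nat_lit 0) (nat_lit 3) (nat_lit 450) (nat_lit 213) r7_450 r11_213 (nat_lit 0) (nat_lit 0) (nat_lit 39267561) (nat_lit 0x2000efab8c) (nat_lit 2186751209),
  Rx.mk (nat_lit 69) (nat_lit 5) (nat_lit 0) (nat_lit 1) (nat_lit 5) (nat_lit 451) (nat_lit 214) r7_451 r11_214 (nat_lit 0) (nat_lit 39267561) (nat_lit 0) (nat_lit 0x2000efab8c) (nat_lit 2186751209),
  Rx.mk (nat_lit 77) (nat_lit 5) (nat_lit 1) (nat_lit 1) (nat_lit 7) (nat_lit 452) (nat_lit 215) r7_452 r11_215 (nat_lit 0) (nat_lit 0) (nat_lit 0) (nat_lit 0x2000efab8c) (nat_lit 2147483648),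
  Rx.mk (nat_lit 197) (nat_lit 5) (nat_lit 0) (nat_lit 3) (nat_lit 5) (nat_lit 453) (nat_lit 216) r7_453 r11_216 (nat_lit 0) (nat_lit 30096094) (nat_lit 0) (nat_lit 0x200b64c638) (nat_lit 2166350942),
  Rx.mk (nat_lit 205) (nat_lit 5) (nat_lit 1) (nat_lit 3) (nat_lit 7) (nat_lit 454) (nat_lit 217) r7_454 r11_217 (nat_lit 0) (nat_lit 0) (nat_lit 0) (nat_lit 0x2000efab8c) (nat_lit 2147483648),
  Rx.mk (nat_lit 221) (nat_lit 5) (nat_lit 3) (nat_lit 3) (nat_lit 7) (nat_lit 455) (nat_lit 218) r7_455 r11_218 (nat_lit 0) (nat_lit 0) (nat_lit 0) (nat_lit 0x2000efab8c) (nat_lit 2147483648)]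
noncomputable def e39_32 : List Rx := [
  Rx.mk (nat_lit 199) (nat_lit 7) (nat_lit 0) (nat_lit 3) (nat_lit 5) (nat_lit 84) (nat_lit 114) r7_84 r6_114 (nat_lit 0) (nat_lit 5682584) (nat_lit 0) (nat_lit 0x1f0dcec532) (nat_lit 2417486782),
  Rx.mk (nat_lit 207) (nat_lit 7) (nat_lit 1) (nat_lit 3) (nat_lit 7) (nat_lit 85) (nat_lit 115) r7_85 r6_115 (nat_lit 0) (nat_lit 0) (nat_lit 0) (nat_lit 0x201de5d374) (nat_lit 2116448448),
  Rx.mk (nat_lit 452) (nat_lit 4) (nat_lit 0) (nat_lit 7) (nat_lit 4) (nat_lit 78) (nat_lit 106) r7_78 r6_106 (nat_lit 186689) (nat_lit 158384) (nat_lit 0) (nat_lit 0x1bd07ae5e2) (nat_lit 3315217271),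
  Rx.mk (nat_lit 453) (nat_lit 5) (nat_lit 0) (nat_lit 7) (nat_lit 5) (nat_lit 81) (nat_lit 109) r7_81 r6_109 (nat_lit 0) (nat_lit 15522547) (nat_lit 0) (nat_lit 0x2006c8f40a) (nat_lit 2156644545),
  Rx.mk (nat_lit 455) (nat_lit 7) (nat_lit 0) (nat_lit 7) (nat_lit 5) (nat_lit 86) (nat_lit 112) r7_86 r6_112 (nat_lit 0) (nat_lit 26573864) (nat_lit 0) (nat_lit 0x1b9621606a) (nat_lit 3405484862),
  Rx.mk (nat_lit 460) (nat_lit 4) (nat_lit 1) (nat_lit 7) (nat_lit 6) (nat_lit 79) (nat_lit 107) r7_79 r6_107 (nat_lit 15143189) (nat_lit 0) (nat_lit 0) (nat_lit 0x200b9196ae) (nat_lit 2151113287),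
  Rx.mk (nat_lit 461) (nat_lit 5) (nat_lit 1) (nat_lit 7) (nat_lit 7) (nat_lit 82) (nat_lit 110) r7_82 r6_110 (nat_lit 0) (nat_lit 0) (nat_lit 0) (nat_lit 0x20a6955a5a) (nat_lit 1971127798),
  Rx.mk (nat_lit 463) (nat_lit 7) (nat_lit 1) (nat_lit 7) (nat_lit 7) (nat_lit 87) (nat_lit 113) r7_87 r6_113 (nat_lit 0) (nat_lit 0) (nat_lit 0) (nat_lit 0x2000efab8c) (nat_lit 2147483648),
  Rx.mk (nat_lit 476) (nat_lit 4) (nat_lit 3) (nat_lit 7) (nat_lit 6) (nat_lit 80) (nat_lit 108) r7_80 r6_108 (nat_lit 9039903) (nat_lit 0) (nat_lit 0) (nat_lit 0x1f0c3c340c) (nat_lit 2422599751),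
  Rx.mk (nat_lit 477) (nat_lit 5) (nat_lit 3) (nat_lit 7) (nat_lit 7) (nat_lit 83) (nat_lit 111) r7_83 r6_111 (nat_lit 0) (nat_lit 0) (nat_lit 0) (nat_lit 0x20390aaab2) (nat_lit 2087565198)]
noncomputable def e39_33 : List Rx := [
  Rx.mk (nat_lit 268) (nat_lit 4) (nat_lit 1) (nat_lit 4) (nat_lit 2) (nat_lit 88) (nat_lit 184) r7_88 r5_184 (nat_lit 9778492) (nat_lit 0) (nat_lit 252916038) (nat_lit 0x1d1464a12a) (nat_lit 3225071628),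
  Rx.mk (nat_lit 269) (nat_lit 5) (nat_lit 1) (nat_lit 4) (nat_lit 3) (nat_lit 90) (nat_lit 185) r7_90 r5_185 (nat_lit 0) (nat_lit 0) (nat_lit 39267561) (nat_lit 0x2011d074a4) (nat_lit 2168648009),
  Rx.mk (nat_lit 460) (nat_lit 4) (nat_lit 1) (nat_lit 7) (nat_lit 6) (nat_lit 89) (nat_lit 186) r7_89 r5_186 (nat_lit 27762807) (nat_lit 0) (nat_lit 0) (nat_lit 0x1fcba4fb58) (nat_lit 2232881655),
  Rx.mk (nat_lit 461) (nat_lit 5) (nat_lit 1) (nat_lit 7) (nat_lit 7) (nat_lit 91) (nat_lit 187) r7_91 r5_187 (nat_lit 0) (nat_lit 0) (nat_lit 0) (nat_lit 0x204b3d1260) (nat_lit 2068186448),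
  Rx.mk (nat_lit 463) (nat_lit 7) (nat_lit 1) (nat_lit 7) (nat_lit 7) (nat_lit 92) (nat_lit 188) r7_92 r5_188 (nat_lit 0) (nat_lit 0) (nat_lit 0) (nat_lit 0x1fab898f46) (nat_lit 2240089898)]
noncomputable def e39_34 : List Rx := [
  Rx.mk (nat_lit 268) (nat_lit 4) (nat_lit 1) (nat_lit 4) (nat_lit 2) (nat_lit 263) (nat_lit 212) r7_263 r11_212 (nat_lit 49199921) (nat_lit 0) (nat_lit 452164224) (nat_lit 0x1de67e208c) (nat_lit 3234966993),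
  Rx.mk (nat_lit 269) (nat_lit 5) (nat_lit 1) (nat_lit 4) (nat_lit 3) (nat_lit 266) (nat_lit 213) r7_266 r11_213 (nat_lit 0) (nat_lit 0) (nat_lit 39267561) (nat_lit 0x2000efab8c) (nat_lit 2186751209),
  Rx.mk (nat_lit 332) (nat_lit 4) (nat_lit 1) (nat_lit 5) (nat_lit 6) (nat_lit 264) (nat_lit 214) r7_264 r11_214 (nat_lit 39267561) (nat_lit 0) (nat_lit 0) (nat_lit 0x2000efab8c) (nat_lit 2186751209),
  Rx.mk (nat_lit 333) (nat_lit 5) (nat_lit 1) (nat_lit 5) (nat_lit 7) (nat_lit 267) (nat_lit 215) r7_267 r11_215 (nat_lit 0) (nat_lit 0) (nat_lit 0) (nat_lit 0x2000efab8c) (nat_lit 2147483648),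
  Rx.mk (nat_lit 460) (nat_lit 4) (nat_lit 1) (nat_lit 7) (nat_lit 6) (nat_lit 265) (nat_lit 216) r7_265 r11_216 (nat_lit 30096094) (nat_lit 0) (nat_lit 0) (nat_lit 0x200b64c638) (nat_lit 2166350942),
  Rx.mk (nat_lit 461) (nat_lit 5) (nat_lit 1) (nat_lit 7) (nat_lit 7) (nat_lit 268) (nat_lit 217) r7_268 r11_217 (nat_lit 0) (nat_lit 0) (nat_lit 0) (nat_lit 0x2000efab8c) (nat_lit 2147483648),
  Rx.mk (nat_lit 463) (nat_lit 7) (nat_lit 1) (nat_lit 7) (nat_lit 7) (nat_lit 269) (nat_lit 218) r7_269 r11_218 (nat_lit 0) (nat_lit 0) (nat_lit 0) (nat_lit 0x2000efab8c) (nat_lit 2147483648)]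
noncomputable def e39_35 : List Rx := [
  Rx.mk (nat_lit 196) (nat_lit 4) (nat_lit 0) (nat_lit 3) (nat_lit 4) (nat_lit 293) (nat_lit 106) r7_293 r6_106 (nat_lit 158384) (nat_lit 186689) (nat_lit 0) (nat_lit 0x1bd07ae5e2) (nat_lit 3315217271),
  Rx.mk (nat_lit 197) (nat_lit 5) (nat_lit 0) (nat_lit 3) (nat_lit 5) (nat_lit 297) (nat_lit 107) r7_297 r6_107 (nat_lit 0) (nat_lit 15143189) (nat_lit 0) (nat_lit 0x200b9196ae) (nat_lit 2151113287),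
  Rx.mk (nat_lit 199) (nat_lit 7) (nat_lit 0) (nat_lit 3) (nat_lit 5) (nat_lit 301) (nat_lit 108) r7_301 r6_108 (nat_lit 0) (nat_lit 9039903) (nat_lit 0) (nat_lit 0x1f0c3c340c) (nat_lit 2422599751),
  Rx.mk (nat_lit 204) (nat_lit 4) (nat_lit 1) (nat_lit 3) (nat_lit 6) (nat_lit 294) (nat_lit 109) r7_294 r6_109 (nat_lit 15522547) (nat_lit 0) (nat_lit 0) (nat_lit 0x2006c8f40a) (nat_lit 2156644545),
  Rx.mk (nat_lit 205) (nat_lit 5) (nat_lit 1) (nat_lit 3) (nat_lit 7) (nat_lit 298) (nat_lit 110) r7_298 r6_110 (nat_lit 0) (nat_lit 0) (nat_lit 0) (nat_lit 0x20a6955a5a) (nat_lit 1971127798),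
  Rx.mk (nat_lit 207) (nat_lit 7) (nat_lit 1) (nat_lit 3) (nat_lit 7) (nat_lit 302) (nat_lit 111) r7_302 r6_111 (nat_lit 0) (nat_lit 0) (nat_lit 0) (nat_lit 0x20390aaab2) (nat_lit 2087565198),
  Rx.mk (nat_lit 220) (nat_lit 4) (nat_lit 3) (nat_lit 3) (nat_lit 6) (nat_lit 295) (nat_lit 112) r7_295 r6_112 (nat_lit 26573864) (nat_lit 0) (nat_lit 0) (nat_lit 0x1b9621606a) (nat_lit 3405484862),
  Rx.mk (nat_lit 221) (nat_lit 5) (nat_lit 3) (nat_lit 3) (nat_lit 7) (nat_lit 299) (nat_lit 113) r7_299 r6_113 (nat_lit 0) (nat_lit 0) (nat_lit 0) (nat_lit 0x2000efab8c) (nat_lit 2147483648),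
  Rx.mk (nat_lit 476) (nat_lit 4) (nat_lit 3) (nat_lit 7) (nat_lit 6) (nat_lit 296) (nat_lit 114) r7_296 r6_114 (nat_lit 5682584) (nat_lit 0) (nat_lit 0) (nat_lit 0x1f0dcec532) (nat_lit 2417486782),
  Rx.mk (nat_lit 477) (nat_lit 5) (nat_lit 3) (nat_lit 7) (nat_lit 7) (nat_lit 300) (nat_lit 115) r7_300 r6_115 (nat_lit 0) (nat_lit 0) (nat_lit 0) (nat_lit 0x201de5d374) (nat_lit 2116448448)]
noncomputable def e39_36 : List Rx := [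
  Rx.mk (nat_lit 196) (nat_lit 4) (nat_lit 0) (nat_lit 3) (nat_lit 4) (nat_lit 303) (nat_lit 332) r7_303 r12_332 (nat_lit 172292) (nat_lit 185901) (nat_lit 0) (nat_lit 0x198be36bf4) (nat_lit 3947748541),
  Rx.mk (nat_lit 197) (nat_lit 5) (nat_lit 0) (nat_lit 3) (nat_lit 5) (nat_lit 308) (nat_lit 337) r7_308 r12_337 (nat_lit 0) (nat_lit 9553025) (nat_lit 0) (nat_lit 0x205b9e46b0) (nat_lit 2060271073),
  Rx.mk (nat_lit 199) (nat_lit 7) (nat_lit 0) (nat_lit 3) (nat_lit 5) (nat_lit 313) (nat_lit 342) r7_313 r12_342 (nat_lit 0) (nat_lit 2028317) (nat_lit 0) (nat_lit 0x1ea0ece05c) (nat_lit 2532284665),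
  Rx.mk (nat_lit 204) (nat_lit 4) (nat_lit 1) (nat_lit 3) (nat_lit 6) (nat_lit 304) (nat_lit 334) r7_304 r12_334 (nat_lit 17057350) (nat_lit 0) (nat_lit 0) (nat_lit 0x1ee2d51b42) (nat_lit 2475695548),
  Rx.mk (nat_lit 205) (nat_lit 5) (nat_lit 1) (nat_lit 3) (nat_lit 7) (nat_lit 309) (nat_lit 339) r7_309 r12_339 (nat_lit 0) (nat_lit 0) (nat_lit 0) (nat_lit 0x22594f17fc) (nat_lit 1509483948),
  Rx.mk (nat_lit 207) (nat_lit 7) (nat_lit 1) (nat_lit 3) (nat_lit 7) (nat_lit 314) (nat_lit 343) r7_314 r12_343 (nat_lit 0) (nat_lit 0) (nat_lit 0) (nat_lit 0x204c1f7a38) (nat_lit 2067262648),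
  Rx.mk (nat_lit 452) (nat_lit 4) (nat_lit 0) (nat_lit 7) (nat_lit 4) (nat_lit 305) (nat_lit 333) r7_305 r12_333 (nat_lit 185901) (nat_lit 172292) (nat_lit 0) (nat_lit 0x198be36bf4) (nat_lit 3947748541),
  Rx.mk (nat_lit 453) (nat_lit 5) (nat_lit 0) (nat_lit 7) (nat_lit 5) (nat_lit 310) (nat_lit 338) r7_310 r12_338 (nat_lit 0) (nat_lit 17057350) (nat_lit 0) (nat_lit 0x1ee2d51b42) (nat_lit 2475695548),
  Rx.mk (nat_lit 460) (nat_lit 4) (nat_lit 1) (nat_lit 7) (nat_lit 6) (nat_lit 306) (nat_lit 335) r7_306 r12_335 (nat_lit 9553025) (nat_lit 0) (nat_lit 0) (nat_lit 0x205b9e46b0) (nat_lit 2060271073),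
  Rx.mk (nat_lit 461) (nat_lit 5) (nat_lit 1) (nat_lit 7) (nat_lit 7) (nat_lit 311) (nat_lit 340) r7_311 r12_340 (nat_lit 0) (nat_lit 0) (nat_lit 0) (nat_lit 0x22594f17fc) (nat_lit 1509483948),
  Rx.mk (nat_lit 476) (nat_lit 4) (nat_lit 3) (nat_lit 7) (nat_lit 6) (nat_lit 307) (nat_lit 336) r7_307 r12_336 (nat_lit 2028317) (nat_lit 0) (nat_lit 0) (nat_lit 0x1ea0ece05c) (nat_lit 2532284665),
  Rx.mk (nat_lit 477) (nat_lit 5) (nat_lit 3) (nat_lit 7) (nat_lit 7) (nat_lit 312) (nat_lit 341) r7_312 r12_341 (nat_lit 0) (nat_lit 0) (nat_lit 0) (nat_lit 0x204c1f7a38) (nat_lit 2067262648)]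
noncomputable def e39_37 : List Rx := [
  Rx.mk (nat_lit 223) (nat_lit 7) (nat_lit 3) (nat_lit 3) (nat_lit 7) (nat_lit 8) (nat_lit 104) r7_8 r0_104 (nat_lit 0) (nat_lit 0) (nat_lit 0) (nat_lit 0x1fd446eec4) (nat_lit 2195815148),
  Rx.mk (nat_lit 294) (nat_lit 6) (nat_lit 4) (nat_lit 4) (nat_lit 1) (nat_lit 2) (nat_lit 105) r7_2 r0_105 (nat_lit 0) (nat_lit 118942) (nat_lit 1681448) (nat_lit 0x1a2c72ec48) (nat_lit 3774257838),
  Rx.mk (nat_lit 316) (nat_lit 4) (nat_lit 7) (nat_lit 4) (nat_lit 2) (nat_lit 0) (nat_lit 100) r7_0 r0_100 (nat_lit 5017793) (nat_lit 0) (nat_lit 203862769) (nat_lit 0x184e7076c8) (nat_lit 4502484910),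
  Rx.mk (nat_lit 318) (nat_lit 6) (nat_lit 7) (nat_lit 4) (nat_lit 3) (nat_lit 3) (nat_lit 106) r7_3 r0_106 (nat_lit 0) (nat_lit 0) (nat_lit 889720639) (nat_lit 0x201c8bd30c) (nat_lit 3007471987),
  Rx.mk (nat_lit 422) (nat_lit 6) (nat_lit 4) (nat_lit 6) (nat_lit 5) (nat_lit 4) (nat_lit 108) r7_4 r0_108 (nat_lit 0) (nat_lit 12433884) (nat_lit 0) (nat_lit 0x1d4834c50c) (nat_lit 2918441232),
  Rx.mk (nat_lit 438) (nat_lit 6) (nat_lit 6) (nat_lit 6) (nat_lit 7) (nat_lit 5) (nat_lit 110) r7_5 r0_110 (nat_lit 0) (nat_lit 0) (nat_lit 0) (nat_lit 0x1fcde9e496) (nat_lit 2202710498),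
  Rx.mk (nat_lit 446) (nat_lit 6) (nat_lit 7) (nat_lit 6) (nat_lit 7) (nat_lit 6) (nat_lit 109) r7_6 r0_109 (nat_lit 0) (nat_lit 0) (nat_lit 0) (nat_lit 0x1fe1cf73ae) (nat_lit 2181107598),
  Rx.mk (nat_lit 479) (nat_lit 7) (nat_lit 3) (nat_lit 7) (nat_lit 7) (nat_lit 9) (nat_lit 103) r7_9 r0_103 (nat_lit 0) (nat_lit 0) (nat_lit 0) (nat_lit 0x1fd442bfde) (nat_lit 2195818098),
  Rx.mk (nat_lit 508) (nat_lit 4) (nat_lit 7) (nat_lit 7) (nat_lit 6) (nat_lit 1) (nat_lit 101) r7_1 r0_101 (nat_lit 12432931) (nat_lit 0) (nat_lit 0) (nat_lit 0x1b37024158) (nat_lit 3494942479),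
  Rx.mk (nat_lit 510) (nat_lit 6) (nat_lit 7) (nat_lit 7) (nat_lit 7) (nat_lit 7) (nat_lit 107) r7_7 r0_107 (nat_lit 0) (nat_lit 0) (nat_lit 0) (nat_lit 0x1fe69d992e) (nat_lit 2175885398),
  Rx.mk (nat_lit 511) (nat_lit 7) (nat_lit 7) (nat_lit 7) (nat_lit 7) (nat_lit 10) (nat_lit 102) r7_10 r0_102 (nat_lit 0) (nat_lit 0) (nat_lit 0) (nat_lit 0x1d505599a0) (nat_lit 2897180348)]
noncomputable def e39_38 : List Rx := [
  Rx.mk (nat_lit 3) (nat_lit 3) (nat_lit 0) (nat_lit 0) (nat_lit 1) (nat_lit 96) (nat_lit 100) r7_96 r0_100 (nat_lit 0) (nat_lit 5017793) (nat_lit 203862769) (nat_lit 0x184e7076c8) (nat_lit 4502484910),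
  Rx.mk (nat_lit 16) (nat_lit 0) (nat_lit 2) (nat_lit 0) (nat_lit 2) (nat_lit 93) (nat_lit 105) r7_93 r0_105 (nat_lit 118942) (nat_lit 0) (nat_lit 1681448) (nat_lit 0x1a2c72ec48) (nat_lit 3774257838),
  Rx.mk (nat_lit 19) (nat_lit 3) (nat_lit 2) (nat_lit 0) (nat_lit 3) (nat_lit 97) (nat_lit 106) r7_97 r0_106 (nat_lit 0) (nat_lit 0) (nat_lit 889720639) (nat_lit 0x201c8bd30c) (nat_lit 3007471987),
  Rx.mk (nat_lit 144) (nat_lit 0) (nat_lit 2) (nat_lit 2) (nat_lit 6) (nat_lit 94) (nat_lit 108) r7_94 r0_108 (nat_lit 12433884) (nat_lit 0) (nat_lit 0) (nat_lit 0x1d4834c50c) (nat_lit 2918441232),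
  Rx.mk (nat_lit 146) (nat_lit 2) (nat_lit 2) (nat_lit 2) (nat_lit 7) (nat_lit 95) (nat_lit 110) r7_95 r0_110 (nat_lit 0) (nat_lit 0) (nat_lit 0) (nat_lit 0x1fcde9e496) (nat_lit 2202710498),
  Rx.mk (nat_lit 147) (nat_lit 3) (nat_lit 2) (nat_lit 2) (nat_lit 7) (nat_lit 98) (nat_lit 109) r7_98 r0_109 (nat_lit 0) (nat_lit 0) (nat_lit 0) (nat_lit 0x1fe1cf73ae) (nat_lit 2181107598),
  Rx.mk (nat_lit 195) (nat_lit 3) (nat_lit 0) (nat_lit 3) (nat_lit 5) (nat_lit 99) (nat_lit 101) r7_99 r0_101 (nat_lit 0) (nat_lit 12432931) (nat_lit 0) (nat_lit 0x1b37024158) (nat_lit 3494942479),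
  Rx.mk (nat_lit 211) (nat_lit 3) (nat_lit 2) (nat_lit 3) (nat_lit 7) (nat_lit 100) (nat_lit 107) r7_100 r0_107 (nat_lit 0) (nat_lit 0) (nat_lit 0) (nat_lit 0x1fe69d992e) (nat_lit 2175885398),
  Rx.mk (nat_lit 219) (nat_lit 3) (nat_lit 3) (nat_lit 3) (nat_lit 7) (nat_lit 101) (nat_lit 102) r7_101 r0_102 (nat_lit 0) (nat_lit 0) (nat_lit 0) (nat_lit 0x1d505599a0) (nat_lit 2897180348),
  Rx.mk (nat_lit 223) (nat_lit 7) (nat_lit 3) (nat_lit 3) (nat_lit 7) (nat_lit 102) (nat_lit 103) r7_102 r0_103 (nat_lit 0) (nat_lit 0) (nat_lit 0) (nat_lit 0x1fd442bfde) (nat_lit 2195818098),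
  Rx.mk (nat_lit 479) (nat_lit 7) (nat_lit 3) (nat_lit 7) (nat_lit 7) (nat_lit 103) (nat_lit 104) r7_103 r0_104 (nat_lit 0) (nat_lit 0) (nat_lit 0) (nat_lit 0x1fd446eec4) (nat_lit 2195815148)]
noncomputable def e39_39 : List Rx := [
  Rx.mk (nat_lit 3) (nat_lit 3) (nat_lit 0) (nat_lit 0) (nat_lit 1) (nat_lit 109) (nat_lit 117) r7_109 r7_117 (nat_lit 0) (nat_lit 2656) (nat_lit 4653) (nat_lit 0x1828f8a23a) (nat_lit 4334008607),
  Rx.mk (nat_lit 16) (nat_lit 0) (nat_lit 2) (nat_lit 0) (nat_lit 2) (nat_lit 104) (nat_lit 115) r7_104 r7_115 (nat_lit 2656) (nat_lit 0) (nat_lit 4653) (nat_lit 0x1828f8a23a) (nat_lit 4334008607),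
  Rx.mk (nat_lit 19) (nat_lit 3) (nat_lit 2) (nat_lit 0) (nat_lit 3) (nat_lit 110) (nat_lit 118) r7_110 r7_118 (nat_lit 0) (nat_lit 0) (nat_lit 4760204) (nat_lit 0x1d114ca88e) (nat_lit 2970441002),
  Rx.mk (nat_lit 144) (nat_lit 0) (nat_lit 2) (nat_lit 2) (nat_lit 6) (nat_lit 105) (nat_lit 116) r7_105 r7_116 (nat_lit 66826) (nat_lit 0) (nat_lit 0) (nat_lit 0x1a49b61fd2) (nat_lit 3740640124),
  Rx.mk (nat_lit 146) (nat_lit 2) (nat_lit 2) (nat_lit 2) (nat_lit 7) (nat_lit 106) (nat_lit 125) r7_106 r7_125 (nat_lit 0) (nat_lit 0) (nat_lit 0) (nat_lit 0x182b42b13e) (nat_lit 4332010098),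
  Rx.mk (nat_lit 147) (nat_lit 3) (nat_lit 2) (nat_lit 2) (nat_lit 7) (nat_lit 111) (nat_lit 122) r7_111 r7_122 (nat_lit 0) (nat_lit 0) (nat_lit 0) (nat_lit 0x1fec41ed94) (nat_lit 2169634548),
  Rx.mk (nat_lit 178) (nat_lit 2) (nat_lit 6) (nat_lit 2) (nat_lit 7) (nat_lit 107) (nat_lit 124) r7_107 r7_124 (nat_lit 0) (nat_lit 0) (nat_lit 0) (nat_lit 0x1a42d0ab24) (nat_lit 3748569048),
  Rx.mk (nat_lit 195) (nat_lit 3) (nat_lit 0) (nat_lit 3) (nat_lit 5) (nat_lit 112) (nat_lit 119) r7_112 r7_119 (nat_lit 0) (nat_lit 66826) (nat_lit 0) (nat_lit 0x1a49b61fd2) (nat_lit 3740640124),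
  Rx.mk (nat_lit 211) (nat_lit 3) (nat_lit 2) (nat_lit 3) (nat_lit 7) (nat_lit 113) (nat_lit 121) r7_113 r7_121 (nat_lit 0) (nat_lit 0) (nat_lit 0) (nat_lit 0x1fec41ed94) (nat_lit 2169634548),
  Rx.mk (nat_lit 219) (nat_lit 3) (nat_lit 3) (nat_lit 3) (nat_lit 7) (nat_lit 114) (nat_lit 120) r7_114 r7_120 (nat_lit 0) (nat_lit 0) (nat_lit 0) (nat_lit 0x182b42b13e) (nat_lit 4332010098),
  Rx.mk (nat_lit 223) (nat_lit 7) (nat_lit 3) (nat_lit 3) (nat_lit 7) (nat_lit 123) (nat_lit 108) r7_123 r7_108 (nat_lit 0) (nat_lit 0) (nat_lit 0) (nat_lit 0x1a42d0ab24) (nat_lit 3748569048),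
  Rx.mk (nat_lit 294) (nat_lit 6) (nat_lit 4) (nat_lit 4) (nat_lit 1) (nat_lit 117) (nat_lit 109) r7_117 r7_109 (nat_lit 0) (nat_lit 2656) (nat_lit 4653) (nat_lit 0x1828f8a23a) (nat_lit 4334008607),
  Rx.mk (nat_lit 316) (nat_lit 4) (nat_lit 7) (nat_lit 4) (nat_lit 2) (nat_lit 115) (nat_lit 104) r7_115 r7_104 (nat_lit 2656) (nat_lit 0) (nat_lit 4653) (nat_lit 0x1828f8a23a) (nat_lit 4334008607),
  Rx.mk (nat_lit 318) (nat_lit 6) (nat_lit 7) (nat_lit 4) (nat_lit 3) (nat_lit 118) (nat_lit 110) r7_118 r7_110 (nat_lit 0) (nat_lit 0) (nat_lit 4760204) (nat_lit 0x1d114ca88e) (nat_lit 2970441002),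
  Rx.mk (nat_lit 422) (nat_lit 6) (nat_lit 4) (nat_lit 6) (nat_lit 5) (nat_lit 119) (nat_lit 112) r7_119 r7_112 (nat_lit 0) (nat_lit 66826) (nat_lit 0) (nat_lit 0x1a49b61fd2) (nat_lit 3740640124),
  Rx.mk (nat_lit 434) (nat_lit 2) (nat_lit 6) (nat_lit 6) (nat_lit 7) (nat_lit 108) (nat_lit 123) r7_108 r7_123 (nat_lit 0) (nat_lit 0) (nat_lit 0) (nat_lit 0x1a42d0ab24) (nat_lit 3748569048),
  Rx.mk (nat_lit 438) (nat_lit 6) (nat_lit 6) (nat_lit 6) (nat_lit 7) (nat_lit 120) (nat_lit 114) r7_120 r7_114 (nat_lit 0) (nat_lit 0) (nat_lit 0) (nat_lit 0x182b42b13e) (nat_lit 4332010098),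
  Rx.mk (nat_lit 446) (nat_lit 6) (nat_lit 7) (nat_lit 6) (nat_lit 7) (nat_lit 121) (nat_lit 113) r7_121 r7_113 (nat_lit 0) (nat_lit 0) (nat_lit 0) (nat_lit 0x1fec41ed94) (nat_lit 2169634548),
  Rx.mk (nat_lit 479) (nat_lit 7) (nat_lit 3) (nat_lit 7) (nat_lit 7) (nat_lit 124) (nat_lit 107) r7_124 r7_107 (nat_lit 0) (nat_lit 0) (nat_lit 0) (nat_lit 0x1a42d0ab24) (nat_lit 3748569048),
  Rx.mk (nat_lit 508) (nat_lit 4) (nat_lit 7) (nat_lit 7) (nat_lit 6) (nat_lit 116) (nat_lit 105) r7_116 r7_105 (nat_lit 66826) (nat_lit 0) (nat_lit 0) (nat_lit 0x1a49b61fd2) (nat_lit 3740640124),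
  Rx.mk (nat_lit 510) (nat_lit 6) (nat_lit 7) (nat_lit 7) (nat_lit 7) (nat_lit 122) (nat_lit 111) r7_122 r7_111 (nat_lit 0) (nat_lit 0) (nat_lit 0) (nat_lit 0x1fec41ed94) (nat_lit 2169634548),
  Rx.mk (nat_lit 511) (nat_lit 7) (nat_lit 7) (nat_lit 7) (nat_lit 7) (nat_lit 125) (nat_lit 106) r7_125 r7_106 (nat_lit 0) (nat_lit 0) (nat_lit 0) (nat_lit 0x182b42b13e) (nat_lit 4332010098)]
noncomputable def e39_40 : List Rx := [
  Rx.mk (nat_lit 0) (nat_lit 0) (nat_lit 0) (nat_lit 0) (nat_lit 0) (nat_lit 339) (nat_lit 101) r7_339 r2_101 (nat_lit 1937) (nat_lit 1798) (nat_lit 8247) (nat_lit 0x10a98581b4) (nat_lit 6425118130),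
  Rx.mk (nat_lit 1) (nat_lit 1) (nat_lit 0) (nat_lit 0) (nat_lit 1) (nat_lit 344) (nat_lit 102) r7_344 r2_102 (nat_lit 0) (nat_lit 10623857) (nat_lit 30039614) (nat_lit 0x15f14e7b36) (nat_lit 4993558069),
  Rx.mk (nat_lit 16) (nat_lit 0) (nat_lit 2) (nat_lit 0) (nat_lit 2) (nat_lit 340) (nat_lit 107) r7_340 r2_107 (nat_lit 5087834) (nat_lit 0) (nat_lit 20717393) (nat_lit 0x1975a87816) (nat_lit 3997776725),
  Rx.mk (nat_lit 17) (nat_lit 1) (nat_lit 2) (nat_lit 0) (nat_lit 3) (nat_lit 345) (nat_lit 108) r7_345 r2_108 (nat_lit 0) (nat_lit 0) (nat_lit 105487641) (nat_lit 0x1e6cf14f72) (nat_lit 2692591839),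
  Rx.mk (nat_lit 144) (nat_lit 0) (nat_lit 2) (nat_lit 2) (nat_lit 6) (nat_lit 341) (nat_lit 112) r7_341 r2_112 (nat_lit 24199369) (nat_lit 0) (nat_lit 0) (nat_lit 0x1bd3433ce8) (nat_lit 3336510717),
  Rx.mk (nat_lit 145) (nat_lit 1) (nat_lit 2) (nat_lit 2) (nat_lit 7) (nat_lit 346) (nat_lit 113) r7_346 r2_113 (nat_lit 0) (nat_lit 0) (nat_lit 0) (nat_lit 0x1fe46492f2) (nat_lit 2178308798),
  Rx.mk (nat_lit 146) (nat_lit 2) (nat_lit 2) (nat_lit 2) (nat_lit 7) (nat_lit 349) (nat_lit 114) r7_349 r2_114 (nat_lit 0) (nat_lit 0) (nat_lit 0) (nat_lit 0x2000efab8c) (nat_lit 2147483648),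
  Rx.mk (nat_lit 192) (nat_lit 0) (nat_lit 0) (nat_lit 3) (nat_lit 4) (nat_lit 342) (nat_lit 103) r7_342 r2_103 (nat_lit 1571667) (nat_lit 1671799) (nat_lit 0) (nat_lit 0x186cb0e74e) (nat_lit 4263704064),
  Rx.mk (nat_lit 193) (nat_lit 1) (nat_lit 0) (nat_lit 3) (nat_lit 5) (nat_lit 347) (nat_lit 104) r7_347 r2_104 (nat_lit 0) (nat_lit 10772890) (nat_lit 0) (nat_lit 0x201356c724) (nat_lit 2138452038),
  Rx.mk (nat_lit 195) (nat_lit 3) (nat_lit 0) (nat_lit 3) (nat_lit 5) (nat_lit 350) (nat_lit 105) r7_350 r2_105 (nat_lit 0) (nat_lit 17968761) (nat_lit 0) (nat_lit 0x1fd9089b88) (nat_lit 2208536809),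
  Rx.mk (nat_lit 208) (nat_lit 0) (nat_lit 2) (nat_lit 3) (nat_lit 6) (nat_lit 343) (nat_lit 109) r7_343 r2_109 (nat_lit 12082706) (nat_lit 0) (nat_lit 0) (nat_lit 0x208790be4c) (nat_lit 2016209154),
  Rx.mk (nat_lit 209) (nat_lit 1) (nat_lit 2) (nat_lit 3) (nat_lit 7) (nat_lit 348) (nat_lit 110) r7_348 r2_110 (nat_lit 0) (nat_lit 0) (nat_lit 0) (nat_lit 0x2044298814) (nat_lit 2075709948),
  Rx.mk (nat_lit 211) (nat_lit 3) (nat_lit 2) (nat_lit 3) (nat_lit 7) (nat_lit 351) (nat_lit 111) r7_351 r2_111 (nat_lit 0) (nat_lit 0) (nat_lit 0) (nat_lit 0x2044298814) (nat_lit 2075709948),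
  Rx.mk (nat_lit 219) (nat_lit 3) (nat_lit 3) (nat_lit 3) (nat_lit 7) (nat_lit 352) (nat_lit 106) r7_352 r2_106 (nat_lit 0) (nat_lit 0) (nat_lit 0) (nat_lit 0x2000efab8c) (nat_lit 2147483648)]
noncomputable def e39_41 : List Rx := [
  Rx.mk (nat_lit 0) (nat_lit 0) (nat_lit 0) (nat_lit 0) (nat_lit 0) (nat_lit 366) (nat_lit 68) r7_366 r9_68 (nat_lit 6681309) (nat_lit 5556724) (nat_lit 275129198) (nat_lit 0xe8573c850) (nat_lit 7309970679),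
  Rx.mk (nat_lit 1) (nat_lit 1) (nat_lit 0) (nat_lit 0) (nat_lit 1) (nat_lit 371) (nat_lit 69) r7_371 r9_69 (nat_lit 0) (nat_lit 42058187) (nat_lit 70721727) (nat_lit 0x1756adffd2) (nat_lit 4676382812),
  Rx.mk (nat_lit 16) (nat_lit 0) (nat_lit 2) (nat_lit 0) (nat_lit 2) (nat_lit 367) (nat_lit 74) r7_367 r9_74 (nat_lit 39267561) (nat_lit 0) (nat_lit 101420410) (nat_lit 0x185c9f17e0) (nat_lit 4418933119),
  Rx.mk (nat_lit 17) (nat_lit 1) (nat_lit 2) (nat_lit 0) (nat_lit 3) (nat_lit 372) (nat_lit 75) r7_372 r9_75 (nat_lit 0) (nat_lit 0) (nat_lit 102732549) (nat_lit 0x1f66fce602) (nat_lit 2417471747),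
  Rx.mk (nat_lit 144) (nat_lit 0) (nat_lit 2) (nat_lit 2) (nat_lit 6) (nat_lit 368) (nat_lit 79) r7_368 r9_79 (nat_lit 45350950) (nat_lit 0) (nat_lit 0) (nat_lit 0x1e7a71e436) (nat_lit 2617750648),
  Rx.mk (nat_lit 145) (nat_lit 1) (nat_lit 2) (nat_lit 2) (nat_lit 7) (nat_lit 373) (nat_lit 80) r7_373 r9_80 (nat_lit 0) (nat_lit 0) (nat_lit 0) (nat_lit 0x2000efab8c) (nat_lit 2147483648),
  Rx.mk (nat_lit 146) (nat_lit 2) (nat_lit 2) (nat_lit 2) (nat_lit 7) (nat_lit 376) (nat_lit 81) r7_376 r9_81 (nat_lit 0) (nat_lit 0) (nat_lit 0) (nat_lit 0x2000efab8c) (nat_lit 2147483648),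
  Rx.mk (nat_lit 178) (nat_lit 2) (nat_lit 6) (nat_lit 2) (nat_lit 7) (nat_lit 377) (nat_lit 82) r7_377 r9_82 (nat_lit 0) (nat_lit 0) (nat_lit 0) (nat_lit 0x2000efab8c) (nat_lit 2147483648),
  Rx.mk (nat_lit 192) (nat_lit 0) (nat_lit 0) (nat_lit 3) (nat_lit 4) (nat_lit 369) (nat_lit 70) r7_369 r9_70 (nat_lit 36004825) (nat_lit 377506769) (nat_lit 0) (nat_lit 0x1c452b0bce) (nat_lit 3601731492),
  Rx.mk (nat_lit 193) (nat_lit 1) (nat_lit 0) (nat_lit 3) (nat_lit 5) (nat_lit 374) (nat_lit 71) r7_374 r9_71 (nat_lit 0) (nat_lit 39267561) (nat_lit 0) (nat_lit 0x2000efab8c) (nat_lit 2186751209),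
  Rx.mk (nat_lit 195) (nat_lit 3) (nat_lit 0) (nat_lit 3) (nat_lit 5) (nat_lit 378) (nat_lit 72) r7_378 r9_72 (nat_lit 0) (nat_lit 87660547) (nat_lit 0) (nat_lit 0x1fe8d07f54) (nat_lit 2261177395),
  Rx.mk (nat_lit 208) (nat_lit 0) (nat_lit 2) (nat_lit 3) (nat_lit 6) (nat_lit 370) (nat_lit 76) r7_370 r9_76 (nat_lit 39267561) (nat_lit 0) (nat_lit 0) (nat_lit 0x2000efab8c) (nat_lit 2186751209),
  Rx.mk (nat_lit 209) (nat_lit 1) (nat_lit 2) (nat_lit 3) (nat_lit 7) (nat_lit 375) (nat_lit 77) r7_375 r9_77 (nat_lit 0) (nat_lit 0) (nat_lit 0) (nat_lit 0x2000efab8c) (nat_lit 2147483648),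
  Rx.mk (nat_lit 211) (nat_lit 3) (nat_lit 2) (nat_lit 3) (nat_lit 7) (nat_lit 379) (nat_lit 78) r7_379 r9_78 (nat_lit 0) (nat_lit 0) (nat_lit 0) (nat_lit 0x2000efab8c) (nat_lit 2147483648),
  Rx.mk (nat_lit 219) (nat_lit 3) (nat_lit 3) (nat_lit 3) (nat_lit 7) (nat_lit 380) (nat_lit 73) r7_380 r9_73 (nat_lit 0) (nat_lit 0) (nat_lit 0) (nat_lit 0x2000efab8c) (nat_lit 2147483648)]
noncomputable def e39_42 : List Rx := [
  Rx.mk (nat_lit 0) (nat_lit 0) (nat_lit 0) (nat_lit 0) (nat_lit 0) (nat_lit 353) (nat_lit 170) r7_353 r9_170 (nat_lit 14375128) (nat_lit 16606453) (nat_lit 24129304) (nat_lit 0xeb9d8c0fa) (nat_lit 7020682383),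
  Rx.mk (nat_lit 1) (nat_lit 1) (nat_lit 0) (nat_lit 0) (nat_lit 1) (nat_lit 357) (nat_lit 171) r7_357 r9_171 (nat_lit 0) (nat_lit 78494873) (nat_lit 49544812) (nat_lit 0x17814085da) (nat_lit 4645265483),
  Rx.mk (nat_lit 16) (nat_lit 0) (nat_lit 2) (nat_lit 0) (nat_lit 2) (nat_lit 354) (nat_lit 172) r7_354 r9_172 (nat_lit 39267561) (nat_lit 0) (nat_lit 42344646) (nat_lit 0x1810200be0) (nat_lit 4443199055),
  Rx.mk (nat_lit 17) (nat_lit 1) (nat_lit 2) (nat_lit 0) (nat_lit 3) (nat_lit 358) (nat_lit 173) r7_358 r9_173 (nat_lit 0) (nat_lit 0) (nat_lit 44440179) (nat_lit 0x1fafda1dea) (nat_lit 2279853077),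
  Rx.mk (nat_lit 65) (nat_lit 1) (nat_lit 0) (nat_lit 1) (nat_lit 5) (nat_lit 359) (nat_lit 174) r7_359 r9_174 (nat_lit 0) (nat_lit 65702946) (nat_lit 0) (nat_lit 0x1fd81b21dc) (nat_lit 2257341794),
  Rx.mk (nat_lit 81) (nat_lit 1) (nat_lit 2) (nat_lit 1) (nat_lit 7) (nat_lit 360) (nat_lit 175) r7_360 r9_175 (nat_lit 0) (nat_lit 0) (nat_lit 0) (nat_lit 0x2000efab8c) (nat_lit 2147483648),
  Rx.mk (nat_lit 144) (nat_lit 0) (nat_lit 2) (nat_lit 2) (nat_lit 6) (nat_lit 355) (nat_lit 180) r7_355 r9_180 (nat_lit 39267561) (nat_lit 0) (nat_lit 0) (nat_lit 0x1fed50c282) (nat_lit 2207915259),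
  Rx.mk (nat_lit 145) (nat_lit 1) (nat_lit 2) (nat_lit 2) (nat_lit 7) (nat_lit 361) (nat_lit 181) r7_361 r9_181 (nat_lit 0) (nat_lit 0) (nat_lit 0) (nat_lit 0x2000efab8c) (nat_lit 2147483648),
  Rx.mk (nat_lit 146) (nat_lit 2) (nat_lit 2) (nat_lit 2) (nat_lit 7) (nat_lit 363) (nat_lit 182) r7_363 r9_182 (nat_lit 0) (nat_lit 0) (nat_lit 0) (nat_lit 0x2000efab8c) (nat_lit 2147483648),
  Rx.mk (nat_lit 192) (nat_lit 0) (nat_lit 0) (nat_lit 3) (nat_lit 4) (nat_lit 356) (nat_lit 176) r7_356 r9_176 (nat_lit 48335039) (nat_lit 296668871) (nat_lit 0) (nat_lit 0x1ca4fd61f0) (nat_lit 3428841158),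
  Rx.mk (nat_lit 193) (nat_lit 1) (nat_lit 0) (nat_lit 3) (nat_lit 5) (nat_lit 362) (nat_lit 177) r7_362 r9_177 (nat_lit 0) (nat_lit 39267561) (nat_lit 0) (nat_lit 0x2000efab8c) (nat_lit 2186751209),
  Rx.mk (nat_lit 195) (nat_lit 3) (nat_lit 0) (nat_lit 3) (nat_lit 5) (nat_lit 364) (nat_lit 178) r7_364 r9_178 (nat_lit 0) (nat_lit 88391096) (nat_lit 0) (nat_lit 0x1fdfc2721e) (nat_lit 2271724494),
  Rx.mk (nat_lit 219) (nat_lit 3) (nat_lit 3) (nat_lit 3) (nat_lit 7) (nat_lit 365) (nat_lit 179) r7_365 r9_179 (nat_lit 0) (nat_lit 0) (nat_lit 0) (nat_lit 0x2000efab8c) (nat_lit 2147483648)]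
noncomputable def e39_43 : List Rx := [
  Rx.mk (nat_lit 0) (nat_lit 0) (nat_lit 0) (nat_lit 0) (nat_lit 0) (nat_lit 126) (nat_lit 107) r7_126 r1_107 (nat_lit 2016129) (nat_lit 3223515) (nat_lit 17136391) (nat_lit 0x12cbaa1212) (nat_lit 5852792833),
  Rx.mk (nat_lit 3) (nat_lit 3) (nat_lit 0) (nat_lit 0) (nat_lit 1) (nat_lit 130) (nat_lit 108) r7_130 r1_108 (nat_lit 0) (nat_lit 90318778) (nat_lit 1151235616) (nat_lit 0x1f034ce99a) (nat_lit 3664863692),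
  Rx.mk (nat_lit 16) (nat_lit 0) (nat_lit 2) (nat_lit 0) (nat_lit 2) (nat_lit 127) (nat_lit 111) r7_127 r1_111 (nat_lit 446182) (nat_lit 0) (nat_lit 713491) (nat_lit 0x1bd12082f4) (nat_lit 3315418221),
  Rx.mk (nat_lit 19) (nat_lit 3) (nat_lit 2) (nat_lit 0) (nat_lit 3) (nat_lit 131) (nat_lit 112) r7_131 r1_112 (nat_lit 0) (nat_lit 0) (nat_lit 67165276) (nat_lit 0x2016b03798) (nat_lit 2191310324),
  Rx.mk (nat_lit 144) (nat_lit 0) (nat_lit 2) (nat_lit 2) (nat_lit 6) (nat_lit 128) (nat_lit 114) r7_128 r1_114 (nat_lit 17677952) (nat_lit 0) (nat_lit 0) (nat_lit 0x1e04661186) (nat_lit 2718662750),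
  Rx.mk (nat_lit 146) (nat_lit 2) (nat_lit 2) (nat_lit 2) (nat_lit 7) (nat_lit 129) (nat_lit 116) r7_129 r1_116 (nat_lit 0) (nat_lit 0) (nat_lit 0) (nat_lit 0x2000efab8c) (nat_lit 2147483648),
  Rx.mk (nat_lit 147) (nat_lit 3) (nat_lit 2) (nat_lit 2) (nat_lit 7) (nat_lit 132) (nat_lit 115) r7_132 r1_115 (nat_lit 0) (nat_lit 0) (nat_lit 0) (nat_lit 0x2000efab8c) (nat_lit 2147483648),
  Rx.mk (nat_lit 195) (nat_lit 3) (nat_lit 0) (nat_lit 3) (nat_lit 5) (nat_lit 133) (nat_lit 109) r7_133 r1_109 (nat_lit 0) (nat_lit 69501590) (nat_lit 0) (nat_lit 0x1f8ea8b802) (nat_lit 2341057088),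
  Rx.mk (nat_lit 211) (nat_lit 3) (nat_lit 2) (nat_lit 3) (nat_lit 7) (nat_lit 134) (nat_lit 113) r7_134 r1_113 (nat_lit 0) (nat_lit 0) (nat_lit 0) (nat_lit 0x201a8afc18) (nat_lit 2120043948),
  Rx.mk (nat_lit 219) (nat_lit 3) (nat_lit 3) (nat_lit 3) (nat_lit 7) (nat_lit 135) (nat_lit 110) r7_135 r1_110 (nat_lit 0) (nat_lit 0) (nat_lit 0) (nat_lit 0x2000efab8c) (nat_lit 2147483648)]
noncomputable def e39_44 : List Rx := [
  Rx.mk (nat_lit 0) (nat_lit 0) (nat_lit 0) (nat_lit 0) (nat_lit 0) (nat_lit 136) (nat_lit 78) r7_136 r8_78 (nat_lit 8054942) (nat_lit 10916527) (nat_lit 72243851) (nat_lit 0xea29e495a) (nat_lit 7082065618),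
  Rx.mk (nat_lit 3) (nat_lit 3) (nat_lit 0) (nat_lit 0) (nat_lit 1) (nat_lit 142) (nat_lit 81) r7_142 r8_81 (nat_lit 0) (nat_lit 78285234) (nat_lit 38990238) (nat_lit 0x185c95d068) (nat_lit 4395485720),
  Rx.mk (nat_lit 16) (nat_lit 0) (nat_lit 2) (nat_lit 0) (nat_lit 2) (nat_lit 137) (nat_lit 79) r7_137 r8_79 (nat_lit 13867952) (nat_lit 0) (nat_lit 49808052) (nat_lit 0x183270804e) (nat_lit 4387837202),
  Rx.mk (nat_lit 19) (nat_lit 3) (nat_lit 2) (nat_lit 0) (nat_lit 3) (nat_lit 143) (nat_lit 82) r7_143 r8_82 (nat_lit 0) (nat_lit 0) (nat_lit 37466795) (nat_lit 0x1ffcf3f89e) (nat_lit 2189236093),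
  Rx.mk (nat_lit 144) (nat_lit 0) (nat_lit 2) (nat_lit 2) (nat_lit 6) (nat_lit 138) (nat_lit 80) r7_138 r8_80 (nat_lit 5067356) (nat_lit 0) (nat_lit 0) (nat_lit 0x1efa567aa4) (nat_lit 2438071504),
  Rx.mk (nat_lit 146) (nat_lit 2) (nat_lit 2) (nat_lit 2) (nat_lit 7) (nat_lit 139) (nat_lit 89) r7_139 r8_89 (nat_lit 0) (nat_lit 0) (nat_lit 0) (nat_lit 0x2000efab8c) (nat_lit 2147483648),
  Rx.mk (nat_lit 147) (nat_lit 3) (nat_lit 2) (nat_lit 2) (nat_lit 7) (nat_lit 144) (nat_lit 86) r7_144 r8_86 (nat_lit 0) (nat_lit 0) (nat_lit 0) (nat_lit 0x20251583f6) (nat_lit 2108796398),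
  Rx.mk (nat_lit 178) (nat_lit 2) (nat_lit 6) (nat_lit 2) (nat_lit 7) (nat_lit 140) (nat_lit 88) r7_140 r8_88 (nat_lit 0) (nat_lit 0) (nat_lit 0) (nat_lit 0x2000efab8c) (nat_lit 2147483648),
  Rx.mk (nat_lit 195) (nat_lit 3) (nat_lit 0) (nat_lit 3) (nat_lit 5) (nat_lit 145) (nat_lit 83) r7_145 r8_83 (nat_lit 0) (nat_lit 287004756) (nat_lit 0) (nat_lit 0x1fb51a8c54) (nat_lit 2516688604),
  Rx.mk (nat_lit 211) (nat_lit 3) (nat_lit 2) (nat_lit 3) (nat_lit 7) (nat_lit 146) (nat_lit 85) r7_146 r8_85 (nat_lit 0) (nat_lit 0) (nat_lit 0) (nat_lit 0x2000efab8c) (nat_lit 2147483648),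
  Rx.mk (nat_lit 219) (nat_lit 3) (nat_lit 3) (nat_lit 3) (nat_lit 7) (nat_lit 147) (nat_lit 84) r7_147 r8_84 (nat_lit 0) (nat_lit 0) (nat_lit 0) (nat_lit 0x1fef6c33d0) (nat_lit 2166386048),
  Rx.mk (nat_lit 434) (nat_lit 2) (nat_lit 6) (nat_lit 6) (nat_lit 7) (nat_lit 141) (nat_lit 87) r7_141 r8_87 (nat_lit 0) (nat_lit 0) (nat_lit 0) (nat_lit 0x2000efab8c) (nat_lit 2147483648)]
noncomputable def e39_45 : List Rx := [
  Rx.mk (nat_lit 292) (nat_lit 4) (nat_lit 4) (nat_lit 4) (nat_lit 0) (nat_lit 11) (nat_lit 107) r7_11 r1_107 (nat_lit 3223515) (nat_lit 2016129) (nat_lit 17136391) (nat_lit 0x12cbaa1212) (nat_lit 5852792833),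
  Rx.mk (nat_lit 294) (nat_lit 6) (nat_lit 4) (nat_lit 4) (nat_lit 1) (nat_lit 14) (nat_lit 111) r7_14 r1_111 (nat_lit 0) (nat_lit 446182) (nat_lit 713491) (nat_lit 0x1bd12082f4) (nat_lit 3315418221),
  Rx.mk (nat_lit 316) (nat_lit 4) (nat_lit 7) (nat_lit 4) (nat_lit 2) (nat_lit 12) (nat_lit 108) r7_12 r1_108 (nat_lit 90318778) (nat_lit 0) (nat_lit 1151235616) (nat_lit 0x1f034ce99a) (nat_lit 3664863692),
  Rx.mk (nat_lit 318) (nat_lit 6) (nat_lit 7) (nat_lit 4) (nat_lit 3) (nat_lit 15) (nat_lit 112) r7_15 r1_112 (nat_lit 0) (nat_lit 0) (nat_lit 67165276) (nat_lit 0x2016b03798) (nat_lit 2191310324),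
  Rx.mk (nat_lit 422) (nat_lit 6) (nat_lit 4) (nat_lit 6) (nat_lit 5) (nat_lit 16) (nat_lit 114) r7_16 r1_114 (nat_lit 0) (nat_lit 17677952) (nat_lit 0) (nat_lit 0x1e04661186) (nat_lit 2718662750),
  Rx.mk (nat_lit 438) (nat_lit 6) (nat_lit 6) (nat_lit 6) (nat_lit 7) (nat_lit 17) (nat_lit 116) r7_17 r1_116 (nat_lit 0) (nat_lit 0) (nat_lit 0) (nat_lit 0x2000efab8c) (nat_lit 2147483648),
  Rx.mk (nat_lit 446) (nat_lit 6) (nat_lit 7) (nat_lit 6) (nat_lit 7) (nat_lit 18) (nat_lit 115) r7_18 r1_115 (nat_lit 0) (nat_lit 0) (nat_lit 0) (nat_lit 0x2000efab8c) (nat_lit 2147483648),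
  Rx.mk (nat_lit 508) (nat_lit 4) (nat_lit 7) (nat_lit 7) (nat_lit 6) (nat_lit 13) (nat_lit 109) r7_13 r1_109 (nat_lit 69501590) (nat_lit 0) (nat_lit 0) (nat_lit 0x1f8ea8b802) (nat_lit 2341057088),
  Rx.mk (nat_lit 510) (nat_lit 6) (nat_lit 7) (nat_lit 7) (nat_lit 7) (nat_lit 19) (nat_lit 113) r7_19 r1_113 (nat_lit 0) (nat_lit 0) (nat_lit 0) (nat_lit 0x201a8afc18) (nat_lit 2120043948),
  Rx.mk (nat_lit 511) (nat_lit 7) (nat_lit 7) (nat_lit 7) (nat_lit 7) (nat_lit 20) (nat_lit 110) r7_20 r1_110 (nat_lit 0) (nat_lit 0) (nat_lit 0) (nat_lit 0x2000efab8c) (nat_lit 2147483648)]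
noncomputable def e39_46 : List Rx := [
  Rx.mk (nat_lit 292) (nat_lit 4) (nat_lit 4) (nat_lit 4) (nat_lit 0) (nat_lit 21) (nat_lit 101) r7_21 r2_101 (nat_lit 1798) (nat_lit 1937) (nat_lit 8247) (nat_lit 0x10a98581b4) (nat_lit 6425118130),
  Rx.mk (nat_lit 294) (nat_lit 6) (nat_lit 4) (nat_lit 4) (nat_lit 1) (nat_lit 26) (nat_lit 107) r7_26 r2_107 (nat_lit 0) (nat_lit 5087834) (nat_lit 20717393) (nat_lit 0x1975a87816) (nat_lit 3997776725),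
  Rx.mk (nat_lit 300) (nat_lit 4) (nat_lit 5) (nat_lit 4) (nat_lit 2) (nat_lit 22) (nat_lit 102) r7_22 r2_102 (nat_lit 10623857) (nat_lit 0) (nat_lit 30039614) (nat_lit 0x15f14e7b36) (nat_lit 4993558069),
  Rx.mk (nat_lit 302) (nat_lit 6) (nat_lit 5) (nat_lit 4) (nat_lit 3) (nat_lit 27) (nat_lit 108) r7_27 r2_108 (nat_lit 0) (nat_lit 0) (nat_lit 105487641) (nat_lit 0x1e6cf14f72) (nat_lit 2692591839),
  Rx.mk (nat_lit 422) (nat_lit 6) (nat_lit 4) (nat_lit 6) (nat_lit 5) (nat_lit 28) (nat_lit 112) r7_28 r2_112 (nat_lit 0) (nat_lit 24199369) (nat_lit 0) (nat_lit 0x1bd3433ce8) (nat_lit 3336510717),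
  Rx.mk (nat_lit 430) (nat_lit 6) (nat_lit 5) (nat_lit 6) (nat_lit 7) (nat_lit 29) (nat_lit 113) r7_29 r2_113 (nat_lit 0) (nat_lit 0) (nat_lit 0) (nat_lit 0x1fe46492f2) (nat_lit 2178308798),
  Rx.mk (nat_lit 438) (nat_lit 6) (nat_lit 6) (nat_lit 6) (nat_lit 7) (nat_lit 30) (nat_lit 114) r7_30 r2_114 (nat_lit 0) (nat_lit 0) (nat_lit 0) (nat_lit 0x2000efab8c) (nat_lit 2147483648),
  Rx.mk (nat_lit 484) (nat_lit 4) (nat_lit 4) (nat_lit 7) (nat_lit 4) (nat_lit 23) (nat_lit 103) r7_23 r2_103 (nat_lit 1671799) (nat_lit 1571667) (nat_lit 0) (nat_lit 0x186cb0e74e) (nat_lit 4263704064),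
  Rx.mk (nat_lit 486) (nat_lit 6) (nat_lit 4) (nat_lit 7) (nat_lit 5) (nat_lit 31) (nat_lit 109) r7_31 r2_109 (nat_lit 0) (nat_lit 12082706) (nat_lit 0) (nat_lit 0x208790be4c) (nat_lit 2016209154),
  Rx.mk (nat_lit 492) (nat_lit 4) (nat_lit 5) (nat_lit 7) (nat_lit 6) (nat_lit 24) (nat_lit 104) r7_24 r2_104 (nat_lit 10772890) (nat_lit 0) (nat_lit 0) (nat_lit 0x201356c724) (nat_lit 2138452038),
  Rx.mk (nat_lit 494) (nat_lit 6) (nat_lit 5) (nat_lit 7) (nat_lit 7) (nat_lit 32) (nat_lit 110) r7_32 r2_110 (nat_lit 0) (nat_lit 0) (nat_lit 0) (nat_lit 0x2044298814) (nat_lit 2075709948),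
  Rx.mk (nat_lit 508) (nat_lit 4) (nat_lit 7) (nat_lit 7) (nat_lit 6) (nat_lit 25) (nat_lit 105) r7_25 r2_105 (nat_lit 17968761) (nat_lit 0) (nat_lit 0) (nat_lit 0x1fd9089b88) (nat_lit 2208536809),
  Rx.mk (nat_lit 510) (nat_lit 6) (nat_lit 7) (nat_lit 7) (nat_lit 7) (nat_lit 33) (nat_lit 111) r7_33 r2_111 (nat_lit 0) (nat_lit 0) (nat_lit 0) (nat_lit 0x2044298814) (nat_lit 2075709948),
  Rx.mk (nat_lit 511) (nat_lit 7) (nat_lit 7) (nat_lit 7) (nat_lit 7) (nat_lit 34) (nat_lit 106) r7_34 r2_106 (nat_lit 0) (nat_lit 0) (nat_lit 0) (nat_lit 0x2000efab8c) (nat_lit 2147483648)]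
noncomputable def e39_47 : List Rx := [
  Rx.mk (nat_lit 178) (nat_lit 2) (nat_lit 6) (nat_lit 2) (nat_lit 7) (nat_lit 148) (nat_lit 87) r7_148 r8_87 (nat_lit 0) (nat_lit 0) (nat_lit 0) (nat_lit 0x2000efab8c) (nat_lit 2147483648),
  Rx.mk (nat_lit 292) (nat_lit 4) (nat_lit 4) (nat_lit 4) (nat_lit 0) (nat_lit 150) (nat_lit 78) r7_150 r8_78 (nat_lit 10916527) (nat_lit 8054942) (nat_lit 72243851) (nat_lit 0xea29e495a) (nat_lit 7082065618),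
  Rx.mk (nat_lit 294) (nat_lit 6) (nat_lit 4) (nat_lit 4) (nat_lit 1) (nat_lit 153) (nat_lit 79) r7_153 r8_79 (nat_lit 0) (nat_lit 13867952) (nat_lit 49808052) (nat_lit 0x183270804e) (nat_lit 4387837202),
  Rx.mk (nat_lit 316) (nat_lit 4) (nat_lit 7) (nat_lit 4) (nat_lit 2) (nat_lit 151) (nat_lit 81) r7_151 r8_81 (nat_lit 78285234) (nat_lit 0) (nat_lit 38990238) (nat_lit 0x185c95d068) (nat_lit 4395485720),
  Rx.mk (nat_lit 318) (nat_lit 6) (nat_lit 7) (nat_lit 4) (nat_lit 3) (nat_lit 154) (nat_lit 82) r7_154 r8_82 (nat_lit 0) (nat_lit 0) (nat_lit 37466795) (nat_lit 0x1ffcf3f89e) (nat_lit 2189236093),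
  Rx.mk (nat_lit 422) (nat_lit 6) (nat_lit 4) (nat_lit 6) (nat_lit 5) (nat_lit 155) (nat_lit 80) r7_155 r8_80 (nat_lit 0) (nat_lit 5067356) (nat_lit 0) (nat_lit 0x1efa567aa4) (nat_lit 2438071504),
  Rx.mk (nat_lit 434) (nat_lit 2) (nat_lit 6) (nat_lit 6) (nat_lit 7) (nat_lit 149) (nat_lit 88) r7_149 r8_88 (nat_lit 0) (nat_lit 0) (nat_lit 0) (nat_lit 0x2000efab8c) (nat_lit 2147483648),
  Rx.mk (nat_lit 438) (nat_lit 6) (nat_lit 6) (nat_lit 6) (nat_lit 7) (nat_lit 156) (nat_lit 89) r7_156 r8_89 (nat_lit 0) (nat_lit 0) (nat_lit 0) (nat_lit 0x2000efab8c) (nat_lit 2147483648),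
  Rx.mk (nat_lit 446) (nat_lit 6) (nat_lit 7) (nat_lit 6) (nat_lit 7) (nat_lit 157) (nat_lit 86) r7_157 r8_86 (nat_lit 0) (nat_lit 0) (nat_lit 0) (nat_lit 0x20251583f6) (nat_lit 2108796398),
  Rx.mk (nat_lit 508) (nat_lit 4) (nat_lit 7) (nat_lit 7) (nat_lit 6) (nat_lit 152) (nat_lit 83) r7_152 r8_83 (nat_lit 287004756) (nat_lit 0) (nat_lit 0) (nat_lit 0x1fb51a8c54) (nat_lit 2516688604),
  Rx.mk (nat_lit 510) (nat_lit 6) (nat_lit 7) (nat_lit 7) (nat_lit 7) (nat_lit 158) (nat_lit 85) r7_158 r8_85 (nat_lit 0) (nat_lit 0) (nat_lit 0) (nat_lit 0x2000efab8c) (nat_lit 2147483648),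
  Rx.mk (nat_lit 511) (nat_lit 7) (nat_lit 7) (nat_lit 7) (nat_lit 7) (nat_lit 159) (nat_lit 84) r7_159 r8_84 (nat_lit 0) (nat_lit 0) (nat_lit 0) (nat_lit 0x1fef6c33d0) (nat_lit 2166386048)]
noncomputable def e39_48 : List Rx := [
  Rx.mk (nat_lit 292) (nat_lit 4) (nat_lit 4) (nat_lit 4) (nat_lit 0) (nat_lit 161) (nat_lit 68) r7_161 r9_68 (nat_lit 5556724) (nat_lit 6681309) (nat_lit 275129198) (nat_lit 0xe8573c850) (nat_lit 7309970679),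
  Rx.mk (nat_lit 294) (nat_lit 6) (nat_lit 4) (nat_lit 4) (nat_lit 1) (nat_lit 166) (nat_lit 74) r7_166 r9_74 (nat_lit 0) (nat_lit 39267561) (nat_lit 101420410) (nat_lit 0x185c9f17e0) (nat_lit 4418933119),
  Rx.mk (nat_lit 300) (nat_lit 4) (nat_lit 5) (nat_lit 4) (nat_lit 2) (nat_lit 162) (nat_lit 69) r7_162 r9_69 (nat_lit 42058187) (nat_lit 0) (nat_lit 70721727) (nat_lit 0x1756adffd2) (nat_lit 4676382812),
  Rx.mk (nat_lit 302) (nat_lit 6) (nat_lit 5) (nat_lit 4) (nat_lit 3) (nat_lit 167) (nat_lit 75) r7_167 r9_75 (nat_lit 0) (nat_lit 0) (nat_lit 102732549) (nat_lit 0x1f66fce602) (nat_lit 2417471747),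
  Rx.mk (nat_lit 422) (nat_lit 6) (nat_lit 4) (nat_lit 6) (nat_lit 5) (nat_lit 168) (nat_lit 79) r7_168 r9_79 (nat_lit 0) (nat_lit 45350950) (nat_lit 0) (nat_lit 0x1e7a71e436) (nat_lit 2617750648),
  Rx.mk (nat_lit 430) (nat_lit 6) (nat_lit 5) (nat_lit 6) (nat_lit 7) (nat_lit 169) (nat_lit 80) r7_169 r9_80 (nat_lit 0) (nat_lit 0) (nat_lit 0) (nat_lit 0x2000efab8c) (nat_lit 2147483648),
  Rx.mk (nat_lit 434) (nat_lit 2) (nat_lit 6) (nat_lit 6) (nat_lit 7) (nat_lit 160) (nat_lit 82) r7_160 r9_82 (nat_lit 0) (nat_lit 0) (nat_lit 0) (nat_lit 0x2000efab8c) (nat_lit 2147483648),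
  Rx.mk (nat_lit 438) (nat_lit 6) (nat_lit 6) (nat_lit 6) (nat_lit 7) (nat_lit 170) (nat_lit 81) r7_170 r9_81 (nat_lit 0) (nat_lit 0) (nat_lit 0) (nat_lit 0x2000efab8c) (nat_lit 2147483648),
  Rx.mk (nat_lit 484) (nat_lit 4) (nat_lit 4) (nat_lit 7) (nat_lit 4) (nat_lit 163) (nat_lit 70) r7_163 r9_70 (nat_lit 377506769) (nat_lit 36004825) (nat_lit 0) (nat_lit 0x1c452b0bce) (nat_lit 3601731492),
  Rx.mk (nat_lit 486) (nat_lit 6) (nat_lit 4) (nat_lit 7) (nat_lit 5) (nat_lit 171) (nat_lit 76) r7_171 r9_76 (nat_lit 0) (nat_lit 39267561) (nat_lit 0) (nat_lit 0x2000efab8c) (nat_lit 2186751209),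
  Rx.mk (nat_lit 492) (nat_lit 4) (nat_lit 5) (nat_lit 7) (nat_lit 6) (nat_lit 164) (nat_lit 71) r7_164 r9_71 (nat_lit 39267561) (nat_lit 0) (nat_lit 0) (nat_lit 0x2000efab8c) (nat_lit 2186751209),
  Rx.mk (nat_lit 494) (nat_lit 6) (nat_lit 5) (nat_lit 7) (nat_lit 7) (nat_lit 172) (nat_lit 77) r7_172 r9_77 (nat_lit 0) (nat_lit 0) (nat_lit 0) (nat_lit 0x2000efab8c) (nat_lit 2147483648),
  Rx.mk (nat_lit 508) (nat_lit 4) (nat_lit 7) (nat_lit 7) (nat_lit 6) (nat_lit 165) (nat_lit 72) r7_165 r9_72 (nat_lit 87660547) (nat_lit 0) (nat_lit 0) (nat_lit 0x1fe8d07f54) (nat_lit 2261177395),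
  Rx.mk (nat_lit 510) (nat_lit 6) (nat_lit 7) (nat_lit 7) (nat_lit 7) (nat_lit 173) (nat_lit 78) r7_173 r9_78 (nat_lit 0) (nat_lit 0) (nat_lit 0) (nat_lit 0x2000efab8c) (nat_lit 2147483648),
  Rx.mk (nat_lit 511) (nat_lit 7) (nat_lit 7) (nat_lit 7) (nat_lit 7) (nat_lit 174) (nat_lit 73) r7_174 r9_73 (nat_lit 0) (nat_lit 0) (nat_lit 0) (nat_lit 0x2000efab8c) (nat_lit 2147483648)]
noncomputable def e39_49 : List Rx := [
  Rx.mk (nat_lit 292) (nat_lit 4) (nat_lit 4) (nat_lit 4) (nat_lit 0) (nat_lit 204) (nat_lit 170) r7_204 r9_170 (nat_lit 16606453) (nat_lit 14375128) (nat_lit 24129304) (nat_lit 0xeb9d8c0fa) (nat_lit 7020682383),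
  Rx.mk (nat_lit 294) (nat_lit 6) (nat_lit 4) (nat_lit 4) (nat_lit 1) (nat_lit 210) (nat_lit 172) r7_210 r9_172 (nat_lit 0) (nat_lit 39267561) (nat_lit 42344646) (nat_lit 0x1810200be0) (nat_lit 4443199055),
  Rx.mk (nat_lit 300) (nat_lit 4) (nat_lit 5) (nat_lit 4) (nat_lit 2) (nat_lit 205) (nat_lit 171) r7_205 r9_171 (nat_lit 78494873) (nat_lit 0) (nat_lit 49544812) (nat_lit 0x17814085da) (nat_lit 4645265483),
  Rx.mk (nat_lit 302) (nat_lit 6) (nat_lit 5) (nat_lit 4) (nat_lit 3) (nat_lit 211) (nat_lit 173) r7_211 r9_173 (nat_lit 0) (nat_lit 0) (nat_lit 44440179) (nat_lit 0x1fafda1dea) (nat_lit 2279853077),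
  Rx.mk (nat_lit 364) (nat_lit 4) (nat_lit 5) (nat_lit 5) (nat_lit 6) (nat_lit 206) (nat_lit 174) r7_206 r9_174 (nat_lit 65702946) (nat_lit 0) (nat_lit 0) (nat_lit 0x1fd81b21dc) (nat_lit 2257341794),
  Rx.mk (nat_lit 366) (nat_lit 6) (nat_lit 5) (nat_lit 5) (nat_lit 7) (nat_lit 212) (nat_lit 175) r7_212 r9_175 (nat_lit 0) (nat_lit 0) (nat_lit 0) (nat_lit 0x2000efab8c) (nat_lit 2147483648),
  Rx.mk (nat_lit 422) (nat_lit 6) (nat_lit 4) (nat_lit 6) (nat_lit 5) (nat_lit 213) (nat_lit 180) r7_213 r9_180 (nat_lit 0) (nat_lit 39267561) (nat_lit 0) (nat_lit 0x1fed50c282) (nat_lit 2207915259),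
  Rx.mk (nat_lit 430) (nat_lit 6) (nat_lit 5) (nat_lit 6) (nat_lit 7) (nat_lit 214) (nat_lit 181) r7_214 r9_181 (nat_lit 0) (nat_lit 0) (nat_lit 0) (nat_lit 0x2000efab8c) (nat_lit 2147483648),
  Rx.mk (nat_lit 438) (nat_lit 6) (nat_lit 6) (nat_lit 6) (nat_lit 7) (nat_lit 215) (nat_lit 182) r7_215 r9_182 (nat_lit 0) (nat_lit 0) (nat_lit 0) (nat_lit 0x2000efab8c) (nat_lit 2147483648),
  Rx.mk (nat_lit 484) (nat_lit 4) (nat_lit 4) (nat_lit 7) (nat_lit 4) (nat_lit 207) (nat_lit 176) r7_207 r9_176 (nat_lit 296668871) (nat_lit 48335039) (nat_lit 0) (nat_lit 0x1ca4fd61f0) (nat_lit 3428841158),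
  Rx.mk (nat_lit 492) (nat_lit 4) (nat_lit 5) (nat_lit 7) (nat_lit 6) (nat_lit 208) (nat_lit 177) r7_208 r9_177 (nat_lit 39267561) (nat_lit 0) (nat_lit 0) (nat_lit 0x2000efab8c) (nat_lit 2186751209),
  Rx.mk (nat_lit 508) (nat_lit 4) (nat_lit 7) (nat_lit 7) (nat_lit 6) (nat_lit 209) (nat_lit 178) r7_209 r9_178 (nat_lit 88391096) (nat_lit 0) (nat_lit 0) (nat_lit 0x1fdfc2721e) (nat_lit 2271724494),
  Rx.mk (nat_lit 511) (nat_lit 7) (nat_lit 7) (nat_lit 7) (nat_lit 7) (nat_lit 216) (nat_lit 179) r7_216 r9_179 (nat_lit 0) (nat_lit 0) (nat_lit 0) (nat_lit 0x2000efab8c) (nat_lit 2147483648)]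
noncomputable def e39_50 : List Rx := [
  Rx.mk (nat_lit 199) (nat_lit 7) (nat_lit 0) (nat_lit 3) (nat_lit 5) (nat_lit 36) (nat_lit 102) r7_36 r3_102 (nat_lit 0) (nat_lit 13067) (nat_lit 0) (nat_lit 0x1ffedc9c88) (nat_lit 2148740815),
  Rx.mk (nat_lit 223) (nat_lit 7) (nat_lit 3) (nat_lit 3) (nat_lit 7) (nat_lit 37) (nat_lit 103) r7_37 r3_103 (nat_lit 0) (nat_lit 0) (nat_lit 0) (nat_lit 0x1b65044f42) (nat_lit 3432416898),
  Rx.mk (nat_lit 476) (nat_lit 4) (nat_lit 3) (nat_lit 7) (nat_lit 6) (nat_lit 35) (nat_lit 100) r7_35 r3_100 (nat_lit 13067) (nat_lit 0) (nat_lit 0) (nat_lit 0x1ffedc9c88) (nat_lit 2148740815),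
  Rx.mk (nat_lit 479) (nat_lit 7) (nat_lit 3) (nat_lit 7) (nat_lit 7) (nat_lit 38) (nat_lit 101) r7_38 r3_101 (nat_lit 0) (nat_lit 0) (nat_lit 0) (nat_lit 0x1b65044f42) (nat_lit 3432416898)]
noncomputable def e39_51 : List Rx := [
  Rx.mk (nat_lit 199) (nat_lit 7) (nat_lit 0) (nat_lit 3) (nat_lit 5) (nat_lit 45) (nat_lit 102) r7_45 r4_102 (nat_lit 0) (nat_lit 22760134) (nat_lit 0) (nat_lit 0x200a33761a) (nat_lit 2160268632),
  Rx.mk (nat_lit 223) (nat_lit 7) (nat_lit 3) (nat_lit 3) (nat_lit 7) (nat_lit 46) (nat_lit 103) r7_46 r4_103 (nat_lit 0) (nat_lit 0) (nat_lit 0) (nat_lit 0x2000efab8c) (nat_lit 2147483648),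
  Rx.mk (nat_lit 316) (nat_lit 4) (nat_lit 7) (nat_lit 4) (nat_lit 2) (nat_lit 39) (nat_lit 98) r7_39 r4_98 (nat_lit 691210) (nat_lit 0) (nat_lit 201188894) (nat_lit 0x17267e5d7a) (nat_lit 4817627602),
  Rx.mk (nat_lit 318) (nat_lit 6) (nat_lit 7) (nat_lit 4) (nat_lit 3) (nat_lit 42) (nat_lit 104) r7_42 r4_104 (nat_lit 0) (nat_lit 0) (nat_lit 848345181) (nat_lit 0x204a309cac) (nat_lit 2917572829),
  Rx.mk (nat_lit 446) (nat_lit 6) (nat_lit 7) (nat_lit 6) (nat_lit 7) (nat_lit 43) (nat_lit 106) r7_43 r4_106 (nat_lit 0) (nat_lit 0) (nat_lit 0) (nat_lit 0x2000efab8c) (nat_lit 2147483648),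
  Rx.mk (nat_lit 476) (nat_lit 4) (nat_lit 3) (nat_lit 7) (nat_lit 6) (nat_lit 40) (nat_lit 100) r7_40 r4_100 (nat_lit 16582013) (nat_lit 0) (nat_lit 0) (nat_lit 0x2006588418) (nat_lit 2158209761),
  Rx.mk (nat_lit 479) (nat_lit 7) (nat_lit 3) (nat_lit 7) (nat_lit 7) (nat_lit 47) (nat_lit 101) r7_47 r4_101 (nat_lit 0) (nat_lit 0) (nat_lit 0) (nat_lit 0x2000efab8c) (nat_lit 2147483648),
  Rx.mk (nat_lit 508) (nat_lit 4) (nat_lit 7) (nat_lit 7) (nat_lit 6) (nat_lit 41) (nat_lit 99) r7_41 r4_99 (nat_lit 6737782) (nat_lit 0) (nat_lit 0) (nat_lit 0x1bc92629aa) (nat_lit 3329967480),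
  Rx.mk (nat_lit 510) (nat_lit 6) (nat_lit 7) (nat_lit 7) (nat_lit 7) (nat_lit 44) (nat_lit 105) r7_44 r4_105 (nat_lit 0) (nat_lit 0) (nat_lit 0) (nat_lit 0x2054448262) (nat_lit 2058563498)]
noncomputable def e39_52 : List Rx := [
  Rx.mk (nat_lit 199) (nat_lit 7) (nat_lit 0) (nat_lit 3) (nat_lit 5) (nat_lit 49) (nat_lit 105) r7_49 r5_105 (nat_lit 0) (nat_lit 12895790) (nat_lit 0) (nat_lit 0x1ffc629ad4) (nat_lit 2165259738),
  Rx.mk (nat_lit 455) (nat_lit 7) (nat_lit 0) (nat_lit 7) (nat_lit 5) (nat_lit 50) (nat_lit 103) r7_50 r5_103 (nat_lit 0) (nat_lit 7226244) (nat_lit 0) (nat_lit 0x1961d3d3da) (nat_lit 4000821942),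
  Rx.mk (nat_lit 476) (nat_lit 4) (nat_lit 3) (nat_lit 7) (nat_lit 6) (nat_lit 48) (nat_lit 102) r7_48 r5_102 (nat_lit 10192449) (nat_lit 0) (nat_lit 0) (nat_lit 0x2021fb9b7e) (nat_lit 2122233647),
  Rx.mk (nat_lit 479) (nat_lit 7) (nat_lit 3) (nat_lit 7) (nat_lit 7) (nat_lit 51) (nat_lit 104) r7_51 r5_104 (nat_lit 0) (nat_lit 0) (nat_lit 0) (nat_lit 0x1f93e68524) (nat_lit 2265825448)]
noncomputable def e39_53 : List Rx := [
  Rx.mk (nat_lit 3) (nat_lit 3) (nat_lit 0) (nat_lit 0) (nat_lit 1) (nat_lit 175) (nat_lit 98) r7_175 r4_98 (nat_lit 0) (nat_lit 691210) (nat_lit 201188894) (nat_lit 0x17267e5d7a) (nat_lit 4817627602),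
  Rx.mk (nat_lit 19) (nat_lit 3) (nat_lit 2) (nat_lit 0) (nat_lit 3) (nat_lit 176) (nat_lit 104) r7_176 r4_104 (nat_lit 0) (nat_lit 0) (nat_lit 848345181) (nat_lit 0x204a309cac) (nat_lit 2917572829),
  Rx.mk (nat_lit 147) (nat_lit 3) (nat_lit 2) (nat_lit 2) (nat_lit 7) (nat_lit 177) (nat_lit 106) r7_177 r4_106 (nat_lit 0) (nat_lit 0) (nat_lit 0) (nat_lit 0x2000efab8c) (nat_lit 2147483648),
  Rx.mk (nat_lit 195) (nat_lit 3) (nat_lit 0) (nat_lit 3) (nat_lit 5) (nat_lit 178) (nat_lit 99) r7_178 r4_99 (nat_lit 0) (nat_lit 6737782) (nat_lit 0) (nat_lit 0x1bc92629aa) (nat_lit 3329967480),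
  Rx.mk (nat_lit 199) (nat_lit 7) (nat_lit 0) (nat_lit 3) (nat_lit 5) (nat_lit 181) (nat_lit 100) r7_181 r4_100 (nat_lit 0) (nat_lit 16582013) (nat_lit 0) (nat_lit 0x2006588418) (nat_lit 2158209761),
  Rx.mk (nat_lit 211) (nat_lit 3) (nat_lit 2) (nat_lit 3) (nat_lit 7) (nat_lit 179) (nat_lit 105) r7_179 r4_105 (nat_lit 0) (nat_lit 0) (nat_lit 0) (nat_lit 0x2054448262) (nat_lit 2058563498),
  Rx.mk (nat_lit 223) (nat_lit 7) (nat_lit 3) (nat_lit 3) (nat_lit 7) (nat_lit 182) (nat_lit 101) r7_182 r4_101 (nat_lit 0) (nat_lit 0) (nat_lit 0) (nat_lit 0x2000efab8c) (nat_lit 2147483648),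
  Rx.mk (nat_lit 476) (nat_lit 4) (nat_lit 3) (nat_lit 7) (nat_lit 6) (nat_lit 180) (nat_lit 102) r7_180 r4_102 (nat_lit 22760134) (nat_lit 0) (nat_lit 0) (nat_lit 0x200a33761a) (nat_lit 2160268632),
  Rx.mk (nat_lit 479) (nat_lit 7) (nat_lit 3) (nat_lit 7) (nat_lit 7) (nat_lit 183) (nat_lit 103) r7_183 r4_103 (nat_lit 0) (nat_lit 0) (nat_lit 0) (nat_lit 0x2000efab8c) (nat_lit 2147483648)]
noncomputable def e39_54 : List Rx := [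
  Rx.mk (nat_lit 3) (nat_lit 3) (nat_lit 0) (nat_lit 0) (nat_lit 1) (nat_lit 184) (nat_lit 91) r7_184 r10_91 (nat_lit 0) (nat_lit 3314691) (nat_lit 15033885) (nat_lit 0x1a56beaf78) (nat_lit 3745066724),
  Rx.mk (nat_lit 19) (nat_lit 3) (nat_lit 2) (nat_lit 0) (nat_lit 3) (nat_lit 185) (nat_lit 92) r7_185 r10_92 (nat_lit 0) (nat_lit 0) (nat_lit 35778202) (nat_lit 0x1dbad3aa88) (nat_lit 2816974650),
  Rx.mk (nat_lit 147) (nat_lit 3) (nat_lit 2) (nat_lit 2) (nat_lit 7) (nat_lit 186) (nat_lit 95) r7_186 r10_95 (nat_lit 0) (nat_lit 0) (nat_lit 0) (nat_lit 0x20107f4b02) (nat_lit 2130755198),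
  Rx.mk (nat_lit 195) (nat_lit 3) (nat_lit 0) (nat_lit 3) (nat_lit 5) (nat_lit 187) (nat_lit 93) r7_187 r10_93 (nat_lit 0) (nat_lit 5456599) (nat_lit 0) (nat_lit 0x1d3c89f54c) (nat_lit 2924140447),
  Rx.mk (nat_lit 199) (nat_lit 7) (nat_lit 0) (nat_lit 3) (nat_lit 5) (nat_lit 195) (nat_lit 86) r7_195 r10_86 (nat_lit 0) (nat_lit 25957406) (nat_lit 0) (nat_lit 0x1fb50a72ec) (nat_lit 2255744054),
  Rx.mk (nat_lit 211) (nat_lit 3) (nat_lit 2) (nat_lit 3) (nat_lit 7) (nat_lit 188) (nat_lit 94) r7_188 r10_94 (nat_lit 0) (nat_lit 0) (nat_lit 0) (nat_lit 0x201081bdc4) (nat_lit 2130744948),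
  Rx.mk (nat_lit 223) (nat_lit 7) (nat_lit 3) (nat_lit 3) (nat_lit 7) (nat_lit 196) (nat_lit 87) r7_196 r10_87 (nat_lit 0) (nat_lit 0) (nat_lit 0) (nat_lit 0x1fb5caeaf4) (nat_lit 2228946748),
  Rx.mk (nat_lit 316) (nat_lit 4) (nat_lit 7) (nat_lit 4) (nat_lit 2) (nat_lit 189) (nat_lit 82) r7_189 r10_82 (nat_lit 3314691) (nat_lit 0) (nat_lit 15033885) (nat_lit 0x1a56beaf78) (nat_lit 3745066724),
  Rx.mk (nat_lit 318) (nat_lit 6) (nat_lit 7) (nat_lit 4) (nat_lit 3) (nat_lit 192) (nat_lit 88) r7_192 r10_88 (nat_lit 0) (nat_lit 0) (nat_lit 35778202) (nat_lit 0x1dbad3aa88) (nat_lit 2816974650),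
  Rx.mk (nat_lit 446) (nat_lit 6) (nat_lit 7) (nat_lit 6) (nat_lit 7) (nat_lit 193) (nat_lit 90) r7_193 r10_90 (nat_lit 0) (nat_lit 0) (nat_lit 0) (nat_lit 0x20107f4b02) (nat_lit 2130755198),
  Rx.mk (nat_lit 476) (nat_lit 4) (nat_lit 3) (nat_lit 7) (nat_lit 6) (nat_lit 190) (nat_lit 84) r7_190 r10_84 (nat_lit 25957406) (nat_lit 0) (nat_lit 0) (nat_lit 0x1fb50a72ec) (nat_lit 2255744054),
  Rx.mk (nat_lit 479) (nat_lit 7) (nat_lit 3) (nat_lit 7) (nat_lit 7) (nat_lit 197) (nat_lit 85) r7_197 r10_85 (nat_lit 0) (nat_lit 0) (nat_lit 0) (nat_lit 0x1fb5caeaf4) (nat_lit 2228946748),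
  Rx.mk (nat_lit 508) (nat_lit 4) (nat_lit 7) (nat_lit 7) (nat_lit 6) (nat_lit 191) (nat_lit 83) r7_191 r10_83 (nat_lit 5456599) (nat_lit 0) (nat_lit 0) (nat_lit 0x1d3c89f54c) (nat_lit 2924140447),
  Rx.mk (nat_lit 510) (nat_lit 6) (nat_lit 7) (nat_lit 7) (nat_lit 7) (nat_lit 194) (nat_lit 89) r7_194 r10_89 (nat_lit 0) (nat_lit 0) (nat_lit 0) (nat_lit 0x201081bdc4) (nat_lit 2130744948)]
noncomputable def e39_55 : List Rx := [
  Rx.mk (nat_lit 195) (nat_lit 3) (nat_lit 0) (nat_lit 3) (nat_lit 5) (nat_lit 198) (nat_lit 105) r7_198 r11_105 (nat_lit 0) (nat_lit 11865827) (nat_lit 0) (nat_lit 0x1fd3dad702) (nat_lit 2208070725),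
  Rx.mk (nat_lit 199) (nat_lit 7) (nat_lit 0) (nat_lit 3) (nat_lit 5) (nat_lit 201) (nat_lit 104) r7_201 r11_104 (nat_lit 0) (nat_lit 17559563) (nat_lit 0) (nat_lit 0x2037065aae) (nat_lit 2107248561),
  Rx.mk (nat_lit 211) (nat_lit 3) (nat_lit 2) (nat_lit 3) (nat_lit 7) (nat_lit 199) (nat_lit 106) r7_199 r11_106 (nat_lit 0) (nat_lit 0) (nat_lit 0) (nat_lit 0x207c286dc0) (nat_lit 2016191848),
  Rx.mk (nat_lit 455) (nat_lit 7) (nat_lit 0) (nat_lit 7) (nat_lit 5) (nat_lit 202) (nat_lit 102) r7_202 r11_102 (nat_lit 0) (nat_lit 38161231) (nat_lit 0) (nat_lit 0x1d02466b90) (nat_lit 3020367679),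
  Rx.mk (nat_lit 476) (nat_lit 4) (nat_lit 3) (nat_lit 7) (nat_lit 6) (nat_lit 200) (nat_lit 101) r7_200 r11_101 (nat_lit 107298956) (nat_lit 0) (nat_lit 0) (nat_lit 0x1fd5e65f30) (nat_lit 2301334404),
  Rx.mk (nat_lit 479) (nat_lit 7) (nat_lit 3) (nat_lit 7) (nat_lit 7) (nat_lit 203) (nat_lit 103) r7_203 r11_103 (nat_lit 0) (nat_lit 0) (nat_lit 0) (nat_lit 0x2000efab8c) (nat_lit 2147483648)]
noncomputable def e39_56 : List Rx := [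
  Rx.mk (nat_lit 199) (nat_lit 7) (nat_lit 0) (nat_lit 3) (nat_lit 5) (nat_lit 272) (nat_lit 102) r7_272 r5_102 (nat_lit 0) (nat_lit 10192449) (nat_lit 0) (nat_lit 0x2021fb9b7e) (nat_lit 2122233647),
  Rx.mk (nat_lit 220) (nat_lit 4) (nat_lit 3) (nat_lit 3) (nat_lit 6) (nat_lit 270) (nat_lit 103) r7_270 r5_103 (nat_lit 7226244) (nat_lit 0) (nat_lit 0) (nat_lit 0x1961d3d3da) (nat_lit 4000821942),
  Rx.mk (nat_lit 223) (nat_lit 7) (nat_lit 3) (nat_lit 3) (nat_lit 7) (nat_lit 273) (nat_lit 104) r7_273 r5_104 (nat_lit 0) (nat_lit 0) (nat_lit 0) (nat_lit 0x1f93e68524) (nat_lit 2265825448),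
  Rx.mk (nat_lit 476) (nat_lit 4) (nat_lit 3) (nat_lit 7) (nat_lit 6) (nat_lit 271) (nat_lit 105) r7_271 r5_105 (nat_lit 12895790) (nat_lit 0) (nat_lit 0) (nat_lit 0x1ffc629ad4) (nat_lit 2165259738)]
noncomputable def e39_57 : List Rx := [
  Rx.mk (nat_lit 199) (nat_lit 7) (nat_lit 0) (nat_lit 3) (nat_lit 5) (nat_lit 278) (nat_lit 101) r7_278 r11_101 (nat_lit 0) (nat_lit 107298956) (nat_lit 0) (nat_lit 0x1fd5e65f30) (nat_lit 2301334404),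
  Rx.mk (nat_lit 220) (nat_lit 4) (nat_lit 3) (nat_lit 3) (nat_lit 6) (nat_lit 274) (nat_lit 102) r7_274 r11_102 (nat_lit 38161231) (nat_lit 0) (nat_lit 0) (nat_lit 0x1d02466b90) (nat_lit 3020367679),
  Rx.mk (nat_lit 223) (nat_lit 7) (nat_lit 3) (nat_lit 3) (nat_lit 7) (nat_lit 279) (nat_lit 103) r7_279 r11_103 (nat_lit 0) (nat_lit 0) (nat_lit 0) (nat_lit 0x2000efab8c) (nat_lit 2147483648),
  Rx.mk (nat_lit 476) (nat_lit 4) (nat_lit 3) (nat_lit 7) (nat_lit 6) (nat_lit 275) (nat_lit 104) r7_275 r11_104 (nat_lit 17559563) (nat_lit 0) (nat_lit 0) (nat_lit 0x2037065aae) (nat_lit 2107248561),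
  Rx.mk (nat_lit 508) (nat_lit 4) (nat_lit 7) (nat_lit 7) (nat_lit 6) (nat_lit 276) (nat_lit 105) r7_276 r11_105 (nat_lit 11865827) (nat_lit 0) (nat_lit 0) (nat_lit 0x1fd3dad702) (nat_lit 2208070725),
  Rx.mk (nat_lit 510) (nat_lit 6) (nat_lit 7) (nat_lit 7) (nat_lit 7) (nat_lit 277) (nat_lit 106) r7_277 r11_106 (nat_lit 0) (nat_lit 0) (nat_lit 0) (nat_lit 0x207c286dc0) (nat_lit 2016191848)]
noncomputable def e39 : List (List Rx) := [e39_0, e39_1, e39_2, e39_3, e39_4, e39_5, e39_6, e39_7, e39_8, e39_9, e39_10, e39_11, e39_12, e39_13, e39_14, e39_15, e39_16, e39_17, e39_18, e39_19, e39_20, e39_21, e39_22, e39_23, e39_24, e39_25, e39_26, e39_27, e39_28, e39_29, e39_30, e39_31, e39_32, e39_33, e39_34, e39_35, e39_36, e39_37, e39_38, e39_39, e39_40, e39_41, e39_42, e39_43, e39_44, e39_45, e39_46, e39_47, e39_48, e39_49, e39_50, e39_51, e39_52, e39_53, e39_54,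 e39_55, e39_56, e39_57]
noncomputable def e40_0 : List Rx := [
  Rx.mk (nat_lit 1) (nat_lit 1) (nat_lit 0) (nat_lit 0) (nat_lit 1) (nat_lit 180) (nat_lit 254) r2_180 r0_254 (nat_lit 0) (nat_lit 434226316) (nat_lit 36413796) (nat_lit 0x1879ff9526) (nat_lit 4716875910),
  Rx.mk (nat_lit 193) (nat_lit 1) (nat_lit 0) (nat_lit 3) (nat_lit 5) (nat_lit 181) (nat_lit 255) r2_181 r0_255 (nat_lit 0) (nat_lit 100346273) (nat_lit 0) (nat_lit 0x1fdee46c8a) (nat_lit 2284621071),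
  Rx.mk (nat_lit 217) (nat_lit 1) (nat_lit 3) (nat_lit 3) (nat_lit 7) (nat_lit 182) (nat_lit 256) r2_182 r0_256 (nat_lit 0) (nat_lit 0) (nat_lit 0) (nat_lit 0x2000efab8c) (nat_lit 2147483648)]
noncomputable def e40_1 : List Rx := [
  Rx.mk (nat_lit 1) (nat_lit 1) (nat_lit 0) (nat_lit 0) (nat_lit 1) (nat_lit 183) (nat_lit 258) r2_183 r1_258 (nat_lit 0) (nat_lit 77726219) (nat_lit 41010729) (nat_lit 0x194a420250) (nat_lit 4138100096),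
  Rx.mk (nat_lit 65) (nat_lit 1) (nat_lit 0) (nat_lit 1) (nat_lit 5) (nat_lit 184) (nat_lit 259) r2_184 r1_259 (nat_lit 0) (nat_lit 43310882) (nat_lit 0) (nat_lit 0x1ff20b3ff0) (nat_lit 2206848030),
  Rx.mk (nat_lit 193) (nat_lit 1) (nat_lit 0) (nat_lit 3) (nat_lit 5) (nat_lit 185) (nat_lit 260) r2_185 r1_260 (nat_lit 0) (nat_lit 39267561) (nat_lit 0) (nat_lit 0x2000efab8c) (nat_lit 2186751209),
  Rx.mk (nat_lit 217) (nat_lit 1) (nat_lit 3) (nat_lit 3) (nat_lit 7) (nat_lit 186) (nat_lit 261) r2_186 r1_261 (nat_lit 0) (nat_lit 0) (nat_lit 0) (nat_lit 0x2000efab8c) (nat_lit 2147483648)]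
noncomputable def e40_2 : List Rx := [
  Rx.mk (nat_lit 65) (nat_lit 1) (nat_lit 0) (nat_lit 1) (nat_lit 5) (nat_lit 310) (nat_lit 286) r2_310 r2_286 (nat_lit 0) (nat_lit 39267561) (nat_lit 0) (nat_lit 0x1ff8b4b21e) (nat_lit 2195612459),
  Rx.mk (nat_lit 73) (nat_lit 1) (nat_lit 1) (nat_lit 1) (nat_lit 7) (nat_lit 311) (nat_lit 287) r2_311 r2_287 (nat_lit 0) (nat_lit 0) (nat_lit 0) (nat_lit 0x2000efab8c) (nat_lit 2147483648)]
noncomputable def e40_3 : List Rx := [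
  Rx.mk (nat_lit 193) (nat_lit 1) (nat_lit 0) (nat_lit 3) (nat_lit 5) (nat_lit 59) (nat_lit 254) r2_59 r3_254 (nat_lit 0) (nat_lit 13970) (nat_lit 0) (nat_lit 0x1ffdcaf394) (nat_lit 2149902718),
  Rx.mk (nat_lit 217) (nat_lit 1) (nat_lit 3) (nat_lit 3) (nat_lit 7) (nat_lit 61) (nat_lit 255) r2_61 r3_255 (nat_lit 0) (nat_lit 0) (nat_lit 0) (nat_lit 0x20008cbcc0) (nat_lit 2147723548),
  Rx.mk (nat_lit 473) (nat_lit 1) (nat_lit 3) (nat_lit 7) (nat_lit 7) (nat_lit 60) (nat_lit 256) r2_60 r3_256 (nat_lit 0) (nat_lit 0) (nat_lit 0) (nat_lit 0x1fa59ed438) (nat_lit 2246583448)]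
noncomputable def e40_4 : List Rx := [
  Rx.mk (nat_lit 193) (nat_lit 1) (nat_lit 0) (nat_lit 3) (nat_lit 5) (nat_lit 187) (nat_lit 271) r2_187 r4_271 (nat_lit 0) (nat_lit 39267561) (nat_lit 0) (nat_lit 0x201c1fc8a6) (nat_lit 2157622559),
  Rx.mk (nat_lit 217) (nat_lit 1) (nat_lit 3) (nat_lit 3) (nat_lit 7) (nat_lit 188) (nat_lit 272) r2_188 r4_272 (nat_lit 0) (nat_lit 0) (nat_lit 0) (nat_lit 0x2015a91a7c) (nat_lit 2125261448)]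
noncomputable def e40_5 : List Rx := [
  Rx.mk (nat_lit 193) (nat_lit 1) (nat_lit 0) (nat_lit 3) (nat_lit 5) (nat_lit 256) (nat_lit 258) r2_256 r5_258 (nat_lit 0) (nat_lit 32690532) (nat_lit 0) (nat_lit 0x1f0b3430be) (nat_lit 2447331630),
  Rx.mk (nat_lit 449) (nat_lit 1) (nat_lit 0) (nat_lit 7) (nat_lit 5) (nat_lit 255) (nat_lit 259) r2_255 r5_259 (nat_lit 0) (nat_lit 18946335) (nat_lit 0) (nat_lit 0x1f8c22186c) (nat_lit 2293205483),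
  Rx.mk (nat_lit 473) (nat_lit 1) (nat_lit 3) (nat_lit 7) (nat_lit 7) (nat_lit 257) (nat_lit 260) r2_257 r5_260 (nat_lit 0) (nat_lit 0) (nat_lit 0) (nat_lit 0x2000efab8c) (nat_lit 2147483648)]
noncomputable def e40_6 : List Rx := [
  Rx.mk (nat_lit 257) (nat_lit 1) (nat_lit 0) (nat_lit 4) (nat_lit 1) (nat_lit 323) (nat_lit 279) r2_323 r3_279 (nat_lit 0) (nat_lit 1393) (nat_lit 1395) (nat_lit 0x1bc74b6104) (nat_lit 3324839236),
  Rx.mk (nat_lit 261) (nat_lit 5) (nat_lit 0) (nat_lit 4) (nat_lit 1) (nat_lit 322) (nat_lit 276) r2_322 r3_276 (nat_lit 0) (nat_lit 1395) (nat_lit 1393) (nat_lit 0x1bc74b6104) (nat_lit 3324839236),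
  Rx.mk (nat_lit 265) (nat_lit 1) (nat_lit 1) (nat_lit 4) (nat_lit 3) (nat_lit 328) (nat_lit 284) r2_328 r3_284 (nat_lit 0) (nat_lit 0) (nat_lit 24558) (nat_lit 0x19b016ab8a) (nat_lit 3907932756),
  Rx.mk (nat_lit 269) (nat_lit 5) (nat_lit 1) (nat_lit 4) (nat_lit 3) (nat_lit 327) (nat_lit 281) r2_327 r3_281 (nat_lit 0) (nat_lit 0) (nat_lit 88046304) (nat_lit 0x1c9c2b7210) (nat_lit 3181356852),
  Rx.mk (nat_lit 281) (nat_lit 1) (nat_lit 3) (nat_lit 4) (nat_lit 3) (nat_lit 332) (nat_lit 286) r2_332 r3_286 (nat_lit 0) (nat_lit 0) (nat_lit 34837244) (nat_lit 0x1f647e8bc4) (nat_lit 2352287792),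
  Rx.mk (nat_lit 321) (nat_lit 1) (nat_lit 0) (nat_lit 5) (nat_lit 5) (nat_lit 325) (nat_lit 280) r2_325 r3_280 (nat_lit 0) (nat_lit 88046304) (nat_lit 0) (nat_lit 0x1c9c2b7210) (nat_lit 3181356852),
  Rx.mk (nat_lit 325) (nat_lit 5) (nat_lit 0) (nat_lit 5) (nat_lit 5) (nat_lit 324) (nat_lit 277) r2_324 r3_277 (nat_lit 0) (nat_lit 24558) (nat_lit 0) (nat_lit 0x19b016ab8a) (nat_lit 3907932756),
  Rx.mk (nat_lit 329) (nat_lit 1) (nat_lit 1) (nat_lit 5) (nat_lit 7) (nat_lit 330) (nat_lit 285) r2_330 r3_285 (nat_lit 0) (nat_lit 0) (nat_lit 0) (nat_lit 0x1fe30bc7d6) (nat_lit 2179767198),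
  Rx.mk (nat_lit 333) (nat_lit 5) (nat_lit 1) (nat_lit 5) (nat_lit 7) (nat_lit 329) (nat_lit 282) r2_329 r3_282 (nat_lit 0) (nat_lit 0) (nat_lit 0) (nat_lit 0x1fe30bc7d6) (nat_lit 2179767198),
  Rx.mk (nat_lit 345) (nat_lit 1) (nat_lit 3) (nat_lit 5) (nat_lit 7) (nat_lit 333) (nat_lit 287) r2_333 r3_287 (nat_lit 0) (nat_lit 0) (nat_lit 0) (nat_lit 0x2000efab8c) (nat_lit 2147483648),
  Rx.mk (nat_lit 453) (nat_lit 5) (nat_lit 0) (nat_lit 7) (nat_lit 5) (nat_lit 326) (nat_lit 278) r2_326 r3_278 (nat_lit 0) (nat_lit 34837244) (nat_lit 0) (nat_lit 0x1f647e8bc4) (nat_lit 2352287792),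
  Rx.mk (nat_lit 461) (nat_lit 5) (nat_lit 1) (nat_lit 7) (nat_lit 7) (nat_lit 331) (nat_lit 283) r2_331 r3_283 (nat_lit 0) (nat_lit 0) (nat_lit 0) (nat_lit 0x2000efab8c) (nat_lit 2147483648)]
noncomputable def e40_7 : List Rx := [
  Rx.mk (nat_lit 321) (nat_lit 1) (nat_lit 0) (nat_lit 5) (nat_lit 5) (nat_lit 277) (nat_lit 286) r2_277 r0_286 (nat_lit 0) (nat_lit 584857788) (nat_lit 0) (nat_lit 0x1f8286a8c2) (nat_lit 2869583386),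
  Rx.mk (nat_lit 325) (nat_lit 5) (nat_lit 0) (nat_lit 5) (nat_lit 5) (nat_lit 276) (nat_lit 285) r2_276 r0_285 (nat_lit 0) (nat_lit 986109084) (nat_lit 0) (nat_lit 0x1dea0cabe2) (nat_lit 3715784482),
  Rx.mk (nat_lit 329) (nat_lit 1) (nat_lit 1) (nat_lit 5) (nat_lit 7) (nat_lit 279) (nat_lit 288) r2_279 r0_288 (nat_lit 0) (nat_lit 0) (nat_lit 0) (nat_lit 0x1fed00a78e) (nat_lit 2168993998),
  Rx.mk (nat_lit 333) (nat_lit 5) (nat_lit 1) (nat_lit 5) (nat_lit 7) (nat_lit 278) (nat_lit 287) r2_278 r0_287 (nat_lit 0) (nat_lit 0) (nat_lit 0) (nat_lit 0x2000efab8c) (nat_lit 2147483648)]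
noncomputable def e40_8 : List Rx := [
  Rx.mk (nat_lit 65) (nat_lit 1) (nat_lit 0) (nat_lit 1) (nat_lit 5) (nat_lit 306) (nat_lit 282) r2_306 r1_282 (nat_lit 0) (nat_lit 39267561) (nat_lit 0) (nat_lit 0x1ff1c03ef6) (nat_lit 2203124059),
  Rx.mk (nat_lit 73) (nat_lit 1) (nat_lit 1) (nat_lit 1) (nat_lit 7) (nat_lit 309) (nat_lit 285) r2_309 r1_285 (nat_lit 0) (nat_lit 0) (nat_lit 0) (nat_lit 0x2000efab8c) (nat_lit 2147483648),
  Rx.mk (nat_lit 321) (nat_lit 1) (nat_lit 0) (nat_lit 5) (nat_lit 5) (nat_lit 305) (nat_lit 281) r2_305 r1_281 (nat_lit 0) (nat_lit 158822937) (nat_lit 0) (nat_lit 0x1feb892192) (nat_lit 2329361835),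
  Rx.mk (nat_lit 325) (nat_lit 5) (nat_lit 0) (nat_lit 5) (nat_lit 5) (nat_lit 304) (nat_lit 280) r2_304 r1_280 (nat_lit 0) (nat_lit 882241780) (nat_lit 0) (nat_lit 0x1ffdc4dd4c) (nat_lit 3033074428),
  Rx.mk (nat_lit 329) (nat_lit 1) (nat_lit 1) (nat_lit 5) (nat_lit 7) (nat_lit 308) (nat_lit 284) r2_308 r1_284 (nat_lit 0) (nat_lit 0) (nat_lit 0) (nat_lit 0x2000efab8c) (nat_lit 2147483648),
  Rx.mk (nat_lit 333) (nat_lit 5) (nat_lit 1) (nat_lit 5) (nat_lit 7) (nat_lit 307) (nat_lit 283) r2_307 r1_283 (nat_lit 0) (nat_lit 0) (nat_lit 0) (nat_lit 0x2000efab8c) (nat_lit 2147483648)]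
noncomputable def e40_9 : List Rx := [
  Rx.mk (nat_lit 321) (nat_lit 1) (nat_lit 0) (nat_lit 5) (nat_lit 5) (nat_lit 335) (nat_lit 300) r2_335 r4_300 (nat_lit 0) (nat_lit 61711102) (nat_lit 0) (nat_lit 0x2000d0f458) (nat_lit 2209304850),
  Rx.mk (nat_lit 325) (nat_lit 5) (nat_lit 0) (nat_lit 5) (nat_lit 5) (nat_lit 334) (nat_lit 299) r2_334 r4_299 (nat_lit 0) (nat_lit 237381203) (nat_lit 0) (nat_lit 0x1f74d48eb0) (nat_lit 2537070151),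
  Rx.mk (nat_lit 329) (nat_lit 1) (nat_lit 1) (nat_lit 5) (nat_lit 7) (nat_lit 337) (nat_lit 302) r2_337 r4_302 (nat_lit 0) (nat_lit 0) (nat_lit 0) (nat_lit 0x2000efab8c) (nat_lit 2147483648),
  Rx.mk (nat_lit 333) (nat_lit 5) (nat_lit 1) (nat_lit 5) (nat_lit 7) (nat_lit 336) (nat_lit 301) r2_336 r4_301 (nat_lit 0) (nat_lit 0) (nat_lit 0) (nat_lit 0x2000efab8c) (nat_lit 2147483648),
  Rx.mk (nat_lit 345) (nat_lit 1) (nat_lit 3) (nat_lit 5) (nat_lit 7) (nat_lit 338) (nat_lit 303) r2_338 r4_303 (nat_lit 0) (nat_lit 0) (nat_lit 0) (nat_lit 0x20169754c6) (nat_lit 2124266498)]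
noncomputable def e40_10 : List Rx := [
  Rx.mk (nat_lit 281) (nat_lit 1) (nat_lit 3) (nat_lit 4) (nat_lit 3) (nat_lit 253) (nat_lit 287) r2_253 r6_287 (nat_lit 0) (nat_lit 0) (nat_lit 95102396) (nat_lit 0x1fcdef6998) (nat_lit 2297800244),
  Rx.mk (nat_lit 449) (nat_lit 1) (nat_lit 0) (nat_lit 7) (nat_lit 5) (nat_lit 252) (nat_lit 286) r2_252 r6_286 (nat_lit 0) (nat_lit 56092190) (nat_lit 0) (nat_lit 0x1fc43de9ce) (nat_lit 2269317788),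
  Rx.mk (nat_lit 453) (nat_lit 5) (nat_lit 0) (nat_lit 7) (nat_lit 5) (nat_lit 251) (nat_lit 289) r2_251 r6_289 (nat_lit 0) (nat_lit 67932583) (nat_lit 0) (nat_lit 0x1f1bb86946) (nat_lit 2464643081),
  Rx.mk (nat_lit 473) (nat_lit 1) (nat_lit 3) (nat_lit 7) (nat_lit 7) (nat_lit 254) (nat_lit 288) r2_254 r6_288 (nat_lit 0) (nat_lit 0) (nat_lit 0) (nat_lit 0x2000efab8c) (nat_lit 2147483648)]
noncomputable def e40_11 : List Rx := [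
  Rx.mk (nat_lit 257) (nat_lit 1) (nat_lit 0) (nat_lit 4) (nat_lit 1) (nat_lit 339) (nat_lit 276) r2_339 r5_276 (nat_lit 0) (nat_lit 30556283) (nat_lit 24361779) (nat_lit 0x190ceef282) (nat_lit 4141045460),
  Rx.mk (nat_lit 265) (nat_lit 1) (nat_lit 1) (nat_lit 4) (nat_lit 3) (nat_lit 343) (nat_lit 280) r2_343 r5_280 (nat_lit 0) (nat_lit 0) (nat_lit 171506543) (nat_lit 0x1b7e7f3b4e) (nat_lit 3576156841),
  Rx.mk (nat_lit 281) (nat_lit 1) (nat_lit 3) (nat_lit 4) (nat_lit 3) (nat_lit 347) (nat_lit 283) r2_347 r5_283 (nat_lit 0) (nat_lit 0) (nat_lit 65232541) (nat_lit 0x1feb99991e) (nat_lit 2235743339),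
  Rx.mk (nat_lit 321) (nat_lit 1) (nat_lit 0) (nat_lit 5) (nat_lit 5) (nat_lit 340) (nat_lit 277) r2_340 r5_277 (nat_lit 0) (nat_lit 39267561) (nat_lit 0) (nat_lit 0x2000efab8c) (nat_lit 2186751209),
  Rx.mk (nat_lit 329) (nat_lit 1) (nat_lit 1) (nat_lit 5) (nat_lit 7) (nat_lit 344) (nat_lit 281) r2_344 r5_281 (nat_lit 0) (nat_lit 0) (nat_lit 0) (nat_lit 0x2000efab8c) (nat_lit 2147483648),
  Rx.mk (nat_lit 345) (nat_lit 1) (nat_lit 3) (nat_lit 5) (nat_lit 7) (nat_lit 348) (nat_lit 284) r2_348 r5_284 (nat_lit 0) (nat_lit 0) (nat_lit 0) (nat_lit 0x2000efab8c) (nat_lit 2147483648),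
  Rx.mk (nat_lit 449) (nat_lit 1) (nat_lit 0) (nat_lit 7) (nat_lit 5) (nat_lit 342) (nat_lit 278) r2_342 r5_278 (nat_lit 0) (nat_lit 41954340) (nat_lit 0) (nat_lit 0x1feab1b16c) (nat_lit 2213437888),
  Rx.mk (nat_lit 453) (nat_lit 5) (nat_lit 0) (nat_lit 7) (nat_lit 5) (nat_lit 341) (nat_lit 275) r2_341 r5_275 (nat_lit 0) (nat_lit 56334993) (nat_lit 0) (nat_lit 0x1fe508dad8) (nat_lit 2233949041),
  Rx.mk (nat_lit 457) (nat_lit 1) (nat_lit 1) (nat_lit 7) (nat_lit 7) (nat_lit 346) (nat_lit 282) r2_346 r5_282 (nat_lit 0) (nat_lit 0) (nat_lit 0) (nat_lit 0x2000efab8c) (nat_lit 2147483648),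
  Rx.mk (nat_lit 461) (nat_lit 5) (nat_lit 1) (nat_lit 7) (nat_lit 7) (nat_lit 345) (nat_lit 279) r2_345 r5_279 (nat_lit 0) (nat_lit 0) (nat_lit 0) (nat_lit 0x2000efab8c) (nat_lit 2147483648)]
noncomputable def e40_12 : List Rx := [
  Rx.mk (nat_lit 16) (nat_lit 0) (nat_lit 2) (nat_lit 0) (nat_lit 2) (nat_lit 64) (nat_lit 31) r2_64 r0_31 (nat_lit 8480) (nat_lit 0) (nat_lit 6982) (nat_lit 0x19db76d458) (nat_lit 3860668410),
  Rx.mk (nat_lit 17) (nat_lit 1) (nat_lit 2) (nat_lit 0) (nat_lit 3) (nat_lit 65) (nat_lit 32) r2_65 r0_32 (nat_lit 0) (nat_lit 0) (nat_lit 13338302) (nat_lit 0x1ff9b2a7d4) (nat_lit 2168548850),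
  Rx.mk (nat_lit 18) (nat_lit 2) (nat_lit 2) (nat_lit 0) (nat_lit 3) (nat_lit 66) (nat_lit 33) r2_66 r0_33 (nat_lit 0) (nat_lit 0) (nat_lit 30568667) (nat_lit 0x1eb858b9aa) (nat_lit 2535564565),
  Rx.mk (nat_lit 146) (nat_lit 2) (nat_lit 2) (nat_lit 2) (nat_lit 7) (nat_lit 67) (nat_lit 42) r2_67 r0_42 (nat_lit 0) (nat_lit 0) (nat_lit 0) (nat_lit 0x201241bcd6) (nat_lit 2128902698),
  Rx.mk (nat_lit 192) (nat_lit 0) (nat_lit 0) (nat_lit 3) (nat_lit 4) (nat_lit 62) (nat_lit 34) r2_62 r0_34 (nat_lit 2861756) (nat_lit 6583621) (nat_lit 0) (nat_lit 0x1a9a9f48e2) (nat_lit 3662193675),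
  Rx.mk (nat_lit 193) (nat_lit 1) (nat_lit 0) (nat_lit 3) (nat_lit 5) (nat_lit 63) (nat_lit 35) r2_63 r0_35 (nat_lit 0) (nat_lit 61056546) (nat_lit 0) (nat_lit 0x1f5fe08608) (nat_lit 2383572594),
  Rx.mk (nat_lit 208) (nat_lit 0) (nat_lit 2) (nat_lit 3) (nat_lit 6) (nat_lit 68) (nat_lit 39) r2_68 r0_39 (nat_lit 24227) (nat_lit 0) (nat_lit 0) (nat_lit 0x1ffef76540) (nat_lit 2148644475),
  Rx.mk (nat_lit 209) (nat_lit 1) (nat_lit 2) (nat_lit 3) (nat_lit 7) (nat_lit 69) (nat_lit 40) r2_69 r0_40 (nat_lit 0) (nat_lit 0) (nat_lit 0) (nat_lit 0x21e1f887b0) (nat_lit 1636203448),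
  Rx.mk (nat_lit 210) (nat_lit 2) (nat_lit 2) (nat_lit 3) (nat_lit 7) (nat_lit 70) (nat_lit 41) r2_70 r0_41 (nat_lit 0) (nat_lit 0) (nat_lit 0) (nat_lit 0x21fbd87028) (nat_lit 1608727548),
  Rx.mk (nat_lit 216) (nat_lit 0) (nat_lit 3) (nat_lit 3) (nat_lit 6) (nat_lit 72) (nat_lit 36) r2_72 r0_36 (nat_lit 21572134) (nat_lit 0) (nat_lit 0) (nat_lit 0x1fc3ad1d68) (nat_lit 2235386682),
  Rx.mk (nat_lit 217) (nat_lit 1) (nat_lit 3) (nat_lit 3) (nat_lit 7) (nat_lit 73) (nat_lit 37) r2_73 r0_37 (nat_lit 0) (nat_lit 0) (nat_lit 0) (nat_lit 0x1ffb86aca4) (nat_lit 2153304848),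
  Rx.mk (nat_lit 219) (nat_lit 3) (nat_lit 3) (nat_lit 3) (nat_lit 7) (nat_lit 74) (nat_lit 38) r2_74 r0_38 (nat_lit 0) (nat_lit 0) (nat_lit 0) (nat_lit 0x1ffb86aca4) (nat_lit 2153304848),
  Rx.mk (nat_lit 475) (nat_lit 3) (nat_lit 3) (nat_lit 7) (nat_lit 7) (nat_lit 71) (nat_lit 30) r2_71 r0_30 (nat_lit 0) (nat_lit 0) (nat_lit 0) (nat_lit 0x2000efab8c) (nat_lit 2147483648)]
noncomputable def e40_13 : List Rx := [
  Rx.mk (nat_lit 0) (nat_lit 0) (nat_lit 0) (nat_lit 0) (nat_lit 0) (nat_lit 189) (nat_lit 339) r2_189 r7_339 (nat_lit 1937) (nat_lit 8247) (nat_lit 1798) (nat_lit 0x10a98581b4) (nat_lit 6425118130),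
  Rx.mk (nat_lit 1) (nat_lit 1) (nat_lit 0) (nat_lit 0) (nat_lit 1) (nat_lit 190) (nat_lit 344) r2_190 r7_344 (nat_lit 0) (nat_lit 30039614) (nat_lit 10623857) (nat_lit 0x15f14e7b36) (nat_lit 4993558069),
  Rx.mk (nat_lit 16) (nat_lit 0) (nat_lit 2) (nat_lit 0) (nat_lit 2) (nat_lit 193) (nat_lit 342) r2_193 r7_342 (nat_lit 1571667) (nat_lit 0) (nat_lit 1671799) (nat_lit 0x186cb0e74e) (nat_lit 4263704064),
  Rx.mk (nat_lit 17) (nat_lit 1) (nat_lit 2) (nat_lit 0) (nat_lit 3) (nat_lit 194) (nat_lit 347) r2_194 r7_347 (nat_lit 0) (nat_lit 0) (nat_lit 10772890) (nat_lit 0x201356c724) (nat_lit 2138452038),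
  Rx.mk (nat_lit 18) (nat_lit 2) (nat_lit 2) (nat_lit 0) (nat_lit 3) (nat_lit 195) (nat_lit 350) r2_195 r7_350 (nat_lit 0) (nat_lit 0) (nat_lit 17968761) (nat_lit 0x1fd9089b88) (nat_lit 2208536809),
  Rx.mk (nat_lit 146) (nat_lit 2) (nat_lit 2) (nat_lit 2) (nat_lit 7) (nat_lit 196) (nat_lit 352) r2_196 r7_352 (nat_lit 0) (nat_lit 0) (nat_lit 0) (nat_lit 0x2000efab8c) (nat_lit 2147483648),
  Rx.mk (nat_lit 192) (nat_lit 0) (nat_lit 0) (nat_lit 3) (nat_lit 4) (nat_lit 191) (nat_lit 340) r2_191 r7_340 (nat_lit 5087834) (nat_lit 20717393) (nat_lit 0) (nat_lit 0x1975a87816) (nat_lit 3997776725),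
  Rx.mk (nat_lit 193) (nat_lit 1) (nat_lit 0) (nat_lit 3) (nat_lit 5) (nat_lit 192) (nat_lit 345) r2_192 r7_345 (nat_lit 0) (nat_lit 105487641) (nat_lit 0) (nat_lit 0x1e6cf14f72) (nat_lit 2692591839),
  Rx.mk (nat_lit 208) (nat_lit 0) (nat_lit 2) (nat_lit 3) (nat_lit 6) (nat_lit 197) (nat_lit 343) r2_197 r7_343 (nat_lit 12082706) (nat_lit 0) (nat_lit 0) (nat_lit 0x208790be4c) (nat_lit 2016209154),
  Rx.mk (nat_lit 209) (nat_lit 1) (nat_lit 2) (nat_lit 3) (nat_lit 7) (nat_lit 198) (nat_lit 348) r2_198 r7_348 (nat_lit 0) (nat_lit 0) (nat_lit 0) (nat_lit 0x2044298814) (nat_lit 2075709948),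
  Rx.mk (nat_lit 210) (nat_lit 2) (nat_lit 2) (nat_lit 3) (nat_lit 7) (nat_lit 199) (nat_lit 351) r2_199 r7_351 (nat_lit 0) (nat_lit 0) (nat_lit 0) (nat_lit 0x2044298814) (nat_lit 2075709948),
  Rx.mk (nat_lit 216) (nat_lit 0) (nat_lit 3) (nat_lit 3) (nat_lit 6) (nat_lit 200) (nat_lit 341) r2_200 r7_341 (nat_lit 24199369) (nat_lit 0) (nat_lit 0) (nat_lit 0x1bd3433ce8) (nat_lit 3336510717),
  Rx.mk (nat_lit 217) (nat_lit 1) (nat_lit 3) (nat_lit 3) (nat_lit 7) (nat_lit 201) (nat_lit 346) r2_201 r7_346 (nat_lit 0) (nat_lit 0) (nat_lit 0) (nat_lit 0x1fe46492f2) (nat_lit 2178308798),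
  Rx.mk (nat_lit 219) (nat_lit 3) (nat_lit 3) (nat_lit 3) (nat_lit 7) (nat_lit 202) (nat_lit 349) r2_202 r7_349 (nat_lit 0) (nat_lit 0) (nat_lit 0) (nat_lit 0x2000efab8c) (nat_lit 2147483648)]
noncomputable def e40_14 : List Rx := [
  Rx.mk (nat_lit 16) (nat_lit 0) (nat_lit 2) (nat_lit 0) (nat_lit 2) (nat_lit 76) (nat_lit 31) r2_76 r1_31 (nat_lit 22064029) (nat_lit 0) (nat_lit 69911534) (nat_lit 0x1c6783d28c) (nat_lit 3242802111),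
  Rx.mk (nat_lit 18) (nat_lit 2) (nat_lit 2) (nat_lit 0) (nat_lit 3) (nat_lit 77) (nat_lit 32) r2_77 r1_32 (nat_lit 0) (nat_lit 0) (nat_lit 62087651) (nat_lit 0x1f580d0802) (nat_lit 2393182949),
  Rx.mk (nat_lit 146) (nat_lit 2) (nat_lit 2) (nat_lit 2) (nat_lit 7) (nat_lit 78) (nat_lit 38) r2_78 r1_38 (nat_lit 0) (nat_lit 0) (nat_lit 0) (nat_lit 0x200bbb9a58) (nat_lit 2135892348),
  Rx.mk (nat_lit 192) (nat_lit 0) (nat_lit 0) (nat_lit 3) (nat_lit 4) (nat_lit 75) (nat_lit 33) r2_75 r1_33 (nat_lit 29833112) (nat_lit 72537203) (nat_lit 0) (nat_lit 0x1dd5d2f10e) (nat_lit 2854124313),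
  Rx.mk (nat_lit 208) (nat_lit 0) (nat_lit 2) (nat_lit 3) (nat_lit 6) (nat_lit 79) (nat_lit 36) r2_79 r1_36 (nat_lit 7517269) (nat_lit 0) (nat_lit 0) (nat_lit 0x21cdd10b86) (nat_lit 1665147967),
  Rx.mk (nat_lit 210) (nat_lit 2) (nat_lit 2) (nat_lit 3) (nat_lit 7) (nat_lit 80) (nat_lit 37) r2_80 r1_37 (nat_lit 0) (nat_lit 0) (nat_lit 0) (nat_lit 0x2054a938c4) (nat_lit 2058167248),
  Rx.mk (nat_lit 216) (nat_lit 0) (nat_lit 3) (nat_lit 3) (nat_lit 6) (nat_lit 82) (nat_lit 34) r2_82 r1_34 (nat_lit 26013352) (nat_lit 0) (nat_lit 0) (nat_lit 0x2012edaa78) (nat_lit 2154200700),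
  Rx.mk (nat_lit 219) (nat_lit 3) (nat_lit 3) (nat_lit 3) (nat_lit 7) (nat_lit 83) (nat_lit 35) r2_83 r1_35 (nat_lit 0) (nat_lit 0) (nat_lit 0) (nat_lit 0x2000efab8c) (nat_lit 2147483648),
  Rx.mk (nat_lit 475) (nat_lit 3) (nat_lit 3) (nat_lit 7) (nat_lit 7) (nat_lit 81) (nat_lit 30) r2_81 r1_30 (nat_lit 0) (nat_lit 0) (nat_lit 0) (nat_lit 0x2000efab8c) (nat_lit 2147483648)]
noncomputable def e40_15 : List Rx := [
  Rx.mk (nat_lit 0) (nat_lit 0) (nat_lit 0) (nat_lit 0) (nat_lit 0) (nat_lit 221) (nat_lit 257) r2_221 r8_257 (nat_lit 12353548) (nat_lit 24375812) (nat_lit 9565204) (nat_lit 0x10dc384f24) (nat_lit 6416614212),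
  Rx.mk (nat_lit 16) (nat_lit 0) (nat_lit 2) (nat_lit 0) (nat_lit 2) (nat_lit 223) (nat_lit 260) r2_223 r8_260 (nat_lit 20716858) (nat_lit 0) (nat_lit 22274922) (nat_lit 0x1b905154ec) (nat_lit 3428243528),
  Rx.mk (nat_lit 18) (nat_lit 2) (nat_lit 2) (nat_lit 0) (nat_lit 3) (nat_lit 224) (nat_lit 263) r2_224 r8_263 (nat_lit 0) (nat_lit 0) (nat_lit 40979706) (nat_lit 0x1fec09fc7c) (nat_lit 2211011354),
  Rx.mk (nat_lit 146) (nat_lit 2) (nat_lit 2) (nat_lit 2) (nat_lit 7) (nat_lit 225) (nat_lit 265) r2_225 r8_265 (nat_lit 0) (nat_lit 0) (nat_lit 0) (nat_lit 0x2000efab8c) (nat_lit 2147483648),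
  Rx.mk (nat_lit 192) (nat_lit 0) (nat_lit 0) (nat_lit 3) (nat_lit 4) (nat_lit 222) (nat_lit 258) r2_222 r8_258 (nat_lit 40804876) (nat_lit 102122857) (nat_lit 0) (nat_lit 0x1bafb4909c) (nat_lit 3493971381),
  Rx.mk (nat_lit 208) (nat_lit 0) (nat_lit 2) (nat_lit 3) (nat_lit 6) (nat_lit 226) (nat_lit 261) r2_226 r8_261 (nat_lit 39267561) (nat_lit 0) (nat_lit 0) (nat_lit 0x2000efab8c) (nat_lit 2186751209),
  Rx.mk (nat_lit 210) (nat_lit 2) (nat_lit 2) (nat_lit 3) (nat_lit 7) (nat_lit 227) (nat_lit 264) r2_227 r8_264 (nat_lit 0) (nat_lit 0) (nat_lit 0) (nat_lit 0x2000efab8c) (nat_lit 2147483648),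
  Rx.mk (nat_lit 216) (nat_lit 0) (nat_lit 3) (nat_lit 3) (nat_lit 6) (nat_lit 228) (nat_lit 259) r2_228 r8_259 (nat_lit 39267561) (nat_lit 0) (nat_lit 0) (nat_lit 0x2000efab8c) (nat_lit 2186751209),
  Rx.mk (nat_lit 219) (nat_lit 3) (nat_lit 3) (nat_lit 3) (nat_lit 7) (nat_lit 229) (nat_lit 262) r2_229 r8_262 (nat_lit 0) (nat_lit 0) (nat_lit 0) (nat_lit 0x2000efab8c) (nat_lit 2147483648)]
noncomputable def e40_16 : List Rx := [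
  Rx.mk (nat_lit 0) (nat_lit 0) (nat_lit 0) (nat_lit 0) (nat_lit 0) (nat_lit 203) (nat_lit 25) r2_203 r8_25 (nat_lit 563988) (nat_lit 11199588) (nat_lit 409480) (nat_lit 0x106f9c1094) (nat_lit 6500473804),
  Rx.mk (nat_lit 1) (nat_lit 1) (nat_lit 0) (nat_lit 0) (nat_lit 1) (nat_lit 204) (nat_lit 26) r2_204 r8_26 (nat_lit 0) (nat_lit 26727303) (nat_lit 26727303) (nat_lit 0x1901dec4da) (nat_lit 4151662204),
  Rx.mk (nat_lit 16) (nat_lit 0) (nat_lit 2) (nat_lit 0) (nat_lit 2) (nat_lit 209) (nat_lit 27) r2_209 r8_27 (nat_lit 811008) (nat_lit 0) (nat_lit 463224) (nat_lit 0x18c722b8c4) (nat_lit 4163094280),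
  Rx.mk (nat_lit 17) (nat_lit 1) (nat_lit 2) (nat_lit 0) (nat_lit 3) (nat_lit 210) (nat_lit 28) r2_210 r8_28 (nat_lit 0) (nat_lit 0) (nat_lit 18717822) (nat_lit 0x202dc301d6) (nat_lit 2118269420),
  Rx.mk (nat_lit 18) (nat_lit 2) (nat_lit 2) (nat_lit 0) (nat_lit 3) (nat_lit 211) (nat_lit 29) r2_211 r8_29 (nat_lit 0) (nat_lit 0) (nat_lit 18774916) (nat_lit 0x202d9cc34a) (nat_lit 2118486314),
  Rx.mk (nat_lit 64) (nat_lit 0) (nat_lit 0) (nat_lit 1) (nat_lit 4) (nat_lit 205) (nat_lit 30) r2_205 r8_30 (nat_lit 49680933) (nat_lit 105181742) (nat_lit 0) (nat_lit 0x1ad2853f32) (nat_lit 3746880873),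
  Rx.mk (nat_lit 65) (nat_lit 1) (nat_lit 0) (nat_lit 1) (nat_lit 5) (nat_lit 206) (nat_lit 31) r2_206 r8_31 (nat_lit 0) (nat_lit 39267561) (nat_lit 0) (nat_lit 0x2000efab8c) (nat_lit 2186751209),
  Rx.mk (nat_lit 80) (nat_lit 0) (nat_lit 2) (nat_lit 1) (nat_lit 6) (nat_lit 212) (nat_lit 32) r2_212 r8_32 (nat_lit 16041787) (nat_lit 0) (nat_lit 0) (nat_lit 0x2048c10ad2) (nat_lit 2086868285),
  Rx.mk (nat_lit 81) (nat_lit 1) (nat_lit 2) (nat_lit 1) (nat_lit 7) (nat_lit 213) (nat_lit 33) r2_213 r8_33 (nat_lit 0) (nat_lit 0) (nat_lit 0) (nat_lit 0x2000efab8c) (nat_lit 2147483648),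
  Rx.mk (nat_lit 82) (nat_lit 2) (nat_lit 2) (nat_lit 1) (nat_lit 7) (nat_lit 214) (nat_lit 34) r2_214 r8_34 (nat_lit 0) (nat_lit 0) (nat_lit 0) (nat_lit 0x2000efab8c) (nat_lit 2147483648),
  Rx.mk (nat_lit 146) (nat_lit 2) (nat_lit 2) (nat_lit 2) (nat_lit 7) (nat_lit 215) (nat_lit 42) r2_215 r8_42 (nat_lit 0) (nat_lit 0) (nat_lit 0) (nat_lit 0x2000efab8c) (nat_lit 2147483648),
  Rx.mk (nat_lit 192) (nat_lit 0) (nat_lit 0) (nat_lit 3) (nat_lit 4) (nat_lit 207) (nat_lit 35) r2_207 r8_35 (nat_lit 19598011) (nat_lit 31687861) (nat_lit 0) (nat_lit 0x1c4f64ab18) (nat_lit 3228342920),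
  Rx.mk (nat_lit 193) (nat_lit 1) (nat_lit 0) (nat_lit 3) (nat_lit 5) (nat_lit 208) (nat_lit 36) r2_208 r8_36 (nat_lit 0) (nat_lit 39267561) (nat_lit 0) (nat_lit 0x2000efab8c) (nat_lit 2186751209),
  Rx.mk (nat_lit 208) (nat_lit 0) (nat_lit 2) (nat_lit 3) (nat_lit 6) (nat_lit 216) (nat_lit 40) r2_216 r8_40 (nat_lit 16041787) (nat_lit 0) (nat_lit 0) (nat_lit 0x2048c10ad2) (nat_lit 2086868285),
  Rx.mk (nat_lit 209) (nat_lit 1) (nat_lit 2) (nat_lit 3) (nat_lit 7) (nat_lit 217) (nat_lit 41) r2_217 r8_41 (nat_lit 0) (nat_lit 0) (nat_lit 0) (nat_lit 0x2000efab8c) (nat_lit 2147483648),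
  Rx.mk (nat_lit 216) (nat_lit 0) (nat_lit 3) (nat_lit 3) (nat_lit 6) (nat_lit 218) (nat_lit 37) r2_218 r8_37 (nat_lit 39267561) (nat_lit 0) (nat_lit 0) (nat_lit 0x2000efab8c) (nat_lit 2186751209),
  Rx.mk (nat_lit 217) (nat_lit 1) (nat_lit 3) (nat_lit 3) (nat_lit 7) (nat_lit 219) (nat_lit 38) r2_219 r8_38 (nat_lit 0) (nat_lit 0) (nat_lit 0) (nat_lit 0x2000efab8c) (nat_lit 2147483648),
  Rx.mk (nat_lit 219) (nat_lit 3) (nat_lit 3) (nat_lit 3) (nat_lit 7) (nat_lit 220) (nat_lit 39) r2_220 r8_39 (nat_lit 0) (nat_lit 0) (nat_lit 0) (nat_lit 0x2000efab8c) (nat_lit 2147483648)]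
noncomputable def e40_17 : List Rx := [
  Rx.mk (nat_lit 64) (nat_lit 0) (nat_lit 0) (nat_lit 1) (nat_lit 4) (nat_lit 316) (nat_lit 260) r2_316 r9_260 (nat_lit 201312219) (nat_lit 107940952) (nat_lit 0) (nat_lit 0x1a4a0750a0) (nat_lit 4049965119),
  Rx.mk (nat_lit 65) (nat_lit 1) (nat_lit 0) (nat_lit 1) (nat_lit 5) (nat_lit 317) (nat_lit 262) r2_317 r9_262 (nat_lit 0) (nat_lit 39267561) (nat_lit 0) (nat_lit 0x2000efab8c) (nat_lit 2186751209),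
  Rx.mk (nat_lit 73) (nat_lit 1) (nat_lit 1) (nat_lit 1) (nat_lit 7) (nat_lit 318) (nat_lit 263) r2_318 r9_263 (nat_lit 0) (nat_lit 0) (nat_lit 0) (nat_lit 0x2000efab8c) (nat_lit 2147483648),
  Rx.mk (nat_lit 80) (nat_lit 0) (nat_lit 2) (nat_lit 1) (nat_lit 6) (nat_lit 319) (nat_lit 261) r2_319 r9_261 (nat_lit 39267561) (nat_lit 0) (nat_lit 0) (nat_lit 0x2000efab8c) (nat_lit 2186751209),
  Rx.mk (nat_lit 81) (nat_lit 1) (nat_lit 2) (nat_lit 1) (nat_lit 7) (nat_lit 320) (nat_lit 264) r2_320 r9_264 (nat_lit 0) (nat_lit 0) (nat_lit 0) (nat_lit 0x2000efab8c) (nat_lit 2147483648),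
  Rx.mk (nat_lit 82) (nat_lit 2) (nat_lit 2) (nat_lit 1) (nat_lit 7) (nat_lit 321) (nat_lit 265) r2_321 r9_265 (nat_lit 0) (nat_lit 0) (nat_lit 0) (nat_lit 0x2000efab8c) (nat_lit 2147483648)]
noncomputable def e40_18 : List Rx := [
  Rx.mk (nat_lit 192) (nat_lit 0) (nat_lit 0) (nat_lit 3) (nat_lit 4) (nat_lit 84) (nat_lit 24) r2_84 r4_24 (nat_lit 6343899) (nat_lit 8937533) (nat_lit 0) (nat_lit 0x1bcdb66188) (nat_lit 3333563080),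
  Rx.mk (nat_lit 193) (nat_lit 1) (nat_lit 0) (nat_lit 3) (nat_lit 5) (nat_lit 85) (nat_lit 25) r2_85 r4_25 (nat_lit 0) (nat_lit 25104164) (nat_lit 0) (nat_lit 0x201e707c54) (nat_lit 2140983212),
  Rx.mk (nat_lit 208) (nat_lit 0) (nat_lit 2) (nat_lit 3) (nat_lit 6) (nat_lit 86) (nat_lit 28) r2_86 r4_28 (nat_lit 2921) (nat_lit 0) (nat_lit 0) (nat_lit 0x1d859bd304) (nat_lit 2838612169),
  Rx.mk (nat_lit 209) (nat_lit 1) (nat_lit 2) (nat_lit 3) (nat_lit 7) (nat_lit 87) (nat_lit 29) r2_87 r4_29 (nat_lit 0) (nat_lit 0) (nat_lit 0) (nat_lit 0x21ad7eb8a6) (nat_lit 1691950698),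
  Rx.mk (nat_lit 210) (nat_lit 2) (nat_lit 2) (nat_lit 3) (nat_lit 7) (nat_lit 88) (nat_lit 30) r2_88 r4_30 (nat_lit 0) (nat_lit 0) (nat_lit 0) (nat_lit 0x2090b060e0) (nat_lit 1994387548),
  Rx.mk (nat_lit 216) (nat_lit 0) (nat_lit 3) (nat_lit 3) (nat_lit 6) (nat_lit 92) (nat_lit 26) r2_92 r4_26 (nat_lit 17628787) (nat_lit 0) (nat_lit 0) (nat_lit 0x2026e25826) (nat_lit 2124498785),
  Rx.mk (nat_lit 217) (nat_lit 1) (nat_lit 3) (nat_lit 3) (nat_lit 7) (nat_lit 93) (nat_lit 27) r2_93 r4_27 (nat_lit 0) (nat_lit 0) (nat_lit 0) (nat_lit 0x200eca52f2) (nat_lit 2132617098),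
  Rx.mk (nat_lit 472) (nat_lit 0) (nat_lit 3) (nat_lit 7) (nat_lit 6) (nat_lit 89) (nat_lit 21) r2_89 r4_21 (nat_lit 18809005) (nat_lit 0) (nat_lit 0) (nat_lit 0x202cb0bf90) (nat_lit 2119500453),
  Rx.mk (nat_lit 473) (nat_lit 1) (nat_lit 3) (nat_lit 7) (nat_lit 7) (nat_lit 90) (nat_lit 22) r2_90 r4_22 (nat_lit 0) (nat_lit 0) (nat_lit 0) (nat_lit 0x200f9eae6c) (nat_lit 2131728348),
  Rx.mk (nat_lit 475) (nat_lit 3) (nat_lit 3) (nat_lit 7) (nat_lit 7) (nat_lit 91) (nat_lit 23) r2_91 r4_23 (nat_lit 0) (nat_lit 0) (nat_lit 0) (nat_lit 0x201485d860) (nat_lit 2126488848)]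
noncomputable def e40_19 : List Rx := [
  Rx.mk (nat_lit 192) (nat_lit 0) (nat_lit 0) (nat_lit 3) (nat_lit 4) (nat_lit 230) (nat_lit 292) r2_230 r10_292 (nat_lit 12629514) (nat_lit 17534844) (nat_lit 0) (nat_lit 0x1cb4ee9bf6) (nat_lit 3096561456),
  Rx.mk (nat_lit 193) (nat_lit 1) (nat_lit 0) (nat_lit 3) (nat_lit 5) (nat_lit 231) (nat_lit 295) r2_231 r10_295 (nat_lit 0) (nat_lit 39267561) (nat_lit 0) (nat_lit 0x2000efab8c) (nat_lit 2186751209),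
  Rx.mk (nat_lit 208) (nat_lit 0) (nat_lit 2) (nat_lit 3) (nat_lit 6) (nat_lit 232) (nat_lit 294) r2_232 r10_294 (nat_lit 14179347) (nat_lit 0) (nat_lit 0) (nat_lit 0x204bfb978a) (nat_lit 2081570445),
  Rx.mk (nat_lit 209) (nat_lit 1) (nat_lit 2) (nat_lit 3) (nat_lit 7) (nat_lit 233) (nat_lit 297) r2_233 r10_297 (nat_lit 0) (nat_lit 0) (nat_lit 0) (nat_lit 0x2000efab8c) (nat_lit 2147483648),
  Rx.mk (nat_lit 210) (nat_lit 2) (nat_lit 2) (nat_lit 3) (nat_lit 7) (nat_lit 234) (nat_lit 298) r2_234 r10_298 (nat_lit 0) (nat_lit 0) (nat_lit 0) (nat_lit 0x2000efab8c) (nat_lit 2147483648),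
  Rx.mk (nat_lit 216) (nat_lit 0) (nat_lit 3) (nat_lit 3) (nat_lit 6) (nat_lit 235) (nat_lit 293) r2_235 r10_293 (nat_lit 39267561) (nat_lit 0) (nat_lit 0) (nat_lit 0x2000efab8c) (nat_lit 2186751209),
  Rx.mk (nat_lit 217) (nat_lit 1) (nat_lit 3) (nat_lit 3) (nat_lit 7) (nat_lit 236) (nat_lit 296) r2_236 r10_296 (nat_lit 0) (nat_lit 0) (nat_lit 0) (nat_lit 0x2000efab8c) (nat_lit 2147483648)]
noncomputable def e40_20 : List Rx := [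
  Rx.mk (nat_lit 192) (nat_lit 0) (nat_lit 0) (nat_lit 3) (nat_lit 4) (nat_lit 260) (nat_lit 308) r2_260 r11_308 (nat_lit 20741837) (nat_lit 61795135) (nat_lit 0) (nat_lit 0x1cdc12f22c) (nat_lit 3106402720),
  Rx.mk (nat_lit 193) (nat_lit 1) (nat_lit 0) (nat_lit 3) (nat_lit 5) (nat_lit 261) (nat_lit 312) r2_261 r11_312 (nat_lit 0) (nat_lit 79398683) (nat_lit 0) (nat_lit 0x1f6a1dc37e) (nat_lit 2390750681),
  Rx.mk (nat_lit 208) (nat_lit 0) (nat_lit 2) (nat_lit 3) (nat_lit 6) (nat_lit 262) (nat_lit 311) r2_262 r11_311 (nat_lit 7695090) (nat_lit 0) (nat_lit 0) (nat_lit 0x21907ca902) (nat_lit 1730429388),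
  Rx.mk (nat_lit 209) (nat_lit 1) (nat_lit 2) (nat_lit 3) (nat_lit 7) (nat_lit 263) (nat_lit 315) r2_263 r11_315 (nat_lit 0) (nat_lit 0) (nat_lit 0) (nat_lit 0x2050a27a60) (nat_lit 2062569948),
  Rx.mk (nat_lit 210) (nat_lit 2) (nat_lit 2) (nat_lit 3) (nat_lit 7) (nat_lit 264) (nat_lit 317) r2_264 r11_317 (nat_lit 0) (nat_lit 0) (nat_lit 0) (nat_lit 0x20ef1644d8) (nat_lit 1894131648),
  Rx.mk (nat_lit 448) (nat_lit 0) (nat_lit 0) (nat_lit 7) (nat_lit 4) (nat_lit 258) (nat_lit 309) r2_258 r11_309 (nat_lit 22820811) (nat_lit 31106767) (nat_lit 0) (nat_lit 0x1d0e9a7508) (nat_lit 3022694326),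
  Rx.mk (nat_lit 449) (nat_lit 1) (nat_lit 0) (nat_lit 7) (nat_lit 5) (nat_lit 259) (nat_lit 313) r2_259 r11_313 (nat_lit 0) (nat_lit 54151128) (nat_lit 0) (nat_lit 0x1fc2c80c5a) (nat_lit 2268968626),
  Rx.mk (nat_lit 472) (nat_lit 0) (nat_lit 3) (nat_lit 7) (nat_lit 6) (nat_lit 265) (nat_lit 310) r2_265 r11_310 (nat_lit 39267561) (nat_lit 0) (nat_lit 0) (nat_lit 0x2000efab8c) (nat_lit 2186751209),
  Rx.mk (nat_lit 473) (nat_lit 1) (nat_lit 3) (nat_lit 7) (nat_lit 7) (nat_lit 266) (nat_lit 314) r2_266 r11_314 (nat_lit 0) (nat_lit 0) (nat_lit 0) (nat_lit 0x2000efab8c) (nat_lit 2147483648),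
  Rx.mk (nat_lit 475) (nat_lit 3) (nat_lit 3) (nat_lit 7) (nat_lit 7) (nat_lit 267) (nat_lit 316) r2_267 r11_316 (nat_lit 0) (nat_lit 0) (nat_lit 0) (nat_lit 0x2000efab8c) (nat_lit 2147483648)]
noncomputable def e40_21 : List Rx := [
  Rx.mk (nat_lit 73) (nat_lit 1) (nat_lit 1) (nat_lit 1) (nat_lit 7) (nat_lit 315) (nat_lit 293) r2_315 r9_293 (nat_lit 0) (nat_lit 0) (nat_lit 0) (nat_lit 0x2000efab8c) (nat_lit 2147483648)]
noncomputable def e40_22 : List Rx := [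
  Rx.mk (nat_lit 265) (nat_lit 1) (nat_lit 1) (nat_lit 4) (nat_lit 3) (nat_lit 281) (nat_lit 285) r2_281 r0_285 (nat_lit 0) (nat_lit 0) (nat_lit 986109084) (nat_lit 0x1dea0cabe2) (nat_lit 3715784482),
  Rx.mk (nat_lit 269) (nat_lit 5) (nat_lit 1) (nat_lit 4) (nat_lit 3) (nat_lit 280) (nat_lit 286) r2_280 r0_286 (nat_lit 0) (nat_lit 0) (nat_lit 584857788) (nat_lit 0x1f8286a8c2) (nat_lit 2869583386),
  Rx.mk (nat_lit 329) (nat_lit 1) (nat_lit 1) (nat_lit 5) (nat_lit 7) (nat_lit 283) (nat_lit 287) r2_283 r0_287 (nat_lit 0) (nat_lit 0) (nat_lit 0) (nat_lit 0x2000efab8c) (nat_lit 2147483648),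
  Rx.mk (nat_lit 333) (nat_lit 5) (nat_lit 1) (nat_lit 5) (nat_lit 7) (nat_lit 282) (nat_lit 288) r2_282 r0_288 (nat_lit 0) (nat_lit 0) (nat_lit 0) (nat_lit 0x1fed00a78e) (nat_lit 2168993998)]
noncomputable def e40_23 : List Rx := [
  Rx.mk (nat_lit 265) (nat_lit 1) (nat_lit 1) (nat_lit 4) (nat_lit 3) (nat_lit 298) (nat_lit 280) r2_298 r1_280 (nat_lit 0) (nat_lit 0) (nat_lit 882241780) (nat_lit 0x1ffdc4dd4c) (nat_lit 3033074428),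
  Rx.mk (nat_lit 269) (nat_lit 5) (nat_lit 1) (nat_lit 4) (nat_lit 3) (nat_lit 297) (nat_lit 281) r2_297 r1_281 (nat_lit 0) (nat_lit 0) (nat_lit 158822937) (nat_lit 0x1feb892192) (nat_lit 2329361835),
  Rx.mk (nat_lit 301) (nat_lit 5) (nat_lit 5) (nat_lit 4) (nat_lit 3) (nat_lit 295) (nat_lit 282) r2_295 r1_282 (nat_lit 0) (nat_lit 0) (nat_lit 39267561) (nat_lit 0x1ff1c03ef6) (nat_lit 2203124059),
  Rx.mk (nat_lit 329) (nat_lit 1) (nat_lit 1) (nat_lit 5) (nat_lit 7) (nat_lit 300) (nat_lit 283) r2_300 r1_283 (nat_lit 0) (nat_lit 0) (nat_lit 0) (nat_lit 0x2000efab8c) (nat_lit 2147483648),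
  Rx.mk (nat_lit 333) (nat_lit 5) (nat_lit 1) (nat_lit 5) (nat_lit 7) (nat_lit 299) (nat_lit 284) r2_299 r1_284 (nat_lit 0) (nat_lit 0) (nat_lit 0) (nat_lit 0x2000efab8c) (nat_lit 2147483648),
  Rx.mk (nat_lit 365) (nat_lit 5) (nat_lit 5) (nat_lit 5) (nat_lit 7) (nat_lit 296) (nat_lit 285) r2_296 r1_285 (nat_lit 0) (nat_lit 0) (nat_lit 0) (nat_lit 0x2000efab8c) (nat_lit 2147483648)]
noncomputable def e40_24 : List Rx := [
  Rx.mk (nat_lit 265) (nat_lit 1) (nat_lit 1) (nat_lit 4) (nat_lit 3) (nat_lit 350) (nat_lit 299) r2_350 r4_299 (nat_lit 0) (nat_lit 0) (nat_lit 237381203) (nat_lit 0x1f74d48eb0) (nat_lit 2537070151),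
  Rx.mk (nat_lit 269) (nat_lit 5) (nat_lit 1) (nat_lit 4) (nat_lit 3) (nat_lit 349) (nat_lit 300) r2_349 r4_300 (nat_lit 0) (nat_lit 0) (nat_lit 61711102) (nat_lit 0x2000d0f458) (nat_lit 2209304850),
  Rx.mk (nat_lit 329) (nat_lit 1) (nat_lit 1) (nat_lit 5) (nat_lit 7) (nat_lit 352) (nat_lit 301) r2_352 r4_301 (nat_lit 0) (nat_lit 0) (nat_lit 0) (nat_lit 0x2000efab8c) (nat_lit 2147483648),
  Rx.mk (nat_lit 333) (nat_lit 5) (nat_lit 1) (nat_lit 5) (nat_lit 7) (nat_lit 351) (nat_lit 302) r2_351 r4_302 (nat_lit 0) (nat_lit 0) (nat_lit 0) (nat_lit 0x2000efab8c) (nat_lit 2147483648),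
  Rx.mk (nat_lit 461) (nat_lit 5) (nat_lit 1) (nat_lit 7) (nat_lit 7) (nat_lit 353) (nat_lit 303) r2_353 r4_303 (nat_lit 0) (nat_lit 0) (nat_lit 0) (nat_lit 0x20169754c6) (nat_lit 2124266498)]
noncomputable def e40_25 : List Rx := [
  Rx.mk (nat_lit 329) (nat_lit 1) (nat_lit 1) (nat_lit 5) (nat_lit 7) (nat_lit 285) (nat_lit 400) r2_285 r7_400 (nat_lit 0) (nat_lit 0) (nat_lit 0) (nat_lit 0x2000efab8c) (nat_lit 2147483648),
  Rx.mk (nat_lit 333) (nat_lit 5) (nat_lit 1) (nat_lit 5) (nat_lit 7) (nat_lit 284) (nat_lit 399) r2_284 r7_399 (nat_lit 0) (nat_lit 0) (nat_lit 0) (nat_lit 0x2000efab8c) (nat_lit 2147483648)]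
noncomputable def e40_26 : List Rx := [
  Rx.mk (nat_lit 329) (nat_lit 1) (nat_lit 1) (nat_lit 5) (nat_lit 7) (nat_lit 303) (nat_lit 322) r2_303 r8_322 (nat_lit 0) (nat_lit 0) (nat_lit 0) (nat_lit 0x2000efab8c) (nat_lit 2147483648),
  Rx.mk (nat_lit 333) (nat_lit 5) (nat_lit 1) (nat_lit 5) (nat_lit 7) (nat_lit 302) (nat_lit 321) r2_302 r8_321 (nat_lit 0) (nat_lit 0) (nat_lit 0) (nat_lit 0x2000efab8c) (nat_lit 2147483648),
  Rx.mk (nat_lit 365) (nat_lit 5) (nat_lit 5) (nat_lit 5) (nat_lit 7) (nat_lit 301) (nat_lit 320) r2_301 r8_320 (nat_lit 0) (nat_lit 0) (nat_lit 0) (nat_lit 0x2000efab8c) (nat_lit 2147483648)]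
noncomputable def e40_27 : List Rx := [
  Rx.mk (nat_lit 73) (nat_lit 1) (nat_lit 1) (nat_lit 1) (nat_lit 7) (nat_lit 314) (nat_lit 320) r2_314 r8_320 (nat_lit 0) (nat_lit 0) (nat_lit 0) (nat_lit 0x2000efab8c) (nat_lit 2147483648),
  Rx.mk (nat_lit 329) (nat_lit 1) (nat_lit 1) (nat_lit 5) (nat_lit 7) (nat_lit 313) (nat_lit 321) r2_313 r8_321 (nat_lit 0) (nat_lit 0) (nat_lit 0) (nat_lit 0x2000efab8c) (nat_lit 2147483648),
  Rx.mk (nat_lit 333) (nat_lit 5) (nat_lit 1) (nat_lit 5) (nat_lit 7) (nat_lit 312) (nat_lit 322) r2_312 r8_322 (nat_lit 0) (nat_lit 0) (nat_lit 0) (nat_lit 0x2000efab8c) (nat_lit 2147483648)]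
noncomputable def e40_28 : List Rx := [
  Rx.mk (nat_lit 329) (nat_lit 1) (nat_lit 1) (nat_lit 5) (nat_lit 7) (nat_lit 355) (nat_lit 324) r2_355 r10_324 (nat_lit 0) (nat_lit 0) (nat_lit 0) (nat_lit 0x2000efab8c) (nat_lit 2147483648),
  Rx.mk (nat_lit 333) (nat_lit 5) (nat_lit 1) (nat_lit 5) (nat_lit 7) (nat_lit 354) (nat_lit 323) r2_354 r10_323 (nat_lit 0) (nat_lit 0) (nat_lit 0) (nat_lit 0x2000efab8c) (nat_lit 2147483648)]
noncomputable def e40_29 : List Rx := [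
  Rx.mk (nat_lit 265) (nat_lit 1) (nat_lit 1) (nat_lit 4) (nat_lit 3) (nat_lit 356) (nat_lit 340) r2_356 r11_340 (nat_lit 0) (nat_lit 0) (nat_lit 239303814) (nat_lit 0x1f62a08618) (nat_lit 2558803162),
  Rx.mk (nat_lit 329) (nat_lit 1) (nat_lit 1) (nat_lit 5) (nat_lit 7) (nat_lit 357) (nat_lit 341) r2_357 r11_341 (nat_lit 0) (nat_lit 0) (nat_lit 0) (nat_lit 0x2000efab8c) (nat_lit 2147483648),
  Rx.mk (nat_lit 457) (nat_lit 1) (nat_lit 1) (nat_lit 7) (nat_lit 7) (nat_lit 359) (nat_lit 342) r2_359 r11_342 (nat_lit 0) (nat_lit 0) (nat_lit 0) (nat_lit 0x2000efab8c) (nat_lit 2147483648),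
  Rx.mk (nat_lit 461) (nat_lit 5) (nat_lit 1) (nat_lit 7) (nat_lit 7) (nat_lit 358) (nat_lit 339) r2_358 r11_339 (nat_lit 0) (nat_lit 0) (nat_lit 0) (nat_lit 0x2000efab8c) (nat_lit 2147483648)]
noncomputable def e40_30 : List Rx := [
  Rx.mk (nat_lit 217) (nat_lit 1) (nat_lit 3) (nat_lit 3) (nat_lit 7) (nat_lit 97) (nat_lit 15) r2_97 r5_15 (nat_lit 0) (nat_lit 0) (nat_lit 0) (nat_lit 0x2028e34acc) (nat_lit 2104741348),
  Rx.mk (nat_lit 473) (nat_lit 1) (nat_lit 3) (nat_lit 7) (nat_lit 7) (nat_lit 96) (nat_lit 14) r2_96 r5_14 (nat_lit 0) (nat_lit 0) (nat_lit 0) (nat_lit 0x2000efab8c) (nat_lit 2147483648)]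
noncomputable def e40_31 : List Rx := [
  Rx.mk (nat_lit 217) (nat_lit 1) (nat_lit 3) (nat_lit 3) (nat_lit 7) (nat_lit 237) (nat_lit 5) r2_237 r11_5 (nat_lit 0) (nat_lit 0) (nat_lit 0) (nat_lit 0x2000efab8c) (nat_lit 2147483648)]
noncomputable def e40_32 : List Rx := [
  Rx.mk (nat_lit 281) (nat_lit 1) (nat_lit 3) (nat_lit 4) (nat_lit 3) (nat_lit 270) (nat_lit 289) r2_270 r6_289 (nat_lit 0) (nat_lit 0) (nat_lit 67932583) (nat_lit 0x1f1bb86946) (nat_lit 2464643081),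
  Rx.mk (nat_lit 285) (nat_lit 5) (nat_lit 3) (nat_lit 4) (nat_lit 3) (nat_lit 269) (nat_lit 286) r2_269 r6_286 (nat_lit 0) (nat_lit 0) (nat_lit 56092190) (nat_lit 0x1fc43de9ce) (nat_lit 2269317788),
  Rx.mk (nat_lit 453) (nat_lit 5) (nat_lit 0) (nat_lit 7) (nat_lit 5) (nat_lit 268) (nat_lit 287) r2_268 r6_287 (nat_lit 0) (nat_lit 95102396) (nat_lit 0) (nat_lit 0x1fcdef6998) (nat_lit 2297800244),
  Rx.mk (nat_lit 477) (nat_lit 5) (nat_lit 3) (nat_lit 7) (nat_lit 7) (nat_lit 271) (nat_lit 288) r2_271 r6_288 (nat_lit 0) (nat_lit 0) (nat_lit 0) (nat_lit 0x2000efab8c) (nat_lit 2147483648)]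
noncomputable def e40_33 : List Rx := [
  Rx.mk (nat_lit 261) (nat_lit 5) (nat_lit 0) (nat_lit 4) (nat_lit 1) (nat_lit 360) (nat_lit 276) r2_360 r5_276 (nat_lit 0) (nat_lit 24361779) (nat_lit 30556283) (nat_lit 0x190ceef282) (nat_lit 4141045460),
  Rx.mk (nat_lit 269) (nat_lit 5) (nat_lit 1) (nat_lit 4) (nat_lit 3) (nat_lit 363) (nat_lit 277) r2_363 r5_277 (nat_lit 0) (nat_lit 0) (nat_lit 39267561) (nat_lit 0x2000efab8c) (nat_lit 2186751209),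
  Rx.mk (nat_lit 281) (nat_lit 1) (nat_lit 3) (nat_lit 4) (nat_lit 3) (nat_lit 367) (nat_lit 275) r2_367 r5_275 (nat_lit 0) (nat_lit 0) (nat_lit 56334993) (nat_lit 0x1fe508dad8) (nat_lit 2233949041),
  Rx.mk (nat_lit 285) (nat_lit 5) (nat_lit 3) (nat_lit 4) (nat_lit 3) (nat_lit 366) (nat_lit 278) r2_366 r5_278 (nat_lit 0) (nat_lit 0) (nat_lit 41954340) (nat_lit 0x1feab1b16c) (nat_lit 2213437888),
  Rx.mk (nat_lit 325) (nat_lit 5) (nat_lit 0) (nat_lit 5) (nat_lit 5) (nat_lit 361) (nat_lit 280) r2_361 r5_280 (nat_lit 0) (nat_lit 171506543) (nat_lit 0) (nat_lit 0x1b7e7f3b4e) (nat_lit 3576156841),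
  Rx.mk (nat_lit 333) (nat_lit 5) (nat_lit 1) (nat_lit 5) (nat_lit 7) (nat_lit 364) (nat_lit 281) r2_364 r5_281 (nat_lit 0) (nat_lit 0) (nat_lit 0) (nat_lit 0x2000efab8c) (nat_lit 2147483648),
  Rx.mk (nat_lit 345) (nat_lit 1) (nat_lit 3) (nat_lit 5) (nat_lit 7) (nat_lit 369) (nat_lit 279) r2_369 r5_279 (nat_lit 0) (nat_lit 0) (nat_lit 0) (nat_lit 0x2000efab8c) (nat_lit 2147483648),
  Rx.mk (nat_lit 349) (nat_lit 5) (nat_lit 3) (nat_lit 5) (nat_lit 7) (nat_lit 368) (nat_lit 282) r2_368 r5_282 (nat_lit 0) (nat_lit 0) (nat_lit 0) (nat_lit 0x2000efab8c) (nat_lit 2147483648),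
  Rx.mk (nat_lit 453) (nat_lit 5) (nat_lit 0) (nat_lit 7) (nat_lit 5) (nat_lit 362) (nat_lit 283) r2_362 r5_283 (nat_lit 0) (nat_lit 65232541) (nat_lit 0) (nat_lit 0x1feb99991e) (nat_lit 2235743339),
  Rx.mk (nat_lit 461) (nat_lit 5) (nat_lit 1) (nat_lit 7) (nat_lit 7) (nat_lit 365) (nat_lit 284) r2_365 r5_284 (nat_lit 0) (nat_lit 0) (nat_lit 0) (nat_lit 0x2000efab8c) (nat_lit 2147483648)]
noncomputable def e40_34 : List Rx := [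
  Rx.mk (nat_lit 325) (nat_lit 5) (nat_lit 0) (nat_lit 5) (nat_lit 5) (nat_lit 370) (nat_lit 340) r2_370 r11_340 (nat_lit 0) (nat_lit 239303814) (nat_lit 0) (nat_lit 0x1f62a08618) (nat_lit 2558803162),
  Rx.mk (nat_lit 333) (nat_lit 5) (nat_lit 1) (nat_lit 5) (nat_lit 7) (nat_lit 371) (nat_lit 341) r2_371 r11_341 (nat_lit 0) (nat_lit 0) (nat_lit 0) (nat_lit 0x2000efab8c) (nat_lit 2147483648),
  Rx.mk (nat_lit 345) (nat_lit 1) (nat_lit 3) (nat_lit 5) (nat_lit 7) (nat_lit 373) (nat_lit 339) r2_373 r11_339 (nat_lit 0) (nat_lit 0) (nat_lit 0) (nat_lit 0x2000efab8c) (nat_lit 2147483648),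
  Rx.mk (nat_lit 349) (nat_lit 5) (nat_lit 3) (nat_lit 5) (nat_lit 7) (nat_lit 372) (nat_lit 342) r2_372 r11_342 (nat_lit 0) (nat_lit 0) (nat_lit 0) (nat_lit 0x2000efab8c) (nat_lit 2147483648)]
noncomputable def e40_35 : List Rx := [
  Rx.mk (nat_lit 473) (nat_lit 1) (nat_lit 3) (nat_lit 7) (nat_lit 7) (nat_lit 95) (nat_lit 10) r2_95 r6_10 (nat_lit 0) (nat_lit 0) (nat_lit 0) (nat_lit 0x2000efab8c) (nat_lit 2147483648),
  Rx.mk (nat_lit 477) (nat_lit 5) (nat_lit 3) (nat_lit 7) (nat_lit 7) (nat_lit 94) (nat_lit 11) r2_94 r6_11 (nat_lit 0) (nat_lit 0) (nat_lit 0) (nat_lit 0x2000efab8c) (nat_lit 2147483648)]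
noncomputable def e40_36 : List Rx := [
  Rx.mk (nat_lit 281) (nat_lit 1) (nat_lit 3) (nat_lit 4) (nat_lit 3) (nat_lit 273) (nat_lit 344) r2_273 r12_344 (nat_lit 0) (nat_lit 0) (nat_lit 3377022) (nat_lit 0x1cb6815b98) (nat_lit 3067959970),
  Rx.mk (nat_lit 453) (nat_lit 5) (nat_lit 0) (nat_lit 7) (nat_lit 5) (nat_lit 272) (nat_lit 346) r2_272 r12_346 (nat_lit 0) (nat_lit 3377022) (nat_lit 0) (nat_lit 0x1cb6815b98) (nat_lit 3067959970),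
  Rx.mk (nat_lit 473) (nat_lit 1) (nat_lit 3) (nat_lit 7) (nat_lit 7) (nat_lit 275) (nat_lit 345) r2_275 r12_345 (nat_lit 0) (nat_lit 0) (nat_lit 0) (nat_lit 0x2000efab8c) (nat_lit 2147483648),
  Rx.mk (nat_lit 477) (nat_lit 5) (nat_lit 3) (nat_lit 7) (nat_lit 7) (nat_lit 274) (nat_lit 347) r2_274 r12_347 (nat_lit 0) (nat_lit 0) (nat_lit 0) (nat_lit 0x2000efab8c) (nat_lit 2147483648)]
noncomputable def e40_37 : List Rx := [
  Rx.mk (nat_lit 293) (nat_lit 5) (nat_lit 4) (nat_lit 4) (nat_lit 1) (nat_lit 98) (nat_lit 254) r2_98 r0_254 (nat_lit 0) (nat_lit 36413796) (nat_lit 434226316) (nat_lit 0x1879ff9526) (nat_lit 4716875910),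
  Rx.mk (nat_lit 317) (nat_lit 5) (nat_lit 7) (nat_lit 4) (nat_lit 3) (nat_lit 99) (nat_lit 255) r2_99 r0_255 (nat_lit 0) (nat_lit 0) (nat_lit 100346273) (nat_lit 0x1fdee46c8a) (nat_lit 2284621071),
  Rx.mk (nat_lit 509) (nat_lit 5) (nat_lit 7) (nat_lit 7) (nat_lit 7) (nat_lit 100) (nat_lit 256) r2_100 r0_256 (nat_lit 0) (nat_lit 0) (nat_lit 0) (nat_lit 0x2000efab8c) (nat_lit 2147483648)]
noncomputable def e40_38 : List Rx := [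
  Rx.mk (nat_lit 316) (nat_lit 4) (nat_lit 7) (nat_lit 4) (nat_lit 2) (nat_lit 4) (nat_lit 34) r2_4 r0_34 (nat_lit 2861756) (nat_lit 0) (nat_lit 6583621) (nat_lit 0x1a9a9f48e2) (nat_lit 3662193675),
  Rx.mk (nat_lit 317) (nat_lit 5) (nat_lit 7) (nat_lit 4) (nat_lit 3) (nat_lit 5) (nat_lit 35) r2_5 r0_35 (nat_lit 0) (nat_lit 0) (nat_lit 61056546) (nat_lit 0x1f5fe08608) (nat_lit 2383572594),
  Rx.mk (nat_lit 420) (nat_lit 4) (nat_lit 4) (nat_lit 6) (nat_lit 4) (nat_lit 0) (nat_lit 31) r2_0 r0_31 (nat_lit 8480) (nat_lit 6982) (nat_lit 0) (nat_lit 0x19db76d458) (nat_lit 3860668410),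
  Rx.mk (nat_lit 421) (nat_lit 5) (nat_lit 4) (nat_lit 6) (nat_lit 5) (nat_lit 1) (nat_lit 32) r2_1 r0_32 (nat_lit 0) (nat_lit 13338302) (nat_lit 0) (nat_lit 0x1ff9b2a7d4) (nat_lit 2168548850),
  Rx.mk (nat_lit 422) (nat_lit 6) (nat_lit 4) (nat_lit 6) (nat_lit 5) (nat_lit 2) (nat_lit 33) r2_2 r0_33 (nat_lit 0) (nat_lit 30568667) (nat_lit 0) (nat_lit 0x1eb858b9aa) (nat_lit 2535564565),
  Rx.mk (nat_lit 438) (nat_lit 6) (nat_lit 6) (nat_lit 6) (nat_lit 7) (nat_lit 3) (nat_lit 42) r2_3 r0_42 (nat_lit 0) (nat_lit 0) (nat_lit 0) (nat_lit 0x201241bcd6) (nat_lit 2128902698),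
  Rx.mk (nat_lit 444) (nat_lit 4) (nat_lit 7) (nat_lit 6) (nat_lit 6) (nat_lit 6) (nat_lit 39) r2_6 r0_39 (nat_lit 24227) (nat_lit 0) (nat_lit 0) (nat_lit 0x1ffef76540) (nat_lit 2148644475),
  Rx.mk (nat_lit 445) (nat_lit 5) (nat_lit 7) (nat_lit 6) (nat_lit 7) (nat_lit 7) (nat_lit 40) r2_7 r0_40 (nat_lit 0) (nat_lit 0) (nat_lit 0) (nat_lit 0x21e1f887b0) (nat_lit 1636203448),
  Rx.mk (nat_lit 446) (nat_lit 6) (nat_lit 7) (nat_lit 6) (nat_lit 7) (nat_lit 8) (nat_lit 41) r2_8 r0_41 (nat_lit 0) (nat_lit 0) (nat_lit 0) (nat_lit 0x21fbd87028) (nat_lit 1608727548),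
  Rx.mk (nat_lit 479) (nat_lit 7) (nat_lit 3) (nat_lit 7) (nat_lit 7) (nat_lit 12) (nat_lit 30) r2_12 r0_30 (nat_lit 0) (nat_lit 0) (nat_lit 0) (nat_lit 0x2000efab8c) (nat_lit 2147483648),
  Rx.mk (nat_lit 508) (nat_lit 4) (nat_lit 7) (nat_lit 7) (nat_lit 6) (nat_lit 9) (nat_lit 36) r2_9 r0_36 (nat_lit 21572134) (nat_lit 0) (nat_lit 0) (nat_lit 0x1fc3ad1d68) (nat_lit 2235386682),
  Rx.mk (nat_lit 509) (nat_lit 5) (nat_lit 7) (nat_lit 7) (nat_lit 7) (nat_lit 10) (nat_lit 37) r2_10 r0_37 (nat_lit 0) (nat_lit 0) (nat_lit 0) (nat_lit 0x1ffb86aca4) (nat_lit 2153304848),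
  Rx.mk (nat_lit 511) (nat_lit 7) (nat_lit 7) (nat_lit 7) (nat_lit 7) (nat_lit 11) (nat_lit 38) r2_11 r0_38 (nat_lit 0) (nat_lit 0) (nat_lit 0) (nat_lit 0x1ffb86aca4) (nat_lit 2153304848)]
noncomputable def e40_39 : List Rx := [
  Rx.mk (nat_lit 292) (nat_lit 4) (nat_lit 4) (nat_lit 4) (nat_lit 0) (nat_lit 101) (nat_lit 339) r2_101 r7_339 (nat_lit 1937) (nat_lit 1798) (nat_lit 8247) (nat_lit 0x10a98581b4) (nat_lit 6425118130),
  Rx.mk (nat_lit 293) (nat_lit 5) (nat_lit 4) (nat_lit 4) (nat_lit 1) (nat_lit 102) (nat_lit 344) r2_102 r7_344 (nat_lit 0) (nat_lit 10623857) (nat_lit 30039614) (nat_lit 0x15f14e7b36) (nat_lit 4993558069),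
  Rx.mk (nat_lit 316) (nat_lit 4) (nat_lit 7) (nat_lit 4) (nat_lit 2) (nat_lit 107) (nat_lit 340) r2_107 r7_340 (nat_lit 5087834) (nat_lit 0) (nat_lit 20717393) (nat_lit 0x1975a87816) (nat_lit 3997776725),
  Rx.mk (nat_lit 317) (nat_lit 5) (nat_lit 7) (nat_lit 4) (nat_lit 3) (nat_lit 108) (nat_lit 345) r2_108 r7_345 (nat_lit 0) (nat_lit 0) (nat_lit 105487641) (nat_lit 0x1e6cf14f72) (nat_lit 2692591839),
  Rx.mk (nat_lit 420) (nat_lit 4) (nat_lit 4) (nat_lit 6) (nat_lit 4) (nat_lit 103) (nat_lit 342) r2_103 r7_342 (nat_lit 1571667) (nat_lit 1671799) (nat_lit 0) (nat_lit 0x186cb0e74e) (nat_lit 4263704064),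
  Rx.mk (nat_lit 421) (nat_lit 5) (nat_lit 4) (nat_lit 6) (nat_lit 5) (nat_lit 104) (nat_lit 347) r2_104 r7_347 (nat_lit 0) (nat_lit 10772890) (nat_lit 0) (nat_lit 0x201356c724) (nat_lit 2138452038),
  Rx.mk (nat_lit 422) (nat_lit 6) (nat_lit 4) (nat_lit 6) (nat_lit 5) (nat_lit 105) (nat_lit 350) r2_105 r7_350 (nat_lit 0) (nat_lit 17968761) (nat_lit 0) (nat_lit 0x1fd9089b88) (nat_lit 2208536809),
  Rx.mk (nat_lit 438) (nat_lit 6) (nat_lit 6) (nat_lit 6) (nat_lit 7) (nat_lit 106) (nat_lit 352) r2_106 r7_352 (nat_lit 0) (nat_lit 0) (nat_lit 0) (nat_lit 0x2000efab8c) (nat_lit 2147483648),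
  Rx.mk (nat_lit 444) (nat_lit 4) (nat_lit 7) (nat_lit 6) (nat_lit 6) (nat_lit 109) (nat_lit 343) r2_109 r7_343 (nat_lit 12082706) (nat_lit 0) (nat_lit 0) (nat_lit 0x208790be4c) (nat_lit 2016209154),
  Rx.mk (nat_lit 445) (nat_lit 5) (nat_lit 7) (nat_lit 6) (nat_lit 7) (nat_lit 110) (nat_lit 348) r2_110 r7_348 (nat_lit 0) (nat_lit 0) (nat_lit 0) (nat_lit 0x2044298814) (nat_lit 2075709948),
  Rx.mk (nat_lit 446) (nat_lit 6) (nat_lit 7) (nat_lit 6) (nat_lit 7) (nat_lit 111) (nat_lit 351) r2_111 r7_351 (nat_lit 0) (nat_lit 0) (nat_lit 0) (nat_lit 0x2044298814) (nat_lit 2075709948),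
  Rx.mk (nat_lit 508) (nat_lit 4) (nat_lit 7) (nat_lit 7) (nat_lit 6) (nat_lit 112) (nat_lit 341) r2_112 r7_341 (nat_lit 24199369) (nat_lit 0) (nat_lit 0) (nat_lit 0x1bd3433ce8) (nat_lit 3336510717),
  Rx.mk (nat_lit 509) (nat_lit 5) (nat_lit 7) (nat_lit 7) (nat_lit 7) (nat_lit 113) (nat_lit 346) r2_113 r7_346 (nat_lit 0) (nat_lit 0) (nat_lit 0) (nat_lit 0x1fe46492f2) (nat_lit 2178308798),
  Rx.mk (nat_lit 511) (nat_lit 7) (nat_lit 7) (nat_lit 7) (nat_lit 7) (nat_lit 114) (nat_lit 349) r2_114 r7_349 (nat_lit 0) (nat_lit 0) (nat_lit 0) (nat_lit 0x2000efab8c) (nat_lit 2147483648)]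
noncomputable def e40_40 : List Rx := [
  Rx.mk (nat_lit 16) (nat_lit 0) (nat_lit 2) (nat_lit 0) (nat_lit 2) (nat_lit 35) (nat_lit 27) r2_35 r2_27 (nat_lit 3225) (nat_lit 0) (nat_lit 3501) (nat_lit 0x1aa2524184) (nat_lit 3644017774),
  Rx.mk (nat_lit 18) (nat_lit 2) (nat_lit 2) (nat_lit 0) (nat_lit 3) (nat_lit 36) (nat_lit 28) r2_36 r2_28 (nat_lit 0) (nat_lit 0) (nat_lit 41451097) (nat_lit 0x1bd9b74236) (nat_lit 3346763695),
  Rx.mk (nat_lit 146) (nat_lit 2) (nat_lit 2) (nat_lit 2) (nat_lit 7) (nat_lit 37) (nat_lit 32) r2_37 r2_32 (nat_lit 0) (nat_lit 0) (nat_lit 0) (nat_lit 0x1fe76071e2) (nat_lit 2175091898),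
  Rx.mk (nat_lit 178) (nat_lit 2) (nat_lit 6) (nat_lit 2) (nat_lit 7) (nat_lit 26) (nat_lit 41) r2_26 r2_41 (nat_lit 0) (nat_lit 0) (nat_lit 0) (nat_lit 0x1fedeb2476) (nat_lit 2168003298),
  Rx.mk (nat_lit 182) (nat_lit 6) (nat_lit 6) (nat_lit 2) (nat_lit 7) (nat_lit 25) (nat_lit 42) r2_25 r2_42 (nat_lit 0) (nat_lit 0) (nat_lit 0) (nat_lit 0x1fedeb2476) (nat_lit 2168003298),
  Rx.mk (nat_lit 192) (nat_lit 0) (nat_lit 0) (nat_lit 3) (nat_lit 4) (nat_lit 33) (nat_lit 22) r2_33 r2_22 (nat_lit 3225) (nat_lit 3501) (nat_lit 0) (nat_lit 0x1aa2524184) (nat_lit 3644017774),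
  Rx.mk (nat_lit 195) (nat_lit 3) (nat_lit 0) (nat_lit 3) (nat_lit 5) (nat_lit 34) (nat_lit 23) r2_34 r2_23 (nat_lit 0) (nat_lit 41451097) (nat_lit 0) (nat_lit 0x1bd9b74236) (nat_lit 3346763695),
  Rx.mk (nat_lit 208) (nat_lit 0) (nat_lit 2) (nat_lit 3) (nat_lit 6) (nat_lit 38) (nat_lit 29) r2_38 r2_29 (nat_lit 5106) (nat_lit 0) (nat_lit 0) (nat_lit 0x1ea052b266) (nat_lit 2530618504),
  Rx.mk (nat_lit 210) (nat_lit 2) (nat_lit 2) (nat_lit 3) (nat_lit 7) (nat_lit 39) (nat_lit 31) r2_39 r2_31 (nat_lit 0) (nat_lit 0) (nat_lit 0) (nat_lit 0x203321619a) (nat_lit 2093833498),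
  Rx.mk (nat_lit 211) (nat_lit 3) (nat_lit 2) (nat_lit 3) (nat_lit 7) (nat_lit 40) (nat_lit 30) r2_40 r2_30 (nat_lit 0) (nat_lit 0) (nat_lit 0) (nat_lit 0x203321619a) (nat_lit 2093833498),
  Rx.mk (nat_lit 219) (nat_lit 3) (nat_lit 3) (nat_lit 3) (nat_lit 7) (nat_lit 43) (nat_lit 24) r2_43 r2_24 (nat_lit 0) (nat_lit 0) (nat_lit 0) (nat_lit 0x1fe76071e2) (nat_lit 2175091898),
  Rx.mk (nat_lit 316) (nat_lit 4) (nat_lit 7) (nat_lit 4) (nat_lit 2) (nat_lit 27) (nat_lit 35) r2_27 r2_35 (nat_lit 3225) (nat_lit 0) (nat_lit 3501) (nat_lit 0x1aa2524184) (nat_lit 3644017774),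
  Rx.mk (nat_lit 319) (nat_lit 7) (nat_lit 7) (nat_lit 4) (nat_lit 3) (nat_lit 28) (nat_lit 36) r2_28 r2_36 (nat_lit 0) (nat_lit 0) (nat_lit 41451097) (nat_lit 0x1bd9b74236) (nat_lit 3346763695),
  Rx.mk (nat_lit 420) (nat_lit 4) (nat_lit 4) (nat_lit 6) (nat_lit 4) (nat_lit 22) (nat_lit 33) r2_22 r2_33 (nat_lit 3225) (nat_lit 3501) (nat_lit 0) (nat_lit 0x1aa2524184) (nat_lit 3644017774),
  Rx.mk (nat_lit 422) (nat_lit 6) (nat_lit 4) (nat_lit 6) (nat_lit 5) (nat_lit 23) (nat_lit 34) r2_23 r2_34 (nat_lit 0) (nat_lit 41451097) (nat_lit 0) (nat_lit 0x1bd9b74236) (nat_lit 3346763695),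
  Rx.mk (nat_lit 438) (nat_lit 6) (nat_lit 6) (nat_lit 6) (nat_lit 7) (nat_lit 24) (nat_lit 43) r2_24 r2_43 (nat_lit 0) (nat_lit 0) (nat_lit 0) (nat_lit 0x1fe76071e2) (nat_lit 2175091898),
  Rx.mk (nat_lit 444) (nat_lit 4) (nat_lit 7) (nat_lit 6) (nat_lit 6) (nat_lit 29) (nat_lit 38) r2_29 r2_38 (nat_lit 5106) (nat_lit 0) (nat_lit 0) (nat_lit 0x1ea052b266) (nat_lit 2530618504),
  Rx.mk (nat_lit 446) (nat_lit 6) (nat_lit 7) (nat_lit 6) (nat_lit 7) (nat_lit 30) (nat_lit 40) r2_30 r2_40 (nat_lit 0) (nat_lit 0) (nat_lit 0) (nat_lit 0x203321619a) (nat_lit 2093833498),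
  Rx.mk (nat_lit 447) (nat_lit 7) (nat_lit 7) (nat_lit 6) (nat_lit 7) (nat_lit 31) (nat_lit 39) r2_31 r2_39 (nat_lit 0) (nat_lit 0) (nat_lit 0) (nat_lit 0x203321619a) (nat_lit 2093833498),
  Rx.mk (nat_lit 475) (nat_lit 3) (nat_lit 3) (nat_lit 7) (nat_lit 7) (nat_lit 42) (nat_lit 25) r2_42 r2_25 (nat_lit 0) (nat_lit 0) (nat_lit 0) (nat_lit 0x1fedeb2476) (nat_lit 2168003298),
  Rx.mk (nat_lit 479) (nat_lit 7) (nat_lit 3) (nat_lit 7) (nat_lit 7) (nat_lit 41) (nat_lit 26) r2_41 r2_26 (nat_lit 0) (nat_lit 0) (nat_lit 0) (nat_lit 0x1fedeb2476) (nat_lit 2168003298),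
  Rx.mk (nat_lit 511) (nat_lit 7) (nat_lit 7) (nat_lit 7) (nat_lit 7) (nat_lit 32) (nat_lit 37) r2_32 r2_37 (nat_lit 0) (nat_lit 0) (nat_lit 0) (nat_lit 0x1fe76071e2) (nat_lit 2175091898)]
noncomputable def e40_41 : List Rx := [
  Rx.mk (nat_lit 178) (nat_lit 2) (nat_lit 6) (nat_lit 2) (nat_lit 7) (nat_lit 151) (nat_lit 11) r2_151 r9_11 (nat_lit 0) (nat_lit 0) (nat_lit 0) (nat_lit 0x2000efab8c) (nat_lit 2147483648),
  Rx.mk (nat_lit 182) (nat_lit 6) (nat_lit 6) (nat_lit 2) (nat_lit 7) (nat_lit 150) (nat_lit 12) r2_150 r9_12 (nat_lit 0) (nat_lit 0) (nat_lit 0) (nat_lit 0x2000efab8c) (nat_lit 2147483648),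
  Rx.mk (nat_lit 292) (nat_lit 4) (nat_lit 4) (nat_lit 4) (nat_lit 0) (nat_lit 146) (nat_lit 2) r2_146 r9_2 (nat_lit 26146226) (nat_lit 15125734) (nat_lit 16509113) (nat_lit 0xfbfdeda88) (nat_lit 6737910221),
  Rx.mk (nat_lit 316) (nat_lit 4) (nat_lit 7) (nat_lit 4) (nat_lit 2) (nat_lit 152) (nat_lit 5) r2_152 r9_5 (nat_lit 50261254) (nat_lit 0) (nat_lit 34608141) (nat_lit 0x1a7798726a) (nat_lit 3775931093),
  Rx.mk (nat_lit 319) (nat_lit 7) (nat_lit 7) (nat_lit 4) (nat_lit 3) (nat_lit 153) (nat_lit 6) r2_153 r9_6 (nat_lit 0) (nat_lit 0) (nat_lit 82600404) (nat_lit 0x1f88f62bf6) (nat_lit 2360347602),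
  Rx.mk (nat_lit 420) (nat_lit 4) (nat_lit 4) (nat_lit 6) (nat_lit 4) (nat_lit 147) (nat_lit 3) r2_147 r9_3 (nat_lit 39267561) (nat_lit 24896222) (nat_lit 0) (nat_lit 0x1a93b9bfb2) (nat_lit 3724591981),
  Rx.mk (nat_lit 422) (nat_lit 6) (nat_lit 4) (nat_lit 6) (nat_lit 5) (nat_lit 148) (nat_lit 4) r2_148 r9_4 (nat_lit 0) (nat_lit 39267561) (nat_lit 0) (nat_lit 0x1ffbb1be4e) (nat_lit 2192391559),
  Rx.mk (nat_lit 438) (nat_lit 6) (nat_lit 6) (nat_lit 6) (nat_lit 7) (nat_lit 149) (nat_lit 13) r2_149 r9_13 (nat_lit 0) (nat_lit 0) (nat_lit 0) (nat_lit 0x2000efab8c) (nat_lit 2147483648),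
  Rx.mk (nat_lit 444) (nat_lit 4) (nat_lit 7) (nat_lit 6) (nat_lit 6) (nat_lit 154) (nat_lit 8) r2_154 r9_8 (nat_lit 39267561) (nat_lit 0) (nat_lit 0) (nat_lit 0x2000efab8c) (nat_lit 2186751209),
  Rx.mk (nat_lit 446) (nat_lit 6) (nat_lit 7) (nat_lit 6) (nat_lit 7) (nat_lit 155) (nat_lit 10) r2_155 r9_10 (nat_lit 0) (nat_lit 0) (nat_lit 0) (nat_lit 0x2000efab8c) (nat_lit 2147483648),
  Rx.mk (nat_lit 447) (nat_lit 7) (nat_lit 7) (nat_lit 6) (nat_lit 7) (nat_lit 156) (nat_lit 9) r2_156 r9_9 (nat_lit 0) (nat_lit 0) (nat_lit 0) (nat_lit 0x2000efab8c) (nat_lit 2147483648),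
  Rx.mk (nat_lit 511) (nat_lit 7) (nat_lit 7) (nat_lit 7) (nat_lit 7) (nat_lit 157) (nat_lit 7) r2_157 r9_7 (nat_lit 0) (nat_lit 0) (nat_lit 0) (nat_lit 0x2000efab8c) (nat_lit 2147483648)]
noncomputable def e40_42 : List Rx := [
  Rx.mk (nat_lit 0) (nat_lit 0) (nat_lit 0) (nat_lit 0) (nat_lit 0) (nat_lit 170) (nat_lit 2) r2_170 r9_2 (nat_lit 26146226) (nat_lit 16509113) (nat_lit 15125734) (nat_lit 0xfbfdeda88) (nat_lit 6737910221),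
  Rx.mk (nat_lit 16) (nat_lit 0) (nat_lit 2) (nat_lit 0) (nat_lit 2) (nat_lit 173) (nat_lit 3) r2_173 r9_3 (nat_lit 39267561) (nat_lit 0) (nat_lit 24896222) (nat_lit 0x1a93b9bfb2) (nat_lit 3724591981),
  Rx.mk (nat_lit 18) (nat_lit 2) (nat_lit 2) (nat_lit 0) (nat_lit 3) (nat_lit 174) (nat_lit 4) r2_174 r9_4 (nat_lit 0) (nat_lit 0) (nat_lit 39267561) (nat_lit 0x1ffbb1be4e) (nat_lit 2192391559),
  Rx.mk (nat_lit 146) (nat_lit 2) (nat_lit 2) (nat_lit 2) (nat_lit 7) (nat_lit 175) (nat_lit 13) r2_175 r9_13 (nat_lit 0) (nat_lit 0) (nat_lit 0) (nat_lit 0x2000efab8c) (nat_lit 2147483648),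
  Rx.mk (nat_lit 178) (nat_lit 2) (nat_lit 6) (nat_lit 2) (nat_lit 7) (nat_lit 169) (nat_lit 12) r2_169 r9_12 (nat_lit 0) (nat_lit 0) (nat_lit 0) (nat_lit 0x2000efab8c) (nat_lit 2147483648),
  Rx.mk (nat_lit 182) (nat_lit 6) (nat_lit 6) (nat_lit 2) (nat_lit 7) (nat_lit 168) (nat_lit 11) r2_168 r9_11 (nat_lit 0) (nat_lit 0) (nat_lit 0) (nat_lit 0x2000efab8c) (nat_lit 2147483648),
  Rx.mk (nat_lit 192) (nat_lit 0) (nat_lit 0) (nat_lit 3) (nat_lit 4) (nat_lit 171) (nat_lit 5) r2_171 r9_5 (nat_lit 50261254) (nat_lit 34608141) (nat_lit 0) (nat_lit 0x1a7798726a) (nat_lit 3775931093),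
  Rx.mk (nat_lit 195) (nat_lit 3) (nat_lit 0) (nat_lit 3) (nat_lit 5) (nat_lit 172) (nat_lit 6) r2_172 r9_6 (nat_lit 0) (nat_lit 82600404) (nat_lit 0) (nat_lit 0x1f88f62bf6) (nat_lit 2360347602),
  Rx.mk (nat_lit 208) (nat_lit 0) (nat_lit 2) (nat_lit 3) (nat_lit 6) (nat_lit 176) (nat_lit 8) r2_176 r9_8 (nat_lit 39267561) (nat_lit 0) (nat_lit 0) (nat_lit 0x2000efab8c) (nat_lit 2186751209),
  Rx.mk (nat_lit 210) (nat_lit 2) (nat_lit 2) (nat_lit 3) (nat_lit 7) (nat_lit 177) (nat_lit 10) r2_177 r9_10 (nat_lit 0) (nat_lit 0) (nat_lit 0) (nat_lit 0x2000efab8c) (nat_lit 2147483648),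
  Rx.mk (nat_lit 211) (nat_lit 3) (nat_lit 2) (nat_lit 3) (nat_lit 7) (nat_lit 178) (nat_lit 9) r2_178 r9_9 (nat_lit 0) (nat_lit 0) (nat_lit 0) (nat_lit 0x2000efab8c) (nat_lit 2147483648),
  Rx.mk (nat_lit 219) (nat_lit 3) (nat_lit 3) (nat_lit 3) (nat_lit 7) (nat_lit 179) (nat_lit 7) r2_179 r9_7 (nat_lit 0) (nat_lit 0) (nat_lit 0) (nat_lit 0x2000efab8c) (nat_lit 2147483648)]
noncomputable def e40_43 : List Rx := [
  Rx.mk (nat_lit 316) (nat_lit 4) (nat_lit 7) (nat_lit 4) (nat_lit 2) (nat_lit 16) (nat_lit 33) r2_16 r1_33 (nat_lit 29833112) (nat_lit 0) (nat_lit 72537203) (nat_lit 0x1dd5d2f10e) (nat_lit 2854124313),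
  Rx.mk (nat_lit 420) (nat_lit 4) (nat_lit 4) (nat_lit 6) (nat_lit 4) (nat_lit 13) (nat_lit 31) r2_13 r1_31 (nat_lit 22064029) (nat_lit 69911534) (nat_lit 0) (nat_lit 0x1c6783d28c) (nat_lit 3242802111),
  Rx.mk (nat_lit 422) (nat_lit 6) (nat_lit 4) (nat_lit 6) (nat_lit 5) (nat_lit 14) (nat_lit 32) r2_14 r1_32 (nat_lit 0) (nat_lit 62087651) (nat_lit 0) (nat_lit 0x1f580d0802) (nat_lit 2393182949),
  Rx.mk (nat_lit 438) (nat_lit 6) (nat_lit 6) (nat_lit 6) (nat_lit 7) (nat_lit 15) (nat_lit 38) r2_15 r1_38 (nat_lit 0) (nat_lit 0) (nat_lit 0) (nat_lit 0x200bbb9a58) (nat_lit 2135892348),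
  Rx.mk (nat_lit 444) (nat_lit 4) (nat_lit 7) (nat_lit 6) (nat_lit 6) (nat_lit 17) (nat_lit 36) r2_17 r1_36 (nat_lit 7517269) (nat_lit 0) (nat_lit 0) (nat_lit 0x21cdd10b86) (nat_lit 1665147967),
  Rx.mk (nat_lit 446) (nat_lit 6) (nat_lit 7) (nat_lit 6) (nat_lit 7) (nat_lit 18) (nat_lit 37) r2_18 r1_37 (nat_lit 0) (nat_lit 0) (nat_lit 0) (nat_lit 0x2054a938c4) (nat_lit 2058167248),
  Rx.mk (nat_lit 479) (nat_lit 7) (nat_lit 3) (nat_lit 7) (nat_lit 7) (nat_lit 21) (nat_lit 30) r2_21 r1_30 (nat_lit 0) (nat_lit 0) (nat_lit 0) (nat_lit 0x2000efab8c) (nat_lit 2147483648),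
  Rx.mk (nat_lit 508) (nat_lit 4) (nat_lit 7) (nat_lit 7) (nat_lit 6) (nat_lit 19) (nat_lit 34) r2_19 r1_34 (nat_lit 26013352) (nat_lit 0) (nat_lit 0) (nat_lit 0x2012edaa78) (nat_lit 2154200700),
  Rx.mk (nat_lit 511) (nat_lit 7) (nat_lit 7) (nat_lit 7) (nat_lit 7) (nat_lit 20) (nat_lit 35) r2_20 r1_35 (nat_lit 0) (nat_lit 0) (nat_lit 0) (nat_lit 0x2000efab8c) (nat_lit 2147483648)]
noncomputable def e40_44 : List Rx := [
  Rx.mk (nat_lit 292) (nat_lit 4) (nat_lit 4) (nat_lit 4) (nat_lit 0) (nat_lit 137) (nat_lit 257) r2_137 r8_257 (nat_lit 12353548) (nat_lit 9565204) (nat_lit 24375812) (nat_lit 0x10dc384f24) (nat_lit 6416614212),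
  Rx.mk (nat_lit 316) (nat_lit 4) (nat_lit 7) (nat_lit 4) (nat_lit 2) (nat_lit 141) (nat_lit 258) r2_141 r8_258 (nat_lit 40804876) (nat_lit 0) (nat_lit 102122857) (nat_lit 0x1bafb4909c) (nat_lit 3493971381),
  Rx.mk (nat_lit 420) (nat_lit 4) (nat_lit 4) (nat_lit 6) (nat_lit 4) (nat_lit 138) (nat_lit 260) r2_138 r8_260 (nat_lit 20716858) (nat_lit 22274922) (nat_lit 0) (nat_lit 0x1b905154ec) (nat_lit 3428243528),
  Rx.mk (nat_lit 422) (nat_lit 6) (nat_lit 4) (nat_lit 6) (nat_lit 5) (nat_lit 139) (nat_lit 263) r2_139 r8_263 (nat_lit 0) (nat_lit 40979706) (nat_lit 0) (nat_lit 0x1fec09fc7c) (nat_lit 2211011354),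
  Rx.mk (nat_lit 438) (nat_lit 6) (nat_lit 6) (nat_lit 6) (nat_lit 7) (nat_lit 140) (nat_lit 265) r2_140 r8_265 (nat_lit 0) (nat_lit 0) (nat_lit 0) (nat_lit 0x2000efab8c) (nat_lit 2147483648),
  Rx.mk (nat_lit 444) (nat_lit 4) (nat_lit 7) (nat_lit 6) (nat_lit 6) (nat_lit 142) (nat_lit 261) r2_142 r8_261 (nat_lit 39267561) (nat_lit 0) (nat_lit 0) (nat_lit 0x2000efab8c) (nat_lit 2186751209),
  Rx.mk (nat_lit 446) (nat_lit 6) (nat_lit 7) (nat_lit 6) (nat_lit 7) (nat_lit 143) (nat_lit 264) r2_143 r8_264 (nat_lit 0) (nat_lit 0) (nat_lit 0) (nat_lit 0x2000efab8c) (nat_lit 2147483648),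
  Rx.mk (nat_lit 508) (nat_lit 4) (nat_lit 7) (nat_lit 7) (nat_lit 6) (nat_lit 144) (nat_lit 259) r2_144 r8_259 (nat_lit 39267561) (nat_lit 0) (nat_lit 0) (nat_lit 0x2000efab8c) (nat_lit 2186751209),
  Rx.mk (nat_lit 511) (nat_lit 7) (nat_lit 7) (nat_lit 7) (nat_lit 7) (nat_lit 145) (nat_lit 262) r2_145 r8_262 (nat_lit 0) (nat_lit 0) (nat_lit 0) (nat_lit 0x2000efab8c) (nat_lit 2147483648)]
noncomputable def e40_45 : List Rx := [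
  Rx.mk (nat_lit 293) (nat_lit 5) (nat_lit 4) (nat_lit 4) (nat_lit 1) (nat_lit 115) (nat_lit 258) r2_115 r1_258 (nat_lit 0) (nat_lit 41010729) (nat_lit 77726219) (nat_lit 0x194a420250) (nat_lit 4138100096),
  Rx.mk (nat_lit 301) (nat_lit 5) (nat_lit 5) (nat_lit 4) (nat_lit 3) (nat_lit 116) (nat_lit 259) r2_116 r1_259 (nat_lit 0) (nat_lit 0) (nat_lit 43310882) (nat_lit 0x1ff20b3ff0) (nat_lit 2206848030),
  Rx.mk (nat_lit 317) (nat_lit 5) (nat_lit 7) (nat_lit 4) (nat_lit 3) (nat_lit 117) (nat_lit 260) r2_117 r1_260 (nat_lit 0) (nat_lit 0) (nat_lit 39267561) (nat_lit 0x2000efab8c) (nat_lit 2186751209),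
  Rx.mk (nat_lit 509) (nat_lit 5) (nat_lit 7) (nat_lit 7) (nat_lit 7) (nat_lit 118) (nat_lit 261) r2_118 r1_261 (nat_lit 0) (nat_lit 0) (nat_lit 0) (nat_lit 0x2000efab8c) (nat_lit 2147483648)]
noncomputable def e40_46 : List Rx := [
  Rx.mk (nat_lit 301) (nat_lit 5) (nat_lit 5) (nat_lit 4) (nat_lit 3) (nat_lit 286) (nat_lit 286) r2_286 r2_286 (nat_lit 0) (nat_lit 0) (nat_lit 39267561) (nat_lit 0x1ff8b4b21e) (nat_lit 2195612459),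
  Rx.mk (nat_lit 365) (nat_lit 5) (nat_lit 5) (nat_lit 5) (nat_lit 7) (nat_lit 287) (nat_lit 287) r2_287 r2_287 (nat_lit 0) (nat_lit 0) (nat_lit 0) (nat_lit 0x2000efab8c) (nat_lit 2147483648)]
noncomputable def e40_47 : List Rx := [
  Rx.mk (nat_lit 292) (nat_lit 4) (nat_lit 4) (nat_lit 4) (nat_lit 0) (nat_lit 119) (nat_lit 25) r2_119 r8_25 (nat_lit 563988) (nat_lit 409480) (nat_lit 11199588) (nat_lit 0x106f9c1094) (nat_lit 6500473804),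
  Rx.mk (nat_lit 293) (nat_lit 5) (nat_lit 4) (nat_lit 4) (nat_lit 1) (nat_lit 120) (nat_lit 26) r2_120 r8_26 (nat_lit 0) (nat_lit 26727303) (nat_lit 26727303) (nat_lit 0x1901dec4da) (nat_lit 4151662204),
  Rx.mk (nat_lit 300) (nat_lit 4) (nat_lit 5) (nat_lit 4) (nat_lit 2) (nat_lit 124) (nat_lit 30) r2_124 r8_30 (nat_lit 49680933) (nat_lit 0) (nat_lit 105181742) (nat_lit 0x1ad2853f32) (nat_lit 3746880873),
  Rx.mk (nat_lit 301) (nat_lit 5) (nat_lit 5) (nat_lit 4) (nat_lit 3) (nat_lit 125) (nat_lit 31) r2_125 r8_31 (nat_lit 0) (nat_lit 0) (nat_lit 39267561) (nat_lit 0x2000efab8c) (nat_lit 2186751209),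
  Rx.mk (nat_lit 316) (nat_lit 4) (nat_lit 7) (nat_lit 4) (nat_lit 2) (nat_lit 130) (nat_lit 35) r2_130 r8_35 (nat_lit 19598011) (nat_lit 0) (nat_lit 31687861) (nat_lit 0x1c4f64ab18) (nat_lit 3228342920),
  Rx.mk (nat_lit 317) (nat_lit 5) (nat_lit 7) (nat_lit 4) (nat_lit 3) (nat_lit 131) (nat_lit 36) r2_131 r8_36 (nat_lit 0) (nat_lit 0) (nat_lit 39267561) (nat_lit 0x2000efab8c) (nat_lit 2186751209),
  Rx.mk (nat_lit 420) (nat_lit 4) (nat_lit 4) (nat_lit 6) (nat_lit 4) (nat_lit 121) (nat_lit 27) r2_121 r8_27 (nat_lit 811008) (nat_lit 463224) (nat_lit 0) (nat_lit 0x18c722b8c4) (nat_lit 4163094280),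
  Rx.mk (nat_lit 421) (nat_lit 5) (nat_lit 4) (nat_lit 6) (nat_lit 5) (nat_lit 122) (nat_lit 28) r2_122 r8_28 (nat_lit 0) (nat_lit 18717822) (nat_lit 0) (nat_lit 0x202dc301d6) (nat_lit 2118269420),
  Rx.mk (nat_lit 422) (nat_lit 6) (nat_lit 4) (nat_lit 6) (nat_lit 5) (nat_lit 123) (nat_lit 29) r2_123 r8_29 (nat_lit 0) (nat_lit 18774916) (nat_lit 0) (nat_lit 0x202d9cc34a) (nat_lit 2118486314),
  Rx.mk (nat_lit 428) (nat_lit 4) (nat_lit 5) (nat_lit 6) (nat_lit 6) (nat_lit 126) (nat_lit 32) r2_126 r8_32 (nat_lit 16041787) (nat_lit 0) (nat_lit 0) (nat_lit 0x2048c10ad2) (nat_lit 2086868285),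
  Rx.mk (nat_lit 429) (nat_lit 5) (nat_lit 5) (nat_lit 6) (nat_lit 7) (nat_lit 127) (nat_lit 33) r2_127 r8_33 (nat_lit 0) (nat_lit 0) (nat_lit 0) (nat_lit 0x2000efab8c) (nat_lit 2147483648),
  Rx.mk (nat_lit 430) (nat_lit 6) (nat_lit 5) (nat_lit 6) (nat_lit 7) (nat_lit 128) (nat_lit 34) r2_128 r8_34 (nat_lit 0) (nat_lit 0) (nat_lit 0) (nat_lit 0x2000efab8c) (nat_lit 2147483648),
  Rx.mk (nat_lit 438) (nat_lit 6) (nat_lit 6) (nat_lit 6) (nat_lit 7) (nat_lit 129) (nat_lit 42) r2_129 r8_42 (nat_lit 0) (nat_lit 0) (nat_lit 0) (nat_lit 0x2000efab8c) (nat_lit 2147483648),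
  Rx.mk (nat_lit 444) (nat_lit 4) (nat_lit 7) (nat_lit 6) (nat_lit 6) (nat_lit 132) (nat_lit 40) r2_132 r8_40 (nat_lit 16041787) (nat_lit 0) (nat_lit 0) (nat_lit 0x2048c10ad2) (nat_lit 2086868285),
  Rx.mk (nat_lit 445) (nat_lit 5) (nat_lit 7) (nat_lit 6) (nat_lit 7) (nat_lit 133) (nat_lit 41) r2_133 r8_41 (nat_lit 0) (nat_lit 0) (nat_lit 0) (nat_lit 0x2000efab8c) (nat_lit 2147483648),
  Rx.mk (nat_lit 508) (nat_lit 4) (nat_lit 7) (nat_lit 7) (nat_lit 6) (nat_lit 134) (nat_lit 37) r2_134 r8_37 (nat_lit 39267561) (nat_lit 0) (nat_lit 0) (nat_lit 0x2000efab8c) (nat_lit 2186751209),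
  Rx.mk (nat_lit 509) (nat_lit 5) (nat_lit 7) (nat_lit 7) (nat_lit 7) (nat_lit 135) (nat_lit 38) r2_135 r8_38 (nat_lit 0) (nat_lit 0) (nat_lit 0) (nat_lit 0x2000efab8c) (nat_lit 2147483648),
  Rx.mk (nat_lit 511) (nat_lit 7) (nat_lit 7) (nat_lit 7) (nat_lit 7) (nat_lit 136) (nat_lit 39) r2_136 r8_39 (nat_lit 0) (nat_lit 0) (nat_lit 0) (nat_lit 0x2000efab8c) (nat_lit 2147483648)]
noncomputable def e40_48 : List Rx := [
  Rx.mk (nat_lit 300) (nat_lit 4) (nat_lit 5) (nat_lit 4) (nat_lit 2) (nat_lit 289) (nat_lit 260) r2_289 r9_260 (nat_lit 201312219) (nat_lit 0) (nat_lit 107940952) (nat_lit 0x1a4a0750a0) (nat_lit 4049965119),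
  Rx.mk (nat_lit 301) (nat_lit 5) (nat_lit 5) (nat_lit 4) (nat_lit 3) (nat_lit 290) (nat_lit 262) r2_290 r9_262 (nat_lit 0) (nat_lit 0) (nat_lit 39267561) (nat_lit 0x2000efab8c) (nat_lit 2186751209),
  Rx.mk (nat_lit 365) (nat_lit 5) (nat_lit 5) (nat_lit 5) (nat_lit 7) (nat_lit 291) (nat_lit 263) r2_291 r9_263 (nat_lit 0) (nat_lit 0) (nat_lit 0) (nat_lit 0x2000efab8c) (nat_lit 2147483648),
  Rx.mk (nat_lit 428) (nat_lit 4) (nat_lit 5) (nat_lit 6) (nat_lit 6) (nat_lit 292) (nat_lit 261) r2_292 r9_261 (nat_lit 39267561) (nat_lit 0) (nat_lit 0) (nat_lit 0x2000efab8c) (nat_lit 2186751209),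
  Rx.mk (nat_lit 429) (nat_lit 5) (nat_lit 5) (nat_lit 6) (nat_lit 7) (nat_lit 293) (nat_lit 264) r2_293 r9_264 (nat_lit 0) (nat_lit 0) (nat_lit 0) (nat_lit 0x2000efab8c) (nat_lit 2147483648),
  Rx.mk (nat_lit 430) (nat_lit 6) (nat_lit 5) (nat_lit 6) (nat_lit 7) (nat_lit 294) (nat_lit 265) r2_294 r9_265 (nat_lit 0) (nat_lit 0) (nat_lit 0) (nat_lit 0x2000efab8c) (nat_lit 2147483648)]
noncomputable def e40_49 : List Rx := [
  Rx.mk (nat_lit 365) (nat_lit 5) (nat_lit 5) (nat_lit 5) (nat_lit 7) (nat_lit 288) (nat_lit 293) r2_288 r9_293 (nat_lit 0) (nat_lit 0) (nat_lit 0) (nat_lit 0x2000efab8c) (nat_lit 2147483648)]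
noncomputable def e40_50 : List Rx := [
  Rx.mk (nat_lit 317) (nat_lit 5) (nat_lit 7) (nat_lit 4) (nat_lit 3) (nat_lit 44) (nat_lit 254) r2_44 r3_254 (nat_lit 0) (nat_lit 0) (nat_lit 13970) (nat_lit 0x1ffdcaf394) (nat_lit 2149902718),
  Rx.mk (nat_lit 477) (nat_lit 5) (nat_lit 3) (nat_lit 7) (nat_lit 7) (nat_lit 46) (nat_lit 256) r2_46 r3_256 (nat_lit 0) (nat_lit 0) (nat_lit 0) (nat_lit 0x1fa59ed438) (nat_lit 2246583448),
  Rx.mk (nat_lit 509) (nat_lit 5) (nat_lit 7) (nat_lit 7) (nat_lit 7) (nat_lit 45) (nat_lit 255) r2_45 r3_255 (nat_lit 0) (nat_lit 0) (nat_lit 0) (nat_lit 0x20008cbcc0) (nat_lit 2147723548)]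
noncomputable def e40_51 : List Rx := [
  Rx.mk (nat_lit 317) (nat_lit 5) (nat_lit 7) (nat_lit 4) (nat_lit 3) (nat_lit 158) (nat_lit 271) r2_158 r4_271 (nat_lit 0) (nat_lit 0) (nat_lit 39267561) (nat_lit 0x201c1fc8a6) (nat_lit 2157622559),
  Rx.mk (nat_lit 509) (nat_lit 5) (nat_lit 7) (nat_lit 7) (nat_lit 7) (nat_lit 159) (nat_lit 272) r2_159 r4_272 (nat_lit 0) (nat_lit 0) (nat_lit 0) (nat_lit 0x2015a91a7c) (nat_lit 2125261448)]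
noncomputable def e40_52 : List Rx := [
  Rx.mk (nat_lit 285) (nat_lit 5) (nat_lit 3) (nat_lit 4) (nat_lit 3) (nat_lit 239) (nat_lit 259) r2_239 r5_259 (nat_lit 0) (nat_lit 0) (nat_lit 18946335) (nat_lit 0x1f8c22186c) (nat_lit 2293205483),
  Rx.mk (nat_lit 317) (nat_lit 5) (nat_lit 7) (nat_lit 4) (nat_lit 3) (nat_lit 238) (nat_lit 258) r2_238 r5_258 (nat_lit 0) (nat_lit 0) (nat_lit 32690532) (nat_lit 0x1f0b3430be) (nat_lit 2447331630),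
  Rx.mk (nat_lit 477) (nat_lit 5) (nat_lit 3) (nat_lit 7) (nat_lit 7) (nat_lit 240) (nat_lit 260) r2_240 r5_260 (nat_lit 0) (nat_lit 0) (nat_lit 0) (nat_lit 0x2000efab8c) (nat_lit 2147483648)]
noncomputable def e40_53 : List Rx := [
  Rx.mk (nat_lit 316) (nat_lit 4) (nat_lit 7) (nat_lit 4) (nat_lit 2) (nat_lit 47) (nat_lit 24) r2_47 r4_24 (nat_lit 6343899) (nat_lit 0) (nat_lit 8937533) (nat_lit 0x1bcdb66188) (nat_lit 3333563080),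
  Rx.mk (nat_lit 317) (nat_lit 5) (nat_lit 7) (nat_lit 4) (nat_lit 3) (nat_lit 48) (nat_lit 25) r2_48 r4_25 (nat_lit 0) (nat_lit 0) (nat_lit 25104164) (nat_lit 0x201e707c54) (nat_lit 2140983212),
  Rx.mk (nat_lit 444) (nat_lit 4) (nat_lit 7) (nat_lit 6) (nat_lit 6) (nat_lit 49) (nat_lit 28) r2_49 r4_28 (nat_lit 2921) (nat_lit 0) (nat_lit 0) (nat_lit 0x1d859bd304) (nat_lit 2838612169),
  Rx.mk (nat_lit 445) (nat_lit 5) (nat_lit 7) (nat_lit 6) (nat_lit 7) (nat_lit 50) (nat_lit 29) r2_50 r4_29 (nat_lit 0) (nat_lit 0) (nat_lit 0) (nat_lit 0x21ad7eb8a6) (nat_lit 1691950698),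
  Rx.mk (nat_lit 446) (nat_lit 6) (nat_lit 7) (nat_lit 6) (nat_lit 7) (nat_lit 51) (nat_lit 30) r2_51 r4_30 (nat_lit 0) (nat_lit 0) (nat_lit 0) (nat_lit 0x2090b060e0) (nat_lit 1994387548),
  Rx.mk (nat_lit 476) (nat_lit 4) (nat_lit 3) (nat_lit 7) (nat_lit 6) (nat_lit 54) (nat_lit 21) r2_54 r4_21 (nat_lit 18809005) (nat_lit 0) (nat_lit 0) (nat_lit 0x202cb0bf90) (nat_lit 2119500453),
  Rx.mk (nat_lit 477) (nat_lit 5) (nat_lit 3) (nat_lit 7) (nat_lit 7) (nat_lit 55) (nat_lit 22) r2_55 r4_22 (nat_lit 0) (nat_lit 0) (nat_lit 0) (nat_lit 0x200f9eae6c) (nat_lit 2131728348),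
  Rx.mk (nat_lit 479) (nat_lit 7) (nat_lit 3) (nat_lit 7) (nat_lit 7) (nat_lit 56) (nat_lit 23) r2_56 r4_23 (nat_lit 0) (nat_lit 0) (nat_lit 0) (nat_lit 0x201485d860) (nat_lit 2126488848),
  Rx.mk (nat_lit 508) (nat_lit 4) (nat_lit 7) (nat_lit 7) (nat_lit 6) (nat_lit 52) (nat_lit 26) r2_52 r4_26 (nat_lit 17628787) (nat_lit 0) (nat_lit 0) (nat_lit 0x2026e25826) (nat_lit 2124498785),
  Rx.mk (nat_lit 509) (nat_lit 5) (nat_lit 7) (nat_lit 7) (nat_lit 7) (nat_lit 53) (nat_lit 27) r2_53 r4_27 (nat_lit 0) (nat_lit 0) (nat_lit 0) (nat_lit 0x200eca52f2) (nat_lit 2132617098)]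
noncomputable def e40_54 : List Rx := [
  Rx.mk (nat_lit 316) (nat_lit 4) (nat_lit 7) (nat_lit 4) (nat_lit 2) (nat_lit 160) (nat_lit 292) r2_160 r10_292 (nat_lit 12629514) (nat_lit 0) (nat_lit 17534844) (nat_lit 0x1cb4ee9bf6) (nat_lit 3096561456),
  Rx.mk (nat_lit 317) (nat_lit 5) (nat_lit 7) (nat_lit 4) (nat_lit 3) (nat_lit 161) (nat_lit 295) r2_161 r10_295 (nat_lit 0) (nat_lit 0) (nat_lit 39267561) (nat_lit 0x2000efab8c) (nat_lit 2186751209),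
  Rx.mk (nat_lit 444) (nat_lit 4) (nat_lit 7) (nat_lit 6) (nat_lit 6) (nat_lit 162) (nat_lit 294) r2_162 r10_294 (nat_lit 14179347) (nat_lit 0) (nat_lit 0) (nat_lit 0x204bfb978a) (nat_lit 2081570445),
  Rx.mk (nat_lit 445) (nat_lit 5) (nat_lit 7) (nat_lit 6) (nat_lit 7) (nat_lit 163) (nat_lit 297) r2_163 r10_297 (nat_lit 0) (nat_lit 0) (nat_lit 0) (nat_lit 0x2000efab8c) (nat_lit 2147483648),
  Rx.mk (nat_lit 446) (nat_lit 6) (nat_lit 7) (nat_lit 6) (nat_lit 7) (nat_lit 164) (nat_lit 298) r2_164 r10_298 (nat_lit 0) (nat_lit 0) (nat_lit 0) (nat_lit 0x2000efab8c) (nat_lit 2147483648),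
  Rx.mk (nat_lit 508) (nat_lit 4) (nat_lit 7) (nat_lit 7) (nat_lit 6) (nat_lit 165) (nat_lit 293) r2_165 r10_293 (nat_lit 39267561) (nat_lit 0) (nat_lit 0) (nat_lit 0x2000efab8c) (nat_lit 2186751209),
  Rx.mk (nat_lit 509) (nat_lit 5) (nat_lit 7) (nat_lit 7) (nat_lit 7) (nat_lit 166) (nat_lit 296) r2_166 r10_296 (nat_lit 0) (nat_lit 0) (nat_lit 0) (nat_lit 0x2000efab8c) (nat_lit 2147483648)]
noncomputable def e40_55 : List Rx := [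
  Rx.mk (nat_lit 284) (nat_lit 4) (nat_lit 3) (nat_lit 4) (nat_lit 2) (nat_lit 246) (nat_lit 309) r2_246 r11_309 (nat_lit 22820811) (nat_lit 0) (nat_lit 31106767) (nat_lit 0x1d0e9a7508) (nat_lit 3022694326),
  Rx.mk (nat_lit 285) (nat_lit 5) (nat_lit 3) (nat_lit 4) (nat_lit 3) (nat_lit 247) (nat_lit 313) r2_247 r11_313 (nat_lit 0) (nat_lit 0) (nat_lit 54151128) (nat_lit 0x1fc2c80c5a) (nat_lit 2268968626),
  Rx.mk (nat_lit 316) (nat_lit 4) (nat_lit 7) (nat_lit 4) (nat_lit 2) (nat_lit 241) (nat_lit 308) r2_241 r11_308 (nat_lit 20741837) (nat_lit 0) (nat_lit 61795135) (nat_lit 0x1cdc12f22c) (nat_lit 3106402720),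
  Rx.mk (nat_lit 317) (nat_lit 5) (nat_lit 7) (nat_lit 4) (nat_lit 3) (nat_lit 242) (nat_lit 312) r2_242 r11_312 (nat_lit 0) (nat_lit 0) (nat_lit 79398683) (nat_lit 0x1f6a1dc37e) (nat_lit 2390750681),
  Rx.mk (nat_lit 444) (nat_lit 4) (nat_lit 7) (nat_lit 6) (nat_lit 6) (nat_lit 243) (nat_lit 311) r2_243 r11_311 (nat_lit 7695090) (nat_lit 0) (nat_lit 0) (nat_lit 0x21907ca902) (nat_lit 1730429388),
  Rx.mk (nat_lit 445) (nat_lit 5) (nat_lit 7) (nat_lit 6) (nat_lit 7) (nat_lit 244) (nat_lit 315) r2_244 r11_315 (nat_lit 0) (nat_lit 0) (nat_lit 0) (nat_lit 0x2050a27a60) (nat_lit 2062569948),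
  Rx.mk (nat_lit 446) (nat_lit 6) (nat_lit 7) (nat_lit 6) (nat_lit 7) (nat_lit 245) (nat_lit 317) r2_245 r11_317 (nat_lit 0) (nat_lit 0) (nat_lit 0) (nat_lit 0x20ef1644d8) (nat_lit 1894131648),
  Rx.mk (nat_lit 476) (nat_lit 4) (nat_lit 3) (nat_lit 7) (nat_lit 6) (nat_lit 248) (nat_lit 310) r2_248 r11_310 (nat_lit 39267561) (nat_lit 0) (nat_lit 0) (nat_lit 0x2000efab8c) (nat_lit 2186751209),
  Rx.mk (nat_lit 477) (nat_lit 5) (nat_lit 3) (nat_lit 7) (nat_lit 7) (nat_lit 249) (nat_lit 314) r2_249 r11_314 (nat_lit 0) (nat_lit 0) (nat_lit 0) (nat_lit 0x2000efab8c) (nat_lit 2147483648),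
  Rx.mk (nat_lit 479) (nat_lit 7) (nat_lit 3) (nat_lit 7) (nat_lit 7) (nat_lit 250) (nat_lit 316) r2_250 r11_316 (nat_lit 0) (nat_lit 0) (nat_lit 0) (nat_lit 0x2000efab8c) (nat_lit 2147483648)]
noncomputable def e40_56 : List Rx := [
  Rx.mk (nat_lit 477) (nat_lit 5) (nat_lit 3) (nat_lit 7) (nat_lit 7) (nat_lit 58) (nat_lit 14) r2_58 r5_14 (nat_lit 0) (nat_lit 0) (nat_lit 0) (nat_lit 0x2000efab8c) (nat_lit 2147483648),
  Rx.mk (nat_lit 509) (nat_lit 5) (nat_lit 7) (nat_lit 7) (nat_lit 7) (nat_lit 57) (nat_lit 15) r2_57 r5_15 (nat_lit 0) (nat_lit 0) (nat_lit 0) (nat_lit 0x2028e34acc) (nat_lit 2104741348)]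
noncomputable def e40_57 : List Rx := [
  Rx.mk (nat_lit 509) (nat_lit 5) (nat_lit 7) (nat_lit 7) (nat_lit 7) (nat_lit 167) (nat_lit 5) r2_167 r11_5 (nat_lit 0) (nat_lit 0) (nat_lit 0) (nat_lit 0x2000efab8c) (nat_lit 2147483648)]
noncomputable def e40 : List (List Rx) := [e40_0, e40_1, e40_2, e40_3, e40_4, e40_5, e40_6, e40_7, e40_8, e40_9, e40_10, e40_11, e40_12, e40_13, e40_14, e40_15, e40_16, e40_17, e40_18, e40_19, e40_20, e40_21, e40_22, e40_23, e40_24, e40_25, e40_26, e40_27, e40_28, e40_29, e40_30, e40_31, e40_32, e40_33, e40_34, e40_35, e40_36, e40_37, e40_38, e40_39, e40_40, e40_41, e40_42, e40_43, e40_44, e40_45, e40_46, e40_47, e40_48, e40_49, e40_50, e40_51, e40_52, e40_53, e40_54, e40_55, e40_56, e40_57]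

end Pool.Agent.AKXS_42_46_VA
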