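import Pool.Agent.AKXS_42_46_VA.P0
import Pool.Agent.AKXS_42_46_VA.P1
import Pool.Agent.AKXS_42_46_VA.P2
import Pool.Agent.AKXS_42_46_VA.P3
import Pool.Agent.AKXS_42_46_VA.P4
import Pool.Agent.AKXS_42_46_VA.P5
import Pool.Agent.AKXS_42_46_VA.P6
import Pool.Agent.AKXS_42_46_VA.P7
import Pool.Agent.AKXS_42_46_VA.P8
import Pool.Agent.AKXS_42_46_VA.P9
import Pool.Agent.AKXS_42_46_VA.P10
import Pool.Agent.AKXS_42_46_VA.P11
import Pool.Agent.AKXS_42_46_VA.P12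
import Pool.Agent.AKXS_42_46_VA.Pq
import Pool.Agent.AKX.Split

set_option autoImplicit false

namespace Pool.Agent.AKXS_42_46_VA

open Pool.Agent.AKX Pool.Agent.AKU

theorem nb0 : Pool.Agent.AKX.lk D.nbP (nat_lit 0) = nat_lit 360 := by decide +kernel
theorem nb0' : Pool.Agent.AKX.lk D.nbP 0 = 360 := nb0
theorem ln0 : (nthR [] D.BL (nat_lit 0)).length = nat_lit 360 := by decide +kernel
theorem ln0' : (nthR [] D.BL 0).length = 360 := ln0

theorem b0 : PsdB P0 D.sb (Pool.Agent.AKX.lk D.nbP 0) D.nk D.off D.offe (nthR [] D.BL 0)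
    (fun k => nthL D.lamL (3 * 0 + k)) (fun k => nthL D.evL (3 * 0 + k)) := by
  rw [nb0']
  obtain ⟨z, y0, y1, y2, y3, y4, y5, v0, v1, v2, v3, v4, v5, v6, v7, v8⟩ := p0
  refine ⟨z, fun i hi => ?_, ln0', fun i hi => ?_, fun i hi hm => ?_⟩
  · have hi2 : i < 360 := hi
    by_cases h0 : i < 60
    · exact ⟨_, y0, mem_rg.2 (show 0 ≤ i ∧ i < 0 + 60 from by omega)⟩
    by_cases h1 : i < 120
    · exact ⟨_, y1, mem_rg.2 (show 60 ≤ i ∧ i < 60 + 60 from by omega)⟩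
    by_cases h2 : i < 180
    · exact ⟨_, y2, mem_rg.2 (show 120 ≤ i ∧ i < 120 + 60 from by omega)⟩
    by_cases h3 : i < 240
    · exact ⟨_, y3, mem_rg.2 (show 180 ≤ i ∧ i < 180 + 60 from by omega)⟩
    by_cases h4 : i < 300
    · exact ⟨_, y4, mem_rg.2 (show 240 ≤ i ∧ i < 240 + 60 from by omega)⟩
    exact ⟨_, y5, mem_rg.2 (show 300 ≤ i ∧ i < 300 + 60 from by omega)⟩
  · have hi2 : i < 360 := hi
    by_cases h0 : i < 40
    · exact ⟨_, v0, mem_rg.2 (show 0 ≤ i ∧ i < 0 + 40 from by omega)⟩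
    by_cases h1 : i < 80
    · exact ⟨_, v1, mem_rg.2 (show 40 ≤ i ∧ i < 40 + 40 from by omega)⟩
    by_cases h2 : i < 120
    · exact ⟨_, v2, mem_rg.2 (show 80 ≤ i ∧ i < 80 + 40 from by omega)⟩
    by_cases h3 : i < 160
    · exact ⟨_, v3, mem_rg.2 (show 120 ≤ i ∧ i < 120 + 40 from by omega)⟩
    by_cases h4 : i < 200
    · exact ⟨_, v4, mem_rg.2 (show 160 ≤ i ∧ i < 160 + 40 from by omega)⟩
    by_cases h5 : i < 240
    · exact ⟨_, v5, mem_rg.2 (show 200 ≤ i ∧ i < 200 + 40 from by omega)⟩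
    by_cases h6 : i < 280
    · exact ⟨_, v6, mem_rg.2 (show 240 ≤ i ∧ i < 240 + 40 from by omega)⟩
    by_cases h7 : i < 320
    · exact ⟨_, v7, mem_rg.2 (show 280 ≤ i ∧ i < 280 + 40 from by omega)⟩
    exact ⟨_, v8, mem_rg.2 (show 320 ≤ i ∧ i < 320 + 40 from by omega)⟩
  · have hi2 : i < 360 := hi
    have hm2 : 360 ≤ i := hm
    omega

theorem nb1 : Pool.Agent.AKX.lk D.nbP (nat_lit 1) = nat_lit 324 := by decide +kernel
theorem nb1' : Pool.Agent.AKX.lk D.nbP 1 = 324 := nb1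
theorem ln1 : (nthR [] D.BL (nat_lit 1)).length = nat_lit 324 := by decide +kernel
theorem ln1' : (nthR [] D.BL 1).length = 324 := ln1

theorem b1 : PsdB P1 D.sb (Pool.Agent.AKX.lk D.nbP 1) D.nk D.off D.offe (nthR [] D.BL 1)
    (fun k => nthL D.lamL (3 * 1 + k)) (fun k => nthL D.evL (3 * 1 + k)) := by
  rw [nb1']
  obtain ⟨z, y0, y1, y2, y3, y4, y5, v0, v1, v2, v3, v4, v5, v6, v7, v8⟩ := p1
  refine ⟨z, fun i hi => ?_, ln1', fun i hi => ?_, fun i hi hm => ?_⟩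
  · have hi2 : i < 324 := hi
    by_cases h0 : i < 60
    · exact ⟨_, y0, mem_rg.2 (show 0 ≤ i ∧ i < 0 + 60 from by omega)⟩
    by_cases h1 : i < 120
    · exact ⟨_, y1, mem_rg.2 (show 60 ≤ i ∧ i < 60 + 60 from by omega)⟩
    by_cases h2 : i < 180
    · exact ⟨_, y2, mem_rg.2 (show 120 ≤ i ∧ i < 120 + 60 from by omega)⟩
    by_cases h3 : i < 240
    · exact ⟨_, y3, mem_rg.2 (show 180 ≤ i ∧ i < 180 + 60 from by omega)⟩
    by_cases h4 : i < 300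
    · exact ⟨_, y4, mem_rg.2 (show 240 ≤ i ∧ i < 240 + 60 from by omega)⟩
    exact ⟨_, y5, mem_rg.2 (show 300 ≤ i ∧ i < 300 + 24 from by omega)⟩
  · have hi2 : i < 324 := hi
    by_cases h0 : i < 40
    · exact ⟨_, v0, mem_rg.2 (show 0 ≤ i ∧ i < 0 + 40 from by omega)⟩
    by_cases h1 : i < 80
    · exact ⟨_, v1, mem_rg.2 (show 40 ≤ i ∧ i < 40 + 40 from by omega)⟩
    by_cases h2 : i < 120
    · exact ⟨_, v2, mem_rg.2 (show 80 ≤ i ∧ i < 80 + 40 from by omega)⟩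
    by_cases h3 : i < 160
    · exact ⟨_, v3, mem_rg.2 (show 120 ≤ i ∧ i < 120 + 40 from by omega)⟩
    by_cases h4 : i < 200
    · exact ⟨_, v4, mem_rg.2 (show 160 ≤ i ∧ i < 160 + 40 from by omega)⟩
    by_cases h5 : i < 240
    · exact ⟨_, v5, mem_rg.2 (show 200 ≤ i ∧ i < 200 + 40 from by omega)⟩
    by_cases h6 : i < 280
    · exact ⟨_, v6, mem_rg.2 (show 240 ≤ i ∧ i < 240 + 40 from by omega)⟩
    by_cases h7 : i < 320
    · exact ⟨_, v7, mem_rg.2 (show 280 ≤ i ∧ i < 280 + 40 from by omega)⟩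
    exact ⟨_, v8, mem_rg.2 (show 320 ≤ i ∧ i < 320 + 4 from by omega)⟩
  · have hi2 : i < 324 := hi
    have hm2 : 324 ≤ i := hm
    omega

theorem nb2 : Pool.Agent.AKX.lk D.nbP (nat_lit 2) = nat_lit 374 := by decide +kernel
theorem nb2' : Pool.Agent.AKX.lk D.nbP 2 = 374 := nb2
theorem ln2 : (nthR [] D.BL (nat_lit 2)).length = nat_lit 374 := by decide +kernel
theorem ln2' : (nthR [] D.BL 2).length = 374 := ln2

theorem b2 : PsdB P2 D.sb (Pool.Agent.AKX.lk D.nbP 2) D.nk D.off D.offe (nthR [] D.BL 2)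
    (fun k => nthL D.lamL (3 * 2 + k)) (fun k => nthL D.evL (3 * 2 + k)) := by
  rw [nb2']
  obtain ⟨z, y0, y1, y2, y3, y4, y5, y6, v0, v1, v2, v3, v4, v5, v6, v7, v8, v9⟩ := p2
  refine ⟨z, fun i hi => ?_, ln2', fun i hi => ?_, fun i hi hm => ?_⟩
  · have hi2 : i < 374 := hi
    by_cases h0 : i < 60
    · exact ⟨_, y0, mem_rg.2 (show 0 ≤ i ∧ i < 0 + 60 from by omega)⟩
    by_cases h1 : i < 120
    · exact ⟨_, y1, mem_rg.2 (show 60 ≤ i ∧ i < 60 + 60 from by omega)⟩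
    by_cases h2 : i < 180
    · exact ⟨_, y2, mem_rg.2 (show 120 ≤ i ∧ i < 120 + 60 from by omega)⟩
    by_cases h3 : i < 240
    · exact ⟨_, y3, mem_rg.2 (show 180 ≤ i ∧ i < 180 + 60 from by omega)⟩
    by_cases h4 : i < 300
    · exact ⟨_, y4, mem_rg.2 (show 240 ≤ i ∧ i < 240 + 60 from by omega)⟩
    by_cases h5 : i < 360
    · exact ⟨_, y5, mem_rg.2 (show 300 ≤ i ∧ i < 300 + 60 from by omega)⟩
    exact ⟨_, y6, mem_rg.2 (show 360 ≤ i ∧ i < 360 + 14 from by omega)⟩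
  · have hi2 : i < 374 := hi
    by_cases h0 : i < 40
    · exact ⟨_, v0, mem_rg.2 (show 0 ≤ i ∧ i < 0 + 40 from by omega)⟩
    by_cases h1 : i < 80
    · exact ⟨_, v1, mem_rg.2 (show 40 ≤ i ∧ i < 40 + 40 from by omega)⟩
    by_cases h2 : i < 120
    · exact ⟨_, v2, mem_rg.2 (show 80 ≤ i ∧ i < 80 + 40 from by omega)⟩
    by_cases h3 : i < 160
    · exact ⟨_, v3, mem_rg.2 (show 120 ≤ i ∧ i < 120 + 40 from by omega)⟩
    by_cases h4 : i < 200
    · exact ⟨_, v4, mem_rg.2 (show 160 ≤ i ∧ i < 160 + 40 from by omega)⟩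
    by_cases h5 : i < 240
    · exact ⟨_, v5, mem_rg.2 (show 200 ≤ i ∧ i < 200 + 40 from by omega)⟩
    by_cases h6 : i < 280
    · exact ⟨_, v6, mem_rg.2 (show 240 ≤ i ∧ i < 240 + 40 from by omega)⟩
    by_cases h7 : i < 320
    · exact ⟨_, v7, mem_rg.2 (show 280 ≤ i ∧ i < 280 + 40 from by omega)⟩
    by_cases h8 : i < 360
    · exact ⟨_, v8, mem_rg.2 (show 320 ≤ i ∧ i < 320 + 40 from by omega)⟩
    exact ⟨_, v9, mem_rg.2 (show 360 ≤ i ∧ i < 360 + 14 from by omega)⟩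
  · have hi2 : i < 374 := hi
    have hm2 : 374 ≤ i := hm
    omega

theorem nb3 : Pool.Agent.AKX.lk D.nbP (nat_lit 3) = nat_lit 360 := by decide +kernel
theorem nb3' : Pool.Agent.AKX.lk D.nbP 3 = 360 := nb3
theorem ln3 : (nthR [] D.BL (nat_lit 3)).length = nat_lit 360 := by decide +kernel
theorem ln3' : (nthR [] D.BL 3).length = 360 := ln3

theorem b3 : PsdB P3 D.sb (Pool.Agent.AKX.lk D.nbP 3) D.nk D.off D.offe (nthR [] D.BL 3)
    (fun k => nthL D.lamL (3 * 3 + k)) (fun k => nthL D.evL (3 * 3 + k)) := by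
  rw [nb3']
  obtain ⟨z, y0, y1, y2, y3, y4, y5, v0, v1, v2, v3, v4, v5, v6, v7, v8⟩ := p3
  refine ⟨z, fun i hi => ?_, ln3', fun i hi => ?_, fun i hi hm => ?_⟩
  · have hi2 : i < 360 := hi
    by_cases h0 : i < 60
    · exact ⟨_, y0, mem_rg.2 (show 0 ≤ i ∧ i < 0 + 60 from by omega)⟩
    by_cases h1 : i < 120
    · exact ⟨_, y1, mem_rg.2 (show 60 ≤ i ∧ i < 60 + 60 from by omega)⟩
    by_cases h2 : i < 180
    · exact ⟨_, y2, mem_rg.2 (show 120 ≤ i ∧ i < 120 + 60 from by omega)⟩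
    by_cases h3 : i < 240
    · exact ⟨_, y3, mem_rg.2 (show 180 ≤ i ∧ i < 180 + 60 from by omega)⟩
    by_cases h4 : i < 300
    · exact ⟨_, y4, mem_rg.2 (show 240 ≤ i ∧ i < 240 + 60 from by omega)⟩
    exact ⟨_, y5, mem_rg.2 (show 300 ≤ i ∧ i < 300 + 60 from by omega)⟩
  · have hi2 : i < 360 := hi
    by_cases h0 : i < 40
    · exact ⟨_, v0, mem_rg.2 (show 0 ≤ i ∧ i < 0 + 40 from by omega)⟩
    by_cases h1 : i < 80
    · exact ⟨_, v1, mem_rg.2 (show 40 ≤ i ∧ i < 40 + 40 from by omega)⟩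
    by_cases h2 : i < 120
    · exact ⟨_, v2, mem_rg.2 (show 80 ≤ i ∧ i < 80 + 40 from by omega)⟩
    by_cases h3 : i < 160
    · exact ⟨_, v3, mem_rg.2 (show 120 ≤ i ∧ i < 120 + 40 from by omega)⟩
    by_cases h4 : i < 200
    · exact ⟨_, v4, mem_rg.2 (show 160 ≤ i ∧ i < 160 + 40 from by omega)⟩
    by_cases h5 : i < 240
    · exact ⟨_, v5, mem_rg.2 (show 200 ≤ i ∧ i < 200 + 40 from by omega)⟩
    by_cases h6 : i < 280
    · exact ⟨_, v6, mem_rg.2 (show 240 ≤ i ∧ i < 240 + 40 from by omega)⟩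
    by_cases h7 : i < 320
    · exact ⟨_, v7, mem_rg.2 (show 280 ≤ i ∧ i < 280 + 40 from by omega)⟩
    exact ⟨_, v8, mem_rg.2 (show 320 ≤ i ∧ i < 320 + 40 from by omega)⟩
  · have hi2 : i < 360 := hi
    have hm2 : 360 ≤ i := hm
    omega

theorem nb4 : Pool.Agent.AKX.lk D.nbP (nat_lit 4) = nat_lit 402 := by decide +kernel
theorem nb4' : Pool.Agent.AKX.lk D.nbP 4 = 402 := nb4
theorem ln4 : (nthR [] D.BL (nat_lit 4)).length = nat_lit 402 := by decide +kernel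
theorem ln4' : (nthR [] D.BL 4).length = 402 := ln4

theorem b4 : PsdB P4 D.sb (Pool.Agent.AKX.lk D.nbP 4) D.nk D.off D.offe (nthR [] D.BL 4)
    (fun k => nthL D.lamL (3 * 4 + k)) (fun k => nthL D.evL (3 * 4 + k)) := by
  rw [nb4']
  obtain ⟨z, y0, y1, y2, y3, y4, y5, y6, v0, v1, v2, v3, v4, v5, v6, v7, v8, v9, v10⟩ := p4
  refine ⟨z, fun i hi => ?_, ln4', fun i hi => ?_, fun i hi hm => ?_⟩
  · have hi2 : i < 402 := hi
    by_cases h0 : i < 60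
    · exact ⟨_, y0, mem_rg.2 (show 0 ≤ i ∧ i < 0 + 60 from by omega)⟩
    by_cases h1 : i < 120
    · exact ⟨_, y1, mem_rg.2 (show 60 ≤ i ∧ i < 60 + 60 from by omega)⟩
    by_cases h2 : i < 180
    · exact ⟨_, y2, mem_rg.2 (show 120 ≤ i ∧ i < 120 + 60 from by omega)⟩
    by_cases h3 : i < 240
    · exact ⟨_, y3, mem_rg.2 (show 180 ≤ i ∧ i < 180 + 60 from by omega)⟩
    by_cases h4 : i < 300
    · exact ⟨_, y4, mem_rg.2 (show 240 ≤ i ∧ i < 240 + 60 from by omega)⟩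
    by_cases h5 : i < 360
    · exact ⟨_, y5, mem_rg.2 (show 300 ≤ i ∧ i < 300 + 60 from by omega)⟩
    exact ⟨_, y6, mem_rg.2 (show 360 ≤ i ∧ i < 360 + 42 from by omega)⟩
  · have hi2 : i < 402 := hi
    by_cases h0 : i < 40
    · exact ⟨_, v0, mem_rg.2 (show 0 ≤ i ∧ i < 0 + 40 from by omega)⟩
    by_cases h1 : i < 80
    · exact ⟨_, v1, mem_rg.2 (show 40 ≤ i ∧ i < 40 + 40 from by omega)⟩
    by_cases h2 : i < 120
    · exact ⟨_, v2, mem_rg.2 (show 80 ≤ i ∧ i < 80 + 40 from by omega)⟩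
    by_cases h3 : i < 160
    · exact ⟨_, v3, mem_rg.2 (show 120 ≤ i ∧ i < 120 + 40 from by omega)⟩
    by_cases h4 : i < 200
    · exact ⟨_, v4, mem_rg.2 (show 160 ≤ i ∧ i < 160 + 40 from by omega)⟩
    by_cases h5 : i < 240
    · exact ⟨_, v5, mem_rg.2 (show 200 ≤ i ∧ i < 200 + 40 from by omega)⟩
    by_cases h6 : i < 280
    · exact ⟨_, v6, mem_rg.2 (show 240 ≤ i ∧ i < 240 + 40 from by omega)⟩
    by_cases h7 : i < 320
    · exact ⟨_, v7, mem_rg.2 (show 280 ≤ i ∧ i < 280 + 40 from by omega)⟩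
    by_cases h8 : i < 360
    · exact ⟨_, v8, mem_rg.2 (show 320 ≤ i ∧ i < 320 + 40 from by omega)⟩
    by_cases h9 : i < 400
    · exact ⟨_, v9, mem_rg.2 (show 360 ≤ i ∧ i < 360 + 40 from by omega)⟩
    exact ⟨_, v10, mem_rg.2 (show 400 ≤ i ∧ i < 400 + 2 from by omega)⟩
  · have hi2 : i < 402 := hi
    have hm2 : 402 ≤ i := hm
    omega

theorem nb5 : Pool.Agent.AKX.lk D.nbP (nat_lit 5) = nat_lit 324 := by decide +kernel
theorem nb5' : Pool.Agent.AKX.lk D.nbP 5 = 324 := nb5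
theorem ln5 : (nthR [] D.BL (nat_lit 5)).length = nat_lit 324 := by decide +kernel
theorem ln5' : (nthR [] D.BL 5).length = 324 := ln5

theorem b5 : PsdB P5 D.sb (Pool.Agent.AKX.lk D.nbP 5) D.nk D.off D.offe (nthR [] D.BL 5)
    (fun k => nthL D.lamL (3 * 5 + k)) (fun k => nthL D.evL (3 * 5 + k)) := by
  rw [nb5']
  obtain ⟨z, y0, y1, y2, y3, y4, y5, v0, v1, v2, v3, v4, v5, v6, v7, v8⟩ := p5
  refine ⟨z, fun i hi => ?_, ln5', fun i hi => ?_, fun i hi hm => ?_⟩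
  · have hi2 : i < 324 := hi
    by_cases h0 : i < 60
    · exact ⟨_, y0, mem_rg.2 (show 0 ≤ i ∧ i < 0 + 60 from by omega)⟩
    by_cases h1 : i < 120
    · exact ⟨_, y1, mem_rg.2 (show 60 ≤ i ∧ i < 60 + 60 from by omega)⟩
    by_cases h2 : i < 180
    · exact ⟨_, y2, mem_rg.2 (show 120 ≤ i ∧ i < 120 + 60 from by omega)⟩
    by_cases h3 : i < 240
    · exact ⟨_, y3, mem_rg.2 (show 180 ≤ i ∧ i < 180 + 60 from by omega)⟩
    by_cases h4 : i < 300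
    · exact ⟨_, y4, mem_rg.2 (show 240 ≤ i ∧ i < 240 + 60 from by omega)⟩
    exact ⟨_, y5, mem_rg.2 (show 300 ≤ i ∧ i < 300 + 24 from by omega)⟩
  · have hi2 : i < 324 := hi
    by_cases h0 : i < 40
    · exact ⟨_, v0, mem_rg.2 (show 0 ≤ i ∧ i < 0 + 40 from by omega)⟩
    by_cases h1 : i < 80
    · exact ⟨_, v1, mem_rg.2 (show 40 ≤ i ∧ i < 40 + 40 from by omega)⟩
    by_cases h2 : i < 120
    · exact ⟨_, v2, mem_rg.2 (show 80 ≤ i ∧ i < 80 + 40 from by omega)⟩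
    by_cases h3 : i < 160
    · exact ⟨_, v3, mem_rg.2 (show 120 ≤ i ∧ i < 120 + 40 from by omega)⟩
    by_cases h4 : i < 200
    · exact ⟨_, v4, mem_rg.2 (show 160 ≤ i ∧ i < 160 + 40 from by omega)⟩
    by_cases h5 : i < 240
    · exact ⟨_, v5, mem_rg.2 (show 200 ≤ i ∧ i < 200 + 40 from by omega)⟩
    by_cases h6 : i < 280
    · exact ⟨_, v6, mem_rg.2 (show 240 ≤ i ∧ i < 240 + 40 from by omega)⟩
    by_cases h7 : i < 320
    · exact ⟨_, v7, mem_rg.2 (show 280 ≤ i ∧ i < 280 + 40 from by omega)⟩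
    exact ⟨_, v8, mem_rg.2 (show 320 ≤ i ∧ i < 320 + 4 from by omega)⟩
  · have hi2 : i < 324 := hi
    have hm2 : 324 ≤ i := hm
    omega

theorem nb6 : Pool.Agent.AKX.lk D.nbP (nat_lit 6) = nat_lit 374 := by decide +kernel
theorem nb6' : Pool.Agent.AKX.lk D.nbP 6 = 374 := nb6
theorem ln6 : (nthR [] D.BL (nat_lit 6)).length = nat_lit 374 := by decide +kernel
theorem ln6' : (nthR [] D.BL 6).length = 374 := ln6

theorem b6 : PsdB P6 D.sb (Pool.Agent.AKX.lk D.nbP 6) D.nk D.off D.offe (nthR [] D.BL 6)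
    (fun k => nthL D.lamL (3 * 6 + k)) (fun k => nthL D.evL (3 * 6 + k)) := by
  rw [nb6']
  obtain ⟨z, y0, y1, y2, y3, y4, y5, y6, v0, v1, v2, v3, v4, v5, v6, v7, v8, v9⟩ := p6
  refine ⟨z, fun i hi => ?_, ln6', fun i hi => ?_, fun i hi hm => ?_⟩
  · have hi2 : i < 374 := hi
    by_cases h0 : i < 60
    · exact ⟨_, y0, mem_rg.2 (show 0 ≤ i ∧ i < 0 + 60 from by omega)⟩
    by_cases h1 : i < 120
    · exact ⟨_, y1, mem_rg.2 (show 60 ≤ i ∧ i < 60 + 60 from by omega)⟩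
    by_cases h2 : i < 180
    · exact ⟨_, y2, mem_rg.2 (show 120 ≤ i ∧ i < 120 + 60 from by omega)⟩
    by_cases h3 : i < 240
    · exact ⟨_, y3, mem_rg.2 (show 180 ≤ i ∧ i < 180 + 60 from by omega)⟩
    by_cases h4 : i < 300
    · exact ⟨_, y4, mem_rg.2 (show 240 ≤ i ∧ i < 240 + 60 from by omega)⟩
    by_cases h5 : i < 360
    · exact ⟨_, y5, mem_rg.2 (show 300 ≤ i ∧ i < 300 + 60 from by omega)⟩
    exact ⟨_, y6, mem_rg.2 (show 360 ≤ i ∧ i < 360 + 14 from by omega)⟩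
  · have hi2 : i < 374 := hi
    by_cases h0 : i < 40
    · exact ⟨_, v0, mem_rg.2 (show 0 ≤ i ∧ i < 0 + 40 from by omega)⟩
    by_cases h1 : i < 80
    · exact ⟨_, v1, mem_rg.2 (show 40 ≤ i ∧ i < 40 + 40 from by omega)⟩
    by_cases h2 : i < 120
    · exact ⟨_, v2, mem_rg.2 (show 80 ≤ i ∧ i < 80 + 40 from by omega)⟩
    by_cases h3 : i < 160
    · exact ⟨_, v3, mem_rg.2 (show 120 ≤ i ∧ i < 120 + 40 from by omega)⟩
    by_cases h4 : i < 200
    · exact ⟨_, v4, mem_rg.2 (show 160 ≤ i ∧ i < 160 + 40 from by omega)⟩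
    by_cases h5 : i < 240
    · exact ⟨_, v5, mem_rg.2 (show 200 ≤ i ∧ i < 200 + 40 from by omega)⟩
    by_cases h6 : i < 280
    · exact ⟨_, v6, mem_rg.2 (show 240 ≤ i ∧ i < 240 + 40 from by omega)⟩
    by_cases h7 : i < 320
    · exact ⟨_, v7, mem_rg.2 (show 280 ≤ i ∧ i < 280 + 40 from by omega)⟩
    by_cases h8 : i < 360
    · exact ⟨_, v8, mem_rg.2 (show 320 ≤ i ∧ i < 320 + 40 from by omega)⟩
    exact ⟨_, v9, mem_rg.2 (show 360 ≤ i ∧ i < 360 + 14 from by omega)⟩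
  · have hi2 : i < 374 := hi
    have hm2 : 374 ≤ i := hm
    omega

theorem nb7 : Pool.Agent.AKX.lk D.nbP (nat_lit 7) = nat_lit 456 := by decide +kernel
theorem nb7' : Pool.Agent.AKX.lk D.nbP 7 = 456 := nb7
theorem ln7 : (nthR [] D.BL (nat_lit 7)).length = nat_lit 456 := by decide +kernel
theorem ln7' : (nthR [] D.BL 7).length = 456 := ln7

theorem b7 : PsdB P7 D.sb (Pool.Agent.AKX.lk D.nbP 7) D.nk D.off D.offe (nthR [] D.BL 7)
    (fun k => nthL D.lamL (3 * 7 + k)) (fun k => nthL D.evL (3 * 7 + k)) := by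
  rw [nb7']
  obtain ⟨z, y0, y1, y2, y3, y4, y5, y6, y7, v0, v1, v2, v3, v4, v5, v6, v7, v8, v9, v10, v11⟩ := p7
  refine ⟨z, fun i hi => ?_, ln7', fun i hi => ?_, fun i hi hm => ?_⟩
  · have hi2 : i < 456 := hi
    by_cases h0 : i < 60
    · exact ⟨_, y0, mem_rg.2 (show 0 ≤ i ∧ i < 0 + 60 from by omega)⟩
    by_cases h1 : i < 120
    · exact ⟨_, y1, mem_rg.2 (show 60 ≤ i ∧ i < 60 + 60 from by omega)⟩
    by_cases h2 : i < 180
    · exact ⟨_, y2, mem_rg.2 (show 120 ≤ i ∧ i < 120 + 60 from by omega)⟩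
    by_cases h3 : i < 240
    · exact ⟨_, y3, mem_rg.2 (show 180 ≤ i ∧ i < 180 + 60 from by omega)⟩
    by_cases h4 : i < 300
    · exact ⟨_, y4, mem_rg.2 (show 240 ≤ i ∧ i < 240 + 60 from by omega)⟩
    by_cases h5 : i < 360
    · exact ⟨_, y5, mem_rg.2 (show 300 ≤ i ∧ i < 300 + 60 from by omega)⟩
    by_cases h6 : i < 420
    · exact ⟨_, y6, mem_rg.2 (show 360 ≤ i ∧ i < 360 + 60 from by omega)⟩
    exact ⟨_, y7, mem_rg.2 (show 420 ≤ i ∧ i < 420 + 36 from by omega)⟩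
  · have hi2 : i < 456 := hi
    by_cases h0 : i < 40
    · exact ⟨_, v0, mem_rg.2 (show 0 ≤ i ∧ i < 0 + 40 from by omega)⟩
    by_cases h1 : i < 80
    · exact ⟨_, v1, mem_rg.2 (show 40 ≤ i ∧ i < 40 + 40 from by omega)⟩
    by_cases h2 : i < 120
    · exact ⟨_, v2, mem_rg.2 (show 80 ≤ i ∧ i < 80 + 40 from by omega)⟩
    by_cases h3 : i < 160
    · exact ⟨_, v3, mem_rg.2 (show 120 ≤ i ∧ i < 120 + 40 from by omega)⟩
    by_cases h4 : i < 200
    · exact ⟨_, v4, mem_rg.2 (show 160 ≤ i ∧ i < 160 + 40 from by omega)⟩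
    by_cases h5 : i < 240
    · exact ⟨_, v5, mem_rg.2 (show 200 ≤ i ∧ i < 200 + 40 from by omega)⟩
    by_cases h6 : i < 280
    · exact ⟨_, v6, mem_rg.2 (show 240 ≤ i ∧ i < 240 + 40 from by omega)⟩
    by_cases h7 : i < 320
    · exact ⟨_, v7, mem_rg.2 (show 280 ≤ i ∧ i < 280 + 40 from by omega)⟩
    by_cases h8 : i < 360
    · exact ⟨_, v8, mem_rg.2 (show 320 ≤ i ∧ i < 320 + 40 from by omega)⟩
    by_cases h9 : i < 400
    · exact ⟨_, v9, mem_rg.2 (show 360 ≤ i ∧ i < 360 + 40 from by omega)⟩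
    by_cases h10 : i < 440
    · exact ⟨_, v10, mem_rg.2 (show 400 ≤ i ∧ i < 400 + 40 from by omega)⟩
    exact ⟨_, v11, mem_rg.2 (show 440 ≤ i ∧ i < 440 + 16 from by omega)⟩
  · have hi2 : i < 456 := hi
    have hm2 : 456 ≤ i := hm
    omega

theorem nb8 : Pool.Agent.AKX.lk D.nbP (nat_lit 8) = nat_lit 375 := by decide +kernel
theorem nb8' : Pool.Agent.AKX.lk D.nbP 8 = 375 := nb8
theorem ln8 : (nthR [] D.BL (nat_lit 8)).length = nat_lit 375 := by decide +kernel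
theorem ln8' : (nthR [] D.BL 8).length = 375 := ln8

theorem b8 : PsdB P8 D.sb (Pool.Agent.AKX.lk D.nbP 8) D.nk D.off D.offe (nthR [] D.BL 8)
    (fun k => nthL D.lamL (3 * 8 + k)) (fun k => nthL D.evL (3 * 8 + k)) := by
  rw [nb8']
  obtain ⟨z, y0, y1, y2, y3, y4, y5, y6, v0, v1, v2, v3, v4, v5, v6, v7, v8, v9⟩ := p8
  refine ⟨z, fun i hi => ?_, ln8', fun i hi => ?_, fun i hi hm => ?_⟩
  · have hi2 : i < 375 := hi
    by_cases h0 : i < 60
    · exact ⟨_, y0, mem_rg.2 (show 0 ≤ i ∧ i < 0 + 60 from by omega)⟩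
    by_cases h1 : i < 120
    · exact ⟨_, y1, mem_rg.2 (show 60 ≤ i ∧ i < 60 + 60 from by omega)⟩
    by_cases h2 : i < 180
    · exact ⟨_, y2, mem_rg.2 (show 120 ≤ i ∧ i < 120 + 60 from by omega)⟩
    by_cases h3 : i < 240
    · exact ⟨_, y3, mem_rg.2 (show 180 ≤ i ∧ i < 180 + 60 from by omega)⟩
    by_cases h4 : i < 300
    · exact ⟨_, y4, mem_rg.2 (show 240 ≤ i ∧ i < 240 + 60 from by omega)⟩
    by_cases h5 : i < 360
    · exact ⟨_, y5, mem_rg.2 (show 300 ≤ i ∧ i < 300 + 60 from by omega)⟩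
    exact ⟨_, y6, mem_rg.2 (show 360 ≤ i ∧ i < 360 + 15 from by omega)⟩
  · have hi2 : i < 375 := hi
    by_cases h0 : i < 40
    · exact ⟨_, v0, mem_rg.2 (show 0 ≤ i ∧ i < 0 + 40 from by omega)⟩
    by_cases h1 : i < 80
    · exact ⟨_, v1, mem_rg.2 (show 40 ≤ i ∧ i < 40 + 40 from by omega)⟩
    by_cases h2 : i < 120
    · exact ⟨_, v2, mem_rg.2 (show 80 ≤ i ∧ i < 80 + 40 from by omega)⟩
    by_cases h3 : i < 160
    · exact ⟨_, v3, mem_rg.2 (show 120 ≤ i ∧ i < 120 + 40 from by omega)⟩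
    by_cases h4 : i < 200
    · exact ⟨_, v4, mem_rg.2 (show 160 ≤ i ∧ i < 160 + 40 from by omega)⟩
    by_cases h5 : i < 240
    · exact ⟨_, v5, mem_rg.2 (show 200 ≤ i ∧ i < 200 + 40 from by omega)⟩
    by_cases h6 : i < 280
    · exact ⟨_, v6, mem_rg.2 (show 240 ≤ i ∧ i < 240 + 40 from by omega)⟩
    by_cases h7 : i < 320
    · exact ⟨_, v7, mem_rg.2 (show 280 ≤ i ∧ i < 280 + 40 from by omega)⟩
    by_cases h8 : i < 360
    · exact ⟨_, v8, mem_rg.2 (show 320 ≤ i ∧ i < 320 + 40 from by omega)⟩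
    exact ⟨_, v9, mem_rg.2 (show 360 ≤ i ∧ i < 360 + 15 from by omega)⟩
  · have hi2 : i < 375 := hi
    have hm2 : 375 ≤ i := hm
    omega

theorem nb9 : Pool.Agent.AKX.lk D.nbP (nat_lit 9) = nat_lit 328 := by decide +kernel
theorem nb9' : Pool.Agent.AKX.lk D.nbP 9 = 328 := nb9
theorem ln9 : (nthR [] D.BL (nat_lit 9)).length = nat_lit 328 := by decide +kernel
theorem ln9' : (nthR [] D.BL 9).length = 328 := ln9

theorem b9 : PsdB P9 D.sb (Pool.Agent.AKX.lk D.nbP 9) D.nk D.off D.offe (nthR [] D.BL 9)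
    (fun k => nthL D.lamL (3 * 9 + k)) (fun k => nthL D.evL (3 * 9 + k)) := by
  rw [nb9']
  obtain ⟨z, y0, y1, y2, y3, y4, y5, v0, v1, v2, v3, v4, v5, v6, v7, v8⟩ := p9
  refine ⟨z, fun i hi => ?_, ln9', fun i hi => ?_, fun i hi hm => ?_⟩
  · have hi2 : i < 328 := hi
    by_cases h0 : i < 60
    · exact ⟨_, y0, mem_rg.2 (show 0 ≤ i ∧ i < 0 + 60 from by omega)⟩
    by_cases h1 : i < 120
    · exact ⟨_, y1, mem_rg.2 (show 60 ≤ i ∧ i < 60 + 60 from by omega)⟩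
    by_cases h2 : i < 180
    · exact ⟨_, y2, mem_rg.2 (show 120 ≤ i ∧ i < 120 + 60 from by omega)⟩
    by_cases h3 : i < 240
    · exact ⟨_, y3, mem_rg.2 (show 180 ≤ i ∧ i < 180 + 60 from by omega)⟩
    by_cases h4 : i < 300
    · exact ⟨_, y4, mem_rg.2 (show 240 ≤ i ∧ i < 240 + 60 from by omega)⟩
    exact ⟨_, y5, mem_rg.2 (show 300 ≤ i ∧ i < 300 + 28 from by omega)⟩
  · have hi2 : i < 328 := hi
    by_cases h0 : i < 40
    · exact ⟨_, v0, mem_rg.2 (show 0 ≤ i ∧ i < 0 + 40 from by omega)⟩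
    by_cases h1 : i < 80
    · exact ⟨_, v1, mem_rg.2 (show 40 ≤ i ∧ i < 40 + 40 from by omega)⟩
    by_cases h2 : i < 120
    · exact ⟨_, v2, mem_rg.2 (show 80 ≤ i ∧ i < 80 + 40 from by omega)⟩
    by_cases h3 : i < 160
    · exact ⟨_, v3, mem_rg.2 (show 120 ≤ i ∧ i < 120 + 40 from by omega)⟩
    by_cases h4 : i < 200
    · exact ⟨_, v4, mem_rg.2 (show 160 ≤ i ∧ i < 160 + 40 from by omega)⟩
    by_cases h5 : i < 240
    · exact ⟨_, v5, mem_rg.2 (show 200 ≤ i ∧ i < 200 + 40 from by omega)⟩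
    by_cases h6 : i < 280
    · exact ⟨_, v6, mem_rg.2 (show 240 ≤ i ∧ i < 240 + 40 from by omega)⟩
    by_cases h7 : i < 320
    · exact ⟨_, v7, mem_rg.2 (show 280 ≤ i ∧ i < 280 + 40 from by omega)⟩
    exact ⟨_, v8, mem_rg.2 (show 320 ≤ i ∧ i < 320 + 8 from by omega)⟩
  · have hi2 : i < 328 := hi
    have hm2 : 328 ≤ i := hm
    omega

theorem nb10 : Pool.Agent.AKX.lk D.nbP (nat_lit 10) = nat_lit 380 := by decide +kernel
theorem nb10' : Pool.Agent.AKX.lk D.nbP 10 = 380 := nb10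
theorem ln10 : (nthR [] D.BL (nat_lit 10)).length = nat_lit 380 := by decide +kernel
theorem ln10' : (nthR [] D.BL 10).length = 380 := ln10

theorem b10 : PsdB P10 D.sb (Pool.Agent.AKX.lk D.nbP 10) D.nk D.off D.offe (nthR [] D.BL 10)
    (fun k => nthL D.lamL (3 * 10 + k)) (fun k => nthL D.evL (3 * 10 + k)) := by
  rw [nb10']
  obtain ⟨z, y0, y1, y2, y3, y4, y5, y6, v0, v1, v2, v3, v4, v5, v6, v7, v8, v9⟩ := p10
  refine ⟨z, fun i hi => ?_, ln10', fun i hi => ?_, fun i hi hm => ?_⟩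
  · have hi2 : i < 380 := hi
    by_cases h0 : i < 60
    · exact ⟨_, y0, mem_rg.2 (show 0 ≤ i ∧ i < 0 + 60 from by omega)⟩
    by_cases h1 : i < 120
    · exact ⟨_, y1, mem_rg.2 (show 60 ≤ i ∧ i < 60 + 60 from by omega)⟩
    by_cases h2 : i < 180
    · exact ⟨_, y2, mem_rg.2 (show 120 ≤ i ∧ i < 120 + 60 from by omega)⟩
    by_cases h3 : i < 240
    · exact ⟨_, y3, mem_rg.2 (show 180 ≤ i ∧ i < 180 + 60 from by omega)⟩
    by_cases h4 : i < 300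
    · exact ⟨_, y4, mem_rg.2 (show 240 ≤ i ∧ i < 240 + 60 from by omega)⟩
    by_cases h5 : i < 360
    · exact ⟨_, y5, mem_rg.2 (show 300 ≤ i ∧ i < 300 + 60 from by omega)⟩
    exact ⟨_, y6, mem_rg.2 (show 360 ≤ i ∧ i < 360 + 20 from by omega)⟩
  · have hi2 : i < 380 := hi
    by_cases h0 : i < 40
    · exact ⟨_, v0, mem_rg.2 (show 0 ≤ i ∧ i < 0 + 40 from by omega)⟩
    by_cases h1 : i < 80
    · exact ⟨_, v1, mem_rg.2 (show 40 ≤ i ∧ i < 40 + 40 from by omega)⟩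
    by_cases h2 : i < 120
    · exact ⟨_, v2, mem_rg.2 (show 80 ≤ i ∧ i < 80 + 40 from by omega)⟩
    by_cases h3 : i < 160
    · exact ⟨_, v3, mem_rg.2 (show 120 ≤ i ∧ i < 120 + 40 from by omega)⟩
    by_cases h4 : i < 200
    · exact ⟨_, v4, mem_rg.2 (show 160 ≤ i ∧ i < 160 + 40 from by omega)⟩
    by_cases h5 : i < 240
    · exact ⟨_, v5, mem_rg.2 (show 200 ≤ i ∧ i < 200 + 40 from by omega)⟩
    by_cases h6 : i < 280
    · exact ⟨_, v6, mem_rg.2 (show 240 ≤ i ∧ i < 240 + 40 from by omega)⟩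
    by_cases h7 : i < 320
    · exact ⟨_, v7, mem_rg.2 (show 280 ≤ i ∧ i < 280 + 40 from by omega)⟩
    by_cases h8 : i < 360
    · exact ⟨_, v8, mem_rg.2 (show 320 ≤ i ∧ i < 320 + 40 from by omega)⟩
    exact ⟨_, v9, mem_rg.2 (show 360 ≤ i ∧ i < 360 + 20 from by omega)⟩
  · have hi2 : i < 380 := hi
    have hm2 : 380 ≤ i := hm
    omega

theorem nb11 : Pool.Agent.AKX.lk D.nbP (nat_lit 11) = nat_lit 371 := by decide +kernel
theorem nb11' : Pool.Agent.AKX.lk D.nbP 11 = 371 := nb11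
theorem ln11 : (nthR [] D.BL (nat_lit 11)).length = nat_lit 371 := by decide +kernel
theorem ln11' : (nthR [] D.BL 11).length = 371 := ln11

theorem b11 : PsdB P11 D.sb (Pool.Agent.AKX.lk D.nbP 11) D.nk D.off D.offe (nthR [] D.BL 11)
    (fun k => nthL D.lamL (3 * 11 + k)) (fun k => nthL D.evL (3 * 11 + k)) := by
  rw [nb11']
  obtain ⟨z, y0, y1, y2, y3, y4, y5, y6, v0, v1, v2, v3, v4, v5, v6, v7, v8, v9⟩ := p11
  refine ⟨z, fun i hi => ?_, ln11', fun i hi => ?_, fun i hi hm => ?_⟩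
  · have hi2 : i < 371 := hi
    by_cases h0 : i < 60
    · exact ⟨_, y0, mem_rg.2 (show 0 ≤ i ∧ i < 0 + 60 from by omega)⟩
    by_cases h1 : i < 120
    · exact ⟨_, y1, mem_rg.2 (show 60 ≤ i ∧ i < 60 + 60 from by omega)⟩
    by_cases h2 : i < 180
    · exact ⟨_, y2, mem_rg.2 (show 120 ≤ i ∧ i < 120 + 60 from by omega)⟩
    by_cases h3 : i < 240
    · exact ⟨_, y3, mem_rg.2 (show 180 ≤ i ∧ i < 180 + 60 from by omega)⟩
    by_cases h4 : i < 300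
    · exact ⟨_, y4, mem_rg.2 (show 240 ≤ i ∧ i < 240 + 60 from by omega)⟩
    by_cases h5 : i < 360
    · exact ⟨_, y5, mem_rg.2 (show 300 ≤ i ∧ i < 300 + 60 from by omega)⟩
    exact ⟨_, y6, mem_rg.2 (show 360 ≤ i ∧ i < 360 + 11 from by omega)⟩
  · have hi2 : i < 371 := hi
    by_cases h0 : i < 40
    · exact ⟨_, v0, mem_rg.2 (show 0 ≤ i ∧ i < 0 + 40 from by omega)⟩
    by_cases h1 : i < 80
    · exact ⟨_, v1, mem_rg.2 (show 40 ≤ i ∧ i < 40 + 40 from by omega)⟩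
    by_cases h2 : i < 120
    · exact ⟨_, v2, mem_rg.2 (show 80 ≤ i ∧ i < 80 + 40 from by omega)⟩
    by_cases h3 : i < 160
    · exact ⟨_, v3, mem_rg.2 (show 120 ≤ i ∧ i < 120 + 40 from by omega)⟩
    by_cases h4 : i < 200
    · exact ⟨_, v4, mem_rg.2 (show 160 ≤ i ∧ i < 160 + 40 from by omega)⟩
    by_cases h5 : i < 240
    · exact ⟨_, v5, mem_rg.2 (show 200 ≤ i ∧ i < 200 + 40 from by omega)⟩
    by_cases h6 : i < 280
    · exact ⟨_, v6, mem_rg.2 (show 240 ≤ i ∧ i < 240 + 40 from by omega)⟩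
    by_cases h7 : i < 320
    · exact ⟨_, v7, mem_rg.2 (show 280 ≤ i ∧ i < 280 + 40 from by omega)⟩
    by_cases h8 : i < 360
    · exact ⟨_, v8, mem_rg.2 (show 320 ≤ i ∧ i < 320 + 40 from by omega)⟩
    exact ⟨_, v9, mem_rg.2 (show 360 ≤ i ∧ i < 360 + 11 from by omega)⟩
  · have hi2 : i < 371 := hi
    have hm2 : 371 ≤ i := hm
    omega

theorem nb12 : Pool.Agent.AKX.lk D.nbP (nat_lit 12) = nat_lit 468 := by decide +kernel
theorem nb12' : Pool.Agent.AKX.lk D.nbP 12 = 468 := nb12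
theorem ln12 : (nthR [] D.BL (nat_lit 12)).length = nat_lit 468 := by decide +kernel
theorem ln12' : (nthR [] D.BL 12).length = 468 := ln12

theorem b12 : PsdB P12 D.sb (Pool.Agent.AKX.lk D.nbP 12) D.nk D.off D.offe (nthR [] D.BL 12)
    (fun k => nthL D.lamL (3 * 12 + k)) (fun k => nthL D.evL (3 * 12 + k)) := by
  rw [nb12']
  obtain ⟨z, y0, y1, y2, y3, y4, y5, y6, y7, v0, v1, v2, v3, v4, v5, v6, v7, v8, v9, v10, v11⟩ := p12
  refine ⟨z, fun i hi => ?_, ln12', fun i hi => ?_, fun i hi hm => ?_⟩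
  · have hi2 : i < 468 := hi
    by_cases h0 : i < 60
    · exact ⟨_, y0, mem_rg.2 (show 0 ≤ i ∧ i < 0 + 60 from by omega)⟩
    by_cases h1 : i < 120
    · exact ⟨_, y1, mem_rg.2 (show 60 ≤ i ∧ i < 60 + 60 from by omega)⟩
    by_cases h2 : i < 180
    · exact ⟨_, y2, mem_rg.2 (show 120 ≤ i ∧ i < 120 + 60 from by omega)⟩
    by_cases h3 : i < 240
    · exact ⟨_, y3, mem_rg.2 (show 180 ≤ i ∧ i < 180 + 60 from by omega)⟩
    by_cases h4 : i < 300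
    · exact ⟨_, y4, mem_rg.2 (show 240 ≤ i ∧ i < 240 + 60 from by omega)⟩
    by_cases h5 : i < 360
    · exact ⟨_, y5, mem_rg.2 (show 300 ≤ i ∧ i < 300 + 60 from by omega)⟩
    by_cases h6 : i < 420
    · exact ⟨_, y6, mem_rg.2 (show 360 ≤ i ∧ i < 360 + 60 from by omega)⟩
    exact ⟨_, y7, mem_rg.2 (show 420 ≤ i ∧ i < 420 + 48 from by omega)⟩
  · have hi2 : i < 468 := hi
    by_cases h0 : i < 40
    · exact ⟨_, v0, mem_rg.2 (show 0 ≤ i ∧ i < 0 + 40 from by omega)⟩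
    by_cases h1 : i < 80
    · exact ⟨_, v1, mem_rg.2 (show 40 ≤ i ∧ i < 40 + 40 from by omega)⟩
    by_cases h2 : i < 120
    · exact ⟨_, v2, mem_rg.2 (show 80 ≤ i ∧ i < 80 + 40 from by omega)⟩
    by_cases h3 : i < 160
    · exact ⟨_, v3, mem_rg.2 (show 120 ≤ i ∧ i < 120 + 40 from by omega)⟩
    by_cases h4 : i < 200
    · exact ⟨_, v4, mem_rg.2 (show 160 ≤ i ∧ i < 160 + 40 from by omega)⟩
    by_cases h5 : i < 240
    · exact ⟨_, v5, mem_rg.2 (show 200 ≤ i ∧ i < 200 + 40 from by omega)⟩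
    by_cases h6 : i < 280
    · exact ⟨_, v6, mem_rg.2 (show 240 ≤ i ∧ i < 240 + 40 from by omega)⟩
    by_cases h7 : i < 320
    · exact ⟨_, v7, mem_rg.2 (show 280 ≤ i ∧ i < 280 + 40 from by omega)⟩
    by_cases h8 : i < 360
    · exact ⟨_, v8, mem_rg.2 (show 320 ≤ i ∧ i < 320 + 40 from by omega)⟩
    by_cases h9 : i < 400
    · exact ⟨_, v9, mem_rg.2 (show 360 ≤ i ∧ i < 360 + 40 from by omega)⟩
    by_cases h10 : i < 440
    · exact ⟨_, v10, mem_rg.2 (show 400 ≤ i ∧ i < 400 + 40 from by omega)⟩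
    exact ⟨_, v11, mem_rg.2 (show 440 ≤ i ∧ i < 440 + 28 from by omega)⟩
  · have hi2 : i < 468 := hi
    have hm2 : 468 ≤ i := hm
    omega

theorem bq : PsdB Pq 64 D.nt 0 D.off0 0 D.q0L (fun _ => 0) (fun _ => 0) := by
  obtain ⟨z, y0, v0, v1⟩ := pq
  refine ⟨z, fun i hi => ?_, rfl, fun i hi => ?_, fun i hi hm => ?_⟩
  · have hi2 : i < 58 := hi
    exact ⟨_, y0, mem_rg.2 (show 0 ≤ i ∧ i < 0 + 58 from by omega)⟩
  · have hi2 : i < 58 := hi
    by_cases h0 : i < 40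
    · exact ⟨_, v0, mem_rg.2 (show 0 ≤ i ∧ i < 0 + 40 from by omega)⟩
    exact ⟨_, v1, mem_rg.2 (show 40 ≤ i ∧ i < 40 + 18 from by omega)⟩
  · have hi2 : i < 58 := hi
    have hm2 : 58 ≤ i := hm
    omega

theorem bz : PsdB Pz 64 D.nt 0 D.oz 0 D.zL (fun _ => 0) (fun _ => 0) := by
  obtain ⟨z, y0, v0, v1⟩ := pz
  refine ⟨z, fun i hi => ?_, rfl, fun i hi => ?_, fun i hi hm => ?_⟩
  · have hi2 : i < 58 := hi
    exact ⟨_, y0, mem_rg.2 (show 0 ≤ i ∧ i < 0 + 58 from by omega)⟩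
  · have hi2 : i < 58 := hi
    by_cases h0 : i < 40
    · exact ⟨_, v0, mem_rg.2 (show 0 ≤ i ∧ i < 0 + 40 from by omega)⟩
    exact ⟨_, v1, mem_rg.2 (show 40 ≤ i ∧ i < 40 + 18 from by omega)⟩
  · have hi2 : i < 58 := hi
    have hm2 : 58 ≤ i := hm
    omega

noncomputable def PL (o : Nat) : Pd := nthR P0 [P0, P1, P2, P3, P4, P5, P6, P7, P8, P9, P10, P11, P12] o

theorem bl (o : Nat) (ho : o < 13) : PsdB (PL o) D.sb (Pool.Agent.AKX.lk D.nbP o) D.nk D.off D.offe (nthR [] D.BL o)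
    (fun k => nthL D.lamL (3 * o + k)) (fun k => nthL D.evL (3 * o + k)) := by
  interval_cases o
  · exact b0
  · exact b1
  · exact b2
  · exact b3
  · exact b4
  · exact b5
  · exact b6
  · exact b7
  · exact b8
  · exact b9
  · exact b10
  · exact b11
  · exact b12

end Pool.Agent.AKXS_42_46_VA
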